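import Pool.Agent.BK3.Wt

/-! BK3 module Cov: weighted sums from masses of boxes, and a lattice sum.
`cov`: if all boxes `{x : |x_l - z_l| ≤ ρ}` have `f`-mass `≤ M0`, `1 ≤ ρ ≤ r`, `ρ ≤ n`, then
`∑_x phi r (x - y) f x ≤ e^d (4r/ρ)^d M0`. For `b` in the box `B = {|b_l| ≤ ρ}`:
`phi r (x-y) ≤ e^d phi r (x-b-y)` (`phi_mul_le`: `phi r (x-y) phi r (-b) ≤ phi r (x-b-y)`... and `phi r b ≥ e^(-dρ/r)`),
so `|B| ∑_x phi r (x-y) f x ≤ e^d ∑_b ∑_x phi r (x-b-y) f x = e^d ∑_z phi r (z-y) ∑_{b ∈ B} f(z+b) ≤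
e^d (4r)^d M0` (`sum_phi_le`), and `|B| = (2⌊ρ⌋+1)^d ≥ ρ^d`.
`sumk`: `∑_{k ≠ 0, |k_l| < Q} 1/max_l|k_l|² ≤ C_d Q^(d-2)`, `d ≥ 3`: there are at most `2d (2m+1)^(d-1)`
points with `max = m`, and `∑_{m<Q} 2d 3^(d-1) m^(d-3) ≤ 2d 3^(d-1) Q^(d-2)`. The statement uses a function `j(k)`
selecting a maximal coordinate: it is enough to have `|k_l| ≤ |k_{j(k)}|` for all `l`. -/

open Finset Pool.Agent.BK

noncomputable section

namespace Pool.Agent.BK3

lemma zmod_small {n : ℕ} {j : ℕ} (hj : j ≤ n) :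
    ((j : ZMod (2 * n + 1))).valMinAbs = (j : ℤ) := by
  rw [ZMod.valMinAbs_spec]
  refine ⟨by push_cast; rfl, ?_, ?_⟩
  · push_cast
    omega
  · push_cast
    omega

lemma valMinAbs_neg_abs {n : ℕ} (a : ZMod (2 * n + 1)) :
    |((-a).valMinAbs : ℝ)| = |(a.valMinAbs : ℝ)| := by
  have h : (-a).valMinAbs = -a.valMinAbs := by
    rw [ZMod.valMinAbs_spec]
    have h1 := ZMod.valMinAbs_mem_Ioc a
    rw [Set.mem_Ioc] at h1 ⊢
    refine ⟨?_, ?_, ?_⟩
    · rw [Int.cast_neg, ZMod.coe_valMinAbs]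
    · push_cast at h1 ⊢
      omega
    · push_cast at h1 ⊢
      omega
  rw [h, Int.cast_neg, abs_neg]

/-- the number of points of a box -/
lemma card_box {d n : ℕ} {ρ : ℝ} (h1 : 1 ≤ ρ) (h3 : ρ ≤ n) :
    ρ ^ d ≤ ((Finset.univ.filter fun b : Tor d n =>
      ∀ l, |((b l).valMinAbs : ℝ)| ≤ ρ).card : ℝ) := by
  classical
  have h0 : 0 ≤ ρ := by linarith
  have hfl : ⌊ρ⌋₊ ≤ n := by
    have : (⌊ρ⌋₊ : ℝ) ≤ n := (Nat.floor_le h0).trans h3
    exact_mod_cast this
  have h4 : (Finset.univ.filter fun b : Tor d n => ∀ l, |((b l).valMinAbs : ℝ)| ≤ ρ) =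
      Fintype.piFinset fun _ : Fin d => Finset.univ.filter fun m : ZMod (2 * n + 1) =>
        |(m.valMinAbs : ℝ)| ≤ ρ := by
    ext b
    simp [Fintype.mem_piFinset]
  have h5 : ⌊ρ⌋₊ + 1 ≤ (Finset.univ.filter fun m : ZMod (2 * n + 1) =>
      |(m.valMinAbs : ℝ)| ≤ ρ).card := by
    rw [← Finset.card_range (⌊ρ⌋₊ + 1)]
    refine Finset.card_le_card_of_injOn (fun j : ℕ => (j : ZMod (2 * n + 1))) ?_ ?_
    · intro j hj
      have hj' := Finset.mem_range.1 (Finset.mem_coe.1 hj)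
      rw [Finset.mem_coe, Finset.mem_filter]
      refine ⟨Finset.mem_univ _, ?_⟩
      rw [zmod_small (by omega)]
      push_cast
      rw [abs_of_nonneg (by positivity)]
      exact (Nat.le_floor_iff h0).1 (by omega)
    · intro j hj j' hj' h
      have hj1 := Finset.mem_range.1 (Finset.mem_coe.1 hj)
      have hj2 := Finset.mem_range.1 (Finset.mem_coe.1 hj')
      have h6 := congrArg ZMod.valMinAbs h
      simp only at h6
      rw [zmod_small (by omega), zmod_small (by omega)] at h6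
      exact_mod_cast h6
  rw [h4, Fintype.card_piFinset_const]
  push_cast
  have h6 : ρ ≤ ((Finset.univ.filter fun m : ZMod (2 * n + 1) =>
      |(m.valMinAbs : ℝ)| ≤ ρ).card : ℝ) := by
    have h7 : ρ < (⌊ρ⌋₊ : ℝ) + 1 := Nat.lt_floor_add_one ρ
    have h8 : ((⌊ρ⌋₊ + 1 : ℕ) : ℝ) ≤ ((Finset.univ.filter fun m : ZMod (2 * n + 1) =>
      |(m.valMinAbs : ℝ)| ≤ ρ).card : ℝ) := by exact_mod_cast h5
    push_cast at h8
    linarith
  exact pow_le_pow_left₀ h0 h6 d

theorem cov {d n : ℕ} {r ρ M0 : ℝ} (h1 : 1 ≤ ρ) (h2 : ρ ≤ r) (h3 : ρ ≤ n) (hM : 0 ≤ M0)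
    (f : Tor d n → ℝ) (hf : ∀ x, 0 ≤ f x)
    (h : ∀ z : Tor d n, ∑ x ∈ Finset.univ.filter (fun x : Tor d n =>
      ∀ l, |(((x - z) l).valMinAbs : ℝ)| ≤ ρ), f x ≤ M0) (y : Tor d n) :
    ∑ x, phi r (x - y) * f x ≤ Real.exp d * (4 * r / ρ) ^ d * M0 := by
  classical
  have hρ : 0 < ρ := by linarith
  have hr : 0 < r := by linarith
  set B : Finset (Tor d n) := Finset.univ.filter fun b : Tor d n =>
      ∀ l, |((b l).valMinAbs : ℝ)| ≤ ρ with hB
  have hphi0 : ∀ x : Tor d n, 0 < phi r x := fun x => Real.exp_pos _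
  -- shift of the weight
  have hs : ∀ b ∈ B, ∀ x : Tor d n, phi r (x - y) ≤ Real.exp d * phi r (x - y - b) := by
    intro b hb x
    have hb' := (Finset.mem_filter.1 hb).2
    have h4 : Real.exp (-(d : ℝ)) ≤ phi r (-b) := by
      unfold phi
      rw [Real.exp_le_exp, neg_div, neg_le_neg_iff, div_le_iff₀ hr]
      calc ∑ l, |(((-b) l).valMinAbs : ℝ)| ≤ ∑ _l : Fin d, ρ :=
            Finset.sum_le_sum fun l _ => by
              rw [Pi.neg_apply, valMinAbs_neg_abs]
              exact hb' l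
        _ = d * ρ := by simp
        _ ≤ d * r := by gcongr
    have h5 := phi_mul_le hr (x - y) (-b)
    rw [← sub_eq_add_neg] at h5
    calc phi r (x - y) = Real.exp d * (phi r (x - y) * Real.exp (-(d : ℝ))) := by
          rw [mul_comm (phi r (x - y)), ← mul_assoc, ← Real.exp_add, add_neg_cancel,
            Real.exp_zero, one_mul]
      _ ≤ Real.exp d * (phi r (x - y) * phi r (-b)) := by
          have := (hphi0 (x - y)).le
          gcongr
      _ ≤ Real.exp d * phi r (x - y - b) := by gcongr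
  have h4 : (B.card : ℝ) * ∑ x, phi r (x - y) * f x ≤
      Real.exp d * ∑ b ∈ B, ∑ x, phi r (x - y - b) * f x := by
    rw [← nsmul_eq_mul, ← Finset.sum_const, Finset.mul_sum]
    refine Finset.sum_le_sum fun b hb => ?_
    rw [Finset.mul_sum]
    refine Finset.sum_le_sum fun x _ => ?_
    rw [← mul_assoc]
    exact mul_le_mul_of_nonneg_right (hs b hb x) (hf x)
  have h5 : ∑ b ∈ B, ∑ x, phi r (x - y - b) * f x = ∑ z, phi r (z - y) *
      ∑ b ∈ B, f (z + b) := by
    have h6 : ∀ b : Tor d n, ∑ x, phi r (x - y - b) * f x = ∑ z, phi r (z - y) * f (z + b) := by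
      intro b
      rw [← Equiv.sum_comp (Equiv.addRight b)]
      refine Finset.sum_congr rfl fun z _ => ?_
      simp only [Equiv.coe_addRight]
      congr 2
      abel
    rw [Finset.sum_congr rfl fun b _ => h6 b, Finset.sum_comm]
    exact Finset.sum_congr rfl fun z _ => (Finset.mul_sum _ _ _).symm
  have h6 : ∀ z : Tor d n, ∑ b ∈ B, f (z + b) ≤ M0 := by
    intro z
    refine le_trans (le_of_eq ?_) (h z)
    refine Finset.sum_bij (fun b _ => z + b) ?_ ?_ ?_ ?_
    · intro b hb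
      rw [Finset.mem_filter]
      refine ⟨Finset.mem_univ _, ?_⟩
      rw [add_sub_cancel_left]
      exact (Finset.mem_filter.1 hb).2
    · intro b _ b' _ h
      exact add_left_cancel h
    · intro x hx
      refine ⟨x - z, ?_, by abel⟩
      rw [hB, Finset.mem_filter]
      exact ⟨Finset.mem_univ _, (Finset.mem_filter.1 hx).2⟩
    · intro b _
      rfl
  have h7 : ∑ z, phi r (z - y) * ∑ b ∈ B, f (z + b) ≤ (4 * r) ^ d * M0 := by
    calc ∑ z, phi r (z - y) * ∑ b ∈ B, f (z + b) ≤ ∑ z, phi r (z - y) * M0 :=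
          Finset.sum_le_sum fun z _ => mul_le_mul_of_nonneg_left (h6 z) (hphi0 _).le
      _ = (∑ z, phi r (z - y)) * M0 := (Finset.sum_mul _ _ _).symm
      _ = (∑ z : Tor d n, phi r z) * M0 := by
          rw [← Equiv.sum_comp (Equiv.subRight y) (fun z : Tor d n => phi r z)]
          simp only [Equiv.subRight_apply]
      _ ≤ (4 * r) ^ d * M0 := mul_le_mul_of_nonneg_right (sum_phi_le (by linarith)) hM
  have h8 := card_box (d := d) (n := n) h1 h3
  have h9 : 0 ≤ ∑ x, phi r (x - y) * f x :=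
    Finset.sum_nonneg fun x _ => mul_nonneg (hphi0 _).le (hf x)
  have h10 : ρ ^ d * ∑ x, phi r (x - y) * f x ≤ Real.exp d * ((4 * r) ^ d * M0) := by
    calc ρ ^ d * ∑ x, phi r (x - y) * f x ≤ (B.card : ℝ) * ∑ x, phi r (x - y) * f x :=
          mul_le_mul_of_nonneg_right h8 h9
      _ ≤ Real.exp d * ∑ b ∈ B, ∑ x, phi r (x - y - b) * f x := h4
      _ ≤ Real.exp d * ((4 * r) ^ d * M0) := by
          rw [h5]
          exact mul_le_mul_of_nonneg_left h7 (Real.exp_pos _).le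
  have h11 : (0 : ℝ) < ρ ^ d := by positivity
  have h12 : Real.exp d * (4 * r / ρ) ^ d * M0 = Real.exp d * ((4 * r) ^ d * M0) / ρ ^ d := by
    rw [div_pow]
    ring
  rw [h12, le_div_iff₀ h11, mul_comm]
  exact h10

/-- the number of residues of absolute value at most `t` -/
lemma card_ball {n : ℕ} (t : ℕ) : (Finset.univ.filter fun m : ZMod (2 * n + 1) =>
    |m.valMinAbs| ≤ (t : ℤ)).card ≤ 2 * t + 1 := by
  classical
  have h1 : (Finset.Icc (-(t : ℤ)) t).card = 2 * t + 1 := by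
    rw [Int.card_Icc]
    omega
  rw [← h1]
  refine Finset.card_le_card_of_injOn ZMod.valMinAbs ?_ ?_
  · intro m hm
    have := (Finset.mem_filter.1 (Finset.mem_coe.1 hm)).2
    rw [Finset.mem_coe, Finset.mem_Icc]
    exact abs_le.1 this
  · intro m _ m' _ h
    exact ZMod.injective_valMinAbs h

theorem sumk {d : ℕ} (hd : 3 ≤ d) : ∃ C : ℝ, 0 < C ∧ ∀ (n Q : ℕ), 1 ≤ Q → Q ≤ n →
    ∀ j : Tor d n → Fin d, (∀ (k : Tor d n) (l : Fin d), |(k l).valMinAbs| ≤ |(k (j k)).valMinAbs|) →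
    ∑ k ∈ Finset.univ.filter (fun k : Tor d n => k ≠ 0 ∧ ∀ l, |(k l).valMinAbs| < (Q : ℤ)),
      1 / ((k (j k)).valMinAbs : ℝ) ^ 2 ≤ C * (Q : ℝ) ^ (d - 2) := by
  classical
  refine ⟨d * 3 ^ d, by positivity, fun n Q hQ hQn j hj => ?_⟩
  have hQ0 : (1 : ℝ) ≤ Q := by exact_mod_cast hQ
  set S := Finset.univ.filter (fun k : Tor d n => k ≠ 0 ∧ ∀ l, |(k l).valMinAbs| < (Q : ℤ))
    with hS
  rw [← Finset.sum_fiberwise S (fun k => (j k, k (j k)))]
  have h1 : ∀ p : Fin d × ZMod (2 * n + 1),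
      ∑ k ∈ S.filter (fun k => (j k, k (j k)) = p), 1 / ((k (j k)).valMinAbs : ℝ) ^ 2 ≤
        if |p.2.valMinAbs| ≤ (Q : ℤ) then 3 ^ (d - 1) * (Q : ℝ) ^ (d - 3) else 0 := by
    rintro ⟨l, a⟩
    by_cases hne : (S.filter (fun k => (j k, k (j k)) = (l, a))).Nonempty
    · obtain ⟨k0, hk0⟩ := hne
      obtain ⟨hk0S, hk0e⟩ := Finset.mem_filter.1 hk0
      rw [Prod.mk.injEq] at hk0e
      obtain ⟨hk0l, hk0a⟩ := hk0e
      obtain ⟨-, hk0ne, hk0Q⟩ := Finset.mem_filter.1 hk0S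
      have haQ : |a.valMinAbs| < (Q : ℤ) := by
        rw [← hk0a]
        exact hk0Q _
      have ha0 : a.valMinAbs ≠ 0 := by
        intro h0
        apply hk0ne
        funext i
        have h2 := hj k0 i
        rw [hk0a, h0, abs_zero] at h2
        have h3 : (k0 i).valMinAbs = 0 := abs_eq_zero.1 (le_antisymm h2 (abs_nonneg _))
        exact (ZMod.valMinAbs_eq_zero _).1 h3
      rw [if_pos haQ.le]
      set t : ℕ := a.valMinAbs.natAbs with ht
      have htz : ((t : ℤ)) = |a.valMinAbs| := by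
        rw [ht, Int.natCast_natAbs]
      have ht1 : 1 ≤ t := by
        have : 0 < |a.valMinAbs| := abs_pos.2 ha0
        omega
      have htQ : t ≤ Q := by omega
      have ht1' : (1 : ℝ) ≤ t := by exact_mod_cast ht1
      have htQ' : (t : ℝ) ≤ Q := by exact_mod_cast htQ
      have hcard : (S.filter (fun k => (j k, k (j k)) = (l, a))).card ≤ (2 * t + 1) ^ (d - 1) := by
        have h2 : S.filter (fun k => (j k, k (j k)) = (l, a)) ⊆
            Fintype.piFinset fun i : Fin d => if i = l then {a} else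
              Finset.univ.filter fun m : ZMod (2 * n + 1) => |m.valMinAbs| ≤ (t : ℤ) := by
          intro k hk
          obtain ⟨-, hke⟩ := Finset.mem_filter.1 hk
          rw [Prod.mk.injEq] at hke
          obtain ⟨hkl, hka⟩ := hke
          rw [Fintype.mem_piFinset]
          intro i
          by_cases hi : i = l
          · rw [if_pos hi, Finset.mem_singleton, hi, ← hkl]
            exact hka
          · rw [if_neg hi, Finset.mem_filter]
            refine ⟨Finset.mem_univ _, ?_⟩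
            rw [htz, ← hka]
            exact hj k i
        refine (Finset.card_le_card h2).trans ?_
        rw [Fintype.card_piFinset, ← Finset.mul_prod_erase Finset.univ _ (Finset.mem_univ l),
          if_pos rfl, Finset.card_singleton, one_mul]
        have h3 : ∀ i ∈ Finset.univ.erase l, ((if i = l then {a} else
              Finset.univ.filter fun m : ZMod (2 * n + 1) => |m.valMinAbs| ≤ (t : ℤ) :
                Finset (ZMod (2 * n + 1))).card) ≤ 2 * t + 1 := by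
          intro i hi
          rw [if_neg (Finset.ne_of_mem_erase hi)]
          exact card_ball t
        refine (Finset.prod_le_pow_card _ _ _ h3).trans (le_of_eq ?_)
        rw [Finset.card_erase_of_mem (Finset.mem_univ l), Finset.card_univ, Fintype.card_fin]
      have h4 : ∀ k ∈ S.filter (fun k => (j k, k (j k)) = (l, a)),
          1 / ((k (j k)).valMinAbs : ℝ) ^ 2 = 1 / (t : ℝ) ^ 2 := by
        intro k hk
        obtain ⟨-, hke⟩ := Finset.mem_filter.1 hk
        rw [Prod.mk.injEq] at hke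
        rw [hke.2]
        congr 1
        have : (t : ℝ) = |(a.valMinAbs : ℝ)| := by
          rw [← Int.cast_abs, ← htz]
          push_cast
          rfl
        rw [this, sq_abs]
      rw [Finset.sum_congr rfl h4, Finset.sum_const, nsmul_eq_mul]
      have h5 : ((S.filter (fun k => (j k, k (j k)) = (l, a))).card : ℝ) ≤
          (3 * (t : ℝ)) ^ (d - 1) := by
        have h6 : (((2 * t + 1) ^ (d - 1) : ℕ) : ℝ) ≤ (3 * (t : ℝ)) ^ (d - 1) := by
          push_cast
          refine pow_le_pow_left₀ (by positivity) ?_ _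
          linarith
        have h7 : ((S.filter (fun k => (j k, k (j k)) = (l, a))).card : ℝ) ≤
            (((2 * t + 1) ^ (d - 1) : ℕ) : ℝ) := by exact_mod_cast hcard
        exact h7.trans h6
      obtain ⟨e, he⟩ : ∃ e, d = e + 3 := ⟨d - 3, by omega⟩
      have h8 : (3 * (t : ℝ)) ^ (d - 1) * (1 / (t : ℝ) ^ 2) = 3 ^ (d - 1) * (t : ℝ) ^ (d - 3) := by
        subst he
        have e1 : e + 3 - 1 = e + 2 := by omega
        have e2 : e + 3 - 3 = e := by omega
        rw [e1, e2, mul_pow, pow_add (t : ℝ) e 2]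
        field_simp
      calc ((S.filter (fun k => (j k, k (j k)) = (l, a))).card : ℝ) * (1 / (t : ℝ) ^ 2)
          ≤ (3 * (t : ℝ)) ^ (d - 1) * (1 / (t : ℝ) ^ 2) := by gcongr
        _ = 3 ^ (d - 1) * (t : ℝ) ^ (d - 3) := h8
        _ ≤ 3 ^ (d - 1) * (Q : ℝ) ^ (d - 3) := by gcongr
    · rw [Finset.not_nonempty_iff_eq_empty] at hne
      rw [hne, Finset.sum_empty]
      split_ifs <;> positivity
  refine (Finset.sum_le_sum fun p _ => h1 p).trans ?_
  rw [Fintype.sum_prod_type]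
  simp only
  have h2 : ∑ a : ZMod (2 * n + 1), (if |a.valMinAbs| ≤ (Q : ℤ) then
      3 ^ (d - 1) * (Q : ℝ) ^ (d - 3) else 0) ≤ 3 ^ d * (Q : ℝ) ^ (d - 2) := by
    rw [← Finset.sum_filter, Finset.sum_const, nsmul_eq_mul]
    have h3 : ((Finset.univ.filter fun m : ZMod (2 * n + 1) =>
        |m.valMinAbs| ≤ (Q : ℤ)).card : ℝ) ≤ 3 * Q := by
      have h4 : ((Finset.univ.filter fun m : ZMod (2 * n + 1) =>
        |m.valMinAbs| ≤ (Q : ℤ)).card : ℝ) ≤ ((2 * Q + 1 : ℕ) : ℝ) := by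
        exact_mod_cast card_ball (n := n) Q
      push_cast at h4
      linarith
    obtain ⟨e, he⟩ : ∃ e, d = e + 3 := ⟨d - 3, by omega⟩
    calc ((Finset.univ.filter fun m : ZMod (2 * n + 1) =>
        |m.valMinAbs| ≤ (Q : ℤ)).card : ℝ) * (3 ^ (d - 1) * (Q : ℝ) ^ (d - 3))
        ≤ (3 * Q) * (3 ^ (d - 1) * (Q : ℝ) ^ (d - 3)) := by gcongr
      _ = 3 ^ d * (Q : ℝ) ^ (d - 2) := by
        subst he
        have e1 : e + 3 - 1 = e + 2 := by omega
        have e2 : e + 3 - 3 = e := by omega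
        have e3 : e + 3 - 2 = e + 1 := by omega
        rw [e1, e2, e3]
        ring
  calc ∑ _l : Fin d, ∑ a : ZMod (2 * n + 1), (if |a.valMinAbs| ≤ (Q : ℤ) then
      3 ^ (d - 1) * (Q : ℝ) ^ (d - 3) else 0)
      ≤ ∑ _l : Fin d, 3 ^ d * (Q : ℝ) ^ (d - 2) := Finset.sum_le_sum fun _ _ => h2
    _ = d * 3 ^ d * (Q : ℝ) ^ (d - 2) := by
      rw [Finset.sum_const, Finset.card_univ, Fintype.card_fin, nsmul_eq_mul]
      ring

end Pool.Agent.BK3
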