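import Pool.Agent.BK.Dft1

/-! BK3 module Fej: masses of boxes from the Fourier transform (Fejer kernel). For `f ≥ 0` on the torus and
`1 ≤ Q ≤ n`:
`∑_{x : |x_l - z_l| 2Q ≤ 2n+1 for all l} f x ≤ 3^d Q^(-d) ∑_{k : |k_l| < Q for all l} |∑_x f x ch k x|`.
`fej1` (one dimension): `F(x) = |∑_{j<Q} e(jx/(2n+1))|² = ∑_{|m|<Q} (Q - |m|) e(mx/(2n+1)) ≥ 0`, and if
`2Q|x| ≤ 2n+1` then `θ = 2πx/(2n+1)` has `|θ| ≤ π/Q` and `|∑_{j<Q} e^{ijθ}| = |sin(Qθ/2)/sin(θ/2)| ≥ 2Q/π`
(`sin a ≥ 2a/π` on `[0, π/2]`, `sin a ≤ a`), so `F(x)/Q ≥ 4Q/π² ≥ Q/3`... (`π² ≤ 12`). Product over the coordinates,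
expand: the coefficient of `ch k (x - z)` is `∏ (1 - |k_l|/Q) ∈ [0, 1]`, zero unless all `|k_l| < Q`
(representatives `valMinAbs`; `Q ≤ n` so that `m ↦ (m : ZMod (2n+1))` is injective on `|m| < Q`).
Real part/norm: `∑_x f x ∏ F(x_l - z_l)/Q = ∑_k coeff_k conj(ch k z) ∑_x f x ch k x`. -/

open Finset Pool.Agent.BK

noncomputable section

namespace Pool.Agent.BK3

/-- One-dimensional Fejer kernel on `ℤ/(2n+1)`, as a real function. -/
def fjk (n Q : ℕ) (x : ZMod (2 * n + 1)) : ℝ :=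
  ‖∑ j ∈ Finset.range Q, (ZMod.stdAddChar ((j : ZMod (2 * n + 1)) * x) : ℂ)‖ ^ 2 / Q

lemma fjk_nonneg (n Q : ℕ) (x : ZMod (2 * n + 1)) : 0 ≤ fjk n Q x := by
  unfold fjk
  positivity

lemma char_pow (n : ℕ) (j : ℕ) (x : ZMod (2 * n + 1)) :
    (ZMod.stdAddChar ((j : ZMod (2 * n + 1)) * x) : ℂ) = (ZMod.stdAddChar x : ℂ) ^ j := by
  rw [← nsmul_eq_mul, AddChar.map_nsmul_eq_pow]

lemma char_exp (n : ℕ) (x : ZMod (2 * n + 1)) :
    (ZMod.stdAddChar x : ℂ) = Complex.exp (Complex.I * ((ang n x : ℝ) : ℂ)) := by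
  conv_lhs => rw [← ZMod.coe_valMinAbs x]
  rw [ZMod.stdAddChar_coe]
  congr 1
  unfold ang
  push_cast
  ring

lemma fej_low {n Q : ℕ} (hQ : 1 ≤ Q) (x : ZMod (2 * n + 1))
    (hx : |(x.valMinAbs : ℝ)| * (2 * Q) ≤ 2 * n + 1) : (Q : ℝ) / 3 ≤ fjk n Q x := by
  have hQ0 : (0 : ℝ) < Q := by exact_mod_cast (by omega : 0 < Q)
  have hpi := Real.pi_pos
  have hN : (0 : ℝ) < 2 * n + 1 := by positivity
  unfold fjk
  simp only [char_pow]
  set ζ : ℂ := (ZMod.stdAddChar x : ℂ) with hζ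
  set θ : ℝ := ang n x with hθ
  have hζθ : ζ = Complex.exp (Complex.I * (θ : ℂ)) := char_exp n x
  by_cases h1 : ζ = 1
  · rw [h1]
    simp only [one_pow, Finset.sum_const, Finset.card_range, nsmul_eq_mul, mul_one,
      Complex.norm_natCast]
    rw [le_div_iff₀ hQ0]
    nlinarith
  · have hθ0 : θ ≠ 0 := by
      intro h0
      apply h1
      rw [hζθ, h0]
      simp
    have hθabs : 0 < |θ| := abs_pos.2 hθ0
    have hb : |(Q : ℝ) * θ / 2| ≤ Real.pi / 2 := by
      rw [hθ]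
      unfold ang
      rw [abs_div, abs_mul, abs_div, abs_mul, abs_of_pos hQ0, abs_of_pos (by positivity :
        (0 : ℝ) < 2 * Real.pi), abs_of_pos hN, abs_of_pos (by norm_num : (0 : ℝ) < 2)]
      rw [div_le_div_iff_of_pos_right (by norm_num : (0 : ℝ) < 2)]
      rw [mul_div_assoc', div_le_iff₀ hN]
      nlinarith [mul_le_mul_of_nonneg_left hx hpi.le]
    have h2 : ζ ^ Q = Complex.exp (Complex.I * (((Q : ℝ) * θ : ℝ) : ℂ)) := by
      rw [hζθ, ← Complex.exp_nat_mul]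
      congr 1
      push_cast
      ring
    have h3 : 2 * ((2 / Real.pi) * |(Q : ℝ) * θ / 2|) ≤ ‖ζ ^ Q - 1‖ := by
      rw [h2, Complex.norm_exp_I_mul_ofReal_sub_one, Real.norm_eq_abs, abs_mul,
        abs_of_pos (by norm_num : (0 : ℝ) < 2)]
      exact mul_le_mul_of_nonneg_left (Real.mul_abs_le_abs_sin hb) (by norm_num)
    have h4 : ‖ζ - 1‖ ≤ |θ| := by
      rw [hζθ, Complex.norm_exp_I_mul_ofReal_sub_one, Real.norm_eq_abs, abs_mul,
        abs_of_pos (by norm_num : (0 : ℝ) < 2)]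
      have h5 : |Real.sin (θ / 2)| ≤ |θ / 2| := Real.abs_sin_le_abs
      rw [abs_div, abs_of_pos (by norm_num : (0 : ℝ) < 2)] at h5
      linarith
    have h5 : 0 < ‖ζ - 1‖ := norm_pos_iff.2 (sub_ne_zero.2 h1)
    have h6 : 2 * Q / Real.pi ≤ ‖∑ j ∈ Finset.range Q, ζ ^ j‖ := by
      rw [geom_sum_eq h1, norm_div, le_div_iff₀ h5]
      refine le_trans ?_ h3
      have h7 : |(Q : ℝ) * θ / 2| = Q * |θ| / 2 := by
        rw [abs_div, abs_mul, abs_of_pos hQ0, abs_of_pos (by norm_num : (0 : ℝ) < 2)]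
      rw [h7]
      calc 2 * Q / Real.pi * ‖ζ - 1‖ ≤ 2 * Q / Real.pi * |θ| := by gcongr
        _ = 2 * (2 / Real.pi * (Q * |θ| / 2)) := by ring
    have h7 : (2 * Q / Real.pi) ^ 2 ≤ ‖∑ j ∈ Finset.range Q, ζ ^ j‖ ^ 2 :=
      pow_le_pow_left₀ (by positivity) h6 2
    have h8 : Real.pi ^ 2 ≤ 12 := by
      have := Real.pi_lt_d2
      nlinarith
    rw [le_div_iff₀ hQ0]
    refine le_trans ?_ h7
    rw [div_pow, le_div_iff₀ (by positivity)]
    nlinarith [mul_le_mul_of_nonneg_left h8 (by positivity : (0 : ℝ) ≤ Q * Q)]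

/-- Fourier expansion with coefficients in `[0, 1]`, supported in `|m| < Q`. -/
lemma fej_exp {n Q : ℕ} (hQ : 1 ≤ Q) (hQn : Q ≤ n) : ∃ w : ZMod (2 * n + 1) → ℝ,
    (∀ m, 0 ≤ w m ∧ w m ≤ 1) ∧ (∀ m, (Q : ℤ) ≤ |m.valMinAbs| → w m = 0) ∧
    ∀ x, ((fjk n Q x : ℝ) : ℂ) = ∑ m, (w m : ℂ) * (ZMod.stdAddChar (m * x) : ℂ) := by
  classical
  have hQ0 : (0 : ℝ) < Q := by exact_mod_cast (by omega : 0 < Q)
  let g : ℕ × ℕ → ZMod (2 * n + 1) := fun p => (p.1 : ZMod (2 * n + 1)) - p.2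
  let F : ZMod (2 * n + 1) → Finset (ℕ × ℕ) := fun m =>
    (Finset.range Q ×ˢ Finset.range Q).filter fun p => g p = m
  refine ⟨fun m => ((F m).card : ℝ) / Q, fun m => ⟨by positivity, ?_⟩, fun m hm => ?_,
    fun x => ?_⟩
  · rw [div_le_one hQ0]
    have h1 : (F m).card ≤ (Finset.range Q).card := by
      refine Finset.card_le_card_of_injOn Prod.fst ?_ ?_
      · intro p hp
        have := (Finset.mem_filter.1 hp).1
        exact (Finset.mem_product.1 this).1
      · intro p hp p' hp' h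
        have hp1 := Finset.mem_filter.1 hp
        have hp2 := Finset.mem_filter.1 hp'
        have h3 : g p = g p' := hp1.2.trans hp2.2.symm
        simp only [g] at h3
        rw [h] at h3
        have h4 : (p.2 : ZMod (2 * n + 1)) = p'.2 := sub_right_injective h3
        have h5 : p.2 < 2 * n + 1 := by
          have := Finset.mem_range.1 (Finset.mem_product.1 hp1.1).2
          omega
        have h6 : p'.2 < 2 * n + 1 := by
          have := Finset.mem_range.1 (Finset.mem_product.1 hp2.1).2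
          omega
        have h7 := congrArg ZMod.val h4
        rw [ZMod.val_natCast_of_lt h5, ZMod.val_natCast_of_lt h6] at h7
        exact Prod.ext h h7
    rw [Finset.card_range] at h1
    exact_mod_cast h1
  · have h1 : F m = ∅ := by
      rw [Finset.eq_empty_iff_forall_notMem]
      intro p hp
      obtain ⟨hp1, hp2⟩ := Finset.mem_filter.1 hp
      have ha := Finset.mem_range.1 (Finset.mem_product.1 hp1).1
      have hb := Finset.mem_range.1 (Finset.mem_product.1 hp1).2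
      have h2 : m.valMinAbs = (p.1 : ℤ) - p.2 := by
        rw [ZMod.valMinAbs_spec]
        refine ⟨?_, ?_, ?_⟩
        · rw [← hp2]
          simp only [g]
          push_cast
          rfl
        · push_cast
          omega
        · push_cast
          omega
      rw [h2] at hm
      have h3 : |(p.1 : ℤ) - p.2| < Q := by
        rw [abs_lt]
        omega
      omega
    simp only [h1, Finset.card_empty, Nat.cast_zero, zero_div]
  · have h1 : ((fjk n Q x : ℝ) : ℂ) = (1 / (Q : ℂ)) *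
        ∑ p ∈ Finset.range Q ×ˢ Finset.range Q, (ZMod.stdAddChar (g p * x) : ℂ) := by
      unfold fjk
      push_cast
      rw [← Complex.ofReal_pow, ← Complex.normSq_eq_norm_sq, ← Complex.mul_conj, map_sum,
        Finset.sum_mul_sum, ← Finset.sum_product', div_eq_mul_one_div, mul_comm]
      congr 1
      refine Finset.sum_congr rfl fun p _ => ?_
      simp only [g]
      rw [← AddChar.map_neg_eq_conj, ← AddChar.map_add_eq_mul]
      congr 1
      ring
    rw [h1, ← Finset.sum_fiberwise (Finset.range Q ×ˢ Finset.range Q) g, Finset.mul_sum]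
    refine Finset.sum_congr rfl fun m _ => ?_
    have h2 : ∑ p ∈ (Finset.range Q ×ˢ Finset.range Q).filter (fun p => g p = m),
        (ZMod.stdAddChar (g p * x) : ℂ) = ((F m).card : ℂ) * (ZMod.stdAddChar (m * x) : ℂ) := by
      rw [← nsmul_eq_mul, ← Finset.sum_const]
      refine Finset.sum_congr rfl fun p hp => ?_
      rw [(Finset.mem_filter.1 hp).2]
    rw [h2]
    push_cast
    ring

theorem fej {d n Q : ℕ} (hQ : 1 ≤ Q) (hQn : Q ≤ n) (f : Tor d n → ℝ) (hf : ∀ x, 0 ≤ f x)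
    (z : Tor d n) :
    ∑ x ∈ Finset.univ.filter (fun x : Tor d n =>
        ∀ l, |(((x - z) l).valMinAbs : ℝ)| * (2 * Q) ≤ 2 * n + 1), f x ≤
      3 ^ d / (Q : ℝ) ^ d * ∑ k ∈ Finset.univ.filter (fun k : Tor d n =>
        ∀ l, |(k l).valMinAbs| < (Q : ℤ)), ‖∑ x, (f x : ℂ) * ch k x‖ := by
  classical
  have hQ0 : (0 : ℝ) < Q := by exact_mod_cast (by omega : 0 < Q)
  obtain ⟨w, hw1, hw2, hw3⟩ := fej_exp (n := n) hQ hQn
  -- first step: insert the kernel
  have h1 : ∑ x ∈ Finset.univ.filter (fun x : Tor d n =>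
        ∀ l, |(((x - z) l).valMinAbs : ℝ)| * (2 * Q) ≤ 2 * n + 1), f x ≤
      3 ^ d / (Q : ℝ) ^ d * ∑ x, f x * ∏ l, fjk n Q ((x - z) l) := by
    rw [Finset.mul_sum]
    refine le_trans ?_ (Finset.sum_le_sum_of_subset_of_nonneg (Finset.filter_subset
      (fun x : Tor d n => ∀ l, |(((x - z) l).valMinAbs : ℝ)| * (2 * Q) ≤ 2 * n + 1) _)
      fun x _ _ => ?_)
    · refine Finset.sum_le_sum fun x hx => ?_
      have hx' := (Finset.mem_filter.1 hx).2
      have h2 : ((Q : ℝ) / 3) ^ d ≤ ∏ l, fjk n Q ((x - z) l) := by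
        have := Finset.prod_le_prod (s := (Finset.univ : Finset (Fin d)))
          (f := fun _ => (Q : ℝ) / 3) (g := fun l => fjk n Q ((x - z) l))
          (fun l _ => by positivity) (fun l _ => fej_low hQ _ (hx' l))
        rw [Finset.prod_const, Finset.card_univ, Fintype.card_fin] at this
        exact this
      have h3 : 3 ^ d / (Q : ℝ) ^ d * ((Q : ℝ) / 3) ^ d = 1 := by
        rw [div_pow]
        have : (Q : ℝ) ^ d ≠ 0 := by positivity
        field_simp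
      calc f x = (3 ^ d / (Q : ℝ) ^ d * ((Q : ℝ) / 3) ^ d) * f x := by rw [h3, one_mul]
        _ = 3 ^ d / (Q : ℝ) ^ d * (f x * ((Q : ℝ) / 3) ^ d) := by ring
        _ ≤ 3 ^ d / (Q : ℝ) ^ d * (f x * ∏ l, fjk n Q ((x - z) l)) := by
          have := hf x
          gcongr
    · have := hf x
      have h2 : 0 ≤ ∏ l, fjk n Q ((x - z) l) :=
        Finset.prod_nonneg fun l _ => fjk_nonneg _ _ _
      positivity
  refine h1.trans (mul_le_mul_of_nonneg_left ?_ (by positivity))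
  -- second step: expand
  have h2 : ∀ x : Tor d n, ((∏ l, fjk n Q ((x - z) l) : ℝ) : ℂ) =
      ∑ k : Tor d n, ((∏ l, w (k l) : ℝ) : ℂ) * ch k (x - z) := by
    intro x
    push_cast
    simp only [hw3]
    rw [Finset.prod_univ_sum, Fintype.piFinset_univ]
    refine Finset.sum_congr rfl fun k _ => ?_
    rw [Finset.prod_mul_distrib]
    rfl
  have h3 : ((∑ x, f x * ∏ l, fjk n Q ((x - z) l) : ℝ) : ℂ) =
      ∑ k : Tor d n, ((∏ l, w (k l) : ℝ) : ℂ) * (ch k (-z) * ∑ x, (f x : ℂ) * ch k x) := by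
    rw [Complex.ofReal_sum]
    simp only [Complex.ofReal_mul, h2]
    simp only [Finset.mul_sum]
    rw [Finset.sum_comm]
    refine Finset.sum_congr rfl fun k _ => Finset.sum_congr rfl fun x _ => ?_
    rw [sub_eq_add_neg, ch_add]
    ring
  have h4 : 0 ≤ ∑ x, f x * ∏ l, fjk n Q ((x - z) l) :=
    Finset.sum_nonneg fun x _ => mul_nonneg (hf x)
      (Finset.prod_nonneg fun l _ => fjk_nonneg _ _ _)
  have h5 : ∑ x, f x * ∏ l, fjk n Q ((x - z) l) =
      ‖((∑ x, f x * ∏ l, fjk n Q ((x - z) l) : ℝ) : ℂ)‖ := by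
    rw [Complex.norm_real, Real.norm_eq_abs, abs_of_nonneg h4]
  rw [h5, h3]
  refine (norm_sum_le _ _).trans ?_
  have h6 : ∀ k : Tor d n, ‖((∏ l, w (k l) : ℝ) : ℂ) * (ch k (-z) * ∑ x, (f x : ℂ) * ch k x)‖ ≤
      if ∀ l, |(k l).valMinAbs| < (Q : ℤ) then ‖∑ x, (f x : ℂ) * ch k x‖ else 0 := by
    intro k
    rw [norm_mul, norm_mul, norm_ch, one_mul, Complex.norm_real, Real.norm_eq_abs]
    have h7 : 0 ≤ ∏ l, w (k l) := Finset.prod_nonneg fun l _ => (hw1 _).1
    rw [abs_of_nonneg h7]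
    split_ifs with h
    · have h8 : ∏ l, w (k l) ≤ 1 := Finset.prod_le_one (fun l _ => (hw1 _).1) fun l _ => (hw1 _).2
      calc (∏ l, w (k l)) * ‖∑ x, (f x : ℂ) * ch k x‖ ≤ 1 * ‖∑ x, (f x : ℂ) * ch k x‖ := by
            gcongr
        _ = ‖∑ x, (f x : ℂ) * ch k x‖ := one_mul _
    · push Not at h
      obtain ⟨l, hl⟩ := h
      rw [Finset.prod_eq_zero (Finset.mem_univ l) (hw2 _ hl), zero_mul]
  refine (Finset.sum_le_sum fun k _ => h6 k).trans (le_of_eq ?_)
  rw [Finset.sum_filter]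

end Pool.Agent.BK3
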