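import Pool.Agent.BK3.TEq
import Pool.Agent.BK3.Fej
import Pool.Agent.BK3.Cov

/-! BK3 module Ball: expected local masses: `E lm_{w,y} ≤ lam^(-2-e/8)`. `f(x) = E|G_0x|²`; by translation
`E|G_wx|² = f(x - w)` (`GG_add`, `Ex_perm`) and `lm_{w,y} = ∑_x ph2 y x |G_wx|²`, so `E lm = ∑_x' phi (x' - (y-w)) f(x')`.
Case `η ≥ lam²`: `E lm ≤ ∑ f = Im g/η ≤ lam^(-2-2t)` (`ward`, `meang`).
Case `η < lam²`: `γ = Im ζ ≤ η + lam² s2 |g| ≤ lam^(2-3t)`. `∑_x f x ch k x = ρ(k)` (`tw_diag_sum` at `x = 0`,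
`ch k 0 = 1`). `Q = ⌊c1 lam² (2n+1)⌋`, `c1 = κ² s2/(16π)`: for `|k_l| < Q`, `|ang k_l| ≤ 2πQ/(2n+1) ≤ κ² s2 lam²/8`
(`Sml`), `Q ≥ c1 lam^(-38)/2`, `Q ≤ n`. `rho_le` (with the maximal coordinate), `sumk`:
`∑_{k≠0} |ρ(k)| ≤ lam^(-3t) γ² (2n+1)²/(4π² lam² s2 κ) C Q^(d-2)`, `|ρ(0)| ≤ lam^(-3t)/η ≤ lam^(-4)`. `fej`: the mass
of each box `|x_l - z_l| ≤ ρ0 := (2n+1)/(2Q)` is `≤ 3^d (C lam^(-3t) lam^(4-6t) ((2n+1)/Q)² lam^(-2) + Q^(-d) lam^(-4))
≤ lam^(-2-10t)`; `ρ0 ∈ [1/(2c1) lam^(-2), 1/c1 lam^(-2)]`. `cov` with `r = rw = lam^(-2-e/(40d))`: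
`E lm ≤ C lam^(-e/40 - t) lam^(-2-10t) ≤ lam^(-2-e/8)`. -/

open MeasureTheory Finset Matrix Pool.Agent.BK

noncomputable section

namespace Pool.Agent.BK3

variable {ν : Measure ℝ} {R s2 : ℝ}

/-- `f(x) = E|G_0x|²`. -/
def fE (ν : Measure ℝ) (d : ℕ) (π : Par) (x : Tor d π.n) : ℝ :=
  Ex ν fun V : Tor d π.n → ℝ => ‖GG d π.n π.lam π.z V 0 x‖ ^ 2

lemma ball_cont (d : ℕ) (π : Par) (hη : 0 < π.eta) (w x : Tor d π.n) :
    Continuous fun V : Tor d π.n → ℝ => ‖GG d π.n π.lam π.z V w x‖ ^ 2 :=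
  ((continuous_Gv_xy (RS_H0 d π.n) π.lam (z := π.z) hη.ne' w x).norm).pow 2

lemma ball_nonneg (ν : Measure ℝ) (d : ℕ) (π : Par) (x : Tor d π.n) : 0 ≤ fE ν d π x :=
  integral_nonneg fun V => by positivity

lemma ball_ofReal {X : Type} [Fintype X] (ν : Measure ℝ) (f : (X → ℝ) → ℝ) :
    Ex ν (fun V : X → ℝ => ((f V : ℝ) : ℂ)) = ((Ex ν f : ℝ) : ℂ) := integral_ofReal

lemma fE_ch (hν : BLaw ν R s2) (d : ℕ) (π : Par) (hη : 0 < π.eta) (k : Tor d π.n) :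
    ∑ x, (fE ν d π x : ℂ) * ch k x = rhok ν d π k := by
  have h0 : ch k (0 : Tor d π.n) = 1 := by
    unfold ch
    refine Finset.prod_eq_one fun l _ => ?_
    simp
  have h1 : rhok ν d π k = Ex ν (fun V : Tor d π.n → ℝ => ∑ y, ch k y *
      (((‖GG d π.n π.lam π.z V 0 y‖ ^ 2 : ℝ)) : ℂ)) := by
    unfold rhok
    congr 1
    funext V
    rw [tw_diag_sum]
    refine Finset.sum_congr rfl fun y _ => ?_
    rw [h0, map_one, one_mul]
  have h2 : Ex ν (fun V : Tor d π.n → ℝ => ∑ y, ch k y *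
      (((‖GG d π.n π.lam π.z V 0 y‖ ^ 2 : ℝ)) : ℂ)) = ∑ y, Ex ν (fun V : Tor d π.n → ℝ =>
      ch k y * (((‖GG d π.n π.lam π.z V 0 y‖ ^ 2 : ℝ)) : ℂ)) :=
    integral_finsetSum _ fun y _ => int_cont hν (continuous_const.mul
      (Complex.continuous_ofReal.comp (ball_cont d π hη 0 y)))
  rw [h1, h2]
  refine Finset.sum_congr rfl fun y _ => ?_
  rw [tw2_cmul, ball_ofReal, mul_comm]
  rfl

lemma fE_sum (hν : BLaw ν R s2) (d : ℕ) (π : Par) (hη : 0 < π.eta) :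
    ∑ x, fE ν d π x = (gb ν d π).im / π.eta := by
  have h1 : ∑ x, fE ν d π x = Ex ν (fun V : Tor d π.n → ℝ =>
      ∑ x, ‖GG d π.n π.lam π.z V 0 x‖ ^ 2) :=
    (integral_finsetSum _ fun y _ => int_cont hν (ball_cont d π hη 0 y)).symm
  have h2 : (fun V : Tor d π.n → ℝ => ∑ x, ‖GG d π.n π.lam π.z V 0 x‖ ^ 2) =
      fun V => (1 / π.eta) * (GG d π.n π.lam π.z V 0 0).im := by
    funext V
    have h3 : ∑ x, ‖GG d π.n π.lam π.z V 0 x‖ ^ 2 =
        (GG d π.n π.lam π.z V 0 0).im / π.z.im :=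
      ward (RS_H0 d π.n) (fun x => π.lam * V x) (z := π.z) hη 0
    have h4 : π.z.im = π.eta := rfl
    rw [h3, h4]
    ring
  have h5 : Ex ν (fun V : Tor d π.n → ℝ => (GG d π.n π.lam π.z V 0 0).im) =
      (gb ν d π).im := by
    have f2 : Integrable (fun V : Tor d π.n → ℝ => GG d π.n π.lam π.z V 0 0)
        (Measure.pi fun _ : Tor d π.n => ν) :=
      int_cont hν (continuous_Gv_xy (RS_H0 d π.n) π.lam (z := π.z) hη.ne' 0 0)
    exact integral_im f2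
  rw [h1, h2, tw2_rmul, h5]
  ring

lemma Ex_lm (hν : BLaw ν R s2) (d : ℕ) (π : Par) (hη : 0 < π.eta) (r : ℝ) (w y : Tor d π.n) :
    Ex ν (fun V : Tor d π.n → ℝ => lm (ph2 r) (GG d π.n π.lam π.z V) w y) =
      ∑ x, phi r (x - (y - w)) * fE ν d π x := by
  have := hν.prob
  have h1 : Ex ν (fun V : Tor d π.n → ℝ => lm (ph2 r) (GG d π.n π.lam π.z V) w y) =
      ∑ x, Ex ν (fun V : Tor d π.n → ℝ => ph2 r y x * ‖GG d π.n π.lam π.z V w x‖ ^ 2) :=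
    integral_finsetSum _ fun x _ => int_cont hν (continuous_const.mul (ball_cont d π hη w x))
  have h2 : ∀ x : Tor d π.n, Ex ν (fun V : Tor d π.n → ℝ =>
      ‖GG d π.n π.lam π.z V w x‖ ^ 2) = fE ν d π (x - w) := by
    intro x
    unfold fE
    rw [← Ex_perm ν (Equiv.addRight w) (fun V : Tor d π.n → ℝ =>
      ‖GG d π.n π.lam π.z V 0 (x - w)‖ ^ 2)]
    congr 1
    funext V
    have h3 := GG_add π.lam π.z V w 0 (x - w)
    rw [zero_add, sub_add_cancel] at h3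
    rw [h3]
    rfl
  rw [h1, ← Equiv.sum_comp (Equiv.subRight w) (fun x => phi r (x - (y - w)) * fE ν d π x)]
  refine Finset.sum_congr rfl fun x _ => ?_
  rw [tw2_rmul, h2 x]
  have h4 : (Equiv.subRight w) x = x - w := rfl
  have h5 : x - w - (y - w) = x - y := by abel
  rw [h4, h5]
  rfl

/-- A maximal coordinate. -/
lemma ball_max {d n : ℕ} (hd : 3 ≤ d) : ∃ j : Tor d n → Fin d,
    ∀ (k : Tor d n) (l : Fin d), |(k l).valMinAbs| ≤ |(k (j k)).valMinAbs| := by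
  have : Nonempty (Fin d) := ⟨⟨0, by omega⟩⟩
  have h : ∀ k : Tor d n, ∃ j : Fin d, ∀ l, |(k l).valMinAbs| ≤ |(k j).valMinAbs| := fun k =>
    Finite.exists_max fun l => |(k l).valMinAbs|
  exact ⟨fun k => (h k).choose, fun k l => (h k).choose_spec l⟩

/-- Upper bound for `Im ζ` below the kinetic scale. -/
lemma ball_gam {ν : Measure ℝ} {s2 : ℝ} (d : ℕ) (π : Par) (hs2 : 0 < s2) (hL : 0 < π.lam)
    {t : ℝ} (hg : ‖gb ν d π‖ ≤ π.lam ^ (-(2 * t))) (ht : 0 < t) (hL1 : π.lam ≤ 1)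
    (hη : π.eta < π.lam ^ 2) (hsm : (1 + s2) * π.lam ^ (-(2 * t)) ≤ π.lam ^ (-(3 * t))) :
    (zt ν s2 d π).im ≤ π.lam ^ (2 - 3 * t) := by
  have h1 : (zt ν s2 d π).im = π.eta + π.lam ^ 2 * s2 * (gb ν d π).im := by
    unfold zt zeta gb
    rw [Complex.add_im, Complex.im_ofReal_mul]
    rfl
  have h2 : (gb ν d π).im ≤ π.lam ^ (-(2 * t)) := (Complex.im_le_norm _).trans hg
  have h3 : 1 ≤ π.lam ^ (-(2 * t)) :=
    Real.one_le_rpow_of_pos_of_le_one_of_nonpos hL hL1 (by linarith)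
  have h4 : π.lam ^ (2 - 3 * t) = π.lam ^ 2 * π.lam ^ (-(3 * t)) := by
    rw [← Real.rpow_natCast, ← Real.rpow_add hL]
    congr 1
  rw [h1, h4]
  have h5 : π.lam ^ 2 * ((1 + s2) * π.lam ^ (-(2 * t))) ≤ π.lam ^ 2 * π.lam ^ (-(3 * t)) :=
    mul_le_mul_of_nonneg_left hsm (by positivity)
  have h6 : π.lam ^ 2 * s2 * (gb ν d π).im ≤ π.lam ^ 2 * s2 * π.lam ^ (-(2 * t)) :=
    mul_le_mul_of_nonneg_left h2 (by positivity)
  have h7 : π.lam ^ 2 * 1 ≤ π.lam ^ 2 * π.lam ^ (-(2 * t)) :=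
    mul_le_mul_of_nonneg_left h3 (by positivity)
  nlinarith

/-- The number `Q`. -/
lemma ball_Q {L c1 : ℝ} {n : ℕ} (hL : 0 < L) (hc1 : 0 < c1)
    (hn : L ^ (-(40 : ℝ)) ≤ 2 * (n : ℝ) + 1) (h1 : 3 / c1 ≤ L ^ (-(38 : ℝ)))
    (h2 : 3 * c1 * L ^ (2 : ℝ) ≤ 1) : ∃ Q : ℕ, 2 ≤ Q ∧ Q ≤ n ∧
      (Q : ℝ) ≤ c1 * L ^ 2 * (2 * n + 1) ∧ c1 * L ^ 2 * (2 * n + 1) ≤ 2 * Q ∧
      c1 * L ^ (-(38 : ℝ)) ≤ 2 * Q := by
  have l2 : L ^ (2 : ℝ) = L ^ 2 := by
    rw [← Real.rpow_natCast]; norm_num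
  rw [l2] at h2
  set a : ℝ := c1 * L ^ 2 * (2 * n + 1) with ha
  have e1 : c1 * L ^ (-(38 : ℝ)) ≤ a := by
    have f1 : L ^ (-(38 : ℝ)) = L ^ 2 * L ^ (-(40 : ℝ)) := by
      rw [← l2, ← Real.rpow_add hL]; norm_num
    rw [ha, f1, mul_assoc]
    apply mul_le_mul_of_nonneg_left _ hc1.le
    exact mul_le_mul_of_nonneg_left hn (by positivity)
  have e2 : 3 ≤ c1 * L ^ (-(38 : ℝ)) := by
    rw [div_le_iff₀ hc1] at h1
    linarith
  have e3 : 3 ≤ a := e2.trans e1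
  have e4 : a ≤ (2 * n + 1) / 3 := by
    have f1 : 0 ≤ 2 * (n : ℝ) + 1 := by positivity
    rw [ha]
    nlinarith
  have e5 : (4 : ℝ) ≤ n := by linarith
  have e6 : a < (⌊a⌋₊ : ℝ) + 1 := Nat.lt_floor_add_one a
  have e7 : (⌊a⌋₊ : ℝ) ≤ a := Nat.floor_le (by linarith)
  refine ⟨⌊a⌋₊, ?_, ?_, e7, by linarith, by linarith⟩
  · have : (1 : ℝ) < ⌊a⌋₊ := by linarith
    exact_mod_cast this
  · have : (⌊a⌋₊ : ℝ) ≤ n := by linarith
    exact_mod_cast this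

/-- The mass bound from the bounds for the momenta. -/
lemma ball_mass {d : ℕ} (hd : 3 ≤ d) {n Q : ℕ} (hQ2 : 2 ≤ Q) {C : ℝ}
    (F : Tor d n → ℝ) (hF : ∀ k, 0 ≤ F k) {a W : ℝ} (hW : 0 ≤ W) (h0 : F 0 ≤ a)
    (j : Tor d n → Fin d)
    (hj : ∀ (k : Tor d n) (l : Fin d), |(k l).valMinAbs| ≤ |(k (j k)).valMinAbs|)
    (hC : ∑ k ∈ Finset.univ.filter (fun k : Tor d n => k ≠ 0 ∧ ∀ l, |(k l).valMinAbs| < (Q : ℤ)),
      1 / ((k (j k)).valMinAbs : ℝ) ^ 2 ≤ C * (Q : ℝ) ^ (d - 2))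
    (hk : ∀ k : Tor d n, (∀ l, |(k l).valMinAbs| < (Q : ℤ)) →
      F k * ((k (j k)).valMinAbs : ℝ) ^ 2 ≤ W) :
    3 ^ d / (Q : ℝ) ^ d * ∑ k ∈ Finset.univ.filter (fun k : Tor d n =>
        ∀ l, |(k l).valMinAbs| < (Q : ℤ)), F k ≤ 3 ^ d * a / Q + 3 ^ d * C * W / (Q : ℝ) ^ 2 := by
  classical
  have hQ0 : (0 : ℝ) < Q := by
    have : (2 : ℝ) ≤ Q := by exact_mod_cast hQ2
    linarith
  have hQ1 : (1 : ℝ) ≤ Q := by
    have : (2 : ℝ) ≤ Q := by exact_mod_cast hQ2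
    linarith
  have ha : 0 ≤ a := (hF 0).trans h0
  have h1 : ∑ k ∈ Finset.univ.filter (fun k : Tor d n =>
        ∀ l, |(k l).valMinAbs| < (Q : ℤ)), F k ≤ a + W * (C * (Q : ℝ) ^ (d - 2)) := by
    have e1 : Finset.univ.filter (fun k : Tor d n => ∀ l, |(k l).valMinAbs| < (Q : ℤ)) ⊆
        insert 0 (Finset.univ.filter (fun k : Tor d n =>
          k ≠ 0 ∧ ∀ l, |(k l).valMinAbs| < (Q : ℤ))) := by
      intro k hk'
      rw [Finset.mem_filter] at hk'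
      rw [Finset.mem_insert, Finset.mem_filter]
      by_cases h : k = 0
      · exact Or.inl h
      · exact Or.inr ⟨Finset.mem_univ _, h, hk'.2⟩
    refine (Finset.sum_le_sum_of_subset_of_nonneg e1 fun k _ _ => hF k).trans ?_
    rw [Finset.sum_insert (by simp)]
    apply add_le_add h0
    refine le_trans ?_ (mul_le_mul_of_nonneg_left hC hW)
    rw [Finset.mul_sum]
    refine Finset.sum_le_sum fun k hk' => ?_
    rw [Finset.mem_filter] at hk'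
    obtain ⟨-, hk0, hkQ⟩ := hk'
    have e2 : (k (j k)).valMinAbs ≠ 0 := by
      intro h
      apply hk0
      funext l
      have e3 := hj k l
      rw [h, abs_zero] at e3
      have e4 : (k l).valMinAbs = 0 := abs_eq_zero.1 (le_antisymm e3 (abs_nonneg _))
      exact (ZMod.valMinAbs_eq_zero _).1 e4
    have e3 : (0 : ℝ) < ((k (j k)).valMinAbs : ℝ) ^ 2 := by
      have : ((k (j k)).valMinAbs : ℝ) ≠ 0 := by exact_mod_cast e2
      positivity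
    rw [mul_one_div, le_div_iff₀ e3]
    exact hk k hkQ
  have h2 : 0 ≤ 3 ^ d / (Q : ℝ) ^ d := by positivity
  refine (mul_le_mul_of_nonneg_left h1 h2).trans ?_
  have h3 : 3 ^ d / (Q : ℝ) ^ d * (a + W * (C * (Q : ℝ) ^ (d - 2))) =
      3 ^ d * a / (Q : ℝ) ^ d + 3 ^ d * C * W / (Q : ℝ) ^ 2 := by
    have e1 : (Q : ℝ) ^ d = (Q : ℝ) ^ (d - 2) * (Q : ℝ) ^ 2 := by
      rw [← pow_add]
      congr 1
      omega
    have e2 : (Q : ℝ) ^ (d - 2) ≠ 0 := by positivity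
    have e3 : (Q : ℝ) ^ 2 ≠ 0 := by positivity
    rw [e1]
    field_simp
  rw [h3]
  apply add_le_add _ le_rfl
  apply div_le_div_of_nonneg_left (by positivity) hQ0
  calc (Q : ℝ) = (Q : ℝ) ^ 1 := (pow_one _).symm
    _ ≤ (Q : ℝ) ^ d := pow_le_pow_right₀ hQ1 (by omega)

theorem ball_box (hν : BLaw ν R s2) (c : Cx) (hc : c.Ok) :
    ∃ lam1 : ℝ, 0 < lam1 ∧ lam1 ≤ 1 ∧ ∀ π ∈ c.S ν lam1, π.eta < π.lam ^ 2 →
      ∃ ρ0 : ℝ, 1 ≤ ρ0 ∧ ρ0 ≤ π.n ∧ π.lam ^ (-(2 : ℝ) + c.t / c.d) ≤ ρ0 ∧ ρ0 ≤ c.rw π.lam ∧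
        ∀ z : Tor c.d π.n, ∑ x ∈ Finset.univ.filter (fun x : Tor c.d π.n =>
          ∀ l, |(((x - z) l).valMinAbs : ℝ)| ≤ ρ0), fE ν c.d π x ≤ π.lam ^ (-2 - 10 * c.t) := by
  have he := hc.e0
  have ht : c.t = c.e / 1000 := rfl
  have ht0 : 0 < c.t := by rw [ht]; linarith
  have hs2 := hν.s2_pos
  have hκ := hc.free.kap
  have hd3 : (3 : ℝ) ≤ c.d := by exact_mod_cast hc.d3
  have hpi := Real.pi_pos
  set c1 : ℝ := c.κ ^ 2 * s2 / (16 * Real.pi) with hc1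
  have hc10 : 0 < c1 := by positivity
  obtain ⟨C, hC, hsumk⟩ := sumk hc.d3
  set w0 : ℝ := 1 / (4 * Real.pi ^ 2 * s2 * c.κ) with hw0
  have hw00 : 0 < w0 := by positivity
  set C2 : ℝ := 3 ^ c.d * C * w0 * (4 / c1 ^ 2) with hC2
  obtain ⟨l, l0, l1, hl⟩ := teq_and (teq_and (teq_and (rho_le hν c hc) (meang hν c hc))
    (teq_and (zfacts hν c hc) (teq_sm (c := c) (ν := ν) (sm_neg (3 / c1)
      (show (0 : ℝ) < 38 by norm_num)))))
    (teq_and (teq_and (teq_and (teq_sm (c := c) (ν := ν) (sm_one (3 * c1)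
      (show (0 : ℝ) < 2 by norm_num)))
      (teq_sm (c := c) (ν := ν) (sm_one (2 * c1) (show 0 < c.t / c.d by positivity))))
      (teq_and (teq_sm (c := c) (ν := ν) (sm_neg (1 / c1)
        (show 0 < c.e / (40 * c.d) by positivity)))
      (teq_sm (c := c) (ν := ν) (sm_le (1 + s2) (show -(3 * c.t) < -(2 * c.t) by linarith)))))
      (teq_and (teq_sm (c := c) (ν := ν) (sm_le (2 * C2)
        (show -2 - 10 * c.t < -2 - 9 * c.t by linarith)))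
      (teq_sm (c := c) (ν := ν) (sm_le (2 * (3 ^ c.d * 2 / c1))
        (show -2 - 10 * c.t < 34 by linarith)))))
  refine ⟨l, l0, l1, fun π hπ hη2 => ?_⟩
  obtain ⟨⟨⟨hρ, hM⟩, hZ, hs1⟩, ⟨⟨hs3, hs4⟩, hs5, hs6⟩, hs7, hs8⟩ := hl π hπ
  have hL := hZ.l0
  have hL1 := hZ.l1
  have hη := hZ.e0
  have hηA : π.lam ^ c.A ≤ π.eta := hZ.e1
  have p0 : ∀ a : ℝ, 0 < π.lam ^ a := fun a => rp_pos hL a
  have hn40 : π.lam ^ (-(40 : ℝ)) ≤ 2 * (π.n : ℝ) + 1 := hπ.1.2.2.1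
  obtain ⟨Q, hQ2, hQn, hQ3, hQ4, hQ5⟩ := ball_Q hL hc10 hn40 hs1 hs3
  have hQ2r : (2 : ℝ) ≤ Q := by exact_mod_cast hQ2
  have hQ0 : (0 : ℝ) < Q := by linarith
  have hQnr : (Q : ℝ) ≤ π.n := by exact_mod_cast hQn
  have hn0 : (0 : ℝ) < 2 * π.n + 1 := by positivity
  have hlq : 0 < π.lam ^ 2 := by positivity
  -- the radius
  refine ⟨(2 * π.n + 1) / (2 * Q), ?_, ?_, ?_, ?_, ?_⟩
  · rw [le_div_iff₀ (by positivity)]
    linarith
  · rw [div_le_iff₀ (by positivity)]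
    have e1 : (π.n : ℝ) * (2 * 2) ≤ π.n * (2 * Q) :=
      mul_le_mul_of_nonneg_left (by linarith) (Nat.cast_nonneg _)
    linarith
  · rw [le_div_iff₀ (by positivity)]
    have e1 : π.lam ^ (-(2 : ℝ) + c.t / c.d) * π.lam ^ 2 = π.lam ^ (c.t / c.d) := by
      rw [← Real.rpow_natCast, ← Real.rpow_add hL]
      congr 1
      push_cast
      ring
    calc π.lam ^ (-(2 : ℝ) + c.t / c.d) * (2 * Q)
        ≤ π.lam ^ (-(2 : ℝ) + c.t / c.d) * (2 * (c1 * π.lam ^ 2 * (2 * π.n + 1))) := by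
          apply mul_le_mul_of_nonneg_left _ (p0 _).le
          linarith
      _ = (2 * c1 * (π.lam ^ (-(2 : ℝ) + c.t / c.d) * π.lam ^ 2)) * (2 * π.n + 1) := by ring
      _ = (2 * c1 * π.lam ^ (c.t / c.d)) * (2 * π.n + 1) := by rw [e1]
      _ ≤ 1 * (2 * π.n + 1) := mul_le_mul_of_nonneg_right hs4 hn0.le
      _ = 2 * π.n + 1 := one_mul _
  · rw [div_le_iff₀ (by positivity)]
    unfold Cx.rw
    have e1 : π.lam ^ (-2 - c.e / (40 * c.d)) * π.lam ^ 2 = π.lam ^ (-(c.e / (40 * c.d))) := by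
      rw [← Real.rpow_natCast, ← Real.rpow_add hL]
      congr 1
      push_cast
      ring
    have e2 : 1 ≤ c1 * π.lam ^ (-(c.e / (40 * c.d))) := by
      rw [div_le_iff₀ hc10] at hs5
      linarith
    calc (2 * (π.n : ℝ) + 1) = 1 * (2 * π.n + 1) := (one_mul _).symm
      _ ≤ (c1 * π.lam ^ (-(c.e / (40 * c.d)))) * (2 * π.n + 1) :=
          mul_le_mul_of_nonneg_right e2 hn0.le
      _ = π.lam ^ (-2 - c.e / (40 * c.d)) * (c1 * π.lam ^ 2 * (2 * π.n + 1)) := by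
          rw [← e1]; ring
      _ ≤ π.lam ^ (-2 - c.e / (40 * c.d)) * (2 * Q) :=
          mul_le_mul_of_nonneg_left hQ4 (p0 _).le
  · intro z
    have hfilt : Finset.univ.filter (fun x : Tor c.d π.n =>
        ∀ l, |(((x - z) l).valMinAbs : ℝ)| ≤ (2 * π.n + 1) / (2 * Q)) =
        Finset.univ.filter (fun x : Tor c.d π.n =>
        ∀ l, |(((x - z) l).valMinAbs : ℝ)| * (2 * Q) ≤ 2 * π.n + 1) := by
      refine Finset.filter_congr fun x _ => ?_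
      refine forall_congr' fun l => ?_
      rw [le_div_iff₀ (by positivity)]
    rw [hfilt]
    refine (fej (by omega) hQn (fE ν c.d π) (fun x => ball_nonneg ν c.d π x) z).trans ?_
    simp only [fE_ch hν c.d π hη]
    obtain ⟨j, hj⟩ := ball_max (n := π.n) hc.d3
    have hγ0 : 0 < (zt ν s2 c.d π).im := hη.trans_le hZ.im_eta
    have hγ := ball_gam c.d π hs2 hL hM.2.2 ht0 hL1 hη2 hs6
    -- small momenta
    have hSml : ∀ k : Tor c.d π.n, (∀ l, |(k l).valMinAbs| < (Q : ℤ)) → Sml c s2 π k := by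
      intro k hk l
      have e1 : |((k l).valMinAbs : ℝ)| ≤ Q := by
        have := (hk l).le
        exact_mod_cast this
      unfold ang
      rw [abs_div, abs_mul, abs_of_pos (by positivity : (0 : ℝ) < 2 * Real.pi), abs_of_pos hn0,
        div_le_iff₀ hn0]
      calc 2 * Real.pi * |((k l).valMinAbs : ℝ)| ≤ 2 * Real.pi *
            (c1 * π.lam ^ 2 * (2 * π.n + 1)) :=
            mul_le_mul_of_nonneg_left (e1.trans hQ3) (by positivity)
        _ = c.κ ^ 2 * s2 / 8 * π.lam ^ 2 * (2 * π.n + 1) := by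
            rw [hc1]
            field_simp
            ring
    have h0 : ‖rhok ν c.d π (0 : Tor c.d π.n)‖ ≤ π.lam ^ (-(4 : ℝ)) := by
      have e1 := (hρ 0 (hSml 0 (fun l => by
        rw [Pi.zero_apply, ZMod.valMinAbs_zero, abs_zero]
        omega))).1
      have e2 : ‖rhok ν c.d π (0 : Tor c.d π.n)‖ * π.lam ^ c.A ≤ π.lam ^ (-(3 * c.t)) :=
        (mul_le_mul_of_nonneg_left hηA (norm_nonneg _)).trans e1
      have e3 : π.lam ^ (-(3 * c.t)) ≤ π.lam ^ (-(4 : ℝ)) * π.lam ^ c.A := by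
        rw [← Real.rpow_add hL]
        apply rp_anti hL hL1
        have := hc.A3
        have := y_lt c hc
        have := hc.y0
        rw [ht]
        linarith
      exact le_of_mul_le_mul_right (e2.trans e3) (p0 _)
    set W : ℝ := w0 * π.lam ^ (2 - 9 * c.t) * (2 * π.n + 1) ^ 2 with hW
    have hW0 : 0 ≤ W := by
      have := (p0 (2 - 9 * c.t)).le
      positivity
    have hkW : ∀ k : Tor c.d π.n, (∀ l, |(k l).valMinAbs| < (Q : ℤ)) →
        ‖rhok ν c.d π k‖ * ((k (j k)).valMinAbs : ℝ) ^ 2 ≤ W := by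
      intro k hk
      have e1 := (hρ k (hSml k hk)).2 (j k)
      have e2 : π.lam ^ (-(3 * c.t)) * (zt ν s2 c.d π).im ^ 2 ≤
          π.lam ^ 2 * π.lam ^ (2 - 9 * c.t) := by
        have f1 : (zt ν s2 c.d π).im ^ 2 ≤ (π.lam ^ (2 - 3 * c.t)) ^ 2 :=
          pow_le_pow_left₀ hγ0.le hγ 2
        calc π.lam ^ (-(3 * c.t)) * (zt ν s2 c.d π).im ^ 2
            ≤ π.lam ^ (-(3 * c.t)) * (π.lam ^ (2 - 3 * c.t)) ^ 2 :=
              mul_le_mul_of_nonneg_left f1 (p0 _).le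
          _ = π.lam ^ 2 * π.lam ^ (2 - 9 * c.t) := by
              rw [rp_pow hL, ← Real.rpow_natCast π.lam 2, ← Real.rpow_add hL,
                ← Real.rpow_add hL]
              congr 1
              push_cast
              ring
      have e3 := e1.trans e2
      set v : ℝ := ((k (j k)).valMinAbs : ℝ) with hv
      have e4 : ang π.n (k (j k)) ^ 2 = 4 * Real.pi ^ 2 * v ^ 2 / (2 * π.n + 1) ^ 2 := by
        unfold ang
        rw [← hv]
        field_simp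
        ring
      rw [e4] at e3
      have e5 : ‖rhok ν c.d π k‖ * (π.lam ^ 2 * s2 * c.κ * (4 * Real.pi ^ 2 * v ^ 2 /
          (2 * π.n + 1) ^ 2)) = (π.lam ^ 2 / (w0 * (2 * π.n + 1) ^ 2)) *
            (‖rhok ν c.d π k‖ * v ^ 2) := by
        rw [hw0]
        field_simp
      rw [e5] at e3
      have e6 : 0 < π.lam ^ 2 / (w0 * (2 * π.n + 1) ^ 2) := by positivity
      have e7 : π.lam ^ 2 * π.lam ^ (2 - 9 * c.t) =
          (π.lam ^ 2 / (w0 * (2 * π.n + 1) ^ 2)) * W := by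
        rw [hW]
        field_simp
      rw [e7] at e3
      exact le_of_mul_le_mul_left e3 e6
    have hmass := ball_mass hc.d3 hQ2 (C := C) (fun k : Tor c.d π.n => ‖rhok ν c.d π k‖)
      (fun k => norm_nonneg _) hW0 h0 j hj (hsumk π.n Q (by omega) hQn j hj) hkW
    refine hmass.trans ?_
    -- the two terms
    have e1 : 3 ^ c.d * π.lam ^ (-(4 : ℝ)) / Q ≤ π.lam ^ (-2 - 10 * c.t) / 2 := by
      have f1 : 3 ^ c.d * π.lam ^ (-(4 : ℝ)) / Q ≤ 3 ^ c.d * 2 / c1 * π.lam ^ (34 : ℝ) := by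
        rw [div_le_iff₀ hQ0]
        have f2 : π.lam ^ (-(4 : ℝ)) = π.lam ^ (34 : ℝ) * π.lam ^ (-(38 : ℝ)) := by
          rw [← Real.rpow_add hL]; norm_num
        have f3 : π.lam ^ (-(38 : ℝ)) ≤ 2 * Q / c1 := by
          rw [le_div_iff₀ hc10]; linarith
        calc 3 ^ c.d * π.lam ^ (-(4 : ℝ)) = 3 ^ c.d * π.lam ^ (34 : ℝ) * π.lam ^ (-(38 : ℝ)) := by
              rw [f2]; ring
          _ ≤ 3 ^ c.d * π.lam ^ (34 : ℝ) * (2 * Q / c1) := by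
              apply mul_le_mul_of_nonneg_left f3
              have := (p0 (34 : ℝ)).le
              positivity
          _ = _ := by ring
      linarith
    have e2 : 3 ^ c.d * C * W / (Q : ℝ) ^ 2 ≤ π.lam ^ (-2 - 10 * c.t) / 2 := by
      have f1 : (2 * (π.n : ℝ) + 1) ^ 2 * π.lam ^ 4 ≤ 4 / c1 ^ 2 * (Q : ℝ) ^ 2 := by
        rw [div_mul_eq_mul_div, le_div_iff₀ (by positivity)]
        have f2 : (c1 * π.lam ^ 2 * (2 * (π.n : ℝ) + 1)) ^ 2 ≤ (2 * (Q : ℝ)) ^ 2 :=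
          pow_le_pow_left₀ (by positivity) hQ4 2
        have f3 : (2 * (π.n : ℝ) + 1) ^ 2 * π.lam ^ 4 * c1 ^ 2 =
              (c1 * π.lam ^ 2 * (2 * (π.n : ℝ) + 1)) ^ 2 := by ring
        rw [f3]
        refine f2.trans (le_of_eq ?_)
        ring
      have f2 : π.lam ^ (2 - 9 * c.t) = π.lam ^ (-2 - 9 * c.t) * π.lam ^ 4 := by
        rw [← Real.rpow_natCast π.lam 4, ← Real.rpow_add hL]
        congr 1
        push_cast
        ring
      have f3 : 3 ^ c.d * C * W / (Q : ℝ) ^ 2 ≤ C2 * π.lam ^ (-2 - 9 * c.t) := by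
        rw [div_le_iff₀ (by positivity)]
        have f4 : 3 ^ c.d * C * W = (3 ^ c.d * C * w0 * π.lam ^ (-2 - 9 * c.t)) *
            ((2 * (π.n : ℝ) + 1) ^ 2 * π.lam ^ 4) := by
          rw [hW, f2]; ring
        rw [f4]
        have f5 : 0 ≤ 3 ^ c.d * C * w0 * π.lam ^ (-2 - 9 * c.t) := by
          have := (p0 (-2 - 9 * c.t)).le
          positivity
        refine (mul_le_mul_of_nonneg_left f1 f5).trans (le_of_eq ?_)
        rw [hC2]
        ring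
      linarith
    linarith

theorem ball (hν : BLaw ν R s2) (c : Cx) (hc : c.Ok) :
    ∃ lam1 : ℝ, 0 < lam1 ∧ lam1 ≤ 1 ∧ ∀ π ∈ c.S ν lam1, ∀ w y : Tor c.d π.n,
      Ex ν (fun V : Tor c.d π.n → ℝ =>
        lm (ph2 (c.rw π.lam)) (GG c.d π.n π.lam π.z V) w y) ≤ π.lam ^ (-2 - c.e / 8) := by
  have he := hc.e0
  have ht : c.t = c.e / 1000 := rfl
  have hd3 : (3 : ℝ) ≤ c.d := by exact_mod_cast hc.d3
  obtain ⟨l, l0, l1, hl⟩ := teq_and (teq_and (ball_box hν c hc) (meang hν c hc))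
    (teq_and (zfacts hν c hc) (teq_sm (c := c) (ν := ν) (sm_le (Real.exp c.d * 4 ^ c.d)
      (show -2 - c.e / 8 < -2 - c.e / 40 - 11 * c.t by rw [ht]; linarith))))
  refine ⟨l, l0, l1, fun π hπ w y => ?_⟩
  obtain ⟨⟨hbox, hM⟩, hZ, hsm⟩ := hl π hπ
  have hL := hZ.l0
  have hL1 := hZ.l1
  have hη := hZ.e0
  have p0 : ∀ a : ℝ, 0 < π.lam ^ a := fun a => rp_pos hL a
  rw [Ex_lm hν c.d π hη]
  rcases lt_or_ge π.eta (π.lam ^ 2) with hη2 | hη2
  · obtain ⟨ρ0, h1, h2, h3, h4, h5⟩ := hbox hη2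
    have hρ0 : 0 < ρ0 := by linarith
    have hcov := cov h1 h4 h2 (p0 _).le (fE ν c.d π) (fun x => ball_nonneg ν c.d π x) h5 (y - w)
    refine hcov.trans (le_trans ?_ hsm)
    have e1 : (c.rw π.lam / ρ0) ^ c.d ≤ π.lam ^ (-(c.e / 40) - c.t) := by
      have f1 : c.rw π.lam / ρ0 ≤ π.lam ^ (-(c.e / (40 * c.d)) - c.t / c.d) := by
        rw [div_le_iff₀ hρ0]
        calc c.rw π.lam = π.lam ^ (-(c.e / (40 * c.d)) - c.t / c.d) *
              π.lam ^ (-(2 : ℝ) + c.t / c.d) := by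
              unfold Cx.rw
              rw [← Real.rpow_add hL]
              congr 1
              ring
          _ ≤ π.lam ^ (-(c.e / (40 * c.d)) - c.t / c.d) * ρ0 :=
              mul_le_mul_of_nonneg_left h3 (p0 _).le
      have f2 : 0 ≤ c.rw π.lam / ρ0 := div_nonneg (p0 _).le hρ0.le
      refine (pow_le_pow_left₀ f2 f1 c.d).trans (le_of_eq ?_)
      rw [rp_pow hL]
      congr 1
      field_simp
    have e2 : (4 * c.rw π.lam / ρ0) ^ c.d = 4 ^ c.d * (c.rw π.lam / ρ0) ^ c.d := by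
      rw [mul_div_assoc, mul_pow]
    rw [e2]
    calc Real.exp c.d * (4 ^ c.d * (c.rw π.lam / ρ0) ^ c.d) * π.lam ^ (-2 - 10 * c.t)
        ≤ Real.exp c.d * (4 ^ c.d * π.lam ^ (-(c.e / 40) - c.t)) * π.lam ^ (-2 - 10 * c.t) := by
          apply mul_le_mul_of_nonneg_right _ (p0 _).le
          apply mul_le_mul_of_nonneg_left _ (Real.exp_pos _).le
          exact mul_le_mul_of_nonneg_left e1 (by positivity)
      _ = Real.exp c.d * 4 ^ c.d * (π.lam ^ (-(c.e / 40) - c.t) * π.lam ^ (-2 - 10 * c.t)) := by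
          ring
      _ = Real.exp c.d * 4 ^ c.d * π.lam ^ (-2 - c.e / 40 - 11 * c.t) := by
          rw [← Real.rpow_add hL]
          congr 2
          ring
  · have e1 : ∑ x, phi (c.rw π.lam) (x - (y - w)) * fE ν c.d π x ≤ ∑ x, fE ν c.d π x := by
      refine Finset.sum_le_sum fun x _ => ?_
      have f1 : phi (c.rw π.lam) (x - (y - w)) ≤ 1 := by
        unfold phi
        apply Real.exp_le_one_iff.2
        apply div_nonpos_of_nonpos_of_nonneg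
        · rw [neg_nonpos]
          exact Finset.sum_nonneg fun l _ => abs_nonneg _
        · exact (p0 _).le
      have f2 := ball_nonneg ν c.d π x
      calc _ ≤ 1 * fE ν c.d π x := mul_le_mul_of_nonneg_right f1 f2
        _ = _ := one_mul _
    refine e1.trans ?_
    rw [fE_sum hν c.d π hη, div_le_iff₀ hη]
    have e2 : (gb ν c.d π).im ≤ π.lam ^ (-(2 * c.t)) := (Complex.im_le_norm _).trans hM.2.2
    refine e2.trans ?_
    have e3 : π.lam ^ (-(2 * c.t)) ≤ π.lam ^ (-2 - c.e / 8) * π.lam ^ 2 := by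
      rw [← Real.rpow_natCast π.lam 2, ← Real.rpow_add hL]
      apply rp_anti hL hL1
      push_cast
      rw [ht]
      linarith
    exact e3.trans (mul_le_mul_of_nonneg_left hη2 (p0 _).le)

end Pool.Agent.BK3
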