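import Pool.Agent.BK3.Defs

/-! BK3: more definitions on the context: the tiny exponent `t = e/1000`, the bounds of the region data,
the facts about `ζ` and `M`. -/

open MeasureTheory Finset Matrix Pool.Agent.BK

noncomputable section

namespace Pool.Agent.BK3

/-- The tiny exponent. -/
def Cx.t (c : Cx) : ℝ := c.e / 1000

/-- The Hoelder exponent `q`, `1/q = 1/2 - θ`. -/
def Cx.q (c : Cx) : ℝ := 1 / (1 / 2 - c.θ)

/-- Bound of `G4` on the supports of the cutoffs. -/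
def Cx.B (c : Cx) (lam : ℝ) : ℝ := lam ^ (-(4 * c.y) - c.t)

/-- Bound of `|G_xx - g|` on the supports of the cutoffs. -/
def Cx.bb (c : Cx) (lam : ℝ) : ℝ := lam ^ (1 - 2 * c.y - c.e - c.t)

/-- Bound of the local masses on the supports of the cutoffs. -/
def Cx.mu (c : Cx) (lam : ℝ) : ℝ := lam ^ (-2 - c.e / 4 - c.t)

/-- Bound of `|G_xx|` on the supports of the cutoffs. -/
def Cx.Gd (c : Cx) (lam : ℝ) : ℝ := lam ^ (-(3 * c.t))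

/-- Bound of the local square norms of the gradient of the cutoffs. -/
def Cx.dl (c : Cx) (lam : ℝ) : ℝ := lam ^ (-(c.e / 8) - c.e / 50)

/-- The level `ω` of the core inequality. -/
def Cx.om (c : Cx) (lam : ℝ) : ℝ := lam ^ (-(4 * c.y) + c.e / 4)

/-- `ζ` and `M = (H0 - ζ)⁻¹` at the parameters `π`: everything that is used about them. -/
structure Cx.Z (c : Cx) (ν : Measure ℝ) (s2 : ℝ) (π : Par) : Prop where
  l0 : 0 < π.lam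
  l1 : π.lam ≤ 1
  e0 : 0 < π.eta
  e1 : π.lam ^ c.A ≤ π.eta
  re_lo : c.lo' ≤ (zt ν s2 c.d π).re
  re_hi : (zt ν s2 c.d π).re ≤ c.hi'
  im_lo : c.κ * s2 / 4 * π.lam ^ 2 ≤ (zt ν s2 c.d π).im
  im_eta : π.eta ≤ (zt ν s2 c.d π).im
  im_hi : (zt ν s2 c.d π).im ≤ c.κ
  big : (zt ν s2 c.d π).im ^ (-(10 : ℝ)) ≤ 2 * π.n + 1
  g_le : ‖gb ν c.d π‖ ≤ 3 * π.lam ^ (-c.y)
  lg : π.lam * ‖gb ν c.d π‖ ≤ 1
  mq : ∀ y, ∑ x, (‖MM ν s2 c.d π.n π.lam π.z y x‖ / ph2 (c.rw π.lam) y x) ^ c.q ≤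
    (π.lam ^ (-c.t)) ^ c.q
  m2 : ∀ y, ∑ x, (‖MM ν s2 c.d π.n π.lam π.z y x‖ / ph2 (c.rw π.lam) y x) ^ 2 ≤
    (π.lam ^ (-1 - c.t)) ^ 2
  m4 : ∀ y, ∑ x, ‖MM ν s2 c.d π.n π.lam π.z y x‖ ^ 4 ≤ π.lam ^ (-c.t)
  md : ∀ x, ‖MM ν s2 c.d π.n π.lam π.z x x‖ ≤ π.lam ^ (-c.t)
  mi : ∀ x, c.κ ≤ (MM ν s2 c.d π.n π.lam π.z x x).im

end Pool.Agent.BK3
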