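import Pool.Agent.BK3.Defs

/-! BK3: an upper bound of the functional `F` by the largest base of its terms (used in `Top` and `Clos`). -/

open MeasureTheory Finset Matrix Pool.Agent.BK

noncomputable section

namespace Pool.Agent.BK3

/-- If all bases are at most `s`, then `F ≤ 3 card² s^p`. -/
lemma fbd_le {X : Type} [Fintype X] [DecidableEq X] [Nonempty X] (φ : X → X → ℝ)
    (hφ : ∀ x y, 0 ≤ φ x y) {b4 b2 b3 : ℝ} (h4 : 0 < b4) (h2 : 0 < b2) (h3 : 0 < b3) {g : ℂ}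
    {A : Matrix X X ℂ} {s : ℝ} (hs : 0 ≤ s) (t4 : ∀ w, G4 A w / b4 ≤ s)
    (t2 : ∀ x, ‖A x x - g‖ / b2 ≤ s) (t3 : ∀ w y, lm φ A w y / b3 ≤ s) (p : ℕ) :
    FFg φ b4 b2 b3 g p A ≤ 3 * (Fintype.card X : ℝ) ^ 2 * s ^ p := by
  have hc : (1 : ℝ) ≤ Fintype.card X := by exact_mod_cast Fintype.card_pos
  have hsp : 0 ≤ s ^ p := pow_nonneg hs p
  have e1 : ∑ w, (G4 A w / b4) ^ p ≤ Fintype.card X * s ^ p := by
    calc _ ≤ ∑ _w : X, s ^ p := by
          refine Finset.sum_le_sum fun w _ => pow_le_pow_left₀ ?_ (t4 w) p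
          exact div_nonneg (Finset.sum_nonneg fun _ _ => by positivity) h4.le
      _ = _ := by rw [Finset.sum_const, Finset.card_univ, nsmul_eq_mul]
  have e2 : ∑ x, (‖A x x - g‖ / b2) ^ p ≤ Fintype.card X * s ^ p := by
    calc _ ≤ ∑ _w : X, s ^ p := by
          exact Finset.sum_le_sum fun w _ => pow_le_pow_left₀ (by positivity) (t2 w) p
      _ = _ := by rw [Finset.sum_const, Finset.card_univ, nsmul_eq_mul]
  have e3 : ∑ w, ∑ y, (lm φ A w y / b3) ^ p ≤ Fintype.card X * (Fintype.card X * s ^ p) := by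
    calc _ ≤ ∑ _w : X, (Fintype.card X * s ^ p) := by
          refine Finset.sum_le_sum fun w _ => ?_
          calc _ ≤ ∑ _w : X, s ^ p := by
                refine Finset.sum_le_sum fun y _ => pow_le_pow_left₀ ?_ (t3 w y) p
                exact div_nonneg (Finset.sum_nonneg fun x _ => mul_nonneg (hφ y x) (by positivity))
                  h3.le
            _ = _ := by rw [Finset.sum_const, Finset.card_univ, nsmul_eq_mul]
      _ = _ := by rw [Finset.sum_const, Finset.card_univ, nsmul_eq_mul]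
  unfold FFg
  have h5 : (Fintype.card X : ℝ) * s ^ p ≤ (Fintype.card X : ℝ) ^ 2 * s ^ p := by
    apply mul_le_mul_of_nonneg_right _ hsp
    nlinarith
  nlinarith

/-- `3 card² s^p < 1` for `card ≤ lam^(-43 d)`, `s ≤ lam^a`, `86 d + 1 ≤ a p`, `lam ≤ 1/4`. -/
lemma fbd_small {N lam s a : ℝ} {d p : ℕ} (h0 : 0 < lam) (h1 : lam ≤ 1 / 4) (hN0 : 0 ≤ N)
    (hN : N ≤ lam ^ (-(43 * (d : ℝ)))) (hs0 : 0 ≤ s) (hs : s ≤ lam ^ a)
    (ha : 86 * (d : ℝ) + 1 ≤ a * p) : 3 * N ^ 2 * s ^ p < 1 := by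
  have h2 : N ^ 2 ≤ lam ^ (-(86 * (d : ℝ))) := by
    calc N ^ 2 ≤ (lam ^ (-(43 * (d : ℝ)))) ^ 2 := pow_le_pow_left₀ hN0 hN 2
      _ = lam ^ (-(86 * (d : ℝ))) := by
          rw [← Real.rpow_natCast, ← Real.rpow_mul h0.le]; congr 1; push_cast; ring
  have h3 : s ^ p ≤ lam ^ (86 * (d : ℝ) + 1) := by
    calc s ^ p ≤ (lam ^ a) ^ p := pow_le_pow_left₀ hs0 hs p
      _ = lam ^ (a * p) := by rw [← Real.rpow_natCast, ← Real.rpow_mul h0.le]
      _ ≤ lam ^ (86 * (d : ℝ) + 1) := Real.rpow_le_rpow_of_exponent_ge h0 (by linarith) ha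
  have h4 : 0 ≤ s ^ p := pow_nonneg hs0 p
  calc 3 * N ^ 2 * s ^ p ≤ 3 * lam ^ (-(86 * (d : ℝ))) * lam ^ (86 * (d : ℝ) + 1) := by
        have := Real.rpow_pos_of_pos h0 (-(86 * (d : ℝ)))
        gcongr
    _ = 3 * lam := by
        rw [mul_assoc, ← Real.rpow_add h0]
        rw [show -(86 * (d : ℝ)) + (86 * (d : ℝ) + 1) = 1 by ring, Real.rpow_one]
    _ < 1 := by linarith

end Pool.Agent.BK3
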