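import Pool.Agent.BK3.St3
import Pool.Agent.BK3.Ball
import Pool.Agent.BK3.FBd

/-! BK3 module Clos: the functional does not take values between `1` and `2`. If `F ≥ 1` then one of its
at most `3 card²` terms (`card = card Tor ≤ lam^(-43d)`) is `≥ 1/(3 card²)`, so one of `T1 = G4/b4`,
`T2 = |G_xx - g|/b2`, `T3 = lm/b3` is at least `(3 card²)^(-1/p) ≥ lam^(e/100)` (`86 d/p ≤ 0.0086 e`). But
`T1` is at the level `lam^(e/5)` (`stT1`), `T2` at the level `lam^(1-2y-2t)/b2 = lam^(e-2t)` (`st3`), and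
`T3 ≤ |lm - E lm|/b3 + lam^(-2-e/8)/b3`, the first at the level `lam^(48e+e/4)` (`st4`), the second `= lam^(e/8)`
(`ball`), so `T3 ≥ lam^(e/100)` forces `|lm - E lm|/b3 ≥ lam^(e/100)/2 ≥ lam^(e/50)`. `domF_prob` for the three
families (`b = e/100`, `e/100`, `e/50`; on `{F ≤ 2}`), `D1 + 1` in place of `D1`. -/

open MeasureTheory Finset Matrix Pool.Agent.BK

noncomputable section

namespace Pool.Agent.BK3

variable {ν : Measure ℝ} {R s2 : ℝ}

theorem clos (hν : BLaw ν R s2) (c : Cx) (hc : c.Ok) (D1 : ℝ) :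
    ∃ lam1 : ℝ, 0 < lam1 ∧ lam1 ≤ 1 ∧ ∀ π ∈ c.S ν lam1,
      ((Measure.pi fun _ : Tor c.d π.n => ν) {V | 1 ≤ c.F ν π V ∧ c.F ν π V ≤ 2}).toReal ≤
        π.lam ^ D1 := by
  have he := hc.e0
  have hd3 : (3 : ℝ) ≤ c.d := by exact_mod_cast hc.d3
  have hd0 : (0 : ℝ) < c.d := by linarith
  have htt : c.t = c.e / 1000 := rfl
  have cG : ∀ π : Par, 0 < π.eta → ∀ x y : Tor c.d π.n,
      Continuous fun V : Tor c.d π.n → ℝ => GG c.d π.n π.lam π.z V x y := fun π hπ x y =>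
    (continuous_Gr (RS_H0 c.d π.n) π.lam (z := π.z) hπ.ne').matrix_elem x y
  have cd1 : ∃ lam0 : ℝ, 0 < lam0 ∧ ∀ π ∈ c.S ν lam0,
      (Fintype.card (Tor c.d π.n) : ℝ) ≤ π.lam ^ (-(43 * (c.d : ℝ))) :=
    ⟨1, one_pos, fun π hπ => card_tor_le hπ.1⟩
  have cd2 : ∃ lam0 : ℝ, 0 < lam0 ∧ ∀ π ∈ c.S ν lam0,
      (Fintype.card (Tor c.d π.n × Tor c.d π.n) : ℝ) ≤ π.lam ^ (-(86 * (c.d : ℝ))) := by
    refine ⟨1, one_pos, fun π hπ => ?_⟩
    have h := card_tor_le hπ.1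
    rw [Fintype.card_prod]
    push_cast
    have h0 := hπ.1.1
    calc (Fintype.card (Tor c.d π.n) : ℝ) * Fintype.card (Tor c.d π.n)
        ≤ π.lam ^ (-(43 * (c.d : ℝ))) * π.lam ^ (-(43 * (c.d : ℝ))) := by
          have := (rp_pos h0 (-(43 * (c.d : ℝ)))).le
          gcongr
      _ = π.lam ^ (-(86 * (c.d : ℝ))) := by
          rw [← Real.rpow_add h0]; congr 1; ring
  obtain ⟨k1, hk10, hk11, hk1⟩ := domF_prob (b := c.e / 100) hν hc
    (by linarith) (fun π hπ w => by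
      unfold G4
      exact (continuous_finsetSum _ fun y _ => ((cG π hπ w y).norm).pow 4).div_const _) cd1
    (stT1 hν c hc) (D1 + 1)
  obtain ⟨k2, hk20, hk21, hk2⟩ := domF_prob (b := 1 - 2 * c.y - c.e + c.e / 100) hν hc
    (by rw [htt]; linarith) (fun π hπ x => ((cG π hπ x x).sub continuous_const).norm) cd1
    (st3 hν c hc) (D1 + 1)
  obtain ⟨k3, hk30, hk31, hk3⟩ := domF_prob (b := -2 - c.e / 4 + c.e / 50) hν hc
    (by linarith) (fun π hπ i => by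
      unfold lm
      exact ((continuous_finsetSum _ fun x _ =>
        continuous_const.mul (((cG π hπ i.1 x).norm).pow 2)).sub continuous_const).abs) cd2
    (st4 hν c hc) (D1 + 1)
  obtain ⟨k4, hk40, hk41, hk4⟩ := ball hν c hc
  obtain ⟨k5, hk50, hk51, hk5⟩ := sm_le 2 (show c.e / 100 < c.e / 50 by linarith)
  refine ⟨min (1 / 4) (min k1 (min k2 (min k3 (min k4 k5)))), by positivity,
    (min_le_left _ _).trans (by norm_num), ?_⟩
  intro π hπ
  have h0 : 0 < π.lam := hπ.1.1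
  have hm := hπ.1.2.1
  simp only [le_min_iff] at hm
  obtain ⟨m0, m1, m2, m3, m4, m5⟩ := hm
  have hle : π.lam ≤ 1 := m0.trans (by norm_num)
  have hη0 : 0 < π.eta := (rp_pos h0 c.A).trans_le hπ.1.2.2.2.2.2.2.1
  have hup : ∀ {k : ℝ}, π.lam ≤ k → π ∈ c.S ν k := fun hk =>
    ⟨⟨h0, hk, hπ.1.2.2⟩, hπ.2⟩
  have p1 := hk1 π (hup m1)
  have p2 := hk2 π (hup m2)
  have p3 := hk3 π (hup m3)
  have p4 := hk4 π (hup m4)
  have p5 := hk5 π.lam h0 m5
  have := hν.prob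
  set μ := Measure.pi fun _ : Tor c.d π.n => ν with hμ
  set S1 := {V : Tor c.d π.n → ℝ | c.F ν π V ≤ 2 ∧ ∃ i : Tor c.d π.n,
    π.lam ^ (c.e / 100) ≤ |G4 (GG c.d π.n π.lam π.z V) i / c.b4 π.lam|} with hS1
  set S2 := {V : Tor c.d π.n → ℝ | c.F ν π V ≤ 2 ∧ ∃ i : Tor c.d π.n,
    π.lam ^ (1 - 2 * c.y - c.e + c.e / 100) ≤
      |‖GG c.d π.n π.lam π.z V i i - gb ν c.d π‖|} with hS2
  set S3 := {V : Tor c.d π.n → ℝ | c.F ν π V ≤ 2 ∧ ∃ i : Tor c.d π.n × Tor c.d π.n,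
    π.lam ^ (-2 - c.e / 4 + c.e / 50) ≤
      |(|lm (ph2 (c.rw π.lam)) (GG c.d π.n π.lam π.z V) i.1 i.2 -
        Ex ν (fun V : Tor c.d π.n → ℝ =>
          lm (ph2 (c.rw π.lam)) (GG c.d π.n π.lam π.z V) i.1 i.2)|)|} with hS3
  have hsub : {V : Tor c.d π.n → ℝ | 1 ≤ c.F ν π V ∧ c.F ν π V ≤ 2} ⊆ S1 ∪ (S2 ∪ S3) := by
    rintro V ⟨hV1, hV2⟩
    by_contra hcon
    simp only [Set.mem_union, not_or] at hcon
    obtain ⟨n1, n2, n3⟩ := hcon
    have h4 : 0 < c.b4 π.lam := rp_pos h0 _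
    have h2 : 0 < c.b2 π.lam := rp_pos h0 _
    have h3 : 0 < c.b3 π.lam := rp_pos h0 _
    have t4 : ∀ w, G4 (GG c.d π.n π.lam π.z V) w / c.b4 π.lam ≤ π.lam ^ (c.e / 100) := by
      intro w
      by_contra hx
      push Not at hx
      exact n1 ⟨hV2, w, hx.le.trans (le_abs_self _)⟩
    have t2 : ∀ x, ‖GG c.d π.n π.lam π.z V x x - gb ν c.d π‖ / c.b2 π.lam ≤
        π.lam ^ (c.e / 100) := by
      intro x
      by_contra hx
      push Not at hx
      refine n2 ⟨hV2, x, ?_⟩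
      rw [lt_div_iff₀ h2] at hx
      refine le_trans (le_of_eq ?_) (hx.le.trans (le_abs_self _))
      unfold Cx.b2
      rw [← Real.rpow_add h0]
      congr 1
      ring
    have t3 : ∀ w y, lm (ph2 (c.rw π.lam)) (GG c.d π.n π.lam π.z V) w y / c.b3 π.lam ≤
        π.lam ^ (c.e / 100) := by
      intro w y
      rw [div_le_iff₀ h3]
      have q1 : |lm (ph2 (c.rw π.lam)) (GG c.d π.n π.lam π.z V) w y -
          Ex ν (fun V : Tor c.d π.n → ℝ =>
            lm (ph2 (c.rw π.lam)) (GG c.d π.n π.lam π.z V) w y)| <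
          π.lam ^ (-2 - c.e / 4 + c.e / 50) := by
        by_contra hx
        push Not at hx
        refine n3 ⟨hV2, (w, y), ?_⟩
        rw [abs_abs]
        exact hx
      have q2 := p4 w y
      have q3 : π.lam ^ (-2 - c.e / 8) ≤ π.lam ^ (-2 - c.e / 4 + c.e / 50) :=
        rp_anti h0 hle (by linarith)
      have q4 := (abs_lt.1 q1).2
      have q5 : π.lam ^ (-2 - c.e / 4 + c.e / 50) = π.lam ^ (c.e / 50) * c.b3 π.lam := by
        unfold Cx.b3
        rw [← Real.rpow_add h0]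
        congr 1
        ring
      calc lm (ph2 (c.rw π.lam)) (GG c.d π.n π.lam π.z V) w y
          ≤ 2 * π.lam ^ (-2 - c.e / 4 + c.e / 50) := by linarith
        _ = 2 * π.lam ^ (c.e / 50) * c.b3 π.lam := by rw [q5]; ring
        _ ≤ π.lam ^ (c.e / 100) * c.b3 π.lam := by gcongr
    have hs : 0 ≤ π.lam ^ (c.e / 100) := (rp_pos h0 _).le
    have k1 := fbd_le (ph2 (c.rw π.lam)) (fun x y => (Real.exp_pos _).le) h4 h2 h3 hs t4 t2 t3 c.p
    have k2 := fbd_small (d := c.d) (p := c.p) h0 m0 (Nat.cast_nonneg _) (card_tor_le hπ.1) hs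
      le_rfl (by
        have h5 := hc.pp
        linarith)
    have k3 : c.F ν π V < 1 := lt_of_le_of_lt k1 k2
    linarith
  have hfin : ∀ s : Set (Tor c.d π.n → ℝ), μ s ≠ ⊤ := fun s => measure_ne_top μ s
  calc (μ {V | 1 ≤ c.F ν π V ∧ c.F ν π V ≤ 2}).toReal ≤ (μ S1 + (μ S2 + μ S3)).toReal := by
        refine ENNReal.toReal_mono (by simp [hfin]) ?_
        exact (measure_mono hsub).trans ((measure_union_le _ _).trans
          (add_le_add_right (measure_union_le _ _) _))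
    _ = (μ S1).toReal + ((μ S2).toReal + (μ S3).toReal) := by
        rw [ENNReal.toReal_add (hfin _) (by simp [hfin]), ENNReal.toReal_add (hfin _) (hfin _)]
    _ ≤ π.lam ^ (D1 + 1) + (π.lam ^ (D1 + 1) + π.lam ^ (D1 + 1)) :=
        add_le_add p1 (add_le_add p2 p3)
    _ = 3 * π.lam * π.lam ^ D1 := by
        rw [Real.rpow_add h0, Real.rpow_one]; ring
    _ ≤ 1 * π.lam ^ D1 := by
        have := rp_pos h0 D1
        gcongr
        linarith
    _ = π.lam ^ D1 := one_mul _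

end Pool.Agent.BK3
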