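import Pool.Agent.BK3.TEq
import Pool.Agent.BK3.Ball
import Pool.Agent.BK.Cur1c
import Pool.Agent.BK.Cur1b
import Pool.Agent.BK.FB34
import Pool.Agent.BK.BSa

/-! BK3 module CurX: nineteen twentieths of the mass is where `1 - cos` of the chosen momentum counts.
`k = Pi.single j (mk A δ1 π)`: `ang (k j) = kk A δ1 π` (`fb34_ang_nat`, `mk ≤ n`), `kk ∈ [lam^(1+A/2-δ1), 2 lam^(1+A/2-δ1)]`
(`2n+1 ≥ lam^(-40)`; see `kk_bounds` in `BK/Cur1c.lean`, the same proof), so `k` is small (`Sml`) because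
`1 + A/2 - δ1 > 2`. `rho_le`: `|ρ(k)| lam² s2 κ kk² ≤ lam^(-3t) γ²`, `γ ≤ η + lam² s2 |g| ≤ lam^(2-3t)` (`η ≤ 2 lam^A`, `A > 2`,
`meang`), so `|ρ(k)| ≤ C lam^(-A + 2δ1 - 9t) ≤ (1/20) Im g/η` (`Im g ≥ κ/2`, `η ≤ 2 lam^A`, `t = e/1000 ≤ δ1/1000`).
`E ∑ |G_0y|² (1 - cos(kk y_j)) = Im g/η - Re ρ(k)` (`fE_sum`, `ward`; `Re (ch k y) = cos(kk y_j)`, `re_tw_mass` in
`BK/Cur1b.lean`, note `up j m = ch (Pi.single j m)` by definition). -/

open MeasureTheory Finset Matrix Pool.Agent.BK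

noncomputable section

namespace Pool.Agent.BK3

variable {ν : Measure ℝ} {R s2 : ℝ}

lemma kk_boundsX (c : Cx) (hc : c.Ok) {δ1 : ℝ} (h0 : 0 < δ1) (h1 : 2 + 2 * δ1 < c.A) :
    ∃ lam1 : ℝ, 0 < lam1 ∧ lam1 ≤ 1 ∧ ∀ π ∈ c.PT lam1,
      π.lam ^ (1 + c.A / 2 - δ1) ≤ kk c.A δ1 π ∧
      kk c.A δ1 π ≤ 2 * π.lam ^ (1 + c.A / 2 - δ1) ∧ 1 ≤ sk c.A δ1 π := by
  refine ⟨1 / 20, by norm_num, by norm_num, fun π hπ => ?_⟩
  obtain ⟨p0, p1, p2, p3, p4, p5, p6, p7⟩ := hπ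
  have hps : π ∈ PS c.lo c.hi (1 / 20) c.A 0 := by
    refine ⟨p0, p1, p2, p3, p4, p5, p6, ?_⟩
    rw [Real.rpow_zero]
    have := hc.free.kap1
    linarith
  have hA3 := hc.A3
  have hA2 := hc.A2
  obtain ⟨k1, k2⟩ := kk_bounds (by norm_num : (1 / 20 : ℝ) ≤ 1 / 2) hA3 hA2 h0.le (by linarith) hps
  exact ⟨k1, k2, (sk_bounds le_rfl hA3 hA2 h0.le (by linarith) hps).1⟩

private lemma curX_small (K : ℝ) {a : ℝ} (ha : 0 < a) :
    ∃ l1 : ℝ, 0 < l1 ∧ l1 ≤ 1 ∧ ∀ l : ℝ, 0 < l → l ≤ l1 → K * l ^ a ≤ 1 := by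
  have hK : 0 < |K| + 1 := by positivity
  have hi1 : 1 / (|K| + 1) ≤ 1 := by
    rw [div_le_one hK]; linarith [abs_nonneg K]
  refine ⟨(1 / (|K| + 1)) ^ (1 / a), by positivity,
    Real.rpow_le_one (by positivity) hi1 (by positivity), fun l h0 h1 => ?_⟩
  have h2 : l ^ a ≤ 1 / (|K| + 1) := by
    calc l ^ a ≤ ((1 / (|K| + 1)) ^ (1 / a)) ^ a := Real.rpow_le_rpow h0.le h1 ha.le
      _ = 1 / (|K| + 1) := by
          rw [← Real.rpow_mul (by positivity), one_div_mul_cancel ha.ne', Real.rpow_one]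
  calc K * l ^ a ≤ |K| * l ^ a := mul_le_mul_of_nonneg_right (le_abs_self K) (by positivity)
    _ ≤ |K| * (1 / (|K| + 1)) := mul_le_mul_of_nonneg_left h2 (abs_nonneg K)
    _ ≤ 1 := by
        rw [mul_one_div, div_le_one hK]; linarith

private lemma curX_mass (hν : BLaw ν R s2) (d : ℕ) (π : Par) (hη : 0 < π.eta) (A δ1 : ℝ)
    (j : Fin d) :
    Ex ν (fun V : Tor d π.n → ℝ => ∑ y, ‖GG d π.n π.lam π.z V 0 y‖ ^ 2 *
      (1 - Real.cos (kk A δ1 π * ((y j).valMinAbs : ℝ)))) =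
    (gb ν d π).im / π.eta - (rhok ν d π (Pi.single j (mk A δ1 π : ZMod (2 * π.n + 1)))).re := by
  have hz : π.z.im ≠ 0 := (show π.eta ≠ 0 from hη.ne')
  have hc : Continuous fun V : Tor d π.n → ℝ => GG d π.n π.lam π.z V := bsa_cont_GG π.lam hz
  have hcy : ∀ y : Tor d π.n, Continuous fun V : Tor d π.n → ℝ => ‖GG d π.n π.lam π.z V 0 y‖ ^ 2 :=
    fun y => (((continuous_apply_apply 0 y).comp hc).norm).pow 2
  have h1 : Ex ν (fun V : Tor d π.n → ℝ => ∑ y, ‖GG d π.n π.lam π.z V 0 y‖ ^ 2 *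
      (1 - Real.cos (kk A δ1 π * ((y j).valMinAbs : ℝ)))) =
      ∑ y, fE ν d π y * (1 - Real.cos (kk A δ1 π * ((y j).valMinAbs : ℝ))) := by
    unfold Ex fE
    rw [integral_finsetSum _ fun y _ => ((int_cont hν (hcy y)).mul_const _)]
    refine Finset.sum_congr rfl fun y _ => ?_
    rw [integral_mul_const]
    rfl
  have h2 := fE_sum hν d π hη
  have h3 : (rhok ν d π (Pi.single j (mk A δ1 π : ZMod (2 * π.n + 1)))).re =
      ∑ y, fE ν d π y * Real.cos (kk A δ1 π * ((y j).valMinAbs : ℝ)) := by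
    rw [← fE_ch hν d π hη, Complex.re_sum]
    refine Finset.sum_congr rfl fun y _ => ?_
    have h4 : ch (Pi.single j (mk A δ1 π : ZMod (2 * π.n + 1))) y = up j (mk A δ1 π) y := rfl
    rw [h4, up_cos_sin, Complex.re_ofReal_mul]
    congr 1
    unfold kk
    generalize Real.cos (kof π.n (mk A δ1 π) * ((y j).valMinAbs : ℝ)) = a
    generalize Real.sin (kof π.n (mk A δ1 π) * ((y j).valMinAbs : ℝ)) = b
    simp
  rw [h1, h3, ← h2, ← Finset.sum_sub_distrib]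
  exact Finset.sum_congr rfl fun y _ => by ring

theorem curX (hν : BLaw ν R s2) (c : Cx) (hc : c.Ok) {δ1 : ℝ} (h0 : 0 < δ1)
    (h1 : 2 + 2 * δ1 < c.A) (he : c.e ≤ δ1) :
    ∃ lam1 : ℝ, 0 < lam1 ∧ lam1 ≤ 1 ∧ ∀ π ∈ c.S ν lam1, π.eta ≤ 2 * π.lam ^ c.A → ∀ j : Fin c.d,
      19 / 20 * ((gb ν c.d π).im / π.eta) ≤ Ex ν (fun V : Tor c.d π.n → ℝ =>
        ∑ y, ‖GG c.d π.n π.lam π.z V 0 y‖ ^ 2 *
          (1 - Real.cos (kk c.A δ1 π * ((y j).valMinAbs : ℝ)))) := by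
  have hs2 := hν.s2_pos
  have hκ := hc.free.kap
  have he0 := hc.e0
  have ht : 0 < c.t := by unfold Cx.t; positivity
  have ht1 : c.t ≤ δ1 / 1000 := by unfold Cx.t; linarith
  obtain ⟨la, la0, la1, ha⟩ := kk_boundsX c hc h0 h1
  obtain ⟨lb, lb0, lb1, hb⟩ := rho_le hν c hc
  obtain ⟨lc, lc0, lc1, hcc⟩ := meang hν c hc
  obtain ⟨ld, ld0, ld1, hd⟩ := curX_small (16 / (c.κ ^ 2 * s2)) (a := 1 + c.A / 2 - δ1 - 2)
    (by linarith)
  obtain ⟨lf, lf0, lf1, hf⟩ := curX_small 4 (a := 3 * c.t) (by positivity)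
  obtain ⟨lg, lg0, lg1, hg⟩ := curX_small (2 * s2) (a := c.t) ht
  obtain ⟨lh, lh0, lh1, hh⟩ := curX_small (80 / (s2 * c.κ ^ 2)) (a := 2 * δ1 - 9 * c.t)
    (by linarith)
  set lam1 : ℝ := min la (min lb (min lc (min ld (min lf (min lg (min lh (1 / 20))))))) with hlam1
  have m0 : 0 < lam1 := by
    simp only [hlam1, lt_min_iff]
    exact ⟨la0, lb0, lc0, ld0, lf0, lg0, lh0, by norm_num⟩
  have m1 : lam1 ≤ la ∧ lam1 ≤ lb ∧ lam1 ≤ lc ∧ lam1 ≤ ld ∧ lam1 ≤ lf ∧ lam1 ≤ lg ∧ lam1 ≤ lh ∧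
      lam1 ≤ 1 / 20 := by
    have h := le_refl lam1
    conv at h => rhs; rw [hlam1]
    simpa only [le_min_iff] using h
  obtain ⟨ma, mb, mc, md, mf, mg, mh, mi⟩ := m1
  refine ⟨lam1, m0, ma.trans la1, ?_⟩
  intro π hπ hη j
  have hmono : ∀ l : ℝ, lam1 ≤ l → π ∈ c.S ν l := fun l hl =>
    ⟨⟨hπ.1.1, hπ.1.2.1.trans hl, hπ.1.2.2⟩, hπ.2⟩
  obtain ⟨k1, k2, -⟩ := ha π (hmono la ma).1
  obtain ⟨-, g2, g3⟩ := hcc π (hmono lc mc)
  obtain ⟨⟨p0, p1, p2, p3, p4, p5, p6, p7⟩, q1, q2⟩ := hπ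
  have hη0 : 0 < π.eta := lt_of_lt_of_le (Real.rpow_pos_of_pos p0 _) p6
  set L : ℝ := π.lam with hL
  have d1 := hd L p0 (p1.trans md)
  have f1 := hf L p0 (p1.trans mf)
  have gg1 := hg L p0 (p1.trans mg)
  have hh1 := hh L p0 (p1.trans mh)
  set E' : ℝ := 1 + c.A / 2 - δ1 with hE'
  have hl1 : L ≤ 1 := (p1.trans mi).trans (by norm_num)
  have hE2 : 2 < E' := by rw [hE']; linarith
  have hLE : 0 < L ^ E' := Real.rpow_pos_of_pos p0 _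
  -- `mk ≤ n`
  have hn1 : (1 : ℝ) ≤ π.n := by
    have h2 : (20 : ℝ) ≤ L ^ (-(1 : ℝ)) := by
      rw [Real.rpow_neg_one, le_inv_comm₀ (by norm_num) p0]
      linarith
    have h3 : L ^ (-(1 : ℝ)) ≤ L ^ (-(40 : ℝ)) :=
      Real.rpow_le_rpow_of_exponent_ge p0 hl1 (by norm_num)
    have h4 : (19 : ℝ) ≤ 2 * π.n := by linarith
    linarith
  have hLE1 : L ^ E' ≤ 1 := Real.rpow_le_one p0.le hl1 (by linarith)
  have hmn : mk c.A δ1 π ≤ π.n := by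
    have h2 : kk c.A δ1 π = 2 * Real.pi * (mk c.A δ1 π : ℝ) / (2 * π.n + 1) := rfl
    have h3 : 2 * Real.pi * (mk c.A δ1 π : ℝ) ≤ 2 * (2 * π.n + 1) := by
      have h4 : kk c.A δ1 π ≤ 2 := by linarith
      rw [h2, div_le_iff₀ (by positivity)] at h4
      linarith
    have h5 := Real.pi_gt_three
    have h6 : (mk c.A δ1 π : ℝ) ≤ π.n := by
      have h7 : 3 * (mk c.A δ1 π : ℝ) ≤ Real.pi * (mk c.A δ1 π : ℝ) := by gcongr
      nlinarith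
    exact_mod_cast h6
  set k : Tor c.d π.n := Pi.single j (mk c.A δ1 π : ZMod (2 * π.n + 1)) with hk
  have hkj : ang π.n (k j) = kk c.A δ1 π := by
    rw [hk, Pi.single_eq_same, fb34_ang_nat _ _ hmn]
    rfl
  have hkk0 : 0 < kk c.A δ1 π := hLE.trans_le k1
  have hsml : Sml c s2 π k := by
    have h2 : 2 * L ^ E' ≤ c.κ ^ 2 * s2 / 8 * L ^ 2 := by
      have h3 : L ^ E' = L ^ (E' - 2) * L ^ 2 := by
        rw [← Real.rpow_natCast L 2, ← Real.rpow_add p0]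
        congr 1
        push_cast
        ring
      rw [h3]
      have h4 : 16 * L ^ (E' - 2) ≤ c.κ ^ 2 * s2 := by
        rw [div_mul_eq_mul_div, div_le_one (by positivity)] at d1
        exact d1
      nlinarith [pow_pos p0 2]
    intro l
    by_cases hl : l = j
    · subst hl
      rw [hkj, abs_of_pos hkk0]
      exact k2.trans h2
    · have h3 : ang π.n (k l) = 0 := by
        rw [hk, Pi.single_eq_of_ne hl]
        simp [ang]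
      rw [h3, abs_zero]
      positivity
  obtain ⟨-, r2⟩ := hb π (hmono lb mb |> fun h => h) k hsml
  have r3 := r2 j
  rw [hkj] at r3
  set ρ := rhok ν c.d π k with hρ
  rw [curX_mass hν c.d π hη0 c.A δ1 j]
  -- `Im ζ ≤ lam^(2-3t)`
  have hγ : (zt ν s2 c.d π).im ≤ L ^ (2 - 3 * c.t) := by
    have h2 : (zt ν s2 c.d π).im = π.eta + L ^ 2 * s2 * (gb ν c.d π).im := by
      have h3 : zt ν s2 c.d π = π.z + ((L ^ 2 * s2 : ℝ) : ℂ) * gb ν c.d π := rfl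
      rw [h3, Complex.add_im, Complex.im_ofReal_mul]
      rfl
    have h3 : (gb ν c.d π).im ≤ L ^ (-(2 * c.t)) :=
      ((le_abs_self _).trans (Complex.abs_im_le_norm _)).trans g3
    have h4 : L ^ (2 - 3 * c.t) = L ^ 2 * L ^ (-(3 * c.t)) := by
      rw [← Real.rpow_natCast L 2, ← Real.rpow_add p0]
      congr 1
    have h5 : L ^ c.A ≤ L ^ 2 := by
      rw [← Real.rpow_natCast L 2]
      exact Real.rpow_le_rpow_of_exponent_ge p0 hl1 (by push_cast; linarith)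
    have h6 : L ^ (3 * c.t) * L ^ (-(3 * c.t)) = 1 := by
      rw [← Real.rpow_add p0, add_neg_cancel, Real.rpow_zero]
    have h7 : L ^ c.t * L ^ (-(3 * c.t)) = L ^ (-(2 * c.t)) := by
      rw [← Real.rpow_add p0]
      congr 1
      ring
    have h8 : 0 < L ^ (-(3 * c.t)) := Real.rpow_pos_of_pos p0 _
    have h9 : 2 ≤ L ^ (-(3 * c.t)) / 2 := by
      have h10 : 4 * (L ^ (3 * c.t) * L ^ (-(3 * c.t))) ≤ L ^ (-(3 * c.t)) := by
        nlinarith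
      rw [h6] at h10
      linarith
    have h10 : s2 * L ^ (-(2 * c.t)) ≤ L ^ (-(3 * c.t)) / 2 := by
      rw [← h7]
      nlinarith
    rw [h2, h4]
    have h11 : L ^ 2 * s2 * (gb ν c.d π).im ≤ L ^ 2 * (s2 * L ^ (-(2 * c.t))) := by
      rw [mul_assoc]
      gcongr
    have h12 : π.eta ≤ L ^ 2 * 2 := by linarith
    have h13 : L ^ 2 * 2 ≤ L ^ 2 * (L ^ (-(3 * c.t)) / 2) := by gcongr
    have h14 : L ^ 2 * (s2 * L ^ (-(2 * c.t))) ≤ L ^ 2 * (L ^ (-(3 * c.t)) / 2) := by gcongr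
    nlinarith
  have hγ0 : 0 ≤ (zt ν s2 c.d π).im := by
    have h2 : (zt ν s2 c.d π).im = π.eta + L ^ 2 * s2 * (gb ν c.d π).im := by
      have h3 : zt ν s2 c.d π = π.z + ((L ^ 2 * s2 : ℝ) : ℂ) * gb ν c.d π := rfl
      rw [h3, Complex.add_im, Complex.im_ofReal_mul]
      rfl
    rw [h2]
    have : 0 ≤ (gb ν c.d π).im := by linarith
    positivity
  -- the main bound
  have hmain : ‖ρ‖ * L ^ c.A ≤ c.κ / 80 := by
    have h2 : ‖ρ‖ * (L ^ 2 * s2 * c.κ * (L ^ E') ^ 2) ≤ L ^ (-(3 * c.t)) * (L ^ (2 - 3 * c.t)) ^ 2 := by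
      calc ‖ρ‖ * (L ^ 2 * s2 * c.κ * (L ^ E') ^ 2)
          ≤ ‖ρ‖ * (L ^ 2 * s2 * c.κ * kk c.A δ1 π ^ 2) := by gcongr
        _ ≤ L ^ (-(3 * c.t)) * (zt ν s2 c.d π).im ^ 2 := r3
        _ ≤ L ^ (-(3 * c.t)) * (L ^ (2 - 3 * c.t)) ^ 2 := by gcongr
    have h3 : L ^ 2 * (L ^ E') ^ 2 = L ^ c.A * L ^ (4 - 2 * δ1) := by
      rw [← Real.rpow_natCast L 2, ← Real.rpow_natCast (L ^ E') 2, ← Real.rpow_mul p0.le,
        ← Real.rpow_add p0, ← Real.rpow_add p0]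
      congr 1
      push_cast
      rw [hE']
      ring
    have h4 : L ^ (-(3 * c.t)) * (L ^ (2 - 3 * c.t)) ^ 2 =
        L ^ (2 * δ1 - 9 * c.t) * L ^ (4 - 2 * δ1) := by
      rw [← Real.rpow_natCast (L ^ (2 - 3 * c.t)) 2, ← Real.rpow_mul p0.le,
        ← Real.rpow_add p0, ← Real.rpow_add p0]
      congr 1
      push_cast
      ring
    have h5 : 0 < L ^ (4 - 2 * δ1) := Real.rpow_pos_of_pos p0 _
    have h6 : (‖ρ‖ * L ^ c.A * (s2 * c.κ)) * L ^ (4 - 2 * δ1) ≤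
        L ^ (2 * δ1 - 9 * c.t) * L ^ (4 - 2 * δ1) := by
      rw [← h4]
      refine le_trans (le_of_eq ?_) h2
      calc (‖ρ‖ * L ^ c.A * (s2 * c.κ)) * L ^ (4 - 2 * δ1)
          = ‖ρ‖ * (s2 * c.κ) * (L ^ c.A * L ^ (4 - 2 * δ1)) := by ring
        _ = ‖ρ‖ * (s2 * c.κ) * (L ^ 2 * (L ^ E') ^ 2) := by rw [h3]
        _ = _ := by ring
    have h7 : ‖ρ‖ * L ^ c.A * (s2 * c.κ) ≤ L ^ (2 * δ1 - 9 * c.t) := le_of_mul_le_mul_right h6 h5
    have h8 : 80 * L ^ (2 * δ1 - 9 * c.t) ≤ s2 * c.κ ^ 2 := by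
      rw [div_mul_eq_mul_div, div_le_one (by positivity)] at hh1
      exact hh1
    have h9 : (‖ρ‖ * L ^ c.A) * (s2 * c.κ) ≤ c.κ / 80 * (s2 * c.κ) := by nlinarith
    exact le_of_mul_le_mul_right h9 (by positivity)
  have h20 : ‖ρ‖ * π.eta ≤ c.κ / 40 := by
    calc ‖ρ‖ * π.eta ≤ ‖ρ‖ * (2 * L ^ c.A) := by gcongr
      _ = 2 * (‖ρ‖ * L ^ c.A) := by ring
      _ ≤ 2 * (c.κ / 80) := by gcongr
      _ = c.κ / 40 := by ring
  have h21 : ρ.re ≤ 1 / 20 * ((gb ν c.d π).im / π.eta) := by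
    have h22 : ‖ρ‖ ≤ 1 / 20 * ((gb ν c.d π).im / π.eta) := by
      rw [← mul_div_assoc, le_div_iff₀ hη0]
      linarith
    exact ((le_abs_self _).trans (Complex.abs_re_le_norm _)).trans h22
  linarith

end Pool.Agent.BK3
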