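import Pool.Agent.BK3.One
import Pool.Agent.BK.Res1

/-! BK3 module DB: bounds for `D1, D2, D3` and for `DF`. `A = Gv H lam z V`.
`db1`: `D1_{w,u} ≤ C lam |A_wu| B/b4` if all `G4 ≤ B`, `256 R⁴ lam⁴ B ≤ 1`: with `e = ee R lam A w y u`,
`∑_y e⁴ = (4 R lam |A_wu|)⁴ G4_u`, `∑ 4(|A|+e)³ e ≤ 4 (8 (G4_w + ∑ e⁴))^(3/4) (∑ e⁴)^(1/4)`,
`∑ e⁴ ≤ 256 R⁴ lam⁴ |A_wu|⁴ B ≤ 256 R⁴ lam⁴ B² ≤ B`; so `≤ 4 (16 B)^(3/4) 4 R lam |A_wu| B^(1/4) ≤
128 R lam |A_wu| B`.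
`db3`: `|B_uw| ≤ (lm_{u,y} lm_{w,y})^(1/2) ≤ μ` (Cauchy-Schwarz).
`mink`: Minkowski for `∑_i p (T_i + D_i(u))^(p-1) D_i(u)`: `(T+D)^(p-1) D ≤ 2^p (T^(p-1) D + D^p)`, and
`(∑_u ρ_u (∑_i c_i D_i(u))²)^(1/2) ≤ ∑_i c_i (∑_u ρ_u D_i(u)²)^(1/2)`, `D_i(u)^p ≤ d0^(p-1) D_i(u)`.
`sum_pow_le`: Hoelder `∑_i T_i^(p-1) ≤ (#ι)^(1/p) (∑ T_i^p)^((p-1)/p)`, at most `(#ι)^(1/p) K` if
`∑ T^p ≤ K`, `K ≥ 1`. -/

open MeasureTheory Finset Matrix Pool.Agent.BK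

noncomputable section

namespace Pool.Agent.BK3

variable {X : Type} [Fintype X] [DecidableEq X] {H : Matrix X X ℂ} {R lam : ℝ} {z : ℂ}

lemma db1 {A : Matrix X X ℂ} (hA : ∀ x y, A x y = A y x) (hR : 1 ≤ R) (hlam : 0 ≤ lam) {B b4 : ℝ}
    (hB : 0 ≤ B) (hb : 0 < b4) (h : ∀ x, G4 A x ≤ B) (hs : 256 * R ^ 4 * lam ^ 4 * B ≤ 1) (w u : X) :
    D1 R lam b4 A w u ≤ 128 * R * lam * ‖A w u‖ * (B / b4) := by
  unfold D1
  have e : 128 * R * lam * ‖A w u‖ * (B / b4) = (128 * R * lam * ‖A w u‖ * B) / b4 := by ring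
  rw [e]
  refine div_le_div_of_nonneg_right ?_ hb.le
  have hR0 : 0 ≤ R := by linarith
  set k : ℝ := 4 * R * lam * ‖A w u‖ with hk
  have hk0 : 0 ≤ k := by positivity
  have hk1 : k ≤ 1 := by
    have h1 : ‖A w u‖ ^ 4 ≤ B := by
      refine le_trans ?_ (h w)
      unfold G4
      exact Finset.single_le_sum (f := fun y => ‖A w y‖ ^ 4) (fun y _ => by positivity)
        (Finset.mem_univ u)
    have h2 : k ^ 4 ≤ 1 ^ 4 := by
      calc k ^ 4 = 256 * R ^ 4 * lam ^ 4 * ‖A w u‖ ^ 4 := by rw [hk]; ring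
        _ ≤ 256 * R ^ 4 * lam ^ 4 * B := by gcongr
        _ ≤ 1 := hs
        _ = 1 ^ 4 := by norm_num
    exact le_of_pow_le_pow_left₀ (by norm_num) zero_le_one h2
  have h3 : ∀ y, 4 * (‖A w y‖ + ee R lam A w y u) ^ 3 * ee R lam A w y u ≤
      4 * k * (3 * ‖A w y‖ ^ 4 + 5 * ‖A u y‖ ^ 4) := by
    intro y
    have e1 : ee R lam A w y u = k * ‖A u y‖ := by
      unfold ee
      rw [hk]
    rw [e1]
    have ha := norm_nonneg (A w y)
    have hb' := norm_nonneg (A u y)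
    set a := ‖A w y‖
    set b := ‖A u y‖
    have h4 : (a + k * b) ^ 3 ≤ (a + b) ^ 3 := by
      have : k * b ≤ b := by nlinarith
      gcongr
    have h5 : (a + b) ^ 3 * b ≤ 3 * a ^ 4 + 5 * b ^ 4 := by
      have i1 : (a + b) ^ 3 ≤ 4 * (a ^ 3 + b ^ 3) := by
        nlinarith [mul_nonneg (add_nonneg ha hb') (sq_nonneg (a - b))]
      have i2 : 4 * (a ^ 3 * b) ≤ 3 * a ^ 4 + b ^ 4 := by
        have i3 : 0 ≤ (a - b) ^ 2 * (3 * a ^ 2 + 2 * a * b + b ^ 2) := by positivity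
        nlinarith [i3]
      nlinarith [mul_le_mul_of_nonneg_right i1 hb']
    calc 4 * (a + k * b) ^ 3 * (k * b) ≤ 4 * (a + b) ^ 3 * (k * b) := by gcongr
      _ = 4 * k * ((a + b) ^ 3 * b) := by ring
      _ ≤ 4 * k * (3 * a ^ 4 + 5 * b ^ 4) := by gcongr
  refine (Finset.sum_le_sum fun y _ => h3 y).trans ?_
  rw [← Finset.mul_sum, Finset.sum_add_distrib, ← Finset.mul_sum, ← Finset.mul_sum]
  have h6 := h w
  have h7 := h u
  unfold G4 at h6 h7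
  calc 4 * k * (3 * ∑ y, ‖A w y‖ ^ 4 + 5 * ∑ y, ‖A u y‖ ^ 4) ≤ 4 * k * (3 * B + 5 * B) := by gcongr
    _ = 128 * R * lam * ‖A w u‖ * B := by rw [hk]; ring

lemma db3 {φ : X → X → ℝ} (hφ : Wgt φ) {A : Matrix X X ℂ} {μ : ℝ} (hμ : 0 ≤ μ) (y u w : X)
    (h1 : lm φ A u y ≤ μ) (h2 : lm φ A w y ≤ μ) : ‖Bm φ A y u w‖ ≤ μ := by
  unfold Bm
  unfold lm at h1 h2
  refine (norm_sum_le _ _).trans ?_
  have h3 : ∀ x, ‖A u x * (φ y x : ℂ) * starRingEnd ℂ (A w x)‖ ≤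
      1 / 2 * (φ y x * ‖A u x‖ ^ 2) + 1 / 2 * (φ y x * ‖A w x‖ ^ 2) := by
    intro x
    rw [norm_mul, norm_mul, RCLike.norm_conj, Complex.norm_real, Real.norm_eq_abs,
      abs_of_pos (hφ.pos y x)]
    nlinarith [mul_nonneg (hφ.pos y x).le (sq_nonneg (‖A u x‖ - ‖A w x‖))]
  refine (Finset.sum_le_sum fun x _ => h3 x).trans ?_
  rw [Finset.sum_add_distrib, ← Finset.mul_sum, ← Finset.mul_sum]
  linarith

/-- The global square norm of `u ↦ B_uw` (`B_{·w} = G (φ conj(G_w))`). -/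
lemma db4 (hH : RS H) (hz : 0 < z.im) {φ : X → X → ℝ} (hφ : Wgt φ) (V : X → ℝ) (y w : X) :
    ∑ u, ‖Bm φ (Gv H lam z V) y u w‖ ^ 2 ≤ (1 / z.im) ^ 2 * lm φ (Gv H lam z V) w y := by
  have h1 := nsq_Gr_mulVec hH (fun x => lam * V x) hz
    (fun x => (φ y x : ℂ) * starRingEnd ℂ (Gv H lam z V w x))
  have h2 : nsq (Gr H (fun x => lam * V x) z *ᵥ
      (fun x => (φ y x : ℂ) * starRingEnd ℂ (Gv H lam z V w x))) =
      ∑ u, ‖Bm φ (Gv H lam z V) y u w‖ ^ 2 := by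
    unfold nsq
    refine Finset.sum_congr rfl fun u _ => ?_
    congr 2
    unfold Bm Matrix.mulVec dotProduct
    refine Finset.sum_congr rfl fun x _ => ?_
    rw [mul_assoc]
    rfl
  rw [h2] at h1
  refine h1.trans (mul_le_mul_of_nonneg_left ?_ (by positivity))
  unfold nsq lm
  refine Finset.sum_le_sum fun x _ => ?_
  rw [norm_mul, RCLike.norm_conj, Complex.norm_real, Real.norm_eq_abs, abs_of_pos (hφ.pos y x),
    mul_pow]
  have h3 := hφ.pos y x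
  have h4 := hφ.le y x
  have h5 : φ y x ^ 2 ≤ φ y x := by nlinarith
  exact mul_le_mul_of_nonneg_right h5 (by positivity)

private lemma db_add_pow {a b : ℝ} (ha : 0 ≤ a) (hb : 0 ≤ b) (n : ℕ) :
    (a + b) ^ n ≤ 2 ^ n * (a ^ n + b ^ n) := by
  rcases le_total a b with h | h
  · calc (a + b) ^ n ≤ (2 * b) ^ n := by gcongr; linarith
      _ = 2 ^ n * b ^ n := mul_pow _ _ _
      _ ≤ _ := by
        have := pow_nonneg ha n
        gcongr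
        linarith
  · calc (a + b) ^ n ≤ (2 * a) ^ n := by gcongr; linarith
      _ = 2 ^ n * a ^ n := mul_pow _ _ _
      _ ≤ _ := by
        have := pow_nonneg hb n
        gcongr
        linarith

private lemma db_minkowski {ι : Type} [Fintype ι] (c : ι → ℝ) (hc : ∀ i, 0 ≤ c i)
    (D : ι → X → ℝ) (ρ : X → ℝ) (hρ : ∀ u, 0 ≤ ρ u) {L : ℝ}
    (h2 : ∀ i, ∑ u, ρ u * D i u ^ 2 ≤ L ^ 2) :
    ∑ u, ρ u * (∑ i, c i * D i u) ^ 2 ≤ ((∑ i, c i) * L) ^ 2 := by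
  have h3 : ∀ u, (∑ i, c i * D i u) ^ 2 ≤ (∑ i, c i) * ∑ i, c i * D i u ^ 2 := by
    intro u
    refine Finset.sum_sq_le_sum_mul_sum_of_sq_le_mul _ (fun i _ => hc i)
      (fun i _ => mul_nonneg (hc i) (sq_nonneg _)) fun i _ => le_of_eq ?_
    ring
  have hS : 0 ≤ ∑ i, c i := Finset.sum_nonneg fun i _ => hc i
  calc ∑ u, ρ u * (∑ i, c i * D i u) ^ 2
      ≤ ∑ u, ρ u * ((∑ i, c i) * ∑ i, c i * D i u ^ 2) :=
        Finset.sum_le_sum fun u _ => mul_le_mul_of_nonneg_left (h3 u) (hρ u)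
    _ = (∑ i, c i) * ∑ i, c i * ∑ u, ρ u * D i u ^ 2 := by
        have : ∀ i, c i * ∑ u, ρ u * D i u ^ 2 = ∑ u, ρ u * (c i * D i u ^ 2) := by
          intro i
          rw [Finset.mul_sum]
          exact Finset.sum_congr rfl fun u _ => by ring
        simp only [this]
        rw [Finset.sum_comm, Finset.mul_sum]
        refine Finset.sum_congr rfl fun u _ => ?_
        rw [← Finset.mul_sum]
        ring
    _ ≤ (∑ i, c i) * ∑ i, c i * L ^ 2 := by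
        refine mul_le_mul_of_nonneg_left (Finset.sum_le_sum fun i _ => ?_) hS
        exact mul_le_mul_of_nonneg_left (h2 i) (hc i)
    _ = ((∑ i, c i) * L) ^ 2 := by
        rw [← Finset.sum_mul]
        ring

theorem mink {ι : Type} [Fintype ι] {p : ℕ} (hp : 1 ≤ p) (T : ι → ℝ) (hT : ∀ i, 0 ≤ T i)
    (D : ι → X → ℝ) (hD : ∀ i u, 0 ≤ D i u) (ρ : X → ℝ) (hρ : ∀ u, 0 ≤ ρ u) {d0 L : ℝ}
    (hd0 : 0 ≤ d0) (hL : 0 ≤ L) (h1 : ∀ i u, D i u ≤ d0) (h2 : ∀ i, ∑ u, ρ u * D i u ^ 2 ≤ L ^ 2) :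
    ∑ u, ρ u * (∑ i, p * (T i + D i u) ^ (p - 1) * D i u) ^ 2 ≤
      (p * 2 ^ p * (∑ i, T i ^ (p - 1) + Fintype.card ι * d0 ^ (p - 1)) * L) ^ 2 := by
  have hc : ∀ i, 0 ≤ (p : ℝ) * 2 ^ p * (T i ^ (p - 1) + d0 ^ (p - 1)) := fun i => by
    have := hT i
    positivity
  have h3 := db_minkowski (fun i => (p : ℝ) * 2 ^ p * (T i ^ (p - 1) + d0 ^ (p - 1))) hc D ρ hρ h2
  have h4 : ∑ i, (p : ℝ) * 2 ^ p * (T i ^ (p - 1) + d0 ^ (p - 1)) =
      p * 2 ^ p * (∑ i, T i ^ (p - 1) + Fintype.card ι * d0 ^ (p - 1)) := by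
    rw [← Finset.mul_sum, Finset.sum_add_distrib, Finset.sum_const, nsmul_eq_mul, Finset.card_univ]
  rw [h4] at h3
  refine le_trans (Finset.sum_le_sum fun u _ => ?_) h3
  refine mul_le_mul_of_nonneg_left ?_ (hρ u)
  refine pow_le_pow_left₀ (Finset.sum_nonneg fun i _ => ?_) (Finset.sum_le_sum fun i _ => ?_) 2
  · have := hT i
    have := hD i u
    positivity
  · have i1 := db_add_pow (hT i) (hD i u) (p - 1)
    have i2 : D i u ^ (p - 1) ≤ d0 ^ (p - 1) := pow_le_pow_left₀ (hD i u) (h1 i u) _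
    have i3 : (2 : ℝ) ^ (p - 1) ≤ 2 ^ p := pow_le_pow_right₀ one_le_two (Nat.sub_le _ _)
    have hTi := pow_nonneg (hT i) (p - 1)
    have hDi := pow_nonneg (hD i u) (p - 1)
    have hDu := hD i u
    calc (p : ℝ) * (T i + D i u) ^ (p - 1) * D i u
        ≤ p * (2 ^ (p - 1) * (T i ^ (p - 1) + D i u ^ (p - 1))) * D i u := by gcongr
      _ ≤ p * (2 ^ p * (T i ^ (p - 1) + d0 ^ (p - 1))) * D i u := by gcongr
      _ = p * 2 ^ p * (T i ^ (p - 1) + d0 ^ (p - 1)) * D i u := by ring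

theorem sum_pow_le {ι : Type} [Fintype ι] {p : ℕ} (hp : 1 ≤ p) (T : ι → ℝ) (hT : ∀ i, 0 ≤ T i)
    {K : ℝ} (hK : 1 ≤ K) (h : ∑ i, T i ^ p ≤ K) :
    ∑ i, T i ^ (p - 1) ≤ (Fintype.card ι : ℝ) ^ (1 / (p : ℝ)) * K := by
  rcases Nat.lt_or_ge 1 p with hp1 | hp1
  · have hp0 : (0 : ℝ) < p := by positivity
    have hp2 : (1 : ℝ) < p := by exact_mod_cast hp1
    have hpq : (p : ℝ).HolderConjugate (p / (p - 1)) := Real.HolderConjugate.conjExponent hp2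
    have h1 := Real.inner_le_Lp_mul_Lq_of_nonneg (s := Finset.univ) (f := fun _ : ι => (1 : ℝ))
      (g := fun i => T i ^ (p - 1)) hpq (fun _ _ => zero_le_one)
      (fun i _ => pow_nonneg (hT i) _)
    simp only [one_mul, Real.one_rpow, Finset.sum_const, nsmul_eq_mul, mul_one,
      Finset.card_univ] at h1
    have h2 : ∀ i, (T i ^ (p - 1)) ^ ((p : ℝ) / (p - 1)) = T i ^ p := by
      intro i
      have h3 : ((p - 1 : ℕ) : ℝ) = (p : ℝ) - 1 := by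
        rw [Nat.cast_sub hp, Nat.cast_one]
      rw [← Real.rpow_natCast, ← Real.rpow_mul (hT i), h3, mul_div_cancel₀ _ (by linarith),
        Real.rpow_natCast]
    simp only [h2] at h1
    refine h1.trans (mul_le_mul_of_nonneg_left ?_ (Real.rpow_nonneg (Nat.cast_nonneg _) _))
    have h3 : 0 ≤ ∑ i, T i ^ p := Finset.sum_nonneg fun i _ => pow_nonneg (hT i) _
    have h4 : 0 ≤ 1 / ((p : ℝ) / (p - 1)) := by
      have : 0 < (p : ℝ) - 1 := by linarith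
      positivity
    calc (∑ i, T i ^ p) ^ (1 / ((p : ℝ) / (p - 1))) ≤ K ^ (1 / ((p : ℝ) / (p - 1))) :=
          Real.rpow_le_rpow h3 h h4
      _ ≤ K ^ (1 : ℝ) := by
          refine Real.rpow_le_rpow_of_exponent_le hK ?_
          rw [one_div_div, div_le_one hp0]
          linarith
      _ = K := Real.rpow_one K
  · have hp2 : p = 1 := le_antisymm hp1 hp
    subst hp2
    simp only [Nat.sub_self, pow_zero, Finset.sum_const, nsmul_eq_mul, mul_one, Finset.card_univ,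
      Nat.cast_one, div_one, Real.rpow_one]
    have := Nat.cast_nonneg (α := ℝ) (Fintype.card ι)
    nlinarith

end Pool.Agent.BK3
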