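import Pool.Agent.BK3.RegC
import Pool.Agent.BK3.DB

/-! BK3 module DFr: bounds of `D1, D2, D3` on the supports of the cutoffs (region data `regc`), `A = GG`:
`|A_wu| ≤ B^(1/4) = lam^(-y-t/4)`.
pointwise: `D1 ≤ 128 R lam |A_wu| B/b4 ≤ C lam^(1-y-2t)` (`db1`); `D2 = 4 R lam |A_xu|²/b2 ≤ C lam^(e-t)` (`B^(1/2)`);
`D3 ≤ C (lam |A_wu| μ + lam² |A_wu|² μ)/b3 ≤ C lam^(1-y-2t)` (`db3`).
local: `∑_u φ_yu D1² ≤ C lam^(2-2t) μ ≤ (lam^(-e/8-2t))²`.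
global: `∑_u D1² ≤ C lam^(2-2t) Gd/η ≤ (lam^(-1))²` (`ward`); `∑_u D2² ≤ 16 R² lam² B/b2² ≤ (lam^(e-t))²`;
`∑_u D3² ≤ C (lam² ∑ |A_wu|² |B_uw|² + lam⁴ B μ²)/b3²`, `∑ |A_wu|²|B_uw|² ≤ B^(1/2) (∑ |B_uw|⁴)^(1/2) ≤
B^(1/2) μ^(3/2)/η` (`db3, db4`): exponent `2 - 2y - 3 - 3e/8 - A + 4 + e/2 - 2t ≥ 98e` (`room`).
The local sums of `D2, D3` are at most the global ones (`φ ≤ 1`). -/

open MeasureTheory Finset Matrix Pool.Agent.BK

noncomputable section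

namespace Pool.Agent.BK3

variable {ν : Measure ℝ} {R s2 : ℝ}

section General

variable {X : Type} [Fintype X]

omit [Fintype X] in
private lemma dfr_ee_nonneg {R lam : ℝ} (hR : 0 ≤ R) (hl : 0 ≤ lam) (A : Matrix X X ℂ) (w y u : X) :
    0 ≤ ee R lam A w y u := by
  unfold ee
  positivity

private lemma dfr_D1_nonneg {R lam b4 : ℝ} (hR : 0 ≤ R) (hl : 0 ≤ lam) (hb : 0 < b4)
    (A : Matrix X X ℂ) (w u : X) : 0 ≤ D1 R lam b4 A w u := by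
  unfold D1
  refine div_nonneg (Finset.sum_nonneg fun y _ => ?_) hb.le
  have := dfr_ee_nonneg hR hl A w y u
  positivity

private lemma dfr_entry {A : Matrix X X ℂ} {a : ℝ} (ha : 0 ≤ a) {w : X} (h : G4 A w ≤ a ^ 4) (u : X) :
    ‖A w u‖ ≤ a := by
  have h1 : ‖A w u‖ ^ 4 ≤ G4 A w := by
    unfold G4
    exact Finset.single_le_sum (f := fun y => ‖A w y‖ ^ 4) (fun y _ => by positivity)
      (Finset.mem_univ u)
  exact le_of_pow_le_pow_left₀ (by norm_num) ha (h1.trans h)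

/-- The `D3` sum. -/
private lemma dfr_d3 {φ : X → X → ℝ} {R lam b3 : ℝ} (_hR : 0 ≤ R) (_hl : 0 ≤ lam) (hb : 0 < b3)
    {A : Matrix X X ℂ} {w y : X} {a μ η : ℝ} (_ha : 0 ≤ a) (hμ : 0 ≤ μ) (hη : 0 < η)
    (h4 : G4 A w ≤ a ^ 4) (hB : ∀ u, ‖Bm φ A y u w‖ ≤ μ)
    (hB2 : ∑ u, ‖Bm φ A y u w‖ ^ 2 ≤ (1 / η) ^ 2 * μ) (hm0 : ∀ u, 0 ≤ lm φ A u y)
    (hm : ∀ u, lm φ A u y ≤ μ) :
    ∑ u, D3 φ R lam b3 A w y u ^ 2 ≤
      (128 * R ^ 2 * lam ^ 2 * (a ^ 2 * (μ * Real.sqrt μ / η)) +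
        512 * R ^ 4 * lam ^ 4 * (a ^ 4 * μ ^ 2)) / b3 ^ 2 := by
  have h1 : ∀ u, D3 φ R lam b3 A w y u ^ 2 ≤
      (128 * R ^ 2 * lam ^ 2 * (‖A w u‖ ^ 2 * ‖Bm φ A y u w‖ ^ 2) +
        512 * R ^ 4 * lam ^ 4 * (‖A w u‖ ^ 4 * μ ^ 2)) / b3 ^ 2 := by
    intro u
    unfold D3
    rw [div_pow]
    refine div_le_div_of_nonneg_right ?_ (by positivity)
    have e1 : lm φ A u y ^ 2 ≤ μ ^ 2 := pow_le_pow_left₀ (hm0 u) (hm u) 2
    have e2 : ∀ p q : ℝ, (p + q) ^ 2 ≤ 2 * p ^ 2 + 2 * q ^ 2 := fun p q => by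
      nlinarith [sq_nonneg (p - q)]
    refine (e2 _ _).trans ?_
    have e3 : 2 * (8 * R * lam * ‖A w u‖ * ‖Bm φ A y u w‖) ^ 2 =
        128 * R ^ 2 * lam ^ 2 * (‖A w u‖ ^ 2 * ‖Bm φ A y u w‖ ^ 2) := by ring
    have e4 : 2 * (16 * R ^ 2 * lam ^ 2 * ‖A w u‖ ^ 2 * lm φ A u y) ^ 2 =
        512 * R ^ 4 * lam ^ 4 * (‖A w u‖ ^ 4 * lm φ A u y ^ 2) := by ring
    rw [e3, e4]
    gcongr
  refine (Finset.sum_le_sum fun u _ => h1 u).trans ?_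
  rw [← Finset.sum_div, Finset.sum_add_distrib, ← Finset.mul_sum, ← Finset.mul_sum]
  refine div_le_div_of_nonneg_right ?_ (by positivity)
  have h2 : ∑ u, ‖A w u‖ ^ 2 * ‖Bm φ A y u w‖ ^ 2 ≤ a ^ 2 * (μ * Real.sqrt μ / η) := by
    have c1 := Finset.sum_mul_sq_le_sq_mul_sq Finset.univ (fun u => ‖A w u‖ ^ 2)
      (fun u => ‖Bm φ A y u w‖ ^ 2)
    have c2 : ∑ u, (‖A w u‖ ^ 2) ^ 2 ≤ a ^ 4 := by
      refine le_trans (le_of_eq ?_) h4
      unfold G4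
      exact Finset.sum_congr rfl fun u _ => by ring
    have c3 : ∑ u, (‖Bm φ A y u w‖ ^ 2) ^ 2 ≤ μ ^ 2 * ((1 / η) ^ 2 * μ) := by
      calc ∑ u, (‖Bm φ A y u w‖ ^ 2) ^ 2 ≤ ∑ u, μ ^ 2 * ‖Bm φ A y u w‖ ^ 2 := by
            refine Finset.sum_le_sum fun u _ => ?_
            have i1 : ‖Bm φ A y u w‖ ^ 2 ≤ μ ^ 2 := pow_le_pow_left₀ (norm_nonneg _) (hB u) 2
            have i2 : 0 ≤ ‖Bm φ A y u w‖ ^ 2 := by positivity
            nlinarith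
        _ = μ ^ 2 * ∑ u, ‖Bm φ A y u w‖ ^ 2 := by rw [Finset.mul_sum]
        _ ≤ _ := by gcongr
    have c4 : (∑ u, ‖A w u‖ ^ 2 * ‖Bm φ A y u w‖ ^ 2) ^ 2 ≤ (a ^ 2 * (μ * Real.sqrt μ / η)) ^ 2 := by
      refine c1.trans ?_
      have c5 : (a ^ 2 * (μ * Real.sqrt μ / η)) ^ 2 = a ^ 4 * (μ ^ 2 * ((1 / η) ^ 2 * μ)) := by
        have : Real.sqrt μ ^ 2 = μ := Real.sq_sqrt hμ
        calc (a ^ 2 * (μ * Real.sqrt μ / η)) ^ 2 = a ^ 4 * (μ ^ 2 * ((1 / η) ^ 2 * Real.sqrt μ ^ 2)) := by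
              ring
          _ = _ := by rw [this]
      rw [c5]
      exact mul_le_mul c2 c3 (Finset.sum_nonneg fun u _ => by positivity) (by positivity)
    have c6 : 0 ≤ a ^ 2 * (μ * Real.sqrt μ / η) := by positivity
    exact le_of_pow_le_pow_left₀ (by norm_num) c6 c4
  have h3 : ∑ u, ‖A w u‖ ^ 4 * μ ^ 2 ≤ a ^ 4 * μ ^ 2 := by
    rw [← Finset.sum_mul]
    exact mul_le_mul_of_nonneg_right h4 (by positivity)
  gcongr

end General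

/-- Everything that is used: region data, the entry bound and numerical facts. -/
private lemma dfr_base (hν : BLaw ν R s2) (c : Cx) (hc : c.Ok) (ℓ : ℕ) :
    ∃ lam1 : ℝ, 0 < lam1 ∧ lam1 ≤ 1 ∧ ∀ π ∈ c.S ν lam1, ∀ V : Tor c.d π.n → ℝ, c.chi ν ℓ π V ≠ 0 →
      0 < π.lam ∧ π.lam ≤ lam1 ∧ π.lam ≤ 1 ∧ 0 < π.z.im ∧ π.lam ^ c.A ≤ π.z.im ∧
      Reg (H0 c.d π.n) π.lam π.z (gb ν c.d π) (ph2 (c.rw π.lam)) (c.B π.lam) (c.bb π.lam)
        (c.mu π.lam) (c.Gd π.lam) V ∧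
      256 * R ^ 4 * π.lam ^ 4 * c.B π.lam ≤ 1 ∧
      (∀ w, G4 (Gv (H0 c.d π.n) π.lam π.z V) w ≤ (π.lam ^ (-c.y - c.t / 4)) ^ 4) ∧
      (∀ w u, ‖Gv (H0 c.d π.n) π.lam π.z V w u‖ ≤ π.lam ^ (-c.y - c.t / 4)) := by
  obtain ⟨la, ha0, ha1, ha⟩ := regc hν c hc ℓ
  have hy := y_lt c hc
  have he := hc.e0
  have ht : c.t = c.e / 1000 := rfl
  have hyy : c.y = c.y0 + c.e := rfl
  obtain ⟨lb, hb0, hb1, hb⟩ := sm_one (256 * R ^ 4) (show 0 < 4 - 4 * c.y - c.t by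
    rw [hyy, ht]; linarith)
  refine ⟨min la lb, lt_min ha0 hb0, (min_le_left _ _).trans ha1, fun π hπ V hV => ?_⟩
  have hl : 0 < π.lam := hπ.1.1
  have hle : π.lam ≤ min la lb := hπ.1.2.1
  have hl1 : π.lam ≤ 1 := hle.trans ((min_le_left _ _).trans ha1)
  have hη : π.lam ^ c.A ≤ π.z.im := hπ.1.2.2.2.2.2.2.1
  have reg := ha π (c.S_mono ν (min_le_left _ _) hπ) V hV
  have h4 : ∀ w, G4 (Gv (H0 c.d π.n) π.lam π.z V) w ≤ (π.lam ^ (-c.y - c.t / 4)) ^ 4 := by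
    intro w
    refine (reg.g4 w).trans (le_of_eq ?_)
    unfold Cx.B
    rw [rp_pow hl]
    congr 1
    push_cast
    ring
  refine ⟨hl, hle, hl1, lt_of_lt_of_le (rp_pos hl _) hη, hη, reg, ?_, h4, fun w u =>
    dfr_entry (rp_pos hl _).le (h4 w) u⟩
  have h1 := hb π.lam hl (hle.trans (min_le_right _ _))
  refine le_trans (le_of_eq ?_) h1
  unfold Cx.B
  rw [mul_assoc, ← Real.rpow_natCast π.lam 4, ← Real.rpow_add hl]
  congr 2
  push_cast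
  ring

theorem dfr1 (hν : BLaw ν R s2) (c : Cx) (hc : c.Ok) (ℓ : ℕ) :
    ∃ lam1 : ℝ, 0 < lam1 ∧ lam1 ≤ 1 ∧ ∀ π ∈ c.S ν lam1, ∀ V : Tor c.d π.n → ℝ, c.chi ν ℓ π V ≠ 0 →
      (∀ w u, D1 R π.lam (c.b4 π.lam) (GG c.d π.n π.lam π.z V) w u ≤ π.lam ^ (c.e / 2)) ∧
      (∀ w y, ∑ u, ph2 (c.rw π.lam) y u *
        D1 R π.lam (c.b4 π.lam) (GG c.d π.n π.lam π.z V) w u ^ 2 ≤
          (π.lam ^ (-(c.e / 8) - 2 * c.t)) ^ 2) ∧
      (∀ w, ∑ u, D1 R π.lam (c.b4 π.lam) (GG c.d π.n π.lam π.z V) w u ^ 2 ≤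
        (π.lam ^ (-1 : ℝ)) ^ 2) := by
  obtain ⟨la, ha0, ha1, ha⟩ := dfr_base hν c hc ℓ
  have hy := y_lt c hc
  have he := hc.e0
  have hA3 := hc.A3
  have hy0 := hc.y0
  have ht : c.t = c.e / 1000 := rfl
  have hyy : c.y = c.y0 + c.e := rfl
  obtain ⟨lb, hb0, hb1, hb⟩ := sm_le (128 * R) (show c.e / 2 < 1 - c.y - 5 * c.t / 4 by
    rw [hyy, ht]; linarith)
  obtain ⟨lc, hc0, hc1, hcc⟩ := sm_le ((128 * R) ^ 2) (show -(c.e / 4) - 4 * c.t < -(c.e / 4) - 3 * c.t by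
    rw [ht]; linarith)
  obtain ⟨ld, hd0, hd1, hd⟩ := sm_le ((128 * R) ^ 2) (show -2 < 2 - 5 * c.t - c.A by
    rw [ht]; linarith)
  refine ⟨min la (min lb (min lc ld)), lt_min ha0 (lt_min hb0 (lt_min hc0 hd0)),
    (min_le_left _ _).trans ha1, fun π hπ V hV => ?_⟩
  obtain ⟨hl, -, hl1, hη0, hη, reg, h256, h4, hent⟩ := ha π (c.S_mono ν (min_le_left _ _) hπ) V hV
  have hle : π.lam ≤ min lb (min lc ld) := hπ.1.2.1.trans (min_le_right _ _)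
  have k1 := hb π.lam hl (hle.trans (min_le_left _ _))
  have k2 := hcc π.lam hl (hle.trans ((min_le_right _ _).trans (min_le_left _ _)))
  have k3 := hd π.lam hl (hle.trans ((min_le_right _ _).trans (min_le_right _ _)))
  have hR := hν.R_ge
  have hR0 : 0 ≤ R := by linarith
  have hG : GG c.d π.n π.lam π.z V = Gv (H0 c.d π.n) π.lam π.z V := rfl
  rw [hG]
  have hw := ward (RS_H0 c.d π.n) (fun x => π.lam * V x) hη0
  have hgd := reg.gd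
  have hms := reg.ms
  have hsym : ∀ x y, Gv (H0 c.d π.n) π.lam π.z V x y = Gv (H0 c.d π.n) π.lam π.z V y x :=
    fun x y => Gv_symm (RS_H0 c.d π.n) hη0.ne' V x y
  have hd1' := fun w u => db1 hsym hR hl.le (rp_pos hl _).le (rp_pos hl (-(4 * c.y))) reg.g4 h256 w u
  have hD0 := fun w u => dfr_D1_nonneg hR0 hl.le (rp_pos hl (-(4 * c.y)))
    (Gv (H0 c.d π.n) π.lam π.z V) w u
  have hph := wgt_ph2 (d := c.d) (n := π.n) (r := c.rw π.lam) (rp_pos hl _)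
  have hww : ∀ w, ∑ u, ‖Gv (H0 c.d π.n) π.lam π.z V w u‖ ^ 2 =
      (Gv (H0 c.d π.n) π.lam π.z V w w).im / π.z.im := fun w => hw w
  set A := Gv (H0 c.d π.n) π.lam π.z V with hAdef
  set l := π.lam with hldef
  have hB : l ^ (-(4 * c.y) - c.t) / l ^ (-(4 * c.y)) = l ^ (-c.t) := by
    rw [← Real.rpow_sub hl]
    congr 1
    ring
  have hb4 : c.b4 l = l ^ (-(4 * c.y)) := rfl
  rw [hb4]
  have hd2 : ∀ w u, D1 R l (l ^ (-(4 * c.y))) A w u ≤ 128 * R * l ^ (1 - c.t) * ‖A w u‖ := by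
    intro w u
    refine (hd1' w u).trans (le_of_eq ?_)
    rw [hB, Real.rpow_sub hl, Real.rpow_one, Real.rpow_neg hl.le, div_eq_mul_inv]
    ring
  have hsq : ∀ w u, D1 R l (l ^ (-(4 * c.y))) A w u ^ 2 ≤
      (128 * R) ^ 2 * l ^ (2 - 2 * c.t) * ‖A w u‖ ^ 2 := by
    intro w u
    refine (pow_le_pow_left₀ (hD0 w u) (hd2 w u) 2).trans (le_of_eq ?_)
    rw [mul_pow, mul_pow, rp_pow hl]
    congr 3
    push_cast
    ring
  refine ⟨fun w u => ?_, fun w y => ?_, fun w => ?_⟩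
  · refine (hd2 w u).trans ?_
    have h1 : 0 ≤ 128 * R * l ^ (1 - c.t) := mul_nonneg (by positivity) (rp_pos hl _).le
    refine (mul_le_mul_of_nonneg_left (hent w u) h1).trans ?_
    refine le_trans (le_of_eq ?_) k1
    rw [mul_assoc, ← Real.rpow_add hl]
    congr 2
    ring
  · have h1 : ∑ u, ph2 (c.rw l) y u * D1 R l (l ^ (-(4 * c.y))) A w u ^ 2 ≤
        (128 * R) ^ 2 * l ^ (2 - 2 * c.t) * lm (ph2 (c.rw l)) A w y := by
      unfold lm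
      rw [Finset.mul_sum]
      refine Finset.sum_le_sum fun u _ => ?_
      refine (mul_le_mul_of_nonneg_left (hsq w u) (hph.pos y u).le).trans (le_of_eq (by ring))
    refine h1.trans ?_
    have h2 : 0 ≤ (128 * R) ^ 2 * l ^ (2 - 2 * c.t) := mul_nonneg (by positivity) (rp_pos hl _).le
    refine (mul_le_mul_of_nonneg_left (hms w y) h2).trans ?_
    unfold Cx.mu
    rw [mul_assoc, ← Real.rpow_add hl, rp_pow hl]
    have e1 : (2 - 2 * c.t + (-2 - c.e / 4 - c.t)) = -(c.e / 4) - 3 * c.t := by ring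
    have e2 : (((2 : ℕ) : ℝ) * (-(c.e / 8) - 2 * c.t)) = -(c.e / 4) - 4 * c.t := by
      push_cast
      ring
    rw [e1, e2]
    exact k2
  · have h1 : ∑ u, D1 R l (l ^ (-(4 * c.y))) A w u ^ 2 ≤
        (128 * R) ^ 2 * l ^ (2 - 2 * c.t) * ∑ u, ‖A w u‖ ^ 2 := by
      rw [Finset.mul_sum]
      exact Finset.sum_le_sum fun u _ => hsq w u
    refine h1.trans ?_
    have h2 : ∑ u, ‖A w u‖ ^ 2 ≤ l ^ (-(3 * c.t) - c.A) := by
      rw [hww w, Real.rpow_sub hl]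
      have h3 : (A w w).im ≤ l ^ (-(3 * c.t)) := (Complex.im_le_norm _).trans (hgd w)
      exact div_le_div₀ (rp_pos hl _).le h3 (rp_pos hl _) hη
    have h3 : 0 ≤ (128 * R) ^ 2 * l ^ (2 - 2 * c.t) := mul_nonneg (by positivity) (rp_pos hl _).le
    refine (mul_le_mul_of_nonneg_left h2 h3).trans ?_
    rw [mul_assoc, ← Real.rpow_add hl, rp_pow hl]
    have e1 : (2 - 2 * c.t + (-(3 * c.t) - c.A)) = 2 - 5 * c.t - c.A := by ring
    have e2 : (((2 : ℕ) : ℝ) * (-1 : ℝ)) = -2 := by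
      push_cast
      ring
    rw [e1, e2]
    exact k3

theorem dfr2 (hν : BLaw ν R s2) (c : Cx) (hc : c.Ok) (ℓ : ℕ) :
    ∃ lam1 : ℝ, 0 < lam1 ∧ lam1 ≤ 1 ∧ ∀ π ∈ c.S ν lam1, ∀ V : Tor c.d π.n → ℝ, c.chi ν ℓ π V ≠ 0 →
      (∀ x u, D2 R π.lam (c.b2 π.lam) (GG c.d π.n π.lam π.z V) x u ≤ π.lam ^ (c.e / 2)) ∧
      (∀ x, ∑ u, D2 R π.lam (c.b2 π.lam) (GG c.d π.n π.lam π.z V) x u ^ 2 ≤
        (π.lam ^ (c.e - c.t)) ^ 2) := by
  obtain ⟨la, ha0, ha1, ha⟩ := dfr_base hν c hc ℓ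
  have he := hc.e0
  have ht : c.t = c.e / 1000 := rfl
  obtain ⟨lb, hb0, hb1, hb⟩ := sm_le (4 * R) (show c.e / 2 < c.e - c.t / 2 by
    rw [ht]; linarith)
  obtain ⟨lc, hc0, hc1, hcc⟩ := sm_le (16 * R ^ 2) (show 2 * c.e - 2 * c.t < 2 * c.e - c.t by
    rw [ht]; linarith)
  refine ⟨min la (min lb lc), lt_min ha0 (lt_min hb0 hc0),
    (min_le_left _ _).trans ha1, fun π hπ V hV => ?_⟩
  obtain ⟨hl, -, hl1, hη0, hη, reg, h256, h4, hent⟩ := ha π (c.S_mono ν (min_le_left _ _) hπ) V hV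
  have hle : π.lam ≤ min lb lc := hπ.1.2.1.trans (min_le_right _ _)
  have k1 := hb π.lam hl (hle.trans (min_le_left _ _))
  have k2 := hcc π.lam hl (hle.trans (min_le_right _ _))
  have hR := hν.R_ge
  have hR0 : 0 ≤ R := by linarith
  have hG : GG c.d π.n π.lam π.z V = Gv (H0 c.d π.n) π.lam π.z V := rfl
  rw [hG]
  have hsym : ∀ x y, Gv (H0 c.d π.n) π.lam π.z V x y = Gv (H0 c.d π.n) π.lam π.z V y x :=
    fun x y => Gv_symm (RS_H0 c.d π.n) hη0.ne' V x y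
  set A := Gv (H0 c.d π.n) π.lam π.z V with hAdef
  set l := π.lam with hldef
  have hD : ∀ x u, D2 R l (c.b2 l) A x u = 4 * R * l ^ (2 * c.y + c.e) * ‖A x u‖ ^ 2 := by
    intro x u
    unfold D2 ee Cx.b2
    rw [hsym u x]
    have e1 : l ^ (2 * c.y + c.e) = l / l ^ (1 - 2 * c.y - c.e) := by
      rw [show 2 * c.y + c.e = 1 - (1 - 2 * c.y - c.e) by ring, Real.rpow_sub hl, Real.rpow_one]
    rw [e1]
    ring
  refine ⟨fun x u => ?_, fun x => ?_⟩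
  · rw [hD]
    have h1 : ‖A x u‖ ^ 2 ≤ (l ^ (-c.y - c.t / 4)) ^ 2 :=
      pow_le_pow_left₀ (norm_nonneg _) (hent x u) 2
    have h2 : 0 ≤ 4 * R * l ^ (2 * c.y + c.e) := mul_nonneg (by positivity) (rp_pos hl _).le
    refine (mul_le_mul_of_nonneg_left h1 h2).trans ?_
    refine le_trans (le_of_eq ?_) k1
    rw [rp_pow hl, mul_assoc, ← Real.rpow_add hl]
    congr 2
    push_cast
    ring
  · have h1 : ∑ u, D2 R l (c.b2 l) A x u ^ 2 = 16 * R ^ 2 * l ^ (4 * c.y + 2 * c.e) * G4 A x := by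
      unfold G4
      rw [Finset.mul_sum]
      refine Finset.sum_congr rfl fun u _ => ?_
      rw [hD, mul_pow, mul_pow, rp_pow hl]
      have e1 : (((2 : ℕ) : ℝ) * (2 * c.y + c.e)) = 4 * c.y + 2 * c.e := by
        push_cast
        ring
      rw [e1]
      ring
    rw [h1]
    have h2 : 0 ≤ 16 * R ^ 2 * l ^ (4 * c.y + 2 * c.e) := mul_nonneg (by positivity) (rp_pos hl _).le
    refine (mul_le_mul_of_nonneg_left (h4 x) h2).trans ?_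
    rw [rp_pow hl, mul_assoc, ← Real.rpow_add hl, rp_pow hl]
    have e1 : (4 * c.y + 2 * c.e + ((4 : ℕ) : ℝ) * (-c.y - c.t / 4)) = 2 * c.e - c.t := by
      push_cast
      ring
    have e2 : (((2 : ℕ) : ℝ) * (c.e - c.t)) = 2 * c.e - 2 * c.t := by
      push_cast
      ring
    rw [e1, e2]
    exact k2

theorem dfr3 (hν : BLaw ν R s2) (c : Cx) (hc : c.Ok) (ℓ : ℕ) :
    ∃ lam1 : ℝ, 0 < lam1 ∧ lam1 ≤ 1 ∧ ∀ π ∈ c.S ν lam1, ∀ V : Tor c.d π.n → ℝ, c.chi ν ℓ π V ≠ 0 →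
      (∀ w y u, D3 (ph2 (c.rw π.lam)) R π.lam (c.b3 π.lam) (GG c.d π.n π.lam π.z V) w y u ≤
        π.lam ^ (c.e / 2)) ∧
      (∀ w y, ∑ u, D3 (ph2 (c.rw π.lam)) R π.lam (c.b3 π.lam) (GG c.d π.n π.lam π.z V) w y u ^ 2 ≤
        (π.lam ^ (49 * c.e)) ^ 2) := by
  obtain ⟨la, ha0, ha1, ha⟩ := dfr_base hν c hc ℓ
  have hy := y_lt c hc
  have he := hc.e0
  have hA3 := hc.A3
  have hA2 := hc.A2
  have hy0 := hc.y0
  have hroom := hc.room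
  have ht : c.t = c.e / 1000 := rfl
  have hyy : c.y = c.y0 + c.e := rfl
  obtain ⟨lb, hb0, hb1, hb⟩ := sm_le (2 * (8 * R)) (show c.e / 2 < 1 - c.y - 5 * c.t / 4 by
    rw [hyy, ht]; linarith)
  obtain ⟨lc, hc0, hc1, hcc⟩ := sm_le (2 * (16 * R ^ 2)) (show c.e / 2 < 2 - 2 * c.y - 3 * c.t / 2 by
    rw [hyy, ht]; linarith)
  obtain ⟨ld, hd0, hd1, hd⟩ := sm_le (2 * (128 * R ^ 2))
    (show 98 * c.e < 3 - 2 * c.y - c.A + c.e / 8 - 2 * c.t by rw [hyy, ht]; linarith)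
  obtain ⟨le, he0, he1, hee⟩ := sm_le (2 * (512 * R ^ 4))
    (show 98 * c.e < 4 - 4 * c.y - 3 * c.t by rw [hyy, ht]; linarith)
  refine ⟨min la (min lb (min lc (min ld le))), lt_min ha0 (lt_min hb0 (lt_min hc0 (lt_min hd0 he0))),
    (min_le_left _ _).trans ha1, fun π hπ V hV => ?_⟩
  obtain ⟨hl, -, hl1, hη0, hη, reg, h256, h4, hent⟩ := ha π (c.S_mono ν (min_le_left _ _) hπ) V hV
  have hle : π.lam ≤ min lb (min lc (min ld le)) := hπ.1.2.1.trans (min_le_right _ _)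
  have k1 := hb π.lam hl (hle.trans (min_le_left _ _))
  have k2 := hcc π.lam hl (hle.trans ((min_le_right _ _).trans (min_le_left _ _)))
  have k3 := hd π.lam hl (hle.trans ((min_le_right _ _).trans ((min_le_right _ _).trans
    (min_le_left _ _))))
  have k4 := hee π.lam hl (hle.trans ((min_le_right _ _).trans ((min_le_right _ _).trans
    (min_le_right _ _))))
  have hR := hν.R_ge
  have hR0 : 0 ≤ R := by linarith
  have hG : GG c.d π.n π.lam π.z V = Gv (H0 c.d π.n) π.lam π.z V := rfl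
  rw [hG]
  have hms := reg.ms
  have hph := wgt_ph2 (d := c.d) (n := π.n) (r := c.rw π.lam) (rp_pos hl _)
  have hμ0 : 0 ≤ c.mu π.lam := (rp_pos hl _).le
  have hB1 : ∀ w y u, ‖Bm (ph2 (c.rw π.lam)) (Gv (H0 c.d π.n) π.lam π.z V) y u w‖ ≤ c.mu π.lam :=
    fun w y u => db3 hph hμ0 y u w (hms u y) (hms w y)
  have hB2 : ∀ w y, ∑ u, ‖Bm (ph2 (c.rw π.lam)) (Gv (H0 c.d π.n) π.lam π.z V) y u w‖ ^ 2 ≤
      (1 / π.z.im) ^ 2 * c.mu π.lam := fun w y =>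
    (db4 (RS_H0 c.d π.n) hη0 hph V y w).trans (mul_le_mul_of_nonneg_left (hms w y) (by positivity))
  have hm0 : ∀ u y, 0 ≤ lm (ph2 (c.rw π.lam)) (Gv (H0 c.d π.n) π.lam π.z V) u y := by
    intro u y
    unfold lm
    refine Finset.sum_nonneg fun x _ => ?_
    have := (hph.pos y x).le
    positivity
  have hb3 : 0 < c.b3 π.lam := rp_pos hl _
  have hd3 := fun w y => dfr_d3 hR0 hl.le hb3 (rp_pos hl (-c.y - c.t / 4)).le hμ0 hη0 (h4 w)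
    (hB1 w y) (hB2 w y) (fun u => hm0 u y) (fun u => hms u y)
  set A := Gv (H0 c.d π.n) π.lam π.z V with hAdef
  set l := π.lam with hldef
  set η := π.z.im
  have hμb : c.mu l / c.b3 l = l ^ (-c.t) := by
    unfold Cx.mu Cx.b3
    rw [← Real.rpow_sub hl]
    congr 1
    ring
  refine ⟨fun w y u => ?_, fun w y => ?_⟩
  · unfold D3
    have h1 : 8 * R * l * ‖A w u‖ * ‖Bm (ph2 (c.rw l)) A y u w‖ +
        16 * R ^ 2 * l ^ 2 * ‖A w u‖ ^ 2 * lm (ph2 (c.rw l)) A u y ≤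
        8 * R * l * l ^ (-c.y - c.t / 4) * c.mu l +
          16 * R ^ 2 * l ^ 2 * (l ^ (-c.y - c.t / 4)) ^ 2 * c.mu l := by
      have i1 := hent w u
      have i2 := hB1 w y u
      have i3 := hms u y
      have i4 := hm0 u y
      have i5 := norm_nonneg (A w u)
      have i6 := (rp_pos hl (-c.y - c.t / 4)).le
      gcongr
    refine (div_le_div_of_nonneg_right h1 hb3.le).trans ?_
    have h2 : (8 * R * l * l ^ (-c.y - c.t / 4) * c.mu l +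
          16 * R ^ 2 * l ^ 2 * (l ^ (-c.y - c.t / 4)) ^ 2 * c.mu l) / c.b3 l =
        8 * R * l ^ (1 - c.y - 5 * c.t / 4) + 16 * R ^ 2 * l ^ (2 - 2 * c.y - 3 * c.t / 2) := by
      have j1 : l ^ (1 - c.y - 5 * c.t / 4) = l * l ^ (-c.y - c.t / 4) * l ^ (-c.t) := by
        rw [mul_assoc, ← Real.rpow_add hl, show (1 - c.y - 5 * c.t / 4) =
          1 + (-c.y - c.t / 4 + -c.t) by ring, Real.rpow_add hl, Real.rpow_one]
      have j2 : l ^ (2 - 2 * c.y - 3 * c.t / 2) =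
          l ^ 2 * (l ^ (-c.y - c.t / 4)) ^ 2 * l ^ (-c.t) := by
        rw [rp_pow hl, ← Real.rpow_natCast l 2, ← Real.rpow_add hl, ← Real.rpow_add hl]
        congr 1
        push_cast
        ring
      rw [j1, j2, ← hμb]
      ring
    rw [h2]
    linarith
  · refine (hd3 w y).trans ?_
    have s1 : Real.sqrt (c.mu l) = l ^ (-1 - c.e / 8 - c.t / 2) := by
      rw [Real.sqrt_eq_rpow]
      unfold Cx.mu
      rw [← Real.rpow_mul hl.le]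
      congr 1
      ring
    have s2' : 1 / η ≤ l ^ (-c.A) := by
      rw [Real.rpow_neg hl.le, ← one_div]
      exact one_div_le_one_div_of_le (rp_pos hl _) hη
    have s3 : (l ^ (-c.y - c.t / 4)) ^ 2 = l ^ (-(2 * c.y) - c.t / 2) := by
      rw [rp_pow hl]
      congr 1
      push_cast
      ring
    have s4 : (l ^ (-c.y - c.t / 4)) ^ 4 = l ^ (-(4 * c.y) - c.t) := by
      rw [rp_pow hl]
      congr 1
      push_cast
      ring
    have s5 : c.b3 l ^ 2 = l ^ (-4 - c.e / 2) := by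
      unfold Cx.b3
      rw [rp_pow hl]
      congr 1
      push_cast
      ring
    have s6 : c.mu l ^ 2 = l ^ (-4 - c.e / 2 - 2 * c.t) := by
      unfold Cx.mu
      rw [rp_pow hl]
      congr 1
      push_cast
      ring
    have t1 : 128 * R ^ 2 * l ^ 2 * ((l ^ (-c.y - c.t / 4)) ^ 2 * (c.mu l * Real.sqrt (c.mu l) / η)) /
        c.b3 l ^ 2 ≤ 128 * R ^ 2 * l ^ (3 - 2 * c.y - c.A + c.e / 8 - 2 * c.t) := by
      have u1 : 128 * R ^ 2 * l ^ 2 * ((l ^ (-c.y - c.t / 4)) ^ 2 *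
          (c.mu l * Real.sqrt (c.mu l) / η)) / c.b3 l ^ 2 =
          128 * R ^ 2 * (l ^ 2 * (l ^ (-c.y - c.t / 4)) ^ 2 * c.mu l * Real.sqrt (c.mu l) /
            c.b3 l ^ 2) * (1 / η) := by ring
      rw [u1]
      have u2 : l ^ 2 * (l ^ (-c.y - c.t / 4)) ^ 2 * c.mu l * Real.sqrt (c.mu l) / c.b3 l ^ 2 =
          l ^ (3 - 2 * c.y + c.e / 8 - 2 * c.t) := by
        rw [s1, s3, s5]
        unfold Cx.mu
        rw [← Real.rpow_natCast l 2, ← Real.rpow_add hl, ← Real.rpow_add hl, ← Real.rpow_add hl,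
          ← Real.rpow_sub hl]
        congr 1
        push_cast
        ring
      rw [u2]
      have u3 : 0 ≤ 128 * R ^ 2 * l ^ (3 - 2 * c.y + c.e / 8 - 2 * c.t) :=
        mul_nonneg (by positivity) (rp_pos hl _).le
      refine (mul_le_mul_of_nonneg_left s2' u3).trans (le_of_eq ?_)
      rw [mul_assoc, ← Real.rpow_add hl]
      congr 2
      ring
    have t2 : 512 * R ^ 4 * l ^ 4 * ((l ^ (-c.y - c.t / 4)) ^ 4 * c.mu l ^ 2) / c.b3 l ^ 2 =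
        512 * R ^ 4 * l ^ (4 - 4 * c.y - 3 * c.t) := by
      rw [s4, s5, s6]
      have u1 : l ^ (4 - 4 * c.y - 3 * c.t) =
          l ^ 4 * (l ^ (-(4 * c.y) - c.t) * l ^ (-4 - c.e / 2 - 2 * c.t)) / l ^ (-4 - c.e / 2) := by
        rw [← Real.rpow_natCast l 4, ← Real.rpow_add hl, ← Real.rpow_add hl, ← Real.rpow_sub hl]
        congr 1
        push_cast
        ring
      rw [u1]
      ring
    have e2 : (l ^ (49 * c.e)) ^ 2 = l ^ (98 * c.e) := by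
      rw [rp_pow hl]
      congr 1
      push_cast
      ring
    rw [add_div, t2, e2]
    linarith

end Pool.Agent.BK3
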