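import Pool.Agent.BK.WDefs
import Pool.Agent.BK.CDefs

/-! BK3: definitions. General centred laws with compact support, the functional `F` and its cutoffs,
the set of good parameters and the `DomF` calculus. -/

open MeasureTheory Finset Matrix Pool.Agent.BK

noncomputable section

namespace Pool.Agent.BK3

/-- Centred single-site laws supported in `[-R, R]`, `R ≥ 1`, with variance `s2 > 0`. -/
structure BLaw (ν : Measure ℝ) (R s2 : ℝ) : Prop where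
  prob : IsProbabilityMeasure ν
  R_ge : 1 ≤ R
  supp : ν (Set.Icc (-R) R)ᶜ = 0
  mean : ∫ v, v ∂ν = 0
  var : ∫ v, v ^ 2 ∂ν = s2
  s2_pos : 0 < s2

/-- Potentials with values in `[-R, R]`. -/
def Box (X : Type) (R : ℝ) : Set (X → ℝ) := {V | ∀ x, V x ∈ Set.Icc (-R) R}

section General

variable {X : Type} [Fintype X] [DecidableEq X]

/-- The Green function `(H + lam V - z)⁻¹`. -/
def Gv (H : Matrix X X ℂ) (lam : ℝ) (z : ℂ) (V : X → ℝ) : Matrix X X ℂ :=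
  Gr H (fun x => lam * V x) z

/-- The error factor of the exchange identity at the site `x`:
`∫ (lam² V_x (V_x - t) (G^t_xx - g) - lam³ g (V_x² - s2) (V_x - t) G^t_xx) dν(t)`, where `G^t` is the
Green function with `V_x` replaced by `t`. -/
def kx (ν : Measure ℝ) (s2 : ℝ) (H : Matrix X X ℂ) (lam : ℝ) (z g : ℂ) (x : X) (V : X → ℝ) : ℂ :=
  ∫ t, ((((lam ^ 2 * V x * (V x - t) : ℝ) : ℂ) * (Gv H lam z (Function.update V x t) x x - g)) -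
    ((lam ^ 3 * (V x ^ 2 - s2) * (V x - t) : ℝ) : ℂ) * g * Gv H lam z (Function.update V x t) x x) ∂ν

/-- `∑_y |A_wy|⁴`. -/
def G4 (A : Matrix X X ℂ) (w : X) : ℝ := ∑ y, ‖A w y‖ ^ 4

/-- Local mass `∑_x φ_yx |A_wx|²`. -/
def lm (φ : X → X → ℝ) (A : Matrix X X ℂ) (w y : X) : ℝ := ∑ x, φ y x * ‖A w x‖ ^ 2

/-- `B_uw = ∑_x A_ux φ_yx conj(A_wx)`. -/
def Bm (φ : X → X → ℝ) (A : Matrix X X ℂ) (y u w : X) : ℂ :=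
  ∑ x, A u x * (φ y x : ℂ) * starRingEnd ℂ (A w x)

/-- Region data: the Green function at `V` is under control. -/
structure Reg (H : Matrix X X ℂ) (lam : ℝ) (z g : ℂ) (φ : X → X → ℝ) (B b2 μ Gd : ℝ)
    (V : X → ℝ) : Prop where
  g4 : ∀ x, G4 (Gv H lam z V) x ≤ B
  dg : ∀ x, ‖Gv H lam z V x x - g‖ ≤ b2
  gd : ∀ x, ‖Gv H lam z V x x‖ ≤ Gd
  ms : ∀ w y, lm φ (Gv H lam z V) w y ≤ μ

/-- A pair of cutoffs `χ ≤ χ'`: if a potential is changed at one site, then `χ` of the new potential is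
at most `χ'` of the old one, and the change of `χ` is at most `χ' Dχ_x`. -/
structure CutP (R : ℝ) (χ χ' : (X → ℝ) → ℝ) (Dχ : X → (X → ℝ) → ℝ) : Prop where
  c1 : Continuous χ
  c2 : Continuous χ'
  c3 : ∀ x, Continuous (Dχ x)
  n0 : ∀ V, 0 ≤ χ V ∧ χ V ≤ 1
  n0' : ∀ V, 0 ≤ χ' V ∧ χ' V ≤ 1
  d0 : ∀ x V, 0 ≤ Dχ x V
  n1 : ∀ V ∈ Box X R, ∀ x, ∀ t ∈ Set.Icc (-R) R, χ (Function.update V x t) ≤ χ' V
  n2 : ∀ V ∈ Box X R, ∀ x, ∀ t ∈ Set.Icc (-R) R,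
    |χ V - χ (Function.update V x t)| ≤ χ' V * Dχ x V

/-- Weights: symmetric, with values in `(0, 1]`. -/
structure Wgt (φ : X → X → ℝ) : Prop where
  pos : ∀ x y, 0 < φ x y
  le : ∀ x y, φ x y ≤ 1
  symm : ∀ x y, φ x y = φ y x

/-- `P_y = W^P Z_y conj(Z_y)²`. -/
def Pz (H M : Matrix X X ℂ) (lam : ℝ) (z : ℂ) (w : X) (P : ℕ) (V : X → ℝ) (y : X) : ℂ :=
  (Wv H M lam z w V : ℂ) ^ P * (Zv H M lam z w V y * starRingEnd ℂ (Zv H M lam z w V y) ^ 2)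

/-! ### The functional -/

/-- `F = ∑_w (G4_w/b4)^p + ∑_x (|A_xx - g|/b2)^p + ∑_{w,y} (lm_{w,y}/b3)^p`. -/
def FFg (φ : X → X → ℝ) (b4 b2 b3 : ℝ) (g : ℂ) (p : ℕ) (A : Matrix X X ℂ) : ℝ :=
  ∑ w, (G4 A w / b4) ^ p + ∑ x, (‖A x x - g‖ / b2) ^ p + ∑ w, ∑ y, (lm φ A w y / b3) ^ p

/-- `e_wyu = 4 R lam |A_wu| |A_uy|`, the bound of the change of `A_wy`. -/
def ee (R lam : ℝ) (A : Matrix X X ℂ) (w y u : X) : ℝ := 4 * R * lam * ‖A w u‖ * ‖A u y‖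

/-- Bound of the change of `G4_w/b4`. -/
def D1 (R lam b4 : ℝ) (A : Matrix X X ℂ) (w u : X) : ℝ :=
  (∑ y, 4 * (‖A w y‖ + ee R lam A w y u) ^ 3 * ee R lam A w y u) / b4

/-- Bound of the change of `|A_xx - g|/b2`. -/
def D2 (R lam b2 : ℝ) (A : Matrix X X ℂ) (x u : X) : ℝ := ee R lam A x x u / b2

/-- Bound of the change of `lm_{w,y}/b3`. -/
def D3 (φ : X → X → ℝ) (R lam b3 : ℝ) (A : Matrix X X ℂ) (w y u : X) : ℝ :=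
  (8 * R * lam * ‖A w u‖ * ‖Bm φ A y u w‖ + 16 * R ^ 2 * lam ^ 2 * ‖A w u‖ ^ 2 * lm φ A u y) / b3

/-- Bound of the change of `F` at the site `u`. -/
def DF (φ : X → X → ℝ) (R lam b4 b2 b3 : ℝ) (g : ℂ) (p : ℕ) (A : Matrix X X ℂ) (u : X) : ℝ :=
  ∑ w, p * (G4 A w / b4 + D1 R lam b4 A w u) ^ (p - 1) * D1 R lam b4 A w u +
  ∑ x, p * (‖A x x - g‖ / b2 + D2 R lam b2 A x u) ^ (p - 1) * D2 R lam b2 A x u +
  ∑ w, ∑ y, p * (lm φ A w y / b3 + D3 φ R lam b3 A w y u) ^ (p - 1) * D3 φ R lam b3 A w y u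

end General

/-- The cutoff function: `1` on `(-∞, 2]`, `0` on `[3, ∞)`. -/
def thc (s : ℝ) : ℝ := max 0 (min 1 (3 - s))

/-- The weight `exp(-|x|₁/r)` on the torus. -/
def phi {d n : ℕ} (r : ℝ) (x : Tor d n) : ℝ := Real.exp (-(∑ l, |((x l).valMinAbs : ℝ)|) / r)

/-- The weight matrix. -/
def ph2 {d n : ℕ} (r : ℝ) (y x : Tor d n) : ℝ := phi r (x - y)

/-- The free bounds in the window `[lo, hi]`, with exponent `q` (proved for `q = 3` and `q = 4`). -/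
structure FreeC (d : ℕ) (q κ lo hi : ℝ) : Prop where
  kap : 0 < κ
  kap1 : κ ≤ 1
  wq : ∀ ε ς : ℝ, 0 < ε → 0 < ς → ∃ C : ℝ, 0 < C ∧ ∀ (ζ : ℂ) (n : ℕ) (r : ℝ), lo ≤ ζ.re → ζ.re ≤ hi →
    0 < ζ.im → ζ.im ≤ κ → ζ.im ^ (-(10 : ℝ)) ≤ 2 * n + 1 → ζ.im ^ (-(1 + ς)) ≤ r →
    16 * d ≤ r * ζ.im → ∀ y, ∑ x, (‖Gr (H0 d n) 0 ζ y x‖ / ph2 r y x) ^ q ≤ C * ζ.im ^ (-ε)
  w2 : ∀ ε ς : ℝ, 0 < ε → 0 < ς → ∃ C : ℝ, 0 < C ∧ ∀ (ζ : ℂ) (n : ℕ) (r : ℝ), lo ≤ ζ.re → ζ.re ≤ hi →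
    0 < ζ.im → ζ.im ≤ κ → ζ.im ^ (-(10 : ℝ)) ≤ 2 * n + 1 → ζ.im ^ (-(1 + ς)) ≤ r →
    16 * d ≤ r * ζ.im → ∀ y, ∑ x, (‖Gr (H0 d n) 0 ζ y x‖ / ph2 r y x) ^ 2 ≤ C * ζ.im ^ (-1 - ε)
  l4 : ∀ ε : ℝ, 0 < ε → ∃ C : ℝ, 0 < C ∧ ∀ (ζ : ℂ) (n : ℕ), lo ≤ ζ.re → ζ.re ≤ hi →
    0 < ζ.im → ζ.im ≤ κ → ζ.im ^ (-(10 : ℝ)) ≤ 2 * n + 1 →
    ∀ y, ∑ x, ‖Gr (H0 d n) 0 ζ y x‖ ^ 4 ≤ C * ζ.im ^ (-ε)
  im : ∀ (ζ : ℂ) (n : ℕ), lo ≤ ζ.re → ζ.re ≤ hi → 0 < ζ.im → ζ.im ≤ κ →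
    ζ.im ^ (-(10 : ℝ)) ≤ 2 * n + 1 → ∀ x, κ ≤ (Gr (H0 d n) 0 ζ x x).im
  low : ∀ (ζ : ℂ) (n : ℕ), lo ≤ ζ.re → ζ.re ≤ hi → 0 < ζ.im → ζ.im ≤ κ →
    ζ.im ^ (-(10 : ℝ)) ≤ 2 * n + 1 → ∀ k : Tor d n, (∀ l, |ang n (k l)| ≤ κ * ζ.im / 2) →
    ∀ j, κ * ang n (k j) ^ 2 / ζ.im ^ 3 ≤
      ∑ y, ‖Gr (H0 d n) 0 ζ 0 y‖ ^ 2 * (1 - (ch k y).re)

/-! ### The context -/

/-- All parameters of the bootstrap: dimension `d`, exponent `p` of the functional, energy windows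
`[lo, hi]`, `[lo', hi']`, the constant `κ`, the final scale `lam^A`, the Hoelder exponent `θ`, the
exponent `y0`, the small parameter `e` and the probability exponent `D0`. -/
structure Cx where
  (d p : ℕ)
  (lo hi lo' hi' κ A θ y0 e D0 : ℝ)

/-- The exponent `y = y0 + e` of `‖G_x‖_4`. -/
def Cx.y (c : Cx) : ℝ := c.y0 + c.e

/-- Threshold for `G4`. -/
def Cx.b4 (c : Cx) (lam : ℝ) : ℝ := lam ^ (-(4 * c.y))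

/-- Threshold for `|G_xx - g|`. -/
def Cx.b2 (c : Cx) (lam : ℝ) : ℝ := lam ^ (1 - 2 * c.y - c.e)

/-- Threshold for the local masses. -/
def Cx.b3 (c : Cx) (lam : ℝ) : ℝ := lam ^ (-2 - c.e / 4)

/-- The radius of the weights. -/
def Cx.rw (c : Cx) (lam : ℝ) : ℝ := lam ^ (-2 - c.e / (40 * c.d))

/-- The functional `F` at the parameters `π`. -/
def Cx.F (c : Cx) (ν : Measure ℝ) (π : Par) (V : Tor c.d π.n → ℝ) : ℝ :=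
  FFg (ph2 (c.rw π.lam)) (c.b4 π.lam) (c.b2 π.lam) (c.b3 π.lam) (gb ν c.d π) c.p
    (GG c.d π.n π.lam π.z V)

/-- The cutoffs `χ_ℓ = thc (F / 2^ℓ)`. -/
def Cx.chi (c : Cx) (ν : Measure ℝ) (ℓ : ℕ) (π : Par) (V : Tor c.d π.n → ℝ) : ℝ :=
  thc (c.F ν π V / 2 ^ ℓ)

/-- The bound of the change of `F` at the site `u`. -/
def Cx.D (c : Cx) (ν : Measure ℝ) (R : ℝ) (π : Par) (u : Tor c.d π.n) (V : Tor c.d π.n → ℝ) : ℝ :=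
  DF (ph2 (c.rw π.lam)) R π.lam (c.b4 π.lam) (c.b2 π.lam) (c.b3 π.lam) (gb ν c.d π) c.p
    (GG c.d π.n π.lam π.z V) u

/-- The set of all parameters. -/
def Cx.PT (c : Cx) (lam0 : ℝ) : Set Par :=
  {π | 0 < π.lam ∧ π.lam ≤ lam0 ∧ π.lam ^ (-(40 : ℝ)) ≤ 2 * (π.n : ℝ) + 1 ∧
    2 * (π.n : ℝ) + 1 ≤ π.lam ^ (-(43 : ℝ)) ∧ c.lo ≤ π.E ∧ π.E ≤ c.hi ∧
    π.lam ^ c.A ≤ π.eta ∧ π.eta ≤ c.κ / 2}

/-- The set of good parameters: `P(F > 2) ≤ lam^D0` and `Im E G_00 ≥ κ/4`. -/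
def Cx.S (c : Cx) (ν : Measure ℝ) (lam0 : ℝ) : Set Par :=
  {π | π ∈ c.PT lam0 ∧
    ((Measure.pi fun _ : Tor c.d π.n => ν) {V | 2 < c.F ν π V}).toReal ≤ π.lam ^ c.D0 ∧
    c.κ / 4 ≤ (gb ν c.d π).im}

/-- The conditions on the context. -/
structure Cx.Ok (c : Cx) : Prop where
  d3 : 3 ≤ c.d
  e0 : 0 < c.e
  A2 : 2 ≤ c.A
  A3 : c.A ≤ 3
  y0 : 0 ≤ c.y0
  th : 1 / 6 ≤ c.θ
  th' : c.θ ≤ 1 / 4
  gain : 0 ≤ 1 - c.θ * (2 + c.A) + 4 * c.θ * c.y0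
  room : 100 * c.e ≤ 3 - c.A - 2 * c.y0
  pp : 10000 * c.d ≤ c.e * c.p
  D00 : 10000 * c.d ≤ c.D0
  wlo : c.lo' < c.lo
  whi : c.hi < c.hi'
  free : FreeC c.d (1 / (1 / 2 - c.θ)) c.κ c.lo' c.hi'

/-- `DomF c ν ι Q a`: the random variables `Q π i` (`π` good, `i : ι π`) are `O(lam^(a-))` in all
moments on the supports of the cutoffs, uniformly in `i`, for small `lam`. -/
def DomF (c : Cx) (ν : Measure ℝ) (ι : Par → Type)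
    (Q : (π : Par) → ι π → (Tor c.d π.n → ℝ) → ℝ) (a : ℝ) : Prop :=
  ∀ (p ℓ : ℕ) (ε : ℝ), 0 < ε → ∃ C lam0 : ℝ, 0 < C ∧ 0 < lam0 ∧ ∀ π ∈ c.S ν lam0, ∀ i : ι π,
    Ex ν (fun V : Tor c.d π.n → ℝ => c.chi ν ℓ π V * |Q π i V| ^ p) ≤
      C * π.lam ^ ((p : ℝ) * a - ε)

end Pool.Agent.BK3
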