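import Pool.Agent.BK3.CDefs3

/-! BK3: small `lam` (proved). `sm_one`, `sm_le`: powers; `sm_exp`: an exponential beats powers;
`PT_mono`, `S_mono`: the parameter sets shrink with `lam0` (so finitely many thresholds can be combined by
taking the minimum). -/

open MeasureTheory Finset Matrix Pool.Agent.BK Filter Topology

noncomputable section

namespace Pool.Agent.BK3

lemma sm_ev {P : ℝ → Prop} (h : ∀ᶠ lam in 𝓝[>] (0 : ℝ), P lam) :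
    ∃ lam1 : ℝ, 0 < lam1 ∧ lam1 ≤ 1 ∧ ∀ lam : ℝ, 0 < lam → lam ≤ lam1 → P lam := by
  obtain ⟨u, hu, h'⟩ := mem_nhdsGT_iff_exists_Ioc_subset.1 h
  refine ⟨min u 1, lt_min hu one_pos, min_le_right _ _, fun lam h0 h1 => ?_⟩
  exact h' ⟨h0, h1.trans (min_le_left _ _)⟩

/-- `C lam^a ≤ 1` for `a > 0` and small `lam`. -/
lemma sm_one (C : ℝ) {a : ℝ} (ha : 0 < a) :
    ∃ lam1 : ℝ, 0 < lam1 ∧ lam1 ≤ 1 ∧ ∀ lam : ℝ, 0 < lam → lam ≤ lam1 → C * lam ^ a ≤ 1 := by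
  apply sm_ev
  have h : Tendsto (fun lam : ℝ => C * lam ^ a) (𝓝[>] 0) (𝓝 (C * 0)) := by
    apply Tendsto.const_mul
    have h1 : Tendsto (fun lam : ℝ => lam ^ a) (𝓝 0) (𝓝 ((0 : ℝ) ^ a)) :=
      (Real.continuousAt_rpow_const 0 a (Or.inr ha.le)).tendsto
    rw [Real.zero_rpow ha.ne'] at h1
    exact h1.mono_left nhdsWithin_le_nhds
  rw [mul_zero] at h
  exact (h.eventually (ge_mem_nhds (show (0 : ℝ) < 1 by norm_num)))

/-- `C lam^b ≤ lam^a` for `a < b` and small `lam`. -/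
lemma sm_le (C : ℝ) {a b : ℝ} (h : a < b) :
    ∃ lam1 : ℝ, 0 < lam1 ∧ lam1 ≤ 1 ∧ ∀ lam : ℝ, 0 < lam → lam ≤ lam1 → C * lam ^ b ≤ lam ^ a := by
  obtain ⟨l, h0, h1, hl⟩ := sm_one C (sub_pos.2 h)
  refine ⟨l, h0, h1, fun lam hlam hle => ?_⟩
  have h2 : C * lam ^ b = (C * lam ^ (b - a)) * lam ^ a := by
    rw [mul_assoc, ← Real.rpow_add hlam]; congr 2; ring
  rw [h2]
  have h3 := Real.rpow_pos_of_pos hlam a
  nlinarith [hl lam hlam hle]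

/-- `C ≤ lam^(-a)` for `a > 0` and small `lam`. -/
lemma sm_neg (C : ℝ) {a : ℝ} (ha : 0 < a) :
    ∃ lam1 : ℝ, 0 < lam1 ∧ lam1 ≤ 1 ∧ ∀ lam : ℝ, 0 < lam → lam ≤ lam1 → C ≤ lam ^ (-a) := by
  obtain ⟨l, h0, h1, hl⟩ := sm_le C (show -a < 0 by linarith)
  refine ⟨l, h0, h1, fun lam hlam hle => ?_⟩
  have := hl lam hlam hle
  rwa [Real.rpow_zero, mul_one] at this

/-- `C lam^(-K) exp(-c lam^(-α)) ≤ 1` for small `lam`. -/
lemma sm_exp (C K : ℝ) {c α : ℝ} (hc : 0 < c) (hα : 0 < α) :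
    ∃ lam1 : ℝ, 0 < lam1 ∧ lam1 ≤ 1 ∧ ∀ lam : ℝ, 0 < lam → lam ≤ lam1 →
      C * lam ^ (-K) * Real.exp (-(c * lam ^ (-α))) ≤ 1 := by
  apply sm_ev
  have h1 : Tendsto (fun lam : ℝ => lam ^ (-α)) (𝓝[>] 0) atTop := by
    have h2 : Tendsto (fun lam : ℝ => (lam⁻¹) ^ α) (𝓝[>] 0) atTop :=
      (tendsto_rpow_atTop hα).comp tendsto_inv_nhdsGT_zero
    refine h2.congr' ?_
    filter_upwards [self_mem_nhdsWithin] with lam hlam
    rw [Real.inv_rpow (le_of_lt hlam), Real.rpow_neg (le_of_lt hlam)]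
  have h3 : Tendsto (fun t : ℝ => t ^ (K / α) * Real.exp (-c * t)) atTop (𝓝 0) :=
    tendsto_rpow_mul_exp_neg_mul_atTop_nhds_zero _ _ hc
  have h4 := (h3.comp h1).const_mul C
  rw [mul_zero] at h4
  have h5 := h4.eventually (ge_mem_nhds (show (0 : ℝ) < 1 by norm_num))
  filter_upwards [h5, self_mem_nhdsWithin] with lam h6 hlam
  have h7 : (lam ^ (-α)) ^ (K / α) = lam ^ (-K) := by
    rw [← Real.rpow_mul (le_of_lt hlam)]; congr 1; field_simp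
  simp only [Function.comp] at h6
  rw [h7, neg_mul] at h6
  linarith [h6, mul_assoc C (lam ^ (-K)) (Real.exp (-(c * lam ^ (-α))))]

lemma Cx.PT_mono (c : Cx) {l1 l2 : ℝ} (h : l1 ≤ l2) : c.PT l1 ⊆ c.PT l2 :=
  fun _ hπ => ⟨hπ.1, hπ.2.1.trans h, hπ.2.2⟩

lemma Cx.S_mono (c : Cx) (ν : Measure ℝ) {l1 l2 : ℝ} (h : l1 ≤ l2) : c.S ν l1 ⊆ c.S ν l2 :=
  fun _ hπ => ⟨c.PT_mono h hπ.1, hπ.2⟩

lemma rp_pos {l : ℝ} (h : 0 < l) (a : ℝ) : 0 < l ^ a := Real.rpow_pos_of_pos h a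

/-- Powers of `lam ∈ (0, 1]` are antitone in the exponent. -/
lemma rp_anti {l : ℝ} (h0 : 0 < l) (h1 : l ≤ 1) {a b : ℝ} (h : a ≤ b) : l ^ b ≤ l ^ a :=
  Real.rpow_le_rpow_of_exponent_ge h0 h1 h

lemma rp_pow {l : ℝ} (h : 0 < l) (a : ℝ) (p : ℕ) : (l ^ a) ^ p = l ^ ((p : ℝ) * a) := by
  rw [← Real.rpow_natCast, ← Real.rpow_mul h.le, mul_comm]

end Pool.Agent.BK3
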