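import Pool.Agent.BK3.RegW
import Pool.Agent.BK3.Sm

/-! BK3 module DomA: the `DomF` calculus. `ok_pos`: everything about `π ∈ c.S ν lam0`, `lam0 ≤ 1`, that is needed:
`0 < lam ≤ 1`, `0 < η`. All thresholds may be lowered (`S_mono`), constants raised. An integral of a
nonnegative function that is not integrable is `0`, so upper bounds by a constant need no continuity;
`integral_mono_of_nonneg` needs integrability only of the larger function.
`domF_det`: `|Q| ≤ K lam^a` on the supports of the cutoffs. `domF_mono`: `|Q'| ≤ K (|Q| + lam^a)` on the supports,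
with `(x + y)^p ≤ 2^p (x^p + y^p)`. `domF_add`. `domF_scale`: a deterministic factor `≤ K lam^b`.
`domF_sumpow`: `(∑_i |Q_i|^k)^m ≤ card^m ∑_i |Q_i|^(km)/card` (power mean), so
`E[χ (∑|Q_i|^k)^m] ≤ lam^(-Km) C lam^(kma-ε)`. `domF_prob`: Markov with a high moment and the union bound. -/

open MeasureTheory Finset Matrix Pool.Agent.BK

noncomputable section

namespace Pool.Agent.BK3

variable {ν : Measure ℝ} {R s2 : ℝ} {c : Cx} {ι : Par → Type}

lemma ok_pos (hc : c.Ok) {lam0 : ℝ} (h1 : lam0 ≤ 1) {π : Par} (hπ : π ∈ c.S ν lam0) :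
    0 < π.lam ∧ π.lam ≤ 1 ∧ 0 < π.eta := by
  have h2 := hπ.1
  have h3 : 0 < π.lam := h2.1
  refine ⟨h3, h2.2.1.trans h1, ?_⟩
  exact (rp_pos h3 c.A).trans_le h2.2.2.2.2.2.2.1

/-- monotonicity of the expectation without integrability of the smaller function. -/
lemma domA_Ex_le {X : Type} [Fintype X] (hν : BLaw ν R s2) {f g : (X → ℝ) → ℝ}
    (hf : ∀ V ∈ Box X R, 0 ≤ f V)
    (hg : Integrable g (Measure.pi fun _ : X => ν)) (h : ∀ V ∈ Box X R, f V ≤ g V) :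
    Ex ν f ≤ Ex ν g := by
  classical
  have := hν.prob
  have hbox := box_ae (X := X) hν
  unfold Ex
  refine integral_mono_of_nonneg ?_ hg ?_
  · filter_upwards [hbox] with V hV using hf V hV
  · filter_upwards [hbox] with V hV using h V hV

lemma domA_Ex_const {X : Type} [Fintype X] (hν : BLaw ν R s2) {f : (X → ℝ) → ℝ} {C : ℝ}
    (hf : ∀ V ∈ Box X R, 0 ≤ f V) (h : ∀ V ∈ Box X R, f V ≤ C) : Ex ν f ≤ C := by
  classical
  have := hν.prob
  have h1 := domA_Ex_le hν hf (integrable_const C) h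
  rwa [Ex_one hν] at h1

lemma domA_Ex_nonneg {X : Type} [Fintype X] {f : (X → ℝ) → ℝ} (hf : ∀ V, 0 ≤ f V) :
    0 ≤ Ex ν f := integral_nonneg hf

lemma domA_term_nonneg (c : Cx) (ν : Measure ℝ) (ℓ : ℕ) (π : Par) (V : Tor c.d π.n → ℝ) (x : ℝ)
    (p : ℕ) : 0 ≤ c.chi ν ℓ π V * |x| ^ p :=
  mul_nonneg (chi_mem c ν ℓ π V).1 (pow_nonneg (abs_nonneg x) p)

lemma domA_two_pow {x y : ℝ} (hx : 0 ≤ x) (hy : 0 ≤ y) (p : ℕ) :
    (x + y) ^ p ≤ 2 ^ p * (x ^ p + y ^ p) := by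
  have h1 : (x + y) ^ p ≤ (2 * max x y) ^ p := by
    apply pow_le_pow_left₀ (add_nonneg hx hy)
    have := le_max_left x y
    have := le_max_right x y
    linarith
  have h2 : (max x y) ^ p ≤ x ^ p + y ^ p := by
    rcases le_total x y with h | h
    · rw [max_eq_right h]
      have := pow_nonneg hx p
      linarith
    · rw [max_eq_left h]
      have := pow_nonneg hy p
      linarith
  rw [mul_pow] at h1
  calc (x + y) ^ p ≤ 2 ^ p * (max x y) ^ p := h1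
    _ ≤ 2 ^ p * (x ^ p + y ^ p) := by gcongr

lemma domF_weaken (hc : c.Ok) {Q : (π : Par) → ι π → (Tor c.d π.n → ℝ) → ℝ} {a b : ℝ} (h : b ≤ a)
    (hQ : DomF c ν ι Q a) : DomF c ν ι Q b := by
  intro p ℓ ε hε
  obtain ⟨C, lam0, hC, h0, hQ'⟩ := hQ p ℓ ε hε
  refine ⟨C, min lam0 1, hC, lt_min h0 one_pos, fun π hπ i => ?_⟩
  obtain ⟨hl0, hl1, -⟩ := ok_pos hc (min_le_right _ _) hπ
  refine (hQ' π (c.S_mono ν (min_le_left _ _) hπ) i).trans ?_
  have h1 : (p : ℝ) * b - ε ≤ p * a - ε := by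
    have : (p : ℝ) * b ≤ p * a := by gcongr
    linarith
  have h2 := rp_anti hl0 hl1 h1
  gcongr

lemma domF_det (hν : BLaw ν R s2) (hc : c.Ok) {Q : (π : Par) → ι π → (Tor c.d π.n → ℝ) → ℝ}
    {a : ℝ} (K : ℝ)
    (h : ∀ ℓ : ℕ, ∃ lam0 : ℝ, 0 < lam0 ∧ ∀ π ∈ c.S ν lam0, ∀ i, ∀ V ∈ Box (Tor c.d π.n) R,
      c.chi ν ℓ π V ≠ 0 → |Q π i V| ≤ K * π.lam ^ a) : DomF c ν ι Q a := by
  intro p ℓ ε hε
  obtain ⟨lam0, h0, hQ⟩ := h ℓ
  refine ⟨|K| ^ p + 1, min lam0 1, by positivity, lt_min h0 one_pos, fun π hπ i => ?_⟩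
  obtain ⟨hl0, hl1, -⟩ := ok_pos hc (min_le_right _ _) hπ
  have hS := c.S_mono ν (min_le_left _ _) hπ
  have hle : (π.lam ^ a) ^ p ≤ π.lam ^ ((p : ℝ) * a - ε) := by
    rw [rp_pow hl0]
    exact rp_anti hl0 hl1 (by linarith)
  refine (domA_Ex_const hν (fun V _ => domA_term_nonneg c ν ℓ π V _ p)
    (C := |K| ^ p * (π.lam ^ a) ^ p) fun V hV => ?_).trans ?_
  · by_cases hχ : c.chi ν ℓ π V = 0
    · rw [hχ, zero_mul]
      have := rp_pos hl0 a
      positivity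
    · have h1 : |Q π i V| ≤ |K| * π.lam ^ a := by
        refine (hQ π hS i V hV hχ).trans ?_
        have := rp_pos hl0 a
        gcongr
        exact le_abs_self K
      have h2 : |Q π i V| ^ p ≤ |K| ^ p * (π.lam ^ a) ^ p := by
        rw [← mul_pow]
        exact pow_le_pow_left₀ (abs_nonneg _) h1 p
      calc c.chi ν ℓ π V * |Q π i V| ^ p ≤ 1 * |Q π i V| ^ p := by
            gcongr
            exact (chi_mem c ν ℓ π V).2
        _ = |Q π i V| ^ p := one_mul _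
        _ ≤ _ := h2
  · have h3 := rp_pos hl0 ((p : ℝ) * a - ε)
    calc |K| ^ p * (π.lam ^ a) ^ p ≤ |K| ^ p * π.lam ^ ((p : ℝ) * a - ε) := by gcongr
      _ ≤ (|K| ^ p + 1) * π.lam ^ ((p : ℝ) * a - ε) := by
          gcongr
          linarith

lemma domF_mono (hν : BLaw ν R s2) (hc : c.Ok) {κ : Par → Type}
    {Q : (π : Par) → κ π → (Tor c.d π.n → ℝ) → ℝ} {Q' : (π : Par) → ι π → (Tor c.d π.n → ℝ) → ℝ}
    {a : ℝ} (K : ℝ) (f : (π : Par) → ι π → κ π) (hcont : ∀ π, 0 < π.eta → ∀ i, Continuous (Q π i))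
    (hQ : DomF c ν κ Q a)
    (h : ∀ ℓ : ℕ, ∃ lam0 : ℝ, 0 < lam0 ∧ ∀ π ∈ c.S ν lam0, ∀ i, ∀ V ∈ Box (Tor c.d π.n) R,
      c.chi ν ℓ π V ≠ 0 → |Q' π i V| ≤ K * (|Q π (f π i) V| + π.lam ^ a)) : DomF c ν ι Q' a := by
  intro p ℓ ε hε
  obtain ⟨lam0, h0, hh⟩ := h ℓ
  obtain ⟨C, lam1, hC, h1, hQ1⟩ := hQ p ℓ ε hε
  refine ⟨(2 * |K|) ^ p * (C + 1) + 1, min (min lam0 lam1) 1, by positivity,
    lt_min (lt_min h0 h1) one_pos, fun π hπ i => ?_⟩
  have := hν.prob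
  obtain ⟨hl0, hl1, hη⟩ := ok_pos hc (min_le_right _ _) hπ
  have hS0 := c.S_mono ν ((min_le_left _ _).trans (min_le_left _ _)) hπ
  have hS1 := c.S_mono ν ((min_le_left _ _).trans (min_le_right _ _)) hπ
  have hla := rp_pos hl0 a
  have hle : (π.lam ^ a) ^ p ≤ π.lam ^ ((p : ℝ) * a - ε) := by
    rw [rp_pow hl0]
    exact rp_anti hl0 hl1 (by linarith)
  have hcχ : Continuous (c.chi ν ℓ π) := continuous_chi c ν ℓ π hη
  have hcQ : Continuous (Q π (f π i)) := hcont π hη _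
  have hint : Integrable (fun V : Tor c.d π.n → ℝ => c.chi ν ℓ π V * |Q π (f π i) V| ^ p)
      (Measure.pi fun _ : Tor c.d π.n => ν) :=
    int_cont hν (hcχ.mul (hcQ.abs.pow p))
  have hg : Integrable (fun V : Tor c.d π.n → ℝ => (2 * |K|) ^ p *
      (c.chi ν ℓ π V * |Q π (f π i) V| ^ p + (π.lam ^ a) ^ p))
      (Measure.pi fun _ : Tor c.d π.n => ν) :=
    (hint.add (integrable_const _)).const_mul _
  refine (domA_Ex_le hν (fun V _ => domA_term_nonneg c ν ℓ π V _ p) hg fun V hV => ?_).trans ?_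
  · by_cases hχ : c.chi ν ℓ π V = 0
    · rw [hχ, zero_mul, zero_mul]
      positivity
    · obtain ⟨hχ0, hχ1⟩ := chi_mem c ν ℓ π V
      have h2 : |Q' π i V| ≤ |K| * (|Q π (f π i) V| + π.lam ^ a) := by
        refine (hh π hS0 i V hV hχ).trans ?_
        gcongr
        exact le_abs_self K
      have h3 : |Q' π i V| ^ p ≤ (2 * |K|) ^ p * (|Q π (f π i) V| ^ p + (π.lam ^ a) ^ p) := by
        calc |Q' π i V| ^ p ≤ (|K| * (|Q π (f π i) V| + π.lam ^ a)) ^ p :=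
              pow_le_pow_left₀ (abs_nonneg _) h2 p
          _ = |K| ^ p * (|Q π (f π i) V| + π.lam ^ a) ^ p := mul_pow _ _ _
          _ ≤ |K| ^ p * (2 ^ p * (|Q π (f π i) V| ^ p + (π.lam ^ a) ^ p)) := by
              gcongr
              exact domA_two_pow (abs_nonneg _) hla.le p
          _ = _ := by rw [mul_pow]; ring
      calc c.chi ν ℓ π V * |Q' π i V| ^ p
          ≤ c.chi ν ℓ π V * ((2 * |K|) ^ p * (|Q π (f π i) V| ^ p + (π.lam ^ a) ^ p)) := by gcongr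
        _ = (2 * |K|) ^ p * (c.chi ν ℓ π V * |Q π (f π i) V| ^ p +
              c.chi ν ℓ π V * (π.lam ^ a) ^ p) := by ring
        _ ≤ (2 * |K|) ^ p * (c.chi ν ℓ π V * |Q π (f π i) V| ^ p + 1 * (π.lam ^ a) ^ p) := by
            gcongr
        _ = _ := by rw [one_mul]
  · have h4 : Ex ν (fun V : Tor c.d π.n → ℝ => (2 * |K|) ^ p *
        (c.chi ν ℓ π V * |Q π (f π i) V| ^ p + (π.lam ^ a) ^ p)) =
        (2 * |K|) ^ p * (Ex ν (fun V : Tor c.d π.n → ℝ =>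
          c.chi ν ℓ π V * |Q π (f π i) V| ^ p) + (π.lam ^ a) ^ p) := by
      unfold Ex
      rw [integral_const_mul, integral_add hint (integrable_const _)]
      simp
    rw [h4]
    have h5 := hQ1 π hS1 (f π i)
    have h6 := rp_pos hl0 ((p : ℝ) * a - ε)
    calc _ ≤ (2 * |K|) ^ p * (C * π.lam ^ ((p : ℝ) * a - ε) + π.lam ^ ((p : ℝ) * a - ε)) := by
          gcongr
      _ = ((2 * |K|) ^ p * (C + 1)) * π.lam ^ ((p : ℝ) * a - ε) := by ring
      _ ≤ _ := by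
          gcongr
          linarith

lemma domF_scale (hc : c.Ok) {Q : (π : Par) → ι π → (Tor c.d π.n → ℝ) → ℝ} {a b : ℝ} (K : ℝ)
    (s : Par → ℝ) (hs : ∃ lam0 : ℝ, 0 < lam0 ∧ ∀ π ∈ c.S ν lam0, |s π| ≤ K * π.lam ^ b)
    (hQ : DomF c ν ι Q a) : DomF c ν ι (fun π i V => s π * Q π i V) (b + a) := by
  intro p ℓ ε hε
  obtain ⟨lam0, h0, hs⟩ := hs
  obtain ⟨C, lam1, hC, h1, hQ1⟩ := hQ p ℓ ε hε
  refine ⟨|K| ^ p * C + 1, min (min lam0 lam1) 1, by positivity,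
    lt_min (lt_min h0 h1) one_pos, fun π hπ i => ?_⟩
  obtain ⟨hl0, hl1, hη⟩ := ok_pos hc (min_le_right _ _) hπ
  have hS0 := c.S_mono ν ((min_le_left _ _).trans (min_le_left _ _)) hπ
  have hS1 := c.S_mono ν ((min_le_left _ _).trans (min_le_right _ _)) hπ
  have hlb := rp_pos hl0 b
  have h2 : Ex ν (fun V : Tor c.d π.n → ℝ => c.chi ν ℓ π V * |s π * Q π i V| ^ p) =
      |s π| ^ p * Ex ν (fun V : Tor c.d π.n → ℝ => c.chi ν ℓ π V * |Q π i V| ^ p) := by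
    unfold Ex
    rw [← integral_const_mul]
    refine integral_congr_ae (Filter.Eventually.of_forall fun V => ?_)
    show _ = _
    simp only
    rw [abs_mul, mul_pow]
    ring
  rw [h2]
  have h3 : |s π| ^ p ≤ |K| ^ p * π.lam ^ ((p : ℝ) * b) := by
    rw [← rp_pow hl0, ← mul_pow]
    apply pow_le_pow_left₀ (abs_nonneg _)
    refine (hs π hS0).trans ?_
    gcongr
    exact le_abs_self K
  have h4 := hQ1 π hS1 i
  have h5 : 0 ≤ Ex ν (fun V : Tor c.d π.n → ℝ => c.chi ν ℓ π V * |Q π i V| ^ p) :=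
    domA_Ex_nonneg fun V => domA_term_nonneg c ν ℓ π V _ p
  have h6 := rp_pos hl0 ((p : ℝ) * b)
  calc |s π| ^ p * Ex ν (fun V : Tor c.d π.n → ℝ => c.chi ν ℓ π V * |Q π i V| ^ p)
      ≤ (|K| ^ p * π.lam ^ ((p : ℝ) * b)) * (C * π.lam ^ ((p : ℝ) * a - ε)) := by gcongr
    _ = (|K| ^ p * C) * (π.lam ^ ((p : ℝ) * b) * π.lam ^ ((p : ℝ) * a - ε)) := by ring
    _ = (|K| ^ p * C) * π.lam ^ ((p : ℝ) * (b + a) - ε) := by
        rw [← Real.rpow_add hl0]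
        congr 2
        ring
    _ ≤ _ := by
        have := rp_pos hl0 ((p : ℝ) * (b + a) - ε)
        gcongr
        linarith

lemma domF_add (hν : BLaw ν R s2) (hc : c.Ok)
    {Q Q' : (π : Par) → ι π → (Tor c.d π.n → ℝ) → ℝ} {a : ℝ}
    (h1 : ∀ π, 0 < π.eta → ∀ i, Continuous (Q π i)) (h2 : ∀ π, 0 < π.eta → ∀ i, Continuous (Q' π i))
    (hQ : DomF c ν ι Q a) (hQ' : DomF c ν ι Q' a) :
    DomF c ν ι (fun π i V => Q π i V + Q' π i V) a := by
  intro p ℓ ε hε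
  obtain ⟨C, lam0, hC, h0, hQ0⟩ := hQ p ℓ ε hε
  obtain ⟨C', lam1, hC', h1', hQ1⟩ := hQ' p ℓ ε hε
  refine ⟨2 ^ p * (C + C'), min (min lam0 lam1) 1, by positivity,
    lt_min (lt_min h0 h1') one_pos, fun π hπ i => ?_⟩
  have := hν.prob
  obtain ⟨hl0, hl1, hη⟩ := ok_pos hc (min_le_right _ _) hπ
  have hS0 := c.S_mono ν ((min_le_left _ _).trans (min_le_left _ _)) hπ
  have hS1 := c.S_mono ν ((min_le_left _ _).trans (min_le_right _ _)) hπ
  have hcχ : Continuous (c.chi ν ℓ π) := continuous_chi c ν ℓ π hη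
  have hi1 : Integrable (fun V : Tor c.d π.n → ℝ => c.chi ν ℓ π V * |Q π i V| ^ p)
      (Measure.pi fun _ : Tor c.d π.n => ν) :=
    int_cont hν (hcχ.mul ((h1 π hη i).abs.pow p))
  have hi2 : Integrable (fun V : Tor c.d π.n → ℝ => c.chi ν ℓ π V * |Q' π i V| ^ p)
      (Measure.pi fun _ : Tor c.d π.n => ν) :=
    int_cont hν (hcχ.mul ((h2 π hη i).abs.pow p))
  have hg : Integrable (fun V : Tor c.d π.n → ℝ => 2 ^ p *
      (c.chi ν ℓ π V * |Q π i V| ^ p + c.chi ν ℓ π V * |Q' π i V| ^ p))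
      (Measure.pi fun _ : Tor c.d π.n => ν) :=
    (hi1.add hi2).const_mul _
  refine (domA_Ex_le hν (fun V _ => domA_term_nonneg c ν ℓ π V _ p) hg fun V hV => ?_).trans ?_
  · have hχ0 := (chi_mem c ν ℓ π V).1
    calc c.chi ν ℓ π V * |Q π i V + Q' π i V| ^ p
        ≤ c.chi ν ℓ π V * (|Q π i V| + |Q' π i V|) ^ p := by
          gcongr
          exact abs_add_le _ _
      _ ≤ c.chi ν ℓ π V * (2 ^ p * (|Q π i V| ^ p + |Q' π i V| ^ p)) := by
          gcongr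
          exact domA_two_pow (abs_nonneg _) (abs_nonneg _) p
      _ = _ := by ring
  · have h4 : Ex ν (fun V : Tor c.d π.n → ℝ => 2 ^ p *
        (c.chi ν ℓ π V * |Q π i V| ^ p + c.chi ν ℓ π V * |Q' π i V| ^ p)) =
        2 ^ p * (Ex ν (fun V : Tor c.d π.n → ℝ => c.chi ν ℓ π V * |Q π i V| ^ p) +
          Ex ν (fun V : Tor c.d π.n → ℝ => c.chi ν ℓ π V * |Q' π i V| ^ p)) := by
      unfold Ex
      rw [integral_const_mul, integral_add hi1 hi2]
    rw [h4]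
    have h5 := hQ0 π hS0 i
    have h6 := hQ1 π hS1 i
    calc _ ≤ 2 ^ p * (C * π.lam ^ ((p : ℝ) * a - ε) + C' * π.lam ^ ((p : ℝ) * a - ε)) := by
          gcongr
      _ = _ := by ring

lemma domF_sumpow (hν : BLaw ν R s2) (hc : c.Ok) [∀ π, Fintype (ι π)]
    {Q : (π : Par) → ι π → (Tor c.d π.n → ℝ) → ℝ} {a b K : ℝ}
    (hcont : ∀ π, 0 < π.eta → ∀ i, Continuous (Q π i))
    (hcard : ∃ lam0 : ℝ, 0 < lam0 ∧ ∀ π ∈ c.S ν lam0, (Fintype.card (ι π) : ℝ) ≤ π.lam ^ (-K))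
    (hQ : DomF c ν ι Q a) (k : ℕ) (hk : K + b ≤ k * a) :
    DomF c ν (fun _ => Unit) (fun π _ V => ∑ i, |Q π i V| ^ k) b := by
  intro m ℓ ε hε
  obtain ⟨lam0, h0, hcard⟩ := hcard
  obtain ⟨C, lam1, hC, h1, hQ1⟩ := hQ (k * m) ℓ ε hε
  refine ⟨C + 1, min (min lam0 lam1) 1, by positivity,
    lt_min (lt_min h0 h1) one_pos, fun π hπ _ => ?_⟩
  have := hν.prob
  obtain ⟨hl0, hl1, hη⟩ := ok_pos hc (min_le_right _ _) hπ
  have hS0 := c.S_mono ν ((min_le_left _ _).trans (min_le_left _ _)) hπ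
  have hS1 := c.S_mono ν ((min_le_left _ _).trans (min_le_right _ _)) hπ
  have hcχ : Continuous (c.chi ν ℓ π) := continuous_chi c ν ℓ π hη
  have hlb := rp_pos hl0 ((m : ℝ) * b - ε)
  rcases Nat.eq_zero_or_pos m with hm | hm
  · subst hm
    refine (domA_Ex_const hν (fun V _ => domA_term_nonneg c ν ℓ π V _ 0) (C := 1)
      fun V hV => ?_).trans ?_
    · rw [pow_zero, mul_one]
      exact (chi_mem c ν ℓ π V).2
    · have h3 : (1 : ℝ) ≤ π.lam ^ (((0 : ℕ) : ℝ) * b - ε) := by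
        have := rp_anti hl0 hl1 (show ((0 : ℕ) : ℝ) * b - ε ≤ 0 by
          rw [Nat.cast_zero, zero_mul]
          linarith)
        rwa [Real.rpow_zero] at this
      nlinarith
  · obtain ⟨m', rfl⟩ := Nat.exists_eq_succ_of_ne_zero hm.ne'
    rw [Nat.succ_eq_add_one] at *
    have hi : ∀ i, Integrable (fun V : Tor c.d π.n → ℝ =>
        c.chi ν ℓ π V * |Q π i V| ^ (k * (m' + 1))) (Measure.pi fun _ : Tor c.d π.n => ν) :=
      fun i => int_cont hν (hcχ.mul ((hcont π hη i).abs.pow _))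
    have hg : Integrable (fun V : Tor c.d π.n → ℝ => (Fintype.card (ι π) : ℝ) ^ m' *
        ∑ i, c.chi ν ℓ π V * |Q π i V| ^ (k * (m' + 1)))
        (Measure.pi fun _ : Tor c.d π.n => ν) :=
      (integrable_finsetSum _ fun i _ => hi i).const_mul _
    refine (domA_Ex_le hν (fun V _ => domA_term_nonneg c ν ℓ π V _ _) hg fun V hV => ?_).trans ?_
    · have hχ0 := (chi_mem c ν ℓ π V).1
      have h3 : |∑ i, |Q π i V| ^ k| ^ (m' + 1) ≤ (Fintype.card (ι π) : ℝ) ^ m' *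
          ∑ i, |Q π i V| ^ (k * (m' + 1)) := by
        rw [abs_of_nonneg (Finset.sum_nonneg fun i _ => pow_nonneg (abs_nonneg _) k)]
        have h4 := pow_sum_le_card_mul_sum_pow (s := Finset.univ) (f := fun i => |Q π i V| ^ k)
          (fun i _ => pow_nonneg (abs_nonneg _) k) m'
        simp only [← pow_mul, Finset.card_univ] at h4
        exact h4
      calc c.chi ν ℓ π V * |∑ i, |Q π i V| ^ k| ^ (m' + 1)
          ≤ c.chi ν ℓ π V * ((Fintype.card (ι π) : ℝ) ^ m' *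
            ∑ i, |Q π i V| ^ (k * (m' + 1))) := by gcongr
        _ = _ := by
            rw [← Finset.mul_sum]
            ring
    · have h4 : Ex ν (fun V : Tor c.d π.n → ℝ => (Fintype.card (ι π) : ℝ) ^ m' *
          ∑ i, c.chi ν ℓ π V * |Q π i V| ^ (k * (m' + 1))) =
          (Fintype.card (ι π) : ℝ) ^ m' * ∑ i, Ex ν (fun V : Tor c.d π.n → ℝ =>
            c.chi ν ℓ π V * |Q π i V| ^ (k * (m' + 1))) := by
        unfold Ex
        rw [integral_const_mul, integral_finsetSum _ fun i _ => hi i]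
      rw [h4]
      have hcd := hcard π hS0
      have hK := rp_pos hl0 (-K)
      have hle : ((k : ℝ) * ((m' + 1 : ℕ) : ℝ)) * a - ε - K * ((m' + 1 : ℕ) : ℝ) ≥
          ((m' + 1 : ℕ) : ℝ) * b - ε := by
        have h5 : (0 : ℝ) ≤ ((m' + 1 : ℕ) : ℝ) := Nat.cast_nonneg _
        nlinarith
      calc (Fintype.card (ι π) : ℝ) ^ m' * ∑ i, Ex ν (fun V : Tor c.d π.n → ℝ =>
            c.chi ν ℓ π V * |Q π i V| ^ (k * (m' + 1)))
          ≤ (Fintype.card (ι π) : ℝ) ^ m' * ∑ _i : ι π,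
              C * π.lam ^ (((k * (m' + 1) : ℕ) : ℝ) * a - ε) := by
            gcongr with i
            exact hQ1 π hS1 i
        _ = (Fintype.card (ι π) : ℝ) ^ (m' + 1) *
              (C * π.lam ^ (((k * (m' + 1) : ℕ) : ℝ) * a - ε)) := by
            rw [Finset.sum_const, Finset.card_univ, nsmul_eq_mul, pow_succ]
            ring
        _ ≤ (π.lam ^ (-K)) ^ (m' + 1) *
              (C * π.lam ^ (((k * (m' + 1) : ℕ) : ℝ) * a - ε)) := by
            have := rp_pos hl0 (((k * (m' + 1) : ℕ) : ℝ) * a - ε)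
            gcongr
        _ = C * π.lam ^ (((k : ℝ) * ((m' + 1 : ℕ) : ℝ)) * a - ε - K * ((m' + 1 : ℕ) : ℝ)) := by
            rw [rp_pow hl0, mul_left_comm, ← Real.rpow_add hl0]
            congr 2
            push_cast
            ring
        _ ≤ C * π.lam ^ (((m' + 1 : ℕ) : ℝ) * b - ε) := by
            have := rp_anti hl0 hl1 hle
            gcongr
        _ ≤ _ := by
            gcongr
            linarith

/-- the basic Markov inequality. -/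
private lemma domA_markov (hν : BLaw ν R s2) (c : Cx) {π : Par} (hl0 : 0 < π.lam) (hη : 0 < π.eta)
    {q : (Tor c.d π.n → ℝ) → ℝ} (hq : Continuous q) (b : ℝ) (p : ℕ) :
    ((Measure.pi fun _ : Tor c.d π.n => ν)
      {V | c.F ν π V ≤ 2 ∧ π.lam ^ b ≤ |q V|}).toReal ≤
      π.lam ^ (-((p : ℝ) * b)) * Ex ν (fun V : Tor c.d π.n → ℝ => c.chi ν 0 π V * |q V| ^ p) := by
  have := hν.prob
  have hcχ : Continuous (c.chi ν 0 π) := continuous_chi c ν 0 π hη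
  have hint : Integrable (fun V : Tor c.d π.n → ℝ => c.chi ν 0 π V * |q V| ^ p)
      (Measure.pi fun _ : Tor c.d π.n => ν) :=
    int_cont hν (hcχ.mul (hq.abs.pow p))
  have h1 := mul_meas_ge_le_integral_of_nonneg
    (μ := Measure.pi fun _ : Tor c.d π.n => ν)
    (f := fun V : Tor c.d π.n → ℝ => c.chi ν 0 π V * |q V| ^ p)
    (Filter.Eventually.of_forall fun V => domA_term_nonneg c ν 0 π V _ p) hint
    (π.lam ^ ((p : ℝ) * b))
  have hb := rp_pos hl0 ((p : ℝ) * b)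
  have h2 : ((Measure.pi fun _ : Tor c.d π.n => ν)
      {V | c.F ν π V ≤ 2 ∧ π.lam ^ b ≤ |q V|}).toReal ≤
      (Measure.pi fun _ : Tor c.d π.n => ν).real
        {V | π.lam ^ ((p : ℝ) * b) ≤ c.chi ν 0 π V * |q V| ^ p} := by
    rw [← measureReal_def]
    refine measureReal_mono ?_ (measure_ne_top _ _)
    intro V hV
    rw [Set.mem_ofPred_eq] at hV ⊢
    rw [chi_one c ν 0 π V (by simpa using hV.1), one_mul, ← rp_pow hl0]
    exact pow_le_pow_left₀ (rp_pos hl0 b).le hV.2 p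
  have h3 : π.lam ^ (-((p : ℝ) * b)) = (π.lam ^ ((p : ℝ) * b))⁻¹ := Real.rpow_neg hl0.le _
  rw [h3]
  refine h2.trans ?_
  rw [inv_mul_eq_div, le_div_iff₀ hb, mul_comm]
  exact h1

/-- The same for one index, uniformly. -/
private lemma domA_prob1 (hν : BLaw ν R s2) (hc : c.Ok)
    {Q : (π : Par) → ι π → (Tor c.d π.n → ℝ) → ℝ} {a b : ℝ} (hb : b < a)
    (hcont : ∀ π, 0 < π.eta → ∀ i, Continuous (Q π i)) (hQ : DomF c ν ι Q a) (D1 : ℝ) :
    ∃ lam1 : ℝ, 0 < lam1 ∧ lam1 ≤ 1 ∧ ∀ π ∈ c.S ν lam1, ∀ i,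
      ((Measure.pi fun _ : Tor c.d π.n => ν)
        {V | c.F ν π V ≤ 2 ∧ π.lam ^ b ≤ |Q π i V|}).toReal ≤ π.lam ^ D1 := by
  obtain ⟨p, hp⟩ := exists_nat_gt ((D1 + 1) / (a - b))
  have hab : 0 < a - b := sub_pos.2 hb
  have hp' : D1 < (p : ℝ) * a - 1 - p * b := by
    rw [div_lt_iff₀ hab] at hp
    linarith
  obtain ⟨C, lam0, hC, h0, hQ0⟩ := hQ p 0 1 one_pos
  obtain ⟨l2, hl2, hl2', hsm⟩ := sm_le C hp'
  refine ⟨min lam0 l2, lt_min h0 hl2, (min_le_right _ _).trans hl2', fun π hπ i => ?_⟩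
  obtain ⟨hl0, hl1, hη⟩ := ok_pos hc ((min_le_right _ _).trans hl2') hπ
  have hS0 := c.S_mono ν (min_le_left _ _) hπ
  have hle2 : π.lam ≤ l2 := hπ.1.2.1.trans (min_le_right _ _)
  refine (domA_markov hν c hl0 hη (hcont π hη i) b p).trans ?_
  have h1 := hQ0 π hS0 i
  have h2 := rp_pos hl0 (-((p : ℝ) * b))
  calc π.lam ^ (-((p : ℝ) * b)) * Ex ν (fun V : Tor c.d π.n → ℝ => c.chi ν 0 π V * |Q π i V| ^ p)
      ≤ π.lam ^ (-((p : ℝ) * b)) * (C * π.lam ^ ((p : ℝ) * a - 1)) := by gcongr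
    _ = C * π.lam ^ ((p : ℝ) * a - 1 - p * b) := by
        rw [mul_left_comm, ← Real.rpow_add hl0]
        congr 2
        ring
    _ ≤ _ := hsm _ hl0 hle2

/-- Probability that some `|Q_i| ≥ lam^b`, `b < a`, on the set `{F ≤ 2}`. -/
lemma domF_prob (hν : BLaw ν R s2) (hc : c.Ok) [∀ π, Fintype (ι π)]
    {Q : (π : Par) → ι π → (Tor c.d π.n → ℝ) → ℝ} {a b K : ℝ} (hb : b < a)
    (hcont : ∀ π, 0 < π.eta → ∀ i, Continuous (Q π i))
    (hcard : ∃ lam0 : ℝ, 0 < lam0 ∧ ∀ π ∈ c.S ν lam0, (Fintype.card (ι π) : ℝ) ≤ π.lam ^ (-K))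
    (hQ : DomF c ν ι Q a) (D1 : ℝ) :
    ∃ lam1 : ℝ, 0 < lam1 ∧ lam1 ≤ 1 ∧ ∀ π ∈ c.S ν lam1,
      ((Measure.pi fun _ : Tor c.d π.n => ν)
        {V | c.F ν π V ≤ 2 ∧ ∃ i, π.lam ^ b ≤ |Q π i V|}).toReal ≤ π.lam ^ D1 := by
  obtain ⟨lam0, h0, hcard⟩ := hcard
  obtain ⟨l1, hl1, hl1', hprob⟩ := domA_prob1 hν hc hb hcont hQ (D1 + K)
  refine ⟨min lam0 l1, lt_min h0 hl1, (min_le_right _ _).trans hl1', fun π hπ => ?_⟩
  have := hν.prob
  obtain ⟨hp0, hp1, hη⟩ := ok_pos hc ((min_le_right _ _).trans hl1') hπ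
  have hS0 := c.S_mono ν (min_le_left _ _) hπ
  have hS1 := c.S_mono ν (min_le_right _ _) hπ
  have h1 : {V : Tor c.d π.n → ℝ | c.F ν π V ≤ 2 ∧ ∃ i, π.lam ^ b ≤ |Q π i V|} =
      ⋃ i, {V | c.F ν π V ≤ 2 ∧ π.lam ^ b ≤ |Q π i V|} := by
    ext V
    simp
  rw [← measureReal_def, h1]
  refine (measureReal_iUnion_fintype_le _).trans ?_
  calc ∑ i, (Measure.pi fun _ : Tor c.d π.n => ν).real
        {V | c.F ν π V ≤ 2 ∧ π.lam ^ b ≤ |Q π i V|}
      ≤ ∑ _i : ι π, π.lam ^ (D1 + K) := Finset.sum_le_sum fun i _ => hprob π hS1 i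
    _ = (Fintype.card (ι π) : ℝ) * π.lam ^ (D1 + K) := by
        rw [Finset.sum_const, Finset.card_univ, nsmul_eq_mul]
    _ ≤ π.lam ^ (-K) * π.lam ^ (D1 + K) := by
        have := rp_pos hp0 (D1 + K)
        gcongr
        exact hcard π hS0
    _ = π.lam ^ D1 := by
        rw [← Real.rpow_add hp0]
        congr 1
        ring

/-- The same for one index, uniformly. -/
lemma domF_prob1 (hν : BLaw ν R s2) (hc : c.Ok)
    {Q : (π : Par) → ι π → (Tor c.d π.n → ℝ) → ℝ} {a b : ℝ} (hb : b < a)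
    (hcont : ∀ π, 0 < π.eta → ∀ i, Continuous (Q π i)) (hQ : DomF c ν ι Q a) (D1 : ℝ) :
    ∃ lam1 : ℝ, 0 < lam1 ∧ lam1 ≤ 1 ∧ ∀ π ∈ c.S ν lam1, ∀ i,
      ((Measure.pi fun _ : Tor c.d π.n => ν)
        {V | c.F ν π V ≤ 2 ∧ π.lam ^ b ≤ |Q π i V|}).toReal ≤ π.lam ^ D1 :=
  domA_prob1 hν hc hb hcont hQ D1

end Pool.Agent.BK3
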