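import Pool.Agent.BK3.Exch

/-! BK3 module ES: the Efron-Stein inequality for product measures.
`Var f ≤ (1/2) ∑_u E ∫ (f(V) - f(V^{u→t}))² dν(t)` for real continuous `f`, and the version for complex
`f` (add the real and imaginary parts). The tensorization of the variance is in
`Pool.Agent.BK.Poin` (`cc_sum`, `cc_single`, `cc_empty`, `cc_univ`; reuse or copy: only the assumption
`NiceLaw` there has to be replaced by `BLaw`, nothing else of it is used except in the last theorem);
for one variable `∫ f² - (∫ f)² = (1/2) ∫∫ (f(s) - f(t))²`, and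
`E ∫∫ (f(V^{u→s}) - f(V^{u→t}))² = E ∫ (f(V) - f(V^{u→t}))²` by `Ex_upd`. -/

open MeasureTheory Finset Matrix Pool.Agent.BK

noncomputable section

namespace Pool.Agent.BK3

variable {X : Type} [Fintype X] [DecidableEq X] {ν : Measure ℝ} {R s2 : ℝ}

/-- one variable -/
lemma es_one (hν : BLaw ν R s2) {g : ℝ → ℝ} (hg : Continuous g) :
    ∫ s, (∫ t, (g s - g t) ^ 2 ∂ν) ∂ν = 2 * ((∫ t, g t ^ 2 ∂ν) - (∫ t, g t ∂ν) ^ 2) := by
  have := hν.prob
  have hI1 : Integrable g ν := int_line hν hg
  have hI2 : Integrable (fun t => g t ^ 2) ν := int_line hν (by fun_prop)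
  have h1 : ∀ s, ∫ t, (g s - g t) ^ 2 ∂ν = g s ^ 2 - 2 * g s * (∫ t, g t ∂ν) + ∫ t, g t ^ 2 ∂ν := by
    intro s
    have e : ∀ t, (g s - g t) ^ 2 = g s ^ 2 - 2 * g s * g t + g t ^ 2 := fun t => by ring
    simp only [e]
    rw [integral_add (f := fun t => g s ^ 2 - 2 * g s * g t)
      ((integrable_const _).sub (hI1.const_mul _)) hI2,
      integral_sub (integrable_const _) (hI1.const_mul _), integral_const_mul]
    simp
  simp only [h1]
  rw [integral_add (f := fun s => g s ^ 2 - 2 * g s * (∫ t, g t ∂ν))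
      (hI2.sub ((hI1.const_mul 2).mul_const _)) (integrable_const _),
    integral_sub hI2 ((hI1.const_mul 2).mul_const _),
    integral_mul_const, integral_const_mul]
  simp
  ring

theorem es_real (hν : BLaw ν R s2) {f : (X → ℝ) → ℝ} (hf : Continuous f) :
    Ex ν (fun V => f V ^ 2) - Ex ν f ^ 2 ≤
      1 / 2 * Ex ν (fun V => ∑ u, ∫ t, (f V - f (Function.update V u t)) ^ 2 ∂ν) := by
  have := hν.prob
  have hL : MemLp f 2 (Measure.pi fun _ : X => ν) :=
    (memLp_two_iff_integrable_sq hf.aestronglyMeasurable).2 (int_cont hν (hf.pow 2))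
  have h0 := Poin.cc_sum ν hL Finset.univ
  rw [Poin.cc_univ, Poin.cc_empty ν hL] at h0
  change Ex ν (fun V => f V ^ 2) - Ex ν f ^ 2 ≤ _ at h0
  refine h0.trans ?_
  have hfu : ∀ u, Continuous fun p : (X → ℝ) × ℝ => (f p.1 - f (Function.update p.1 u p.2)) ^ 2 :=
    fun u => ((hf.comp continuous_fst).sub (hf.comp (by fun_prop))).pow 2
  have hs : Ex ν (fun V => ∑ u, ∫ t, (f V - f (Function.update V u t)) ^ 2 ∂ν) =
      ∑ u, Ex ν (fun V => ∫ t, (f V - f (Function.update V u t)) ^ 2 ∂ν) :=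
    integral_finsetSum _ fun u _ => int_cont hν (cont_int hν (hfu u))
  rw [hs, Finset.mul_sum]
  refine Finset.sum_le_sum fun u _ => ?_
  obtain ⟨e, hi⟩ := Poin.cc_single ν hL u hf
  rw [← Poin.cc_empty ν hL, e]
  refine le_of_eq ?_
  have h2 : Ex ν (fun V => ∫ t, (f V - f (Function.update V u t)) ^ 2 ∂ν) =
      Ex ν (fun V => 2 * ((∫ t, f (Function.update V u t) ^ 2 ∂ν) -
      (∫ t, f (Function.update V u t) ∂ν) ^ 2)) := by
    rw [Ex_upd hν (cont_int hν (hfu u)) u]
    congr 1
    funext V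
    simp only [Function.update_idem]
    exact es_one hν (g := fun t => f (Function.update V u t)) (hf.comp (by fun_prop))
  rw [h2]
  unfold Ex
  rw [integral_const_mul]
  ring

theorem es_cplx (hν : BLaw ν R s2) {f : (X → ℝ) → ℂ} (hf : Continuous f) :
    Ex ν (fun V => ‖f V‖ ^ 2) - ‖Ex ν f‖ ^ 2 ≤
      1 / 2 * Ex ν (fun V => ∑ u, ∫ t, ‖f V - f (Function.update V u t)‖ ^ 2 ∂ν) := by
  have := hν.prob
  have hre : Continuous fun V => (f V).re := Complex.continuous_re.comp hf
  have him : Continuous fun V => (f V).im := Complex.continuous_im.comp hf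
  have h1 := es_real hν hre
  have h2 := es_real hν him
  have n2 : ∀ z : ℂ, ‖z‖ ^ 2 = z.re ^ 2 + z.im ^ 2 := fun z => by
    rw [← Complex.normSq_eq_norm_sq, Complex.normSq_apply]
    ring
  have e1 : Ex ν (fun V => ‖f V‖ ^ 2) =
      Ex ν (fun V => (f V).re ^ 2) + Ex ν (fun V => (f V).im ^ 2) := by
    simp only [n2]
    exact integral_add (int_cont hν (hre.pow 2)) (int_cont hν (him.pow 2))
  have e2 : ‖Ex ν f‖ ^ 2 = Ex ν (fun V => (f V).re) ^ 2 + Ex ν (fun V => (f V).im) ^ 2 := by
    rw [n2]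
    congr 2
    · exact (integral_re (int_cont hν hf)).symm
    · exact (integral_im (int_cont hν hf)).symm
  have hfu : ∀ u, Continuous fun p : (X → ℝ) × ℝ =>
      ((f p.1).re - (f (Function.update p.1 u p.2)).re) ^ 2 :=
    fun u => ((hre.comp continuous_fst).sub (hre.comp (by fun_prop))).pow 2
  have hfu' : ∀ u, Continuous fun p : (X → ℝ) × ℝ =>
      ((f p.1).im - (f (Function.update p.1 u p.2)).im) ^ 2 :=
    fun u => ((him.comp continuous_fst).sub (him.comp (by fun_prop))).pow 2
  have e3 : Ex ν (fun V => ∑ u, ∫ t, ‖f V - f (Function.update V u t)‖ ^ 2 ∂ν) =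
      Ex ν (fun V => ∑ u, ∫ t, ((f V).re - (f (Function.update V u t)).re) ^ 2 ∂ν) +
      Ex ν (fun V => ∑ u, ∫ t, ((f V).im - (f (Function.update V u t)).im) ^ 2 ∂ν) := by
    have h3 : ∀ V : X → ℝ, ∑ u, ∫ t, ‖f V - f (Function.update V u t)‖ ^ 2 ∂ν =
        (∑ u, ∫ t, ((f V).re - (f (Function.update V u t)).re) ^ 2 ∂ν) +
        ∑ u, ∫ t, ((f V).im - (f (Function.update V u t)).im) ^ 2 ∂ν := by
      intro V
      rw [← Finset.sum_add_distrib]
      refine Finset.sum_congr rfl (fun u _ => ?_)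
      simp only [n2, Complex.sub_re, Complex.sub_im]
      exact integral_add (int_line hν ((continuous_const.sub (hre.comp (by fun_prop))).pow 2))
        (int_line hν ((continuous_const.sub (him.comp (by fun_prop))).pow 2))
    simp only [h3]
    exact integral_add
      (int_cont hν (continuous_finsetSum _ fun u _ => cont_int hν (hfu u)))
      (int_cont hν (continuous_finsetSum _ fun u _ => cont_int hν (hfu' u)))
  rw [e1, e2, e3]
  linarith

end Pool.Agent.BK3
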