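import Pool.Agent.BK3.One

/-! BK3 module FD: change of the functional `FFg` when the potential is changed at one site `u`, provided
`2 R lam |G_uu| ≤ 1/2`. `A = Gv H lam z V`, `A' = Gv H lam z (update V u t)`; `|A_wy - A'_wy| ≤ ee_wyu`
(`one_sub_le`).
`fd1`: `| |A_wy|⁴ - |A'_wy|⁴ | ≤ 4 (|A_wy| + ee)³ ee`, sum over `y`, divide by `b4`.
`fd2`: triangle inequality.
`fd3`: `A'_wx = A_wx - c A_ux`, `c = lam (t - V_u) A'_wu` (`one_id'`), `|c| ≤ 4 R lam |A_wu|` (`one_le`), so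
`lm' - lm = -2 Re(c B_uw) + |c|² lm_{u,y}`.
`fd_main`: `|a^p - b^p| ≤ p (a + δ)^(p-1) δ` for `a, b ≥ 0`, `|a - b| ≤ δ`. -/

open MeasureTheory Finset Matrix Pool.Agent.BK

noncomputable section

namespace Pool.Agent.BK3

variable {X : Type} [Fintype X] [DecidableEq X] {H : Matrix X X ℂ} {R lam : ℝ} {z : ℂ}

/-- Change of a power. -/
lemma fd_pow {a b δ : ℝ} (ha : 0 ≤ a) (hb : 0 ≤ b) (h : |a - b| ≤ δ) (p : ℕ) :
    |a ^ p - b ^ p| ≤ p * (a + δ) ^ (p - 1) * δ := by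
  have h0 : 0 ≤ δ := (abs_nonneg _).trans h
  have h1 : b ≤ a + δ := by
    have := neg_le_of_abs_le h
    linarith
  have h2 := abs_pow_sub_pow_le a b p
  rw [abs_of_nonneg ha, abs_of_nonneg hb] at h2
  have h3 : max a b ^ (p - 1) ≤ (a + δ) ^ (p - 1) :=
    pow_le_pow_left₀ (le_max_of_le_left ha) (max_le (by linarith) h1) _
  refine h2.trans ?_
  calc |a - b| * p * max a b ^ (p - 1) ≤ δ * p * (a + δ) ^ (p - 1) := by gcongr
    _ = p * (a + δ) ^ (p - 1) * δ := by ring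

private lemma fd_nrm (hH : RS H) (hz : z.im ≠ 0) (hR : 0 ≤ R) (hlam : 0 ≤ lam) {V : X → ℝ}
    (hV : V ∈ Box X R) {u : X} {t : ℝ} (ht : t ∈ Set.Icc (-R) R)
    (hs : 2 * R * lam * ‖Gv H lam z V u u‖ ≤ 1 / 2) (x y : X) :
    |‖Gv H lam z V x y‖ - ‖Gv H lam z (Function.update V u t) x y‖| ≤
      ee R lam (Gv H lam z V) x y u :=
  (abs_norm_sub_norm_le _ _).trans (one_sub_le hH hz hR hlam hV ht hs x y)

lemma fd1 (hH : RS H) (hz : z.im ≠ 0) (hR : 0 ≤ R) (hlam : 0 ≤ lam) {V : X → ℝ}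
    (hV : V ∈ Box X R) {u : X} {t : ℝ} (ht : t ∈ Set.Icc (-R) R)
    (hs : 2 * R * lam * ‖Gv H lam z V u u‖ ≤ 1 / 2) {b4 : ℝ} (hb : 0 < b4) (w : X) :
    |G4 (Gv H lam z V) w / b4 - G4 (Gv H lam z (Function.update V u t)) w / b4| ≤
      D1 R lam b4 (Gv H lam z V) w u := by
  unfold D1 G4
  rw [← sub_div, abs_div, abs_of_pos hb, ← Finset.sum_sub_distrib]
  refine div_le_div_of_nonneg_right ?_ hb.le
  refine (Finset.abs_sum_le_sum_abs _ _).trans (Finset.sum_le_sum fun y _ => ?_)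
  have h1 := fd_pow (norm_nonneg _) (norm_nonneg _) (fd_nrm hH hz hR hlam hV ht hs w y) 4
  norm_num at h1
  exact h1

lemma fd2 (hH : RS H) (hz : z.im ≠ 0) (hR : 0 ≤ R) (hlam : 0 ≤ lam) {V : X → ℝ}
    (hV : V ∈ Box X R) {u : X} {t : ℝ} (ht : t ∈ Set.Icc (-R) R)
    (hs : 2 * R * lam * ‖Gv H lam z V u u‖ ≤ 1 / 2) {b2 : ℝ} (hb : 0 < b2) (g : ℂ) (x : X) :
    |‖Gv H lam z V x x - g‖ / b2 - ‖Gv H lam z (Function.update V u t) x x - g‖ / b2| ≤
      D2 R lam b2 (Gv H lam z V) x u := by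
  unfold D2
  rw [← sub_div, abs_div, abs_of_pos hb]
  refine div_le_div_of_nonneg_right ?_ hb.le
  refine (abs_norm_sub_norm_le _ _).trans ?_
  rw [sub_sub_sub_cancel_right]
  exact one_sub_le hH hz hR hlam hV ht hs x x

lemma fd3 (hH : RS H) (hz : z.im ≠ 0) (hR : 0 ≤ R) (hlam : 0 ≤ lam) {V : X → ℝ}
    (hV : V ∈ Box X R) {u : X} {t : ℝ} (ht : t ∈ Set.Icc (-R) R)
    (hs : 2 * R * lam * ‖Gv H lam z V u u‖ ≤ 1 / 2) {b3 : ℝ} (hb : 0 < b3) {φ : X → X → ℝ}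
    (hφ : Wgt φ) (w y : X) :
    |lm φ (Gv H lam z V) w y / b3 - lm φ (Gv H lam z (Function.update V u t)) w y / b3| ≤
      D3 φ R lam b3 (Gv H lam z V) w y u := by
  unfold D3
  rw [← sub_div, abs_div, abs_of_pos hb]
  refine div_le_div_of_nonneg_right ?_ hb.le
  set A := Gv H lam z V with hA
  set A' := Gv H lam z (Function.update V u t) with hA'
  set c : ℂ := ((lam * (t - V u) : ℝ) : ℂ) * A' w u with hc
  have hid : ∀ x, A' w x = A w x - c * A u x := by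
    intro x
    have h1 := one_id' (lam := lam) hH hz V u t w x
    rw [← hA, ← hA'] at h1
    rw [hc, ← h1]
    ring
  have hcn : ‖c‖ ≤ 4 * R * lam * ‖A w u‖ := by
    rw [hc, norm_mul, Complex.norm_real, Real.norm_eq_abs, abs_mul, abs_of_nonneg hlam]
    have h1 : |t - V u| ≤ 2 * R := by
      have h2 := hV u
      rw [abs_le]
      constructor
      · linarith [ht.1, h2.2]
      · linarith [ht.2, h2.1]
    have h2 := one_le hH hz hR hlam hV ht hs w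
    calc lam * |t - V u| * ‖A' w u‖ ≤ lam * (2 * R) * (2 * ‖A w u‖) := by gcongr
      _ = 4 * R * lam * ‖A w u‖ := by ring
  have hdiff : lm φ A w y - lm φ A' w y =
      2 * (c * Bm φ A y u w).re - ‖c‖ ^ 2 * lm φ A u y := by
    unfold lm Bm
    rw [Finset.mul_sum, Finset.mul_sum, Complex.re_sum, Finset.mul_sum, ← Finset.sum_sub_distrib,
      ← Finset.sum_sub_distrib]
    refine Finset.sum_congr rfl fun x _ => ?_
    rw [hid x]
    have h1 : ‖A w x - c * A u x‖ ^ 2 =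
        ‖A w x‖ ^ 2 - 2 * (c * (A u x * starRingEnd ℂ (A w x))).re + ‖c‖ ^ 2 * ‖A u x‖ ^ 2 := by
      rw [← Complex.normSq_eq_norm_sq, ← Complex.normSq_eq_norm_sq, ← Complex.normSq_eq_norm_sq,
        ← Complex.normSq_eq_norm_sq]
      simp only [Complex.normSq_apply, Complex.sub_re, Complex.sub_im, Complex.mul_re,
        Complex.mul_im, Complex.conj_re, Complex.conj_im]
      ring
    rw [h1]
    have h2 : c * (A u x * (φ y x : ℂ) * starRingEnd ℂ (A w x)) =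
        (φ y x : ℂ) * (c * (A u x * starRingEnd ℂ (A w x))) := by ring
    rw [h2, Complex.re_ofReal_mul]
    ring
  rw [hdiff]
  have hlm : 0 ≤ lm φ A u y := Finset.sum_nonneg fun x _ => mul_nonneg (hφ.pos y x).le (by positivity)
  have h1 : |2 * (c * Bm φ A y u w).re| ≤ 2 * (‖c‖ * ‖Bm φ A y u w‖) := by
    rw [abs_mul, abs_two, ← norm_mul]
    exact mul_le_mul_of_nonneg_left (Complex.abs_re_le_norm _) zero_le_two
  have h2 : |‖c‖ ^ 2 * lm φ A u y| = ‖c‖ ^ 2 * lm φ A u y := abs_of_nonneg (by positivity)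
  calc |2 * (c * Bm φ A y u w).re - ‖c‖ ^ 2 * lm φ A u y|
      ≤ |2 * (c * Bm φ A y u w).re| + |‖c‖ ^ 2 * lm φ A u y| := abs_sub _ _
    _ ≤ 2 * (‖c‖ * ‖Bm φ A y u w‖) + ‖c‖ ^ 2 * lm φ A u y := by rw [h2]; gcongr
    _ ≤ 2 * ((4 * R * lam * ‖A w u‖) * ‖Bm φ A y u w‖) +
        (4 * R * lam * ‖A w u‖) ^ 2 * lm φ A u y := by gcongr
    _ = _ := by ring

theorem fd_main (hH : RS H) (hz : z.im ≠ 0) (hR : 0 ≤ R) (hlam : 0 ≤ lam) {V : X → ℝ}
    (hV : V ∈ Box X R) {u : X} {t : ℝ} (ht : t ∈ Set.Icc (-R) R)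
    (hs : 2 * R * lam * ‖Gv H lam z V u u‖ ≤ 1 / 2) {b4 b2 b3 : ℝ} (h4 : 0 < b4) (h2 : 0 < b2)
    (h3 : 0 < b3) {φ : X → X → ℝ} (hφ : Wgt φ) (g : ℂ) (p : ℕ) :
    |FFg φ b4 b2 b3 g p (Gv H lam z V) - FFg φ b4 b2 b3 g p (Gv H lam z (Function.update V u t))| ≤
      DF φ R lam b4 b2 b3 g p (Gv H lam z V) u := by
  have n4 : ∀ (A : Matrix X X ℂ) w, 0 ≤ G4 A w / b4 := fun A w => by
    unfold G4
    positivity
  have n3 : ∀ (A : Matrix X X ℂ) w y, 0 ≤ lm φ A w y / b3 := fun A w y =>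
    div_nonneg (Finset.sum_nonneg fun x _ => mul_nonneg (hφ.pos y x).le (by positivity)) h3.le
  have n2 : ∀ (A : Matrix X X ℂ) x, 0 ≤ ‖A x x - g‖ / b2 := fun A x => by positivity
  unfold FFg DF
  have e : ∀ a b c a' b' c' : ℝ, (a + b + c) - (a' + b' + c') = (a - a') + (b - b') + (c - c') := by
    intros
    ring
  rw [e]
  refine (abs_add_three _ _ _).trans (add_le_add (add_le_add ?_ ?_) ?_)
  · rw [← Finset.sum_sub_distrib]
    refine (Finset.abs_sum_le_sum_abs _ _).trans (Finset.sum_le_sum fun w _ => ?_)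
    exact fd_pow (n4 _ _) (n4 _ _) (fd1 hH hz hR hlam hV ht hs h4 w) p
  · rw [← Finset.sum_sub_distrib]
    refine (Finset.abs_sum_le_sum_abs _ _).trans (Finset.sum_le_sum fun x _ => ?_)
    exact fd_pow (n2 _ _) (n2 _ _) (fd2 hH hz hR hlam hV ht hs h2 g x) p
  · rw [← Finset.sum_sub_distrib]
    refine (Finset.abs_sum_le_sum_abs _ _).trans (Finset.sum_le_sum fun w _ => ?_)
    rw [← Finset.sum_sub_distrib]
    refine (Finset.abs_sum_le_sum_abs _ _).trans (Finset.sum_le_sum fun y _ => ?_)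
    exact fd_pow (n3 _ _ _) (n3 _ _ _) (fd3 hH hz hR hlam hV ht hs h3 hφ w y) p

end Pool.Agent.BK3
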