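import Pool.Agent.BK3.Sm
import Pool.Agent.BK3.DB

/-! BK3 module FamQ: one family of the functional. `card ι ≤ lam^(-86 d)`, `10000 d ≤ e p`.
`famq`: if `∑ T_i^p ≤ K` then `p 2^p (∑ T_i^(p-1) + card ι · d0^(p-1)) ≤ lam^(-e/100)` with `d0 = lam^(e/2)`:
`sum_pow_le`: `∑ T^(p-1) ≤ (card ι)^(1/p) K ≤ K lam^(-86 d/p)`, `86 d/p ≤ 0.0086 e`, and
`card ι · lam^(e(p-1)/2) ≤ 1` (`e (p-1)/2 ≥ 86 d`, as `e ≤ 1/100`). The constants `p, K` are absorbed by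
`lam^(0.0014 e)`, so the threshold depends on `p, K, e, d` only.
`famn`: `mink` together with `famq`. -/

open MeasureTheory Finset Matrix Pool.Agent.BK

noncomputable section

namespace Pool.Agent.BK3

theorem famq {d p : ℕ} {e : ℝ} (hd : 3 ≤ d) (he : 0 < e) (he1 : e ≤ 1 / 100)
    (hp : 10000 * (d : ℝ) ≤ e * p) (K : ℝ) (hK : 1 ≤ K) :
    ∃ lam1 : ℝ, 0 < lam1 ∧ lam1 ≤ 1 ∧ ∀ lam : ℝ, 0 < lam → lam ≤ lam1 → ∀ (ι : Type) [Fintype ι],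
      (Fintype.card ι : ℝ) ≤ lam ^ (-(86 * (d : ℝ))) → ∀ T : ι → ℝ, (∀ i, 0 ≤ T i) →
      ∑ i, T i ^ p ≤ K →
      p * 2 ^ p * (∑ i, T i ^ (p - 1) + Fintype.card ι * (lam ^ (e / 2)) ^ (p - 1)) ≤
        lam ^ (-(e / 100)) := by
  have hd' : (3 : ℝ) ≤ d := by exact_mod_cast hd
  have hp0 : (0 : ℝ) < p := by
    by_contra h
    have h1 : (p : ℝ) = 0 := le_antisymm (not_lt.1 h) (Nat.cast_nonneg _)
    rw [h1, mul_zero] at hp
    linarith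
  have hp1 : 1 ≤ p := by
    have : 0 < p := by exact_mod_cast hp0
    omega
  obtain ⟨l, l0, l1, hl⟩ := sm_neg ((p : ℝ) * 2 ^ p * (K + 1)) (show 0 < 14 / 10000 * e by positivity)
  refine ⟨l, l0, l1, fun lam h0 h1 ι _ hι T hT hK' => ?_⟩
  have hlam1 : lam ≤ 1 := h1.trans l1
  have h2 := hl lam h0 h1
  have hcard : (0 : ℝ) ≤ Fintype.card ι := Nat.cast_nonneg _
  have h3 : ∑ i, T i ^ (p - 1) ≤ lam ^ (-(86 / 10000 * e)) * K := by
    refine (sum_pow_le hp1 T hT hK hK').trans (mul_le_mul_of_nonneg_right ?_ (by linarith))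
    calc (Fintype.card ι : ℝ) ^ (1 / (p : ℝ)) ≤ (lam ^ (-(86 * (d : ℝ)))) ^ (1 / (p : ℝ)) :=
          Real.rpow_le_rpow hcard hι (by positivity)
      _ = lam ^ (-(86 * (d : ℝ)) * (1 / (p : ℝ))) := (Real.rpow_mul h0.le _ _).symm
      _ ≤ lam ^ (-(86 / 10000 * e)) := by
          refine rp_anti h0 hlam1 ?_
          have : 86 * (d : ℝ) * (1 / p) ≤ 86 / 10000 * e := by
            rw [mul_one_div, div_le_iff₀ hp0]
            nlinarith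
          linarith
  have h4 : (Fintype.card ι : ℝ) * (lam ^ (e / 2)) ^ (p - 1) ≤ 1 := by
    rw [rp_pow h0]
    have hc : ((p - 1 : ℕ) : ℝ) = (p : ℝ) - 1 := by
      rw [Nat.cast_sub hp1, Nat.cast_one]
    rw [hc]
    calc (Fintype.card ι : ℝ) * lam ^ (((p : ℝ) - 1) * (e / 2))
        ≤ lam ^ (-(86 * (d : ℝ))) * lam ^ (((p : ℝ) - 1) * (e / 2)) :=
          mul_le_mul_of_nonneg_right hι (rp_pos h0 _).le
      _ = lam ^ (-(86 * (d : ℝ)) + ((p : ℝ) - 1) * (e / 2)) := (Real.rpow_add h0 _ _).symm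
      _ ≤ lam ^ (0 : ℝ) := by
          refine rp_anti h0 hlam1 ?_
          nlinarith
      _ = 1 := Real.rpow_zero _
  have h5 : (1 : ℝ) ≤ lam ^ (-(86 / 10000 * e)) := by
    rw [← Real.rpow_zero lam]
    exact rp_anti h0 hlam1 (by nlinarith)
  calc (p : ℝ) * 2 ^ p * (∑ i, T i ^ (p - 1) + Fintype.card ι * (lam ^ (e / 2)) ^ (p - 1))
      ≤ p * 2 ^ p * (lam ^ (-(86 / 10000 * e)) * K + 1) := by gcongr
    _ ≤ p * 2 ^ p * (lam ^ (-(86 / 10000 * e)) * K + lam ^ (-(86 / 10000 * e))) := by gcongr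
    _ = (p * 2 ^ p * (K + 1)) * lam ^ (-(86 / 10000 * e)) := by ring
    _ ≤ lam ^ (-(14 / 10000 * e)) * lam ^ (-(86 / 10000 * e)) :=
        mul_le_mul_of_nonneg_right h2 (rp_pos h0 _).le
    _ = lam ^ (-(e / 100)) := by
        rw [← Real.rpow_add h0]
        congr 1
        ring

theorem famn {d p : ℕ} {e : ℝ} (hd : 3 ≤ d) (he : 0 < e) (he1 : e ≤ 1 / 100)
    (hp : 10000 * (d : ℝ) ≤ e * p) (K : ℝ) (hK : 1 ≤ K) :
    ∃ lam1 : ℝ, 0 < lam1 ∧ lam1 ≤ 1 ∧ ∀ lam : ℝ, 0 < lam → lam ≤ lam1 →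
      ∀ (X ι : Type) [Fintype X] [Fintype ι],
      (Fintype.card ι : ℝ) ≤ lam ^ (-(86 * (d : ℝ))) → ∀ T : ι → ℝ, (∀ i, 0 ≤ T i) →
      ∑ i, T i ^ p ≤ K → ∀ D : ι → X → ℝ, (∀ i u, 0 ≤ D i u) → (∀ i u, D i u ≤ lam ^ (e / 2)) →
      (∀ u, ∑ i, p * (T i + D i u) ^ (p - 1) * D i u ≤ lam ^ (-(e / 100)) * lam ^ (e / 2)) ∧
      ∀ (ρ : X → ℝ) (L : ℝ), (∀ u, 0 ≤ ρ u) → 0 ≤ L → (∀ i, ∑ u, ρ u * D i u ^ 2 ≤ L ^ 2) →
        ∑ u, ρ u * (∑ i, p * (T i + D i u) ^ (p - 1) * D i u) ^ 2 ≤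
          (lam ^ (-(e / 100)) * L) ^ 2 := by
  classical
  have hd' : (3 : ℝ) ≤ d := by exact_mod_cast hd
  have hp1 : 1 ≤ p := by
    by_contra h
    have h1 : p = 0 := by omega
    rw [h1, Nat.cast_zero, mul_zero] at hp
    linarith
  obtain ⟨l, l0, l1, hl⟩ := famq hd he he1 hp K hK
  refine ⟨l, l0, l1, fun lam h0 h1 X ι _ _ hι T hT hK' D hD hD1 => ?_⟩
  have h2 := hl lam h0 h1 ι hι T hT hK'
  set S : ℝ := p * 2 ^ p * (∑ i, T i ^ (p - 1) + Fintype.card ι * (lam ^ (e / 2)) ^ (p - 1)) with hS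
  have hd0 : 0 ≤ lam ^ (e / 2) := (rp_pos h0 _).le
  have hS0 : 0 ≤ S := by
    have : 0 ≤ ∑ i, T i ^ (p - 1) := Finset.sum_nonneg fun i _ => pow_nonneg (hT i) _
    positivity
  constructor
  · intro u
    have h3 := mink (X := Unit) hp1 T hT (fun i _ => D i u) (fun i _ => hD i u) (fun _ => 1)
      (fun _ => zero_le_one) hd0 hd0 (fun i _ => hD1 i u) (fun i => by
        simp only [Finset.univ_unique, Finset.sum_singleton, one_mul]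
        exact pow_le_pow_left₀ (hD i u) (hD1 i u) 2)
    simp only [Finset.univ_unique, Finset.sum_singleton, one_mul] at h3
    rw [← hS] at h3
    have h4 := le_of_sq_le_sq h3 (mul_nonneg hS0 hd0)
    exact h4.trans (mul_le_mul_of_nonneg_right h2 hd0)
  · intro ρ L hρ hL hD2
    have h3 := mink hp1 T hT D hD ρ hρ hd0 hL hD1 hD2
    rw [← hS] at h3
    refine h3.trans (pow_le_pow_left₀ (mul_nonneg hS0 hL) ?_ 2)
    exact mul_le_mul_of_nonneg_right h2 hL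

end Pool.Agent.BK3
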