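import Pool.Agent.BK3.DFr
import Pool.Agent.BK3.FamQ
import Pool.Agent.BK3.FD

/-! BK3 module Nest: the cutoffs `chi ℓ, chi (ℓ+1)` form a pair `CutP` with `Dχ = c.D`, and the local square
norm of `c.D` is at most `dl`. On the support of `chi ℓ` the three sums in `F` are `< 3·2^ℓ`; `famn` for the
three families (index types `Tor`, `Tor`, `Tor × Tor`; cards `≤ lam^(-86 d)`), with `dfr1, dfr2, dfr3`:
`nest_le`: `c.D ≤ 3 lam^(-e/100) lam^(e/2) ≤ 1`.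
`nest_loc`: `(∑_u φ_yu D_u²)^(1/2) ≤ lam^(-e/100) (lam^(-e/8-2t) + lam^(e-t) + lam^(49e)) ≤ lam^(-e/8-e/50)` (use
`(a+b+c)² ≤ 3(a²+b²+c²)`; the local sums of `D2, D3` are at most the global ones because `φ ≤ 1`).
`nest`: `n1`: if `chi ℓ (V^t) ≠ 0`, apply `fd_main` and `nest_le` at `V^t` (`2 R lam |G_uu| ≤ 1/2` by `regc`; the
changed potential is in the box and `update (update V x t) x (V x) = V`): `F(V) ≤ 3·2^ℓ + 1 ≤ 2·2^(ℓ+1)`, so
`chi (ℓ+1) V = 1` (`chi_one`). `n2`: if one of `chi ℓ V`, `chi ℓ (V^t)` is not zero then `F(V) ≤ 4·2^ℓ` as before, so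
`chi (ℓ+1) V = 1` and `V` has region data (level `ℓ+1`), `|chi ℓ V - chi ℓ V^t| ≤ |F - F^t|/2^ℓ ≤ c.D` (`thc_lip`,
`fd_main` at `V`). -/

open MeasureTheory Finset Matrix Pool.Agent.BK

noncomputable section

namespace Pool.Agent.BK3

variable {ν : Measure ℝ} {R s2 : ℝ}

private lemma nest_ee_nonneg {X : Type} {R lam : ℝ} (hR : 0 ≤ R) (hlam : 0 ≤ lam)
    (A : Matrix X X ℂ) (w y u : X) : 0 ≤ ee R lam A w y u := by
  unfold ee
  positivity

private lemma nest_G4_nonneg {X : Type} [Fintype X] (A : Matrix X X ℂ) (w : X) : 0 ≤ G4 A w :=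
  Finset.sum_nonneg fun _ _ => by positivity

private lemma nest_lm_nonneg {X : Type} [Fintype X] {φ : X → X → ℝ} (hφ : Wgt φ)
    (A : Matrix X X ℂ) (w y : X) : 0 ≤ lm φ A w y :=
  Finset.sum_nonneg fun x _ => mul_nonneg (hφ.pos y x).le (by positivity)

private lemma nest_D1_nonneg {X : Type} [Fintype X] {R lam b : ℝ} (hR : 0 ≤ R) (hlam : 0 ≤ lam)
    (hb : 0 < b) (A : Matrix X X ℂ) (w u : X) : 0 ≤ D1 R lam b A w u := by
  unfold D1
  refine div_nonneg (Finset.sum_nonneg fun y _ => ?_) hb.le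
  have := nest_ee_nonneg hR hlam A w y u
  positivity

private lemma nest_D2_nonneg {X : Type} {R lam b : ℝ} (hR : 0 ≤ R) (hlam : 0 ≤ lam)
    (hb : 0 < b) (A : Matrix X X ℂ) (w u : X) : 0 ≤ D2 R lam b A w u :=
  div_nonneg (nest_ee_nonneg hR hlam A w w u) hb.le

private lemma nest_D3_nonneg {X : Type} [Fintype X] {φ : X → X → ℝ} (hφ : Wgt φ) {R lam b : ℝ}
    (hR : 0 ≤ R) (hlam : 0 ≤ lam)
    (hb : 0 < b) (A : Matrix X X ℂ) (w y u : X) : 0 ≤ D3 φ R lam b A w y u := by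
  unfold D3
  have := nest_lm_nonneg hφ A u y
  positivity

private lemma nest_fam_nonneg {ι : Type} [Fintype ι] (p : ℕ) {T D : ι → ℝ} (hT : ∀ i, 0 ≤ T i)
    (hD : ∀ i, 0 ≤ D i) : 0 ≤ ∑ i, p * (T i + D i) ^ (p - 1) * D i :=
  Finset.sum_nonneg fun i _ => by
    have := hT i
    have := hD i
    positivity

lemma nest_b (c : Cx) {π : Par} (h0 : 0 < π.lam) :
    0 < c.b4 π.lam ∧ 0 < c.b2 π.lam ∧ 0 < c.b3 π.lam ∧ 0 < c.rw π.lam :=
  ⟨rp_pos h0 _, rp_pos h0 _, rp_pos h0 _, rp_pos h0 _⟩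

lemma D_nonneg (c : Cx) {π : Par} (h0 : 0 < π.lam) (hR : 0 ≤ R) (u : Tor c.d π.n)
    (V : Tor c.d π.n → ℝ) : 0 ≤ c.D ν R π u V := by
  obtain ⟨h4, h2, h3, hr⟩ := nest_b c h0
  have hφ := wgt_ph2 (d := c.d) (n := π.n) hr
  unfold Cx.D DF
  refine add_nonneg (add_nonneg ?_ ?_) (Finset.sum_nonneg fun w _ => ?_)
  · exact nest_fam_nonneg c.p (fun w => div_nonneg (nest_G4_nonneg _ w) h4.le)
      (fun w => nest_D1_nonneg hR h0.le h4 _ w u)
  · exact nest_fam_nonneg c.p (fun w => div_nonneg (norm_nonneg _) h2.le)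
      (fun w => nest_D2_nonneg hR h0.le h2 _ w u)
  · exact nest_fam_nonneg c.p (fun y => div_nonneg (nest_lm_nonneg hφ _ w y) h3.le)
      (fun y => nest_D3_nonneg hφ hR h0.le h3 _ w y u)

lemma continuous_D (c : Cx) (ν : Measure ℝ) (R : ℝ) (π : Par) (h : 0 < π.eta) (u : Tor c.d π.n) :
    Continuous (c.D ν R π u) := by
  have hG : ∀ x y, Continuous fun V : Tor c.d π.n → ℝ => GG c.d π.n π.lam π.z V x y := fun x y =>
    continuous_Gv_xy (RS_H0 c.d π.n) π.lam (z := π.z) h.ne' x y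
  have hee : ∀ w y u, Continuous fun V : Tor c.d π.n → ℝ =>
      ee R π.lam (GG c.d π.n π.lam π.z V) w y u := fun w y u => by
    unfold ee
    exact (continuous_const.mul (hG w u).norm).mul (hG u y).norm
  have hG4 : ∀ w, Continuous fun V : Tor c.d π.n → ℝ => G4 (GG c.d π.n π.lam π.z V) w :=
    fun w => continuous_finsetSum _ fun y _ => (hG w y).norm.pow 4
  have hlm : ∀ w y, Continuous fun V : Tor c.d π.n → ℝ =>
      lm (ph2 (c.rw π.lam)) (GG c.d π.n π.lam π.z V) w y :=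
    fun w y => continuous_finsetSum _ fun x _ => continuous_const.mul ((hG w x).norm.pow 2)
  have hBm : ∀ y u w, Continuous fun V : Tor c.d π.n → ℝ =>
      Bm (ph2 (c.rw π.lam)) (GG c.d π.n π.lam π.z V) y u w :=
    fun y u w => continuous_finsetSum _ fun x _ =>
      ((hG u x).mul continuous_const).mul (Complex.continuous_conj.comp (hG w x))
  have hD1 : ∀ w u, Continuous fun V : Tor c.d π.n → ℝ =>
      D1 R π.lam (c.b4 π.lam) (GG c.d π.n π.lam π.z V) w u := fun w u => by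
    unfold D1
    exact (continuous_finsetSum _ fun y _ => (continuous_const.mul
      (((hG w y).norm.add (hee w y u)).pow 3)).mul (hee w y u)).div_const _
  have hD2 : ∀ w u, Continuous fun V : Tor c.d π.n → ℝ =>
      D2 R π.lam (c.b2 π.lam) (GG c.d π.n π.lam π.z V) w u := fun w u =>
    (hee w w u).div_const _
  have hD3 : ∀ w y u, Continuous fun V : Tor c.d π.n → ℝ =>
      D3 (ph2 (c.rw π.lam)) R π.lam (c.b3 π.lam) (GG c.d π.n π.lam π.z V) w y u := fun w y u => by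
    unfold D3
    exact (((continuous_const.mul (hG w u).norm).mul (hBm y u w).norm).add
      ((continuous_const.mul ((hG w u).norm.pow 2)).mul (hlm u y))).div_const _
  unfold Cx.D DF
  refine ((continuous_finsetSum _ fun w _ => ?_).add (continuous_finsetSum _ fun w _ => ?_)).add
    (continuous_finsetSum _ fun w _ => continuous_finsetSum _ fun y _ => ?_)
  · exact (continuous_const.mul ((((hG4 w).div_const _).add (hD1 w u)).pow _)).mul (hD1 w u)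
  · exact (continuous_const.mul (((((hG w w).sub continuous_const).norm.div_const _).add
      (hD2 w u)).pow _)).mul (hD2 w u)
  · exact (continuous_const.mul ((((hlm w y).div_const _).add (hD3 w y u)).pow _)).mul (hD3 w y u)

lemma nest_card (c : Cx) {lam1 : ℝ} {π : Par} (hπ : π ∈ c.PT lam1) (h1 : π.lam ≤ 1) :
    (Fintype.card (Tor c.d π.n) : ℝ) ≤ π.lam ^ (-(86 * (c.d : ℝ))) ∧
    (Fintype.card (Tor c.d π.n × Tor c.d π.n) : ℝ) ≤ π.lam ^ (-(86 * (c.d : ℝ))) := by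
  have h0 : 0 < π.lam := hπ.1
  have hn : 2 * (π.n : ℝ) + 1 ≤ π.lam ^ (-(43 : ℝ)) := hπ.2.2.2.1
  have hc : (Fintype.card (Tor c.d π.n) : ℝ) = (2 * (π.n : ℝ) + 1) ^ c.d := by
    have h2 : Fintype.card (Tor c.d π.n) = (2 * π.n + 1) ^ c.d := by
      rw [Fintype.card_fun, Fintype.card_fin, ZMod.card]
    rw [h2]
    push_cast
    ring
  have h3 : (Fintype.card (Tor c.d π.n) : ℝ) ≤ π.lam ^ (-(43 * (c.d : ℝ))) := by
    rw [hc]
    have hn0 : (0 : ℝ) ≤ 2 * (π.n : ℝ) + 1 := by positivity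
    calc (2 * (π.n : ℝ) + 1) ^ c.d ≤ (π.lam ^ (-(43 : ℝ))) ^ c.d := pow_le_pow_left₀ hn0 hn _
      _ = _ := by
          rw [rp_pow h0]
          congr 1
          ring
  constructor
  · refine h3.trans (rp_anti h0 h1 ?_)
    have : (0 : ℝ) ≤ c.d := Nat.cast_nonneg _
    linarith
  · rw [Fintype.card_prod]
    push_cast
    calc (Fintype.card (Tor c.d π.n) : ℝ) * (Fintype.card (Tor c.d π.n) : ℝ)
        ≤ π.lam ^ (-(43 * (c.d : ℝ))) * π.lam ^ (-(43 * (c.d : ℝ))) := by gcongr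
      _ = _ := by
          rw [← Real.rpow_add h0]
          congr 1
          ring

private lemma nest_e (c : Cx) (hc : c.Ok) : c.e ≤ 1 / 100 := by
  have := hc.room
  have := hc.A2
  have := hc.y0
  linarith

private lemma nest_aux (hν : BLaw ν R s2) (c : Cx) (hc : c.Ok) (ℓ : ℕ) :
    ∃ lam1 : ℝ, 0 < lam1 ∧ lam1 ≤ 1 ∧ ∀ π ∈ c.S ν lam1, ∀ V : Tor c.d π.n → ℝ, c.chi ν ℓ π V ≠ 0 →
      (∀ u, c.D ν R π u V ≤ 3 * (π.lam ^ (-(c.e / 100)) * π.lam ^ (c.e / 2))) ∧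
      (∀ y, ∑ u, ph2 (c.rw π.lam) y u * c.D ν R π u V ^ 2 ≤
        3 * ((π.lam ^ (-(c.e / 100)) * π.lam ^ (-(c.e / 8) - 2 * c.t)) ^ 2 +
          (π.lam ^ (-(c.e / 100)) * π.lam ^ (c.e - c.t)) ^ 2 +
          (π.lam ^ (-(c.e / 100)) * π.lam ^ (49 * c.e)) ^ 2)) := by
  have hK : (1 : ℝ) ≤ 3 * 2 ^ ℓ := by
    have : (1 : ℝ) ≤ 2 ^ ℓ := one_le_pow₀ (by norm_num)
    linarith
  have hR : (0 : ℝ) ≤ R := by linarith [hν.R_ge]
  obtain ⟨l0, hl0, hl0', hfam⟩ := famn hc.d3 hc.e0 (nest_e c hc) hc.pp (3 * 2 ^ ℓ) hK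
  obtain ⟨l1, hl1, hl1', hd1⟩ := dfr1 hν c hc ℓ
  obtain ⟨l2, hl2, hl2', hd2⟩ := dfr2 hν c hc ℓ
  obtain ⟨l3, hl3, hl3', hd3⟩ := dfr3 hν c hc ℓ
  refine ⟨min (min l0 l1) (min l2 l3), lt_min (lt_min hl0 hl1) (lt_min hl2 hl3),
    ((min_le_left _ _).trans (min_le_left _ _)).trans hl0', fun π hπ V hχ => ?_⟩
  have hS0 := c.S_mono ν ((min_le_left _ _).trans (min_le_left _ _)) hπ
  have hS1 := c.S_mono ν ((min_le_left _ _).trans (min_le_right _ _)) hπ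
  have hS2 := c.S_mono ν ((min_le_right _ _).trans (min_le_left _ _)) hπ
  have hS3 := c.S_mono ν ((min_le_right _ _).trans (min_le_right _ _)) hπ
  have hp0 : 0 < π.lam := hπ.1.1
  have hle0 : π.lam ≤ l0 := hS0.1.2.1
  have hp1 : π.lam ≤ 1 := hle0.trans hl0'
  obtain ⟨hb4, hb2, hb3, hr⟩ := nest_b c hp0
  have hφ := wgt_ph2 (d := c.d) (n := π.n) hr
  obtain ⟨hcard1, hcard2⟩ := nest_card c hπ.1 hp1
  have hF : c.F ν π V < 3 * 2 ^ ℓ := (chi_ne c ν ℓ π V).1 hχ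
  set A := GG c.d π.n π.lam π.z V with hA
  -- the three families
  set T1 : Tor c.d π.n → ℝ := fun w => G4 A w / c.b4 π.lam with hT1
  set T2 : Tor c.d π.n → ℝ := fun x => ‖A x x - gb ν c.d π‖ / c.b2 π.lam with hT2
  set T3 : Tor c.d π.n × Tor c.d π.n → ℝ :=
    fun q => lm (ph2 (c.rw π.lam)) A q.1 q.2 / c.b3 π.lam with hT3
  set E1 : Tor c.d π.n → Tor c.d π.n → ℝ := fun w u => D1 R π.lam (c.b4 π.lam) A w u with hE1
  set E2 : Tor c.d π.n → Tor c.d π.n → ℝ := fun w u => D2 R π.lam (c.b2 π.lam) A w u with hE2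
  set E3 : Tor c.d π.n × Tor c.d π.n → Tor c.d π.n → ℝ :=
    fun q u => D3 (ph2 (c.rw π.lam)) R π.lam (c.b3 π.lam) A q.1 q.2 u with hE3
  have hT1n : ∀ i, 0 ≤ T1 i := fun i => div_nonneg (nest_G4_nonneg _ _) hb4.le
  have hT2n : ∀ i, 0 ≤ T2 i := fun i => div_nonneg (norm_nonneg _) hb2.le
  have hT3n : ∀ i, 0 ≤ T3 i := fun i => div_nonneg (nest_lm_nonneg hφ _ _ _) hb3.le
  have hE1n : ∀ i u, 0 ≤ E1 i u := fun i u => nest_D1_nonneg hR hp0.le hb4 _ _ _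
  have hE2n : ∀ i u, 0 ≤ E2 i u := fun i u => nest_D2_nonneg hR hp0.le hb2 _ _ _
  have hE3n : ∀ i u, 0 ≤ E3 i u := fun i u => nest_D3_nonneg hφ hR hp0.le hb3 _ _ _ _
  have hFeq : c.F ν π V = ∑ i, T1 i ^ c.p + ∑ i, T2 i ^ c.p + ∑ i, T3 i ^ c.p := by
    unfold Cx.F FFg
    rw [Fintype.sum_prod_type]
  have hs1 : 0 ≤ ∑ i, T1 i ^ c.p := Finset.sum_nonneg fun i _ => pow_nonneg (hT1n i) _
  have hs2 : 0 ≤ ∑ i, T2 i ^ c.p := Finset.sum_nonneg fun i _ => pow_nonneg (hT2n i) _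
  have hs3 : 0 ≤ ∑ i, T3 i ^ c.p := Finset.sum_nonneg fun i _ => pow_nonneg (hT3n i) _
  obtain ⟨hd11, hd12, -⟩ := hd1 π hS1 V hχ
  obtain ⟨hd21, hd22⟩ := hd2 π hS2 V hχ
  obtain ⟨hd31, hd32⟩ := hd3 π hS3 V hχ
  obtain ⟨f1, f1'⟩ := hfam π.lam hp0 hle0 (Tor c.d π.n) (Tor c.d π.n) hcard1 T1 hT1n
    (by linarith) E1 hE1n (fun i u => hd11 i u)
  obtain ⟨f2, f2'⟩ := hfam π.lam hp0 hle0 (Tor c.d π.n) (Tor c.d π.n) hcard1 T2 hT2n
    (by linarith) E2 hE2n (fun i u => hd21 i u)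
  obtain ⟨f3, f3'⟩ := hfam π.lam hp0 hle0 (Tor c.d π.n) (Tor c.d π.n × Tor c.d π.n) hcard2 T3 hT3n
    (by linarith) E3 hE3n (fun i u => hd31 i.1 i.2 u)
  have hDeq : ∀ u, c.D ν R π u V = ∑ i, c.p * (T1 i + E1 i u) ^ (c.p - 1) * E1 i u +
      ∑ i, c.p * (T2 i + E2 i u) ^ (c.p - 1) * E2 i u +
      ∑ i, c.p * (T3 i + E3 i u) ^ (c.p - 1) * E3 i u := by
    intro u
    unfold Cx.D DF
    rw [Fintype.sum_prod_type]
  constructor
  · intro u
    rw [hDeq u]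
    have h1 := f1 u
    have h2 := f2 u
    have h3 := f3 u
    linarith
  · intro y
    have g1 := f1' (fun u => ph2 (c.rw π.lam) y u) (π.lam ^ (-(c.e / 8) - 2 * c.t))
      (fun u => (hφ.pos y u).le) (rp_pos hp0 _).le (fun i => hd12 i y)
    have g2 := f2' (fun u => ph2 (c.rw π.lam) y u) (π.lam ^ (c.e - c.t))
      (fun u => (hφ.pos y u).le) (rp_pos hp0 _).le (fun i => (Finset.sum_le_sum fun u _ => by
        calc ph2 (c.rw π.lam) y u * E2 i u ^ 2 ≤ 1 * E2 i u ^ 2 := by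
              gcongr
              exact hφ.le y u
          _ = E2 i u ^ 2 := one_mul _).trans (hd22 i))
    have g3 := f3' (fun u => ph2 (c.rw π.lam) y u) (π.lam ^ (49 * c.e))
      (fun u => (hφ.pos y u).le) (rp_pos hp0 _).le (fun i => (Finset.sum_le_sum fun u _ => by
        calc ph2 (c.rw π.lam) y u * E3 i u ^ 2 ≤ 1 * E3 i u ^ 2 := by
              gcongr
              exact hφ.le y u
          _ = E3 i u ^ 2 := one_mul _).trans (hd32 i.1 i.2))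
    calc ∑ u, ph2 (c.rw π.lam) y u * c.D ν R π u V ^ 2
        ≤ ∑ u, 3 * (ph2 (c.rw π.lam) y u * (∑ i, c.p * (T1 i + E1 i u) ^ (c.p - 1) * E1 i u) ^ 2 +
            ph2 (c.rw π.lam) y u * (∑ i, c.p * (T2 i + E2 i u) ^ (c.p - 1) * E2 i u) ^ 2 +
            ph2 (c.rw π.lam) y u * (∑ i, c.p * (T3 i + E3 i u) ^ (c.p - 1) * E3 i u) ^ 2) := by
          refine Finset.sum_le_sum fun u _ => ?_
          rw [hDeq u]
          have hpos := (hφ.pos y u).le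
          set a1 := ∑ i, c.p * (T1 i + E1 i u) ^ (c.p - 1) * E1 i u
          set a2 := ∑ i, c.p * (T2 i + E2 i u) ^ (c.p - 1) * E2 i u
          set a3 := ∑ i, c.p * (T3 i + E3 i u) ^ (c.p - 1) * E3 i u
          have h1 : (a1 + a2 + a3) ^ 2 ≤ 3 * (a1 ^ 2 + a2 ^ 2 + a3 ^ 2) := by
            nlinarith [sq_nonneg (a1 - a2), sq_nonneg (a2 - a3), sq_nonneg (a1 - a3)]
          calc ph2 (c.rw π.lam) y u * (a1 + a2 + a3) ^ 2
              ≤ ph2 (c.rw π.lam) y u * (3 * (a1 ^ 2 + a2 ^ 2 + a3 ^ 2)) := by gcongr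
            _ = _ := by ring
      _ = 3 * (∑ u, ph2 (c.rw π.lam) y u *
              (∑ i, c.p * (T1 i + E1 i u) ^ (c.p - 1) * E1 i u) ^ 2 +
            ∑ u, ph2 (c.rw π.lam) y u *
              (∑ i, c.p * (T2 i + E2 i u) ^ (c.p - 1) * E2 i u) ^ 2 +
            ∑ u, ph2 (c.rw π.lam) y u *
              (∑ i, c.p * (T3 i + E3 i u) ^ (c.p - 1) * E3 i u) ^ 2) := by
          rw [← Finset.mul_sum, Finset.sum_add_distrib, Finset.sum_add_distrib]
      _ ≤ _ := by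
          linarith

theorem nest_le (hν : BLaw ν R s2) (c : Cx) (hc : c.Ok) (ℓ : ℕ) :
    ∃ lam1 : ℝ, 0 < lam1 ∧ lam1 ≤ 1 ∧ ∀ π ∈ c.S ν lam1, ∀ V : Tor c.d π.n → ℝ, c.chi ν ℓ π V ≠ 0 →
      ∀ u, c.D ν R π u V ≤ 1 := by
  obtain ⟨l0, hl0, hl0', h⟩ := nest_aux hν c hc ℓ
  obtain ⟨l1, hl1, hl1', hs⟩ := sm_one 3 (show 0 < c.e / 2 - c.e / 100 by linarith [hc.e0])
  refine ⟨min l0 l1, lt_min hl0 hl1, (min_le_left _ _).trans hl0', fun π hπ V hχ u => ?_⟩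
  have hp0 : 0 < π.lam := hπ.1.1
  have h1 := (h π (c.S_mono ν (min_le_left _ _) hπ) V hχ).1 u
  rw [← Real.rpow_add hp0] at h1
  refine h1.trans ?_
  have h2 := hs π.lam hp0 (hπ.1.2.1.trans (min_le_right _ _))
  have h3 : -(c.e / 100) + c.e / 2 = c.e / 2 - c.e / 100 := by ring
  rw [h3]
  exact h2

theorem nest_loc (hν : BLaw ν R s2) (c : Cx) (hc : c.Ok) (ℓ : ℕ) :
    ∃ lam1 : ℝ, 0 < lam1 ∧ lam1 ≤ 1 ∧ ∀ π ∈ c.S ν lam1, ∀ V : Tor c.d π.n → ℝ, c.chi ν ℓ π V ≠ 0 →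
      ∀ y, ∑ u, ph2 (c.rw π.lam) y u * c.D ν R π u V ^ 2 ≤ c.dl π.lam ^ 2 := by
  have he := hc.e0
  obtain ⟨l0, hl0, hl0', h⟩ := nest_aux hν c hc ℓ
  have hlt : -(c.e / 8) - c.e / 50 < -(c.e / 100) + (-(c.e / 8) - 2 * c.t) := by
    unfold Cx.t
    linarith
  obtain ⟨l1, hl1, hl1', hs⟩ := sm_le 3 hlt
  refine ⟨min l0 l1, lt_min hl0 hl1, (min_le_left _ _).trans hl0', fun π hπ V hχ y => ?_⟩
  have hp0 : 0 < π.lam := hπ.1.1
  have hp1 : π.lam ≤ 1 := (hπ.1.2.1.trans (min_le_left _ _)).trans hl0'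
  have h1 := (h π (c.S_mono ν (min_le_left _ _) hπ) V hχ).2 y
  have h2 := hs π.lam hp0 (hπ.1.2.1.trans (min_le_right _ _))
  refine h1.trans ?_
  rw [← Real.rpow_add hp0, ← Real.rpow_add hp0, ← Real.rpow_add hp0]
  set x := π.lam ^ (-(c.e / 100) + (-(c.e / 8) - 2 * c.t)) with hx
  have hx0 : 0 < x := rp_pos hp0 _
  have h3 : π.lam ^ (-(c.e / 100) + (c.e - c.t)) ≤ x := by
    apply rp_anti hp0 hp1
    unfold Cx.t
    linarith
  have h4 : π.lam ^ (-(c.e / 100) + 49 * c.e) ≤ x := by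
    apply rp_anti hp0 hp1
    unfold Cx.t
    linarith
  have h5 : (π.lam ^ (-(c.e / 100) + (c.e - c.t))) ^ 2 ≤ x ^ 2 :=
    pow_le_pow_left₀ (rp_pos hp0 _).le h3 2
  have h6 : (π.lam ^ (-(c.e / 100) + 49 * c.e)) ^ 2 ≤ x ^ 2 :=
    pow_le_pow_left₀ (rp_pos hp0 _).le h4 2
  have h7 : (3 * x) ^ 2 ≤ c.dl π.lam ^ 2 := by
    unfold Cx.dl
    exact pow_le_pow_left₀ (by positivity) h2 2
  nlinarith

theorem nest (hν : BLaw ν R s2) (c : Cx) (hc : c.Ok) (ℓ : ℕ) :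
    ∃ lam1 : ℝ, 0 < lam1 ∧ lam1 ≤ 1 ∧ ∀ π ∈ c.S ν lam1,
      CutP R (c.chi ν ℓ π) (c.chi ν (ℓ + 1) π) (c.D ν R π) := by
  have he := hc.e0
  have he1 := nest_e c hc
  have hR : (0 : ℝ) ≤ R := by linarith [hν.R_ge]
  obtain ⟨l0, hl0, hl0', hle⟩ := nest_le hν c hc ℓ
  obtain ⟨l1, hl1, hl1', hrg⟩ := regc hν c hc ℓ
  obtain ⟨l2, hl2, hl2', hrg'⟩ := regc hν c hc (ℓ + 1)
  obtain ⟨l3, hl3, hl3', hs⟩ := sm_one (4 * R) (show 0 < 1 - 3 * c.t by
    unfold Cx.t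
    linarith)
  refine ⟨min (min l0 l1) (min l2 l3), lt_min (lt_min hl0 hl1) (lt_min hl2 hl3),
    ((min_le_left _ _).trans (min_le_left _ _)).trans hl0', fun π hπ => ?_⟩
  have hS0 := c.S_mono ν ((min_le_left _ _).trans (min_le_left _ _)) hπ
  have hS1 := c.S_mono ν ((min_le_left _ _).trans (min_le_right _ _)) hπ
  have hS2 := c.S_mono ν ((min_le_right _ _).trans (min_le_left _ _)) hπ
  have hp0 : 0 < π.lam := hπ.1.1
  have hη : 0 < π.eta := (rp_pos hp0 c.A).trans_le hπ.1.2.2.2.2.2.2.1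
  have hz : π.z.im ≠ 0 := hη.ne'
  obtain ⟨hb4, hb2, hb3, hr⟩ := nest_b c hp0
  have hφ := wgt_ph2 (d := c.d) (n := π.n) hr
  have hsm := hs π.lam hp0 (hπ.1.2.1.trans ((min_le_right _ _).trans (min_le_right _ _)))
  -- smallness of the diagonal
  have hdiag : ∀ g : ℝ, g ≤ c.Gd π.lam → 2 * R * π.lam * g ≤ 1 / 2 := by
    intro g hg
    have h1 : 2 * R * π.lam * g ≤ 2 * R * π.lam * c.Gd π.lam := by gcongr
    have h2 : π.lam * c.Gd π.lam = π.lam ^ (1 - 3 * c.t) := by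
      unfold Cx.Gd
      nth_rw 1 [← Real.rpow_one π.lam]
      rw [← Real.rpow_add hp0]
      congr 1
    calc 2 * R * π.lam * g ≤ 2 * R * π.lam * c.Gd π.lam := h1
      _ = (4 * R * (π.lam * c.Gd π.lam)) / 2 := by ring
      _ ≤ 1 / 2 := by
          rw [h2]
          linarith
  -- the change of the functional
  have hch : ∀ (V : Tor c.d π.n → ℝ), V ∈ Box (Tor c.d π.n) R → ∀ x, ∀ t ∈ Set.Icc (-R) R,
      (c.chi ν ℓ π V ≠ 0 ∨ c.chi ν (ℓ + 1) π V ≠ 0) →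
      |c.F ν π V - c.F ν π (Function.update V x t)| ≤ c.D ν R π x V := by
    intro V hV x t ht hχ
    have hgd : 2 * R * π.lam * ‖Gv (H0 c.d π.n) π.lam π.z V x x‖ ≤ 1 / 2 := by
      apply hdiag
      rcases hχ with h | h
      · exact (hrg π hS1 V h).gd x
      · exact (hrg' π hS2 V h).gd x
    exact fd_main (RS_H0 c.d π.n) hz hR hp0.le hV ht hgd hb4 hb2 hb3 hφ (gb ν c.d π) c.p
  have hbox : ∀ (V : Tor c.d π.n → ℝ), V ∈ Box (Tor c.d π.n) R → ∀ x, ∀ t ∈ Set.Icc (-R) R,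
      Function.update V x t ∈ Box (Tor c.d π.n) R := by
    intro V hV x t ht y
    by_cases hy : y = x
    · subst hy
      rw [Function.update_self]
      exact ht
    · rw [Function.update_of_ne hy]
      exact hV y
  -- the value of the functional at `V` if the cutoff at the changed potential is not zero
  have hval : ∀ (V : Tor c.d π.n → ℝ), V ∈ Box (Tor c.d π.n) R → ∀ x, ∀ t ∈ Set.Icc (-R) R,
      c.chi ν ℓ π (Function.update V x t) ≠ 0 → c.F ν π V ≤ 2 * 2 ^ (ℓ + 1) := by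
    intro V hV x t ht hχ
    have h1 := hch _ (hbox V hV x t ht) x (V x) (hV x) (Or.inl hχ)
    rw [Function.update_idem, Function.update_eq_self] at h1
    have h2 := hle π hS0 _ hχ x
    have h3 := (chi_ne c ν ℓ π _).1 hχ
    have h4 := abs_le.1 (h1.trans h2)
    have h5 : (1 : ℝ) ≤ 2 ^ ℓ := one_le_pow₀ (by norm_num)
    rw [pow_succ]
    linarith [h4.1]
  refine ⟨continuous_chi c ν ℓ π hη, continuous_chi c ν (ℓ + 1) π hη,
    fun x => continuous_D c ν R π hη x, fun V => chi_mem c ν ℓ π V,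
    fun V => chi_mem c ν (ℓ + 1) π V, fun x V => D_nonneg c hp0 hR x V, ?_, ?_⟩
  · intro V hV x t ht
    by_cases hχ : c.chi ν ℓ π (Function.update V x t) = 0
    · rw [hχ]
      exact (chi_mem c ν (ℓ + 1) π V).1
    · rw [chi_one c ν (ℓ + 1) π V (hval V hV x t ht hχ)]
      exact (chi_mem c ν ℓ π _).2
  · intro V hV x t ht
    by_cases hboth : c.chi ν ℓ π V = 0 ∧ c.chi ν ℓ π (Function.update V x t) = 0
    · rw [hboth.1, hboth.2, sub_zero, abs_zero]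
      exact mul_nonneg (chi_mem c ν (ℓ + 1) π V).1 (D_nonneg c hp0 hR x V)
    · have hone : c.chi ν (ℓ + 1) π V = 1 := by
        apply chi_one
        by_cases h1 : c.chi ν ℓ π V = 0
        · have h2 : c.chi ν ℓ π (Function.update V x t) ≠ 0 := fun h => hboth ⟨h1, h⟩
          exact hval V hV x t ht h2
        · have h3 := (chi_ne c ν ℓ π V).1 h1
          have h5 : (1 : ℝ) ≤ 2 ^ ℓ := one_le_pow₀ (by norm_num)
          rw [pow_succ]
          linarith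
      have h6 := hch V hV x t ht (Or.inr (by rw [hone]; exact one_ne_zero))
      rw [hone, one_mul]
      refine le_trans ?_ h6
      unfold Cx.chi
      refine (thc_lip _ _).trans ?_
      rw [← sub_div, abs_div]
      apply div_le_self (abs_nonneg _)
      rw [abs_of_pos (by positivity)]
      exact one_le_pow₀ (by norm_num)

end Pool.Agent.BK3
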