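import Pool.Agent.BK3.ESc
import Pool.Agent.BK3.Nest
import Pool.Agent.BK3.DomA

/-! BK3 module ESa: one step of the moment method. `ESH`: a family of complex random variables `h π i` with
crude bound `lam^(-K)`, change bounds `δ` with `∑_u δ_u² ≤ (lam^a)²` on the supports of the cutoffs, and
`|E[chi h]| ≤ lam^a`. `Dg = (∑ c.D_u²)^(1/2)` is at the level `lam^(e/2)` (hypothesis `hDg`).
`esa_tail`: for nonnegative numbers `Dg² ≤ lam^(e/2) + Dg^(2m+2) lam^(-m e/2)` (if `Dg² > lam^(e/2)` then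
`(Dg²/lam^(e/2))^m ≥ 1`), hence
`E[chi Dg² |h|^(2r)] ≤ lam^(e/2) E[chi |h|^(2r)] + lam^(-2rK) lam^(-me/2) C lam^((2m+2)e/2 - ε)
≤ lam^(e/2) E[chi |h|^(2r)] + lam^(2ra)` for `m` large (depending on `r, K, a, e`) and small `lam`.
`esa_step` (`r ≥ 1`): `chi ℓ ≤ chi (ℓ+1)²` (`chi_le_sq`), `esc_step` with `χ1 = chi (ℓ+1)`, `χ2 = chi (ℓ+2)` (`nest`),
`esa_tail`, `∑ δ² ≤ lam^(2a)`. `esa_base`: the same with `esc_base`. -/

open MeasureTheory Finset Matrix Pool.Agent.BK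

noncomputable section

namespace Pool.Agent.BK3

/-- Input of the moment method. -/
structure ESH (c : Cx) (ν : Measure ℝ) (R : ℝ) (ι : Par → Type)
    (h : (π : Par) → ι π → (Tor c.d π.n → ℝ) → ℂ)
    (δ : (π : Par) → ι π → Tor c.d π.n → (Tor c.d π.n → ℝ) → ℝ) (a K : ℝ) : Prop where
  ch : ∀ π, 0 < π.eta → ∀ i, Continuous (h π i)
  cδ : ∀ π, 0 < π.eta → ∀ i u, Continuous (δ π i u)
  δ0 : ∀ π, 0 < π.lam → ∀ i u V, 0 ≤ δ π i u V
  crude : ∃ lam0 : ℝ, 0 < lam0 ∧ ∀ π ∈ c.S ν lam0, ∀ i, ∀ V ∈ Box (Tor c.d π.n) R,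
    ‖h π i V‖ ≤ π.lam ^ (-K)
  chg : ∀ ℓ : ℕ, ∃ lam0 : ℝ, 0 < lam0 ∧ ∀ π ∈ c.S ν lam0, ∀ i, ∀ V ∈ Box (Tor c.d π.n) R,
    c.chi ν ℓ π V ≠ 0 → ∀ u, ∀ t ∈ Set.Icc (-R) R,
      ‖h π i V - h π i (Function.update V u t)‖ ≤ δ π i u V
  sq : ∀ ℓ : ℕ, ∃ lam0 : ℝ, 0 < lam0 ∧ ∀ π ∈ c.S ν lam0, ∀ i, ∀ V ∈ Box (Tor c.d π.n) R,
    c.chi ν ℓ π V ≠ 0 → ∑ u, δ π i u V ^ 2 ≤ (π.lam ^ a) ^ 2
  mean : ∀ ℓ : ℕ, ∃ lam0 : ℝ, 0 < lam0 ∧ ∀ π ∈ c.S ν lam0, ∀ i,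
    ‖Ex ν (fun V => (c.chi ν ℓ π V : ℂ) * h π i V)‖ ≤ π.lam ^ a

variable {ν : Measure ℝ} {R s2 : ℝ} {c : Cx} {ι : Par → Type}
  {h : (π : Par) → ι π → (Tor c.d π.n → ℝ) → ℂ}
  {δ : (π : Par) → ι π → Tor c.d π.n → (Tor c.d π.n → ℝ) → ℝ} {a K : ℝ}

private lemma esa_lin {X : Type} [Fintype X] [DecidableEq X] (hν : BLaw ν R s2)
    {F G : (X → ℝ) → ℝ} (hF : Continuous F) (hG : Continuous G) (s t : ℝ) :
    Ex ν (fun V => s * F V + t * G V) = s * Ex ν F + t * Ex ν G := by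
  unfold Ex
  rw [integral_add ((int_cont hν hF).const_mul s) ((int_cont hν hG).const_mul t),
    integral_const_mul, integral_const_mul]

private lemma esa_nonneg {X : Type} [Fintype X] [DecidableEq X] (hν : BLaw ν R s2)
    {F : (X → ℝ) → ℝ} (h : ∀ V, 0 ≤ F V) : 0 ≤ Ex ν F :=
  Ex_box_nonneg hν fun V _ => h V

private lemma esa_split {D L : ℝ} (hD : 0 ≤ D) (hL : 0 < L) (m : ℕ) :
    D ≤ L + (L ^ m)⁻¹ * D ^ (m + 1) := by
  rcases le_total D L with h | h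
  · have : 0 ≤ (L ^ m)⁻¹ * D ^ (m + 1) := by positivity
    linarith
  · have h1 : 1 ≤ (L ^ m)⁻¹ * D ^ m := by
      rw [inv_mul_eq_div, one_le_div (by positivity)]
      exact pow_le_pow_left₀ hL.le h m
    have h2 : D ≤ (L ^ m)⁻¹ * D ^ (m + 1) := by
      rw [pow_succ, ← mul_assoc]
      nlinarith
    linarith

theorem esa_tail (hν : BLaw ν R s2) (hc : c.Ok) (hh : ESH c ν R ι h δ a K)
    (hDg : DomF c ν (fun _ => Unit) (fun π _ V => √(∑ u, c.D ν R π u V ^ 2)) (c.e / 2))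
    (r ℓ : ℕ) : ∃ lam1 : ℝ, 0 < lam1 ∧ lam1 ≤ 1 ∧ ∀ π ∈ c.S ν lam1, ∀ i,
      Ex ν (fun V => c.chi ν ℓ π V * ((∑ u, c.D ν R π u V ^ 2) * ‖h π i V‖ ^ (2 * r))) ≤
        π.lam ^ (c.e / 2) * Ex ν (fun V => c.chi ν ℓ π V * ‖h π i V‖ ^ (2 * r)) +
          (π.lam ^ a) ^ (2 * r) := by
  have he := hc.e0
  obtain ⟨m, hm⟩ := exists_nat_ge (4 * r * (|a| + |K|) / c.e)
  have hm' : 2 * (r : ℝ) * (a + K) ≤ m * (c.e / 2) := by
    rw [div_le_iff₀ he] at hm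
    have h1 : a + K ≤ |a| + |K| := add_le_add (le_abs_self _) (le_abs_self _)
    have h2 : 2 * (r : ℝ) * (a + K) ≤ 2 * r * (|a| + |K|) :=
      mul_le_mul_of_nonneg_left h1 (by positivity)
    linarith
  obtain ⟨C, l1, hC, hl1, hD⟩ := hDg (2 * m + 2) ℓ (c.e / 2) (by positivity)
  obtain ⟨l2, hl2, hcr⟩ := hh.crude
  obtain ⟨l3, hl3, hl31, hsm⟩ := sm_le C (a := 2 * r * a)
    (b := (m * (c.e / 2) + c.e / 2 - 2 * r * K)) (by nlinarith)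
  refine ⟨min (min l1 l2) (min l3 1), by positivity, (min_le_right _ _).trans (min_le_right _ _),
    fun π hπ i => ?_⟩
  have hπ1 : π ∈ c.S ν l1 := c.S_mono ν ((min_le_left _ _).trans (min_le_left _ _)) hπ
  have hπ2 : π ∈ c.S ν l2 := c.S_mono ν ((min_le_left _ _).trans (min_le_right _ _)) hπ
  obtain ⟨h0, h1, hη⟩ := ok_pos hc ((min_le_right _ _).trans (min_le_right _ _)) hπ
  have hlam3 : π.lam ≤ l3 := hπ.1.2.1.trans ((min_le_right _ _).trans (min_le_left _ _))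
  set L := π.lam ^ (c.e / 2) with hL
  have hL0 : 0 < L := rp_pos h0 _
  set T := (L ^ m)⁻¹ * (π.lam ^ (-K)) ^ (2 * r) with hT
  have hT0 : 0 ≤ T := by
    have := rp_pos h0 (-K)
    positivity
  have cchi := continuous_chi c ν ℓ π hη
  have cD : Continuous fun V => ∑ u, c.D ν R π u V ^ 2 :=
    continuous_finsetSum _ fun u _ => (continuous_D c ν R π hη u).pow 2
  have ch := (hh.ch π hη i).norm
  have hS0 : ∀ V, 0 ≤ ∑ u, c.D ν R π u V ^ 2 := fun V => Finset.sum_nonneg fun u _ => sq_nonneg _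
  have key : Ex ν (fun V => c.chi ν ℓ π V * ((∑ u, c.D ν R π u V ^ 2) * ‖h π i V‖ ^ (2 * r))) ≤
      Ex ν (fun V => L * (c.chi ν ℓ π V * ‖h π i V‖ ^ (2 * r)) +
        T * (c.chi ν ℓ π V * |√(∑ u, c.D ν R π u V ^ 2)| ^ (2 * m + 2))) := by
    refine Ex_box_mono hν ?_ ?_ ?_
    · exact cchi.mul (cD.mul (ch.pow _))
    · exact (continuous_const.mul (cchi.mul (ch.pow _))).add
        (continuous_const.mul (cchi.mul ((Real.continuous_sqrt.comp cD).abs.pow _)))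
    · intro V hV
      by_cases hz : c.chi ν ℓ π V = 0
      · simp [hz]
      · have h2 := hcr π hπ2 i V hV
        have h3 := (chi_mem c ν ℓ π V).1
        set D := ∑ u, c.D ν R π u V ^ 2 with hDdef
        have hD0 : 0 ≤ D := hS0 V
        have h4 : |√D| ^ (2 * m + 2) = D ^ (m + 1) := by
          rw [abs_of_nonneg (Real.sqrt_nonneg _), show 2 * m + 2 = 2 * (m + 1) by ring, pow_mul,
            Real.sq_sqrt hD0]
        rw [h4]
        have h5 := esa_split hD0 hL0 m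
        have h6 : ‖h π i V‖ ^ (2 * r) ≤ (π.lam ^ (-K)) ^ (2 * r) :=
          pow_le_pow_left₀ (norm_nonneg _) h2 _
        have h7 : 0 ≤ (L ^ m)⁻¹ * D ^ (m + 1) := by positivity
        have h8 : 0 ≤ ‖h π i V‖ ^ (2 * r) := by positivity
        have h9 : D * ‖h π i V‖ ^ (2 * r) ≤ L * ‖h π i V‖ ^ (2 * r) + T * D ^ (m + 1) := by
          calc D * ‖h π i V‖ ^ (2 * r)
              ≤ (L + (L ^ m)⁻¹ * D ^ (m + 1)) * ‖h π i V‖ ^ (2 * r) :=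
                mul_le_mul_of_nonneg_right h5 h8
            _ = L * ‖h π i V‖ ^ (2 * r) + ((L ^ m)⁻¹ * D ^ (m + 1)) * ‖h π i V‖ ^ (2 * r) := by
                ring
            _ ≤ L * ‖h π i V‖ ^ (2 * r) +
                ((L ^ m)⁻¹ * D ^ (m + 1)) * (π.lam ^ (-K)) ^ (2 * r) := by
                have := mul_le_mul_of_nonneg_left h6 h7
                linarith
            _ = L * ‖h π i V‖ ^ (2 * r) + T * D ^ (m + 1) := by rw [hT]; ring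
        have h10 := mul_le_mul_of_nonneg_left h9 h3
        linarith [h10]
  refine key.trans ?_
  have k1 : Continuous fun V => c.chi ν ℓ π V * ‖h π i V‖ ^ (2 * r) := cchi.mul (ch.pow _)
  have k2 : Continuous fun V => c.chi ν ℓ π V * |√(∑ u, c.D ν R π u V ^ 2)| ^ (2 * m + 2) :=
    cchi.mul ((Real.continuous_sqrt.comp cD).abs.pow _)
  rw [esa_lin hν k1 k2]
  have h5 := hD π hπ1 ()
  have h6 : T * Ex ν (fun V => c.chi ν ℓ π V * |√(∑ u, c.D ν R π u V ^ 2)| ^ (2 * m + 2)) ≤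
      (π.lam ^ a) ^ (2 * r) := by
    calc _ ≤ T * (C * π.lam ^ (((2 * m + 2 : ℕ) : ℝ) * (c.e / 2) - c.e / 2)) :=
          mul_le_mul_of_nonneg_left h5 hT0
      _ = C * π.lam ^ (m * (c.e / 2) + c.e / 2 - 2 * r * K) := by
        rw [hT, hL, rp_pow h0, rp_pow h0, ← Real.rpow_neg h0.le]
        have : π.lam ^ (-(↑m * (c.e / 2))) * π.lam ^ (((2 * r : ℕ) : ℝ) * -K) *
            (C * π.lam ^ (((2 * m + 2 : ℕ) : ℝ) * (c.e / 2) - c.e / 2)) =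
            C * (π.lam ^ (-(↑m * (c.e / 2))) * π.lam ^ (((2 * r : ℕ) : ℝ) * -K) *
              π.lam ^ (((2 * m + 2 : ℕ) : ℝ) * (c.e / 2) - c.e / 2)) := by ring
        rw [this, ← Real.rpow_add h0, ← Real.rpow_add h0]
        congr 2
        push_cast
        ring
      _ ≤ π.lam ^ (2 * r * a) := hsm π.lam h0 hlam3
      _ = (π.lam ^ a) ^ (2 * r) := by
        rw [rp_pow h0]
        push_cast
        ring_nf
  linarith

theorem esa_step (hν : BLaw ν R s2) (hc : c.Ok) (hh : ESH c ν R ι h δ a K)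
    (hDg : DomF c ν (fun _ => Unit) (fun π _ V => √(∑ u, c.D ν R π u V ^ 2)) (c.e / 2))
    {r : ℕ} (hr : 1 ≤ r) (ℓ : ℕ) : ∃ C lam1 : ℝ, 0 < C ∧ 0 < lam1 ∧ lam1 ≤ 1 ∧
      ∀ π ∈ c.S ν lam1, ∀ i,
      Ex ν (fun V => c.chi ν ℓ π V * ‖h π i V‖ ^ (2 * r)) ≤
        Ex ν (fun V => c.chi ν (ℓ + 1) π V * ‖h π i V‖ ^ r) ^ 2 +
        C * (π.lam ^ (c.e / 2) * Ex ν (fun V => c.chi ν (ℓ + 2) π V * ‖h π i V‖ ^ (2 * r)) +
          (π.lam ^ a) ^ 2 * Ex ν (fun V => c.chi ν (ℓ + 2) π V * ‖h π i V‖ ^ (2 * r - 2)) +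
          (π.lam ^ a) ^ (2 * r)) := by
  obtain ⟨l1, hl1, hl11, hnest⟩ := nest hν c hc (ℓ + 1)
  obtain ⟨l2, hl2, hchg⟩ := hh.chg (ℓ + 2)
  obtain ⟨l3, hl3, hsq⟩ := hh.sq (ℓ + 2)
  obtain ⟨l4, hl4, hl41, htail⟩ := esa_tail hν hc hh hDg r (ℓ + 2)
  set Cr : ℝ := 2 * r ^ 2 * 4 ^ r with hCr
  have hCr0 : 0 < Cr := by
    have : (0 : ℝ) < r := by exact_mod_cast hr
    positivity
  refine ⟨2 * Cr, min (min l1 l2) (min l3 l4), by positivity, by positivity,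
    (min_le_right _ _).trans ((min_le_right _ _).trans hl41), fun π hπ i => ?_⟩
  have hπ1 : π ∈ c.S ν l1 := c.S_mono ν ((min_le_left _ _).trans (min_le_left _ _)) hπ
  have hπ2 : π ∈ c.S ν l2 := c.S_mono ν ((min_le_left _ _).trans (min_le_right _ _)) hπ
  have hπ3 : π ∈ c.S ν l3 := c.S_mono ν ((min_le_right _ _).trans (min_le_left _ _)) hπ
  have hπ4 : π ∈ c.S ν l4 := c.S_mono ν ((min_le_right _ _).trans (min_le_right _ _)) hπ
  obtain ⟨h0, h1, hη⟩ := ok_pos hc hl41 hπ4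
  have cchi := fun ℓ => continuous_chi c ν ℓ π hη
  have cD : Continuous fun V => ∑ u, c.D ν R π u V ^ 2 :=
    continuous_finsetSum _ fun u _ => (continuous_D c ν R π hη u).pow 2
  have cδ : Continuous fun V => ∑ u, δ π i u V ^ 2 :=
    continuous_finsetSum _ fun u _ => (hh.cδ π hη i u).pow 2
  have ch := (hh.ch π hη i).norm
  have hstep := esc_step hν (hnest π hπ1) (hh.ch π hη i) (hh.cδ π hη i) (hh.δ0 π h0 i)
    (hchg π hπ2 i) hr
  have hfirst : Ex ν (fun V => c.chi ν ℓ π V * ‖h π i V‖ ^ (2 * r)) ≤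
      Ex ν (fun V => c.chi ν (ℓ + 1) π V ^ 2 * ‖h π i V‖ ^ (2 * r)) := by
    refine Ex_box_mono hν ((cchi ℓ).mul (ch.pow _)) (((cchi (ℓ + 1)).pow 2).mul (ch.pow _)) ?_
    intro V _
    exact mul_le_mul_of_nonneg_right (chi_le_sq c ν ℓ π V) (by positivity)
  have hA0 : 0 ≤ π.lam ^ a := (rp_pos h0 a).le
  have hsecond : Ex ν (fun V => c.chi ν (ℓ + 2) π V * ((∑ u, c.D ν R π u V ^ 2) *
        ‖h π i V‖ ^ (2 * r) + ‖h π i V‖ ^ (2 * r - 2) * (∑ u, δ π i u V ^ 2) +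
        (∑ u, δ π i u V ^ 2) ^ r)) ≤
      Ex ν (fun V => 1 * (c.chi ν (ℓ + 2) π V * ((∑ u, c.D ν R π u V ^ 2) *
        ‖h π i V‖ ^ (2 * r))) + 1 * ((π.lam ^ a) ^ 2 *
          (c.chi ν (ℓ + 2) π V * ‖h π i V‖ ^ (2 * r - 2)) +
        (π.lam ^ a) ^ (2 * r) * 1)) := by
    refine Ex_box_mono hν ?_ ?_ ?_
    · exact (cchi _).mul (((cD.mul (ch.pow _)).add ((ch.pow _).mul cδ)).add (cδ.pow _))
    · exact (continuous_const.mul ((cchi _).mul (cD.mul (ch.pow _)))).add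
        (continuous_const.mul ((continuous_const.mul ((cchi _).mul (ch.pow _))).add
          continuous_const))
    · intro V hV
      obtain ⟨g1, g2⟩ := chi_mem c ν (ℓ + 2) π V
      by_cases hz : c.chi ν (ℓ + 2) π V = 0
      · rw [hz]
        have : 0 ≤ (π.lam ^ a) ^ (2 * r) := by positivity
        simp [this]
      · have g3 := hsq π hπ3 i V hV hz
        have g4 : 0 ≤ ∑ u, δ π i u V ^ 2 := Finset.sum_nonneg fun u _ => sq_nonneg _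
        have g5 : (∑ u, δ π i u V ^ 2) ^ r ≤ (π.lam ^ a) ^ (2 * r) := by
          rw [pow_mul]
          exact pow_le_pow_left₀ g4 g3 r
        have g6 : ‖h π i V‖ ^ (2 * r - 2) * (∑ u, δ π i u V ^ 2) ≤
            ‖h π i V‖ ^ (2 * r - 2) * (π.lam ^ a) ^ 2 :=
          mul_le_mul_of_nonneg_left g3 (by positivity)
        have g7 := mul_le_mul_of_nonneg_left g6 g1
        have g8 := mul_le_mul_of_nonneg_left g5 g1
        have g9 : c.chi ν (ℓ + 2) π V * (π.lam ^ a) ^ (2 * r) ≤ 1 * (π.lam ^ a) ^ (2 * r) :=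
          mul_le_mul_of_nonneg_right g2 (by positivity)
        nlinarith
  have c1 : Continuous fun V => c.chi ν (ℓ + 2) π V * ((∑ u, c.D ν R π u V ^ 2) *
      ‖h π i V‖ ^ (2 * r)) := (cchi _).mul (cD.mul (ch.pow _))
  have c2 : Continuous fun V => c.chi ν (ℓ + 2) π V * ‖h π i V‖ ^ (2 * r - 2) :=
    (cchi _).mul (ch.pow _)
  have c3 : Continuous fun V : Tor c.d π.n → ℝ => (π.lam ^ a) ^ 2 *
      (c.chi ν (ℓ + 2) π V * ‖h π i V‖ ^ (2 * r - 2)) + (π.lam ^ a) ^ (2 * r) * 1 :=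
    (continuous_const.mul c2).add continuous_const
  have c4 : Continuous fun _ : Tor c.d π.n → ℝ => (1 : ℝ) := continuous_const
  rw [esa_lin hν c1 c3, esa_lin hν c2 c4, Ex_one hν] at hsecond
  have ht := htail π hπ4 i
  have hE2 : 0 ≤ Ex ν (fun V => c.chi ν (ℓ + 2) π V * ‖h π i V‖ ^ (2 * r)) :=
    esa_nonneg hν fun V => mul_nonneg (chi_mem c ν _ π V).1 (by positivity)
  have hE3 : 0 ≤ Ex ν (fun V => c.chi ν (ℓ + 2) π V * ‖h π i V‖ ^ (2 * r - 2)) :=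
    esa_nonneg hν fun V => mul_nonneg (chi_mem c ν _ π V).1 (by positivity)
  have hL0 := rp_pos h0 (c.e / 2)
  have hfin : Ex ν (fun V => c.chi ν (ℓ + 2) π V * ((∑ u, c.D ν R π u V ^ 2) *
        ‖h π i V‖ ^ (2 * r) + ‖h π i V‖ ^ (2 * r - 2) * (∑ u, δ π i u V ^ 2) +
        (∑ u, δ π i u V ^ 2) ^ r)) ≤
      2 * (π.lam ^ (c.e / 2) * Ex ν (fun V => c.chi ν (ℓ + 2) π V * ‖h π i V‖ ^ (2 * r)) +
          (π.lam ^ a) ^ 2 * Ex ν (fun V => c.chi ν (ℓ + 2) π V * ‖h π i V‖ ^ (2 * r - 2)) +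
          (π.lam ^ a) ^ (2 * r)) := by
    have q1 : 0 ≤ π.lam ^ (c.e / 2) *
        Ex ν (fun V => c.chi ν (ℓ + 2) π V * ‖h π i V‖ ^ (2 * r)) := mul_nonneg hL0.le hE2
    have q2 : 0 ≤ (π.lam ^ a) ^ 2 *
        Ex ν (fun V => c.chi ν (ℓ + 2) π V * ‖h π i V‖ ^ (2 * r - 2)) :=
      mul_nonneg (by positivity) hE3
    linarith
  have hmul := mul_le_mul_of_nonneg_left hfin hCr0.le
  linarith

theorem esa_base (hν : BLaw ν R s2) (hc : c.Ok) (hh : ESH c ν R ι h δ a K)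
    (hDg : DomF c ν (fun _ => Unit) (fun π _ V => √(∑ u, c.D ν R π u V ^ 2)) (c.e / 2))
    (ℓ : ℕ) : ∃ C lam1 : ℝ, 0 < C ∧ 0 < lam1 ∧ lam1 ≤ 1 ∧ ∀ π ∈ c.S ν lam1, ∀ i,
      Ex ν (fun V => c.chi ν ℓ π V * ‖h π i V‖ ^ 2) ≤
        C * (π.lam ^ (c.e / 2) * Ex ν (fun V => c.chi ν (ℓ + 2) π V * ‖h π i V‖ ^ 2) +
          (π.lam ^ a) ^ 2) := by
  obtain ⟨l1, hl1, hl11, hnest⟩ := nest hν c hc (ℓ + 1)
  obtain ⟨l2, hl2, hchg⟩ := hh.chg (ℓ + 2)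
  obtain ⟨l3, hl3, hsq⟩ := hh.sq (ℓ + 2)
  obtain ⟨l4, hl4, hl41, htail⟩ := esa_tail hν hc hh hDg 1 (ℓ + 2)
  obtain ⟨l5, hl5, hmean⟩ := hh.mean (ℓ + 1)
  refine ⟨5, min (min (min l1 l2) (min l3 l4)) l5, by positivity, by positivity,
    (min_le_left _ _).trans ((min_le_right _ _).trans ((min_le_right _ _).trans hl41)),
    fun π hπ' i => ?_⟩
  have hπ := c.S_mono ν (min_le_left _ _) hπ'
  have hπ5 : π ∈ c.S ν l5 := c.S_mono ν (min_le_right _ _) hπ'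
  have hπ1 : π ∈ c.S ν l1 := c.S_mono ν ((min_le_left _ _).trans (min_le_left _ _)) hπ
  have hπ2 : π ∈ c.S ν l2 := c.S_mono ν ((min_le_left _ _).trans (min_le_right _ _)) hπ
  have hπ3 : π ∈ c.S ν l3 := c.S_mono ν ((min_le_right _ _).trans (min_le_left _ _)) hπ
  have hπ4 : π ∈ c.S ν l4 := c.S_mono ν ((min_le_right _ _).trans (min_le_right _ _)) hπ
  obtain ⟨h0, h1, hη⟩ := ok_pos hc hl41 hπ4
  have cchi := fun ℓ => continuous_chi c ν ℓ π hη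
  have cD : Continuous fun V => ∑ u, c.D ν R π u V ^ 2 :=
    continuous_finsetSum _ fun u _ => (continuous_D c ν R π hη u).pow 2
  have cδ : Continuous fun V => ∑ u, δ π i u V ^ 2 :=
    continuous_finsetSum _ fun u _ => (hh.cδ π hη i u).pow 2
  have ch := (hh.ch π hη i).norm
  have hstep := esc_base hν (hnest π hπ1) (hh.ch π hη i) (hh.cδ π hη i) (hh.δ0 π h0 i)
    (hchg π hπ2 i)
  have hfirst : Ex ν (fun V => c.chi ν ℓ π V * ‖h π i V‖ ^ 2) ≤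
      Ex ν (fun V => c.chi ν (ℓ + 1) π V ^ 2 * ‖h π i V‖ ^ 2) := by
    refine Ex_box_mono hν ((cchi ℓ).mul (ch.pow _)) (((cchi (ℓ + 1)).pow 2).mul (ch.pow _)) ?_
    intro V _
    exact mul_le_mul_of_nonneg_right (chi_le_sq c ν ℓ π V) (by positivity)
  have hA0 : 0 ≤ π.lam ^ a := (rp_pos h0 a).le
  have c1 : Continuous fun V => c.chi ν (ℓ + 2) π V * ((∑ u, c.D ν R π u V ^ 2) *
      ‖h π i V‖ ^ 2) := (cchi _).mul (cD.mul (ch.pow _))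
  have hsecond : Ex ν (fun V => c.chi ν (ℓ + 2) π V * ((∑ u, c.D ν R π u V ^ 2) *
        ‖h π i V‖ ^ 2 + ∑ u, δ π i u V ^ 2)) ≤
      Ex ν (fun V => 1 * (c.chi ν (ℓ + 2) π V * ((∑ u, c.D ν R π u V ^ 2) *
        ‖h π i V‖ ^ 2)) + (π.lam ^ a) ^ 2 * 1) := by
    refine Ex_box_mono hν ?_ ?_ ?_
    · exact (cchi _).mul ((cD.mul (ch.pow _)).add cδ)
    · exact (continuous_const.mul c1).add continuous_const
    · intro V hV
      obtain ⟨g1, g2⟩ := chi_mem c ν (ℓ + 2) π V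
      by_cases hz : c.chi ν (ℓ + 2) π V = 0
      · rw [hz]
        have : 0 ≤ (π.lam ^ a) ^ 2 := by positivity
        simp [this]
      · have g3 := hsq π hπ3 i V hV hz
        have g4 : 0 ≤ ∑ u, δ π i u V ^ 2 := Finset.sum_nonneg fun u _ => sq_nonneg _
        have g8 := mul_le_mul_of_nonneg_left g3 g1
        have g9 : c.chi ν (ℓ + 2) π V * (π.lam ^ a) ^ 2 ≤ 1 * (π.lam ^ a) ^ 2 :=
          mul_le_mul_of_nonneg_right g2 (by positivity)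
        nlinarith
  have c4 : Continuous fun _ : Tor c.d π.n → ℝ => (1 : ℝ) := continuous_const
  rw [esa_lin hν c1 c4, Ex_one hν] at hsecond
  have ht := htail π hπ4 i
  rw [show 2 * 1 = 2 from rfl] at ht
  have hm := hmean π hπ5 i
  have hm2 : ‖Ex ν (fun V => (c.chi ν (ℓ + 1) π V : ℂ) * h π i V)‖ ^ 2 ≤ (π.lam ^ a) ^ 2 :=
    pow_le_pow_left₀ (norm_nonneg _) hm 2
  have hE2 : 0 ≤ Ex ν (fun V => c.chi ν (ℓ + 2) π V * ‖h π i V‖ ^ 2) :=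
    esa_nonneg hν fun V => mul_nonneg (chi_mem c ν _ π V).1 (by positivity)
  have q1 : 0 ≤ π.lam ^ (c.e / 2) *
      Ex ν (fun V => c.chi ν (ℓ + 2) π V * ‖h π i V‖ ^ 2) :=
    mul_nonneg (rp_pos h0 (c.e / 2)).le hE2
  linarith

end Pool.Agent.BK3
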