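import Pool.Agent.BK3.ES

/-! BK3 module ESc: Efron-Stein with cutoffs. `χ1, χ2` is a pair of cutoffs, `h` a complex random
variable and `δ_u(V)` bounds `|h(V) - h(V^{u→t})|` whenever `χ2(V) ≠ 0`.

`esc_step` (`r ≥ 1`): apply `es_real` to `f = χ1 |h|^r`. If `χ2(V) = 0` then `χ1(V) = χ1(V^t) = 0` by
`CutP.n1` (with `t` and with `t = V_u`) and the difference vanishes. Otherwise
`|f - f^t| ≤ |χ1 - χ1^t| |h|^r + χ1^t | |h|^r - |h^t|^r | ≤ χ2 Dχ_u |h|^r + χ2 r (|h| + δ_u)^(r-1) δ_u`, and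
`(|h| + δ)^(r-1) δ ≤ 2^(r-1) (|h|^(r-1) δ + δ^r)`. Square (`(a+b+c)² ≤ 3(a²+b²+c²)`, `χ2² ≤ χ2`), sum
over `u`, `∑_u δ_u^(2r) ≤ (∑_u δ_u²)^r`.
`esc_base`: the same for `f = χ1 h`, `r = 1`, with `es_cplx`. -/

open MeasureTheory Finset Matrix Pool.Agent.BK

noncomputable section

namespace Pool.Agent.BK3

variable {X : Type} [Fintype X] [DecidableEq X] {ν : Measure ℝ} {R s2 : ℝ}

lemma esc_int_le (hν : BLaw ν R s2) {g : ℝ → ℝ} (hg : Continuous g) {K : ℝ}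
    (h : ∀ t ∈ Set.Icc (-R) R, g t ≤ K) : ∫ t, g t ∂ν ≤ K := by
  have := hν.prob
  have h1 : ∫ t, g t ∂ν ≤ ∫ _, K ∂ν := by
    refine integral_mono_ae (int_line hν hg) (integrable_const _) ?_
    filter_upwards [line_ae hν] with t ht
    exact h t ht
  simpa using h1

omit [Fintype X] in
/-- if `χ2` vanishes at `V`, then `χ1` vanishes at `V` and its modifications -/
lemma esc_zero {χ1 χ2 : (X → ℝ) → ℝ} {Dχ : X → (X → ℝ) → ℝ}
    (hc : CutP R χ1 χ2 Dχ) {V : X → ℝ} (hV : V ∈ Box X R) (h0 : χ2 V = 0) (u : X) {t : ℝ}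
    (ht : t ∈ Set.Icc (-R) R) : χ1 V = 0 ∧ χ1 (Function.update V u t) = 0 := by
  have h1 := hc.n1 V hV u t ht
  have h2 := hc.n1 V hV u (V u) (hV u)
  rw [Function.update_eq_self] at h2
  have h3 := (hc.n0 V).1
  have h4 := (hc.n0 (Function.update V u t)).1
  constructor <;> linarith

lemma esc_pow_sub {a b δ : ℝ} (ha : 0 ≤ a) (hb : 0 ≤ b) (h : |a - b| ≤ δ) (r : ℕ) :
    |a ^ r - b ^ r| ≤ r * (a + δ) ^ (r - 1) * δ := by
  have hδ : 0 ≤ δ := (abs_nonneg _).trans h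
  have hb' : b ≤ a + δ := by
    rw [abs_le] at h
    linarith
  have h1 := abs_pow_sub_pow_le a b r
  refine h1.trans ?_
  have h2 : max |a| |b| ≤ a + δ := by
    rw [abs_of_nonneg ha, abs_of_nonneg hb]
    exact max_le (by linarith) hb'
  have h3 : 0 ≤ max |a| |b| := le_max_of_le_left (abs_nonneg _)
  calc |a - b| * r * max |a| |b| ^ (r - 1) ≤ δ * r * (a + δ) ^ (r - 1) := by gcongr
    _ = r * (a + δ) ^ (r - 1) * δ := by ring

lemma esc_alg {a b δ : ℝ} (ha : 0 ≤ a) (hδ : 0 ≤ δ) (hb : 0 ≤ b) {r : ℕ} (hr : 1 ≤ r) :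
    (b * a ^ r + r * (a + δ) ^ (r - 1) * δ) ^ 2 ≤
      (4 * r ^ 2 * 4 ^ r : ℝ) * (b ^ 2 * a ^ (2 * r) + a ^ (2 * r - 2) * δ ^ 2 + (δ ^ 2) ^ r) := by
  obtain ⟨m, rfl⟩ : ∃ m, r = m + 1 := ⟨r - 1, by omega⟩
  rw [show m + 1 - 1 = m by omega, show 2 * (m + 1) - 2 = 2 * m by omega]
  have h1 : (a + δ) ^ m ≤ 2 ^ m * (a ^ m + δ ^ m) := by
    refine (add_pow_le ha hδ m).trans ?_
    have : (2 : ℝ) ^ (m - 1) ≤ 2 ^ m := pow_le_pow_right₀ (by norm_num) (by omega)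
    gcongr
  have h2 : b * a ^ (m + 1) + ((m + 1 : ℕ) : ℝ) * (a + δ) ^ m * δ ≤
      b * a ^ (m + 1) + ((m + 1 : ℕ) : ℝ) * 2 ^ m * (a ^ m * δ) +
        ((m + 1 : ℕ) : ℝ) * 2 ^ m * (δ ^ (m + 1)) := by
    have : ((m + 1 : ℕ) : ℝ) * (a + δ) ^ m * δ ≤
        ((m + 1 : ℕ) : ℝ) * (2 ^ m * (a ^ m + δ ^ m)) * δ := by gcongr
    calc _ ≤ b * a ^ (m + 1) + ((m + 1 : ℕ) : ℝ) * (2 ^ m * (a ^ m + δ ^ m)) * δ := by linarith
      _ = _ := by ring
  have h3 : 0 ≤ b * a ^ (m + 1) + ((m + 1 : ℕ) : ℝ) * (a + δ) ^ m * δ := by positivity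
  have h4 : (b * a ^ (m + 1) + ((m + 1 : ℕ) : ℝ) * (a + δ) ^ m * δ) ^ 2 ≤
      (b * a ^ (m + 1) + ((m + 1 : ℕ) : ℝ) * 2 ^ m * (a ^ m * δ) +
        ((m + 1 : ℕ) : ℝ) * 2 ^ m * (δ ^ (m + 1))) ^ 2 := pow_le_pow_left₀ h3 h2 2
  refine h4.trans ?_
  have h5 : ∀ x y z : ℝ, (x + y + z) ^ 2 ≤ 3 * (x ^ 2 + y ^ 2 + z ^ 2) := fun x y z => by
    nlinarith [sq_nonneg (x - y), sq_nonneg (y - z), sq_nonneg (x - z)]
  refine (h5 _ _ _).trans ?_
  have h6 : (1 : ℝ) ≤ ((m + 1 : ℕ) : ℝ) ^ 2 * 4 ^ m := by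
    have h7 : (1 : ℝ) ≤ ((m + 1 : ℕ) : ℝ) := by exact_mod_cast (by omega : 1 ≤ m + 1)
    have h8 : (1 : ℝ) ≤ 4 ^ m := one_le_pow₀ (by norm_num)
    nlinarith [sq_nonneg (((m + 1 : ℕ) : ℝ))]
  have e1 : (b * a ^ (m + 1)) ^ 2 = b ^ 2 * a ^ (2 * (m + 1)) := by ring
  have e2 : (((m + 1 : ℕ) : ℝ) * 2 ^ m * (a ^ m * δ)) ^ 2 =
      ((m + 1 : ℕ) : ℝ) ^ 2 * 4 ^ m * (a ^ (2 * m) * δ ^ 2) := by
    have : (4 : ℝ) ^ m = (2 ^ m) ^ 2 := by rw [← pow_mul, mul_comm, pow_mul]; norm_num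
    rw [this]
    ring
  have e3 : (((m + 1 : ℕ) : ℝ) * 2 ^ m * δ ^ (m + 1)) ^ 2 =
      ((m + 1 : ℕ) : ℝ) ^ 2 * 4 ^ m * (δ ^ 2) ^ (m + 1) := by
    have : (4 : ℝ) ^ m = (2 ^ m) ^ 2 := by rw [← pow_mul, mul_comm, pow_mul]; norm_num
    rw [this]
    ring
  rw [e1, e2, e3]
  have p1 : 0 ≤ b ^ 2 * a ^ (2 * (m + 1)) := by positivity
  have p2 : 0 ≤ a ^ (2 * m) * δ ^ 2 := by positivity
  have p3 : 0 ≤ (δ ^ 2) ^ (m + 1) := by positivity
  have e4 : (4 * ((m + 1 : ℕ) : ℝ) ^ 2 * 4 ^ (m + 1) : ℝ) =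
      16 * (((m + 1 : ℕ) : ℝ) ^ 2 * 4 ^ m) := by rw [pow_succ]; ring
  rw [e4]
  set K := ((m + 1 : ℕ) : ℝ) ^ 2 * 4 ^ m with hK
  nlinarith [mul_nonneg (sub_nonneg.2 h6) p1, mul_nonneg (show 0 ≤ K by linarith) p1,
    mul_nonneg (show 0 ≤ K by linarith) p2, mul_nonneg (show 0 ≤ K by linarith) p3]

theorem esc_step (hν : BLaw ν R s2) {χ1 χ2 : (X → ℝ) → ℝ} {Dχ : X → (X → ℝ) → ℝ}
    (hc : CutP R χ1 χ2 Dχ) {h : (X → ℝ) → ℂ} (hh : Continuous h) {δ : X → (X → ℝ) → ℝ}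
    (hδc : ∀ u, Continuous (δ u)) (hδ0 : ∀ u V, 0 ≤ δ u V)
    (hδ : ∀ V ∈ Box X R, χ2 V ≠ 0 → ∀ u, ∀ t ∈ Set.Icc (-R) R,
      ‖h V - h (Function.update V u t)‖ ≤ δ u V) {r : ℕ} (hr : 1 ≤ r) :
    Ex ν (fun V => χ1 V ^ 2 * ‖h V‖ ^ (2 * r)) ≤ Ex ν (fun V => χ1 V * ‖h V‖ ^ r) ^ 2 +
      (2 * r ^ 2 * 4 ^ r : ℝ) * Ex ν (fun V => χ2 V * ((∑ u, Dχ u V ^ 2) * ‖h V‖ ^ (2 * r) +
        ‖h V‖ ^ (2 * r - 2) * (∑ u, δ u V ^ 2) + (∑ u, δ u V ^ 2) ^ r)) := by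
  have := hν.prob
  have c1 := hc.c1
  have c2 := hc.c2
  have c3 := hc.c3
  have hf : Continuous fun V => χ1 V * ‖h V‖ ^ r := by fun_prop
  have key := es_real hν hf
  have e1 : ∀ V, (χ1 V * ‖h V‖ ^ r) ^ 2 = χ1 V ^ 2 * ‖h V‖ ^ (2 * r) := fun V => by ring
  simp only [e1] at key
  have hfu : ∀ u, Continuous fun p : (X → ℝ) × ℝ => (χ1 p.1 * ‖h p.1‖ ^ r -
      χ1 (Function.update p.1 u p.2) * ‖h (Function.update p.1 u p.2)‖ ^ r) ^ 2 := fun u => by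
    have h1 : Continuous fun p : (X → ℝ) × ℝ => χ1 p.1 * ‖h p.1‖ ^ r := hf.comp continuous_fst
    have h2 : Continuous fun p : (X → ℝ) × ℝ => χ1 (Function.update p.1 u p.2) *
        ‖h (Function.update p.1 u p.2)‖ ^ r := hf.comp (by fun_prop)
    exact (h1.sub h2).pow 2
  set G : (X → ℝ) → ℝ := fun V => χ2 V * ((∑ u, Dχ u V ^ 2) * ‖h V‖ ^ (2 * r) +
        ‖h V‖ ^ (2 * r - 2) * (∑ u, δ u V ^ 2) + (∑ u, δ u V ^ 2) ^ r) with hG
  have hGc : Continuous G := by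
    rw [hG]
    fun_prop
  have hbd : Ex ν (fun V => ∑ u, ∫ t, (χ1 V * ‖h V‖ ^ r -
      χ1 (Function.update V u t) * ‖h (Function.update V u t)‖ ^ r) ^ 2 ∂ν) ≤
      Ex ν (fun V => (4 * r ^ 2 * 4 ^ r : ℝ) * G V) := by
    refine Ex_box_mono hν (continuous_finsetSum _ fun u _ => cont_int hν (hfu u))
      (hGc.const_mul _) (fun V hV => ?_)
    have hpt : ∀ u, ∫ t, (χ1 V * ‖h V‖ ^ r -
        χ1 (Function.update V u t) * ‖h (Function.update V u t)‖ ^ r) ^ 2 ∂ν ≤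
        χ2 V * ((4 * r ^ 2 * 4 ^ r : ℝ) * (Dχ u V ^ 2 * ‖h V‖ ^ (2 * r) +
          ‖h V‖ ^ (2 * r - 2) * δ u V ^ 2 + (δ u V ^ 2) ^ r)) := by
      intro u
      refine esc_int_le hν ((hfu u).comp (by fun_prop : Continuous fun t : ℝ => (V, t)))
        (fun t ht => ?_)
      change (χ1 V * ‖h V‖ ^ r -
        χ1 (Function.update V u t) * ‖h (Function.update V u t)‖ ^ r) ^ 2 ≤ _
      by_cases h0 : χ2 V = 0
      · obtain ⟨z1, z2⟩ := esc_zero hc hV h0 u ht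
        rw [z1, z2, h0]
        simp
      · have hd := hδ V hV h0 u t ht
        have hn : |‖h V‖ - ‖h (Function.update V u t)‖| ≤ δ u V :=
          (abs_norm_sub_norm_le _ _).trans hd
        have hp := esc_pow_sub (norm_nonneg (h V)) (norm_nonneg _) hn r
        have q0 := (hc.n0' V).1
        have q1 := (hc.n0' V).2
        have q2 := hc.n1 V hV u t ht
        have q3 := hc.n2 V hV u t ht
        have q4 := (hc.n0 (Function.update V u t)).1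
        have hsub : |χ1 V * ‖h V‖ ^ r - χ1 (Function.update V u t) *
            ‖h (Function.update V u t)‖ ^ r| ≤
            χ2 V * (Dχ u V * ‖h V‖ ^ r + r * (‖h V‖ + δ u V) ^ (r - 1) * δ u V) := by
          have e : χ1 V * ‖h V‖ ^ r - χ1 (Function.update V u t) *
            ‖h (Function.update V u t)‖ ^ r =
            (χ1 V - χ1 (Function.update V u t)) * ‖h V‖ ^ r +
            χ1 (Function.update V u t) * (‖h V‖ ^ r - ‖h (Function.update V u t)‖ ^ r) := by ring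
          rw [e]
          refine (abs_add_le _ _).trans ?_
          rw [abs_mul, abs_mul, abs_of_nonneg (pow_nonneg (norm_nonneg (h V)) r),
            abs_of_nonneg q4, mul_add]
          have s1 : |χ1 V - χ1 (Function.update V u t)| * ‖h V‖ ^ r ≤
              χ2 V * Dχ u V * ‖h V‖ ^ r :=
            mul_le_mul_of_nonneg_right q3 (pow_nonneg (norm_nonneg _) r)
          have s2 : χ1 (Function.update V u t) * |‖h V‖ ^ r - ‖h (Function.update V u t)‖ ^ r| ≤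
              χ2 V * (r * (‖h V‖ + δ u V) ^ (r - 1) * δ u V) :=
            mul_le_mul q2 hp (abs_nonneg _) q0
          linarith
        have hsq := esc_alg (norm_nonneg (h V)) (hδ0 u V) (hc.d0 u V) hr
        have hD := hc.d0 u V
        have hd0 := hδ0 u V
        have hY : 0 ≤ Dχ u V * ‖h V‖ ^ r + r * (‖h V‖ + δ u V) ^ (r - 1) * δ u V := by positivity
        calc (χ1 V * ‖h V‖ ^ r - χ1 (Function.update V u t) *
              ‖h (Function.update V u t)‖ ^ r) ^ 2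
            ≤ (χ2 V * (Dχ u V * ‖h V‖ ^ r + r * (‖h V‖ + δ u V) ^ (r - 1) * δ u V)) ^ 2 :=
              sq_le_sq' (by linarith [(abs_le.1 hsub).1]) (abs_le.1 hsub).2
          _ = χ2 V ^ 2 * (Dχ u V * ‖h V‖ ^ r + r * (‖h V‖ + δ u V) ^ (r - 1) * δ u V) ^ 2 := by
              ring
          _ ≤ χ2 V * ((4 * r ^ 2 * 4 ^ r : ℝ) * (Dχ u V ^ 2 * ‖h V‖ ^ (2 * r) +
              ‖h V‖ ^ (2 * r - 2) * δ u V ^ 2 + (δ u V ^ 2) ^ r)) := by
              refine mul_le_mul ?_ hsq (sq_nonneg _) q0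
              rw [sq]
              exact mul_le_of_le_one_left q0 q1
    refine (Finset.sum_le_sum fun u _ => hpt u).trans ?_
    rw [← Finset.mul_sum, ← Finset.mul_sum, hG]
    have hsum : ∑ u, (Dχ u V ^ 2 * ‖h V‖ ^ (2 * r) + ‖h V‖ ^ (2 * r - 2) * δ u V ^ 2 +
        (δ u V ^ 2) ^ r) ≤ (∑ u, Dχ u V ^ 2) * ‖h V‖ ^ (2 * r) +
        ‖h V‖ ^ (2 * r - 2) * (∑ u, δ u V ^ 2) + (∑ u, δ u V ^ 2) ^ r := by
      rw [Finset.sum_add_distrib, Finset.sum_add_distrib, ← Finset.sum_mul, ← Finset.mul_sum]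
      have : ∑ u, (δ u V ^ 2) ^ r ≤ (∑ u, δ u V ^ 2) ^ r := by
        obtain ⟨m, rfl⟩ : ∃ m, r = m + 1 := ⟨r - 1, by omega⟩
        have hS : 0 ≤ ∑ u, δ u V ^ 2 := Finset.sum_nonneg fun u _ => sq_nonneg _
        calc ∑ u, (δ u V ^ 2) ^ (m + 1) = ∑ u, (δ u V ^ 2) ^ m * δ u V ^ 2 := by
              simp only [pow_succ]
          _ ≤ ∑ u, (∑ u, δ u V ^ 2) ^ m * δ u V ^ 2 := by
              refine Finset.sum_le_sum fun u _ => ?_
              have h1 : δ u V ^ 2 ≤ ∑ u, δ u V ^ 2 :=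
                Finset.single_le_sum (f := fun u => δ u V ^ 2) (fun u _ => sq_nonneg _)
                  (Finset.mem_univ u)
              gcongr
          _ = (∑ u, δ u V ^ 2) ^ (m + 1) := by rw [← Finset.mul_sum, pow_succ]
      linarith
    have q0 := (hc.n0' V).1
    have hK : (0 : ℝ) ≤ 4 * r ^ 2 * 4 ^ r := by positivity
    calc χ2 V * ((4 * r ^ 2 * 4 ^ r : ℝ) * ∑ u, (Dχ u V ^ 2 * ‖h V‖ ^ (2 * r) +
          ‖h V‖ ^ (2 * r - 2) * δ u V ^ 2 + (δ u V ^ 2) ^ r))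
        ≤ χ2 V * ((4 * r ^ 2 * 4 ^ r : ℝ) * ((∑ u, Dχ u V ^ 2) * ‖h V‖ ^ (2 * r) +
        ‖h V‖ ^ (2 * r - 2) * (∑ u, δ u V ^ 2) + (∑ u, δ u V ^ 2) ^ r)) := by gcongr
      _ = _ := by ring
  have e2 : Ex ν (fun V => (4 * r ^ 2 * 4 ^ r : ℝ) * G V) = (4 * r ^ 2 * 4 ^ r : ℝ) * Ex ν G :=
    integral_const_mul _ _
  rw [e2] at hbd
  nlinarith

theorem esc_base (hν : BLaw ν R s2) {χ1 χ2 : (X → ℝ) → ℝ} {Dχ : X → (X → ℝ) → ℝ}
    (hc : CutP R χ1 χ2 Dχ) {h : (X → ℝ) → ℂ} (hh : Continuous h) {δ : X → (X → ℝ) → ℝ}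
    (hδc : ∀ u, Continuous (δ u)) (hδ0 : ∀ u V, 0 ≤ δ u V)
    (hδ : ∀ V ∈ Box X R, χ2 V ≠ 0 → ∀ u, ∀ t ∈ Set.Icc (-R) R,
      ‖h V - h (Function.update V u t)‖ ≤ δ u V) :
    Ex ν (fun V => χ1 V ^ 2 * ‖h V‖ ^ 2) ≤ ‖Ex ν (fun V => (χ1 V : ℂ) * h V)‖ ^ 2 +
      2 * Ex ν (fun V => χ2 V * ((∑ u, Dχ u V ^ 2) * ‖h V‖ ^ 2 + ∑ u, δ u V ^ 2)) := by
  have := hν.prob
  have c1 := hc.c1
  have c2 := hc.c2
  have c3 := hc.c3
  have hf : Continuous fun V => (χ1 V : ℂ) * h V := by fun_prop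
  have key := es_cplx hν hf
  have e1 : ∀ V, ‖(χ1 V : ℂ) * h V‖ ^ 2 = χ1 V ^ 2 * ‖h V‖ ^ 2 := fun V => by
    rw [norm_mul, Complex.norm_real, mul_pow, Real.norm_eq_abs, sq_abs]
  simp only [e1] at key
  have hfu : ∀ u, Continuous fun p : (X → ℝ) × ℝ => ‖(χ1 p.1 : ℂ) * h p.1 -
      (χ1 (Function.update p.1 u p.2) : ℂ) * h (Function.update p.1 u p.2)‖ ^ 2 := fun u => by
    have h1 : Continuous fun p : (X → ℝ) × ℝ => (χ1 p.1 : ℂ) * h p.1 := hf.comp continuous_fst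
    have h2 : Continuous fun p : (X → ℝ) × ℝ => (χ1 (Function.update p.1 u p.2) : ℂ) *
        h (Function.update p.1 u p.2) := hf.comp (by fun_prop)
    exact (h1.sub h2).norm.pow 2
  set G : (X → ℝ) → ℝ := fun V => χ2 V * ((∑ u, Dχ u V ^ 2) * ‖h V‖ ^ 2 + ∑ u, δ u V ^ 2) with hG
  have hGc : Continuous G := by
    rw [hG]
    fun_prop
  have hbd : Ex ν (fun V => ∑ u, ∫ t, ‖(χ1 V : ℂ) * h V -
      (χ1 (Function.update V u t) : ℂ) * h (Function.update V u t)‖ ^ 2 ∂ν) ≤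
      Ex ν (fun V => (2 : ℝ) * G V) := by
    refine Ex_box_mono hν (continuous_finsetSum _ fun u _ => cont_int hν (hfu u))
      (hGc.const_mul _) (fun V hV => ?_)
    have hpt : ∀ u, ∫ t, ‖(χ1 V : ℂ) * h V -
      (χ1 (Function.update V u t) : ℂ) * h (Function.update V u t)‖ ^ 2 ∂ν ≤
        χ2 V * (2 * (Dχ u V ^ 2 * ‖h V‖ ^ 2 + δ u V ^ 2)) := by
      intro u
      refine esc_int_le hν ((hfu u).comp (by fun_prop : Continuous fun t : ℝ => (V, t)))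
        (fun t ht => ?_)
      change ‖(χ1 V : ℂ) * h V -
        (χ1 (Function.update V u t) : ℂ) * h (Function.update V u t)‖ ^ 2 ≤ _
      by_cases h0 : χ2 V = 0
      · obtain ⟨z1, z2⟩ := esc_zero hc hV h0 u ht
        rw [z1, z2, h0]
        simp
      · have hd := hδ V hV h0 u t ht
        have q0 := (hc.n0' V).1
        have q1 := (hc.n0' V).2
        have q2 := hc.n1 V hV u t ht
        have q3 := hc.n2 V hV u t ht
        have q4 := (hc.n0 (Function.update V u t)).1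
        have hsub : ‖(χ1 V : ℂ) * h V -
            (χ1 (Function.update V u t) : ℂ) * h (Function.update V u t)‖ ≤
            χ2 V * (Dχ u V * ‖h V‖ + δ u V) := by
          have e : (χ1 V : ℂ) * h V -
            (χ1 (Function.update V u t) : ℂ) * h (Function.update V u t) =
            ((χ1 V - χ1 (Function.update V u t) : ℝ) : ℂ) * h V +
            (χ1 (Function.update V u t) : ℂ) * (h V - h (Function.update V u t)) := by
            push_cast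
            ring
          rw [e]
          refine (norm_add_le _ _).trans ?_
          rw [norm_mul, norm_mul, Complex.norm_real, Complex.norm_real, Real.norm_eq_abs,
            Real.norm_eq_abs, abs_of_nonneg q4, mul_add]
          have s1 : |χ1 V - χ1 (Function.update V u t)| * ‖h V‖ ≤ χ2 V * Dχ u V * ‖h V‖ :=
            mul_le_mul_of_nonneg_right q3 (norm_nonneg _)
          have s2 : χ1 (Function.update V u t) * ‖h V - h (Function.update V u t)‖ ≤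
              χ2 V * δ u V := mul_le_mul q2 hd (norm_nonneg _) q0
          linarith
        have hD := hc.d0 u V
        have hd0 := hδ0 u V
        calc ‖(χ1 V : ℂ) * h V -
            (χ1 (Function.update V u t) : ℂ) * h (Function.update V u t)‖ ^ 2
            ≤ (χ2 V * (Dχ u V * ‖h V‖ + δ u V)) ^ 2 :=
              pow_le_pow_left₀ (norm_nonneg _) hsub 2
          _ = χ2 V ^ 2 * (Dχ u V * ‖h V‖ + δ u V) ^ 2 := by ring
          _ ≤ χ2 V * (2 * (Dχ u V ^ 2 * ‖h V‖ ^ 2 + δ u V ^ 2)) := by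
              refine mul_le_mul ?_ ?_ (sq_nonneg _) q0
              · rw [sq]
                exact mul_le_of_le_one_left q0 q1
              · nlinarith [sq_nonneg (Dχ u V * ‖h V‖ - δ u V)]
    refine (Finset.sum_le_sum fun u _ => hpt u).trans (le_of_eq ?_)
    rw [← Finset.mul_sum, ← Finset.mul_sum, Finset.sum_add_distrib, ← Finset.sum_mul, hG]
    ring
  have e2 : Ex ν (fun V => (2 : ℝ) * G V) = 2 * Ex ν G := integral_const_mul _ _
  rw [e2] at hbd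
  have hG0 : 0 ≤ Ex ν G := by
    refine Ex_box_nonneg hν (fun V _ => ?_)
    have q0 := (hc.n0' V).1
    have : 0 ≤ (∑ u, Dχ u V ^ 2) * ‖h V‖ ^ 2 + ∑ u, δ u V ^ 2 := by positivity
    exact mul_nonneg q0 this
  linarith

end Pool.Agent.BK3
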