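import Pool.Agent.BK3.Defs
import Pool.Agent.BK.Poin

/-! BK3 module Exch: elementary probability for a centred law with compact support.
Everything is a continuous function of the potential; `ν` and the product measure live on the compact
box, so everything is integrable.
`box_ae`: almost every potential is in the box. `int_cont`, `int_cont2`: integrability.
`Ex_box_mono`: monotonicity, only potentials in the box count.
`Ex_upd`: `E f = E ∫ f(V^{x→t}) dν(t)` (`MeasurePreserving` of `(V, t) ↦ update V x t`, see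
`upd_mp` in `Pool.Agent.BK.Poin`, and Fubini).
`exch1`: `E V_x f = E ∫ V_x (f(V) - f(V^{x→t})) dν(t)`: the subtracted term is
`E ∫ V_x f(V^{x→t}) dν(t) = 0`, because for fixed `t` and fixed other coordinates `V_x` is centred
(apply `Ex_upd` at `x` to the function `V ↦ V_x ∫ f(V^{x→t}) dν(t)`; `update (update V x s) x t =
update V x t`). `exch2`: the same with `V_x² - s2`. -/

open MeasureTheory Finset Matrix Pool.Agent.BK

noncomputable section

namespace Pool.Agent.BK3

variable {X : Type} [Fintype X] [DecidableEq X] {ν : Measure ℝ} {R s2 : ℝ}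

lemma line_ae (hν : BLaw ν R s2) : ∀ᵐ t ∂ν, t ∈ Set.Icc (-R) R := mem_ae_iff.2 hν.supp

omit [DecidableEq X] in
lemma box_ae (hν : BLaw ν R s2) : ∀ᵐ V ∂(Measure.pi fun _ : X => ν), V ∈ Box X R := by
  have := hν.prob
  have h : ∀ x : X, ∀ᵐ V ∂(Measure.pi fun _ : X => ν), V x ∈ Set.Icc (-R) R := fun x =>
    (measurePreserving_eval (fun _ : X => ν) x).quasiMeasurePreserving.ae (line_ae hν)
  filter_upwards [ae_all_iff.2 h] with V hV
  exact hV

lemma int_line (hν : BLaw ν R s2) {E : Type} [NormedAddCommGroup E] [NormedSpace ℝ E]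
    {F : ℝ → E} (hF : Continuous F) : Integrable F ν := by
  have := hν.prob
  obtain ⟨B, hB⟩ := (isCompact_Icc (a := -R) (b := R)).exists_bound_of_continuousOn hF.continuousOn
  refine Integrable.of_bound hF.aestronglyMeasurable B ?_
  filter_upwards [line_ae hν] with t ht
  exact hB t ht

lemma s2_le (hν : BLaw ν R s2) : s2 ≤ R ^ 2 := by
  have := hν.prob
  have h1 : ∫ v, v ^ 2 ∂ν ≤ ∫ _, R ^ 2 ∂ν := by
    refine integral_mono_ae (int_line hν (by fun_prop)) (integrable_const _) ?_
    filter_upwards [line_ae hν] with t ht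
    exact sq_le_sq' ht.1 ht.2
  rw [hν.var] at h1
  simpa using h1

omit [DecidableEq X] in
lemma int_cont (hν : BLaw ν R s2) {E : Type} [NormedAddCommGroup E] [NormedSpace ℝ E]
    {F : (X → ℝ) → E} (hF : Continuous F) : Integrable F (Measure.pi fun _ : X => ν) := by
  have := hν.prob
  have hK : IsCompact (Set.pi Set.univ (fun _ : X => Set.Icc (-R) R)) :=
    isCompact_univ_pi (fun _ => isCompact_Icc)
  obtain ⟨B, hB⟩ := hK.exists_bound_of_continuousOn hF.continuousOn
  refine Integrable.of_bound hF.aestronglyMeasurable B ?_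
  filter_upwards [box_ae (X := X) hν] with V hV
  exact hB V (fun x _ => hV x)

omit [DecidableEq X] in
/-- The partial integral of a jointly continuous function is continuous. -/
lemma cont_int (hν : BLaw ν R s2) {E : Type} [NormedAddCommGroup E] [NormedSpace ℝ E]
    {F : (X → ℝ) → ℝ → E} (hF : Continuous fun p : (X → ℝ) × ℝ => F p.1 p.2) :
    Continuous fun V => ∫ t, F V t ∂ν := by
  have := hν.prob
  have h1 : ν.restrict (Set.Icc (-R) R) = ν := Measure.restrict_eq_self_of_ae_mem (line_ae hν)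
  have h2 := continuous_parametric_integral_of_continuous (μ := ν) (f := F) hF
    (isCompact_Icc (a := -R) (b := R))
  rwa [h1] at h2

omit [DecidableEq X] in
lemma Ex_box_mono (hν : BLaw ν R s2) {F G : (X → ℝ) → ℝ} (hF : Continuous F) (hG : Continuous G)
    (h : ∀ V ∈ Box X R, F V ≤ G V) : Ex ν F ≤ Ex ν G := by
  refine integral_mono_ae (int_cont hν hF) (int_cont hν hG) ?_
  filter_upwards [box_ae (X := X) hν] with V hV
  exact h V hV

omit [DecidableEq X] in
lemma Ex_box_nonneg (hν : BLaw ν R s2) {F : (X → ℝ) → ℝ} (h : ∀ V ∈ Box X R, 0 ≤ F V) :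
    0 ≤ Ex ν F := by
  refine integral_nonneg_of_ae ?_
  filter_upwards [box_ae (X := X) hν] with V hV
  exact h V hV

omit [DecidableEq X] in
lemma Ex_one (hν : BLaw ν R s2) (c : ℝ) : Ex ν (fun _ : X → ℝ => c) = c := by
  have := hν.prob
  unfold Ex
  simp

omit [DecidableEq X] in
lemma norm_Ex_le (hν : BLaw ν R s2) {F : (X → ℝ) → ℂ} {G : (X → ℝ) → ℝ} (hF : Continuous F)
    (hG : Continuous G) (h : ∀ V ∈ Box X R, ‖F V‖ ≤ G V) : ‖Ex ν F‖ ≤ Ex ν G := by
  refine norm_integral_le_of_norm_le (int_cont hν hG) ?_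
  filter_upwards [box_ae (X := X) hν] with V hV
  exact h V hV

omit [DecidableEq X] in
/-- The mixed version: `E ∫ F(V, t) dν(t)` is bounded by `E G` if `|F(V, t)| ≤ G(V)`. -/
lemma norm_Ex2_le (hν : BLaw ν R s2) {F : (X → ℝ) → ℝ → ℂ} {G : (X → ℝ) → ℝ}
    (hF : Continuous fun p : (X → ℝ) × ℝ => F p.1 p.2) (hG : Continuous G)
    (h : ∀ V ∈ Box X R, ∀ t ∈ Set.Icc (-R) R, ‖F V t‖ ≤ G V) :
    ‖Ex ν (fun V => ∫ t, F V t ∂ν)‖ ≤ Ex ν G := by
  have := hν.prob
  refine norm_Ex_le hν (cont_int hν hF) hG (fun V hV => ?_)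
  have h1 : ‖∫ t, F V t ∂ν‖ ≤ ∫ _, G V ∂ν := by
    refine norm_integral_le_of_norm_le (integrable_const _) ?_
    filter_upwards [line_ae hν] with t ht
    exact h V hV t ht
  simpa using h1

lemma Ex_upd (hν : BLaw ν R s2) {E : Type} [NormedAddCommGroup E] [NormedSpace ℝ E]
    {F : (X → ℝ) → E} (hF : Continuous F) (x : X) :
    Ex ν F = Ex ν (fun V => ∫ t, F (Function.update V x t) ∂ν) := by
  have := hν.prob
  have hU := Poin.upd_mp (X := X) ν x
  have hI2 : Integrable F (Measure.pi fun _ : X => ν) := int_cont hν hF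
  have hI : Integrable (fun p : (X → ℝ) × ℝ => F (Function.update p.1 x p.2))
      ((Measure.pi fun _ : X => ν).prod ν) :=
    (hU.integrable_comp hI2.aestronglyMeasurable).2 hI2
  unfold Ex
  rw [← integral_prod (μ := Measure.pi fun _ : X => ν) (ν := ν) _ hI]
  conv_lhs => rw [← hU.map_eq]
  rw [integral_map hU.measurable.aemeasurable
    (by rw [hU.map_eq]; exact hI2.aestronglyMeasurable)]

lemma exch_gen (hν : BLaw ν R s2) {g : ℝ → ℝ} (hg : Continuous g) (h0 : ∫ t, g t ∂ν = 0)
    {f : (X → ℝ) → ℂ} (hf : Continuous f) (x : X) :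
    Ex ν (fun V => (g (V x) : ℂ) * f V) =
      Ex ν (fun V => ∫ t, (g (V x) : ℂ) * (f V - f (Function.update V x t)) ∂ν) := by
  have := hν.prob
  have hfu : Continuous fun p : (X → ℝ) × ℝ => f (Function.update p.1 x p.2) :=
    hf.comp (by fun_prop)
  have hh : Continuous fun V : X → ℝ => ∫ t, f (Function.update V x t) ∂ν := cont_int hν hfu
  have hline : ∀ V : X → ℝ, Integrable (fun t => f (Function.update V x t)) ν := fun V =>
    int_line hν (hf.comp (by fun_prop))
  have h1 : ∀ V : X → ℝ, ∫ t, (g (V x) : ℂ) * (f V - f (Function.update V x t)) ∂ν =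
      (g (V x) : ℂ) * f V - (g (V x) : ℂ) * ∫ t, f (Function.update V x t) ∂ν := by
    intro V
    rw [integral_const_mul, integral_sub (integrable_const _) (hline V), mul_sub]
    simp
  have h2 : Ex ν (fun V : X → ℝ => (g (V x) : ℂ) * ∫ t, f (Function.update V x t) ∂ν) = 0 := by
    rw [Ex_upd hν (by fun_prop) x]
    have h3 : ∀ V : X → ℝ, ∫ s, ((g ((Function.update V x s) x) : ℂ) *
        ∫ t, f (Function.update (Function.update V x s) x t) ∂ν) ∂ν = 0 := by
      intro V
      simp only [Function.update_self, Function.update_idem]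
      have h5 : ∫ a, (g a : ℂ) ∂ν = ((∫ a, g a ∂ν : ℝ) : ℂ) := integral_ofReal
      rw [integral_mul_const, h5, h0]
      simp
    unfold Ex
    simp only [h3, integral_zero]
  simp only [h1]
  have h4 : Ex ν (fun V : X → ℝ => (g (V x) : ℂ) * f V -
      (g (V x) : ℂ) * ∫ t, f (Function.update V x t) ∂ν) =
      Ex ν (fun V : X → ℝ => (g (V x) : ℂ) * f V) -
      Ex ν (fun V : X → ℝ => (g (V x) : ℂ) * ∫ t, f (Function.update V x t) ∂ν) :=
    integral_sub (int_cont hν (by fun_prop)) (int_cont hν (by fun_prop))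
  rw [h4, h2, sub_zero]

theorem exch1 (hν : BLaw ν R s2) {f : (X → ℝ) → ℂ} (hf : Continuous f) (x : X) :
    Ex ν (fun V => (V x : ℂ) * f V) =
      Ex ν (fun V => ∫ t, (V x : ℂ) * (f V - f (Function.update V x t)) ∂ν) :=
  exch_gen hν continuous_id hν.mean hf x

theorem exch2 (hν : BLaw ν R s2) {f : (X → ℝ) → ℂ} (hf : Continuous f) (x : X) :
    Ex ν (fun V => ((V x ^ 2 - s2 : ℝ) : ℂ) * f V) =
      Ex ν (fun V => ∫ t, ((V x ^ 2 - s2 : ℝ) : ℂ) * (f V - f (Function.update V x t)) ∂ν) := by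
  have := hν.prob
  refine exch_gen hν (g := fun v => v ^ 2 - s2) (by fun_prop) ?_ hf x
  rw [integral_sub (int_line hν (by fun_prop)) (integrable_const _), hν.var]
  simp

end Pool.Agent.BK3
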