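import Pool.Agent.BK3.Defs
import Pool.Agent.BK.TorB

/-! BK3 module FLow: the lower bound of `Q(k)` for a general momentum from the one along an axis. By the
symmetry `y ↦ rfl' σ y`, `σ = -1` at `j` and `1` elsewhere (`H0_rfl'`, `torb_Gr_equiv`: `Gr_{0, σy} = Gr_{0,y}`),
`∑_y |Gr_0y|² Re ch k y = ∑_y |Gr_0y|² cos θ_j Re (∏_{l ≠ j} exp(i θ_l))`, `θ_l = ang(k_l) y_l` (`stdAddChar_eq`).
`1 - |cos θ_j| ≥ sin²θ_j/2 = (1 - cos 2θ_j)/4`, and `2θ_j = ± (2π m/(2n+1)) y_j` with `m = 2|k_j|` (`valMinAbs`),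
`2π m/(2n+1) = 2|ang k_j| ≤ κγ`. So `∑ |Gr|² (1 - Re ch k y) ≥ (1/4) κ (2 ang k_j)²/γ³ = κ ang(k_j)²/γ³`. -/

open MeasureTheory Finset Matrix Pool.Agent.BK

noncomputable section

namespace Pool.Agent.BK3

/-- reflection of one coordinate -/
def flowS {d : ℕ} (j : Fin d) : Fin d → ℤˣ := Function.update 1 j (-1)

lemma flow_rfl_zero {d n : ℕ} (σ : Fin d → ℤˣ) : rfl' σ (0 : Tor d n) = 0 := by
  funext l
  unfold rfl'
  rw [Pi.zero_apply, smul_zero]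

lemma flow_Gr {d n : ℕ} (σ : Fin d → ℤˣ) (ζ : ℂ) (y : Tor d n) :
    Gr (H0 d n) 0 ζ 0 (rfl' σ y) = Gr (H0 d n) 0 ζ 0 y := by
  have h := torb_Gr_equiv (torb_refl (n := n) σ) (fun x y => H0_rfl' σ x y) 0 ζ 0 y
  have h1 : torb_refl (n := n) σ 0 = 0 := flow_rfl_zero σ
  have h2 : torb_refl (n := n) σ y = rfl' σ y := rfl
  rw [h1, h2] at h
  exact h

lemma flow_sum {d n : ℕ} (σ : Fin d → ℤˣ) (f : Tor d n → ℝ) :
    ∑ y, f (rfl' σ y) = ∑ y, f y :=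
  Equiv.sum_comp (torb_refl (n := n) σ) f

lemma flow_ch {d n : ℕ} (k y : Tor d n) (j : Fin d) :
    ch k y = (ZMod.stdAddChar (k j * y j) : ℂ) *
      ∏ l ∈ univ.erase j, (ZMod.stdAddChar (k l * y l) : ℂ) := by
  unfold ch
  exact (Finset.mul_prod_erase univ (fun l => (ZMod.stdAddChar (k l * y l) : ℂ)) (mem_univ j)).symm

lemma flow_ch' {d n : ℕ} (k y : Tor d n) (j : Fin d) :
    ch k (rfl' (flowS j) y) = (ZMod.stdAddChar (-(k j * y j)) : ℂ) *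
      ∏ l ∈ univ.erase j, (ZMod.stdAddChar (k l * y l) : ℂ) := by
  rw [flow_ch k _ j]
  congr 1
  · congr 1
    unfold rfl' flowS
    rw [Function.update_self]
    simp
  · refine Finset.prod_congr rfl fun l hl => ?_
    congr 1
    unfold rfl' flowS
    rw [Function.update_of_ne (Finset.ne_of_mem_erase hl)]
    simp

lemma flow_norm {d n : ℕ} (k y : Tor d n) (j : Fin d) :
    ‖∏ l ∈ univ.erase j, (ZMod.stdAddChar (k l * y l) : ℂ)‖ = 1 := by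
  rw [norm_prod]
  exact Finset.prod_eq_one fun l _ => AddChar.norm_apply _ _

lemma flow_avg {d n : ℕ} (k y : Tor d n) (j : Fin d) :
    (ch k y).re + (ch k (rfl' (flowS j) y)).re ≤
      2 * |Real.cos (ang n (k j) * ((y j).valMinAbs : ℝ))| := by
  rw [flow_ch k y j, flow_ch' k y j, AddChar.map_neg_eq_conj, ← Complex.add_re, ← add_mul,
    stdAddChar_eq]
  set P := ∏ l ∈ univ.erase j, (ZMod.stdAddChar (k l * y l) : ℂ) with hP
  have hPn : ‖P‖ = 1 := flow_norm k y j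
  set θ : ℝ := ang n (k j) * ((y j).valMinAbs : ℝ) with hθ
  have h1 : Complex.exp (Complex.I * (θ : ℝ)) +
      (starRingEnd ℂ) (Complex.exp (Complex.I * (θ : ℝ))) = ((2 * Real.cos θ : ℝ) : ℂ) := by
    rw [Complex.add_conj, mul_comm Complex.I, Complex.exp_ofReal_mul_I_re]
  rw [h1, Complex.re_ofReal_mul]
  have h2 : |P.re| ≤ 1 := hPn ▸ Complex.abs_re_le_norm P
  calc 2 * Real.cos θ * P.re ≤ |2 * Real.cos θ * P.re| := le_abs_self _
    _ = 2 * |Real.cos θ| * |P.re| := by rw [abs_mul, abs_mul, abs_two]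
    _ ≤ 2 * |Real.cos θ| * 1 := by
      apply mul_le_mul_of_nonneg_left h2
      positivity
    _ = 2 * |Real.cos θ| := by ring

lemma flow_cos (θ : ℝ) : (1 - Real.cos (2 * θ)) / 4 ≤ 1 - |Real.cos θ| := by
  rw [Real.cos_two_mul]
  have h1 : |Real.cos θ| ≤ 1 := Real.abs_cos_le_one θ
  have h0 := abs_nonneg (Real.cos θ)
  have h2 : Real.cos θ ^ 2 = |Real.cos θ| ^ 2 := (sq_abs _).symm
  rw [h2]
  nlinarith

theorem flow {d n : ℕ} {κ : ℝ} {ζ : ℂ} (hκ : 0 < κ) (h0 : 0 < ζ.im)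
    (h : ∀ (j : Fin d) (m : ℕ), 2 * Real.pi * m / (2 * n + 1) ≤ κ * ζ.im →
      κ * (2 * Real.pi * m / (2 * n + 1)) ^ 2 / ζ.im ^ 3 ≤
        ∑ y : Tor d n, ‖Gr (H0 d n) 0 ζ 0 y‖ ^ 2 *
          (1 - Real.cos (2 * Real.pi * m / (2 * n + 1) * ((y j).valMinAbs : ℝ))))
    (k : Tor d n) (hk : ∀ l, |ang n (k l)| ≤ κ * ζ.im / 2) (j : Fin d) :
    κ * ang n (k j) ^ 2 / ζ.im ^ 3 ≤
      ∑ y, ‖Gr (H0 d n) 0 ζ 0 y‖ ^ 2 * (1 - (ch k y).re) := by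
  have hN : (0 : ℝ) < 2 * n + 1 := by positivity
  have hpi := Real.pi_pos
  have hm : 2 * Real.pi * ((2 * (k j).valMinAbs.natAbs : ℕ) : ℝ) / (2 * n + 1) =
      2 * |ang n (k j)| := by
    unfold ang
    rw [abs_div, abs_mul, abs_mul, abs_two, abs_of_pos hpi, abs_of_pos hN]
    push_cast
    rw [Nat.cast_natAbs, Int.cast_abs]
    ring
  have h1 := h j (2 * (k j).valMinAbs.natAbs) (by rw [hm]; linarith [hk j])
  rw [hm] at h1
  have hcos : ∀ y : Tor d n, Real.cos (2 * |ang n (k j)| * ((y j).valMinAbs : ℝ)) =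
      Real.cos (2 * (ang n (k j) * ((y j).valMinAbs : ℝ))) := by
    intro y
    rcases abs_choice (ang n (k j)) with e | e
    · rw [e]; ring_nf
    · rw [e, ← Real.cos_neg]; ring_nf
  have hw : ∀ y : Tor d n, 0 ≤ ‖Gr (H0 d n) 0 ζ 0 y‖ ^ 2 := fun y => by positivity
  have h2 : ∑ y : Tor d n, ‖Gr (H0 d n) 0 ζ 0 y‖ ^ 2 *
      (1 - |Real.cos (ang n (k j) * ((y j).valMinAbs : ℝ))|) ≤
      ∑ y, ‖Gr (H0 d n) 0 ζ 0 y‖ ^ 2 * (1 - (ch k y).re) := by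
    have e := flow_sum (flowS j) (fun y : Tor d n =>
      ‖Gr (H0 d n) 0 ζ 0 y‖ ^ 2 * (1 - (ch k y).re))
    have e2 : ∑ y, ‖Gr (H0 d n) 0 ζ 0 y‖ ^ 2 * (1 - (ch k y).re) =
        ∑ y, ‖Gr (H0 d n) 0 ζ 0 y‖ ^ 2 *
          (1 - ((ch k y).re + (ch k (rfl' (flowS j) y)).re) / 2) := by
      have e3 : ∑ y, ‖Gr (H0 d n) 0 ζ 0 y‖ ^ 2 *
          (1 - ((ch k y).re + (ch k (rfl' (flowS j) y)).re) / 2) =
          (∑ y, ‖Gr (H0 d n) 0 ζ 0 y‖ ^ 2 * (1 - (ch k y).re) +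
          ∑ y, ‖Gr (H0 d n) 0 ζ 0 (rfl' (flowS j) y)‖ ^ 2 *
            (1 - (ch k (rfl' (flowS j) y)).re)) / 2 := by
        rw [← Finset.sum_add_distrib, Finset.sum_div]
        refine Finset.sum_congr rfl fun y _ => ?_
        rw [flow_Gr]
        ring
      rw [e3, e]
      ring
    rw [e2]
    refine Finset.sum_le_sum fun y _ => ?_
    apply mul_le_mul_of_nonneg_left _ (hw y)
    have := flow_avg k y j
    linarith
  refine le_trans ?_ h2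
  have h3 : ∑ y : Tor d n, ‖Gr (H0 d n) 0 ζ 0 y‖ ^ 2 *
      ((1 - Real.cos (2 * |ang n (k j)| * ((y j).valMinAbs : ℝ))) / 4) ≤
      ∑ y : Tor d n, ‖Gr (H0 d n) 0 ζ 0 y‖ ^ 2 *
      (1 - |Real.cos (ang n (k j) * ((y j).valMinAbs : ℝ))|) := by
    refine Finset.sum_le_sum fun y _ => ?_
    apply mul_le_mul_of_nonneg_left _ (hw y)
    rw [hcos]
    exact flow_cos _
  refine le_trans ?_ h3
  have h4 : ∑ y : Tor d n, ‖Gr (H0 d n) 0 ζ 0 y‖ ^ 2 *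
      ((1 - Real.cos (2 * |ang n (k j)| * ((y j).valMinAbs : ℝ))) / 4) =
      (∑ y : Tor d n, ‖Gr (H0 d n) 0 ζ 0 y‖ ^ 2 *
      (1 - Real.cos (2 * |ang n (k j)| * ((y j).valMinAbs : ℝ)))) / 4 := by
    rw [Finset.sum_div]
    refine Finset.sum_congr rfl fun y _ => ?_
    ring
  rw [h4, le_div_iff₀ (by norm_num)]
  refine le_trans (le_of_eq ?_) h1
  rw [mul_pow, sq_abs]
  ring

end Pool.Agent.BK3
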