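import Pool.Agent.BK3.Fw
import Pool.Agent.BK3.FLow

/-! BK3 module FC3: the free bounds with `q = 3` from `FreeB` (proved in BK: `freeB` for `d ≥ 3` and the window
`[b, 2-b]`, `freeB4` for `d ≥ 4` and `[b, 4d-b]`). `wq`: `fw` with `q = 3` and `FreeB.fb12` (natural power 3 against real
power 3: `Real.rpow_natCast`); `w2`: `fw2` (`p = 3`) and `fw` with `q = 2`; `l4`: `∑|G|⁴ ≤ sup|G| ∑|G|³ ≤ (∑|G|³)^(4/3)`,
with `ε` replaced by `3ε/4`; `im`, `low`: `FreeB.fb34` and `flow`. (`ζ.im ≤ κ ≤ 1`.) -/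

open MeasureTheory Finset Matrix Pool.Agent.BK

noncomputable section

namespace Pool.Agent.BK3

theorem freeC3 {d : ℕ} (hd : 1 ≤ d) {lo hi : ℝ} (h : FreeB d lo hi) :
    ∃ κ : ℝ, FreeC d (1 / (1 / 2 - 1 / 6)) κ lo hi := by
  obtain ⟨κ, hκ, hκ1, hlow⟩ := h.fb34
  refine ⟨κ, ⟨hκ, hκ1, ?_, ?_, ?_, ?_, ?_⟩⟩
  · intro ε ς hε hς
    obtain ⟨C1, hC1, h1⟩ := h.fb12 ε hε
    obtain ⟨C2, hC2, h2⟩ := fw (d := d) (q := 3) hd (by norm_num) hς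
    refine ⟨C2 * (C1 + 1), by positivity, fun ζ n r hlo hhi h3 h4 h5 h6 h7 y => ?_⟩
    have h41 := h4.trans hκ1
    have h8 := (h1 ζ n hlo hhi h3 h41 h5).1 y
    have h9 : ∑ x, ‖Gr (H0 d n) 0 ζ y x‖ ^ (3 : ℝ) ≤ C1 * ζ.im ^ (-ε) := by
      refine le_trans (le_of_eq ?_) h8
      refine Finset.sum_congr rfl fun x _ => ?_
      exact_mod_cast Real.rpow_natCast (‖Gr (H0 d n) 0 ζ y x‖) 3
    have h10 := h2 ζ n r _ h3 h41 h6 h7 y h9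
    rw [show (1 : ℝ) / (1 / 2 - 1 / 6) = 3 by norm_num]
    refine h10.trans ?_
    have hg1 : 1 ≤ ζ.im ^ (-ε) :=
      Real.one_le_rpow_of_pos_of_le_one_of_nonpos h3 h41 (by linarith)
    rw [mul_assoc]
    refine mul_le_mul_of_nonneg_left ?_ hC2.le
    linarith
  · intro ε ς hε hς
    obtain ⟨C1, hC1, h1⟩ := h.fb12 ε hε
    obtain ⟨C2, hC2, h2⟩ := fw (d := d) (q := 2) hd (by norm_num) hς
    refine ⟨C2 * (2 * (C1 + 1)), by positivity, fun ζ n r hlo hhi h3 h4 h5 h6 h7 y => ?_⟩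
    have h41 := h4.trans hκ1
    have hg1 : 1 ≤ ζ.im ^ (-ε) :=
      Real.one_le_rpow_of_pos_of_le_one_of_nonpos h3 h41 (by linarith)
    have h8 : ∑ x, ‖Gr (H0 d n) 0 ζ y x‖ ^ 3 ≤ (C1 + 1) * ζ.im ^ (-ε) := by
      refine ((h1 ζ n hlo hhi h3 h41 h5).1 y).trans ?_
      nlinarith
    have hA : 1 ≤ (C1 + 1) * ζ.im ^ (-ε) := by nlinarith
    have h9 := fw2 (p := 3) (by norm_num) h3 hA y h8
    have h10 : ∑ x, ‖Gr (H0 d n) 0 ζ y x‖ ^ (2 : ℝ) ≤ (C1 + 1) * ζ.im ^ (-ε) / ζ.im := by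
      refine le_trans (le_of_eq ?_) h9
      refine Finset.sum_congr rfl fun x _ => ?_
      exact_mod_cast Real.rpow_natCast (‖Gr (H0 d n) 0 ζ y x‖) 2
    have h11 := h2 ζ n r _ h3 h41 h6 h7 y h10
    have h12 : ∑ x, (‖Gr (H0 d n) 0 ζ y x‖ / ph2 r y x) ^ 2 =
        ∑ x, (‖Gr (H0 d n) 0 ζ y x‖ / ph2 r y x) ^ (2 : ℝ) := by
      refine Finset.sum_congr rfl fun x _ => ?_
      exact_mod_cast (Real.rpow_natCast (‖Gr (H0 d n) 0 ζ y x‖ / ph2 r y x) 2).symm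
    rw [h12]
    refine h11.trans ?_
    have h13 : ζ.im ^ (-1 - ε) = ζ.im ^ (-ε) / ζ.im := by
      rw [show -1 - ε = -ε - 1 by ring, Real.rpow_sub_one h3.ne']
    rw [h13, mul_assoc]
    refine mul_le_mul_of_nonneg_left ?_ hC2.le
    have h14 : 1 ≤ (C1 + 1) * ζ.im ^ (-ε) / ζ.im := by
      rw [le_div_iff₀ h3]
      linarith
    rw [mul_div_assoc] at h14 ⊢
    linarith
  · intro ε hε
    obtain ⟨C1, hC1, h1⟩ := h.fb12 (3 * ε / 4) (by positivity)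
    refine ⟨C1 ^ (4 / 3 : ℝ), by positivity, fun ζ n hlo hhi h3 h4 h5 y => ?_⟩
    have h41 := h4.trans hκ1
    have h8 := (h1 ζ n hlo hhi h3 h41 h5).1 y
    set S := ∑ x, ‖Gr (H0 d n) 0 ζ y x‖ ^ 3 with hS
    have hS0 : 0 ≤ S := Finset.sum_nonneg fun x _ => by positivity
    have hsup : ∀ x, ‖Gr (H0 d n) 0 ζ y x‖ ≤ S ^ (1 / 3 : ℝ) := by
      intro x
      have e1 : ‖Gr (H0 d n) 0 ζ y x‖ ^ 3 ≤ S :=
        Finset.single_le_sum (f := fun x => ‖Gr (H0 d n) 0 ζ y x‖ ^ 3)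
          (fun x _ => by positivity) (Finset.mem_univ x)
      have e2 : ‖Gr (H0 d n) 0 ζ y x‖ = (‖Gr (H0 d n) 0 ζ y x‖ ^ 3) ^ (1 / 3 : ℝ) := by
        rw [← Real.rpow_natCast, ← Real.rpow_mul (norm_nonneg _)]
        norm_num
      rw [e2]
      exact Real.rpow_le_rpow (by positivity) e1 (by norm_num)
    have e3 : ∑ x, ‖Gr (H0 d n) 0 ζ y x‖ ^ 4 ≤ S ^ (1 / 3 : ℝ) * S := by
      rw [hS, Finset.mul_sum]
      refine Finset.sum_le_sum fun x _ => ?_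
      have : ‖Gr (H0 d n) 0 ζ y x‖ ^ 4 =
          ‖Gr (H0 d n) 0 ζ y x‖ * ‖Gr (H0 d n) 0 ζ y x‖ ^ 3 := by ring
      rw [this]
      exact mul_le_mul_of_nonneg_right (hsup x) (by positivity)
    have e4 : S ^ (1 / 3 : ℝ) * S = S ^ (4 / 3 : ℝ) := by
      rcases hS0.eq_or_lt with h0 | h0
      · rw [← h0, mul_zero, Real.zero_rpow (by norm_num)]
      · nth_rewrite 2 [← Real.rpow_one S]
        rw [← Real.rpow_add h0]
        norm_num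
    rw [e4] at e3
    refine e3.trans ((Real.rpow_le_rpow hS0 h8 (by norm_num)).trans (le_of_eq ?_))
    rw [Real.mul_rpow hC1.le (by positivity), ← Real.rpow_mul h3.le]
    congr 2
    ring
  · exact fun ζ n h1 h2 h3 h4 h5 x => (hlow ζ n h1 h2 h3 h4 h5).1 x
  · exact fun ζ n h1 h2 h3 h4 h5 k hk j => flow hκ h3 (hlow ζ n h1 h2 h3 h4 h5).2 k hk j

end Pool.Agent.BK3
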