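import Pool.Agent.BK.K4B

/-! BK3 module K3I: `∫_T^{2T} |knf|³ dt ≤ C T^(-1/2)` and the sup bound of the blocks for `d ≥ 3`:
`|blkf ζ T x| ≤ C T^(-1/2)`. Copy the proofs of `knf_int` and `blkf_le` (`BK/K4B.lean`; fourth power and `d ≥ 4`
there): near part (`|m| ≤ 4T²`) `|knf| ≤ |kf| + C T²/(2n+1)·..` (`riem_f`), `|kf t m|³ ≤ C t^(-3/4)
(1 + |2t - |m||)^(-3/4)` (`kf_le`), `∫_T^{2T} (1 + |2t - M|)^(-3/4) dt ≤ C T^(1/4)`; far part `sbp_f`. For the product of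
`d ≥ 3` factors `≤ 1`: `∏ a_l ≤ ∑ a_l³`. -/

open MeasureTheory Finset Matrix Pool.Agent.BK

noncomputable section

namespace Pool.Agent.BK3

namespace K3I

lemma cont_inv (c : ℝ) : Continuous fun s : ℝ => (1 + 2 * |c - s|) ^ (-(3 / 4 : ℝ)) := by
  refine Continuous.rpow_const (by fun_prop) ?_
  intro s
  left
  positivity

lemma int_right (t B : ℝ) (hB : t ≤ B) :
    ∫ s in t..B, (1 + 2 * |t - s|) ^ (-(3 / 4 : ℝ)) ≤ 2 * (1 + 2 * (B - t)) ^ (1 / 4 : ℝ) := by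
  have hd : ∀ s ∈ Set.uIcc t B, HasDerivAt (fun s : ℝ => 2 * (1 + 2 * (s - t)) ^ (1 / 4 : ℝ))
      ((1 + 2 * (s - t)) ^ (-(3 / 4 : ℝ))) s := by
    intro s hs
    rw [Set.uIcc_of_le hB] at hs
    have hp : 0 < 1 + 2 * (s - t) := by linarith [hs.1]
    have h1 : HasDerivAt (fun s : ℝ => 1 + 2 * (s - t)) 2 s := by
      simpa using (((hasDerivAt_id s).sub_const t).const_mul 2).const_add 1
    have h2 := (h1.rpow_const (p := 1 / 4) (Or.inl hp.ne')).const_mul 2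
    have h3 : (1 + 2 * (s - t)) ^ (-(3 / 4 : ℝ)) =
        2 * (2 * (1 / 4) * (1 + 2 * (s - t)) ^ ((1 / 4 : ℝ) - 1)) := by
      rw [show (1 / 4 : ℝ) - 1 = -(3 / 4) by norm_num]
      ring
    rw [h3]
    exact h2
  have hc : ContinuousOn (fun s : ℝ => (1 + 2 * (s - t)) ^ (-(3 / 4 : ℝ))) (Set.uIcc t B) := by
    rw [Set.uIcc_of_le hB]
    refine ContinuousOn.rpow_const (by fun_prop) ?_
    intro s hs
    have hp : 0 < 1 + 2 * (s - t) := by linarith [hs.1]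
    exact Or.inl hp.ne'
  have he : ∫ s in t..B, (1 + 2 * |t - s|) ^ (-(3 / 4 : ℝ)) =
      ∫ s in t..B, (1 + 2 * (s - t)) ^ (-(3 / 4 : ℝ)) := by
    refine intervalIntegral.integral_congr fun s hs => ?_
    rw [Set.uIcc_of_le hB] at hs
    have : |t - s| = s - t := by
      rw [abs_sub_comm]; exact abs_of_nonneg (by linarith [hs.1])
    simp only [this]
  rw [he, intervalIntegral.integral_eq_sub_of_hasDerivAt hd hc.intervalIntegrable]
  simp

lemma int_left (A t : ℝ) (hA : A ≤ t) :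
    ∫ s in A..t, (1 + 2 * |t - s|) ^ (-(3 / 4 : ℝ)) ≤ 2 * (1 + 2 * (t - A)) ^ (1 / 4 : ℝ) := by
  have h := intervalIntegral.integral_comp_sub_left
    (a := A) (b := t) (fun s : ℝ => (1 + 2 * |t - s|) ^ (-(3 / 4 : ℝ))) (2 * t)
  have h1 : (fun x : ℝ => (1 + 2 * |t - (2 * t - x)|) ^ (-(3 / 4 : ℝ))) =
      fun x : ℝ => (1 + 2 * |t - x|) ^ (-(3 / 4 : ℝ)) := by
    funext x
    have : t - (2 * t - x) = x - t := by ring
    rw [this, abs_sub_comm]
  rw [h1] at h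
  rw [h, show 2 * t - t = t by ring]
  have := int_right t (2 * t - A) (by linarith)
  rwa [show 2 * t - A - t = t - A by ring] at this

lemma int_all {T c : ℝ} (hT : 1 ≤ T) (h1 : T ≤ c) (h2 : c ≤ 2 * T) :
    ∫ s in T..(2 * T), (1 + 2 * |c - s|) ^ (-(3 / 4 : ℝ)) ≤ 12 * T ^ (1 / 4 : ℝ) := by
  rw [← intervalIntegral.integral_add_adjacent_intervals ((cont_inv c).intervalIntegrable T c)
    ((cont_inv c).intervalIntegrable c (2 * T))]
  have e1 := int_left T c h1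
  have e2 := int_right c (2 * T) h2
  have hT0 : 0 ≤ T := by linarith
  have hq : (3 * T) ^ (1 / 4 : ℝ) ≤ 3 * T ^ (1 / 4 : ℝ) := by
    rw [Real.mul_rpow (by norm_num) hT0]
    have h3 : (3 : ℝ) ^ (1 / 4 : ℝ) ≤ 3 := by
      calc (3 : ℝ) ^ (1 / 4 : ℝ) ≤ 3 ^ (1 : ℝ) :=
            Real.rpow_le_rpow_of_exponent_le (by norm_num) (by norm_num)
        _ = 3 := Real.rpow_one 3
    gcongr
  have e3 : (1 + 2 * (c - T)) ^ (1 / 4 : ℝ) ≤ (3 * T) ^ (1 / 4 : ℝ) :=
    Real.rpow_le_rpow (by linarith) (by linarith) (by norm_num)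
  have e4 : (1 + 2 * (2 * T - c)) ^ (1 / 4 : ℝ) ≤ (3 * T) ^ (1 / 4 : ℝ) :=
    Real.rpow_le_rpow (by linarith) (by linarith) (by norm_num)
  linarith

/-- `∫_T^{2T} (1 + |2t - M|)^(-3/4) dt ≤ 12 T^(1/4)`. -/
lemma int_M {T : ℝ} (M : ℝ) (hT : 1 ≤ T) :
    ∫ s in T..(2 * T), (1 + |2 * s - M|) ^ (-(3 / 4 : ℝ)) ≤ 12 * T ^ (1 / 4 : ℝ) := by
  set c : ℝ := max T (min (M / 2) (2 * T)) with hc
  have hc1 : T ≤ c := le_max_left _ _
  have hc2 : c ≤ 2 * T := max_le (by linarith) (min_le_right _ _)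
  refine le_trans ?_ (int_all hT hc1 hc2)
  refine intervalIntegral.integral_mono_on (by linarith) ?_ ((cont_inv c).intervalIntegrable _ _) ?_
  · refine Continuous.intervalIntegrable ?_ _ _
    refine Continuous.rpow_const (by fun_prop) ?_
    intro s
    left
    positivity
  · intro s hs
    refine Real.rpow_le_rpow_of_nonpos (by positivity) ?_ (by norm_num)
    have : 2 * |c - s| ≤ |2 * s - M| := by
      rcases le_total (M / 2) T with h | h
      · have h' : c = T := by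
          rw [hc]; exact max_eq_left (le_trans (min_le_left _ _) h)
        rw [h', abs_of_nonpos (by linarith [hs.1]), abs_of_nonneg (by linarith [hs.1])]
        linarith
      · rcases le_total (M / 2) (2 * T) with h3 | h3
        · have h' : c = M / 2 := by
            rw [hc, min_eq_left h3, max_eq_right h]
          rw [h', ← abs_two, ← abs_mul, abs_two, abs_sub_comm]
          apply le_of_eq
          congr 1
          ring
        · have h' : c = 2 * T := by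
            rw [hc, min_eq_right h3, max_eq_right (by linarith)]
          rw [h', abs_of_nonneg (by linarith [hs.2]), abs_of_nonpos (by linarith [hs.2])]
          linarith
    linarith

lemma rpow_quarter {x : ℝ} (hx : 0 < x) : (x ^ (-(1 / 4 : ℝ))) ^ 3 = x ^ (-(3 / 4 : ℝ)) := by
  rw [← Real.rpow_natCast, ← Real.rpow_mul hx.le]
  norm_num

lemma pow3_add {a b : ℝ} (ha : 0 ≤ a) (hb : 0 ≤ b) : (a + b) ^ 3 ≤ 4 * a ^ 3 + 4 * b ^ 3 := by
  nlinarith [mul_nonneg (add_nonneg ha hb) (sq_nonneg (a - b))]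

lemma prod_le_sum {d : ℕ} (hd : 3 ≤ d) (a : Fin d → ℝ) (h0 : ∀ l, 0 ≤ a l) (h1 : ∀ l, a l ≤ 1) :
    ∏ l, a l ≤ ∑ l, a l ^ 3 := by
  have : Nonempty (Fin d) := ⟨⟨0, by omega⟩⟩
  obtain ⟨i, hi⟩ := Finite.exists_max a
  calc ∏ l, a l ≤ ∏ _l : Fin d, a i := Finset.prod_le_prod (fun l _ => h0 l) fun l _ => hi l
    _ = a i ^ d := by simp
    _ ≤ a i ^ 3 := pow_le_pow_of_le_one (h0 i) (h1 i) hd
    _ ≤ _ := Finset.single_le_sum (f := fun l => a l ^ 3)
        (fun l _ => pow_nonneg (h0 l) 3) (Finset.mem_univ i)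

lemma sqrt_eq {T : ℝ} (hT : 0 < T) : T ^ (-(3 / 4 : ℝ)) * T ^ (1 / 4 : ℝ) = 1 / √T := by
  have h : 1 / T ^ (1 / 2 : ℝ) = T ^ (-(1 / 2 : ℝ)) := by
    rw [Real.rpow_neg hT.le, one_div (T ^ (1 / 2 : ℝ))]
  rw [← Real.rpow_add hT, Real.sqrt_eq_rpow, h]
  norm_num

end K3I

open K3I in
theorem knf_int3 : ∃ C : ℝ, 0 < C ∧ ∀ (n : ℕ) (T : ℝ) (m : ZMod (2 * n + 1)), 1 ≤ T →
    T ^ 4 ≤ 2 * n + 1 → ∫ t in T..(2 * T), ‖knf n t m‖ ^ 3 ≤ C / √T := by
  obtain ⟨CK, hCK, hk⟩ := kf_le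
  obtain ⟨CR, hCR, hr⟩ := riem_f
  obtain ⟨CS, hCS, hs⟩ := sbp_f
  refine ⟨48 * CK ^ 3 + 4 * (7 * CR) ^ 3 + CS ^ 3, by positivity, ?_⟩
  intro n T m hT hT4
  have hT0 : 0 < T := by linarith
  have hT2 : T ≤ 2 * T := by linarith
  have hsT : 0 < √T := Real.sqrt_pos.mpr hT0
  have hsT1 : √T ≤ T := by
    rw [Real.sqrt_le_left hT0.le]
    nlinarith
  have hN : (0 : ℝ) < 2 * n + 1 := by positivity
  have hci : IntervalIntegrable (fun t => ‖knf n t m‖ ^ 3) volume T (2 * T) :=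
    ((continuous_knf n m).norm.pow 3).intervalIntegrable _ _
  set M : ℝ := |(m.valMinAbs : ℝ)| with hM
  rcases le_or_gt M (4 * T ^ 2) with hM4 | hM4
  · -- the main case
    have hpt : ∀ t ∈ Set.Icc T (2 * T), ‖knf n t m‖ ^ 3 ≤
        4 * CK ^ 3 * T ^ (-(3 / 4 : ℝ)) * (1 + |2 * t - M|) ^ (-(3 / 4 : ℝ)) +
          4 * (7 * CR) ^ 3 / T ^ 6 := by
      intro t ht
      have ht1 : 1 ≤ t := hT.trans ht.1
      have ht0 : 0 < t := by linarith
      have e1 := hr n t m (by linarith)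
      have e2 := hk t m.valMinAbs ht1
      rw [← hM] at e2
      have e3 : CR * (1 + t + M) / (2 * n + 1) ≤ 7 * CR / T ^ 2 := by
        rw [div_le_div_iff₀ hN (by positivity)]
        have h1 : 1 + t + M ≤ 7 * T ^ 2 := by nlinarith [ht.2]
        calc CR * (1 + t + M) * T ^ 2 ≤ CR * (7 * T ^ 2) * T ^ 2 := by gcongr
          _ = 7 * CR * T ^ 4 := by ring
          _ ≤ 7 * CR * (2 * n + 1) := by gcongr
      have e4 : ‖knf n t m‖ ≤ ‖kf t m.valMinAbs‖ + 7 * CR / T ^ 2 := by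
        have : ‖knf n t m‖ ≤ ‖kf t m.valMinAbs‖ + ‖knf n t m - kf t m.valMinAbs‖ := by
          have := norm_add_le (kf t m.valMinAbs) (knf n t m - kf t m.valMinAbs)
          simpa using this
        linarith [e1.trans e3]
      have e5 : ‖kf t m.valMinAbs‖ ^ 3 ≤
          CK ^ 3 * T ^ (-(3 / 4 : ℝ)) * (1 + |2 * t - M|) ^ (-(3 / 4 : ℝ)) := by
        have h1 := pow_le_pow_left₀ (norm_nonneg _) e2 3
        rw [mul_pow, mul_pow, rpow_quarter ht0, rpow_quarter (by positivity)] at h1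
        refine h1.trans ?_
        have h2 : t ^ (-(3 / 4 : ℝ)) ≤ T ^ (-(3 / 4 : ℝ)) :=
          Real.rpow_le_rpow_of_nonpos hT0 ht.1 (by norm_num)
        gcongr
      have e6 : (7 * CR / T ^ 2) ^ 3 = (7 * CR) ^ 3 / T ^ 6 := by
        rw [div_pow]; ring
      calc ‖knf n t m‖ ^ 3 ≤ (‖kf t m.valMinAbs‖ + 7 * CR / T ^ 2) ^ 3 :=
            pow_le_pow_left₀ (norm_nonneg _) e4 3
        _ ≤ 4 * ‖kf t m.valMinAbs‖ ^ 3 + 4 * (7 * CR / T ^ 2) ^ 3 :=
            pow3_add (norm_nonneg _) (by positivity)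
        _ ≤ 4 * (CK ^ 3 * T ^ (-(3 / 4 : ℝ)) * (1 + |2 * t - M|) ^ (-(3 / 4 : ℝ))) +
            4 * ((7 * CR) ^ 3 / T ^ 6) := by
            rw [e6]; gcongr
        _ = _ := by ring
    have hcM : Continuous fun t : ℝ => (1 + |2 * t - M|) ^ (-(3 / 4 : ℝ)) := by
      refine Continuous.rpow_const (by fun_prop) ?_
      intro s
      left
      positivity
    have hmono := intervalIntegral.integral_mono_on hT2 hci
      (g := fun t => 4 * CK ^ 3 * T ^ (-(3 / 4 : ℝ)) * (1 + |2 * t - M|) ^ (-(3 / 4 : ℝ)) +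
        4 * (7 * CR) ^ 3 / T ^ 6)
      (((hcM.const_mul _).add continuous_const).intervalIntegrable _ _) hpt
    rw [intervalIntegral.integral_add ((hcM.const_mul _).intervalIntegrable _ _)
      (continuous_const.intervalIntegrable _ _), intervalIntegral.integral_const_mul,
      intervalIntegral.integral_const] at hmono
    refine hmono.trans ?_
    have f1 := int_M M hT
    have f2 : 4 * CK ^ 3 * T ^ (-(3 / 4 : ℝ)) *
        ∫ s in T..(2 * T), (1 + |2 * s - M|) ^ (-(3 / 4 : ℝ)) ≤ 48 * CK ^ 3 * (1 / √T) := by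
      calc _ ≤ 4 * CK ^ 3 * T ^ (-(3 / 4 : ℝ)) * (12 * T ^ (1 / 4 : ℝ)) := by gcongr
        _ = 48 * CK ^ 3 * (T ^ (-(3 / 4 : ℝ)) * T ^ (1 / 4 : ℝ)) := by ring
        _ = _ := by rw [sqrt_eq hT0]
    have f3 : (2 * T - T) • (4 * (7 * CR) ^ 3 / T ^ 6) ≤ 4 * (7 * CR) ^ 3 * (1 / √T) := by
      rw [smul_eq_mul, show 2 * T - T = T by ring, ← mul_div_assoc, mul_one_div,
        div_le_div_iff₀ (by positivity) hsT]
      have h1 : T * √T ≤ T ^ 6 := by
        calc T * √T ≤ T * T := by gcongr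
          _ = T ^ 2 := by ring
          _ ≤ T ^ 6 := pow_le_pow_right₀ hT (by norm_num)
      calc T * (4 * (7 * CR) ^ 3) * √T = 4 * (7 * CR) ^ 3 * (T * √T) := by ring
        _ ≤ 4 * (7 * CR) ^ 3 * T ^ 6 := by gcongr
    calc _ ≤ 48 * CK ^ 3 * (1 / √T) + 4 * (7 * CR) ^ 3 * (1 / √T) :=
          add_le_add f2 f3
      _ = (48 * CK ^ 3 + 4 * (7 * CR) ^ 3) / √T := by ring
      _ ≤ _ := by
          have h0 : 0 ≤ CS ^ 3 := by positivity
          exact div_le_div_of_nonneg_right (by linarith) hsT.le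
  · -- far away: summation by parts
    have hpt : ∀ t ∈ Set.Icc T (2 * T), ‖knf n t m‖ ^ 3 ≤ CS ^ 3 / T ^ 3 := by
      intro t ht
      have e1 := hs n t m (by linarith [ht.1])
      have e2 : ‖knf n t m‖ ≤ CS / T := by
        rw [le_div_iff₀ hT0]
        have h1 : ‖knf n t m‖ * (4 * T ^ 2) ≤ CS * (1 + t) :=
          (mul_le_mul_of_nonneg_left hM4.le (norm_nonneg _)).trans e1
        have h2 : CS * (1 + t) ≤ CS * (3 * T) := by gcongr; linarith [ht.2]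
        have h3 : ‖knf n t m‖ * (4 * T ^ 2) ≤ CS * (3 * T) := h1.trans h2
        have h4 : ‖knf n t m‖ * T * (4 * T) ≤ CS * (4 * T) := by
          calc ‖knf n t m‖ * T * (4 * T) = ‖knf n t m‖ * (4 * T ^ 2) := by ring
            _ ≤ CS * (3 * T) := h3
            _ ≤ CS * (4 * T) := by gcongr; norm_num
        exact le_of_mul_le_mul_right h4 (by positivity)
      calc ‖knf n t m‖ ^ 3 ≤ (CS / T) ^ 3 := pow_le_pow_left₀ (norm_nonneg _) e2 3
        _ = _ := div_pow _ _ _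
    have hmono := intervalIntegral.integral_mono_on hT2 hci
      (g := fun _ => CS ^ 3 / T ^ 3) (continuous_const.intervalIntegrable _ _) hpt
    rw [intervalIntegral.integral_const] at hmono
    refine hmono.trans ?_
    rw [smul_eq_mul, show 2 * T - T = T by ring, ← mul_div_assoc,
      div_le_div_iff₀ (by positivity) hsT]
    have h1 : T * √T ≤ T ^ 3 := by
      calc T * √T ≤ T * T := by gcongr
        _ = T ^ 2 := by ring
        _ ≤ T ^ 3 := pow_le_pow_right₀ hT (by norm_num)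
    calc T * CS ^ 3 * √T = CS ^ 3 * (T * √T) := by ring
      _ ≤ CS ^ 3 * T ^ 3 := by gcongr
      _ ≤ (48 * CK ^ 3 + 4 * (7 * CR) ^ 3 + CS ^ 3) * T ^ 3 := by
          gcongr
          have : 0 ≤ 48 * CK ^ 3 + 4 * (7 * CR) ^ 3 := by positivity
          linarith

open K3I in
theorem blkf_le3 {d : ℕ} (hd : 3 ≤ d) :
    ∃ C : ℝ, 0 < C ∧ ∀ (n : ℕ) (T : ℝ) (ζ : ℂ) (x : Tor d n), 1 ≤ T → T ^ 4 ≤ 2 * n + 1 →
      0 ≤ ζ.im → ‖blkf ζ T x‖ ≤ C / √T := by
  obtain ⟨C, hC, hint⟩ := knf_int3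
  have hd0 : (0 : ℝ) < d := by exact_mod_cast (show 0 < d by omega)
  refine ⟨d * C, by positivity, ?_⟩
  intro n T ζ x hT hT4 hζ
  have hT2 : T ≤ 2 * T := by linarith
  have hc4 : ∀ l : Fin d, Continuous fun t : ℝ => ‖knf n t (x l)‖ ^ 3 := fun l =>
    (continuous_knf n (x l)).norm.pow 3
  have h1 : ‖blkf ζ T x‖ ≤ ∫ t in T..(2 * T), ∑ l, ‖knf n t (x l)‖ ^ 3 := by
    unfold blkf
    refine intervalIntegral.norm_integral_le_of_norm_le hT2 ?_
      ((continuous_finsetSum _ fun l _ => hc4 l).intervalIntegrable _ _)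
    refine Filter.Eventually.of_forall fun t ht => ?_
    rw [norm_mul, norm_prod]
    have ht0 : 0 ≤ t := by linarith [ht.1]
    calc ‖Complex.exp (Complex.I * ζ * (t : ℂ))‖ * ∏ l, ‖knf n t (x l)‖ ≤
        1 * ∏ l, ‖knf n t (x l)‖ :=
          mul_le_mul_of_nonneg_right (K4B.norm_exp_le hζ ht0)
            (Finset.prod_nonneg fun l _ => norm_nonneg _)
      _ = ∏ l, ‖knf n t (x l)‖ := one_mul _
      _ ≤ _ := K3I.prod_le_sum hd _ (fun l => norm_nonneg _) fun l => knf_one n t (x l)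
  rw [intervalIntegral.integral_finsetSum fun l _ => (hc4 l).intervalIntegrable _ _] at h1
  refine h1.trans ?_
  calc ∑ l, ∫ t in T..(2 * T), ‖knf n t (x l)‖ ^ 3 ≤ ∑ _l : Fin d, C / √T :=
        Finset.sum_le_sum fun l _ => hint n T (x l) hT hT4
    _ = _ := by simp; ring

end Pool.Agent.BK3
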