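import Pool.Agent.BK3.Fw
import Pool.Agent.BK3.FLow
import Pool.Agent.BK3.K3I
import Pool.Agent.BK.FB4
import Pool.Agent.BK.FB344

/-! BK3 module FC4: `∑_y |Gr_xy|⁴ ≤ C γ^(-ε)` for `d ≥ 3` on the whole torus, all energies, and the free bounds with
`q = 4` in the window `[b, 4d-b]`. `FB4_split`: `Gr = TF(R) + ∑_{j<J} TF(i fblk ζ 2^j)`, `|R| ≤ 3`,
`2^J ≤ γ^(-2)`. For one block: entries `≤ C T^(-1/2)` (`TF_blkf`, `blkf_le3`), row square norm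
`(1/(2n+1)^d) ∑_q |fblk|² ≤ C T` (`sum_fblkf_le`; Parseval for `TF` as in `BK/FB4.lean`), so `∑|.|⁴ ≤ sup² · C T ≤ C`;
the same for `TF(R)`. Minkowski in `ℓ⁴` over the `J + 1 ≤ C log(1/γ) + 2` terms (or `|∑_{j<m} a_j|⁴ ≤ m³ ∑ |a_j|⁴`),
`(1 + log(1/γ))⁴ ≤ C_ε γ^(-ε)`. The proof of `fb3f` (`BK/FB4.lean`) is the same with cubes. For the case `n = 0` see
`FB4_zero`. `freeC4`: `wq`: `fw` with `q = 4`; `w2`: `fw2` (`p = 4`), `fw` (`q = 2`); `im`, `low`: `fb_low4`, `flow`. -/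

open MeasureTheory Finset Matrix Pool.Agent.BK

noncomputable section

namespace Pool.Agent.BK3

theorem fb4f {d : ℕ} (hd : 3 ≤ d) {ε : ℝ} (hε : 0 < ε) :
    ∃ C : ℝ, 0 < C ∧ ∀ (ζ : ℂ) (n : ℕ),
      0 < ζ.im → ζ.im ≤ 1 → ζ.im ^ (-(10 : ℝ)) ≤ 2 * n + 1 →
      ∀ x : Tor d n, ∑ y, ‖Gr (H0 d n) 0 ζ x y‖ ^ 4 ≤ C * ζ.im ^ (-ε) := by
  obtain ⟨C0, hC0, hblk⟩ := blkf_le3 hd
  obtain ⟨C1, hC1, hsum⟩ := sum_fblkf_le (d := d) (by omega)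
  obtain ⟨CJ, hCJ, hJ⟩ := J_le (ε := ε / 2) (by positivity)
  refine ⟨(81 + C0 ^ 2 * C1) * CJ ^ 2 + 1, by positivity, fun ζ n h3 h4 h5 x => ?_⟩
  set γ := ζ.im with hγ
  have hg1 : 1 ≤ γ ^ (-ε) := Real.one_le_rpow_of_pos_of_le_one_of_nonpos h3 h4 (by linarith)
  rcases Nat.eq_zero_or_pos n with hn | hn
  · have hγ1 : γ = 1 := FB4_zero hn h3 h4 h5
    have hle : ∀ y, ‖Gr (H0 d n) 0 ζ x y‖ ≤ 1 := by
      intro y
      have := norm_Gr_le (RS_H0 d n) 0 h3 x y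
      rw [← hγ, hγ1] at this
      simpa using this
    have h6 : ∑ y, ‖Gr (H0 d n) 0 ζ x y‖ ^ 4 ≤ ∑ y, ‖Gr (H0 d n) 0 ζ x y‖ ^ 2 :=
      Finset.sum_le_sum fun y _ => pow_le_pow_of_le_one (norm_nonneg _) (hle y) (by norm_num)
    rw [ward (RS_H0 d n) 0 h3 x, ← hγ, hγ1, div_one] at h6
    have h7 : (Gr (H0 d n) 0 ζ x x).im ≤ 1 :=
      ((le_abs_self _).trans (Complex.abs_im_le_norm _)).trans (hle x)
    have h8 : 0 ≤ (81 + C0 ^ 2 * C1) * CJ ^ 2 := by positivity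
    rw [hγ1, Real.one_rpow, mul_one]
    linarith
  obtain ⟨J, hJ1, hJT, hR, hM⟩ := FB4_split (d := d) hn h3 h4 h5
  -- bound of the fourth moments of the pieces
  have hN : (0 : ℝ) < (2 * n + 1 : ℝ) ^ d := by positivity
  have hcardR : (Fintype.card (Tor d n) : ℝ) = (2 * n + 1 : ℝ) ^ d := by
    rw [Fintype.card_fun, Fintype.card_fin, ZMod.card]
    push_cast
    ring
  have hRsum : ∑ y, ‖TF (FB4_R ζ J) x y‖ ^ 4 ≤ 81 := by
    have e1 : ∑ y, ‖TF (FB4_R ζ J) x y‖ ^ 4 ≤ 9 * ∑ y, ‖TF (FB4_R ζ J) x y‖ ^ 2 := by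
      rw [Finset.mul_sum]
      refine Finset.sum_le_sum fun y _ => ?_
      have h6 : ‖TF (FB4_R ζ J) x y‖ ^ 4 = ‖TF (FB4_R ζ J) x y‖ ^ 2 * ‖TF (FB4_R ζ J) x y‖ ^ 2 := by
        ring
      have h7 : ‖TF (FB4_R ζ J) x y‖ ^ 2 ≤ 9 := by
        have := pow_le_pow_left₀ (norm_nonneg _) (norm_TF_le hR x y) 2
        linarith
      rw [h6]
      exact mul_le_mul_of_nonneg_right h7 (by positivity)
    have e2 : ∑ y, ‖TF (FB4_R ζ J) x y‖ ^ 2 ≤ 9 := by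
      rw [parseval]
      have e3 : ∑ q : Tor d n, ‖FB4_R ζ J q‖ ^ 2 ≤ (2 * n + 1 : ℝ) ^ d * 9 := by
        calc ∑ q : Tor d n, ‖FB4_R ζ J q‖ ^ 2 ≤ ∑ _q : Tor d n, (9 : ℝ) := by
              refine Finset.sum_le_sum fun q _ => ?_
              have := pow_le_pow_left₀ (norm_nonneg _) (hR q) 2
              linarith
          _ = (2 * n + 1 : ℝ) ^ d * 9 := by
              rw [Finset.sum_const, Finset.card_univ, nsmul_eq_mul, hcardR]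
      calc (1 / (2 * n + 1 : ℝ) ^ d) * ∑ q : Tor d n, ‖FB4_R ζ J q‖ ^ 2 ≤
          (1 / (2 * n + 1 : ℝ) ^ d) * ((2 * n + 1 : ℝ) ^ d * 9) :=
            mul_le_mul_of_nonneg_left e3 (by positivity)
        _ = 9 := by field_simp
    linarith
  have hjsum : ∀ j ∈ Finset.range J,
      ∑ y, ‖TF (fun q : Tor d n => Complex.I * fblk ζ (2 ^ j) q) x y‖ ^ 4 ≤ C0 ^ 2 * C1 := by
    intro j hj
    have hj' := Finset.mem_range.1 hj
    have hp : (0 : ℝ) < 2 ^ j := by positivity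
    have e0 : ∀ y, ‖TF (fun q : Tor d n => Complex.I * fblk ζ (2 ^ j) q) x y‖ ^ 2 ≤
        C0 ^ 2 / 2 ^ j := by
      intro y
      have h6 : ‖TF (fun q : Tor d n => Complex.I * fblk ζ (2 ^ j) q) x y‖ ≤
          C0 / √((2 : ℝ) ^ j) := by
        rw [TF_blkf, norm_mul, Complex.norm_I, one_mul]
        exact hblk n _ ζ _ (one_le_pow₀ (by norm_num)) (hJT j hj') h3.le
      have h7 := pow_le_pow_left₀ (norm_nonneg _) h6 2
      rwa [div_pow, Real.sq_sqrt hp.le] at h7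
    have e1 : ∑ y, ‖TF (fun q : Tor d n => Complex.I * fblk ζ (2 ^ j) q) x y‖ ^ 4 ≤
        C0 ^ 2 / 2 ^ j *
          ∑ y, ‖TF (fun q : Tor d n => Complex.I * fblk ζ (2 ^ j) q) x y‖ ^ 2 := by
      rw [Finset.mul_sum]
      refine Finset.sum_le_sum fun y _ => ?_
      have h6 : ‖TF (fun q : Tor d n => Complex.I * fblk ζ (2 ^ j) q) x y‖ ^ 4 =
          ‖TF (fun q : Tor d n => Complex.I * fblk ζ (2 ^ j) q) x y‖ ^ 2 *
            ‖TF (fun q : Tor d n => Complex.I * fblk ζ (2 ^ j) q) x y‖ ^ 2 := by ring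
      rw [h6]
      exact mul_le_mul_of_nonneg_right (e0 y) (by positivity)
    have e2 : ∑ y, ‖TF (fun q : Tor d n => Complex.I * fblk ζ (2 ^ j) q) x y‖ ^ 2 ≤
        C1 * 2 ^ j := by
      rw [parseval]
      have := hsum n (2 ^ j) ζ (one_le_pow₀ (by norm_num)) (hJT j hj') h3.le
      refine le_trans (le_of_eq ?_) this
      congr 1
      refine Finset.sum_congr rfl fun q _ => ?_
      rw [norm_mul, Complex.norm_I, one_mul]
    refine e1.trans ?_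
    calc C0 ^ 2 / 2 ^ j *
          ∑ y, ‖TF (fun q : Tor d n => Complex.I * fblk ζ (2 ^ j) q) x y‖ ^ 2
        ≤ C0 ^ 2 / 2 ^ j * (C1 * 2 ^ j) := mul_le_mul_of_nonneg_left e2 (by positivity)
      _ = C0 ^ 2 * C1 := by field_simp
  -- Minkowski by the power mean inequality
  have hpt : ∀ y, ‖Gr (H0 d n) 0 ζ x y‖ ^ 4 ≤ ((J : ℝ) + 1) ^ 3 * (‖TF (FB4_R ζ J) x y‖ ^ 4 +
      ∑ j ∈ Finset.range J, ‖TF (fun q : Tor d n => Complex.I * fblk ζ (2 ^ j) q) x y‖ ^ 4) := by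
    intro y
    let f : ℕ → ℝ := fun i => if i < J then
      ‖TF (fun q : Tor d n => Complex.I * fblk ζ (2 ^ i) q) x y‖ else ‖TF (FB4_R ζ J) x y‖
    have hf0 : ∀ i ∈ Finset.range (J + 1), 0 ≤ f i := by
      intro i _
      simp only [f]
      split_ifs <;> exact norm_nonneg _
    have hfs : ∀ k : ℕ, ∑ i ∈ Finset.range (J + 1), f i ^ k = ‖TF (FB4_R ζ J) x y‖ ^ k +
        ∑ j ∈ Finset.range J, ‖TF (fun q : Tor d n => Complex.I * fblk ζ (2 ^ j) q) x y‖ ^ k := by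
      intro k
      rw [Finset.sum_range_succ, add_comm]
      congr 1
      · simp [f]
      · refine Finset.sum_congr rfl fun j hj => ?_
        simp only [f]
        rw [if_pos (Finset.mem_range.1 hj)]
    have h6 : ‖Gr (H0 d n) 0 ζ x y‖ ≤ ∑ i ∈ Finset.range (J + 1), f i := by
      have := hfs 1
      simp only [pow_one] at this
      rw [this, hM, Matrix.add_apply, Matrix.sum_apply]
      exact (norm_add_le _ _).trans (add_le_add le_rfl (norm_sum_le _ _))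
    have h7 := pow_sum_div_card_le_sum_pow hf0 3
    rw [Finset.card_range, div_le_iff₀ (by positivity)] at h7
    have h8 : ‖Gr (H0 d n) 0 ζ x y‖ ^ 4 ≤ (∑ i ∈ Finset.range (J + 1), f i) ^ (3 + 1) :=
      pow_le_pow_left₀ (norm_nonneg _) h6 4
    refine h8.trans (h7.trans (le_of_eq ?_))
    rw [hfs (3 + 1)]
    push_cast
    ring
  have hJ0 : (0 : ℝ) ≤ J := Nat.cast_nonneg J
  have htot : ∑ y, ‖Gr (H0 d n) 0 ζ x y‖ ^ 4 ≤
      ((J : ℝ) + 1) ^ 3 * (81 + J * (C0 ^ 2 * C1)) := by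
    refine (Finset.sum_le_sum fun y _ => hpt y).trans ?_
    rw [← Finset.mul_sum, Finset.sum_add_distrib, Finset.sum_comm]
    refine mul_le_mul_of_nonneg_left (add_le_add hRsum ?_) (by positivity)
    refine (Finset.sum_le_sum hjsum).trans ?_
    rw [Finset.sum_const, Finset.card_range, nsmul_eq_mul]
  refine htot.trans ?_
  have hJC := hJ γ J h3 hJ1
  have e3 : ((J : ℝ) + 1) ^ 3 * (81 + J * (C0 ^ 2 * C1)) ≤
      (81 + C0 ^ 2 * C1) * (((J : ℝ) + 1) ^ 2) ^ 2 := by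
    have h6 : 81 + J * (C0 ^ 2 * C1) ≤ (81 + C0 ^ 2 * C1) * ((J : ℝ) + 1) := by
      have h7 : 0 < C0 ^ 2 * C1 := by positivity
      nlinarith [mul_nonneg h7.le hJ0]
    calc ((J : ℝ) + 1) ^ 3 * (81 + J * (C0 ^ 2 * C1)) ≤
        ((J : ℝ) + 1) ^ 3 * ((81 + C0 ^ 2 * C1) * ((J : ℝ) + 1)) :=
          mul_le_mul_of_nonneg_left h6 (by positivity)
      _ = _ := by ring
  have e4 : (((J : ℝ) + 1) ^ 2) ^ 2 ≤ CJ ^ 2 * γ ^ (-ε) := by
    have h6 := pow_le_pow_left₀ (by positivity) hJC 2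
    have h7 : (CJ * γ ^ (-(ε / 2))) ^ 2 = CJ ^ 2 * γ ^ (-ε) := by
      rw [mul_pow, ← Real.rpow_natCast (γ ^ (-(ε / 2))), ← Real.rpow_mul h3.le]
      congr 2
      push_cast
      ring
    rw [h7] at h6
    exact h6
  calc ((J : ℝ) + 1) ^ 3 * (81 + J * (C0 ^ 2 * C1)) ≤
      (81 + C0 ^ 2 * C1) * (((J : ℝ) + 1) ^ 2) ^ 2 := e3
    _ ≤ (81 + C0 ^ 2 * C1) * (CJ ^ 2 * γ ^ (-ε)) := mul_le_mul_of_nonneg_left e4 (by positivity)
    _ ≤ ((81 + C0 ^ 2 * C1) * CJ ^ 2 + 1) * γ ^ (-ε) := by nlinarith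

theorem freeC4 {d : ℕ} (hd : 3 ≤ d) {b : ℝ} (hb : 0 < b) (hb1 : b ≤ 1) :
    ∃ κ : ℝ, FreeC d (1 / (1 / 2 - 1 / 4)) κ b (4 * d - b) := by
  obtain ⟨κ, hκ, hκ1, hlow⟩ := fb_low4 hb hb1 (show 1 ≤ d by omega)
  refine ⟨κ, ⟨hκ, hκ1, ?_, ?_, ?_, ?_, ?_⟩⟩
  · intro ε ς hε hς
    obtain ⟨C1, hC1, h1⟩ := fb4f hd hε
    obtain ⟨C2, hC2, h2⟩ := fw (d := d) (q := 4) (by omega) (by norm_num) hς
    refine ⟨C2 * (C1 + 1), by positivity, fun ζ n r _ _ h3 h4 h5 h6 h7 y => ?_⟩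
    have h8 := h1 ζ n h3 (h4.trans hκ1) h5 y
    have h9 : ∑ x, ‖Gr (H0 d n) 0 ζ y x‖ ^ (4 : ℝ) ≤ C1 * ζ.im ^ (-ε) := by
      refine le_trans (le_of_eq ?_) h8
      refine Finset.sum_congr rfl fun x _ => ?_
      exact_mod_cast Real.rpow_natCast (‖Gr (H0 d n) 0 ζ y x‖) 4
    have h10 := h2 ζ n r _ h3 (h4.trans hκ1) h6 h7 y h9
    rw [show (1 : ℝ) / (1 / 2 - 1 / 4) = 4 by norm_num]
    refine h10.trans ?_
    have hg1 : 1 ≤ ζ.im ^ (-ε) :=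
      Real.one_le_rpow_of_pos_of_le_one_of_nonpos h3 (h4.trans hκ1) (by linarith)
    rw [mul_assoc]
    refine mul_le_mul_of_nonneg_left ?_ hC2.le
    linarith
  · intro ε ς hε hς
    obtain ⟨C1, hC1, h1⟩ := fb4f hd hε
    obtain ⟨C2, hC2, h2⟩ := fw (d := d) (q := 2) (by omega) (by norm_num) hς
    refine ⟨C2 * (2 * (C1 + 1)), by positivity, fun ζ n r _ _ h3 h4 h5 h6 h7 y => ?_⟩
    have h41 := h4.trans hκ1
    have hg1 : 1 ≤ ζ.im ^ (-ε) :=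
      Real.one_le_rpow_of_pos_of_le_one_of_nonpos h3 h41 (by linarith)
    have h8 : ∑ x, ‖Gr (H0 d n) 0 ζ y x‖ ^ 4 ≤ (C1 + 1) * ζ.im ^ (-ε) := by
      refine (h1 ζ n h3 h41 h5 y).trans ?_
      nlinarith
    have hA : 1 ≤ (C1 + 1) * ζ.im ^ (-ε) := by nlinarith
    have h9 := fw2 (p := 4) (by norm_num) h3 hA y h8
    have h10 : ∑ x, ‖Gr (H0 d n) 0 ζ y x‖ ^ (2 : ℝ) ≤ (C1 + 1) * ζ.im ^ (-ε) / ζ.im := by
      refine le_trans (le_of_eq ?_) h9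
      refine Finset.sum_congr rfl fun x _ => ?_
      exact_mod_cast Real.rpow_natCast (‖Gr (H0 d n) 0 ζ y x‖) 2
    have h11 := h2 ζ n r _ h3 h41 h6 h7 y h10
    have h12 : ∑ x, (‖Gr (H0 d n) 0 ζ y x‖ / ph2 r y x) ^ 2 =
        ∑ x, (‖Gr (H0 d n) 0 ζ y x‖ / ph2 r y x) ^ (2 : ℝ) := by
      refine Finset.sum_congr rfl fun x _ => ?_
      exact_mod_cast (Real.rpow_natCast (‖Gr (H0 d n) 0 ζ y x‖ / ph2 r y x) 2).symm
    rw [h12]
    refine h11.trans ?_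
    have h13 : ζ.im ^ (-1 - ε) = ζ.im ^ (-ε) / ζ.im := by
      rw [show -1 - ε = -ε - 1 by ring, Real.rpow_sub_one h3.ne']
    rw [h13, mul_assoc]
    refine mul_le_mul_of_nonneg_left ?_ hC2.le
    have h14 : 1 ≤ (C1 + 1) * ζ.im ^ (-ε) / ζ.im := by
      rw [le_div_iff₀ h3]
      linarith
    rw [mul_div_assoc] at h14 ⊢
    linarith
  · intro ε hε
    obtain ⟨C1, hC1, h1⟩ := fb4f hd hε
    exact ⟨C1, hC1, fun ζ n _ _ h3 h4 h5 y => h1 ζ n h3 (h4.trans hκ1) h5 y⟩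
  · exact fun ζ n h1 h2 h3 h4 h5 x => (hlow ζ n h1 h2 h3 h4 h5).1 x
  · exact fun ζ n h1 h2 h3 h4 h5 k hk j => flow hκ h3 (hlow ζ n h1 h2 h3 h4 h5).2 k hk j

end Pool.Agent.BK3
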