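import Pool.Agent.BK3.Defs
import Pool.Agent.Helper3.Anderson.Symm
import Pool.Agent.Helper3.Anderson.OneVar

/-! BK3 module LawX: the laws of the problem. `μ` a probability measure with `μ ≤ K · Lebesgue` and support in
`[-M, M]` (`BoundedDensity`), `m = ∫ t dμ`. The centred law `ν = μ.map (· - m)` is a `BLaw` with `R = max 1 (M + |m|)` and
`s2 = ∫ (t - m)² dμ`; `s2 > 0` because otherwise `μ {m} = 1`, but `μ {m} ≤ K · 0`. `goodLaw_of` gives `GoodLaw μ M K`. -/

open MeasureTheory Finset Matrix Pool.Agent.BK Pool.Agent.Helper3.Anderson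
open scoped NNReal

noncomputable section

namespace Pool.Agent.BK3

theorem exists_bLaw {μ : Measure ℝ} [IsProbabilityMeasure μ] (hμ : BoundedDensity μ) :
    ∃ R s2 : ℝ, BLaw (μ.map (fun x => x - ∫ t, t ∂μ)) R s2 := by
  obtain ⟨M, hM⟩ := hμ.supp
  obtain ⟨K, hK⟩ := hμ.dens
  set m := ∫ t, t ∂μ with hm
  have hmeas : Measurable fun x : ℝ => x - m := measurable_id.sub_const m
  have hae : ∀ᵐ t ∂μ, t ∈ Set.Icc (-M) M := hM
  have hint : Integrable (fun t : ℝ => t) μ := by
    refine Integrable.of_bound (C := M) measurable_id.aestronglyMeasurable ?_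
    filter_upwards [hae] with t ht
    exact abs_le.2 ht
  have hint2 : Integrable (fun t : ℝ => (t - m) ^ 2) μ := by
    refine Integrable.of_bound (C := (M + |m|) ^ 2) (hmeas.pow_const 2).aestronglyMeasurable ?_
    filter_upwards [hae] with t ht
    have h1 : |t - m| ≤ M + |m| := (abs_sub t m).trans (add_le_add (abs_le.2 ht) le_rfl)
    rw [Real.norm_eq_abs, abs_pow]
    exact pow_le_pow_left₀ (abs_nonneg _) h1 2
  refine ⟨max 1 (|M| + |m|), ∫ t, (t - m) ^ 2 ∂μ, ?_, le_max_left _ _, ?_, ?_, ?_, ?_⟩
  · exact Measure.isProbabilityMeasure_map hmeas.aemeasurable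
  · rw [Measure.map_apply hmeas measurableSet_Icc.compl]
    refine measure_mono_null ?_ hM
    intro t ht h
    apply ht
    have h1 : |t - m| ≤ |M| + |m| :=
      (abs_sub t m).trans (add_le_add ((abs_le.2 h).trans (le_abs_self M)) le_rfl)
    exact abs_le.1 (h1.trans (le_max_right _ _))
  · have h1 : ∫ v, v ∂(μ.map (fun x => x - m)) = ∫ t, (t - m) ∂μ :=
      integral_map hmeas.aemeasurable (f := fun v : ℝ => v) measurable_id.aestronglyMeasurable
    rw [h1, integral_sub hint (integrable_const m)]
    simp [hm]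
  · exact integral_map hmeas.aemeasurable (f := fun v : ℝ => v ^ 2)
      (measurable_id.pow_const 2).aestronglyMeasurable
  · rw [integral_pos_iff_support_of_nonneg (fun t => sq_nonneg (t - m)) hint2]
    have h1 : Function.support (fun t : ℝ => (t - m) ^ 2) = {m}ᶜ := by
      ext t
      simp [Function.mem_support, sub_eq_zero]
    rw [h1]
    have h2 : μ {m} = 0 := by
      have h3 : μ {m} ≤ (K • (volume : Measure ℝ)) {m} := hK {m}
      have h4 : (K • (volume : Measure ℝ)) {m} = 0 := by
        rw [Measure.smul_apply]; simp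
      exact le_antisymm (h3.trans_eq h4) zero_le
    rw [measure_compl (measurableSet_singleton m) (measure_ne_top _ _), h2, measure_univ]
    simp

lemma bd_neg {μ : Measure ℝ} (hμ : BoundedDensity μ) : BoundedDensity (μ.map (fun x => -x)) := by
  obtain ⟨M, hM⟩ := hμ.supp
  obtain ⟨K, hK⟩ := hμ.dens
  refine ⟨⟨M, ?_⟩, ⟨K, ?_⟩⟩
  · rw [Measure.map_apply measurable_neg measurableSet_Icc.compl]
    refine measure_mono_null ?_ hM
    intro t ht h
    apply ht
    exact ⟨by linarith [h.2], by linarith [h.1]⟩
  · calc μ.map (fun x => -x) ≤ (K • (volume : Measure ℝ)).map (fun x => -x) :=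
          Measure.map_mono hK measurable_neg
      _ = K • (volume : Measure ℝ).map (fun x => -x) := Measure.map_smul ..
      _ = K • volume := by
          congr 1
          exact (Measure.measurePreserving_neg (volume : Measure ℝ)).map_eq

end Pool.Agent.BK3
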