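import Pool.Agent.BK3.OrX
import Pool.Agent.BK3.Pt1X
import Pool.Agent.BK3.LawX
import Pool.Agent.BK3.FC3
import Pool.Agent.BK3.FC4
import Pool.Agent.BK.FinS

/-! BK3: assembly of the averaged bound (proved from the other modules). -/

open MeasureTheory Finset Matrix Pool.Agent.Helper3.Anderson Pool.Agent.Helper3.Weak Pool.Agent.BK
open scoped NNReal

noncomputable section

namespace Pool.Agent.BK3

/-- The pointwise bound at height `lam^A`. -/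
theorem ptX {μ : Measure ℝ} [IsProbabilityMeasure μ] (hb : BoundedDensity μ) {M : ℝ} {K : ℝ≥0}
    (hμ : GoodLaw μ M K) {d : ℕ} (hd : 3 ≤ d) {lo' hi' lo hi κ A θ y0 κF : ℝ}
    (hF : FreeC d (1 / (1 / 2 - θ)) κF lo' hi') (hlo : lo' < lo) (hhi : hi < hi') (hκ : 0 < κ)
    (hA : 2 + 2 * κ < A) (hθ : 1 / 6 ≤ θ) (hθ' : θ ≤ 1 / 4) (hy : 0 ≤ y0)
    (hgain : 0 ≤ 1 - θ * (2 + A) + 4 * θ * y0) (hroom : 0 < 3 - A - 2 * y0) :
    ∃ lam1 : ℝ, 0 < lam1 ∧ lam1 ≤ 1 ∧ ∀ (lam : ℝ) (hlam : 0 < lam), lam ≤ lam1 →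
      ∀ E η : ℝ, lo ≤ E → E ≤ hi → lam ^ A ≤ η →
        η ≤ 2 * lam ^ A → ∀ (hz0 : 0 < ((E : ℂ) + η * Complex.I).im) (j : Fin d),
          LL μ M lam K ((E : ℂ) + η * Complex.I) hμ hlam hz0 (Pi.single j 1) ≤
            lam ^ (2 + κ) / 7 := by
  obtain ⟨R, s2, hν⟩ := exists_bLaw hb
  -- the parameters
  obtain ⟨δ1, hδ1⟩ : ∃ δ1 : ℝ, δ1 = (A / 2 - 1 - κ) / 2 := ⟨_, rfl⟩
  have hδ0 : 0 < δ1 := by rw [hδ1]; linarith
  obtain ⟨e, he⟩ : ∃ e : ℝ, e = min ((3 - A - 2 * y0) / 100) δ1 := ⟨_, rfl⟩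
  have he0 : 0 < e := by rw [he]; exact lt_min (by linarith) hδ0
  have he1 : e ≤ (3 - A - 2 * y0) / 100 := by rw [he]; exact min_le_left _ _
  have he2 : e ≤ δ1 := by rw [he]; exact min_le_right _ _
  obtain ⟨p, hp⟩ := exists_nat_ge (10000 * (d : ℝ) / e)
  obtain ⟨lo1, hlo1⟩ : ∃ lo1 : ℝ, lo1 = (lo' + lo) / 2 := ⟨_, rfl⟩
  obtain ⟨hi1, hhi1⟩ : ∃ hi1 : ℝ, hi1 = (hi + hi') / 2 := ⟨_, rfl⟩
  set c : Cx := ⟨d, p, lo1, hi1, lo', hi', κF, A, θ, y0, e, 10000 * d⟩ with hcdef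
  have hc : c.Ok := by
    refine ⟨hd, he0, by linarith, by linarith, hy, hθ, hθ', hgain, ?_, ?_, le_rfl, ?_, ?_, hF⟩
    · change 100 * e ≤ 3 - A - 2 * y0
      linarith
    · change 10000 * (d : ℝ) ≤ e * p
      rw [div_le_iff₀ he0] at hp
      linarith
    · change lo' < lo1
      linarith
    · change hi1 < hi'
      linarith
  have hcA : c.A = A := rfl
  have hκF := hF.kap
  -- the probabilistic input
  obtain ⟨l2, hl20, hl21, hl2⟩ := sm_one (2 / κF) (show (0 : ℝ) < 1 by norm_num)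
  have hT : ∀ m0 : ℝ, ∃ K lam1 : ℝ, 0 < K ∧ 0 < lam1 ∧ lam1 ≤ 1 ∧
      ∀ π ∈ PS lo1 hi1 lam1 A 1, π.eta ≤ 2 * π.lam ^ A → ∀ (σ : Fin d → ℤˣ) (j : Fin d),
        ((Measure.pi fun _ : Tor d π.n => μ.map (fun x => x - ∫ t, t ∂μ))
          {V | msT π σ j (sk A δ1 π) V < 3 * κF / (80 * 2 ^ d) * π.lam ^ (-A)}).toReal ≤
            K * π.lam ^ m0 := by
    intro m0
    obtain ⟨l1, h1, h1', h⟩ := orX hν c hc (δ1 := δ1) hδ0 (by rw [hcA]; linarith) he2 m0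
    refine ⟨1, min l1 l2, one_pos, lt_min h1 hl20, (min_le_left _ _).trans h1', ?_⟩
    rintro π ⟨p1, p2, p3, p4, p5, p6, p7, p8⟩ hη σ j
    rw [one_mul]
    have h2 : π ∈ c.PT l1 := by
      refine ⟨p1, p2.trans (min_le_left _ _), p3, p4, p5, p6, p7, p8.trans ?_⟩
      have h3 := hl2 π.lam p1 (p2.trans (min_le_right _ _))
      rw [Real.rpow_one] at h3 ⊢
      change π.lam ≤ κF / 2
      rw [div_mul_eq_mul_div, div_le_one hκF] at h3
      linarith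
    exact h π h2 hη σ j
  obtain ⟨lam1, hlam1, hlam11, h1⟩ := p1x_gen (κ := κ) hμ (by omega) one_pos (by linarith)
    (by linarith) (show (1 : ℝ) < A by linarith) hδ0 (by linarith) hκ
    (show 0 < 3 * κF / (80 * 2 ^ d) by positivity) hT
  set m : ℝ := ∫ t, t ∂μ with hm
  have hm0 : 0 < 1 + |m| := by positivity
  obtain ⟨g, hg⟩ : ∃ g : ℝ, g = min (lo - lo1) (hi1 - hi) := ⟨_, rfl⟩
  have hg1 : g ≤ lo - lo1 := hg ▸ min_le_left _ _
  have hg2 : g ≤ hi1 - hi := hg ▸ min_le_right _ _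
  have hg0 : 0 < g := by
    rw [hg]
    exact lt_min (by linarith) (by linarith)
  refine ⟨min lam1 (g / (1 + |m|)), lt_min hlam1 (by positivity),
    (min_le_left _ _).trans hlam11, ?_⟩
  intro lam hlam hle E η hE1 hE2 hη1 hη2 hz0 j
  have h2 : lam * (1 + |m|) ≤ g := by
    have := hle.trans (min_le_right _ _)
    rwa [le_div_iff₀ hm0] at this
  have h3 : |lam * m| ≤ g := by
    rw [abs_mul, abs_of_pos hlam]
    nlinarith
  have h4 := abs_le.1 h3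
  exact h1 lam hlam (hle.trans (min_le_left _ _)) E η (by linarith [h4.2]) (by linarith [h4.1])
    hη1 hη2 hz0 j

/-- The averaged bound in one window, from the pointwise bound. -/
theorem mainX {μ : Measure ℝ} [IsProbabilityMeasure μ] {M : ℝ} {K : ℝ≥0} (hμ : GoodLaw μ M K)
    {d : ℕ} {lo hi κ A lam1 : ℝ} (hA : 2 + 2 * κ ≤ A) (hA0 : 0 ≤ A) (hl0 : 0 < lam1)
    (hl1 : lam1 ≤ 1)
    (hpt : ∀ (lam : ℝ) (hlam : 0 < lam), lam ≤ lam1 →
      ∀ E η : ℝ, lo ≤ E → E ≤ hi → lam ^ A ≤ η →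
        η ≤ 2 * lam ^ A → ∀ (hz0 : 0 < ((E : ℂ) + η * Complex.I).im) (j : Fin d),
          LL μ M lam K ((E : ℂ) + η * Complex.I) hμ hlam hz0 (Pi.single j 1) ≤
            lam ^ (2 + κ) / 7) :
    ∀ lam : ℝ, 0 < lam → lam ≤ lam1 → ∀ E0 ε δ : ℝ,
      lo ≤ E0 - δ → E0 + δ ≤ hi → 0 < ε → ε ≤ lam ^ A → lam ^ (2 + 2 * κ) ≤ δ →
      ∀ L : ℝ → Site d → ℝ, (∀ E : ℝ, IsLyapunovNorm d μ lam (E + ε * Complex.I) (L E)) →
      ∀ x : Site d, IntervalIntegrable (fun E => L E x) volume (E0 - δ) (E0 + δ) ∧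
        (2 * δ)⁻¹ * ∫ E in (E0 - δ)..(E0 + δ), L E x ≤ lam ^ (2 + κ) * ∑ j, |(x j : ℝ)| := by
  intro lam hlam hlam1 E0 ε δ hE1 hE2 hε hε2 hδ L hL x
  have hlam1' : lam ≤ 1 := hlam1.trans hl1
  set r : ℝ := lam ^ A with hr
  have hr0 : 0 < r := Real.rpow_pos_of_pos hlam A
  have hεr : ε ≤ r := hε2
  have hε1 : ε ≤ 1 := hε2.trans (Real.rpow_le_one hlam.le hlam1' hA0)
  have hrδ : r ≤ δ := (Real.rpow_le_rpow_of_exponent_ge hlam hlam1' hA).trans hδ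
  have hδ0 : 0 < δ := hr0.trans_le hrδ
  set m : ℕ := ⌈δ / r⌉₊ with hm
  have hm0 : 0 < m := Nat.ceil_pos.2 (by positivity)
  have hm' : (0 : ℝ) < m := by exact_mod_cast hm0
  have hm1 : δ / m ≤ r := by
    rw [div_le_iff₀ hm', ← div_le_iff₀' hr0]
    exact Nat.le_ceil _
  have hm2 : (m : ℝ) * r ≤ 2 * δ := by
    have h1 : (m : ℝ) < δ / r + 1 := Nat.ceil_lt_add_one (by positivity)
    have h2 : (m : ℝ) * r ≤ (δ / r + 1) * r := by gcongr
    have h3 : (δ / r + 1) * r = δ + r := by field_simp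
    linarith
  set X : ℝ := ∑ j, |(x j : ℝ)| with hX
  have hX0 : 0 ≤ X := Finset.sum_nonneg fun j _ => abs_nonneg _
  have hB0 : 0 < lam ^ (2 + κ) := Real.rpow_pos_of_pos hlam _
  have hLeq : ∀ E : ℝ, L E x = LL μ M lam K ((E : ℂ) + ε * Complex.I) hμ hlam (him hε E) x := by
    intro E
    rw [LL_unique hμ hlam (him hε E) (hL E)]
  have hmeasL : Measurable fun E => L E x := by
    have h1 : (fun E => L E x) = fun E : ℝ =>
        LL μ M lam K ((E : ℂ) + ε * Complex.I) hμ hlam (him hε E) x := funext hLeq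
    rw [h1]
    exact measurable_LL hμ hlam hε x
  have hLnn : ∀ E, 0 ≤ L E x := by
    intro E
    rw [hLeq]
    exact LL_nonneg hμ hlam (him hε E) x
  have hone : ∀ E1 : ℝ, E0 - δ ≤ E1 → E1 ≤ E0 + δ →
      ∫⁻ E in Set.Icc (E1 - r) (E1 + r), ENNReal.ofReal (L E x) ≤
        ENNReal.ofReal (2 * Real.pi * r * (lam ^ (2 + κ) / 7 * X)) := by
    intro E1 h1 h2
    have h3 := avg_LL hμ hlam hε hε1 hr0 E1 x
    have h4 : ∀ j : Fin d, LL μ M lam K ((E1 : ℂ) + ((ε + r : ℝ) : ℂ) * Complex.I) hμ hlam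
        (him' hε hr0 E1) (Pi.single j 1) ≤ lam ^ (2 + κ) / 7 := by
      intro j
      refine hpt lam hlam hlam1 E1 (ε + r) ?_ ?_ ?_ ?_ _ j
      · linarith
      · linarith
      · linarith
      · linarith
    have h5 := LL_le_sum hμ hlam (him' hε hr0 E1) _ h4 x
    calc ∫⁻ E in Set.Icc (E1 - r) (E1 + r), ENNReal.ofReal (L E x)
        = ∫⁻ E in Set.Icc (E1 - r) (E1 + r), ENNReal.ofReal
          (LL μ M lam K ((E : ℂ) + ε * Complex.I) hμ hlam (him hε E) x) := by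
          simp only [hLeq]
      _ ≤ _ := h3
      _ ≤ _ := by
          apply ENNReal.ofReal_le_ofReal
          have := Real.pi_pos
          gcongr
  have hbound : ∫⁻ E in Set.Icc (E0 - δ) (E0 + δ), ENNReal.ofReal (L E x) ≤
      ENNReal.ofReal (2 * δ * (lam ^ (2 + κ) * X)) := by
    calc ∫⁻ E in Set.Icc (E0 - δ) (E0 + δ), ENNReal.ofReal (L E x)
        ≤ ∫⁻ E in ⋃ i : Fin m, Set.Icc (E0 - δ + (2 * (i : ℕ) + 1) * δ / m - r)
          (E0 - δ + (2 * (i : ℕ) + 1) * δ / m + r), ENNReal.ofReal (L E x) :=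
          lintegral_mono_set (fin_cover hm0 hδ0 hm1)
      _ ≤ ∑' i : Fin m, ∫⁻ E in Set.Icc (E0 - δ + (2 * (i : ℕ) + 1) * δ / m - r)
          (E0 - δ + (2 * (i : ℕ) + 1) * δ / m + r), ENNReal.ofReal (L E x) :=
          lintegral_iUnion_le _ _
      _ = ∑ i : Fin m, ∫⁻ E in Set.Icc (E0 - δ + (2 * (i : ℕ) + 1) * δ / m - r)
          (E0 - δ + (2 * (i : ℕ) + 1) * δ / m + r), ENNReal.ofReal (L E x) := tsum_fintype _
      _ ≤ ∑ _i : Fin m, ENNReal.ofReal (2 * Real.pi * r * (lam ^ (2 + κ) / 7 * X)) := by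
          refine Finset.sum_le_sum fun i _ => hone _ ?_ ?_
          · have : (0 : ℝ) ≤ (2 * ((i : ℕ) : ℝ) + 1) * δ / m := by positivity
            linarith
          · have h1 : ((i : ℕ) : ℝ) + 1 ≤ m := by exact_mod_cast i.2
            have h2 : (2 * ((i : ℕ) : ℝ) + 1) * δ / m ≤ 2 * δ := by
              rw [div_le_iff₀ hm']
              nlinarith
            linarith
      _ = ENNReal.ofReal (m * (2 * Real.pi * r * (lam ^ (2 + κ) / 7 * X))) := by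
          rw [Finset.sum_const, Finset.card_univ, Fintype.card_fin, nsmul_eq_mul,
            ENNReal.ofReal_mul hm'.le, ENNReal.ofReal_natCast]
      _ ≤ _ := by
          apply ENNReal.ofReal_le_ofReal
          have h1 : 2 * Real.pi / 7 ≤ 1 := by
            have := Real.pi_lt_d2
            linarith
          calc (m : ℝ) * (2 * Real.pi * r * (lam ^ (2 + κ) / 7 * X))
              = (m * r) * (2 * Real.pi / 7) * (lam ^ (2 + κ) * X) := by ring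
            _ ≤ (2 * δ) * 1 * (lam ^ (2 + κ) * X) := by
                have := Real.pi_pos
                gcongr
            _ = 2 * δ * (lam ^ (2 + κ) * X) := by ring
  have hInt : IntegrableOn (fun E => L E x) (Set.Icc (E0 - δ) (E0 + δ)) := by
    refine ⟨hmeasL.aestronglyMeasurable, ?_⟩
    rw [hasFiniteIntegral_iff_ofReal (Filter.Eventually.of_forall hLnn)]
    exact lt_of_le_of_lt hbound ENNReal.ofReal_lt_top
  have hle : E0 - δ ≤ E0 + δ := by linarith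
  refine ⟨?_, ?_⟩
  · rw [intervalIntegrable_iff_integrableOn_Icc_of_le hle]
    exact hInt
  · have h1 : ∫ E in (E0 - δ)..(E0 + δ), L E x ≤ 2 * δ * (lam ^ (2 + κ) * X) := by
      rw [intervalIntegral.integral_of_le hle, ← integral_Icc_eq_integral_Ioc,
        integral_eq_lintegral_of_nonneg_ae (Filter.Eventually.of_forall hLnn)
          hmeasL.aestronglyMeasurable]
      exact ENNReal.toReal_le_of_le_ofReal (by positivity) hbound
    calc (2 * δ)⁻¹ * ∫ E in (E0 - δ)..(E0 + δ), L E x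
        ≤ (2 * δ)⁻¹ * (2 * δ * (lam ^ (2 + κ) * X)) := by gcongr
      _ = lam ^ (2 + κ) * X := by field_simp

/-- The conclusion in one window. -/
def ConclX (d : ℕ) (μ : Measure ℝ) [IsProbabilityMeasure μ] (κ s lo hi : ℝ) : Prop :=
  ∃ lam0 : ℝ, 0 < lam0 ∧ ∀ lam : ℝ, 0 < lam → lam ≤ lam0 → ∀ E0 ε δ : ℝ,
    lo ≤ E0 - δ → E0 + δ ≤ hi → 0 < ε → ε ≤ lam ^ (2 + 2 * κ + s) → lam ^ (2 + 2 * κ) ≤ δ →
    ∀ L : ℝ → Site d → ℝ, (∀ E : ℝ, IsLyapunovNorm d μ lam (E + ε * Complex.I) (L E)) →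
    ∀ x : Site d, IntervalIntegrable (fun E => L E x) volume (E0 - δ) (E0 + δ) ∧
      (2 * δ)⁻¹ * ∫ E in (E0 - δ)..(E0 + δ), L E x ≤ lam ^ (2 + κ) * ∑ j, |(x j : ℝ)|

/-- The averaged bound from the free bounds with `q = 3`. -/
theorem mainX3 {μ : Measure ℝ} [IsProbabilityMeasure μ] (hb : BoundedDensity μ) {d : ℕ}
    (hd : 3 ≤ d) {lo' hi' lo hi κ s : ℝ} (hF : FreeB d lo' hi') (hlo : lo' < lo) (hhi : hi < hi')
    (hκ : 0 < κ) (hκ1 : κ < 1 / 2) (hs : 0 < s) : ConclX d μ κ s lo hi := by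
  obtain ⟨M, K, hμ⟩ := goodLaw_of hb.supp hb.dens
  obtain ⟨κF, hFC⟩ := freeC3 (by omega) hF
  obtain ⟨A, hA⟩ : ∃ A : ℝ, A = min (2 + 2 * κ + s) ((2 + 2 * κ + 3) / 2) := ⟨_, rfl⟩
  have hA1 : A ≤ 2 + 2 * κ + s := by rw [hA]; exact min_le_left _ _
  have hA2 : A ≤ (2 + 2 * κ + 3) / 2 := by rw [hA]; exact min_le_right _ _
  have hA3 : 2 + 2 * κ < A := by rw [hA]; exact lt_min (by linarith) (by linarith)
  obtain ⟨lam1, h0, h1, h⟩ := ptX hb hμ hd (θ := 1 / 6) (y0 := 0) (A := A) hFC hlo hhi hκ hA3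
    le_rfl (by norm_num) le_rfl (by linarith) (by linarith)
  refine ⟨lam1, h0, fun lam hlam hle E0 ε δ g1 g2 g3 g4 g5 => ?_⟩
  exact mainX hμ hA3.le (by linarith) h0 h1 h lam hlam hle E0 ε δ g1 g2 g3
    (g4.trans (Real.rpow_le_rpow_of_exponent_ge hlam (hle.trans h1) hA1)) g5

/-- The averaged bound from the free bounds with `q = 4`. -/
theorem mainX4 {μ : Measure ℝ} [IsProbabilityMeasure μ] (hb : BoundedDensity μ) {d : ℕ}
    (hd : 3 ≤ d) {b lo hi κ s : ℝ} (hb0 : 0 < b) (hb1 : b ≤ 1) (hlo : b < lo) (hhi : hi < 4 * d - b)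
    (hκ : 0 < κ) (hκ1 : κ < 1 / 3) (hs : 0 < s) : ConclX d μ κ s lo hi := by
  obtain ⟨M, K, hμ⟩ := goodLaw_of hb.supp hb.dens
  obtain ⟨κF, hFC⟩ := freeC4 hd hb0 hb1
  obtain ⟨A, hA⟩ : ∃ A : ℝ, A = min (2 + 2 * κ + s) ((2 + 2 * κ + 8 / 3) / 2) := ⟨_, rfl⟩
  have hA1 : A ≤ 2 + 2 * κ + s := by rw [hA]; exact min_le_left _ _
  have hA2 : A ≤ (2 + 2 * κ + 8 / 3) / 2 := by rw [hA]; exact min_le_right _ _
  have hA3 : 2 + 2 * κ < A := by rw [hA]; exact lt_min (by linarith) (by linarith)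
  obtain ⟨lam1, h0, h1, h⟩ := ptX hb hμ hd (θ := 1 / 4) (y0 := (A - 2) / 4) (A := A) hFC hlo hhi
    hκ hA3 (by norm_num) le_rfl (by linarith) (by linarith) (by linarith)
  refine ⟨lam1, h0, fun lam hlam hle E0 ε δ g1 g2 g3 g4 g5 => ?_⟩
  exact mainX hμ hA3.le (by linarith) h0 h1 h lam hlam hle E0 ε δ g1 g2 g3
    (g4.trans (Real.rpow_le_rpow_of_exponent_ge hlam (hle.trans h1) hA1)) g5

/-- Reflection of the window. -/
theorem reflX {μ : Measure ℝ} [IsProbabilityMeasure μ] (hb : BoundedDensity μ) {d : ℕ}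
    {κ s lo hi : ℝ}
    (h : ∀ (μ' : Measure ℝ) [IsProbabilityMeasure μ'], BoundedDensity μ' → ConclX d μ' κ s lo hi) :
    ConclX d μ κ s (4 * d - hi) (4 * d - lo) := by
  have : IsProbabilityMeasure (μ.map (fun x => -x)) :=
    Measure.isProbabilityMeasure_map measurable_neg.aemeasurable
  obtain ⟨lam0, h0, h⟩ := h (μ.map (fun x => -x)) (bd_neg hb)
  refine ⟨lam0, h0, fun lam hlam hle E0 ε δ h1 h2 hε hε2 hδ L hL x => ?_⟩
  have h3 : ∀ E : ℝ, IsLyapunovNorm d (μ.map (fun x => -x)) lam (E + ε * Complex.I)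
      ((fun E' : ℝ => L (4 * d - E')) E) := by
    intro E
    have h4 := hL (4 * d - E)
    have hz : 0 < (((4 * d - E : ℝ) : ℂ) + ε * Complex.I).im := by simpa using hε
    have h5 := lyap_symm hb lam hz h4
    have h6 : (4 * (d : ℂ) - starRingEnd ℂ (((4 * d - E : ℝ) : ℂ) + ε * Complex.I)) =
        (E : ℂ) + ε * Complex.I := by
      rw [map_add, map_mul, Complex.conj_ofReal, Complex.conj_ofReal, Complex.conj_I]
      push_cast
      ring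
    rw [h6] at h5
    exact h5
  obtain ⟨h7, h8⟩ := h lam hlam hle (4 * d - E0) ε δ (by linarith) (by linarith) hε hε2 hδ _ h3 x
  constructor
  · have h9 := h7.comp_sub_left (4 * (d : ℝ))
    have e1 : 4 * (d : ℝ) - (4 * d - E0 - δ) = E0 + δ := by ring
    have e2 : 4 * (d : ℝ) - (4 * d - E0 + δ) = E0 - δ := by ring
    simp only [sub_sub_cancel] at h9
    rw [e1, e2] at h9
    exact h9.symm
  · have h10 : ∫ E in (4 * (d : ℝ) - E0 - δ)..(4 * d - E0 + δ), L (4 * d - E) x =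
        ∫ E in (E0 - δ)..(E0 + δ), L E x := by
      have := intervalIntegral.integral_comp_sub_left (a := 4 * (d : ℝ) - E0 - δ)
        (b := 4 * (d : ℝ) - E0 + δ) (fun E => L E x) (4 * (d : ℝ))
      rw [this]
      congr 1 <;> ring
    rw [h10] at h8
    exact h8

/-- The windows and exponents of the theorem. For `κ < 1/2`: the windows `[a, 2-a]` and
`[4d-2+a, 4d-a]`, and for `d ≥ 4` the window `[a, 4d-a]`. For `κ < 1/3`: the window `[a, 4d-a]` for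
every `d ≥ 3`. -/
def Admissible (d : ℕ) (a κ lo hi : ℝ) : Prop :=
  (κ < 1 / 2 ∧ 3 ≤ d ∧ ((a ≤ lo ∧ hi ≤ 2 - a) ∨ (4 * d - 2 + a ≤ lo ∧ hi ≤ 4 * d - a) ∨
    (4 ≤ d ∧ a ≤ lo ∧ hi ≤ 4 * d - a))) ∨
  (κ < 1 / 3 ∧ 3 ≤ d ∧ a ≤ lo ∧ hi ≤ 4 * d - a)

theorem allX {μ : Measure ℝ} [IsProbabilityMeasure μ] (hb : BoundedDensity μ) (d : ℕ)
    {a κ s : ℝ} (ha : 0 < a) (hκ : 0 < κ) (hs : 0 < s) :
    ∃ lam0 : ℝ, 0 < lam0 ∧ ∀ lam : ℝ, 0 < lam → lam ≤ lam0 → ∀ E0 ε δ : ℝ,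
      Admissible d a κ (E0 - δ) (E0 + δ) → 0 < ε → ε ≤ lam ^ (2 + 2 * κ + s) →
      lam ^ (2 + 2 * κ) ≤ δ →
      ∀ L : ℝ → Site d → ℝ, (∀ E : ℝ, IsLyapunovNorm d μ lam (E + ε * Complex.I) (L E)) →
      ∀ x : Site d, IntervalIntegrable (fun E => L E x) volume (E0 - δ) (E0 + δ) ∧
        (2 * δ)⁻¹ * ∫ E in (E0 - δ)..(E0 + δ), L E x ≤ lam ^ (2 + κ) * ∑ j, |(x j : ℝ)| := by
  have hb0 : 0 < min a 1 := lt_min ha one_pos
  have hb1 : min a 1 ≤ 1 := min_le_right _ _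
  have hba : min a 1 ≤ a := min_le_left _ _
  -- four windows
  have W1 : κ < 1 / 2 → 3 ≤ d → ConclX d μ κ s a (2 - a) := fun h1 hd =>
    mainX3 hb hd (freeB (b := min a 1 / 2) (by linarith) (by linarith) hd) (by linarith)
      (by linarith) hκ h1 hs
  have W2 : κ < 1 / 2 → 3 ≤ d → ConclX d μ κ s (4 * d - (2 - a)) (4 * d - a) := fun h1 hd =>
    reflX hb fun μ' _ hb' => mainX3 hb' hd (freeB (b := min a 1 / 2) (by linarith) (by linarith) hd)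
      (by linarith) (by linarith) hκ h1 hs
  have W3 : κ < 1 / 2 → 4 ≤ d → ConclX d μ κ s a (4 * d - a) := fun h1 hd =>
    mainX3 hb (by omega) (freeB4 (b := min a 1 / 2) (by linarith) (by linarith) hd) (by linarith)
      (by linarith) hκ h1 hs
  have W4 : κ < 1 / 3 → 3 ≤ d → ConclX d μ κ s a (4 * d - a) := fun h1 hd =>
    mainX4 hb hd (b := min a 1 / 2) (by linarith) (by linarith) (by linarith) (by linarith) hκ h1 hs
  have triv : ∀ {P : Prop} {lo hi : ℝ}, (P → ConclX d μ κ s lo hi) →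
      ∃ lam0 : ℝ, 0 < lam0 ∧ ∀ lam : ℝ, 0 < lam → lam ≤ lam0 → ∀ E0 ε δ : ℝ, P →
        lo ≤ E0 - δ → E0 + δ ≤ hi → 0 < ε → ε ≤ lam ^ (2 + 2 * κ + s) → lam ^ (2 + 2 * κ) ≤ δ →
        ∀ L : ℝ → Site d → ℝ, (∀ E : ℝ, IsLyapunovNorm d μ lam (E + ε * Complex.I) (L E)) →
        ∀ x : Site d, IntervalIntegrable (fun E => L E x) volume (E0 - δ) (E0 + δ) ∧
          (2 * δ)⁻¹ * ∫ E in (E0 - δ)..(E0 + δ), L E x ≤ lam ^ (2 + κ) * ∑ j, |(x j : ℝ)| := by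
    intro P lo hi h
    by_cases hP : P
    · obtain ⟨l, hl, h'⟩ := h hP
      exact ⟨l, hl, fun lam h1 h2 E0 ε δ _ => h' lam h1 h2 E0 ε δ⟩
    · exact ⟨1, one_pos, fun lam _ _ E0 ε δ h3 => absurd h3 hP⟩
  obtain ⟨l1, hl1, B1⟩ := triv (P := κ < 1 / 2 ∧ 3 ≤ d) fun h => W1 h.1 h.2
  obtain ⟨l2, hl2, B2⟩ := triv (P := κ < 1 / 2 ∧ 3 ≤ d) fun h => W2 h.1 h.2
  obtain ⟨l3, hl3, B3⟩ := triv (P := κ < 1 / 2 ∧ 4 ≤ d) fun h => W3 h.1 h.2
  obtain ⟨l4, hl4, B4⟩ := triv (P := κ < 1 / 3 ∧ 3 ≤ d) fun h => W4 h.1 h.2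
  refine ⟨min (min l1 l2) (min l3 l4), lt_min (lt_min hl1 hl2) (lt_min hl3 hl4),
    fun lam h1 h2 E0 ε δ h3 => ?_⟩
  have e1 : lam ≤ l1 := h2.trans ((min_le_left _ _).trans (min_le_left _ _))
  have e2 : lam ≤ l2 := h2.trans ((min_le_left _ _).trans (min_le_right _ _))
  have e3 : lam ≤ l3 := h2.trans ((min_le_right _ _).trans (min_le_left _ _))
  have e4 : lam ≤ l4 := h2.trans ((min_le_right _ _).trans (min_le_right _ _))
  rcases h3 with ⟨k, hd, h | h | h⟩ | ⟨k, hd, h⟩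
  · exact B1 lam h1 e1 E0 ε δ ⟨k, hd⟩ h.1 h.2
  · exact B2 lam h1 e2 E0 ε δ ⟨k, hd⟩ (by linarith [h.1]) h.2
  · exact B3 lam h1 e3 E0 ε δ ⟨k, h.1⟩ h.2.1 h.2.2
  · exact B4 lam h1 e4 E0 ε δ ⟨k, hd⟩ h.1 h.2

end Pool.Agent.BK3
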