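import Pool.Agent.BK3.Wt

/-! BK3 module Fw: weighted norms of the free resolvent from unweighted ones. `γ = Im ζ ≤ 1`,
`r ≥ γ^(-(1+ς))`, `16 d ≤ r γ`, `q ≥ 1`. Near part, `|(x-y)_l| ≤ r` for all `l`: `1/φ ≤ e^d` (`inv_ph2_le`, `a = r`).
Far part: with the maximal coordinate `l`, `|x-y|_∞ > r`: `torus_ct` (with `v = 0` and translation `Gr0_add`)
`|Gr_yx| ≤ (2/γ) exp(-(γ/8)|x-y|_∞)` and `1/φ ≤ exp(d|x-y|_∞/r) ≤ exp(γ|x-y|_∞/16)`, so the ratio is
`≤ (2/γ) exp(-γ|x-y|_∞/16) ≤ (2/γ) exp(-γr/32) exp(-γ|x-y|_1/(32d))`, and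
`∑_x exp(-qγ|x|_1/(32 d)) ≤ ∑ exp(-γ|x|_1/(32d)) ≤ (128 d/γ)^d` (`sum_phi_le` with radius `32 d/γ`). So the far part is
`≤ (2/γ)^q (128 d/γ)^d exp(-qγr/32)`, bounded by a constant because `γ r ≥ γ^(-ς)` (`x^m exp(-c x^ς)` is bounded
for `x ≥ 1`). -/

open MeasureTheory Finset Matrix Pool.Agent.BK

noncomputable section

namespace Pool.Agent.BK3

lemma fw_abs_neg {m : ℕ} (a : ZMod m) : |((-a).valMinAbs : ℝ)| = |(a.valMinAbs : ℝ)| := by
  have h := ZMod.natAbs_valMinAbs_neg a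
  have h1 : ((-a).valMinAbs.natAbs : ℝ) = (a.valMinAbs.natAbs : ℝ) := by exact_mod_cast h
  rwa [Nat.cast_natAbs, Nat.cast_natAbs, Int.cast_abs, Int.cast_abs] at h1

/-- The far bound. -/
lemma fw_far {d n : ℕ} (hd : 1 ≤ d) {ζ : ℂ} {r : ℝ} (h0 : 0 < ζ.im) (h1 : ζ.im ≤ 1)
    (hr0 : 0 < r) (hr : 16 * d ≤ r * ζ.im) (y x : Tor d n) (l : Fin d)
    (hl : ∀ l', |(((x - y) l').valMinAbs : ℝ)| ≤ |(((x - y) l).valMinAbs : ℝ)|)
    (hlr : r < |(((x - y) l).valMinAbs : ℝ)|) :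
    ‖Gr (H0 d n) 0 ζ y x‖ / ph2 r y x ≤
      2 / ζ.im * Real.exp (-(ζ.im * r / 32)) * phi (32 * d / ζ.im) (x - y) := by
  have hd0 : (0 : ℝ) < d := by exact_mod_cast (show 0 < d by omega)
  set γ := ζ.im with hγ
  set D : ℝ := |(((x - y) l).valMinAbs : ℝ)| with hD
  have e1 : ‖Gr (H0 d n) 0 ζ y x‖ ≤ 2 / γ * Real.exp (-(γ / 8 * D)) := by
    have h2 := torus_ct (d := d) (n := n) 0 h0 h1 l (y - x)
    have h3 := Gr0_add (d := d) (n := n) ζ x (y - x) 0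
    rw [sub_add_cancel, zero_add] at h3
    rw [h3]
    have h4 : |(((y - x) l).valMinAbs : ℝ)| = D := by
      rw [hD, ← fw_abs_neg ((x - y) l)]
      congr 3
      simp
    rw [h4] at h2
    exact h2
  have e2 : (ph2 r y x)⁻¹ ≤ Real.exp (d * D / r) := inv_ph2_le hr0 y x hl
  have hD0 : 0 < D := hr0.trans hlr
  have e3 : d * D / r ≤ γ * D / 16 := by
    rw [div_le_div_iff₀ hr0 (by norm_num)]
    nlinarith
  have e4 : (∑ l', |(((x - y) l').valMinAbs : ℝ)|) ≤ d * D := by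
    calc (∑ l', |(((x - y) l').valMinAbs : ℝ)|) ≤ ∑ _l' : Fin d, D :=
          Finset.sum_le_sum fun l' _ => hl l'
      _ = d * D := by simp
  have e5 : -(γ * D / 32) ≤ -(∑ l', |(((x - y) l').valMinAbs : ℝ)|) / (32 * d / γ) := by
    rw [neg_div, neg_le_neg_iff, div_div_eq_mul_div, div_le_div_iff₀ (by positivity) (by norm_num)]
    nlinarith [mul_le_mul_of_nonneg_right e4 h0.le]
  rw [div_eq_mul_inv]
  calc ‖Gr (H0 d n) 0 ζ y x‖ * (ph2 r y x)⁻¹ ≤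
      (2 / γ * Real.exp (-(γ / 8 * D))) * Real.exp (γ * D / 16) := by
        refine mul_le_mul e1 (e2.trans (Real.exp_le_exp.mpr e3)) ?_ (by positivity)
        exact inv_nonneg.mpr (Real.exp_pos _).le
    _ = 2 / γ * (Real.exp (-(γ * D / 32)) * Real.exp (-(γ * D / 32))) := by
        rw [mul_assoc, ← Real.exp_add, ← Real.exp_add]
        congr 2
        ring
    _ ≤ 2 / γ * (Real.exp (-(γ * r / 32)) * phi (32 * d / γ) (x - y)) := by
        unfold phi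
        gcongr
    _ = _ := by ring

/-- `X^m exp(-X^ς/32)` is bounded. -/
lemma fw_const {ς : ℝ} (hς : 0 < ς) {a : ℝ} (_ha : 0 ≤ a) : ∃ C : ℝ, 0 < C ∧ ∀ X : ℝ, 1 ≤ X →
    X ^ a * Real.exp (-(X ^ ς / 32)) ≤ C := by
  obtain ⟨k, hk⟩ := exists_nat_ge (a / ς)
  rw [div_le_iff₀ hς] at hk
  refine ⟨32 ^ k * k.factorial, by positivity, fun X hX => ?_⟩
  have hX0 : 0 < X := by linarith
  set t := X ^ ς / 32 with ht
  have ht0 : 0 ≤ t := by positivity
  have h1 : t ^ k / k.factorial ≤ Real.exp t := by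
    have h2 := Real.sum_le_exp_of_nonneg ht0 (k + 1)
    refine le_trans ?_ h2
    exact Finset.single_le_sum (f := fun i => t ^ i / (i.factorial : ℝ))
      (fun i _ => by positivity) (Finset.mem_range.mpr (Nat.lt_succ_self k))
  have h2 : X ^ a ≤ (32 * t) ^ k := by
    calc X ^ a ≤ X ^ (k * ς) := Real.rpow_le_rpow_of_exponent_le hX hk
      _ = (32 * t) ^ k := by
        rw [ht, mul_div_cancel₀ _ (by norm_num : (32 : ℝ) ≠ 0), mul_comm (k : ℝ) ς,
          Real.rpow_mul hX0.le, Real.rpow_natCast]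
  have h3 : t ^ k ≤ Real.exp t * k.factorial := by
    rwa [div_le_iff₀ (by positivity)] at h1
  calc X ^ a * Real.exp (-t) ≤ (32 ^ k * (Real.exp t * k.factorial)) * Real.exp (-t) := by
        refine mul_le_mul_of_nonneg_right ?_ (Real.exp_pos _).le
        rw [mul_pow] at h2
        exact h2.trans (by gcongr)
    _ = 32 ^ k * k.factorial * (Real.exp t * Real.exp (-t)) := by ring
    _ = _ := by rw [← Real.exp_add]; simp

theorem fw {d : ℕ} {q ς : ℝ} (hd : 1 ≤ d) (hq : 1 ≤ q) (hς : 0 < ς) : ∃ C : ℝ, 0 < C ∧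
    ∀ (ζ : ℂ) (n : ℕ) (r A : ℝ), 0 < ζ.im → ζ.im ≤ 1 → ζ.im ^ (-(1 + ς)) ≤ r →
      16 * d ≤ r * ζ.im → ∀ y : Tor d n, ∑ x, ‖Gr (H0 d n) 0 ζ y x‖ ^ q ≤ A →
      ∑ x, (‖Gr (H0 d n) 0 ζ y x‖ / ph2 r y x) ^ q ≤ C * (A + 1) := by
  have hd0 : (0 : ℝ) < d := by exact_mod_cast (show 0 < d by omega)
  have hd1 : (1 : ℝ) ≤ d := by exact_mod_cast hd
  obtain ⟨C1, hC1, hc⟩ := fw_const hς (a := q + d) (by positivity)
  refine ⟨Real.exp d ^ q + 2 ^ q * (128 * d) ^ d * C1, by positivity, ?_⟩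
  intro ζ n r A h0 h1 hr1 hr y hA
  set γ := ζ.im with hγ
  have hq0 : 0 < q := by linarith
  have hr0 : 0 < r := lt_of_lt_of_le (by positivity) hr1
  have hA0 : 0 ≤ A := le_trans (Finset.sum_nonneg fun x _ => by positivity) hA
  set Y : ℝ := (2 / γ) ^ q * Real.exp (-(γ * r / 32)) with hY
  have hY0 : 0 ≤ Y := by positivity
  have hpt : ∀ x : Tor d n, (‖Gr (H0 d n) 0 ζ y x‖ / ph2 r y x) ^ q ≤
      Real.exp d ^ q * ‖Gr (H0 d n) 0 ζ y x‖ ^ q + Y * phi (32 * d / γ) (x - y) := by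
    intro x
    have hph : 0 < ph2 r y x := Real.exp_pos _
    have hphi : 0 < phi (32 * d / γ) (x - y) := Real.exp_pos _
    have : Nonempty (Fin d) := ⟨⟨0, by omega⟩⟩
    obtain ⟨l, hl⟩ := Finite.exists_max fun l : Fin d => |(((x - y) l).valMinAbs : ℝ)|
    rcases le_or_gt |(((x - y) l).valMinAbs : ℝ)| r with hlr | hlr
    · have e1 : (ph2 r y x)⁻¹ ≤ Real.exp (d * r / r) :=
        inv_ph2_le hr0 y x fun l' => (hl l').trans hlr
      rw [mul_div_assoc, div_self hr0.ne', mul_one] at e1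
      have e2 : (‖Gr (H0 d n) 0 ζ y x‖ / ph2 r y x) ^ q ≤
          (Real.exp d * ‖Gr (H0 d n) 0 ζ y x‖) ^ q := by
        refine Real.rpow_le_rpow (by positivity) ?_ hq0.le
        rw [div_eq_mul_inv, mul_comm]
        exact mul_le_mul_of_nonneg_right e1 (norm_nonneg _)
      rw [Real.mul_rpow (Real.exp_pos _).le (norm_nonneg _)] at e2
      exact e2.trans (le_add_of_nonneg_right (by positivity))
    · have e1 := fw_far hd h0 h1 hr0 hr y x l hl hlr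
      have e2 : (‖Gr (H0 d n) 0 ζ y x‖ / ph2 r y x) ^ q ≤ Y * phi (32 * d / γ) (x - y) := by
        refine (Real.rpow_le_rpow (by positivity) e1 hq0.le).trans ?_
        rw [Real.mul_rpow (by positivity) hphi.le, Real.mul_rpow (by positivity)
          (Real.exp_pos _).le]
        have a1 : Real.exp (-(γ * r / 32)) ^ q ≤ Real.exp (-(γ * r / 32)) := by
          have : Real.exp (-(γ * r / 32)) ≤ 1 := Real.exp_le_one_iff.mpr (by
            have : 0 ≤ γ * r / 32 := by positivity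
            linarith)
          calc _ ≤ Real.exp (-(γ * r / 32)) ^ (1 : ℝ) :=
                Real.rpow_le_rpow_of_exponent_ge (Real.exp_pos _) this hq
            _ = _ := Real.rpow_one _
        have a2 : phi (32 * d / γ) (x - y) ^ q ≤ phi (32 * d / γ) (x - y) := by
          have : phi (32 * d / γ) (x - y) ≤ 1 := Real.exp_le_one_iff.mpr (by
            rw [neg_div]
            have : 0 ≤ (∑ l, |(((x - y) l).valMinAbs : ℝ)|) / (32 * d / γ) := by positivity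
            linarith)
          calc _ ≤ phi (32 * d / γ) (x - y) ^ (1 : ℝ) :=
                Real.rpow_le_rpow_of_exponent_ge hphi this hq
            _ = _ := Real.rpow_one _
        rw [hY]
        gcongr
      exact e2.trans (le_add_of_nonneg_left (by positivity))
  have hR : (1 : ℝ) ≤ 32 * d / γ := by
    rw [le_div_iff₀ h0]
    nlinarith
  have hsum : ∑ x : Tor d n, phi (32 * d / γ) (x - y) ≤ (128 * d / γ) ^ d := by
    have h2 := sum_phi_le (d := d) (n := n) hR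
    have h3 : ∑ x : Tor d n, phi (32 * d / γ) (x - y) = ∑ x : Tor d n, phi (32 * d / γ) x :=
      Fintype.sum_equiv (Equiv.subRight y) _ _ (fun _ => rfl)
    rw [h3]
    refine h2.trans (le_of_eq ?_)
    congr 1
    ring
  have hfar : Y * (128 * d / γ) ^ d ≤ 2 ^ q * (128 * d) ^ d * C1 := by
    have hX := hc (1 / γ) (by rw [le_div_iff₀ h0]; linarith)
    have e1 : (1 / γ) ^ ς ≤ γ * r := by
      have : γ * γ ^ (-(1 + ς)) ≤ γ * r := mul_le_mul_of_nonneg_left hr1 h0.le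
      refine le_trans (le_of_eq ?_) this
      rw [one_div, Real.inv_rpow h0.le, ← Real.rpow_neg h0.le]
      nth_rewrite 2 [← Real.rpow_one γ]
      rw [← Real.rpow_add h0]
      congr 1
      ring
    have e2 : Real.exp (-(γ * r / 32)) ≤ Real.exp (-((1 / γ) ^ ς / 32)) :=
      Real.exp_le_exp.mpr (by linarith)
    have e3 : (2 / γ) ^ q = 2 ^ q * (1 / γ) ^ q := by
      rw [← Real.mul_rpow (by norm_num) (by positivity)]
      congr 1
      ring
    have e4 : (128 * d / γ) ^ d = (128 * d) ^ d * (1 / γ) ^ (d : ℝ) := by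
      rw [Real.rpow_natCast, ← mul_pow]
      congr 1
      ring
    calc Y * (128 * d / γ) ^ d = 2 ^ q * (128 * d) ^ d *
          (((1 / γ) ^ q * (1 / γ) ^ (d : ℝ)) * Real.exp (-(γ * r / 32))) := by
          rw [hY, e3, e4]
          ring
      _ = 2 ^ q * (128 * d) ^ d * ((1 / γ) ^ (q + d) * Real.exp (-(γ * r / 32))) := by
          rw [Real.rpow_add (by positivity)]
      _ ≤ 2 ^ q * (128 * d) ^ d * ((1 / γ) ^ (q + d) * Real.exp (-((1 / γ) ^ ς / 32))) := by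
          gcongr
      _ ≤ _ := by gcongr
  calc ∑ x, (‖Gr (H0 d n) 0 ζ y x‖ / ph2 r y x) ^ q ≤
      ∑ x, (Real.exp d ^ q * ‖Gr (H0 d n) 0 ζ y x‖ ^ q + Y * phi (32 * d / γ) (x - y)) :=
        Finset.sum_le_sum fun x _ => hpt x
    _ = Real.exp d ^ q * ∑ x, ‖Gr (H0 d n) 0 ζ y x‖ ^ q +
        Y * ∑ x, phi (32 * d / γ) (x - y) := by
        rw [Finset.sum_add_distrib, ← Finset.mul_sum, ← Finset.mul_sum]
    _ ≤ Real.exp d ^ q * A + Y * (128 * d / γ) ^ d := by gcongr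
    _ ≤ Real.exp d ^ q * A + 2 ^ q * (128 * d) ^ d * C1 := by gcongr
    _ ≤ _ := by
        have h2 : 0 ≤ Real.exp (d : ℝ) ^ q := by positivity
        have h3 : 0 ≤ 2 ^ q * (128 * (d : ℝ)) ^ d * C1 * A := by positivity
        nlinarith

/-- `∑ |Gr_yx|² = Im Gr_yy/γ ≤ (∑|Gr_yx|^p)^(1/p)/γ`. -/
theorem fw2 {d n p : ℕ} (hp : 1 ≤ p) {ζ : ℂ} {A : ℝ} (h0 : 0 < ζ.im) (hA : 1 ≤ A) (y : Tor d n)
    (h : ∑ x, ‖Gr (H0 d n) 0 ζ y x‖ ^ p ≤ A) :
    ∑ x, ‖Gr (H0 d n) 0 ζ y x‖ ^ 2 ≤ A / ζ.im := by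
  rw [ward (RS_H0 d n) 0 h0 y]
  refine div_le_div_of_nonneg_right ?_ h0.le
  have h1 : (Gr (H0 d n) 0 ζ y y).im ≤ ‖Gr (H0 d n) 0 ζ y y‖ := Complex.im_le_norm _
  refine h1.trans ?_
  rcases le_total ‖Gr (H0 d n) 0 ζ y y‖ 1 with h2 | h2
  · exact h2.trans hA
  · have h3 : ‖Gr (H0 d n) 0 ζ y y‖ ≤ ‖Gr (H0 d n) 0 ζ y y‖ ^ p := le_self_pow₀ h2 (by omega)
    have h4 : ‖Gr (H0 d n) 0 ζ y y‖ ^ p ≤ ∑ x, ‖Gr (H0 d n) 0 ζ y x‖ ^ p :=
      Finset.single_le_sum (f := fun x => ‖Gr (H0 d n) 0 ζ y x‖ ^ p)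
        (fun x _ => by positivity) (Finset.mem_univ y)
    linarith

end Pool.Agent.BK3
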