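import Mathlib

/-! BK3 module PH: pair Hoelder inequalities (pure real analysis, finite sums).
`φ` weights in `(0, 1]`, `k_yx ≥ 0` a kernel whose weighted rows and columns have `ℓ^q` norm at most `m`,
`1/q = 1/2 - θ`, `a, s ≥ 0` functions with `∑_x φ_yx a_x² ≤ μ`, `∑ s² ≤ τ`, `∑ a⁴, ∑ s⁴ ≤ S`.
All three are Hoelder with the exponents `q, 2, 1/θ` over the pairs `(y, x)`, giving each factor its share
of `a_x² s_y²`: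
(a) `k g a² s² = [(k/φ) (a²s²)^(1/q)] [φ^(1/2) g (a²s²)^(1/2)] [φ^θ (a²s²)^θ] φ^(1/2-θ)`, `φ^(1/2-θ) ≤ 1`;
   `∑ (k/φ)^q a_x² s_y² ≤ (1/2) ∑ (k/φ)^q (a_x⁴ + s_y⁴) ≤ m^q S`, `∑ φ g² a_x² s_y² ≤ μ S` in the same way
   (rows and columns of `φ g²`), `∑ φ a_x² s_y² ≤ μ τ`;
(b) `k a² s³ = [(k/φ)(a²s²)^(1/q)] [φ^(1/2) a s²] [φ^θ (a²s²)^θ] φ^(1/2-θ)`, `∑ φ a_x² s_y⁴ ≤ μ ∑ s⁴`;
(c) `k a s³ D = [(k/φ)(a²s²)^(1/q)] [φ^(1/2) s² D] [φ^θ (a²s²)^θ] φ^(1/2-θ)`, `∑ φ s_y⁴ D_x² ≤ Dl² ∑ s⁴`. -/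

open Finset

noncomputable section

namespace Pool.Agent.BK3

/-- The hypotheses of the pair inequalities. -/
structure PHyp {X : Type} [Fintype X] (q θ m μ τ S : ℝ) (φ k : X → X → ℝ) (a s : X → ℝ) : Prop where
  th : 0 < θ
  th2 : θ < 1 / 2
  q0 : 0 < q
  qth : 1 / q = 1 / 2 - θ
  m0 : 0 ≤ m
  mu0 : 0 ≤ μ
  tau0 : 0 ≤ τ
  S0 : 0 ≤ S
  ph : ∀ x y, 0 < φ x y ∧ φ x y ≤ 1
  k0 : ∀ x y, 0 ≤ k x y
  row : ∀ y, ∑ x, (k y x / φ y x) ^ q ≤ m ^ q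
  col : ∀ x, ∑ y, (k y x / φ y x) ^ q ≤ m ^ q
  a0 : ∀ x, 0 ≤ a x
  s0 : ∀ x, 0 ≤ s x
  am : ∀ y, ∑ x, φ y x * a x ^ 2 ≤ μ
  st : ∑ y, s y ^ 2 ≤ τ
  aS : ∑ x, a x ^ 4 ≤ S
  sS : ∑ y, s y ^ 4 ≤ S

variable {X : Type} [Fintype X] {q θ m μ τ S : ℝ} {φ k : X → X → ℝ} {a s : X → ℝ}

/-- Hoelder with three factors. -/
theorem hol3 {ι : Type} (t : Finset ι) (u v w : ι → ℝ) (hu : ∀ i, 0 ≤ u i) (hv : ∀ i, 0 ≤ v i)
    (hw : ∀ i, 0 ≤ w i) {α β γ : ℝ} (hα : 0 < α) (hβ : 0 < β) (hγ : 0 < γ)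
    (hsum : α + β + γ = 1) :
    ∑ i ∈ t, u i ^ α * v i ^ β * w i ^ γ ≤
      (∑ i ∈ t, u i) ^ α * (∑ i ∈ t, v i) ^ β * (∑ i ∈ t, w i) ^ γ := by
  have hU : 0 ≤ ∑ i ∈ t, u i := sum_nonneg fun i _ => hu i
  have hV : 0 ≤ ∑ i ∈ t, v i := sum_nonneg fun i _ => hv i
  have hW : 0 ≤ ∑ i ∈ t, w i := sum_nonneg fun i _ => hw i
  have hR : 0 ≤ (∑ i ∈ t, u i) ^ α * (∑ i ∈ t, v i) ^ β * (∑ i ∈ t, w i) ^ γ := by positivity
  rcases hU.eq_or_lt with h0 | hU0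
  · refine le_trans (le_of_eq (sum_eq_zero fun i hi => ?_)) hR
    have : u i = 0 := (sum_eq_zero_iff_of_nonneg fun i _ => hu i).1 h0.symm i hi
    rw [this, Real.zero_rpow hα.ne']
    ring
  rcases hV.eq_or_lt with h0 | hV0
  · refine le_trans (le_of_eq (sum_eq_zero fun i hi => ?_)) hR
    have : v i = 0 := (sum_eq_zero_iff_of_nonneg fun i _ => hv i).1 h0.symm i hi
    rw [this, Real.zero_rpow hβ.ne']
    ring
  rcases hW.eq_or_lt with h0 | hW0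
  · refine le_trans (le_of_eq (sum_eq_zero fun i hi => ?_)) hR
    have : w i = 0 := (sum_eq_zero_iff_of_nonneg fun i _ => hw i).1 h0.symm i hi
    rw [this, Real.zero_rpow hγ.ne']
    ring
  set U := ∑ i ∈ t, u i with hUd
  set V := ∑ i ∈ t, v i with hVd
  set W := ∑ i ∈ t, w i with hWd
  have hPos : 0 < U ^ α * V ^ β * W ^ γ := by positivity
  have h1 : ∀ i ∈ t, u i ^ α * v i ^ β * w i ^ γ ≤
      (U ^ α * V ^ β * W ^ γ) * (α * (u i / U) + β * (v i / V) + γ * (w i / W)) := by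
    intro i _
    have h2 := Real.geom_mean_le_arith_mean3_weighted hα.le hβ.le hγ.le
      (div_nonneg (hu i) hU0.le) (div_nonneg (hv i) hV0.le) (div_nonneg (hw i) hW0.le) hsum
    have h3 : u i ^ α * v i ^ β * w i ^ γ = (U ^ α * V ^ β * W ^ γ) *
        ((u i / U) ^ α * (v i / V) ^ β * (w i / W) ^ γ) := by
      rw [Real.div_rpow (hu i) hU0.le, Real.div_rpow (hv i) hV0.le, Real.div_rpow (hw i) hW0.le]
      have e1 : U ^ α ≠ 0 := by positivity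
      have e2 : V ^ β ≠ 0 := by positivity
      have e3 : W ^ γ ≠ 0 := by positivity
      field_simp
    rw [h3]
    exact mul_le_mul_of_nonneg_left h2 hPos.le
  calc ∑ i ∈ t, u i ^ α * v i ^ β * w i ^ γ
      ≤ ∑ i ∈ t, (U ^ α * V ^ β * W ^ γ) * (α * (u i / U) + β * (v i / V) + γ * (w i / W)) :=
        sum_le_sum h1
    _ = (U ^ α * V ^ β * W ^ γ) * (α * (U / U) + β * (V / V) + γ * (W / W)) := by
        rw [← mul_sum, sum_add_distrib, sum_add_distrib, ← mul_sum, ← mul_sum, ← mul_sum,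
          ← sum_div, ← sum_div, ← sum_div]
    _ = U ^ α * V ^ β * W ^ γ := by
        rw [div_self hU0.ne', div_self hV0.ne', div_self hW0.ne']
        rw [mul_one, mul_one, mul_one, hsum, mul_one]

/-- rows and columns -/
theorem pair_sum (f : X → X → ℝ) (a s : X → ℝ) (M S : ℝ) (hf : ∀ y x, 0 ≤ f y x) (hM : 0 ≤ M)
    (hrow : ∀ y, ∑ x, f y x ≤ M) (hcol : ∀ x, ∑ y, f y x ≤ M) (haS : ∑ x, a x ^ 4 ≤ S)
    (hsS : ∑ y, s y ^ 4 ≤ S) :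
    ∑ y, ∑ x, f y x * (a x ^ 2 * s y ^ 2) ≤ M * S := by
  have h1 : ∑ y, ∑ x, f y x * a x ^ 4 ≤ M * S := by
    rw [sum_comm]
    calc ∑ x, ∑ y, f y x * a x ^ 4 = ∑ x, (∑ y, f y x) * a x ^ 4 :=
          sum_congr rfl fun x _ => (sum_mul _ _ _).symm
      _ ≤ ∑ x, M * a x ^ 4 := sum_le_sum fun x _ =>
          mul_le_mul_of_nonneg_right (hcol x) (by positivity)
      _ = M * ∑ x, a x ^ 4 := (mul_sum _ _ _).symm
      _ ≤ M * S := mul_le_mul_of_nonneg_left haS hM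
  have h2 : ∑ y, ∑ x, f y x * s y ^ 4 ≤ M * S := by
    calc ∑ y, ∑ x, f y x * s y ^ 4 = ∑ y, (∑ x, f y x) * s y ^ 4 :=
          sum_congr rfl fun x _ => (sum_mul _ _ _).symm
      _ ≤ ∑ y, M * s y ^ 4 := sum_le_sum fun y _ =>
          mul_le_mul_of_nonneg_right (hrow y) (by positivity)
      _ = M * ∑ y, s y ^ 4 := (mul_sum _ _ _).symm
      _ ≤ M * S := mul_le_mul_of_nonneg_left hsS hM
  have h3 : ∑ y, ∑ x, f y x * (a x ^ 2 * s y ^ 2) ≤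
      (1 / 2) * (∑ y, ∑ x, f y x * a x ^ 4) + (1 / 2) * ∑ y, ∑ x, f y x * s y ^ 4 := by
    rw [mul_sum, mul_sum, ← sum_add_distrib]
    refine sum_le_sum fun y _ => ?_
    rw [mul_sum, mul_sum, ← sum_add_distrib]
    refine sum_le_sum fun x _ => ?_
    have h4 : a x ^ 2 * s y ^ 2 ≤ 1 / 2 * a x ^ 4 + 1 / 2 * s y ^ 4 := by
      nlinarith [sq_nonneg (a x ^ 2 - s y ^ 2)]
    have h5 := mul_le_mul_of_nonneg_left h4 (hf y x)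
    linarith
  linarith

/-- the common part -/
theorem ph_core (h : PHyp q θ m μ τ S φ k a s) (B : X → X → ℝ) (hB : ∀ y x, 0 ≤ B y x) :
    ∑ y, ∑ x, k y x * (a x * s y) * (B y x) ^ (1 / 2 : ℝ) ≤
      m * S ^ (1 / 2 - θ) * (μ * τ) ^ θ * (∑ y, ∑ x, φ y x * B y x) ^ (1 / 2 : ℝ) := by
  have hq : 0 < 1 / q := by
    have := h.q0
    positivity
  have hq1 : 1 / q = 1 / 2 - θ := h.qth
  have hT : ∀ y x, 0 ≤ a x ^ 2 * s y ^ 2 := fun y x => by positivity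
  -- the first sum
  have hfn : ∀ y x, 0 ≤ (k y x / φ y x) ^ q := fun y x =>
    Real.rpow_nonneg (div_nonneg (h.k0 y x) (h.ph y x).1.le) _
  have h1 : ∑ y, ∑ x, (k y x / φ y x) ^ q * (a x ^ 2 * s y ^ 2) ≤ m ^ q * S :=
    pair_sum (fun y x => (k y x / φ y x) ^ q) a s (m ^ q) S hfn (Real.rpow_nonneg h.m0 _)
      h.row h.col h.aS h.sS
  have h2 : ∑ y, ∑ x, φ y x * (a x ^ 2 * s y ^ 2) ≤ μ * τ := by
    calc ∑ y, ∑ x, φ y x * (a x ^ 2 * s y ^ 2) = ∑ y, (∑ x, φ y x * a x ^ 2) * s y ^ 2 := by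
          refine sum_congr rfl fun y _ => ?_
          rw [sum_mul]
          exact sum_congr rfl fun x _ => by ring
      _ ≤ ∑ y, μ * s y ^ 2 := sum_le_sum fun y _ =>
          mul_le_mul_of_nonneg_right (h.am y) (by positivity)
      _ = μ * ∑ y, s y ^ 2 := (mul_sum _ _ _).symm
      _ ≤ μ * τ := mul_le_mul_of_nonneg_left h.st h.mu0
  -- pointwise
  have h3 : ∀ y x, k y x * (a x * s y) * (B y x) ^ (1 / 2 : ℝ) ≤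
      ((k y x / φ y x) ^ q * (a x ^ 2 * s y ^ 2)) ^ (1 / q) * (φ y x * B y x) ^ (1 / 2 : ℝ) *
        (φ y x * (a x ^ 2 * s y ^ 2)) ^ θ := by
    intro y x
    obtain ⟨hφ0, hφ1⟩ := h.ph y x
    have hk := h.k0 y x
    have hkφ : 0 ≤ k y x / φ y x := div_nonneg hk hφ0.le
    have e1 : ((k y x / φ y x) ^ q * (a x ^ 2 * s y ^ 2)) ^ (1 / q) =
        (k y x / φ y x) * (a x ^ 2 * s y ^ 2) ^ (1 / q) := by
      rw [Real.mul_rpow (hfn y x) (hT y x), ← Real.rpow_mul hkφ, mul_one_div_cancel h.q0.ne',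
        Real.rpow_one]
    have e2 : (φ y x * B y x) ^ (1 / 2 : ℝ) = φ y x ^ (1 / 2 : ℝ) * B y x ^ (1 / 2 : ℝ) :=
      Real.mul_rpow hφ0.le (hB y x)
    have e3 : (φ y x * (a x ^ 2 * s y ^ 2)) ^ θ = φ y x ^ θ * (a x ^ 2 * s y ^ 2) ^ θ :=
      Real.mul_rpow hφ0.le (hT y x)
    have e4 : (a x ^ 2 * s y ^ 2) ^ (1 / q) * (a x ^ 2 * s y ^ 2) ^ θ = a x * s y := by
      rw [← Real.rpow_add_of_nonneg (hT y x) hq.le h.th.le, hq1]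
      have : (1 / 2 - θ + θ : ℝ) = 1 / 2 := by ring
      rw [this, ← Real.sqrt_eq_rpow, ← mul_pow, Real.sqrt_sq (mul_nonneg (h.a0 x) (h.s0 y))]
    have e5 : φ y x ^ (1 / 2 : ℝ) * φ y x ^ θ = φ y x * φ y x ^ (θ - 1 / 2) := by
      have : φ y x * φ y x ^ (θ - 1 / 2) = φ y x ^ (1 : ℝ) * φ y x ^ (θ - 1 / 2) := by
        rw [Real.rpow_one]
      rw [this, ← Real.rpow_add hφ0, ← Real.rpow_add hφ0]
      congr 1
      ring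
    have e6 : 1 ≤ φ y x ^ (θ - 1 / 2) :=
      Real.one_le_rpow_of_pos_of_le_one_of_nonpos hφ0 hφ1 (by linarith [h.th2])
    rw [e1, e2, e3]
    have e7 : k y x / φ y x * (a x ^ 2 * s y ^ 2) ^ (1 / q) *
        (φ y x ^ (1 / 2 : ℝ) * B y x ^ (1 / 2 : ℝ)) * (φ y x ^ θ * (a x ^ 2 * s y ^ 2) ^ θ) =
        (k y x * (a x * s y) * B y x ^ (1 / 2 : ℝ)) * φ y x ^ (θ - 1 / 2) := by
      calc k y x / φ y x * (a x ^ 2 * s y ^ 2) ^ (1 / q) *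
          (φ y x ^ (1 / 2 : ℝ) * B y x ^ (1 / 2 : ℝ)) * (φ y x ^ θ * (a x ^ 2 * s y ^ 2) ^ θ)
          = k y x / φ y x * ((a x ^ 2 * s y ^ 2) ^ (1 / q) * (a x ^ 2 * s y ^ 2) ^ θ) *
            (φ y x ^ (1 / 2 : ℝ) * φ y x ^ θ) * B y x ^ (1 / 2 : ℝ) := by ring
        _ = k y x / φ y x * (a x * s y) * (φ y x * φ y x ^ (θ - 1 / 2)) *
            B y x ^ (1 / 2 : ℝ) := by rw [e4, e5]
        _ = (k y x * (a x * s y) * B y x ^ (1 / 2 : ℝ)) * φ y x ^ (θ - 1 / 2) := by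
          field_simp
    rw [e7]
    refine le_mul_of_one_le_right ?_ e6
    have := h.a0 x
    have := h.s0 y
    have := hB y x
    positivity
  have h4 : ∑ y, ∑ x, k y x * (a x * s y) * (B y x) ^ (1 / 2 : ℝ) ≤
      (∑ y, ∑ x, (k y x / φ y x) ^ q * (a x ^ 2 * s y ^ 2)) ^ (1 / q) *
        (∑ y, ∑ x, φ y x * B y x) ^ (1 / 2 : ℝ) *
        (∑ y, ∑ x, φ y x * (a x ^ 2 * s y ^ 2)) ^ θ := by
    have h5 := hol3 (univ : Finset (X × X))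
      (fun p => (k p.1 p.2 / φ p.1 p.2) ^ q * (a p.2 ^ 2 * s p.1 ^ 2))
      (fun p => φ p.1 p.2 * B p.1 p.2) (fun p => φ p.1 p.2 * (a p.2 ^ 2 * s p.1 ^ 2))
      (fun p => mul_nonneg (hfn _ _) (hT _ _))
      (fun p => mul_nonneg (h.ph _ _).1.le (hB _ _))
      (fun p => mul_nonneg (h.ph _ _).1.le (hT _ _)) hq (by norm_num : (0 : ℝ) < 1 / 2) h.th
      (by rw [hq1]; ring)
    simp only [Fintype.sum_prod_type] at h5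
    exact (sum_le_sum fun y _ => sum_le_sum fun x _ => h3 y x).trans h5
  refine h4.trans ?_
  have h6 : 0 ≤ ∑ y, ∑ x, (k y x / φ y x) ^ q * (a x ^ 2 * s y ^ 2) :=
    sum_nonneg fun y _ => sum_nonneg fun x _ => mul_nonneg (hfn _ _) (hT _ _)
  have h7 : 0 ≤ ∑ y, ∑ x, φ y x * (a x ^ 2 * s y ^ 2) :=
    sum_nonneg fun y _ => sum_nonneg fun x _ => mul_nonneg (h.ph _ _).1.le (hT _ _)
  have h8 : 0 ≤ ∑ y, ∑ x, φ y x * B y x :=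
    sum_nonneg fun y _ => sum_nonneg fun x _ => mul_nonneg (h.ph _ _).1.le (hB _ _)
  have h9 : (∑ y, ∑ x, (k y x / φ y x) ^ q * (a x ^ 2 * s y ^ 2)) ^ (1 / q) ≤
      m * S ^ (1 / 2 - θ) := by
    calc (∑ y, ∑ x, (k y x / φ y x) ^ q * (a x ^ 2 * s y ^ 2)) ^ (1 / q)
        ≤ (m ^ q * S) ^ (1 / q) := Real.rpow_le_rpow h6 h1 hq.le
      _ = m * S ^ (1 / 2 - θ) := by
        rw [Real.mul_rpow (Real.rpow_nonneg h.m0 _) h.S0, ← Real.rpow_mul h.m0,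
          mul_one_div_cancel h.q0.ne', Real.rpow_one, hq1]
  have h10 : (∑ y, ∑ x, φ y x * (a x ^ 2 * s y ^ 2)) ^ θ ≤ (μ * τ) ^ θ :=
    Real.rpow_le_rpow h7 h2 h.th.le
  have hmS : 0 ≤ m * S ^ (1 / 2 - θ) := mul_nonneg h.m0 (Real.rpow_nonneg h.S0 _)
  calc (∑ y, ∑ x, (k y x / φ y x) ^ q * (a x ^ 2 * s y ^ 2)) ^ (1 / q) *
        (∑ y, ∑ x, φ y x * B y x) ^ (1 / 2 : ℝ) *
        (∑ y, ∑ x, φ y x * (a x ^ 2 * s y ^ 2)) ^ θ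
      ≤ (m * S ^ (1 / 2 - θ)) * (∑ y, ∑ x, φ y x * B y x) ^ (1 / 2 : ℝ) * (μ * τ) ^ θ := by
        gcongr
    _ = m * S ^ (1 / 2 - θ) * (μ * τ) ^ θ * (∑ y, ∑ x, φ y x * B y x) ^ (1 / 2 : ℝ) := by ring

theorem ph_a (h : PHyp q θ m μ τ S φ k a s) {g : X → X → ℝ} (hg : ∀ x y, 0 ≤ g x y)
    (hg1 : ∀ y, ∑ x, φ y x * g y x ^ 2 ≤ μ) (hg2 : ∀ x, ∑ y, φ y x * g y x ^ 2 ≤ μ) :
    ∑ y, ∑ x, k y x * g y x * a x ^ 2 * s y ^ 2 ≤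
      m * μ ^ (1 / 2 : ℝ) * (μ * τ) ^ θ * S ^ (1 - θ) := by
  have h1 := ph_core h (fun y x => g y x ^ 2 * (a x ^ 2 * s y ^ 2)) fun y x => by positivity
  have h2 : ∑ y, ∑ x, φ y x * (g y x ^ 2 * (a x ^ 2 * s y ^ 2)) ≤ μ * S := by
    have := pair_sum (fun y x => φ y x * g y x ^ 2) a s μ S
      (fun y x => mul_nonneg (h.ph y x).1.le (by positivity)) h.mu0 hg1 hg2 h.aS h.sS
    refine le_trans (le_of_eq ?_) this
    exact sum_congr rfl fun y _ => sum_congr rfl fun x _ => by ring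
  have h3 : ∑ y, ∑ x, k y x * g y x * a x ^ 2 * s y ^ 2 =
      ∑ y, ∑ x, k y x * (a x * s y) * (g y x ^ 2 * (a x ^ 2 * s y ^ 2)) ^ (1 / 2 : ℝ) := by
    refine sum_congr rfl fun y _ => sum_congr rfl fun x _ => ?_
    have : g y x ^ 2 * (a x ^ 2 * s y ^ 2) = (g y x * (a x * s y)) ^ 2 := by ring
    rw [this, ← Real.sqrt_eq_rpow, Real.sqrt_sq (mul_nonneg (hg y x)
      (mul_nonneg (h.a0 x) (h.s0 y)))]
    ring
  rw [h3]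
  refine h1.trans ?_
  have h4 : 0 ≤ ∑ y, ∑ x, φ y x * (g y x ^ 2 * (a x ^ 2 * s y ^ 2)) :=
    sum_nonneg fun y _ => sum_nonneg fun x _ => mul_nonneg (h.ph _ _).1.le (by positivity)
  have h5 : (∑ y, ∑ x, φ y x * (g y x ^ 2 * (a x ^ 2 * s y ^ 2))) ^ (1 / 2 : ℝ) ≤
      μ ^ (1 / 2 : ℝ) * S ^ (1 / 2 : ℝ) := by
    rw [← Real.mul_rpow h.mu0 h.S0]
    exact Real.rpow_le_rpow h4 h2 (by norm_num)
  have h6 : S ^ (1 / 2 - θ) * S ^ (1 / 2 : ℝ) = S ^ (1 - θ) := by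
    rw [← Real.rpow_add_of_nonneg h.S0 (by linarith [h.th2]) (by norm_num)]
    congr 1
    ring
  have h7 : 0 ≤ m * S ^ (1 / 2 - θ) * (μ * τ) ^ θ :=
    mul_nonneg (mul_nonneg h.m0 (Real.rpow_nonneg h.S0 _))
      (Real.rpow_nonneg (mul_nonneg h.mu0 h.tau0) _)
  calc m * S ^ (1 / 2 - θ) * (μ * τ) ^ θ *
        (∑ y, ∑ x, φ y x * (g y x ^ 2 * (a x ^ 2 * s y ^ 2))) ^ (1 / 2 : ℝ)
      ≤ m * S ^ (1 / 2 - θ) * (μ * τ) ^ θ * (μ ^ (1 / 2 : ℝ) * S ^ (1 / 2 : ℝ)) :=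
        mul_le_mul_of_nonneg_left h5 h7
    _ = m * μ ^ (1 / 2 : ℝ) * (μ * τ) ^ θ * (S ^ (1 / 2 - θ) * S ^ (1 / 2 : ℝ)) := by ring
    _ = m * μ ^ (1 / 2 : ℝ) * (μ * τ) ^ θ * S ^ (1 - θ) := by rw [h6]

theorem ph_b (h : PHyp q θ m μ τ S φ k a s) :
    ∑ y, ∑ x, k y x * a x ^ 2 * s y ^ 3 ≤
      m * μ ^ (1 / 2 : ℝ) * (μ * τ) ^ θ * S ^ (1 / 2 - θ) * (∑ y, s y ^ 4) ^ (1 / 2 : ℝ) := by
  have h1 := ph_core h (fun y x => a x ^ 2 * s y ^ 4) fun y x => by positivity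
  have h2 : ∑ y, ∑ x, φ y x * (a x ^ 2 * s y ^ 4) ≤ μ * ∑ y, s y ^ 4 := by
    calc ∑ y, ∑ x, φ y x * (a x ^ 2 * s y ^ 4) = ∑ y, (∑ x, φ y x * a x ^ 2) * s y ^ 4 := by
          refine sum_congr rfl fun y _ => ?_
          rw [sum_mul]
          exact sum_congr rfl fun x _ => by ring
      _ ≤ ∑ y, μ * s y ^ 4 := sum_le_sum fun y _ =>
          mul_le_mul_of_nonneg_right (h.am y) (by positivity)
      _ = μ * ∑ y, s y ^ 4 := (mul_sum _ _ _).symm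
  have h3 : ∑ y, ∑ x, k y x * a x ^ 2 * s y ^ 3 =
      ∑ y, ∑ x, k y x * (a x * s y) * (a x ^ 2 * s y ^ 4) ^ (1 / 2 : ℝ) := by
    refine sum_congr rfl fun y _ => sum_congr rfl fun x _ => ?_
    have : a x ^ 2 * s y ^ 4 = (a x * s y ^ 2) ^ 2 := by ring
    rw [this, ← Real.sqrt_eq_rpow, Real.sqrt_sq (mul_nonneg (h.a0 x) (by positivity))]
    ring
  rw [h3]
  refine h1.trans ?_
  have h4 : 0 ≤ ∑ y, ∑ x, φ y x * (a x ^ 2 * s y ^ 4) :=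
    sum_nonneg fun y _ => sum_nonneg fun x _ => mul_nonneg (h.ph _ _).1.le (by positivity)
  have hs4 : 0 ≤ ∑ y, s y ^ 4 := sum_nonneg fun y _ => by positivity
  have h5 : (∑ y, ∑ x, φ y x * (a x ^ 2 * s y ^ 4)) ^ (1 / 2 : ℝ) ≤
      μ ^ (1 / 2 : ℝ) * (∑ y, s y ^ 4) ^ (1 / 2 : ℝ) := by
    rw [← Real.mul_rpow h.mu0 hs4]
    exact Real.rpow_le_rpow h4 h2 (by norm_num)
  have h7 : 0 ≤ m * S ^ (1 / 2 - θ) * (μ * τ) ^ θ :=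
    mul_nonneg (mul_nonneg h.m0 (Real.rpow_nonneg h.S0 _))
      (Real.rpow_nonneg (mul_nonneg h.mu0 h.tau0) _)
  calc m * S ^ (1 / 2 - θ) * (μ * τ) ^ θ *
        (∑ y, ∑ x, φ y x * (a x ^ 2 * s y ^ 4)) ^ (1 / 2 : ℝ)
      ≤ m * S ^ (1 / 2 - θ) * (μ * τ) ^ θ *
        (μ ^ (1 / 2 : ℝ) * (∑ y, s y ^ 4) ^ (1 / 2 : ℝ)) :=
        mul_le_mul_of_nonneg_left h5 h7
    _ = m * μ ^ (1 / 2 : ℝ) * (μ * τ) ^ θ * S ^ (1 / 2 - θ) * (∑ y, s y ^ 4) ^ (1 / 2 : ℝ) := by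
        ring

theorem ph_c (h : PHyp q θ m μ τ S φ k a s) {D : X → ℝ} {Dl : ℝ} (hD : ∀ x, 0 ≤ D x)
    (hDl0 : 0 ≤ Dl) (hDl : ∀ y, ∑ x, φ y x * D x ^ 2 ≤ Dl ^ 2) :
    ∑ y, ∑ x, k y x * a x * s y ^ 3 * D x ≤
      m * (μ * τ) ^ θ * Dl * S ^ (1 / 2 - θ) * (∑ y, s y ^ 4) ^ (1 / 2 : ℝ) := by
  have h1 := ph_core h (fun y x => D x ^ 2 * s y ^ 4) fun y x => by positivity
  have h2 : ∑ y, ∑ x, φ y x * (D x ^ 2 * s y ^ 4) ≤ Dl ^ 2 * ∑ y, s y ^ 4 := by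
    calc ∑ y, ∑ x, φ y x * (D x ^ 2 * s y ^ 4) = ∑ y, (∑ x, φ y x * D x ^ 2) * s y ^ 4 := by
          refine sum_congr rfl fun y _ => ?_
          rw [sum_mul]
          exact sum_congr rfl fun x _ => by ring
      _ ≤ ∑ y, Dl ^ 2 * s y ^ 4 := sum_le_sum fun y _ =>
          mul_le_mul_of_nonneg_right (hDl y) (by positivity)
      _ = Dl ^ 2 * ∑ y, s y ^ 4 := (mul_sum _ _ _).symm
  have h3 : ∑ y, ∑ x, k y x * a x * s y ^ 3 * D x =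
      ∑ y, ∑ x, k y x * (a x * s y) * (D x ^ 2 * s y ^ 4) ^ (1 / 2 : ℝ) := by
    refine sum_congr rfl fun y _ => sum_congr rfl fun x _ => ?_
    have : D x ^ 2 * s y ^ 4 = (D x * s y ^ 2) ^ 2 := by ring
    rw [this, ← Real.sqrt_eq_rpow, Real.sqrt_sq (mul_nonneg (hD x) (by positivity))]
    ring
  rw [h3]
  refine h1.trans ?_
  have h4 : 0 ≤ ∑ y, ∑ x, φ y x * (D x ^ 2 * s y ^ 4) :=
    sum_nonneg fun y _ => sum_nonneg fun x _ => mul_nonneg (h.ph _ _).1.le (by positivity)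
  have hs4 : 0 ≤ ∑ y, s y ^ 4 := sum_nonneg fun y _ => by positivity
  have h5 : (∑ y, ∑ x, φ y x * (D x ^ 2 * s y ^ 4)) ^ (1 / 2 : ℝ) ≤
      Dl * (∑ y, s y ^ 4) ^ (1 / 2 : ℝ) := by
    have e1 : Dl = (Dl ^ 2) ^ (1 / 2 : ℝ) := by
      rw [← Real.sqrt_eq_rpow, Real.sqrt_sq hDl0]
    calc (∑ y, ∑ x, φ y x * (D x ^ 2 * s y ^ 4)) ^ (1 / 2 : ℝ)
        ≤ (Dl ^ 2 * ∑ y, s y ^ 4) ^ (1 / 2 : ℝ) := Real.rpow_le_rpow h4 h2 (by norm_num)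
      _ = (Dl ^ 2) ^ (1 / 2 : ℝ) * (∑ y, s y ^ 4) ^ (1 / 2 : ℝ) :=
          Real.mul_rpow (by positivity) hs4
      _ = Dl * (∑ y, s y ^ 4) ^ (1 / 2 : ℝ) := by rw [← e1]
  have h7 : 0 ≤ m * S ^ (1 / 2 - θ) * (μ * τ) ^ θ :=
    mul_nonneg (mul_nonneg h.m0 (Real.rpow_nonneg h.S0 _))
      (Real.rpow_nonneg (mul_nonneg h.mu0 h.tau0) _)
  calc m * S ^ (1 / 2 - θ) * (μ * τ) ^ θ *
        (∑ y, ∑ x, φ y x * (D x ^ 2 * s y ^ 4)) ^ (1 / 2 : ℝ)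
      ≤ m * S ^ (1 / 2 - θ) * (μ * τ) ^ θ * (Dl * (∑ y, s y ^ 4) ^ (1 / 2 : ℝ)) :=
        mul_le_mul_of_nonneg_left h5 h7
    _ = m * (μ * τ) ^ θ * Dl * S ^ (1 / 2 - θ) * (∑ y, s y ^ 4) ^ (1 / 2 : ℝ) := by
        ring

end Pool.Agent.BK3
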