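import Pool.Agent.BK3.WD
import Pool.Agent.BK3.PH

/-! BK3: data of the core inequality S1. -/

open MeasureTheory Finset Matrix Pool.Agent.BK

noncomputable section

namespace Pool.Agent.BK3

/-- Numerical and deterministic data of the core inequality; `M = (H - ζ)⁻¹`. -/
structure S1D {X : Type} [Fintype X] [DecidableEq X] (H : Matrix X X ℂ) (R s2 lam : ℝ) (z g ζ : ℂ)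
    (φ : X → X → ℝ) (q θ m m2 B b2 μ Gd Dl ω : ℝ) : Prop where
  hH : RS H
  hR : 1 ≤ R
  hs : 0 < s2
  lam0 : 0 < lam
  lam1 : lam ≤ 1
  hz : 0 < z.im
  hζ : ζ = z + (lam ^ 2 * s2 : ℝ) * g
  hζ0 : 0 < ζ.im
  hζz : z.im ≤ ζ.im
  hg : lam * ‖g‖ ≤ 1
  w : Wgt φ
  th : 0 < θ
  th' : θ ≤ 1 / 4
  q0 : 0 < q
  qth : 1 / q = 1 / 2 - θ
  m0 : 0 ≤ m
  m20 : 0 ≤ m2
  hB : 1 ≤ B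
  hb2 : 0 ≤ b2
  hμ : 0 ≤ μ
  hGd : 0 ≤ Gd
  hDl : 0 ≤ Dl
  sm : 4 * R * lam * Gd ≤ 1
  hω0 : 0 < ω
  hω : 256 * R ^ 4 * lam ^ 4 * B ^ 2 ≤ ω
  mq : ∀ y, ∑ x, (‖Gr H 0 ζ y x‖ / φ y x) ^ q ≤ m ^ q
  m2w : ∀ y, ∑ x, (‖Gr H 0 ζ y x‖ / φ y x) ^ 2 ≤ m2 ^ 2
  m4 : ∀ y, ∑ x, ‖Gr H 0 ζ y x‖ ^ 4 ≤ B
  md : ∀ x, ‖Gr H 0 ζ x x‖ ≤ Gd

/-- The gain of the `c`-term. -/
def Ga0 (z ζ g : ℂ) (lam m2 b2 μ Gd ω : ℝ) : ℝ :=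
  ω ^ (-(1 / 4) : ℝ) * (lam ^ 2 * b2 + lam ^ 3 * Gd * (Gd + ‖g‖)) *
    (m2 * μ ^ (1 / 2 : ℝ) * (Gd / z.im) ^ (1 / 2 : ℝ) / ζ.im) ^ (1 / 2 : ℝ)

/-- The gain of the other terms. -/
def Ga1 (z : ℂ) (lam θ m m2 B μ Gd Dl ω : ℝ) : ℝ :=
  lam ^ 2 * m * μ ^ (1 / 2 : ℝ) * (μ * (Gd / z.im)) ^ θ *
      (B ^ (3 / 4 - θ) * ω ^ (-(3 / 4) : ℝ) + B ^ (1 - θ) / ω) +
    lam * m * (μ * (Gd / z.im)) ^ θ * Dl * B ^ (1 / 2 - θ) * ω ^ (-(1 / 2) : ℝ) +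
    lam ^ 4 * B ^ (3 / 2 : ℝ) * m2 * μ ^ (1 / 2 : ℝ) / ω

end Pool.Agent.BK3
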