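import Pool.Agent.BK3.MeanG
import Pool.Agent.BK3.S1Defs

/-! BK3 module GaB: the gain of the core inequality is `≤ lam^(e/6)`. Pure power counting, with
`z.im = η ≥ lam^A`, `Im ζ ≥ (κ s2/4) lam²`, `|g| ≤ lam^(-2t)` (`zfacts`, `meang`), `t = e/1000`, and
`B = lam^(-4y-t)`, `μ = lam^(-2-e/4-t)`, `Gd = lam^(-3t)`, `Dl = lam^(-e/8-e/50)`, `ω = lam^(-4y+e/4)`,
`bb = lam^(1-2y-e-t)`, `m = lam^(-t)`, `m2 = lam^(-1-t)`, `y = y0 + e`, `gain`: `1 - θ(2+A) + 4θ y0 ≥ 0`, `1/6 ≤ θ ≤ 1/4`: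
first term of `Ga1`: exponents `gain + 4θe - e/8 - 3e/16 - θe/4 - 5t ≥ 0.3e` and
`gain + 4θe - e/8 - e/4 - θe/4 - 5t ≥ 0.24e`;
second: `gain + 4θe - θe/4 - e/8 - e/8 - e/50 - 5t ≥ 0.34e`;
third: `4 - 6y - 1 - 1 + 4y - e/8 - e/4 - 4t ≥ 1 - e`;
`Ga0`: `y - e/16 + (3 - 2y - e - 6t) - (4 + A/2 + e/8 + 3t)/2 ≥ 1 - A/4 - y0 - 2.2e ≥ 50e - 2.2e` (from `room`, `A2`).
Constants are absorbed because every exponent is `> e/6`. -/

open MeasureTheory Finset Matrix Pool.Agent.BK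

noncomputable section

namespace Pool.Agent.BK3

variable {ν : Measure ℝ} {R s2 : ℝ}

private lemma gab_zim (c : Cx) {π : Par} {lam1 : ℝ} (h : π ∈ c.S ν lam1) (h1 : lam1 ≤ 1) :
    0 < π.lam ∧ π.lam ≤ 1 ∧ π.lam ^ c.A ≤ π.z.im :=
  ⟨h.1.1, h.1.2.1.trans h1, h.1.2.2.2.2.2.2.1⟩

/-- `Gd / z.im ≤ lam^(-3t-A)`. -/
private lemma gab_ge (c : Cx) {l η : ℝ} (hl : 0 < l) (h : l ^ c.A ≤ η) :
    c.Gd l / η ≤ l ^ (-(3 * c.t) - c.A) := by
  have h0 : 0 < l ^ c.A := rp_pos hl _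
  unfold Cx.Gd
  rw [Real.rpow_sub hl]
  exact div_le_div_of_nonneg_left (rp_pos hl _).le h0 h

theorem gab0 (hν : BLaw ν R s2) (c : Cx) (hc : c.Ok) :
    ∃ lam1 : ℝ, 0 < lam1 ∧ lam1 ≤ 1 ∧ ∀ π ∈ c.S ν lam1,
      Ga0 π.z (zt ν s2 c.d π) (gb ν c.d π) π.lam (π.lam ^ (-1 - c.t)) (c.bb π.lam) (c.mu π.lam)
        (c.Gd π.lam) (c.om π.lam) ≤ π.lam ^ (c.e / 6) / 2 := by
  obtain ⟨la, ha0, ha1, ha⟩ := zfacts hν c hc
  obtain ⟨lb, hb0, hb1, hb⟩ := meang hν c hc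
  have he := hc.e0
  have hroom := hc.room
  have hA := hc.A2
  have hκ : 0 < c.κ := hc.free.kap
  have hs := hν.s2_pos
  have hκs : 0 < c.κ * s2 / 4 := by positivity
  set K : ℝ := c.κ * s2 / 4 with hK
  obtain ⟨lc, hc0, hc1, hcc⟩ := sm_le (2 * (3 * (1 / K) ^ (1 / 2 : ℝ)))
    (show c.e / 6 < c.e by linarith)
  refine ⟨min la (min lb lc), lt_min ha0 (lt_min hb0 hc0),
    (min_le_left _ _).trans ha1, fun π hπ => ?_⟩
  have z := ha π (c.S_mono ν (min_le_left _ _) hπ)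
  have m := hb π (c.S_mono ν ((min_le_right _ _).trans (min_le_left _ _)) hπ)
  have hle : π.lam ≤ lc := hπ.1.2.1.trans ((min_le_right _ _).trans (min_le_right _ _))
  obtain ⟨hl, hl1, hη⟩ := gab_zim c hπ ((min_le_left _ _).trans ha1)
  have hfin := hcc π.lam hl hle
  have hg := m.2.2
  have hζ := z.im_lo
  rw [← hK] at hζ
  have hη0 : 0 < π.z.im := lt_of_lt_of_le (rp_pos hl _) hη
  have hGe := gab_ge c hl hη
  set l := π.lam with hldef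
  set η := π.z.im
  have hζ0 : 0 < K * l ^ 2 := by positivity
  have hζ1 : 0 < (zt ν s2 c.d π).im := lt_of_lt_of_le hζ0 hζ
  set ζi := (zt ν s2 c.d π).im
  set g := gb ν c.d π
  have ht : c.t = c.e / 1000 := rfl
  unfold Ga0
  have e1 : c.om l ^ (-(1 / 4) : ℝ) = l ^ (c.y - c.e / 16) := by
    unfold Cx.om
    rw [← Real.rpow_mul hl.le]
    congr 1
    ring
  have e2 : l ^ 2 * c.bb l + l ^ 3 * c.Gd l * (c.Gd l + ‖g‖) ≤
      3 * l ^ (3 - 2 * c.y - c.e - 6 * c.t) := by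
    have f1 : l ^ 2 * c.bb l = l ^ (3 - 2 * c.y - c.e - c.t) := by
      unfold Cx.bb
      rw [← Real.rpow_natCast l 2, ← Real.rpow_add hl]
      congr 1
      push_cast
      ring
    have f2 : l ^ 3 * c.Gd l * (c.Gd l + ‖g‖) ≤ 2 * l ^ (3 - 6 * c.t) := by
      have f3 : c.Gd l + ‖g‖ ≤ 2 * l ^ (-(3 * c.t)) := by
        have f4 : l ^ (-(2 * c.t)) ≤ l ^ (-(3 * c.t)) := rp_anti hl hl1 (by rw [ht]; linarith)
        have f5 : c.Gd l = l ^ (-(3 * c.t)) := rfl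
        rw [f5]
        linarith
      have f6 : 0 ≤ l ^ 3 * c.Gd l := mul_nonneg (by positivity) (rp_pos hl _).le
      refine (mul_le_mul_of_nonneg_left f3 f6).trans (le_of_eq ?_)
      have f5 : c.Gd l = l ^ (-(3 * c.t)) := rfl
      rw [f5]
      have f7 : l ^ (3 - 6 * c.t) = l ^ 3 * l ^ (-(3 * c.t)) * l ^ (-(3 * c.t)) := by
        rw [← Real.rpow_natCast l 3, ← Real.rpow_add hl, ← Real.rpow_add hl]
        congr 1
        push_cast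
        ring
      rw [f7]
      ring
    have hy : c.y = c.y0 + c.e := rfl
    have hy0 := hc.y0
    have f8 : l ^ (3 - 2 * c.y - c.e - c.t) ≤ l ^ (3 - 2 * c.y - c.e - 6 * c.t) :=
      rp_anti hl hl1 (by rw [ht]; linarith)
    have f9 : l ^ (3 - 6 * c.t) ≤ l ^ (3 - 2 * c.y - c.e - 6 * c.t) :=
      rp_anti hl hl1 (by rw [hy]; linarith)
    rw [f1]
    linarith
  have e3 : (l ^ (-1 - c.t) * c.mu l ^ (1 / 2 : ℝ) * (c.Gd l / η) ^ (1 / 2 : ℝ) / ζi) ^ (1 / 2 : ℝ) ≤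
      (1 / K) ^ (1 / 2 : ℝ) * l ^ (-(2 + c.A / 4 + c.e / 16 + 3 * c.t / 2)) := by
    have f1 : c.mu l ^ (1 / 2 : ℝ) = l ^ (-1 - c.e / 8 - c.t / 2) := by
      unfold Cx.mu
      rw [← Real.rpow_mul hl.le]
      congr 1
      ring
    have f2 : (c.Gd l / η) ^ (1 / 2 : ℝ) ≤ l ^ ((-(3 * c.t) - c.A) * (1 / 2)) := by
      rw [Real.rpow_mul hl.le]
      exact Real.rpow_le_rpow (div_nonneg (rp_pos hl _).le hη0.le) hGe (by norm_num)
    have f3 : l ^ (-1 - c.t) * c.mu l ^ (1 / 2 : ℝ) * (c.Gd l / η) ^ (1 / 2 : ℝ) / ζi ≤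
        1 / K * l ^ (-(4 + c.A / 2 + c.e / 8 + 3 * c.t)) := by
      have g1 : l ^ (-1 - c.t) * c.mu l ^ (1 / 2 : ℝ) * (c.Gd l / η) ^ (1 / 2 : ℝ) ≤
          l ^ (-1 - c.t) * l ^ (-1 - c.e / 8 - c.t / 2) * l ^ ((-(3 * c.t) - c.A) * (1 / 2)) := by
        rw [f1]
        exact mul_le_mul_of_nonneg_left f2 (mul_nonneg (rp_pos hl _).le (rp_pos hl _).le)
      have g2 : (0 : ℝ) ≤ l ^ (-1 - c.t) * l ^ (-1 - c.e / 8 - c.t / 2) *
          l ^ ((-(3 * c.t) - c.A) * (1 / 2)) :=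
        mul_nonneg (mul_nonneg (rp_pos hl _).le (rp_pos hl _).le) (rp_pos hl _).le
      refine (div_le_div₀ g2 g1 hζ0 hζ).trans (le_of_eq ?_)
      rw [← Real.rpow_add hl, ← Real.rpow_add hl, div_eq_mul_inv, mul_inv, ← Real.rpow_natCast l 2,
        ← Real.rpow_neg hl.le, one_div K]
      have g3 : ∀ a b k : ℝ, l ^ a * (k * l ^ b) = k * l ^ (a + b) := fun a b k => by
        rw [Real.rpow_add hl]; ring
      rw [g3]
      congr 2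
      push_cast
      ring
    have f4 : 0 ≤ l ^ (-1 - c.t) * c.mu l ^ (1 / 2 : ℝ) * (c.Gd l / η) ^ (1 / 2 : ℝ) / ζi := by
      have := rp_pos hl (-1 - c.t)
      have h2 : 0 ≤ c.mu l ^ (1 / 2 : ℝ) := Real.rpow_nonneg (rp_pos hl _).le _
      have h3 : 0 ≤ (c.Gd l / η) ^ (1 / 2 : ℝ) :=
        Real.rpow_nonneg (div_nonneg (rp_pos hl _).le hη0.le) _
      positivity
    refine (Real.rpow_le_rpow f4 f3 (by norm_num)).trans (le_of_eq ?_)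
    rw [Real.mul_rpow (by positivity) (rp_pos hl _).le, ← Real.rpow_mul hl.le]
    congr 2
    ring
  rw [e1]
  have h0 : 0 ≤ l ^ (c.y - c.e / 16) := (rp_pos hl _).le
  have h1 : (0 : ℝ) ≤ (l ^ (-1 - c.t) * c.mu l ^ (1 / 2 : ℝ) * (c.Gd l / η) ^ (1 / 2 : ℝ) / ζi) ^
      (1 / 2 : ℝ) := by
    apply Real.rpow_nonneg
    have := rp_pos hl (-1 - c.t)
    have h2 : 0 ≤ c.mu l ^ (1 / 2 : ℝ) := Real.rpow_nonneg (rp_pos hl _).le _
    have h3 : 0 ≤ (c.Gd l / η) ^ (1 / 2 : ℝ) :=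
      Real.rpow_nonneg (div_nonneg (rp_pos hl _).le hη0.le) _
    positivity
  have h2 : 0 ≤ 3 * l ^ (3 - 2 * c.y - c.e - 6 * c.t) := by
    have := rp_pos hl (3 - 2 * c.y - c.e - 6 * c.t)
    positivity
  refine (mul_le_mul (mul_le_mul_of_nonneg_left e2 h0) e3 h1 (mul_nonneg h0 h2)).trans ?_
  have h3 : l ^ (c.y - c.e / 16) * (3 * l ^ (3 - 2 * c.y - c.e - 6 * c.t)) *
      ((1 / K) ^ (1 / 2 : ℝ) * l ^ (-(2 + c.A / 4 + c.e / 16 + 3 * c.t / 2))) =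
      3 * (1 / K) ^ (1 / 2 : ℝ) * l ^ ((c.y - c.e / 16) + (3 - 2 * c.y - c.e - 6 * c.t) +
        (-(2 + c.A / 4 + c.e / 16 + 3 * c.t / 2))) := by
    rw [Real.rpow_add hl, Real.rpow_add hl]
    ring
  rw [h3]
  have h4 : l ^ ((c.y - c.e / 16) + (3 - 2 * c.y - c.e - 6 * c.t) +
        (-(2 + c.A / 4 + c.e / 16 + 3 * c.t / 2))) ≤ l ^ c.e := by
    refine rp_anti hl hl1 ?_
    have hy : c.y = c.y0 + c.e := rfl
    rw [hy, ht]
    linarith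
  have h5 : 0 ≤ 3 * (1 / K) ^ (1 / 2 : ℝ) := by positivity
  have h6 := mul_le_mul_of_nonneg_left h4 h5
  linarith

theorem gab1 (hν : BLaw ν R s2) (c : Cx) (hc : c.Ok) :
    ∃ lam1 : ℝ, 0 < lam1 ∧ lam1 ≤ 1 ∧ ∀ π ∈ c.S ν lam1,
      Ga1 π.z π.lam c.θ (π.lam ^ (-c.t)) (π.lam ^ (-1 - c.t)) (c.B π.lam) (c.mu π.lam) (c.Gd π.lam)
        (c.dl π.lam) (c.om π.lam) ≤ π.lam ^ (c.e / 6) / 2 := by
  have he := hc.e0
  have hroom := hc.room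
  have hA := hc.A2
  have hth := hc.th
  have hth' := hc.th'
  have hgain := hc.gain
  have hy0 := hc.y0
  obtain ⟨lc, hc0, hc1, hcc⟩ := sm_le (2 * 4) (show c.e / 6 < c.e * (6 / 25) by linarith)
  refine ⟨lc, hc0, hc1, fun π hπ => ?_⟩
  obtain ⟨hl, hl1, hη⟩ := gab_zim c hπ hc1
  have hfin := hcc π.lam hl hπ.1.2.1
  have hη0 : 0 < π.z.im := lt_of_lt_of_le (rp_pos hl _) hη
  have hGe := gab_ge c hl hη
  set l := π.lam with hldef
  set η := π.z.im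
  have ht : c.t = c.e / 1000 := rfl
  have hy : c.y = c.y0 + c.e := rfl
  have hθe : c.e / 6 ≤ c.θ * c.e := by nlinarith
  have hθe' : c.θ * c.e ≤ c.e / 4 := by nlinarith
  unfold Ga1
  have k1 : (c.mu l * (c.Gd l / η)) ^ c.θ ≤ l ^ (-(c.θ * (2 + c.A + c.e / 4 + 4 * c.t))) := by
    have f1 : c.mu l * (c.Gd l / η) ≤ l ^ (-(2 + c.A + c.e / 4 + 4 * c.t)) := by
      refine (mul_le_mul_of_nonneg_left hGe (rp_pos hl _).le).trans (le_of_eq ?_)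
      rw [← Real.rpow_add hl]
      congr 1
      ring
    refine (Real.rpow_le_rpow (mul_nonneg (rp_pos hl _).le
      (div_nonneg (rp_pos hl _).le hη0.le)) f1 (by linarith)).trans (le_of_eq ?_)
    rw [← Real.rpow_mul hl.le]
    congr 1
    ring
  have k0 : 0 ≤ (c.mu l * (c.Gd l / η)) ^ c.θ :=
    Real.rpow_nonneg (mul_nonneg (rp_pos hl _).le (div_nonneg (rp_pos hl _).le hη0.le)) _
  have m1 : c.mu l ^ (1 / 2 : ℝ) = l ^ (-1 - c.e / 8 - c.t / 2) := by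
    unfold Cx.mu
    rw [← Real.rpow_mul hl.le]
    congr 1
    ring
  have b1 : c.B l ^ (3 / 4 - c.θ) * c.om l ^ (-(3 / 4) : ℝ) =
      l ^ (4 * c.θ * c.y - 3 * c.e / 16 - c.t * (3 / 4 - c.θ)) := by
    unfold Cx.B Cx.om
    rw [← Real.rpow_mul hl.le, ← Real.rpow_mul hl.le, ← Real.rpow_add hl]
    congr 1
    ring
  have b2 : c.B l ^ (1 - c.θ) / c.om l = l ^ (4 * c.θ * c.y - c.e / 4 - c.t * (1 - c.θ)) := by
    unfold Cx.B Cx.om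
    rw [← Real.rpow_mul hl.le, ← Real.rpow_sub hl]
    congr 1
    ring
  have b3 : c.B l ^ (1 / 2 - c.θ) = l ^ (-(2 * c.y) + 4 * c.θ * c.y - c.t * (1 / 2 - c.θ)) := by
    unfold Cx.B
    rw [← Real.rpow_mul hl.le]
    congr 1
    ring
  have b4 : c.om l ^ (-(1 / 2) : ℝ) = l ^ (2 * c.y - c.e / 8) := by
    unfold Cx.om
    rw [← Real.rpow_mul hl.le]
    congr 1
    ring
  have b5 : c.B l ^ (3 / 2 : ℝ) = l ^ (-(6 * c.y) - 3 * c.t / 2) := by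
    unfold Cx.B
    rw [← Real.rpow_mul hl.le]
    congr 1
    ring
  have T1 : l ^ 2 * l ^ (-c.t) * c.mu l ^ (1 / 2 : ℝ) * (c.mu l * (c.Gd l / η)) ^ c.θ *
      (c.B l ^ (3 / 4 - c.θ) * c.om l ^ (-(3 / 4) : ℝ) + c.B l ^ (1 - c.θ) / c.om l) ≤
      2 * l ^ (c.e * (6 / 25)) := by
    rw [m1, b1, b2]
    have h0 : 0 ≤ l ^ 2 * l ^ (-c.t) * l ^ (-1 - c.e / 8 - c.t / 2) :=
      mul_nonneg (mul_nonneg (by positivity) (rp_pos hl _).le) (rp_pos hl _).le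
    have h1 : 0 ≤ l ^ (4 * c.θ * c.y - 3 * c.e / 16 - c.t * (3 / 4 - c.θ)) +
        l ^ (4 * c.θ * c.y - c.e / 4 - c.t * (1 - c.θ)) :=
      add_nonneg (rp_pos hl _).le (rp_pos hl _).le
    refine (mul_le_mul_of_nonneg_right (mul_le_mul_of_nonneg_left k1 h0) h1).trans ?_
    rw [mul_add, ← Real.rpow_natCast l 2]
    simp only [← Real.rpow_add hl]
    have i1 : l ^ (((2 : ℕ) : ℝ) + -c.t + (-1 - c.e / 8 - c.t / 2) +
        -(c.θ * (2 + c.A + c.e / 4 + 4 * c.t)) +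
        (4 * c.θ * c.y - 3 * c.e / 16 - c.t * (3 / 4 - c.θ))) ≤ l ^ (c.e * (6 / 25)) := by
      refine rp_anti hl hl1 ?_
      push_cast
      rw [hy, ht]
      nlinarith
    have i2 : l ^ (((2 : ℕ) : ℝ) + -c.t + (-1 - c.e / 8 - c.t / 2) +
        -(c.θ * (2 + c.A + c.e / 4 + 4 * c.t)) +
        (4 * c.θ * c.y - c.e / 4 - c.t * (1 - c.θ))) ≤ l ^ (c.e * (6 / 25)) := by
      refine rp_anti hl hl1 ?_
      push_cast
      rw [hy, ht]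
      nlinarith
    linarith
  have T2 : l * l ^ (-c.t) * (c.mu l * (c.Gd l / η)) ^ c.θ * c.dl l * c.B l ^ (1 / 2 - c.θ) *
      c.om l ^ (-(1 / 2) : ℝ) ≤ l ^ (c.e * (6 / 25)) := by
    rw [b3, b4]
    have h0 : 0 ≤ l * l ^ (-c.t) := mul_nonneg hl.le (rp_pos hl _).le
    refine (mul_le_mul_of_nonneg_right (mul_le_mul_of_nonneg_right (mul_le_mul_of_nonneg_right
      (mul_le_mul_of_nonneg_left k1 h0) (rp_pos hl _).le) (rp_pos hl _).le)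
      (rp_pos hl _).le).trans ?_
    have h1 : l * l ^ (-c.t) * l ^ (-(c.θ * (2 + c.A + c.e / 4 + 4 * c.t))) *
        l ^ (-(c.e / 8) - c.e / 50) * l ^ (-(2 * c.y) + 4 * c.θ * c.y - c.t * (1 / 2 - c.θ)) *
        l ^ (2 * c.y - c.e / 8) = l ^ (1 + -c.t + -(c.θ * (2 + c.A + c.e / 4 + 4 * c.t)) +
        (-(c.e / 8) - c.e / 50) + (-(2 * c.y) + 4 * c.θ * c.y - c.t * (1 / 2 - c.θ)) +
        (2 * c.y - c.e / 8)) := by
      simp only [Real.rpow_add hl, Real.rpow_one]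
    rw [h1]
    refine rp_anti hl hl1 ?_
    rw [hy, ht]
    nlinarith
  have T3 : l ^ 4 * c.B l ^ (3 / 2 : ℝ) * l ^ (-1 - c.t) * c.mu l ^ (1 / 2 : ℝ) / c.om l ≤
      l ^ (c.e * (6 / 25)) := by
    rw [b5, m1]
    unfold Cx.om
    rw [← Real.rpow_natCast l 4]
    simp only [← Real.rpow_add hl, ← Real.rpow_sub hl]
    refine rp_anti hl hl1 ?_
    push_cast
    rw [hy, ht]
    linarith
  linarith

end Pool.Agent.BK3
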