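import Pool.Agent.BK3.LvI

/-! BK3 module Lip: `F` and `g` change little when `η` changes by `lam^K`, `K = K(c)` large. For the same
`lam, n, E` and `η, η' ≥ lam^A ≥ lam^3`: `G(z) - G(z') = (z - z') G(z) G(z')` (resolvent identity), so
`|G_xy - G'_xy| ≤ |η - η'|/(ηη') ≤ lam^(K-6)` (operator norm bound for the entries; `norm_Gr_le`, `nsq_Gr_mulVec`),
the same for `g`. `|G| ≤ lam^(-3)`, `|lm| ≤ lam^(-6)`, `G4 ≤ card lam^(-12)`, each base `T ≤ lam^(-43d-20)`, each `T`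
changes by at most `lam^(K - 43d - 40)`, `|a^p - b^p| ≤ p max(a,b)^(p-1) |a - b|`, `3 card² ≤ 3 lam^(-86 d)` terms. -/

open MeasureTheory Finset Matrix Pool.Agent.BK

noncomputable section

namespace Pool.Agent.BK3

variable {ν : Measure ℝ} {R s2 : ℝ}

lemma lip_pow {a b M δ : ℝ} (ha : 0 ≤ a) (ha' : a ≤ M) (hb : 0 ≤ b) (hb' : b ≤ M) (hM : 1 ≤ M)
    (h : |a - b| ≤ δ) (p : ℕ) : |a ^ p - b ^ p| ≤ p * M ^ p * δ := by
  refine (abs_pow_sub_pow_le a b p).trans ?_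
  have h1 : max |a| |b| ^ (p - 1) ≤ M ^ p := by
    have h2 : max |a| |b| ≤ M := by
      rw [abs_of_nonneg ha, abs_of_nonneg hb]; exact max_le ha' hb'
    calc max |a| |b| ^ (p - 1) ≤ M ^ (p - 1) := pow_le_pow_left₀ (by positivity) h2 _
      _ ≤ M ^ p := pow_le_pow_right₀ hM (Nat.sub_le _ _)
  have h3 : 0 ≤ δ := (abs_nonneg _).trans h
  have hM0 : 0 ≤ M := by linarith
  calc |a - b| * p * max |a| |b| ^ (p - 1) ≤ δ * p * M ^ p := by gcongr
    _ = p * M ^ p * δ := by ring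

lemma lip_FFg {X : Type} [Fintype X] [DecidableEq X] (φ : X → X → ℝ)
    (hφ : ∀ x y, 0 ≤ φ x y ∧ φ x y ≤ 1) {b4 b2 b3 : ℝ} (h4 : 0 < b4) (h2 : 0 < b2) (h3 : 0 < b3)
    {L : ℝ} (hL : 2 ≤ L) {N : ℕ} (hN : (Fintype.card X : ℝ) ≤ L ^ N) (i4 : 1 / b4 ≤ 1)
    (i2 : 1 / b2 ≤ L) (i3 : 1 / b3 ≤ 1) {g g' : ℂ} {A A' : Matrix X X ℂ}
    (hA : ∀ x y, ‖A x y‖ ≤ L ^ 3) (hA' : ∀ x y, ‖A' x y‖ ≤ L ^ 3) (hg : ‖g‖ ≤ L ^ 3)
    (hg' : ‖g'‖ ≤ L ^ 3) {D : ℝ} (hD0 : 0 ≤ D) (hD : ∀ x y, ‖A x y - A' x y‖ ≤ D)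
    (hDg : ‖g - g'‖ ≤ D) (p : ℕ) :
    |FFg φ b4 b2 b3 g p A - FFg φ b4 b2 b3 g' p A'| ≤
      3 * L ^ (2 * N) * (p * (L ^ (N + 13)) ^ p * (L ^ (N + 11) * D)) := by
  have hL1 : 1 ≤ L := by linarith
  have hL0 : 0 < L := by linarith
  have hLN : 1 ≤ L ^ N := one_le_pow₀ hL1
  have hcard0 : (0 : ℝ) ≤ Fintype.card X := Nat.cast_nonneg _
  have hM : 1 ≤ L ^ (N + 13) := one_le_pow₀ hL1
  set T := p * (L ^ (N + 13)) ^ p * (L ^ (N + 11) * D) with hT
  have hT0 : 0 ≤ T := by positivity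
  have nd : ∀ x y, |‖A x y‖ - ‖A' x y‖| ≤ D := fun x y => (abs_norm_sub_norm_le _ _).trans (hD x y)
  have p2 : ∀ x y, |‖A x y‖ ^ 2 - ‖A' x y‖ ^ 2| ≤ L ^ 4 * D := by
    intro x y
    refine (abs_pow_sub_pow_le _ _ 2).trans ?_
    have h5 : max |‖A x y‖| |‖A' x y‖| ≤ L ^ 3 := by
      rw [abs_norm, abs_norm]; exact max_le (hA x y) (hA' x y)
    calc |‖A x y‖ - ‖A' x y‖| * ((2 : ℕ) : ℝ) * max |‖A x y‖| |‖A' x y‖| ^ (2 - 1)
        ≤ D * 2 * (L ^ 3) ^ 1 := by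
          have := nd x y
          push_cast
          gcongr
      _ ≤ L ^ 4 * D := by
          have : 0 ≤ (L - 2) * (L ^ 3 * D) := mul_nonneg (by linarith) (by positivity)
          nlinarith
  have p4 : ∀ x y, |‖A x y‖ ^ 4 - ‖A' x y‖ ^ 4| ≤ L ^ 11 * D := by
    intro x y
    refine (abs_pow_sub_pow_le _ _ 4).trans ?_
    have h5 : max |‖A x y‖| |‖A' x y‖| ≤ L ^ 3 := by
      rw [abs_norm, abs_norm]; exact max_le (hA x y) (hA' x y)
    calc |‖A x y‖ - ‖A' x y‖| * ((4 : ℕ) : ℝ) * max |‖A x y‖| |‖A' x y‖| ^ (4 - 1)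
        ≤ D * 4 * (L ^ 3) ^ 3 := by
          have := nd x y
          push_cast
          gcongr
      _ ≤ L ^ 11 * D := by
          have h6 : (4 : ℝ) ≤ L ^ 2 := by nlinarith
          have : 0 ≤ (L ^ 2 - 4) * (L ^ 9 * D) := mul_nonneg (by linarith) (by positivity)
          nlinarith
  -- the terms
  have t4 : ∀ w, |(G4 A w / b4) ^ p - (G4 A' w / b4) ^ p| ≤ T := by
    intro w
    have bd : ∀ B : Matrix X X ℂ, (∀ x y, ‖B x y‖ ≤ L ^ 3) →
        0 ≤ G4 B w / b4 ∧ G4 B w / b4 ≤ L ^ (N + 13) := by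
      intro B hB
      have h5 : 0 ≤ G4 B w := Finset.sum_nonneg fun _ _ => by positivity
      have h6 : G4 B w ≤ L ^ N * L ^ 12 := by
        calc G4 B w ≤ ∑ y : X, (L ^ 3) ^ 4 := by
              unfold G4
              exact Finset.sum_le_sum fun y _ => pow_le_pow_left₀ (norm_nonneg _) (hB w y) 4
          _ = Fintype.card X * L ^ 12 := by
              rw [Finset.sum_const, Finset.card_univ, nsmul_eq_mul]; ring
          _ ≤ _ := by gcongr
      refine ⟨by positivity, ?_⟩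
      calc G4 B w / b4 = G4 B w * (1 / b4) := by ring
        _ ≤ G4 B w * 1 := by gcongr
        _ ≤ L ^ N * L ^ 12 := by linarith
        _ = L ^ (N + 12) := by rw [pow_add]
        _ ≤ L ^ (N + 13) := pow_le_pow_right₀ hL1 (by omega)
    refine lip_pow (bd A hA).1 (bd A hA).2 (bd A' hA').1 (bd A' hA').2 hM ?_ p
    have h5 : |G4 A w - G4 A' w| ≤ L ^ N * (L ^ 11 * D) := by
      unfold G4
      rw [← Finset.sum_sub_distrib]
      refine (Finset.abs_sum_le_sum_abs _ _).trans ?_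
      calc ∑ y, |‖A w y‖ ^ 4 - ‖A' w y‖ ^ 4| ≤ ∑ _y : X, L ^ 11 * D :=
            Finset.sum_le_sum fun y _ => p4 w y
        _ = Fintype.card X * (L ^ 11 * D) := by
            rw [Finset.sum_const, Finset.card_univ, nsmul_eq_mul]
        _ ≤ _ := by gcongr
    rw [← sub_div, abs_div, abs_of_pos h4]
    calc |G4 A w - G4 A' w| / b4 = |G4 A w - G4 A' w| * (1 / b4) := by ring
      _ ≤ |G4 A w - G4 A' w| * 1 := by gcongr
      _ ≤ L ^ N * (L ^ 11 * D) := by linarith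
      _ = L ^ (N + 11) * D := by rw [pow_add]; ring
  have t2 : ∀ x, |(‖A x x - g‖ / b2) ^ p - (‖A' x x - g'‖ / b2) ^ p| ≤ T := by
    intro x
    have bd : ∀ a b : ℂ, ‖a‖ ≤ L ^ 3 → ‖b‖ ≤ L ^ 3 →
        0 ≤ ‖a - b‖ / b2 ∧ ‖a - b‖ / b2 ≤ L ^ (N + 13) := by
      intro a b ha hb
      refine ⟨by positivity, ?_⟩
      have h5 : ‖a - b‖ ≤ 2 * L ^ 3 := (norm_sub_le _ _).trans (by linarith)
      calc ‖a - b‖ / b2 = ‖a - b‖ * (1 / b2) := by ring
        _ ≤ (2 * L ^ 3) * L := by gcongr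
        _ ≤ (L * L ^ 3) * L := by gcongr
        _ = L ^ 5 := by ring
        _ ≤ L ^ (N + 13) := pow_le_pow_right₀ hL1 (by omega)
    refine lip_pow (bd _ _ (hA x x) hg).1 (bd _ _ (hA x x) hg).2 (bd _ _ (hA' x x) hg').1
      (bd _ _ (hA' x x) hg').2 hM ?_ p
    have h5 : |‖A x x - g‖ - ‖A' x x - g'‖| ≤ 2 * D := by
      refine (abs_norm_sub_norm_le _ _).trans ?_
      have h6 : A x x - g - (A' x x - g') = (A x x - A' x x) - (g - g') := by ring
      rw [h6]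
      exact (norm_sub_le _ _).trans (by linarith [hD x x])
    rw [← sub_div, abs_div, abs_of_pos h2]
    calc |‖A x x - g‖ - ‖A' x x - g'‖| / b2 = |‖A x x - g‖ - ‖A' x x - g'‖| * (1 / b2) := by ring
      _ ≤ (2 * D) * L := by gcongr
      _ ≤ (L * D) * L := by gcongr
      _ = L ^ 2 * D := by ring
      _ ≤ L ^ (N + 11) * D := by
          have := pow_le_pow_right₀ hL1 (show 2 ≤ N + 11 by omega)
          gcongr
  have t3 : ∀ w y, |(lm φ A w y / b3) ^ p - (lm φ A' w y / b3) ^ p| ≤ T := by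
    intro w y
    have bd : ∀ B : Matrix X X ℂ, (∀ x y, ‖B x y‖ ≤ L ^ 3) →
        0 ≤ lm φ B w y / b3 ∧ lm φ B w y / b3 ≤ L ^ (N + 13) := by
      intro B hB
      have h5 : 0 ≤ lm φ B w y := Finset.sum_nonneg fun x _ => mul_nonneg (hφ y x).1 (by positivity)
      have h6 : lm φ B w y ≤ L ^ N * L ^ 6 := by
        calc lm φ B w y ≤ ∑ x : X, 1 * (L ^ 3) ^ 2 := by
              unfold lm
              refine Finset.sum_le_sum fun x _ => ?_
              have := hφ y x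
              have := hB w x
              gcongr
              exact (hφ y x).2
          _ = Fintype.card X * L ^ 6 := by
              rw [Finset.sum_const, Finset.card_univ, nsmul_eq_mul]; ring
          _ ≤ _ := by gcongr
      refine ⟨by positivity, ?_⟩
      calc lm φ B w y / b3 = lm φ B w y * (1 / b3) := by ring
        _ ≤ lm φ B w y * 1 := by gcongr
        _ ≤ L ^ N * L ^ 6 := by linarith
        _ = L ^ (N + 6) := by rw [pow_add]
        _ ≤ L ^ (N + 13) := pow_le_pow_right₀ hL1 (by omega)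
    refine lip_pow (bd A hA).1 (bd A hA).2 (bd A' hA').1 (bd A' hA').2 hM ?_ p
    have h5 : |lm φ A w y - lm φ A' w y| ≤ L ^ N * (L ^ 4 * D) := by
      unfold lm
      rw [← Finset.sum_sub_distrib]
      refine (Finset.abs_sum_le_sum_abs _ _).trans ?_
      calc ∑ x, |φ y x * ‖A w x‖ ^ 2 - φ y x * ‖A' w x‖ ^ 2| ≤ ∑ _x : X, L ^ 4 * D := by
            refine Finset.sum_le_sum fun x _ => ?_
            rw [← mul_sub, abs_mul, abs_of_nonneg (hφ y x).1]
            calc φ y x * |‖A w x‖ ^ 2 - ‖A' w x‖ ^ 2| ≤ 1 * |‖A w x‖ ^ 2 - ‖A' w x‖ ^ 2| := by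
                  gcongr
                  exact (hφ y x).2
              _ ≤ L ^ 4 * D := by rw [one_mul]; exact p2 w x
        _ = Fintype.card X * (L ^ 4 * D) := by
            rw [Finset.sum_const, Finset.card_univ, nsmul_eq_mul]
        _ ≤ _ := by gcongr
    rw [← sub_div, abs_div, abs_of_pos h3]
    calc |lm φ A w y - lm φ A' w y| / b3 = |lm φ A w y - lm φ A' w y| * (1 / b3) := by ring
      _ ≤ |lm φ A w y - lm φ A' w y| * 1 := by gcongr
      _ ≤ L ^ N * (L ^ 4 * D) := by linarith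
      _ = L ^ (N + 4) * D := by rw [pow_add]; ring
      _ ≤ L ^ (N + 11) * D := by
          have := pow_le_pow_right₀ hL1 (show N + 4 ≤ N + 11 by omega)
          gcongr
  have hLN2 : L ^ N ≤ L ^ (2 * N) := pow_le_pow_right₀ hL1 (by omega)
  have e1 : |∑ w, (G4 A w / b4) ^ p - ∑ w, (G4 A' w / b4) ^ p| ≤ L ^ (2 * N) * T := by
    rw [← Finset.sum_sub_distrib]
    refine (Finset.abs_sum_le_sum_abs _ _).trans ?_
    calc _ ≤ ∑ _w : X, T := Finset.sum_le_sum fun w _ => t4 w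
      _ = Fintype.card X * T := by rw [Finset.sum_const, Finset.card_univ, nsmul_eq_mul]
      _ ≤ _ := by gcongr; exact hN.trans hLN2
  have e2 : |∑ x, (‖A x x - g‖ / b2) ^ p - ∑ x, (‖A' x x - g'‖ / b2) ^ p| ≤ L ^ (2 * N) * T := by
    rw [← Finset.sum_sub_distrib]
    refine (Finset.abs_sum_le_sum_abs _ _).trans ?_
    calc _ ≤ ∑ _w : X, T := Finset.sum_le_sum fun w _ => t2 w
      _ = Fintype.card X * T := by rw [Finset.sum_const, Finset.card_univ, nsmul_eq_mul]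
      _ ≤ _ := by gcongr; exact hN.trans hLN2
  have e3 : |∑ w, ∑ y, (lm φ A w y / b3) ^ p - ∑ w, ∑ y, (lm φ A' w y / b3) ^ p| ≤
      L ^ (2 * N) * T := by
    rw [← Finset.sum_sub_distrib]
    refine (Finset.abs_sum_le_sum_abs _ _).trans ?_
    calc _ ≤ ∑ _w : X, (Fintype.card X * T) := by
          refine Finset.sum_le_sum fun w _ => ?_
          rw [← Finset.sum_sub_distrib]
          refine (Finset.abs_sum_le_sum_abs _ _).trans ?_
          calc _ ≤ ∑ _w : X, T := Finset.sum_le_sum fun y _ => t3 w y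
            _ = Fintype.card X * T := by rw [Finset.sum_const, Finset.card_univ, nsmul_eq_mul]
      _ = Fintype.card X * (Fintype.card X * T) := by
          rw [Finset.sum_const, Finset.card_univ, nsmul_eq_mul]
      _ ≤ L ^ N * (L ^ N * T) := by gcongr
      _ = L ^ (2 * N) * T := by rw [two_mul, pow_add]; ring
  unfold FFg
  rw [abs_le] at e1 e2 e3 ⊢
  constructor <;> linarith

/-- The entries of the Green function change little. -/
lemma lip_G {X : Type} [Fintype X] [DecidableEq X] {H : Matrix X X ℂ} (hH : RS H) (v : X → ℝ)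
    {z z' : ℂ} (hz : 0 < z.im) (hz' : 0 < z'.im) {L : ℝ} (hL : 2 ≤ L) {N : ℕ}
    (hN : (Fintype.card X : ℝ) ≤ L ^ N) (h1 : 1 / z.im ≤ L ^ 3) (h2 : 1 / z'.im ≤ L ^ 3)
    (x y : X) : ‖Gr H v z x y - Gr H v z' x y‖ ≤ ‖z - z'‖ * L ^ (N + 6) := by
  have h := congrFun (congrFun (Gr_resolvent hH v hz.ne' hz'.ne') x) y
  rw [Matrix.sub_apply, Matrix.smul_apply, smul_eq_mul, Matrix.mul_apply] at h
  rw [h, norm_mul]
  refine mul_le_mul_of_nonneg_left ?_ (norm_nonneg _)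
  have hL0 : 0 < L := by linarith
  calc ‖∑ j, Gr H v z x j * Gr H v z' j y‖ ≤ ∑ _j : X, L ^ 3 * L ^ 3 := by
        refine (norm_sum_le _ _).trans (Finset.sum_le_sum fun j _ => ?_)
        rw [norm_mul]
        have h3 := (norm_Gr_le hH v hz x j).trans h1
        have h4 := (norm_Gr_le hH v hz' j y).trans h2
        gcongr
    _ = Fintype.card X * (L ^ 3 * L ^ 3) := by rw [Finset.sum_const, Finset.card_univ, nsmul_eq_mul]
    _ ≤ L ^ N * (L ^ 3 * L ^ 3) := by gcongr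
    _ = L ^ (N + 6) := by rw [pow_add]; ring

theorem lip_F (hν : BLaw ν R s2) (c : Cx) (hc : c.Ok) :
    ∃ K lam1 : ℝ, 0 < K ∧ 0 < lam1 ∧ lam1 ≤ 1 ∧ ∀ (lam E η η' : ℝ) (n : ℕ),
      (⟨lam, n, E, η⟩ : Par) ∈ c.PT lam1 → (⟨lam, n, E, η'⟩ : Par) ∈ c.PT lam1 →
      |η - η'| ≤ lam ^ K →
      (∀ V : Tor c.d n → ℝ, |c.F ν ⟨lam, n, E, η⟩ V - c.F ν ⟨lam, n, E, η'⟩ V| ≤ 1) ∧
      ‖gb ν c.d ⟨lam, n, E, η⟩ - gb ν c.d ⟨lam, n, E, η'⟩‖ ≤ c.κ / 4 := by
  set N : ℕ := 43 * c.d with hNdef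
  set m : ℕ := 2 * N + (N + 13) * c.p + (N + 11) + (N + 6) with hm
  have hκ := hc.free.kap
  have hp : (0 : ℝ) ≤ c.p := Nat.cast_nonneg _
  refine ⟨((m + 1 : ℕ) : ℝ), min (1 / 2) (min (1 / (3 * c.p + 1)) (c.κ / 4)),
    by positivity, by positivity, (min_le_left _ _).trans (by norm_num), ?_⟩
  intro lam E η η' n hπ hπ' hd
  set π : Par := ⟨lam, n, E, η⟩ with hπd
  set π' : Par := ⟨lam, n, E, η'⟩ with hπd'
  have hl0 : 0 < lam := hπ.1
  have hl1 : lam ≤ 1 / 2 := hπ.2.1.trans (min_le_left _ _)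
  have hl2 : lam ≤ 1 / (3 * c.p + 1) := hπ.2.1.trans ((min_le_right _ _).trans (min_le_left _ _))
  have hl3 : lam ≤ c.κ / 4 := hπ.2.1.trans ((min_le_right _ _).trans (min_le_right _ _))
  have hle1 : min (1 / 2) (min (1 / (3 * (c.p : ℝ) + 1)) (c.κ / 4)) ≤ 1 :=
    (min_le_left _ _).trans (by norm_num)
  set L := lam⁻¹ with hLd
  have hL : 2 ≤ L := by
    rw [hLd, le_inv_comm₀ (by norm_num) hl0]; linarith
  have hL1 : 1 ≤ L := by linarith
  have hL0 : 0 < L := by linarith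
  have hLl : lam * L = 1 := mul_inv_cancel₀ hl0.ne'
  have hcard : (Fintype.card (Tor c.d n) : ℝ) ≤ L ^ N := by
    have h := card_tor_le hπ
    change (Fintype.card (Tor c.d n) : ℝ) ≤ lam ^ (-(43 * (c.d : ℝ))) at h
    rw [Real.rpow_neg hl0.le] at h
    have h2 : (43 * (c.d : ℝ)) = ((N : ℕ) : ℝ) := by rw [hNdef]; push_cast; ring
    rw [h2, Real.rpow_natCast, ← inv_pow] at h
    exact h
  have hinv : ∀ {ρ : Par}, ρ ∈ c.PT (min (1 / 2) (min (1 / (3 * (c.p : ℝ) + 1)) (c.κ / 4))) →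
      ρ.lam = lam → 0 < ρ.eta ∧ 1 / ρ.eta ≤ L ^ 3 := by
    intro ρ hρ hl
    obtain ⟨h1, h2, h3⟩ := inv_eta_le hc hle1 hρ
    refine ⟨h1, h2.trans (h3.trans (le_of_eq ?_))⟩
    rw [hl, Real.rpow_neg hl0.le, hLd, inv_pow]
    congr 1
    exact_mod_cast Real.rpow_natCast lam 3
  obtain ⟨he, hei⟩ := hinv hπ rfl
  obtain ⟨he', hei'⟩ := hinv hπ' rfl
  change 0 < η at he
  change 0 < η' at he'
  have hzd : ‖π.z - π'.z‖ ≤ lam ^ (m + 1) := by
    have h1 : π.z - π'.z = ((η - η' : ℝ) : ℂ) * Complex.I := by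
      apply Complex.ext <;> simp [Par.z, hπd, hπd']
    rw [h1, norm_mul, Complex.norm_I, mul_one, Complex.norm_real, Real.norm_eq_abs]
    rwa [Real.rpow_natCast] at hd
  set D : ℝ := lam ^ (m + 1) * L ^ (N + 6) with hD
  have hD0 : 0 ≤ D := by positivity
  have hGd : ∀ (V : Tor c.d n → ℝ) x y,
      ‖GG c.d n lam π.z V x y - GG c.d n lam π'.z V x y‖ ≤ D := by
    intro V x y
    refine (lip_G (RS_H0 c.d n) (fun x => lam * V x) (z := π.z) (z' := π'.z) he he' hL hcard hei hei'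
      x y).trans ?_
    rw [hD]
    gcongr
  have := hν.prob
  have hc1 : ∀ {ρ : Par}, 0 < ρ.eta → Continuous fun V : Tor c.d n → ℝ => GG c.d n lam ρ.z V 0 0 := by
    intro ρ hρ
    exact (continuous_Gr (RS_H0 c.d n) lam (z := ρ.z) hρ.ne').matrix_elem 0 0
  have hgd : ‖gb ν c.d π - gb ν c.d π'‖ ≤ D := by
    change ‖(∫ V, GG c.d n lam π.z V 0 0 ∂(Measure.pi fun _ : Tor c.d n => ν)) -
      ∫ V, GG c.d n lam π'.z V 0 0 ∂(Measure.pi fun _ : Tor c.d n => ν)‖ ≤ D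
    rw [← integral_sub (int_cont hν (hc1 (ρ := π) he)) (int_cont hν (hc1 (ρ := π') he'))]
    have h1 := norm_integral_le_of_norm_le_const
      (μ := Measure.pi fun _ : Tor c.d n => ν)
      (f := fun V => GG c.d n lam π.z V 0 0 - GG c.d n lam π'.z V 0 0)
      (ae_of_all _ fun V => hGd V 0 0)
    simpa using h1
  have hgn : ∀ {ρ : Par}, 0 < ρ.eta → 1 / ρ.eta ≤ L ^ 3 → ρ.n = n → ρ.lam = lam →
      ‖gb ν c.d ρ‖ ≤ L ^ 3 := by
    intro ρ hρ hρ' hn hl
    have h1 := norm_integral_le_of_norm_le_const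
      (μ := Measure.pi fun _ : Tor c.d ρ.n => ν)
      (f := fun V => GG c.d ρ.n ρ.lam ρ.z V 0 0)
      (ae_of_all _ fun V => (norm_Gr_le (RS_H0 c.d ρ.n) (fun x => ρ.lam * V x) (z := ρ.z) hρ 0 0).trans
        hρ')
    have h2 : ‖gb ν c.d ρ‖ ≤ L ^ 3 * ((Measure.pi fun _ : Tor c.d ρ.n => ν).real Set.univ) := h1
    simpa using h2
  -- powers of lam and L
  have hpw : ∀ k, k ≤ m → L ^ k * lam ^ (m + 1) ≤ lam := by
    intro k hk
    have h1 : L ^ k * lam ^ (m + 1) = lam ^ (m + 1 - k) := by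
      have h2 : lam ^ (m + 1) = lam ^ (m + 1 - k) * lam ^ k := by
        rw [← pow_add]; congr 1; omega
      rw [h2, mul_comm, mul_assoc, ← mul_pow, hLl, one_pow, mul_one]
    rw [h1]
    calc lam ^ (m + 1 - k) ≤ lam ^ 1 :=
          pow_le_pow_of_le_one hl0.le (by linarith) (by omega)
      _ = lam := pow_one _
  refine ⟨?_, ?_⟩
  · intro V
    have h4 : 0 < c.b4 lam := rp_pos hl0 _
    have h2 : 0 < c.b2 lam := rp_pos hl0 _
    have h3 : 0 < c.b3 lam := rp_pos hl0 _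
    have hy : 0 ≤ c.y := by unfold Cx.y; linarith [hc.y0, hc.e0]
    have hi4 : 1 / c.b4 lam ≤ 1 := by
      rw [div_le_one h4]
      unfold Cx.b4
      exact Real.one_le_rpow_of_pos_of_le_one_of_nonpos hl0 (by linarith) (by linarith)
    have hi3 : 1 / c.b3 lam ≤ 1 := by
      rw [div_le_one h3]
      unfold Cx.b3
      exact Real.one_le_rpow_of_pos_of_le_one_of_nonpos hl0 (by linarith) (by linarith [hc.e0])
    have hi2 : 1 / c.b2 lam ≤ L := by
      rw [hLd, one_div]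
      apply inv_anti₀ hl0
      unfold Cx.b2
      calc lam = lam ^ (1 : ℝ) := (Real.rpow_one _).symm
        _ ≤ lam ^ (1 - 2 * c.y - c.e) := rp_anti hl0 (by linarith) (by linarith [hc.e0])
    have hφ : ∀ x y : Tor c.d n, 0 ≤ ph2 (c.rw lam) x y ∧ ph2 (c.rw lam) x y ≤ 1 := by
      intro x y
      have h5 : 0 < c.rw lam := rp_pos hl0 _
      refine ⟨(Real.exp_pos _).le, ?_⟩
      unfold ph2 phi
      rw [Real.exp_le_one_iff]
      have h6 : 0 ≤ ∑ l, |(((y - x) l).valMinAbs : ℝ)| := Finset.sum_nonneg fun _ _ => abs_nonneg _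
      rw [neg_div]
      have := div_nonneg h6 h5.le
      linarith
    have key := lip_FFg (ph2 (c.rw lam)) hφ h4 h2 h3 hL hcard hi4 hi2 hi3
      (g := gb ν c.d π) (g' := gb ν c.d π') (A := GG c.d n lam π.z V) (A' := GG c.d n lam π'.z V)
      (fun x y => (norm_Gr_le (RS_H0 c.d n) (fun x => lam * V x) (z := π.z) he x y).trans hei)
      (fun x y => (norm_Gr_le (RS_H0 c.d n) (fun x => lam * V x) (z := π'.z) he' x y).trans hei')
      (hgn he hei rfl rfl) (hgn he' hei' rfl rfl) hD0 (hGd V) hgd c.p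
    refine key.trans ?_
    have h5 : 3 * L ^ (2 * N) * (c.p * (L ^ (N + 13)) ^ c.p * (L ^ (N + 11) * D)) =
        3 * c.p * (L ^ m * lam ^ (m + 1)) := by
      rw [hD, ← pow_mul, hm]
      have : L ^ (2 * N + (N + 13) * c.p + (N + 11) + (N + 6)) =
        L ^ (2 * N) * L ^ ((N + 13) * c.p) * L ^ (N + 11) * L ^ (N + 6) := by
        rw [pow_add, pow_add, pow_add]
      rw [this]
      ring
    rw [h5]
    calc 3 * c.p * (L ^ m * lam ^ (m + 1)) ≤ 3 * c.p * lam := by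
          have := hpw m le_rfl
          gcongr
      _ ≤ 3 * c.p * (1 / (3 * c.p + 1)) := by gcongr
      _ ≤ 1 := by
          rw [mul_one_div, div_le_one (by positivity)]
          linarith
  · refine hgd.trans ?_
    rw [hD, mul_comm]
    exact (hpw (N + 6) (by rw [hm]; omega)).trans hl3

end Pool.Agent.BK3
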