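import Pool.Agent.BK3.LvI

/-! BK3 module MeanG: `E G_00 = M_00 + O(lam^(1 - 2y - 2e))`. This is `lvg` with the data `lvi` (`ℓ = 0`),
`x = 0`, `m2 = lam^(-1-t)` (`Cx.Z.m2`): the bound is `C m2 (kap μ^(1/2) + Kc⁴ p0)` with
`kap = lam² bb + lam³ 4lam^(-y) (4lam^(-y) + |g|) ≤ 30 lam^(3-2y-e-t)`, `μ^(1/2) = lam^(-1-e/8-t/2)`, so the first
part is `≤ C lam^(1-2y-1.2e)`, and `Kc⁴ p0 ≤ lam^(D0 - 172 d - 4)` is much smaller (`D00`).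
`E G_00 = gb` by definition (`gbar`), `Gv (H0 d n) = GG d n` definitionally.
Then `Im gb ≥ κ - lam^(1-2y-2e) ≥ κ/2` (`Cx.Z.mi`; `1-2y-2e > 0` by `y_lt`) and `|gb| ≤ |M_00| + .. ≤ lam^(-2t)`
(`Cx.Z.md`). -/

open MeasureTheory Finset Matrix Pool.Agent.BK

noncomputable section

namespace Pool.Agent.BK3

variable {ν : Measure ℝ} {R s2 : ℝ}

lemma meang_kap (c : Cx) (hc : c.Ok) {l : ℝ} (h0 : 0 < l) (h1 : l ≤ 1) {g : ℂ}
    (hg : ‖g‖ ≤ 3 * l ^ (-c.y)) :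
    kap l g (c.bb l) (4 * l ^ (-c.y)) ≤ 29 * l ^ (3 - 2 * c.y - c.e - c.t) := by
  have hy : (0 : ℝ) < l ^ (-c.y) := rp_pos h0 _
  have he : 0 < c.e := hc.e0
  have ht : 0 < c.t := by unfold Cx.t; linarith
  have e1 : l ^ 2 * c.bb l = l ^ (3 - 2 * c.y - c.e - c.t) := by
    unfold Cx.bb
    rw [← Real.rpow_natCast l 2, ← Real.rpow_add h0]
    congr 1; push_cast; ring
  have e2 : l ^ 3 * (l ^ (-c.y) * l ^ (-c.y)) = l ^ (3 - 2 * c.y) := by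
    rw [← Real.rpow_natCast l 3, ← Real.rpow_add h0, ← Real.rpow_add h0]
    congr 1; push_cast; ring
  have e3 : l ^ (3 - 2 * c.y) ≤ l ^ (3 - 2 * c.y - c.e - c.t) := rp_anti h0 h1 (by linarith)
  have e4 : l ^ 3 * (4 * l ^ (-c.y)) * (4 * l ^ (-c.y) + ‖g‖) ≤ 28 * l ^ (3 - 2 * c.y) := by
    have h3 : 0 ≤ l ^ 3 * (4 * l ^ (-c.y)) := by positivity
    calc l ^ 3 * (4 * l ^ (-c.y)) * (4 * l ^ (-c.y) + ‖g‖)
        ≤ l ^ 3 * (4 * l ^ (-c.y)) * (7 * l ^ (-c.y)) := by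
          apply mul_le_mul_of_nonneg_left _ h3; linarith
      _ = 28 * (l ^ 3 * (l ^ (-c.y) * l ^ (-c.y))) := by ring
      _ = 28 * l ^ (3 - 2 * c.y) := by rw [e2]
  unfold kap
  rw [e1]
  linarith

lemma meang_num (c : Cx) (hc : c.Ok) {l : ℝ} (h0 : 0 < l) (h1 : l ≤ 1) {g : ℂ}
    (hg : ‖g‖ ≤ 3 * l ^ (-c.y)) :
    l ^ (-1 - c.t) * (kap l g (c.bb l) (4 * l ^ (-c.y)) * c.mu l ^ (1 / 2 : ℝ) +
      (l ^ (-(43 * (c.d : ℝ) + 1))) ^ 4 * l ^ c.D0) ≤ 30 * l ^ (1 - 2 * c.y - 3 / 2 * c.e) := by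
  have hd : (3 : ℝ) ≤ c.d := by exact_mod_cast hc.d3
  have he : 0 < c.e := hc.e0
  have ht : 0 < c.t := by unfold Cx.t; linarith
  have htd : c.t = c.e / 1000 := rfl
  have hy0 := hc.y0
  have hyl := y_lt c hc
  have hD := hc.D00
  have hyd : c.y = c.y0 + c.e := rfl
  have hm : c.mu l ^ (1 / 2 : ℝ) = l ^ (-1 - c.e / 8 - c.t / 2) := by
    unfold Cx.mu
    rw [← Real.rpow_mul h0.le]; congr 1; ring
  have hk := meang_kap c hc h0 h1 hg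
  have hp1 : 0 < l ^ (-1 - c.t) := rp_pos h0 _
  have hp2 : 0 < l ^ (-1 - c.e / 8 - c.t / 2) := rp_pos h0 _
  have q1 : l ^ (-1 - c.t) * (29 * l ^ (3 - 2 * c.y - c.e - c.t) * l ^ (-1 - c.e / 8 - c.t / 2)) ≤
      29 * l ^ (1 - 2 * c.y - 3 / 2 * c.e) := by
    have : l ^ (-1 - c.t) * (29 * l ^ (3 - 2 * c.y - c.e - c.t) * l ^ (-1 - c.e / 8 - c.t / 2)) =
        29 * l ^ ((-1 - c.t) + (3 - 2 * c.y - c.e - c.t) + (-1 - c.e / 8 - c.t / 2)) := by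
      rw [Real.rpow_add h0, Real.rpow_add h0]; ring
    rw [this]
    apply mul_le_mul_of_nonneg_left _ (by norm_num)
    apply rp_anti h0 h1
    rw [htd]; linarith
  have q2 : l ^ (-1 - c.t) * ((l ^ (-(43 * (c.d : ℝ) + 1))) ^ 4 * l ^ c.D0) ≤
      1 * l ^ (1 - 2 * c.y - 3 / 2 * c.e) := by
    have : l ^ (-1 - c.t) * ((l ^ (-(43 * (c.d : ℝ) + 1))) ^ 4 * l ^ c.D0) =
        l ^ ((-1 - c.t) + ((4 : ℕ) * (-(43 * (c.d : ℝ) + 1)) + c.D0)) := by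
      rw [Real.rpow_add h0 (-1 - c.t), Real.rpow_add h0, rp_pow h0]
    rw [this, one_mul]
    apply rp_anti h0 h1
    push_cast
    rw [htd]
    nlinarith
  rw [hm]
  calc l ^ (-1 - c.t) * (kap l g (c.bb l) (4 * l ^ (-c.y)) * l ^ (-1 - c.e / 8 - c.t / 2) +
      (l ^ (-(43 * (c.d : ℝ) + 1))) ^ 4 * l ^ c.D0)
      ≤ l ^ (-1 - c.t) * (29 * l ^ (3 - 2 * c.y - c.e - c.t) * l ^ (-1 - c.e / 8 - c.t / 2) +
        (l ^ (-(43 * (c.d : ℝ) + 1))) ^ 4 * l ^ c.D0) := by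
        apply mul_le_mul_of_nonneg_left _ hp1.le
        have := mul_le_mul_of_nonneg_right hk hp2.le
        linarith
    _ ≤ 30 * l ^ (1 - 2 * c.y - 3 / 2 * c.e) := by
        rw [mul_add]; linarith

theorem meang (hν : BLaw ν R s2) (c : Cx) (hc : c.Ok) :
    ∃ lam1 : ℝ, 0 < lam1 ∧ lam1 ≤ 1 ∧ ∀ π ∈ c.S ν lam1,
      ‖gb ν c.d π - MM ν s2 c.d π.n π.lam π.z 0 0‖ ≤ π.lam ^ (1 - 2 * c.y - 2 * c.e) ∧
      c.κ / 2 ≤ (gb ν c.d π).im ∧ ‖gb ν c.d π‖ ≤ π.lam ^ (-(2 * c.t)) := by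
  have he : 0 < c.e := hc.e0
  have ht : 0 < c.t := by unfold Cx.t; linarith
  have hyl := y_lt c hc
  have hyd : c.y = c.y0 + c.e := rfl
  have hy0 := hc.y0
  have hκ := hc.free.kap
  obtain ⟨C, hC, hl⟩ := lvg R hν.R_ge
  obtain ⟨l1, a1, b1, h1⟩ := lvi hν c hc 0
  obtain ⟨l2, a2, b2, h2⟩ := zfacts hν c hc
  obtain ⟨l3, a3, b3, h3⟩ := sm_le (C * 30)
    (show 1 - 2 * c.y - 2 * c.e < 1 - 2 * c.y - 3 / 2 * c.e by linarith)
  obtain ⟨l4, a4, b4, h4⟩ := sm_one (2 / c.κ) (show 0 < 1 - 2 * c.y - 2 * c.e by linarith)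
  obtain ⟨l5, a5, b5, h5⟩ := sm_le 2 (show -(2 * c.t) < -c.t by linarith)
  refine ⟨min l1 (min l2 (min l3 (min l4 l5))), by positivity,
    (min_le_left _ _).trans b1, fun π hπ => ?_⟩
  have hm : π.lam ≤ min l1 (min l2 (min l3 (min l4 l5))) := hπ.1.2.1
  have hπ1 : π ∈ c.S ν l1 := c.S_mono ν (min_le_left _ _) hπ
  have hπ2 : π ∈ c.S ν l2 := c.S_mono ν ((min_le_right _ _).trans (min_le_left _ _)) hπ
  have m3 : π.lam ≤ l3 := hm.trans ((min_le_right _ _).trans ((min_le_right _ _).trans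
    (min_le_left _ _)))
  have m4 : π.lam ≤ l4 := hm.trans ((min_le_right _ _).trans ((min_le_right _ _).trans
    ((min_le_right _ _).trans (min_le_left _ _))))
  have m5 : π.lam ≤ l5 := hm.trans ((min_le_right _ _).trans ((min_le_right _ _).trans
    ((min_le_right _ _).trans (min_le_right _ _))))
  have Z := h2 π hπ2
  have L0 := Z.l0
  have L1 := Z.l1
  have key := hl (Tor c.d π.n) ν (H0 c.d π.n) s2 π.lam π.z (gb ν c.d π) (zt ν s2 c.d π)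
    (ph2 (c.rw π.lam)) (c.chi ν 0 π) (c.B π.lam) (c.bb π.lam) (c.mu π.lam) (4 * π.lam ^ (-c.y))
    (π.lam ^ c.D0) (π.lam ^ (-(43 * (c.d : ℝ) + 1))) (π.lam ^ (-1 - c.t)) (h1 π hπ1)
    (rp_pos L0 _).le 0 (Z.m2 0)
  have key2 : ‖gb ν c.d π - MM ν s2 c.d π.n π.lam π.z 0 0‖ ≤
      C * π.lam ^ (-1 - c.t) * (kap π.lam (gb ν c.d π) (c.bb π.lam) (4 * π.lam ^ (-c.y)) *
        c.mu π.lam ^ (1 / 2 : ℝ) + (π.lam ^ (-(43 * (c.d : ℝ) + 1))) ^ 4 * π.lam ^ c.D0) := key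
  have key3 := meang_num c hc L0 L1 Z.g_le
  have key4 : ‖gb ν c.d π - MM ν s2 c.d π.n π.lam π.z 0 0‖ ≤ π.lam ^ (1 - 2 * c.y - 2 * c.e) := by
    refine key2.trans ?_
    rw [mul_assoc]
    refine (mul_le_mul_of_nonneg_left key3 hC.le).trans ?_
    rw [← mul_assoc]
    exact h3 _ L0 m3
  have k5 := h4 _ L0 m4
  have k6 : π.lam ^ (1 - 2 * c.y - 2 * c.e) ≤ c.κ / 2 := by
    rw [div_mul_eq_mul_div, div_le_one hκ] at k5
    linarith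
  have k7 : π.lam ^ (1 - 2 * c.y - 2 * c.e) ≤ 1 := by
    have := hc.free.kap1
    linarith
  refine ⟨key4, ?_, ?_⟩
  · have r1 := (Complex.abs_im_le_norm (gb ν c.d π - MM ν s2 c.d π.n π.lam π.z 0 0)).trans key4
    have r2 := abs_le.1 (r1.trans k6)
    have r3 := Z.mi 0
    rw [Complex.sub_im] at r2
    linarith [r2.1]
  · have r1 := Z.md 0
    have r2 : ‖gb ν c.d π‖ ≤ ‖gb ν c.d π - MM ν s2 c.d π.n π.lam π.z 0 0‖ +
        ‖MM ν s2 c.d π.n π.lam π.z 0 0‖ := by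
      have := norm_add_le (gb ν c.d π - MM ν s2 c.d π.n π.lam π.z 0 0)
        (MM ν s2 c.d π.n π.lam π.z 0 0)
      rwa [sub_add_cancel] at this
    have r3 : (1 : ℝ) ≤ π.lam ^ (-c.t) := Real.one_le_rpow_of_pos_of_le_one_of_nonpos L0 L1
      (by linarith)
    have r4 := h5 _ L0 m5
    linarith

end Pool.Agent.BK3
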