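import Pool.Agent.BK3.LvI
import Pool.Agent.BK3.FBd

/-! BK3 module Top: the start of the continuity argument, `η = κ/2`. Then `|G| ≤ 2/κ`, `∑_y |G_wy|² ≤ (2/κ)²`,
`G4 ≤ (2/κ)⁴`, `lm ≤ (2/κ)²`, and for potentials in the box `G - M0 = -lam G V M0`, `M0 = (H0 - z)⁻¹`, so
`|G_xx - (M0)_xx| ≤ lam R (2/κ)²` and `|G_xx - g| ≤ 2 lam R (2/κ)²`. The bases are `T1 ≤ C lam^(4y)`,
`T2 ≤ C lam^(2y+e)`, `T3 ≤ C lam^(2+e/4)`, all `≤ C lam^(3e)`, the number of terms is `≤ 3 lam^(-86d)` and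
`3 e p ≥ 30000 d`, so `F ≤ 1`. `Im g ≥ Im (M0)_00 - 2 lam R (2/κ)² ≥ κ - ..` by `FreeC.im` at `ζ = z`. -/

open MeasureTheory Finset Matrix Pool.Agent.BK

noncomputable section

namespace Pool.Agent.BK3

variable {ν : Measure ℝ} {R s2 : ℝ}

lemma top_l2 {X : Type} [Fintype X] [DecidableEq X] {H : Matrix X X ℂ} (hH : RS H) (v : X → ℝ)
    {z : ℂ} (hz : 0 < z.im) {Q : ℝ} (hQ : 1 / z.im ≤ Q) (w : X) :
    ∑ y, ‖Gr H v z w y‖ ^ 2 ≤ Q ^ 2 := by
  rw [ward hH v hz w]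
  have h1 : (Gr H v z w w).im ≤ 1 / z.im :=
    ((le_abs_self _).trans (Complex.abs_im_le_norm _)).trans (norm_Gr_le hH v hz w w)
  have h0 : 0 < 1 / z.im := by positivity
  have hQ0 : 0 ≤ Q := by linarith
  calc (Gr H v z w w).im / z.im = (Gr H v z w w).im * (1 / z.im) := by ring
    _ ≤ (1 / z.im) * (1 / z.im) := by gcongr
    _ ≤ Q * Q := by gcongr
    _ = Q ^ 2 := by ring

lemma top_G4 {X : Type} [Fintype X] [DecidableEq X] {H : Matrix X X ℂ} (hH : RS H) (v : X → ℝ)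
    {z : ℂ} (hz : 0 < z.im) {Q : ℝ} (hQ : 1 / z.im ≤ Q) (w : X) :
    G4 (Gr H v z) w ≤ Q ^ 4 := by
  have h0 : 0 < 1 / z.im := by positivity
  have hQ0 : 0 < Q := by linarith
  unfold G4
  calc ∑ y, ‖Gr H v z w y‖ ^ 4 ≤ ∑ y, Q ^ 2 * ‖Gr H v z w y‖ ^ 2 := by
        refine Finset.sum_le_sum fun y _ => ?_
        have h1 := (norm_Gr_le hH v hz w y).trans hQ
        calc ‖Gr H v z w y‖ ^ 4 = ‖Gr H v z w y‖ ^ 2 * ‖Gr H v z w y‖ ^ 2 := by ring
          _ ≤ Q ^ 2 * ‖Gr H v z w y‖ ^ 2 := by gcongr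
    _ = Q ^ 2 * ∑ y, ‖Gr H v z w y‖ ^ 2 := by rw [Finset.mul_sum]
    _ ≤ Q ^ 2 * Q ^ 2 := by
        have := top_l2 hH v hz hQ w
        gcongr
    _ = Q ^ 4 := by ring

lemma top_lm {X : Type} [Fintype X] [DecidableEq X] {H : Matrix X X ℂ} (hH : RS H) (v : X → ℝ)
    {z : ℂ} (hz : 0 < z.im) {Q : ℝ} (hQ : 1 / z.im ≤ Q) {φ : X → X → ℝ}
    (hφ : ∀ x y, 0 ≤ φ x y ∧ φ x y ≤ 1) (w y : X) :
    lm φ (Gr H v z) w y ≤ Q ^ 2 := by
  refine le_trans ?_ (top_l2 hH v hz hQ w)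
  unfold lm
  refine Finset.sum_le_sum fun x _ => ?_
  calc φ y x * ‖Gr H v z w x‖ ^ 2 ≤ 1 * ‖Gr H v z w x‖ ^ 2 := by
        have := (hφ y x).2
        gcongr
    _ = _ := one_mul _

lemma top_diff {X : Type} [Fintype X] [DecidableEq X] {H : Matrix X X ℂ} (hH : RS H) {v : X → ℝ}
    {z : ℂ} (hz : 0 < z.im) {Q : ℝ} (hQ : 1 / z.im ≤ Q) {D : ℝ} (hv : ∀ x, |v x| ≤ D) (x : X) :
    ‖Gr H v z x x - Gr H 0 z x x‖ ≤ D * Q ^ 2 := by
  have hD : 0 ≤ D := (abs_nonneg _).trans (hv x)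
  have h := congrFun (congrFun (Gr_expand hH v (ζ := z) hz.ne' hz.ne') x) x
  rw [Matrix.sub_apply, Matrix.mul_apply] at h
  rw [h]
  simp only [Matrix.mul_diagonal]
  have h1 : ∀ y, ‖Gr H 0 z x y * (z - z - (v y : ℂ)) * Gr H v z y x‖ ≤
      D * ((‖Gr H 0 z x y‖ ^ 2 + ‖Gr H v z x y‖ ^ 2) / 2) := by
    intro y
    rw [Gr_symm hH v hz.ne' y x, norm_mul, norm_mul, sub_self, zero_sub, norm_neg,
      Complex.norm_real, Real.norm_eq_abs]
    calc ‖Gr H 0 z x y‖ * |v y| * ‖Gr H v z x y‖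
        = |v y| * (‖Gr H 0 z x y‖ * ‖Gr H v z x y‖) := by ring
      _ ≤ D * ((‖Gr H 0 z x y‖ ^ 2 + ‖Gr H v z x y‖ ^ 2) / 2) := by
          have h2 : ‖Gr H 0 z x y‖ * ‖Gr H v z x y‖ ≤
              (‖Gr H 0 z x y‖ ^ 2 + ‖Gr H v z x y‖ ^ 2) / 2 := by
            nlinarith [sq_nonneg (‖Gr H 0 z x y‖ - ‖Gr H v z x y‖)]
          have := hv y
          gcongr
  refine (norm_sum_le _ _).trans ((Finset.sum_le_sum fun y _ => h1 y).trans ?_)
  rw [← Finset.mul_sum, ← Finset.sum_div, Finset.sum_add_distrib]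
  have h3 := top_l2 hH 0 hz hQ x
  have h4 := top_l2 hH v hz hQ x
  have h5 : (∑ y, ‖Gr H 0 z x y‖ ^ 2 + ∑ y, ‖Gr H v z x y‖ ^ 2) / 2 ≤ Q ^ 2 := by linarith
  gcongr

theorem top_F (hν : BLaw ν R s2) (c : Cx) (hc : c.Ok) :
    ∃ lam1 : ℝ, 0 < lam1 ∧ lam1 ≤ 1 ∧ ∀ π ∈ c.PT lam1, π.eta = c.κ / 2 →
      (∀ V ∈ Box (Tor c.d π.n) R, c.F ν π V ≤ 1) ∧ c.κ / 2 ≤ (gb ν c.d π).im := by
  have hκ := hc.free.kap
  have hκ1 := hc.free.kap1
  have hR := hν.R_ge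
  have he := hc.e0
  have hy0 := hc.y0
  have hylt := y_lt c hc
  set Q : ℝ := 2 / c.κ with hQ
  have hQ2 : 2 ≤ Q := by rw [hQ, le_div_iff₀ hκ]; linarith
  have hQ0 : 0 < Q := by linarith
  obtain ⟨l1, hl10, hl11, hl1⟩ := sm_le (2 * R * Q ^ 4) (show 2 * c.e < 3 * c.e by linarith)
  obtain ⟨l2, hl20, hl21, hl2⟩ := sm_neg ((c.κ / 2) ^ (-(10 : ℝ))) (show (0 : ℝ) < 40 by norm_num)
  set l3 : ℝ := c.κ / (2 * R * Q ^ 2) with hl3
  have hl30 : 0 < l3 := by positivity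
  refine ⟨min (1 / 4) (min l1 (min l2 l3)), by positivity, (min_le_left _ _).trans (by norm_num), ?_⟩
  intro π hπ hη
  have h0 : 0 < π.lam := hπ.1
  have hq : π.lam ≤ 1 / 4 := hπ.2.1.trans (min_le_left _ _)
  have hq1 : π.lam ≤ l1 := hπ.2.1.trans ((min_le_right _ _).trans (min_le_left _ _))
  have hq2 : π.lam ≤ l2 :=
    hπ.2.1.trans ((min_le_right _ _).trans ((min_le_right _ _).trans (min_le_left _ _)))
  have hq3 : π.lam ≤ l3 :=
    hπ.2.1.trans ((min_le_right _ _).trans ((min_le_right _ _).trans (min_le_right _ _)))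
  have hle : π.lam ≤ 1 := by linarith
  have hz : 0 < π.z.im := by
    change 0 < π.eta
    rw [hη]; linarith
  have hzQ : 1 / π.z.im ≤ Q := by
    change 1 / π.eta ≤ Q
    rw [hη, hQ, one_div_div]
  have hH := RS_H0 c.d π.n
  have := hν.prob
  -- the free Green function
  have hfree : c.κ ≤ (Gr (H0 c.d π.n) 0 π.z 0 0).im := by
    refine hc.free.im π.z π.n ?_ ?_ hz ?_ ?_ 0
    · exact hc.wlo.le.trans hπ.2.2.2.2.1
    · exact hπ.2.2.2.2.2.1.trans hc.whi.le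
    · change π.eta ≤ c.κ
      rw [hη]; linarith
    · change π.eta ^ (-(10 : ℝ)) ≤ _
      rw [hη]
      exact (hl2 π.lam h0 hq2).trans hπ.2.2.1
  have hbox : ∀ V ∈ Box (Tor c.d π.n) R, ∀ x, |π.lam * V x| ≤ π.lam * R := by
    intro V hV x
    rw [abs_mul, abs_of_pos h0]
    have := abs_le.2 (hV x)
    gcongr
  have hdiff : ∀ V ∈ Box (Tor c.d π.n) R, ∀ x,
      ‖GG c.d π.n π.lam π.z V x x - Gr (H0 c.d π.n) 0 π.z x x‖ ≤ π.lam * R * Q ^ 2 :=
    fun V hV x => top_diff hH hz hzQ (hbox V hV) x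
  have hcont : ∀ x, Continuous fun V : Tor c.d π.n → ℝ => GG c.d π.n π.lam π.z V x x := fun x =>
    (continuous_Gr hH π.lam hz.ne').matrix_elem x x
  have hg : ∀ x, ‖gb ν c.d π - Gr (H0 c.d π.n) 0 π.z x x‖ ≤ π.lam * R * Q ^ 2 := by
    intro x
    have h1 : gb ν c.d π = Ex ν (fun V : Tor c.d π.n → ℝ => GG c.d π.n π.lam π.z V x x) :=
      (Ex_diag ν π.lam π.z x).symm
    have h2 : gb ν c.d π - Gr (H0 c.d π.n) 0 π.z x x =
        Ex ν (fun V : Tor c.d π.n → ℝ =>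
          GG c.d π.n π.lam π.z V x x - Gr (H0 c.d π.n) 0 π.z x x) := by
      rw [h1]
      unfold Ex
      rw [integral_sub (int_cont hν (hcont x)) (integrable_const _)]
      simp
    rw [h2]
    refine (norm_Ex_le hν (G := fun _ => π.lam * R * Q ^ 2) ((hcont x).sub continuous_const)
      continuous_const (fun V hV => hdiff V hV x)).trans ?_
    rw [Ex_one hν]
  constructor
  · intro V hV
    have h4 : 0 < c.b4 π.lam := rp_pos h0 _
    have h2 : 0 < c.b2 π.lam := rp_pos h0 _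
    have h3 : 0 < c.b3 π.lam := rp_pos h0 _
    have hφ : ∀ x y : Tor c.d π.n, 0 ≤ ph2 (c.rw π.lam) x y ∧ ph2 (c.rw π.lam) x y ≤ 1 := by
      intro x y
      have h5 : 0 < c.rw π.lam := rp_pos h0 _
      refine ⟨(Real.exp_pos _).le, ?_⟩
      unfold ph2 phi
      rw [Real.exp_le_one_iff]
      have h6 : 0 ≤ ∑ l, |(((y - x) l).valMinAbs : ℝ)| := Finset.sum_nonneg fun _ _ => abs_nonneg _
      rw [neg_div]
      have := div_nonneg h6 h5.le
      linarith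
    have hsm := hl1 π.lam h0 hq1
    have hmain : ∀ {a : ℝ}, 3 * c.e ≤ a → 2 * R * Q ^ 4 * π.lam ^ a ≤ π.lam ^ (2 * c.e) := by
      intro a ha
      refine le_trans ?_ hsm
      have := rp_anti h0 hle ha
      gcongr
    have t4 : ∀ w, G4 (GG c.d π.n π.lam π.z V) w / c.b4 π.lam ≤ π.lam ^ (2 * c.e) := by
      intro w
      have h5 := top_G4 hH (fun x => π.lam * V x) hz hzQ w
      have h6 : (c.b4 π.lam)⁻¹ = π.lam ^ (4 * c.y) := by
        unfold Cx.b4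
        rw [← Real.rpow_neg h0.le, neg_neg]
      rw [div_eq_mul_inv, h6]
      have h7 := rp_pos h0 (4 * c.y)
      calc G4 (GG c.d π.n π.lam π.z V) w * π.lam ^ (4 * c.y) ≤ Q ^ 4 * π.lam ^ (4 * c.y) := by
            have h8 : G4 (GG c.d π.n π.lam π.z V) w ≤ Q ^ 4 := h5
            gcongr
        _ ≤ 2 * R * Q ^ 4 * π.lam ^ (4 * c.y) := by
            apply mul_le_mul_of_nonneg_right _ h7.le
            have : 0 < Q ^ 4 := by positivity
            nlinarith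
        _ ≤ _ := hmain (by unfold Cx.y; linarith)
    have t2 : ∀ x, ‖GG c.d π.n π.lam π.z V x x - gb ν c.d π‖ / c.b2 π.lam ≤
        π.lam ^ (2 * c.e) := by
      intro x
      have h5 : ‖GG c.d π.n π.lam π.z V x x - gb ν c.d π‖ ≤ 2 * (π.lam * R * Q ^ 2) := by
        have h6 : GG c.d π.n π.lam π.z V x x - gb ν c.d π =
            (GG c.d π.n π.lam π.z V x x - Gr (H0 c.d π.n) 0 π.z x x) -
              (gb ν c.d π - Gr (H0 c.d π.n) 0 π.z x x) := by ring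
        rw [h6]
        refine (norm_sub_le _ _).trans ?_
        linarith [hdiff V hV x, hg x]
      have h6 : π.lam * (c.b2 π.lam)⁻¹ = π.lam ^ (2 * c.y + c.e) := by
        unfold Cx.b2
        rw [← Real.rpow_neg h0.le]
        nth_rw 1 [← Real.rpow_one π.lam]
        rw [← Real.rpow_add h0]
        congr 1
        ring
      rw [div_eq_mul_inv]
      have h7 := rp_pos h0 (2 * c.y + c.e)
      have h8 : 0 < (c.b2 π.lam)⁻¹ := inv_pos.2 h2
      calc ‖GG c.d π.n π.lam π.z V x x - gb ν c.d π‖ * (c.b2 π.lam)⁻¹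
          ≤ 2 * (π.lam * R * Q ^ 2) * (c.b2 π.lam)⁻¹ := by gcongr
        _ = 2 * R * Q ^ 2 * (π.lam * (c.b2 π.lam)⁻¹) := by ring
        _ = 2 * R * Q ^ 2 * π.lam ^ (2 * c.y + c.e) := by rw [h6]
        _ ≤ 2 * R * Q ^ 4 * π.lam ^ (2 * c.y + c.e) := by
            have h9 : Q ^ 2 ≤ Q ^ 4 := pow_le_pow_right₀ (by linarith) (by norm_num)
            gcongr
        _ ≤ _ := hmain (by unfold Cx.y; linarith)
    have t3 : ∀ w y, lm (ph2 (c.rw π.lam)) (GG c.d π.n π.lam π.z V) w y / c.b3 π.lam ≤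
        π.lam ^ (2 * c.e) := by
      intro w y
      have h5 : lm (ph2 (c.rw π.lam)) (GG c.d π.n π.lam π.z V) w y ≤ Q ^ 2 :=
        top_lm hH (fun x => π.lam * V x) hz hzQ hφ w y
      have h6 : (c.b3 π.lam)⁻¹ = π.lam ^ (2 + c.e / 4) := by
        unfold Cx.b3
        rw [← Real.rpow_neg h0.le]
        congr 1
        ring
      rw [div_eq_mul_inv, h6]
      have h7 := rp_pos h0 (2 + c.e / 4)
      calc lm (ph2 (c.rw π.lam)) (GG c.d π.n π.lam π.z V) w y * π.lam ^ (2 + c.e / 4)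
          ≤ Q ^ 2 * π.lam ^ (2 + c.e / 4) := by gcongr
        _ ≤ 2 * R * Q ^ 4 * π.lam ^ (2 + c.e / 4) := by
            apply mul_le_mul_of_nonneg_right _ h7.le
            have h9 : Q ^ 2 ≤ Q ^ 4 := pow_le_pow_right₀ (by linarith) (by norm_num)
            have : 0 < Q ^ 4 := by positivity
            nlinarith
        _ ≤ _ := hmain (by linarith)
    have hs : 0 ≤ π.lam ^ (2 * c.e) := (rp_pos h0 _).le
    refine (fbd_le (ph2 (c.rw π.lam)) (fun x y => (hφ x y).1) h4 h2 h3 hs t4 t2 t3 c.p).trans ?_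
    refine (fbd_small (d := c.d) h0 hq (Nat.cast_nonneg _) (card_tor_le hπ) hs le_rfl ?_).le
    have h5 := hc.pp
    have h6 : (3 : ℝ) ≤ c.d := by exact_mod_cast hc.d3
    nlinarith
  · have h1 := hg 0
    have h2 : (Gr (H0 c.d π.n) 0 π.z 0 0).im - (gb ν c.d π).im ≤ π.lam * R * Q ^ 2 := by
      rw [← Complex.sub_im]
      refine ((le_abs_self _).trans (Complex.abs_im_le_norm _)).trans ?_
      rwa [norm_sub_rev]
    have h3 : π.lam * R * Q ^ 2 ≤ c.κ / 2 := by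
      calc π.lam * R * Q ^ 2 ≤ l3 * R * Q ^ 2 := by gcongr
        _ = c.κ / 2 := by
            rw [hl3]
            have : R ≠ 0 := by linarith
            field_simp
    linarith

end Pool.Agent.BK3
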