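import Pool.Agent.BK3.Clos
import Pool.Agent.BK3.Lip
import Pool.Agent.BK3.Top
import Pool.Agent.BK3.MeanG

/-! BK3 module Grid: the continuity argument in `η`: all parameters are good. Fix `lam, n, E`, let
`δ = lam^K` (`lip_F`), `D1 = D0 + K + 1` (`clos`, `meang` for the parameters in `c.S ν lam1`). Claim(m): for all
`η ∈ [lam^A, κ/2]` with `κ/2 - η ≤ m δ`: `P(F_η > 1) ≤ m lam^D1` and `Im g_η ≥ κ/2`.
Claim(0): `top_F` (`box_ae`). Claim(m) → Claim(m+1): put `η' = min(κ/2, η+δ)`; `F_η > 2` implies `F_η' > 1`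
(`lip_F`), so `P(F_η > 2) ≤ m lam^D1 ≤ lam^D0` as long as `m ≤ lam^(-K-1)`, and `Im g_η ≥ κ/2 - κ/4`: so `π_η ∈ c.S`.
`clos`: `P(1 ≤ F_η ≤ 2) ≤ lam^D1`, so `P(F_η > 1) ≤ (m+1) lam^D1`; `meang`: `Im g_η ≥ κ/2`.
The number of steps is `≤ κ/(2δ) + 1 ≤ lam^(-K-1)`. -/

open MeasureTheory Finset Matrix Pool.Agent.BK

noncomputable section

namespace Pool.Agent.BK3

variable {ν : Measure ℝ} {R s2 : ℝ}

theorem grid (hν : BLaw ν R s2) (c : Cx) (hc : c.Ok) :
    ∃ lam1 : ℝ, 0 < lam1 ∧ lam1 ≤ 1 ∧ ∀ π ∈ c.PT lam1, π ∈ c.S ν lam1 := by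
  have hκ := hc.free.kap
  have hκ1 := hc.free.kap1
  obtain ⟨K, l1, hK, hl10, hl11, hl1⟩ := lip_F hν c hc
  obtain ⟨l2, hl20, hl21, hl2⟩ := clos hν c hc (c.D0 + K + 1)
  obtain ⟨l3, hl30, hl31, hl3⟩ := meang hν c hc
  obtain ⟨l4, hl40, hl41, hl4⟩ := top_F hν c hc
  set l : ℝ := min (1 / 4) (min l1 (min l2 (min l3 l4))) with hl
  have hlq : l ≤ 1 / 4 := min_le_left _ _
  have hll1 : l ≤ l1 := (min_le_right _ _).trans (min_le_left _ _)
  have hll2 : l ≤ l2 := (min_le_right _ _).trans ((min_le_right _ _).trans (min_le_left _ _))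
  have hll3 : l ≤ l3 := (min_le_right _ _).trans ((min_le_right _ _).trans
    ((min_le_right _ _).trans (min_le_left _ _)))
  have hll4 : l ≤ l4 := (min_le_right _ _).trans ((min_le_right _ _).trans
    ((min_le_right _ _).trans (min_le_right _ _)))
  refine ⟨l, by positivity, hlq.trans (by norm_num), ?_⟩
  have := hν.prob
  -- the claim
  have claim : ∀ (lam E : ℝ) (n m : ℕ), (m : ℝ) * lam ^ (K + 1) ≤ 1 → ∀ η : ℝ,
      (⟨lam, n, E, η⟩ : Par) ∈ c.PT l → c.κ / 2 - η ≤ m * lam ^ K →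
      ((Measure.pi fun _ : Tor c.d n => ν) {V | 1 < c.F ν ⟨lam, n, E, η⟩ V}).toReal ≤
        m * lam ^ (c.D0 + K + 1) ∧ c.κ / 2 ≤ (gb ν c.d ⟨lam, n, E, η⟩).im := by
    intro lam E n m
    induction m with
    | zero =>
      intro _ η hπ hη
      have h1 : η = c.κ / 2 := by
        have h2 : η ≤ c.κ / 2 := hπ.2.2.2.2.2.2.2
        rw [Nat.cast_zero, zero_mul] at hη
        linarith
      obtain ⟨h2, h3⟩ := hl4 ⟨lam, n, E, η⟩ (c.PT_mono hll4 hπ) h1
      refine ⟨?_, h3⟩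
      have h4 : (Measure.pi fun _ : Tor c.d n => ν) {V | 1 < c.F ν ⟨lam, n, E, η⟩ V} = 0 := by
        rw [← nonpos_iff_eq_zero, ← measure_empty (μ := Measure.pi fun _ : Tor c.d n => ν)]
        refine measure_mono_ae ?_
        filter_upwards [box_ae (X := Tor c.d n) hν] with V hV hV2
        exact absurd (h2 V hV) (not_le.2 hV2)
      rw [h4]
      simp
    | succ m ih =>
      intro hm η hπ hη
      have h0 : 0 < lam := hπ.1
      have hle : lam ≤ 1 / 4 := hπ.2.1.trans hlq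
      have hδ : 0 < lam ^ K := rp_pos h0 K
      have hm' : (m : ℝ) * lam ^ (K + 1) ≤ 1 := by
        refine le_trans ?_ hm
        have := (rp_pos h0 (K + 1)).le
        push_cast
        nlinarith
      have hηlo : lam ^ c.A ≤ η := hπ.2.2.2.2.2.2.1
      have hηhi : η ≤ c.κ / 2 := hπ.2.2.2.2.2.2.2
      set η' : ℝ := min (c.κ / 2) (η + lam ^ K) with hη'
      have hηη' : η ≤ η' := le_min hηhi (by linarith)
      have hπ' : (⟨lam, n, E, η'⟩ : Par) ∈ c.PT l :=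
        ⟨hπ.1, hπ.2.1, hπ.2.2.1, hπ.2.2.2.1, hπ.2.2.2.2.1, hπ.2.2.2.2.2.1, hηlo.trans hηη',
          min_le_left _ _⟩
      have hd : |η - η'| ≤ lam ^ K := by
        rw [abs_sub_comm, abs_of_nonneg (by linarith)]
        have : η' ≤ η + lam ^ K := min_le_right _ _
        linarith
      have hd2 : c.κ / 2 - η' ≤ m * lam ^ K := by
        rcases min_choice (c.κ / 2) (η + lam ^ K) with h | h
        · rw [hη', h]
          have : 0 ≤ (m : ℝ) * lam ^ K := by positivity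
          linarith
        · rw [hη', h]
          push_cast at hη
          linarith
      obtain ⟨i1, i2⟩ := ih hm' η' hπ' hd2
      obtain ⟨f1, f2⟩ := hl1 lam E η η' n (c.PT_mono hll1 hπ) (c.PT_mono hll1 hπ') hd
      have j1 : ((Measure.pi fun _ : Tor c.d n => ν) {V | 2 < c.F ν ⟨lam, n, E, η⟩ V}).toReal ≤
          m * lam ^ (c.D0 + K + 1) := by
        refine le_trans (ENNReal.toReal_mono (measure_ne_top _ _) (measure_mono ?_)) i1
        intro V hV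
        have h1 := (abs_le.1 (f1 V)).2
        have h2 : 2 < c.F ν ⟨lam, n, E, η⟩ V := hV
        change 1 < c.F ν ⟨lam, n, E, η'⟩ V
        linarith
      have j2 : (m : ℝ) * lam ^ (c.D0 + K + 1) ≤ lam ^ c.D0 := by
        have h1 : lam ^ (c.D0 + K + 1) = lam ^ (K + 1) * lam ^ c.D0 := by
          rw [← Real.rpow_add h0]; congr 1; ring
        rw [h1, ← mul_assoc]
        have := rp_pos h0 c.D0
        calc (m : ℝ) * lam ^ (K + 1) * lam ^ c.D0 ≤ 1 * lam ^ c.D0 := by gcongr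
          _ = lam ^ c.D0 := one_mul _
      have j3 : c.κ / 4 ≤ (gb ν c.d ⟨lam, n, E, η⟩).im := by
        have h1 : (gb ν c.d ⟨lam, n, E, η'⟩).im - (gb ν c.d ⟨lam, n, E, η⟩).im ≤ c.κ / 4 := by
          rw [← Complex.sub_im]
          refine ((le_abs_self _).trans (Complex.abs_im_le_norm _)).trans ?_
          rwa [norm_sub_rev]
        linarith
      have hS : (⟨lam, n, E, η⟩ : Par) ∈ c.S ν l := ⟨hπ, j1.trans j2, j3⟩
      have hS2 := c.S_mono ν hll2 hS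
      have hS3 := c.S_mono ν hll3 hS
      refine ⟨?_, (hl3 _ hS3).2.1⟩
      have k1 := hl2 _ hS2
      change ((Measure.pi fun _ : Tor c.d n => ν) {V | 1 ≤ c.F ν ⟨lam, n, E, η⟩ V ∧
        c.F ν ⟨lam, n, E, η⟩ V ≤ 2}).toReal ≤ lam ^ (c.D0 + K + 1) at k1
      have hsub : {V : Tor c.d n → ℝ | 1 < c.F ν ⟨lam, n, E, η⟩ V} ⊆
          {V | 2 < c.F ν ⟨lam, n, E, η⟩ V} ∪ {V | 1 ≤ c.F ν ⟨lam, n, E, η⟩ V ∧
            c.F ν ⟨lam, n, E, η⟩ V ≤ 2} := by
        intro V hV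
        have h1 : 1 < c.F ν ⟨lam, n, E, η⟩ V := hV
        rcases lt_or_ge 2 (c.F ν ⟨lam, n, E, η⟩ V) with h | h
        · exact Or.inl h
        · exact Or.inr ⟨h1.le, h⟩
      calc ((Measure.pi fun _ : Tor c.d n => ν) {V | 1 < c.F ν ⟨lam, n, E, η⟩ V}).toReal
          ≤ ((Measure.pi fun _ : Tor c.d n => ν) {V | 2 < c.F ν ⟨lam, n, E, η⟩ V} +
              (Measure.pi fun _ : Tor c.d n => ν) {V | 1 ≤ c.F ν ⟨lam, n, E, η⟩ V ∧
                c.F ν ⟨lam, n, E, η⟩ V ≤ 2}).toReal := by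
            refine ENNReal.toReal_mono (by simp) ?_
            exact (measure_mono hsub).trans (measure_union_le _ _)
        _ = _ := ENNReal.toReal_add (measure_ne_top _ _) (measure_ne_top _ _)
        _ ≤ m * lam ^ (c.D0 + K + 1) + lam ^ (c.D0 + K + 1) := add_le_add j1 k1
        _ = ((m + 1 : ℕ) : ℝ) * lam ^ (c.D0 + K + 1) := by push_cast; ring
  intro π hπ
  obtain ⟨lam, n, E, η⟩ := π
  have h0 : 0 < lam := hπ.1
  have hle : lam ≤ 1 / 4 := hπ.2.1.trans hlq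
  have hηlo : lam ^ c.A ≤ η := hπ.2.2.2.2.2.2.1
  have hη0 : 0 < η := (rp_pos h0 _).trans_le hηlo
  have hδ : 0 < lam ^ K := rp_pos h0 K
  have hδ1 : lam ^ K ≤ 1 := Real.rpow_le_one h0.le (by linarith) hK.le
  set m : ℕ := ⌈c.κ / 2 / lam ^ K⌉₊ with hm
  have hm1 : (m : ℝ) < c.κ / 2 / lam ^ K + 1 := Nat.ceil_lt_add_one (by positivity)
  have hm2 : c.κ / 2 / lam ^ K ≤ m := Nat.le_ceil _
  have hm3 : (m : ℝ) * lam ^ (K + 1) ≤ 1 := by
    rw [Real.rpow_add h0, Real.rpow_one]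
    have h1 : (m : ℝ) * lam ^ K ≤ c.κ / 2 + lam ^ K := by
      calc (m : ℝ) * lam ^ K ≤ (c.κ / 2 / lam ^ K + 1) * lam ^ K := by gcongr
        _ = c.κ / 2 + lam ^ K := by field_simp
    calc (m : ℝ) * (lam ^ K * lam) = (m * lam ^ K) * lam := by ring
      _ ≤ (c.κ / 2 + lam ^ K) * (1 / 4) := by gcongr
      _ ≤ 1 := by linarith
  obtain ⟨r1, r2⟩ := claim lam E n m hm3 η hπ (by
    rw [div_le_iff₀ hδ] at hm2
    linarith)
  refine ⟨hπ, ?_, by linarith⟩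
  refine le_trans (ENNReal.toReal_mono (measure_ne_top _ _) (measure_mono ?_)) (r1.trans ?_)
  · intro V hV
    have h2 : 2 < c.F ν ⟨lam, n, E, η⟩ V := hV
    change 1 < c.F ν ⟨lam, n, E, η⟩ V
    linarith
  · change (m : ℝ) * lam ^ (c.D0 + K + 1) ≤ lam ^ c.D0
    have h1 : lam ^ (c.D0 + K + 1) = lam ^ (K + 1) * lam ^ c.D0 := by
      rw [← Real.rpow_add h0]; congr 1; ring
    rw [h1, ← mul_assoc]
    have := rp_pos h0 c.D0
    calc (m : ℝ) * lam ^ (K + 1) * lam ^ c.D0 ≤ 1 * lam ^ c.D0 := by gcongr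
      _ = lam ^ c.D0 := one_mul _

end Pool.Agent.BK3
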