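import Pool.Agent.BK3.LvDefs

/-! BK3 module LvA: the first expansion at one site `a`. `u` unimodular, `r = N Gᴴ` (`rr`),
`h = (tw u G)_xa r_ax`, `P = (tw u G)_xa conj(G_xa)`, `Δ = V_a - t`, superscript `t`: `V_a` replaced by `t`.
`E[K_a h] - lam² s2 E[P r_aa]` is small. Exact computation: `h - h^t = (twG_xa - twG^t_xa) r_ax +
twG^t_xa (r_ax - r^t_ax) = -lam Δ G^t_aa h - lam Δ twG^t_xa conj(G_xa) r^t_aa` (`one_id'`, `one_r'`), so by `exch1`
`-lam E V_a h = lam² E ∫ V_a Δ (G^t_aa h + twG^t_xa conj(G_xa) r^t_aa)`, and with `∫ V_a Δ dν(t) = V_a²`, `exch2`: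
`E[K_a h] = E ∫ lam² V_a Δ (G^t_aa - g) h + lam² g E ∫ (V_a² - s2)(h - h^t) + lam² E ∫ V_a Δ twG^t_xa conj(G_xa) r^t_aa`.
Third term: `= lam² E ∫ V_a Δ P r_aa + lam² E ∫ V_a Δ (twG^t_xa r^t_aa - twG_xa r_aa) conj(G_xa)`, and
`lam² E ∫ V_a Δ P r_aa = lam² E[V_a² P r_aa] = lam² s2 E[P r_aa] + lam² E ∫ (V_a² - s2) (P r_aa - (P r_aa)^t)` (`exch2`).
On `{χ ≠ 0}` (`2 R lam |G_aa| ≤ 1/2`): `|G^t_aa - g| ≤ b2 + 4 R lam Gd²`, `|G^t_aa| ≤ 2 Gd`,
`|G^t_xa| ≤ 2|G_xa|`, `|G^t_xa - G_xa| ≤ 4 R lam Gd |G_xa|`, `|r^t_aa| ≤ 2 |r_aa|`,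
`|r^t_aa - r_aa| ≤ 4 R lam Gd |r_aa|`; this gives the bound (a) `C kap |G_xa||r_ax|` and
(b) `C lam³ (Gd + |g|) |G_xa|² |r_aa|`. (For the terms `lam³ |g| Gd |h|`, note `lam³ Gd (Gd+|g|) ≤ kap`.)
In general everything is at most `C Kc^7` (`|G| ≤ Kc`, `|N| ≤ Kc`, `|r| ≤ Kc³`, `|g| ≤ Kc`, `lam ≤ 1`). -/

open MeasureTheory Finset Matrix Pool.Agent.BK

noncomputable section

namespace Pool.Agent.BK3

private theorem lva_lin {α : Type*} [MeasurableSpace α] {μ : Measure α} {f1 f2 f3 f4 : α → ℂ}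
    (h1 : Integrable f1 μ) (h2 : Integrable f2 μ) (h3 : Integrable f3 μ) (h4 : Integrable f4 μ)
    (c1 c2 c3 c4 : ℂ) (F : α → ℂ)
    (hF : ∀ x, F x = c1 * f1 x + c2 * f2 x + c3 * f3 x + c4 * f4 x) :
    ∫ x, F x ∂μ = c1 * ∫ x, f1 x ∂μ + c2 * ∫ x, f2 x ∂μ + c3 * ∫ x, f3 x ∂μ +
      c4 * ∫ x, f4 x ∂μ := by
  have e : F = fun x => c1 * f1 x + c2 * f2 x + c3 * f3 x + c4 * f4 x := funext hF
  have i1 := h1.const_mul c1
  have i2 := h2.const_mul c2
  have i3 := h3.const_mul c3
  have i4 := h4.const_mul c4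
  have i12 : Integrable (fun x => c1 * f1 x + c2 * f2 x) μ := i1.add i2
  have i123 : Integrable (fun x => c1 * f1 x + c2 * f2 x + c3 * f3 x) μ := i12.add i3
  rw [e, integral_add i123 i4, integral_add i12 i3, integral_add i1 i2, integral_const_mul,
    integral_const_mul, integral_const_mul, integral_const_mul]

private theorem lva_id {X : Type} [Fintype X] [DecidableEq X] {ν : Measure ℝ} {R s2 : ℝ}
    (hν : BLaw ν R s2) {h q : (X → ℝ) → ℂ} (hh : Continuous h) (hq : Continuous q) (lam : ℝ)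
    (g : ℂ) (a : X) :
    Ex ν (fun V : X → ℝ => (-((lam * V a : ℝ) : ℂ) - (lam ^ 2 * s2 : ℝ) * g) * h V) -
      (lam ^ 2 * s2 : ℝ) * Ex ν q =
    Ex ν (fun V : X → ℝ => ∫ t, (-(lam : ℂ) * ((V a : ℂ) * (h V - h (Function.update V a t))) +
      (lam ^ 2 * g) * (((V a ^ 2 - s2 : ℝ) : ℂ) * (h V - h (Function.update V a t))) +
      (lam ^ 2 : ℂ) * (((V a ^ 2 - s2 : ℝ) : ℂ) * (q V - q (Function.update V a t))) -
      (lam ^ 2 * V a * (g * h V + q V)) * ((V a : ℂ) - (t : ℂ))) ∂ν) := by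
  have hp := hν.prob
  have hVa : Continuous fun V : X → ℝ => (V a : ℂ) :=
    Complex.continuous_ofReal.comp (continuous_apply a)
  have hVs : Continuous fun V : X → ℝ => ((V a ^ 2 - s2 : ℝ) : ℂ) :=
    Complex.continuous_ofReal.comp (((continuous_apply a).pow 2).sub continuous_const)
  have ch : Continuous fun p : (X → ℝ) × ℝ => h (Function.update p.1 a p.2) :=
    continuous_upd hh a
  have cq : Continuous fun p : (X → ℝ) × ℝ => q (Function.update p.1 a p.2) :=
    continuous_upd hq a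
  have c1 : Continuous fun p : (X → ℝ) × ℝ => (p.1 a : ℂ) * (h p.1 -
      h (Function.update p.1 a p.2)) :=
    (hVa.comp continuous_fst).mul ((hh.comp continuous_fst).sub ch)
  have c2 : Continuous fun p : (X → ℝ) × ℝ => ((p.1 a ^ 2 - s2 : ℝ) : ℂ) * (h p.1 -
      h (Function.update p.1 a p.2)) :=
    (hVs.comp continuous_fst).mul ((hh.comp continuous_fst).sub ch)
  have c3 : Continuous fun p : (X → ℝ) × ℝ => ((p.1 a ^ 2 - s2 : ℝ) : ℂ) * (q p.1 -
      q (Function.update p.1 a p.2)) :=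
    (hVs.comp continuous_fst).mul ((hq.comp continuous_fst).sub cq)
  set J1 : (X → ℝ) → ℂ := fun V => ∫ t, (V a : ℂ) * (h V - h (Function.update V a t)) ∂ν with hJ1
  set J2 : (X → ℝ) → ℂ := fun V => ∫ t, ((V a ^ 2 - s2 : ℝ) : ℂ) *
    (h V - h (Function.update V a t)) ∂ν with hJ2
  set J3 : (X → ℝ) → ℂ := fun V => ∫ t, ((V a ^ 2 - s2 : ℝ) : ℂ) *
    (q V - q (Function.update V a t)) ∂ν with hJ3
  have k1 : Continuous J1 := cont_int hν (F := fun V t => (V a : ℂ) *
    (h V - h (Function.update V a t))) c1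
  have k2 : Continuous J2 := cont_int hν (F := fun V t => ((V a ^ 2 - s2 : ℝ) : ℂ) *
    (h V - h (Function.update V a t))) c2
  have k3 : Continuous J3 := cont_int hν (F := fun V t => ((V a ^ 2 - s2 : ℝ) : ℂ) *
    (q V - q (Function.update V a t))) c3
  have e1 : Ex ν (fun V => (V a : ℂ) * h V) = Ex ν J1 := exch1 hν hh a
  have e2 : Ex ν (fun V => ((V a ^ 2 - s2 : ℝ) : ℂ) * h V) = Ex ν J2 := exch2 hν hh a
  have e3 : Ex ν (fun V => ((V a ^ 2 - s2 : ℝ) : ℂ) * q V) = Ex ν J3 := exch2 hν hq a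
  have line : ∀ (V : X → ℝ) {f : (X → ℝ) × ℝ → ℂ}, Continuous f →
      Integrable (fun t => f (V, t)) ν := fun V f hf =>
    int_line hν (hf.comp (continuous_const.prodMk continuous_id))
  have e4 : ∀ V : X → ℝ, ∫ t, ((V a : ℂ) - (t : ℂ)) ∂ν = (V a : ℂ) := by
    intro V
    rw [integral_sub (integrable_const _) (int_line hν Complex.continuous_ofReal),
      integral_const, probReal_univ, one_smul]
    have : ∫ t, (t : ℂ) ∂ν = ((∫ t, t ∂ν : ℝ) : ℂ) := integral_ofReal
    rw [this, hν.mean, Complex.ofReal_zero, sub_zero]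
  have e5 : ∀ V : X → ℝ, ∫ t, (-(lam : ℂ) * ((V a : ℂ) * (h V - h (Function.update V a t))) +
      (lam ^ 2 * g) * (((V a ^ 2 - s2 : ℝ) : ℂ) * (h V - h (Function.update V a t))) +
      (lam ^ 2 : ℂ) * (((V a ^ 2 - s2 : ℝ) : ℂ) * (q V - q (Function.update V a t))) -
      (lam ^ 2 * V a * (g * h V + q V)) * ((V a : ℂ) - (t : ℂ))) ∂ν =
      -(lam : ℂ) * J1 V + (lam ^ 2 * g) * J2 V + (lam ^ 2 : ℂ) * J3 V -
        (lam ^ 2 * V a * (g * h V + q V)) * (V a : ℂ) := by
    intro V
    have i4 : Integrable (fun t : ℝ => (V a : ℂ) - (t : ℂ)) ν :=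
      (integrable_const _).sub (int_line hν Complex.continuous_ofReal)
    have j1 : Integrable (fun t => (V a : ℂ) * (h V - h (Function.update V a t))) ν := line V c1
    have j2 : Integrable (fun t => ((V a ^ 2 - s2 : ℝ) : ℂ) *
      (h V - h (Function.update V a t))) ν := line V c2
    have j3 : Integrable (fun t => ((V a ^ 2 - s2 : ℝ) : ℂ) *
      (q V - q (Function.update V a t))) ν := line V c3
    rw [lva_lin j1 j2 j3 i4 (-(lam : ℂ)) (lam ^ 2 * g) (lam ^ 2 : ℂ)
      (-(lam ^ 2 * V a * (g * h V + q V))) _ (fun t => by ring), e4]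
    rw [hJ1, hJ2, hJ3]
    ring
  simp only [e5]
  -- now everything is linear
  have m : ∀ {f : (X → ℝ) → ℂ}, Continuous f → Integrable f (Measure.pi fun _ : X => ν) :=
    fun hf => int_cont hν hf
  have E1 : Ex ν (fun V => -(lam : ℂ) * J1 V + (lam ^ 2 * g) * J2 V + (lam ^ 2 : ℂ) * J3 V -
        (lam ^ 2 * V a * (g * h V + q V)) * (V a : ℂ)) =
      -(lam : ℂ) * Ex ν J1 + (lam ^ 2 * g) * Ex ν J2 + (lam ^ 2 : ℂ) * Ex ν J3 -
        Ex ν (fun V => (lam ^ 2 * V a * (g * h V + q V)) * (V a : ℂ)) := by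
    have i4 : Integrable (fun V : X → ℝ => (lam ^ 2 * V a * (g * h V + q V)) * (V a : ℂ))
        (Measure.pi fun _ : X => ν) :=
      m (((continuous_const.mul hVa).mul ((continuous_const.mul hh).add hq)).mul hVa)
    unfold Ex
    rw [lva_lin (m k1) (m k2) (m k3) i4 (-(lam : ℂ)) (lam ^ 2 * g) (lam ^ 2 : ℂ) (-1) _
      (fun V => by ring)]
    ring
  rw [E1, ← e1, ← e2, ← e3]
  unfold Ex
  have iq := m hq
  have ih := m hh
  have iVh : Integrable (fun V : X → ℝ => (V a : ℂ) * h V) (Measure.pi fun _ : X => ν) :=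
    m (hVa.mul hh)
  have iV2h : Integrable (fun V : X → ℝ => ((V a ^ 2 - s2 : ℝ) : ℂ) * h V)
    (Measure.pi fun _ : X => ν) := m (hVs.mul hh)
  have iV2q : Integrable (fun V : X → ℝ => ((V a ^ 2 - s2 : ℝ) : ℂ) * q V)
    (Measure.pi fun _ : X => ν) := m (hVs.mul hq)
  have E2 : ∫ V : X → ℝ, (lam ^ 2 * V a * (g * h V + q V)) * (V a : ℂ)
        ∂(Measure.pi fun _ : X => ν) =
      (lam ^ 2 * g) * ∫ V : X → ℝ, ((V a ^ 2 - s2 : ℝ) : ℂ) * h V ∂(Measure.pi fun _ : X => ν) +
      (lam ^ 2 : ℂ) * ∫ V : X → ℝ, ((V a ^ 2 - s2 : ℝ) : ℂ) * q V ∂(Measure.pi fun _ : X => ν) +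
      (lam ^ 2 * s2 * g) * ∫ V : X → ℝ, h V ∂(Measure.pi fun _ : X => ν) +
      (lam ^ 2 * s2 : ℂ) * ∫ V : X → ℝ, q V ∂(Measure.pi fun _ : X => ν) := by
    exact lva_lin iV2h iV2q ih iq (lam ^ 2 * g) (lam ^ 2 : ℂ) (lam ^ 2 * s2 * g)
      (lam ^ 2 * s2 : ℂ) _ (fun V => by push_cast; ring)
  have E3 : ∫ V : X → ℝ, (-((lam * V a : ℝ) : ℂ) - (lam ^ 2 * s2 : ℝ) * g) * h V
        ∂(Measure.pi fun _ : X => ν) =
      -(lam : ℂ) * ∫ V : X → ℝ, (V a : ℂ) * h V ∂(Measure.pi fun _ : X => ν) -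
      (lam ^ 2 * s2 * g) * ∫ V : X → ℝ, h V ∂(Measure.pi fun _ : X => ν) := by
    rw [lva_lin iVh ih ih ih (-(lam : ℂ)) (-(lam ^ 2 * s2 * g)) 0 0 _
      (fun V => by push_cast; ring)]
    ring
  rw [E2, E3]
  push_cast
  ring

private theorem lva_sub_mul {A A' B B' : ℂ} : A * B - A' * B' = (A - A') * B + A' * (B - B') := by
  ring

theorem lva (R : ℝ) (hR : 1 ≤ R) : ∃ C : ℝ, 0 < C ∧
    ∀ (X : Type) [Fintype X] [DecidableEq X] (ν : Measure ℝ) (H : Matrix X X ℂ) (s2 lam : ℝ)
      (z g ζ : ℂ) (φ : X → X → ℝ) (χ : (X → ℝ) → ℝ) (B b2 μ Gd p0 Kc : ℝ),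
      LvH ν H R s2 lam z g ζ φ χ B b2 μ Gd p0 Kc → ∀ (u : X → ℂ), (∀ x, ‖u x‖ = 1) →
      ∀ (N : Matrix X X ℂ), (∀ a b, ‖N a b‖ ≤ Kc) → ∀ x a : X,
      ‖Ex ν (fun V : X → ℝ => (-((lam * V a : ℝ) : ℂ) - (lam ^ 2 * s2 : ℝ) * g) *
          (tw u (Gv H lam z V) x a * rr H lam z N V a x)) -
        (lam ^ 2 * s2 : ℝ) * Ex ν (fun V : X → ℝ => tw u (Gv H lam z V) x a *
          starRingEnd ℂ (Gv H lam z V x a) * rr H lam z N V a a)‖ ≤
      C * Ex ν (fun V : X → ℝ => χ V * (kap lam g b2 Gd * (‖Gv H lam z V x a‖ *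
          ‖rr H lam z N V a x‖) + lam ^ 3 * (Gd + ‖g‖) * (‖Gv H lam z V x a‖ ^ 2 *
          ‖rr H lam z N V a a‖))) + C * Kc ^ 7 * p0 := by
  refine ⟨60 * R ^ 3, by positivity, ?_⟩
  intro X _ _ ν H s2 lam z g ζ φ χ B b2 μ Gd p0 Kc hL u hu N hN x a
  have hν := hL.law
  have hz : z.im ≠ 0 := hL.hz.ne'
  have cG : ∀ b c, Continuous fun V : X → ℝ => Gv H lam z V b c :=
    fun b c => continuous_Gv_xy hL.hH lam hz b c
  have cT : Continuous fun V : X → ℝ => tw u (Gv H lam z V) x a := by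
    unfold tw
    exact (continuous_const.mul (cG x a)).mul continuous_const
  have cR : ∀ b c, Continuous fun V : X → ℝ => rr H lam z N V b c := by
    intro b c
    unfold rr
    simp only [Matrix.mul_apply, Matrix.conjTranspose_apply]
    exact continuous_finsetSum _ fun e _ => continuous_const.mul
      (continuous_star.comp (cG c e))
  have cC : Continuous fun V : X → ℝ => starRingEnd ℂ (Gv H lam z V x a) :=
    Complex.continuous_conj.comp (cG x a)
  set h : (X → ℝ) → ℂ := fun V => tw u (Gv H lam z V) x a * rr H lam z N V a x with hh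
  set q : (X → ℝ) → ℂ := fun V => tw u (Gv H lam z V) x a *
    starRingEnd ℂ (Gv H lam z V x a) * rr H lam z N V a a with hq
  have ch : Continuous h := cT.mul (cR a x)
  have cq : Continuous q := (cT.mul cC).mul (cR a a)
  rw [lva_id hν ch cq lam g a]
  -- the identity for `h - h^t`
  have I0 : ∀ (V : X → ℝ) (t : ℝ), tw u (Gv H lam z V) x a -
      tw u (Gv H lam z (Function.update V a t)) x a = -((lam * (V a - t) : ℝ) : ℂ) *
        Gv H lam z (Function.update V a t) a a * tw u (Gv H lam z V) x a := by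
    intro V t
    have := one_id (lam := lam) hL.hH hz V a t x a
    simp only [tw]
    rw [← sub_mul, ← mul_sub, this]
    push_cast
    ring
  have I1 : ∀ (V : X → ℝ) (t : ℝ), h V - h (Function.update V a t) =
      -((lam * (V a - t) : ℝ) : ℂ) * (Gv H lam z (Function.update V a t) a a * h V +
        tw u (Gv H lam z (Function.update V a t)) x a *
          rr H lam z N (Function.update V a t) a a * starRingEnd ℂ (Gv H lam z V x a)) := by
    intro V t
    have e1 := I0 V t
    have e2 : rr H lam z N V a x - rr H lam z N (Function.update V a t) a x =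
      ((lam * (t - V a) : ℝ) : ℂ) * rr H lam z N (Function.update V a t) a a *
        starRingEnd ℂ (Gv H lam z V x a) := one_r' hL.hH hz N V a t a x
    rw [hh]
    simp only
    rw [lva_sub_mul, e1, e2]
    push_cast
    ring
  set Q : (X → ℝ) → ℝ → ℂ := fun V t =>
    (-(lam : ℂ) * ((V a : ℂ) * (h V - h (Function.update V a t))) +
      (lam ^ 2 * g) * (((V a ^ 2 - s2 : ℝ) : ℂ) * (h V - h (Function.update V a t))) +
      (lam ^ 2 : ℂ) * (((V a ^ 2 - s2 : ℝ) : ℂ) * (q V - q (Function.update V a t))) -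
      (lam ^ 2 * V a * (g * h V + q V)) * ((V a : ℂ) - (t : ℂ))) with hQ
  have Qeq : ∀ V t, Q V t =
      ((lam ^ 2 * V a * (V a - t) : ℝ) : ℂ) * (Gv H lam z (Function.update V a t) a a - g) * h V +
      (lam ^ 2 * g) * (((V a ^ 2 - s2 : ℝ) : ℂ) * (h V - h (Function.update V a t))) +
      ((lam ^ 2 * V a * (V a - t) : ℝ) : ℂ) * (tw u (Gv H lam z (Function.update V a t)) x a *
          rr H lam z N (Function.update V a t) a a - tw u (Gv H lam z V) x a *
          rr H lam z N V a a) * starRingEnd ℂ (Gv H lam z V x a) +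
      (lam ^ 2 : ℂ) * (((V a ^ 2 - s2 : ℝ) : ℂ) * (q V - q (Function.update V a t))) := by
    intro V t
    have e1 := I1 V t
    have e2 : -(lam : ℂ) * ((V a : ℂ) * (h V - h (Function.update V a t))) =
      -(lam : ℂ) * ((V a : ℂ) * (-((lam * (V a - t) : ℝ) : ℂ) *
        (Gv H lam z (Function.update V a t) a a * h V +
        tw u (Gv H lam z (Function.update V a t)) x a *
          rr H lam z N (Function.update V a t) a a * starRingEnd ℂ (Gv H lam z V x a)))) := by
      rw [e1]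
    rw [hQ]
    simp only
    rw [e2]
    have e3 : q V = tw u (Gv H lam z V) x a *
      starRingEnd ℂ (Gv H lam z V x a) * rr H lam z N V a a := rfl
    have e4 : (lam ^ 2 * V a * (g * h V + q V)) * ((V a : ℂ) - (t : ℂ)) =
      (lam ^ 2 * V a * (g * h V + tw u (Gv H lam z V) x a *
      starRingEnd ℂ (Gv H lam z V x a) * rr H lam z N V a a)) * ((V a : ℂ) - (t : ℂ)) := by
      rw [← e3]
    rw [e4]
    push_cast
    ring
  have hlam := hL.lam0
  have hlam1 := hL.lam1
  have hR0 : 0 ≤ R := by linarith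
  have hs2 : s2 ≤ R ^ 2 := s2_le hν
  have hs20 := hν.s2_pos
  set K : ℝ := 60 * R ^ 3 * Kc ^ 7 with hK
  set G0 : (X → ℝ) → ℝ := fun V => χ V * (kap lam g b2 Gd * (‖Gv H lam z V x a‖ *
          ‖rr H lam z N V a x‖) + lam ^ 3 * (Gd + ‖g‖) * (‖Gv H lam z V x a‖ ^ 2 *
          ‖rr H lam z N V a a‖)) with hG0
  have cG0 : Continuous G0 :=
    hL.c0.mul ((continuous_const.mul ((cG x a).norm.mul (cR a x).norm)).add
      (continuous_const.mul (((cG x a).norm.pow 2).mul (cR a a).norm)))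
  have cG1 : Continuous fun V => 60 * R ^ 3 * G0 V + (1 - χ V) * K :=
    (continuous_const.mul cG0).add ((continuous_const.sub hL.c0).mul continuous_const)
  have cQ : Continuous fun p : (X → ℝ) × ℝ => Q p.1 p.2 := by
    have hVa : Continuous fun V : X → ℝ => (V a : ℂ) :=
      Complex.continuous_ofReal.comp (continuous_apply a)
    have hVs : Continuous fun V : X → ℝ => ((V a ^ 2 - s2 : ℝ) : ℂ) :=
      Complex.continuous_ofReal.comp (((continuous_apply a).pow 2).sub continuous_const)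
    have ch' : Continuous fun p : (X → ℝ) × ℝ => h (Function.update p.1 a p.2) :=
      continuous_upd ch a
    have cq' : Continuous fun p : (X → ℝ) × ℝ => q (Function.update p.1 a p.2) :=
      continuous_upd cq a
    have dh := (ch.comp continuous_fst).sub ch'
    have dq := (cq.comp continuous_fst).sub cq'
    have v1 : Continuous fun p : (X → ℝ) × ℝ => (p.1 a : ℂ) := hVa.comp continuous_fst
    have v2 : Continuous fun p : (X → ℝ) × ℝ => ((p.1 a ^ 2 - s2 : ℝ) : ℂ) :=
      hVs.comp continuous_fst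
    have v3 : Continuous fun p : (X → ℝ) × ℝ => (p.2 : ℂ) :=
      Complex.continuous_ofReal.comp continuous_snd
    exact (((continuous_const.mul (v1.mul dh)).add (continuous_const.mul (v2.mul dh))).add
      (continuous_const.mul (v2.mul dq))).sub
      (((continuous_const.mul v1).mul ((continuous_const.mul (ch.comp continuous_fst)).add
        (cq.comp continuous_fst))).mul (v1.sub v3))
  -- crude bounds
  have gK : ∀ (V : X → ℝ) (b c : X), ‖Gv H lam z V b c‖ ≤ Kc := by
    intro V b c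
    exact (norm_Gr_le hL.hH _ hL.hz b c).trans hL.kz
  have hK0 : 0 ≤ Kc := by linarith [hL.k1]
  have rK : ∀ (V : X → ℝ) (b c : X), ‖rr H lam z N V b c‖ ≤ Kc ^ 3 := by
    intro V b c
    unfold rr
    rw [Matrix.mul_apply]
    calc ‖∑ e, N b e * (Gv H lam z V)ᴴ e c‖ ≤ ∑ e : X, Kc * Kc := by
          refine (norm_sum_le _ _).trans (Finset.sum_le_sum fun e _ => ?_)
          rw [norm_mul, Matrix.conjTranspose_apply, norm_star]
          exact mul_le_mul (hN b e) (gK V c e) (norm_nonneg _) hK0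
      _ = (Fintype.card X : ℝ) * (Kc * Kc) := by
          rw [Finset.sum_const, nsmul_eq_mul, Finset.card_univ]
      _ ≤ Kc * (Kc * Kc) := mul_le_mul_of_nonneg_right hL.kX (by positivity)
      _ = Kc ^ 3 := by ring
  have tK : ∀ V : X → ℝ, ‖tw u (Gv H lam z V) x a‖ ≤ Kc := by
    intro V
    rw [norm_tw hu]
    exact gK V x a
  have hKK : ∀ V : X → ℝ, ‖h V‖ ≤ Kc ^ 4 := by
    intro V
    rw [hh]
    simp only
    rw [norm_mul]
    calc _ ≤ Kc * Kc ^ 3 := mul_le_mul (tK V) (rK V a x) (norm_nonneg _) hK0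
      _ = Kc ^ 4 := by ring
  have tsK : ∀ V : X → ℝ, ‖tw u (Gv H lam z V) x a * rr H lam z N V a a‖ ≤ Kc ^ 4 := by
    intro V
    rw [norm_mul]
    calc _ ≤ Kc * Kc ^ 3 := mul_le_mul (tK V) (rK V a a) (norm_nonneg _) hK0
      _ = Kc ^ 4 := by ring
  have qK : ∀ V : X → ℝ, ‖q V‖ ≤ Kc ^ 5 := by
    intro V
    have : q V = (tw u (Gv H lam z V) x a * rr H lam z N V a a) *
      starRingEnd ℂ (Gv H lam z V x a) := by
      rw [hq]
      ring
    rw [this, norm_mul, RCLike.norm_conj]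
    calc _ ≤ Kc ^ 4 * Kc := mul_le_mul (tsK V) (gK V x a) (norm_nonneg _) (by positivity)
      _ = Kc ^ 5 := by ring
  have nV : ∀ V ∈ Box X R, |V a| ≤ R := fun V hV => abs_le.2 (hV a)
  have nV2 : ∀ V ∈ Box X R, ‖((V a ^ 2 - s2 : ℝ) : ℂ)‖ ≤ R ^ 2 := by
    intro V hV
    rw [Complex.norm_real, Real.norm_eq_abs, abs_le]
    have h1 : V a ^ 2 ≤ R ^ 2 := by
      rw [← sq_abs]
      exact pow_le_pow_left₀ (abs_nonneg _) (nV V hV) 2
    constructor
    · nlinarith [sq_nonneg (V a)]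
    · linarith
  have nD : ∀ V ∈ Box X R, ∀ t ∈ Set.Icc (-R) R,
      ‖((lam ^ 2 * V a * (V a - t) : ℝ) : ℂ)‖ ≤ 2 * R ^ 2 * lam ^ 2 := by
    intro V hV t ht
    rw [Complex.norm_real, Real.norm_eq_abs, abs_mul, abs_mul, abs_of_nonneg (by positivity :
      (0 : ℝ) ≤ lam ^ 2)]
    have h1 := nV V hV
    have h2 : |V a - t| ≤ 2 * R := by
      have h3 : |t| ≤ R := abs_le.2 ht
      have h4 := abs_sub (V a) t
      linarith
    calc lam ^ 2 * |V a| * |V a - t| ≤ lam ^ 2 * R * (2 * R) := by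
          refine mul_le_mul (mul_le_mul_of_nonneg_left h1 (by positivity)) h2 (abs_nonneg _)
            (by positivity)
      _ = 2 * R ^ 2 * lam ^ 2 := by ring
  have nl : ‖(lam ^ 2 : ℂ)‖ = lam ^ 2 := by
    rw [norm_pow, Complex.norm_real, Real.norm_eq_abs, abs_of_pos hlam]
  have crude : ∀ V ∈ Box X R, ∀ t ∈ Set.Icc (-R) R, ‖Q V t‖ ≤ K := by
    intro V hV t ht
    rw [Qeq]
    have l2 : lam ^ 2 ≤ 1 := pow_le_one₀ hlam.le hlam1
    have a1 : ‖((lam ^ 2 * V a * (V a - t) : ℝ) : ℂ) *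
        (Gv H lam z (Function.update V a t) a a - g) * h V‖ ≤ 4 * R ^ 2 * Kc ^ 5 := by
      rw [norm_mul, norm_mul]
      have h1 : ‖Gv H lam z (Function.update V a t) a a - g‖ ≤ 2 * Kc := by
        have := norm_sub_le (Gv H lam z (Function.update V a t) a a) g
        linarith [gK (Function.update V a t) a a, hL.kg]
      calc _ ≤ (2 * R ^ 2 * lam ^ 2) * (2 * Kc) * Kc ^ 4 := by
            refine mul_le_mul (mul_le_mul (nD V hV t ht) h1 (norm_nonneg _) (by positivity))
              (hKK V) (norm_nonneg _) (by positivity)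
        _ = 4 * R ^ 2 * Kc ^ 5 * lam ^ 2 := by ring
        _ ≤ 4 * R ^ 2 * Kc ^ 5 * 1 := mul_le_mul_of_nonneg_left l2 (by positivity)
        _ = _ := mul_one _
    have a2 : ‖(lam ^ 2 * g) * (((V a ^ 2 - s2 : ℝ) : ℂ) *
        (h V - h (Function.update V a t)))‖ ≤ 2 * R ^ 2 * Kc ^ 5 := by
      rw [norm_mul, norm_mul, norm_mul, nl]
      have h1 : ‖h V - h (Function.update V a t)‖ ≤ 2 * Kc ^ 4 := by
        have := norm_sub_le (h V) (h (Function.update V a t))
        linarith [hKK V, hKK (Function.update V a t)]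
      calc _ ≤ (1 * Kc) * (R ^ 2 * (2 * Kc ^ 4)) := by
            refine mul_le_mul (mul_le_mul l2 hL.kg (norm_nonneg _) zero_le_one)
              (mul_le_mul (nV2 V hV) h1 (norm_nonneg _) (by positivity)) (by positivity)
              (by positivity)
        _ = _ := by ring
    have a3 : ‖((lam ^ 2 * V a * (V a - t) : ℝ) : ℂ) *
        (tw u (Gv H lam z (Function.update V a t)) x a *
          rr H lam z N (Function.update V a t) a a - tw u (Gv H lam z V) x a *
          rr H lam z N V a a) * starRingEnd ℂ (Gv H lam z V x a)‖ ≤ 4 * R ^ 2 * Kc ^ 5 := by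
      rw [norm_mul, norm_mul, RCLike.norm_conj]
      have h1 : ‖tw u (Gv H lam z (Function.update V a t)) x a *
          rr H lam z N (Function.update V a t) a a - tw u (Gv H lam z V) x a *
          rr H lam z N V a a‖ ≤ 2 * Kc ^ 4 := by
        refine (norm_sub_le _ _).trans ?_
        linarith [tsK V, tsK (Function.update V a t)]
      calc _ ≤ (2 * R ^ 2 * lam ^ 2) * (2 * Kc ^ 4) * Kc := by
            refine mul_le_mul (mul_le_mul (nD V hV t ht) h1 (norm_nonneg _) (by positivity))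
              (gK V x a) (norm_nonneg _) (by positivity)
        _ = 4 * R ^ 2 * Kc ^ 5 * lam ^ 2 := by ring
        _ ≤ 4 * R ^ 2 * Kc ^ 5 * 1 := mul_le_mul_of_nonneg_left l2 (by positivity)
        _ = _ := mul_one _
    have a4 : ‖(lam ^ 2 : ℂ) * (((V a ^ 2 - s2 : ℝ) : ℂ) *
        (q V - q (Function.update V a t)))‖ ≤ 2 * R ^ 2 * Kc ^ 5 := by
      rw [norm_mul, norm_mul, nl]
      have h1 : ‖q V - q (Function.update V a t)‖ ≤ 2 * Kc ^ 5 := by
        have := norm_sub_le (q V) (q (Function.update V a t))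
        linarith [qK V, qK (Function.update V a t)]
      calc _ ≤ 1 * (R ^ 2 * (2 * Kc ^ 5)) := by
            refine mul_le_mul l2 (mul_le_mul (nV2 V hV) h1 (norm_nonneg _) (by positivity))
              (by positivity) zero_le_one
        _ = _ := by ring
    have a5 : 12 * R ^ 2 * Kc ^ 5 ≤ K := by
      have h1 : R ^ 2 ≤ R ^ 3 := pow_le_pow_right₀ hR (by norm_num)
      have h2 : Kc ^ 5 ≤ Kc ^ 7 := pow_le_pow_right₀ hL.k1 (by norm_num)
      rw [hK]
      calc 12 * R ^ 2 * Kc ^ 5 ≤ 60 * R ^ 3 * Kc ^ 7 := by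
            refine mul_le_mul ?_ h2 (by positivity) (by positivity)
            nlinarith [pow_nonneg hR0 3]
        _ = _ := rfl
    refine (norm_add_le _ _).trans ?_
    refine (add_le_add ((norm_add_le _ _).trans (add_le_add ((norm_add_le _ _).trans
      (add_le_add a1 a2)) a3)) a4).trans ?_
    linarith
  have fine : ∀ V ∈ Box X R, χ V ≠ 0 → ∀ t ∈ Set.Icc (-R) R, ‖Q V t‖ ≤
      60 * R ^ 3 * (kap lam g b2 Gd * (‖Gv H lam z V x a‖ *
          ‖rr H lam z N V a x‖) + lam ^ 3 * (Gd + ‖g‖) * (‖Gv H lam z V x a‖ ^ 2 *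
          ‖rr H lam z N V a a‖)) := by
    intro V hV hχ t ht
    have hreg := hL.reg V hV hχ
    have hGd := hL.hGd
    have hb2 := hL.hb2
    have hsm := hL.sm
    have g1 : ‖Gv H lam z V a a‖ ≤ Gd := hreg.gd a
    have hs : 2 * R * lam * ‖Gv H lam z V a a‖ ≤ 1 / 2 := by
      have : 2 * R * lam * ‖Gv H lam z V a a‖ ≤ 2 * R * lam * Gd :=
        mul_le_mul_of_nonneg_left g1 (by positivity)
      linarith
    set Gx := ‖Gv H lam z V x a‖ with hGx
    set rx := ‖rr H lam z N V a x‖ with hrx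
    set ra := ‖rr H lam z N V a a‖ with hra
    have hGx0 : 0 ≤ Gx := norm_nonneg _
    have hrx0 : 0 ≤ rx := norm_nonneg _
    have hra0 : 0 ≤ ra := norm_nonneg _
    have b1 : ‖Gv H lam z (Function.update V a t) a a‖ ≤ 2 * Gd := by
      have := one_le hL.hH hz hR0 hlam.le hV ht hs a
      linarith
    have b2' : ‖Gv H lam z (Function.update V a t) x a‖ ≤ 2 * Gx :=
      one_le hL.hH hz hR0 hlam.le hV ht hs x
    have b3 : ‖Gv H lam z V x a - Gv H lam z (Function.update V a t) x a‖ ≤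
        4 * R * lam * Gd * Gx := by
      have h1 := one_sub_le hL.hH hz hR0 hlam.le hV ht hs x a
      unfold ee at h1
      calc _ ≤ 4 * R * lam * Gx * ‖Gv H lam z V a a‖ := h1
        _ ≤ 4 * R * lam * Gx * Gd := mul_le_mul_of_nonneg_left g1 (by positivity)
        _ = _ := by ring
    have b4 : ‖Gv H lam z (Function.update V a t) a a - g‖ ≤ b2 + 4 * R * lam * Gd ^ 2 := by
      have h1 := one_sub_le hL.hH hz hR0 hlam.le hV ht hs a a
      unfold ee at h1
      have h2 : 4 * R * lam * ‖Gv H lam z V a a‖ * ‖Gv H lam z V a a‖ ≤ 4 * R * lam * Gd ^ 2 := by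
        calc _ ≤ 4 * R * lam * Gd * Gd := by
              refine mul_le_mul (mul_le_mul_of_nonneg_left g1 (by positivity)) g1 (norm_nonneg _)
                (by positivity)
          _ = _ := by ring
      have h3 : Gv H lam z (Function.update V a t) a a - g = (Gv H lam z V a a - g) -
        (Gv H lam z V a a - Gv H lam z (Function.update V a t) a a) := by ring
      rw [h3]
      refine (norm_sub_le _ _).trans ?_
      linarith [hreg.dg a]
    have b5 : ‖rr H lam z N V a a - rr H lam z N (Function.update V a t) a a‖ ≤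
        4 * R * lam * Gd * ra := by
      have h1 : rr H lam z N V a a - rr H lam z N (Function.update V a t) a a =
        ((lam * (t - V a) : ℝ) : ℂ) * rr H lam z N V a a *
        starRingEnd ℂ (Gv H lam z (Function.update V a t) a a) := one_r hL.hH hz N V a t a a
      rw [h1, norm_mul, norm_mul, RCLike.norm_conj, Complex.norm_real, Real.norm_eq_abs, abs_mul,
        abs_of_pos hlam]
      have h2 : |t - V a| ≤ 2 * R := by
        have h3 : |t| ≤ R := abs_le.2 ht
        have h4 := abs_sub t (V a)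
        linarith [nV V hV]
      calc lam * |t - V a| * ra * ‖Gv H lam z (Function.update V a t) a a‖ ≤
            lam * (2 * R) * ra * (2 * Gd) := by
            refine mul_le_mul (mul_le_mul_of_nonneg_right (mul_le_mul_of_nonneg_left h2 hlam.le)
              hra0) b1 (norm_nonneg _) (by positivity)
        _ = _ := by ring
    have b6 : ‖rr H lam z N (Function.update V a t) a a‖ ≤ 2 * ra := by
      have h1 : rr H lam z N (Function.update V a t) a a = rr H lam z N V a a -
        (rr H lam z N V a a - rr H lam z N (Function.update V a t) a a) := by ring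
      rw [h1]
      refine (norm_sub_le _ _).trans ?_
      have h2 : 4 * R * lam * Gd * ra ≤ 1 * ra := mul_le_mul_of_nonneg_right hsm hra0
      linarith
    have b7 : ‖tw u (Gv H lam z V) x a - tw u (Gv H lam z (Function.update V a t)) x a‖ ≤
        4 * R * lam * Gd * Gx := by
      have h1 : tw u (Gv H lam z V) x a - tw u (Gv H lam z (Function.update V a t)) x a =
        tw u (Gv H lam z V - Gv H lam z (Function.update V a t)) x a := by
        simp only [tw, Matrix.sub_apply]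
        ring
      rw [h1, norm_tw hu]
      exact b3
    have b8 : ‖tw u (Gv H lam z (Function.update V a t)) x a‖ ≤ 2 * Gx := by
      rw [norm_tw hu]
      exact b2'
    have b9 : ‖tw u (Gv H lam z (Function.update V a t)) x a *
          rr H lam z N (Function.update V a t) a a - tw u (Gv H lam z V) x a *
          rr H lam z N V a a‖ ≤ 12 * R * lam * Gd * Gx * ra := by
      rw [norm_sub_rev, lva_sub_mul]
      refine (norm_add_le _ _).trans ?_
      rw [norm_mul, norm_mul]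
      calc _ ≤ (4 * R * lam * Gd * Gx) * ra + (2 * Gx) * (4 * R * lam * Gd * ra) :=
            add_le_add (mul_le_mul_of_nonneg_right b7 hra0)
              (mul_le_mul b8 b5 (norm_nonneg _) (by positivity))
        _ = _ := by ring
    have b10 : ‖h V‖ = Gx * rx := by
      rw [hh]
      simp only
      rw [norm_mul, norm_tw hu]
    have b11 : ‖h V - h (Function.update V a t)‖ ≤
        4 * R * lam * (Gd * (Gx * rx) + 2 * (Gx ^ 2 * ra)) := by
      rw [I1, norm_mul, norm_neg, Complex.norm_real, Real.norm_eq_abs, abs_mul, abs_of_pos hlam]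
      have h2 : |V a - t| ≤ 2 * R := by
        have h3 : |t| ≤ R := abs_le.2 ht
        have h4 := abs_sub (V a) t
        linarith [nV V hV]
      have h5 : ‖Gv H lam z (Function.update V a t) a a * h V +
        tw u (Gv H lam z (Function.update V a t)) x a *
          rr H lam z N (Function.update V a t) a a * starRingEnd ℂ (Gv H lam z V x a)‖ ≤
          2 * Gd * (Gx * rx) + 4 * (Gx ^ 2 * ra) := by
        refine (norm_add_le _ _).trans ?_
        rw [norm_mul _ (h V), b10, norm_mul _ (starRingEnd ℂ _), norm_mul (tw u _ x a),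
          RCLike.norm_conj]
        calc _ ≤ (2 * Gd) * (Gx * rx) + (2 * Gx) * (2 * ra) * Gx := by
              refine add_le_add (mul_le_mul_of_nonneg_right b1 (by positivity)) ?_
              exact mul_le_mul_of_nonneg_right (mul_le_mul b8 b6 (norm_nonneg _) (by positivity))
                hGx0
          _ = _ := by ring
      calc _ ≤ lam * (2 * R) * (2 * Gd * (Gx * rx) + 4 * (Gx ^ 2 * ra)) := by
            refine mul_le_mul (mul_le_mul_of_nonneg_left h2 hlam.le) h5 (norm_nonneg _)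
              (by positivity)
        _ = _ := by ring
    have b12 : ‖q V - q (Function.update V a t)‖ ≤ 28 * R * lam * Gd * (Gx ^ 2 * ra) := by
      have h1 : q V - q (Function.update V a t) =
        (tw u (Gv H lam z V) x a * rr H lam z N V a a -
          tw u (Gv H lam z (Function.update V a t)) x a *
          rr H lam z N (Function.update V a t) a a) * starRingEnd ℂ (Gv H lam z V x a) +
        (tw u (Gv H lam z (Function.update V a t)) x a *
          rr H lam z N (Function.update V a t) a a) *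
          starRingEnd ℂ (Gv H lam z V x a - Gv H lam z (Function.update V a t) x a) := by
        rw [hq, map_sub]
        ring
      rw [h1]
      refine (norm_add_le _ _).trans ?_
      rw [norm_mul, norm_mul, norm_mul, RCLike.norm_conj, RCLike.norm_conj, norm_sub_rev]
      calc _ ≤ (12 * R * lam * Gd * Gx * ra) * Gx + (2 * Gx) * (2 * ra) *
            (4 * R * lam * Gd * Gx) := by
            refine add_le_add (mul_le_mul_of_nonneg_right b9 hGx0) ?_
            exact mul_le_mul (mul_le_mul b8 b6 (norm_nonneg _) (by positivity)) b3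
              (norm_nonneg _) (by positivity)
        _ = _ := by ring
    rw [Qeq]
    have R23 : R ^ 2 ≤ R ^ 3 := pow_le_pow_right₀ hR (by norm_num)
    have a1 : ‖((lam ^ 2 * V a * (V a - t) : ℝ) : ℂ) *
        (Gv H lam z (Function.update V a t) a a - g) * h V‖ ≤
        8 * R ^ 3 * (lam ^ 2 * b2 + lam ^ 3 * Gd ^ 2) * (Gx * rx) := by
      rw [norm_mul, norm_mul, b10]
      refine mul_le_mul_of_nonneg_right ?_ (by positivity)
      calc _ ≤ (2 * R ^ 2 * lam ^ 2) * (b2 + 4 * R * lam * Gd ^ 2) :=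
            mul_le_mul (nD V hV t ht) b4 (norm_nonneg _) (by positivity)
        _ = 2 * R ^ 2 * (lam ^ 2 * b2) + 8 * R ^ 3 * (lam ^ 3 * Gd ^ 2) := by ring
        _ ≤ 8 * R ^ 3 * (lam ^ 2 * b2) + 8 * R ^ 3 * (lam ^ 3 * Gd ^ 2) := by
            have : 2 * R ^ 2 * (lam ^ 2 * b2) ≤ 8 * R ^ 3 * (lam ^ 2 * b2) := by
              refine mul_le_mul_of_nonneg_right ?_ (by positivity)
              nlinarith [pow_nonneg hR0 3]
            linarith
        _ = _ := by ring
    have a2 : ‖(lam ^ 2 * g) * (((V a ^ 2 - s2 : ℝ) : ℂ) *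
        (h V - h (Function.update V a t)))‖ ≤
        4 * R ^ 3 * lam ^ 3 * ‖g‖ * (Gd * (Gx * rx) + 2 * (Gx ^ 2 * ra)) := by
      rw [norm_mul, norm_mul, norm_mul, nl]
      calc _ ≤ (lam ^ 2 * ‖g‖) * (R ^ 2 * (4 * R * lam * (Gd * (Gx * rx) + 2 * (Gx ^ 2 * ra)))) := by
            refine mul_le_mul_of_nonneg_left ?_ (by positivity)
            exact mul_le_mul (nV2 V hV) b11 (norm_nonneg _) (by positivity)
        _ = _ := by ring
    have a3 : ‖((lam ^ 2 * V a * (V a - t) : ℝ) : ℂ) *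
        (tw u (Gv H lam z (Function.update V a t)) x a *
          rr H lam z N (Function.update V a t) a a - tw u (Gv H lam z V) x a *
          rr H lam z N V a a) * starRingEnd ℂ (Gv H lam z V x a)‖ ≤
        24 * R ^ 3 * lam ^ 3 * Gd * (Gx ^ 2 * ra) := by
      rw [norm_mul, norm_mul, RCLike.norm_conj]
      calc _ ≤ (2 * R ^ 2 * lam ^ 2) * (12 * R * lam * Gd * Gx * ra) * Gx := by
            refine mul_le_mul_of_nonneg_right ?_ hGx0
            exact mul_le_mul (nD V hV t ht) b9 (norm_nonneg _) (by positivity)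
        _ = _ := by ring
    have a4 : ‖(lam ^ 2 : ℂ) * (((V a ^ 2 - s2 : ℝ) : ℂ) *
        (q V - q (Function.update V a t)))‖ ≤ 28 * R ^ 3 * lam ^ 3 * Gd * (Gx ^ 2 * ra) := by
      rw [norm_mul, norm_mul, nl]
      calc _ ≤ lam ^ 2 * (R ^ 2 * (28 * R * lam * Gd * (Gx ^ 2 * ra))) := by
            refine mul_le_mul_of_nonneg_left ?_ (by positivity)
            exact mul_le_mul (nV2 V hV) b12 (norm_nonneg _) (by positivity)
        _ = _ := by ring
    refine (norm_add_le _ _).trans ?_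
    refine (add_le_add ((norm_add_le _ _).trans (add_le_add ((norm_add_le _ _).trans
      (add_le_add a1 a2)) a3)) a4).trans ?_
    unfold kap
    have R3 : 0 ≤ R ^ 3 := by positivity
    have p1 : 0 ≤ R ^ 3 * (lam ^ 2 * b2) * (Gx * rx) := by positivity
    have p2 : 0 ≤ R ^ 3 * (lam ^ 3 * Gd ^ 2) * (Gx * rx) := by positivity
    have p3 : 0 ≤ R ^ 3 * (lam ^ 3 * Gd * ‖g‖) * (Gx * rx) := by positivity
    have p4 : 0 ≤ R ^ 3 * (lam ^ 3 * Gd) * (Gx ^ 2 * ra) := by positivity
    have p5 : 0 ≤ R ^ 3 * (lam ^ 3 * ‖g‖) * (Gx ^ 2 * ra) := by positivity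
    nlinarith [p1, p2, p3, p4, p5]
  have bound : ∀ V ∈ Box X R, ∀ t ∈ Set.Icc (-R) R, ‖Q V t‖ ≤ 60 * R ^ 3 * G0 V + (1 - χ V) * K := by
    intro V hV t ht
    obtain ⟨x0, x1⟩ := hL.c1 V
    have h1 := crude V hV t ht
    by_cases hχ : χ V = 0
    · rw [hG0]
      simp only
      rw [hχ]
      linarith
    · have h2 := fine V hV hχ t ht
      have h3 : ‖Q V t‖ = χ V * ‖Q V t‖ + (1 - χ V) * ‖Q V t‖ := by ring
      rw [h3]
      have h4 : χ V * ‖Q V t‖ ≤ 60 * R ^ 3 * G0 V := by
        refine (mul_le_mul_of_nonneg_left h2 x0).trans (le_of_eq ?_)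
        rw [hG0]
        ring
      have h5 : (1 - χ V) * ‖Q V t‖ ≤ (1 - χ V) * K :=
        mul_le_mul_of_nonneg_left h1 (by linarith)
      linarith
  have final := norm_Ex2_le hν cQ cG1 bound
  refine final.trans ?_
  have split : Ex ν (fun V => 60 * R ^ 3 * G0 V + (1 - χ V) * K) =
      60 * R ^ 3 * Ex ν G0 + Ex ν (fun V => 1 - χ V) * K := by
    have i1 : Integrable (fun V : X → ℝ => 60 * R ^ 3 * G0 V) (Measure.pi fun _ : X => ν) :=
      (int_cont hν cG0).const_mul _
    have i2 : Integrable (fun V : X → ℝ => (1 - χ V) * K) (Measure.pi fun _ : X => ν) :=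
      (int_cont hν (F := fun V : X → ℝ => 1 - χ V) (continuous_const.sub hL.c0)).mul_const K
    unfold Ex
    rw [integral_add i1 i2, integral_const_mul, integral_mul_const]
  rw [split]
  have hKpos : 0 ≤ K := by positivity
  have h1 : Ex ν (fun V => 1 - χ V) * K ≤ p0 * K := mul_le_mul_of_nonneg_right hL.p hKpos
  have h2 : p0 * K = 60 * R ^ 3 * Kc ^ 7 * p0 := by rw [hK]; ring
  linarith

end Pool.Agent.BK3
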