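import Pool.Agent.BK3.LvDefs

/-! BK3 module LvB: `∑_b c_b E[K_b G_bx]` for a row `c` with weighted square norm `m2`
(`K_b = -lam V_b - lam² s2 g`). By `one_site` with `Φ = 1` it is `∑_b c_b E[kx_b G_bx]`. On `{χ ≠ 0}`:
`|kx_b| ≤ 8 R³ kap` (`kx_le`) and `∑ |c_b||G_bx| ≤ (∑ (|c_b|/φ_xb)²)^(1/2) (∑ φ_xb² |G_xb|²)^(1/2) ≤ m2 μ^(1/2)`.
In general (`kx_crude`, `|G| ≤ Kc`, `∑|c_b| ≤ Kc m2`): `32 R³ m2 Kc⁴`. Write the integrand as
`χ (..) + (1-χ) (..)`. `lvg`: `g_x - M_xx = E Z_xx = ∑_b M_xb E[K_b G_bx]` (`Gr_expand`). -/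

open MeasureTheory Finset Matrix Pool.Agent.BK

noncomputable section

namespace Pool.Agent.BK3

section lvb

variable {X : Type} [Fintype X] [DecidableEq X] {ν : Measure ℝ} {H : Matrix X X ℂ}
  {R s2 lam : ℝ} {z g ζ : ℂ} {φ : X → X → ℝ} {χ : (X → ℝ) → ℝ} {B b2 μ Gd p0 Kc : ℝ}

private lemma lvb_reg (h : LvH ν H R s2 lam z g ζ φ χ B b2 μ Gd p0 Kc) (hR : 1 ≤ R) {V : X → ℝ}
    (hV : V ∈ Box X R) (hr : Reg H lam z g φ B b2 μ Gd V) (x : X) (c : X → ℂ) {m2 : ℝ}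
    (hm2 : 0 ≤ m2) (hc : ∑ b, (‖c b‖ / φ x b) ^ 2 ≤ m2 ^ 2) :
    ‖∑ b, c b * (kx ν s2 H lam z g b V * Gv H lam z V b x)‖ ≤
      8 * R ^ 3 * kap lam g b2 Gd * (m2 * μ ^ (1 / 2 : ℝ)) := by
  have hlam := h.lam0
  have hb2 := h.hb2
  have hGd := h.hGd
  have hμ := h.hμ
  have hk0 : 0 ≤ kap lam g b2 Gd := by unfold kap; positivity
  have hk : ∀ b, ‖kx ν s2 H lam z g b V‖ ≤ 8 * R ^ 3 * kap lam g b2 Gd := by
    intro b
    unfold kap
    refine kx_le h.law h.hH h.hz hlam hV hb2 ?_ b (hr.dg b) (hr.gd b)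
    have := h.sm
    linarith
  have h1 : ∑ b, ‖c b‖ * ‖Gv H lam z V b x‖ ≤ m2 * μ ^ (1 / 2 : ℝ) := by
    have e2 := Finset.sum_mul_sq_le_sq_mul_sq (Finset.univ : Finset X)
      (fun b => ‖c b‖ / φ x b) (fun b => φ x b * ‖Gv H lam z V b x‖)
    have e1 : ∑ b, ‖c b‖ * ‖Gv H lam z V b x‖ =
        ∑ b, ‖c b‖ / φ x b * (φ x b * ‖Gv H lam z V b x‖) := by
      refine Finset.sum_congr rfl fun b _ => ?_
      have := (h.w.pos x b).ne'
      field_simp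
    have e3 : ∑ b, (φ x b * ‖Gv H lam z V b x‖) ^ 2 ≤ μ := by
      refine le_trans ?_ (hr.ms x x)
      refine Finset.sum_le_sum fun b _ => ?_
      have p0 := (h.w.pos x b).le
      have p1 := h.w.le x b
      have hs : ‖Gv H lam z V b x‖ = ‖Gv H lam z V x b‖ := by
        rw [Gv, Gr_symm h.hH _ h.hz.ne']
      rw [hs]
      have a2 : φ x b ^ 2 ≤ φ x b := by nlinarith
      calc (φ x b * ‖Gv H lam z V x b‖) ^ 2 = φ x b ^ 2 * ‖Gv H lam z V x b‖ ^ 2 := by ring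
        _ ≤ _ := mul_le_mul_of_nonneg_right a2 (by positivity)
    have e4 : (∑ b, ‖c b‖ * ‖Gv H lam z V b x‖) ^ 2 ≤ (m2 * μ ^ (1 / 2 : ℝ)) ^ 2 := by
      rw [e1]
      refine e2.trans ?_
      have s1 : (μ ^ (1 / 2 : ℝ)) ^ 2 = μ := by
        rw [← Real.rpow_natCast, ← Real.rpow_mul hμ]; norm_num
      rw [mul_pow, s1]
      exact mul_le_mul hc e3 (by positivity) (by positivity)
    exact (pow_le_pow_iff_left₀ (by positivity) (by positivity) two_ne_zero).1 e4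
  calc ‖∑ b, c b * (kx ν s2 H lam z g b V * Gv H lam z V b x)‖
      ≤ ∑ b, ‖c b * (kx ν s2 H lam z g b V * Gv H lam z V b x)‖ := norm_sum_le _ _
    _ ≤ ∑ b, 8 * R ^ 3 * kap lam g b2 Gd * (‖c b‖ * ‖Gv H lam z V b x‖) := by
        refine Finset.sum_le_sum fun b _ => ?_
        rw [norm_mul, norm_mul]
        calc ‖c b‖ * (‖kx ν s2 H lam z g b V‖ * ‖Gv H lam z V b x‖)
            = ‖kx ν s2 H lam z g b V‖ * (‖c b‖ * ‖Gv H lam z V b x‖) := by ring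
          _ ≤ _ := mul_le_mul_of_nonneg_right (hk b) (by positivity)
    _ = 8 * R ^ 3 * kap lam g b2 Gd * ∑ b, ‖c b‖ * ‖Gv H lam z V b x‖ := by
        rw [Finset.mul_sum]
    _ ≤ _ := mul_le_mul_of_nonneg_left h1 (by positivity)

private lemma lvb_crude (h : LvH ν H R s2 lam z g ζ φ χ B b2 μ Gd p0 Kc) (hR : 1 ≤ R) {V : X → ℝ}
    (hV : V ∈ Box X R) (x : X) (c : X → ℂ) {m2 : ℝ}
    (hm2 : 0 ≤ m2) (hc : ∑ b, (‖c b‖ / φ x b) ^ 2 ≤ m2 ^ 2) :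
    ‖∑ b, c b * (kx ν s2 H lam z g b V * Gv H lam z V b x)‖ ≤ 32 * R ^ 3 * m2 * Kc ^ 4 := by
  have hK1 := h.k1
  have hK0 : 0 ≤ Kc := by linarith
  have hk : ∀ b, ‖kx ν s2 H lam z g b V‖ ≤ 32 * R ^ 3 * Kc ^ 2 := by
    intro b
    refine (kx_crude h.law h.hH h.hz h.lam0 h.lam1 hV b).trans ?_
    have a1 : 1 + ‖g‖ ≤ 2 * Kc := by linarith [h.kg]
    have a2 : 1 + 1 / z.im ≤ 2 * Kc := by linarith [h.kz]
    have a3 : 0 ≤ 1 + 1 / z.im := by have := h.hz; positivity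
    calc 8 * R ^ 3 * ((1 + ‖g‖) * (1 + 1 / z.im)) ≤ 8 * R ^ 3 * ((2 * Kc) * (2 * Kc)) := by
          gcongr
      _ = _ := by ring
  have hG : ∀ b, ‖Gv H lam z V b x‖ ≤ Kc := fun b => (norm_Gr_le h.hH _ h.hz b x).trans h.kz
  have h1 : ∑ b, ‖c b‖ ≤ Kc * m2 := by
    have e1 : ∑ b, ‖c b‖ ≤ ∑ b, 1 * (‖c b‖ / φ x b) := by
      refine Finset.sum_le_sum fun b _ => ?_
      rw [one_mul, le_div_iff₀ (h.w.pos x b)]
      exact mul_le_of_le_one_right (norm_nonneg _) (h.w.le x b)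
    have e2 := Finset.sum_mul_sq_le_sq_mul_sq (Finset.univ : Finset X)
      (fun _ => (1 : ℝ)) (fun b => ‖c b‖ / φ x b)
    have e3 : ∑ b : X, (1 : ℝ) ^ 2 ≤ Kc ^ 2 := by
      rw [one_pow, Finset.sum_const, Finset.card_univ, nsmul_eq_mul, mul_one]
      have := h.kX
      nlinarith
    have e4 : (∑ b, ‖c b‖) ^ 2 ≤ (Kc * m2) ^ 2 := by
      refine (pow_le_pow_left₀ (by positivity) e1 2).trans (e2.trans ?_)
      rw [mul_pow]
      exact mul_le_mul e3 hc (by positivity) (by positivity)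
    exact (pow_le_pow_iff_left₀ (by positivity) (by positivity) two_ne_zero).1 e4
  calc ‖∑ b, c b * (kx ν s2 H lam z g b V * Gv H lam z V b x)‖
      ≤ ∑ b, ‖c b * (kx ν s2 H lam z g b V * Gv H lam z V b x)‖ := norm_sum_le _ _
    _ ≤ ∑ b, (32 * R ^ 3 * Kc ^ 2 * Kc) * ‖c b‖ := by
        refine Finset.sum_le_sum fun b _ => ?_
        rw [norm_mul, norm_mul, mul_comm]
        refine mul_le_mul_of_nonneg_right ?_ (norm_nonneg _)
        exact mul_le_mul (hk b) (hG b) (norm_nonneg _) (by positivity)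
    _ = 32 * R ^ 3 * Kc ^ 2 * Kc * ∑ b, ‖c b‖ := by rw [Finset.mul_sum]
    _ ≤ 32 * R ^ 3 * Kc ^ 2 * Kc * (Kc * m2) := mul_le_mul_of_nonneg_left h1 (by positivity)
    _ = _ := by ring

end lvb

theorem lvb (R : ℝ) (hR : 1 ≤ R) : ∃ C : ℝ, 0 < C ∧
    ∀ (X : Type) [Fintype X] [DecidableEq X] (ν : Measure ℝ) (H : Matrix X X ℂ) (s2 lam : ℝ)
      (z g ζ : ℂ) (φ : X → X → ℝ) (χ : (X → ℝ) → ℝ) (B b2 μ Gd p0 Kc : ℝ),
      LvH ν H R s2 lam z g ζ φ χ B b2 μ Gd p0 Kc → ∀ (x : X) (c : X → ℂ) (m2 : ℝ), 0 ≤ m2 →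
      ∑ b, (‖c b‖ / φ x b) ^ 2 ≤ m2 ^ 2 →
      ‖∑ b, c b * Ex ν (fun V : X → ℝ => (-((lam * V b : ℝ) : ℂ) - (lam ^ 2 * s2 : ℝ) * g) *
        Gv H lam z V b x)‖ ≤ C * m2 * (kap lam g b2 Gd * μ ^ (1 / 2 : ℝ) + Kc ^ 4 * p0) := by
  refine ⟨32 * R ^ 3, by positivity, ?_⟩
  intro X _ _ ν H s2 lam z g ζ φ χ B b2 μ Gd p0 Kc h x c m2 hm2 hc
  have hprob := h.law.prob
  have hK1 := h.k1
  have hlam := h.lam0
  have hb2 := h.hb2
  have hGd := h.hGd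
  have hμ := h.hμ
  have hk0 : 0 ≤ kap lam g b2 Gd := by unfold kap; positivity
  have hcont : ∀ b, Continuous fun V : X → ℝ => c b * (kx ν s2 H lam z g b V *
      Gv H lam z V b x) := fun b =>
    continuous_const.mul ((continuous_kx h.law h.hH h.hz.ne' b).mul
      (continuous_Gv_xy h.hH lam h.hz.ne' b x))
  have h1 : ∀ b, Ex ν (fun V : X → ℝ => (-((lam * V b : ℝ) : ℂ) - (lam ^ 2 * s2 : ℝ) * g) *
      Gv H lam z V b x) = Ex ν (fun V : X → ℝ => kx ν s2 H lam z g b V * Gv H lam z V b x) := by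
    intro b
    have := one_site (g := g) (lam := lam) h.law h.hH h.hz.ne'
      (Φ := fun _ => (1 : ℂ)) continuous_const b x
    simp only [mul_one, sub_self, mul_zero, integral_zero] at this
    rw [this]
    have h0 : Ex ν (fun _ : X → ℝ => (0 : ℂ)) = 0 := by
      unfold Ex
      exact integral_zero _ _
    rw [h0, add_zero]
  have h2 : ∑ b, c b * Ex ν (fun V : X → ℝ => (-((lam * V b : ℝ) : ℂ) - (lam ^ 2 * s2 : ℝ) * g) *
      Gv H lam z V b x) =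
      Ex ν (fun V : X → ℝ => ∑ b, c b * (kx ν s2 H lam z g b V * Gv H lam z V b x)) := by
    unfold Ex
    rw [integral_finsetSum _ fun b _ => int_cont h.law (hcont b)]
    refine Finset.sum_congr rfl fun b _ => ?_
    rw [integral_const_mul]
    congr 1
    exact h1 b
  rw [h2]
  have hcS : Continuous fun V : X → ℝ =>
      ∑ b, c b * (kx ν s2 H lam z g b V * Gv H lam z V b x) :=
    continuous_finsetSum _ fun b _ => hcont b
  have hcG : Continuous fun V : X → ℝ =>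
      χ V * (8 * R ^ 3 * kap lam g b2 Gd * (m2 * μ ^ (1 / 2 : ℝ))) +
        (1 - χ V) * (32 * R ^ 3 * m2 * Kc ^ 4) :=
    (h.c0.mul continuous_const).add ((continuous_const.sub h.c0).mul continuous_const)
  have h3 := norm_Ex_le h.law hcS hcG (by
    intro V hV
    have hcr := lvb_crude h hR hV x c hm2 hc
    have hχ := h.c1 V
    by_cases h0 : χ V = 0
    · rw [h0, zero_mul, zero_add, sub_zero, one_mul]
      exact hcr
    · have hre := lvb_reg h hR hV (h.reg V hV h0) x c hm2 hc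
      set S := ‖∑ b, c b * (kx ν s2 H lam z g b V * Gv H lam z V b x)‖
      have a1 := mul_le_mul_of_nonneg_left hre hχ.1
      have a2 := mul_le_mul_of_nonneg_left hcr (sub_nonneg.2 hχ.2)
      have a3 : S = χ V * S + (1 - χ V) * S := by ring
      rw [a3]
      exact add_le_add a1 a2)
  refine h3.trans ?_
  have h4 : Ex ν (fun V : X → ℝ =>
      χ V * (8 * R ^ 3 * kap lam g b2 Gd * (m2 * μ ^ (1 / 2 : ℝ))) +
        (1 - χ V) * (32 * R ^ 3 * m2 * Kc ^ 4)) =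
      Ex ν χ * (8 * R ^ 3 * kap lam g b2 Gd * (m2 * μ ^ (1 / 2 : ℝ))) +
        Ex ν (fun V : X → ℝ => 1 - χ V) * (32 * R ^ 3 * m2 * Kc ^ 4) := by
    have i1 : Integrable (fun V : X → ℝ =>
        χ V * (8 * R ^ 3 * kap lam g b2 Gd * (m2 * μ ^ (1 / 2 : ℝ)))) (Measure.pi fun _ : X => ν) :=
      int_cont h.law (h.c0.mul continuous_const)
    have i2 : Integrable (fun V : X → ℝ => (1 - χ V) * (32 * R ^ 3 * m2 * Kc ^ 4))
        (Measure.pi fun _ : X => ν) :=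
      int_cont h.law ((continuous_const.sub h.c0).mul continuous_const)
    have i3 := integral_add i1 i2
    rw [integral_mul_const, integral_mul_const] at i3
    exact i3
  have h5 : Ex ν χ ≤ 1 := by
    have := Ex_box_mono h.law h.c0 (continuous_const (y := (1 : ℝ))) fun V _ => (h.c1 V).2
    rwa [Ex_one h.law] at this
  rw [h4]
  have h6 : 0 ≤ 8 * R ^ 3 * kap lam g b2 Gd * (m2 * μ ^ (1 / 2 : ℝ)) := by positivity
  have h7 : 0 ≤ 32 * R ^ 3 * m2 * Kc ^ 4 := by positivity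
  have h8 := mul_le_mul_of_nonneg_right h5 h6
  have h9 := mul_le_mul_of_nonneg_right h.p h7
  have h10 : (0 : ℝ) ≤ R ^ 3 * kap lam g b2 Gd * (m2 * μ ^ (1 / 2 : ℝ)) := by positivity
  calc Ex ν χ * (8 * R ^ 3 * kap lam g b2 Gd * (m2 * μ ^ (1 / 2 : ℝ))) +
        Ex ν (fun V : X → ℝ => 1 - χ V) * (32 * R ^ 3 * m2 * Kc ^ 4)
      ≤ 1 * (8 * R ^ 3 * kap lam g b2 Gd * (m2 * μ ^ (1 / 2 : ℝ))) +
        p0 * (32 * R ^ 3 * m2 * Kc ^ 4) := add_le_add h8 h9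
    _ ≤ 32 * (R ^ 3 * kap lam g b2 Gd * (m2 * μ ^ (1 / 2 : ℝ))) +
        p0 * (32 * R ^ 3 * m2 * Kc ^ 4) := by linarith
    _ = _ := by ring

theorem lvg (R : ℝ) (hR : 1 ≤ R) : ∃ C : ℝ, 0 < C ∧
    ∀ (X : Type) [Fintype X] [DecidableEq X] (ν : Measure ℝ) (H : Matrix X X ℂ) (s2 lam : ℝ)
      (z g ζ : ℂ) (φ : X → X → ℝ) (χ : (X → ℝ) → ℝ) (B b2 μ Gd p0 Kc m2 : ℝ),
      LvH ν H R s2 lam z g ζ φ χ B b2 μ Gd p0 Kc → 0 ≤ m2 → ∀ x : X,
      ∑ b, (‖Gr H 0 ζ x b‖ / φ x b) ^ 2 ≤ m2 ^ 2 →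
      ‖Ex ν (fun V : X → ℝ => Gv H lam z V x x) - Gr H 0 ζ x x‖ ≤
        C * m2 * (kap lam g b2 Gd * μ ^ (1 / 2 : ℝ) + Kc ^ 4 * p0) := by
  obtain ⟨C, hC, hb⟩ := lvb R hR
  refine ⟨C, hC, ?_⟩
  intro X _ _ ν H s2 lam z g ζ φ χ B b2 μ Gd p0 Kc m2 h hm2 x hx
  have hprob := h.law.prob
  have key := hb X ν H s2 lam z g ζ φ χ B b2 μ Gd p0 Kc h x (fun b => Gr H 0 ζ x b) m2 hm2 hx
  have e1 : ∀ V : X → ℝ, Gv H lam z V x x - Gr H 0 ζ x x =
      ∑ b, Gr H 0 ζ x b * ((-((lam * V b : ℝ) : ℂ) - (lam ^ 2 * s2 : ℝ) * g) *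
        Gv H lam z V b x) := by
    intro V
    have h1 := congrFun (congrFun (Gr_expand h.hH (fun x => lam * V x) h.hz.ne' h.hζ0.ne') x) x
    rw [Matrix.sub_apply] at h1
    rw [Gv, h1, Matrix.mul_apply]
    refine Finset.sum_congr rfl fun b _ => ?_
    rw [Matrix.mul_diagonal, h.hζ]
    push_cast
    ring
  have hcont : ∀ b, Continuous fun V : X → ℝ => Gr H 0 ζ x b *
      ((-((lam * V b : ℝ) : ℂ) - (lam ^ 2 * s2 : ℝ) * g) * Gv H lam z V b x) := fun b => by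
    have h1 := continuous_Gv_xy h.hH lam h.hz.ne' b x
    fun_prop
  have e2 : Ex ν (fun V : X → ℝ => Gv H lam z V x x) - Gr H 0 ζ x x =
      ∑ b, Gr H 0 ζ x b * Ex ν (fun V : X → ℝ =>
        (-((lam * V b : ℝ) : ℂ) - (lam ^ 2 * s2 : ℝ) * g) * Gv H lam z V b x) := by
    have h1 : Ex ν (fun V : X → ℝ => Gv H lam z V x x) - Gr H 0 ζ x x =
        Ex ν (fun V : X → ℝ => Gv H lam z V x x - Gr H 0 ζ x x) := by
      unfold Ex
      rw [integral_sub (int_cont h.law (continuous_Gv_xy h.hH lam h.hz.ne' x x))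
        (integrable_const _), integral_const]
      simp
    rw [h1]
    simp only [e1]
    unfold Ex
    rw [integral_finsetSum _ fun b _ => int_cont h.law (hcont b)]
    refine Finset.sum_congr rfl fun b _ => ?_
    rw [integral_const_mul]
  rw [e2]
  exact key

end Pool.Agent.BK3
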