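import Pool.Agent.BK3.LvDefs

/-! BK3 module LvC: the second expansion. `P_a = (tw u G)_xa conj(G_xa)`, `m` a matrix with weighted
square norm `m2` of the rows and square norm `m2` of the columns. `∑_{a,b} m_ab E[P_a conj(K_b G_ab)]`
`= ∑_{a,b} m_ab conj(E[K_b G_ba conj(P_a)])`, and `one_site` (site `b`, `w = a`, `Φ = conj P_a`) gives
`E[kx_b G_ba conj P_a] + E ∫ (-lam V_b + lam² g (V_b² - s2)) G^t_ba (conj P_a - conj P^t_a)`.
On `{χ ≠ 0}`: first part: `∑_a |P_a| ∑_b |m_ab| 8R³ kap |G_ab| ≤ (Gd/η) 8 R³ kap m2 μ^(1/2)` (`ward`).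
Second part: `|-lam V_b + ..| ≤ 2R² lam`, `|G^t_ba| ≤ 2|G_ba|`, and with `e = 4 R lam |G_xb||G_ba|`:
`|P_a - P^t_a| ≤ e (2|G_xa| + e)`; `∑_{a,b} |m_ab||G_ab|² |G_xa||G_xb| ≤ (1/2) ∑ |m_ab||G_ab|² (|G_xa|² + |G_xb|²)
≤ m2 B^(1/2) Gd/η` (rows and columns: `∑_b |m_ab||G_ab|² ≤ m2 (G4_a)^(1/2)`); the `e²` part has an extra
`lam B^(1/4)`, `lam |G_ab| ≤ lam B^(1/4)`, hence the hypothesis `hB4`. In general: at most `C Kc^8`
(`card² · Kc · Kc²·..`; I allow `Kc^12`). -/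

open MeasureTheory Finset Matrix Pool.Agent.BK

noncomputable section

namespace Pool.Agent.BK3

lemma lvc_mix {c y s D : ℝ} (hc : 0 ≤ c) (hc1 : c ≤ 1) (hD : y ≤ D) (hs : c ≠ 0 → y ≤ s) :
    y ≤ c * s + (1 - c) * D := by
  have h1 : (1 - c) * y ≤ (1 - c) * D := mul_le_mul_of_nonneg_left hD (by linarith)
  have h2 : c * y ≤ c * s := by
    rcases eq_or_ne c 0 with h | h
    · rw [h, zero_mul, zero_mul]
    · exact mul_le_mul_of_nonneg_left (hs h) hc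
  linarith

lemma lvc_sum {X : Type} [Fintype X] {f : X → X → ℝ} {g : X → ℝ} {K W : ℝ}
    (hg : ∀ a, 0 ≤ g a) (h : ∀ a, ∑ b, f a b ≤ K) (hK : 0 ≤ K)
    (hW : ∑ a, g a ≤ W) : ∑ a, ∑ b, f a b * g a ≤ K * W := by
  calc ∑ a, ∑ b, f a b * g a = ∑ a, (∑ b, f a b) * g a :=
        Finset.sum_congr rfl fun a _ => (Finset.sum_mul _ _ _).symm
    _ ≤ ∑ a, K * g a := Finset.sum_le_sum fun a _ => mul_le_mul_of_nonneg_right (h a) (hg a)
    _ = K * ∑ a, g a := (Finset.mul_sum _ _ _).symm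
    _ ≤ K * W := mul_le_mul_of_nonneg_left hW hK

section

variable {X : Type} [Fintype X] [DecidableEq X] {ν : Measure ℝ} {H : Matrix X X ℂ}
  {R s2 lam : ℝ} {z g ζ : ℂ} {φ : X → X → ℝ} {χ : (X → ℝ) → ℝ} {B b2 μ Gd p0 Kc : ℝ}

lemma lvc_norm (h : LvH ν H R s2 lam z g ζ φ χ B b2 μ Gd p0 Kc) (V : X → ℝ) (x y : X) :
    ‖Gv H lam z V x y‖ ≤ Kc :=
  (norm_Gr_le h.hH _ h.hz x y).trans h.kz

omit [Fintype X] [DecidableEq X] in
lemma lvc_twsub {u : X → ℂ} (hu : ∀ x, ‖u x‖ = 1) (A A' : Matrix X X ℂ) (x a : X) :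
    ‖tw u A x a - tw u A' x a‖ = ‖A x a - A' x a‖ := by
  rw [tw1_apply, tw1_apply]
  have h1 : starRingEnd ℂ (u x) * A x a * u a - starRingEnd ℂ (u x) * A' x a * u a =
      starRingEnd ℂ (u x) * (A x a - A' x a) * u a := by ring
  rw [h1, norm_mul, norm_mul, RCLike.norm_conj, hu, hu]
  ring

/-- the product `conj P_a` -/
def lvcP (u : X → ℂ) (H : Matrix X X ℂ) (lam : ℝ) (z : ℂ) (x a : X) (V : X → ℝ) : ℂ :=
  starRingEnd ℂ (tw u (Gv H lam z V) x a * starRingEnd ℂ (Gv H lam z V x a))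

lemma lvcP_norm {u : X → ℂ} (hu : ∀ x, ‖u x‖ = 1) (x a : X) (V : X → ℝ) :
    ‖lvcP u H lam z x a V‖ = ‖Gv H lam z V x a‖ ^ 2 := by
  rw [lvcP, RCLike.norm_conj, norm_mul, norm_tw hu, RCLike.norm_conj]
  ring

lemma lvcP_cont (hH : RS H) (hz : z.im ≠ 0) (u : X → ℂ) (x a : X) :
    Continuous (lvcP u H lam z x a) := by
  have h1 := continuous_Gv_xy hH lam hz x a
  unfold lvcP
  simp only [tw1_apply]
  exact Complex.continuous_conj.comp (((continuous_const.mul h1).mul continuous_const).mul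
    (Complex.continuous_conj.comp h1))

lemma lvcP_sub {u : X → ℂ} (hu : ∀ x, ‖u x‖ = 1) (x a : X) (V V' : X → ℝ) {e : ℝ}
    (he : ‖Gv H lam z V x a - Gv H lam z V' x a‖ ≤ e) :
    ‖lvcP u H lam z x a V - lvcP u H lam z x a V'‖ ≤ e * (2 * ‖Gv H lam z V x a‖ + e) := by
  set G := Gv H lam z V
  set G' := Gv H lam z V'
  have he0 : 0 ≤ e := (norm_nonneg _).trans he
  have h1 : lvcP u H lam z x a V - lvcP u H lam z x a V' =
      starRingEnd ℂ ((tw u G x a - tw u G' x a) * starRingEnd ℂ (G x a) +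
        tw u G' x a * starRingEnd ℂ (G x a - G' x a)) := by
    rw [lvcP, lvcP, ← map_sub]
    congr 1
    rw [map_sub]
    ring
  rw [h1, RCLike.norm_conj]
  refine (norm_add_le _ _).trans ?_
  rw [norm_mul, norm_mul, lvc_twsub hu, norm_tw hu, RCLike.norm_conj, RCLike.norm_conj]
  have h2 : ‖G' x a‖ ≤ ‖G x a‖ + e := by
    have h3 : G' x a = G x a - (G x a - G' x a) := by ring
    rw [h3]
    exact (norm_sub_le _ _).trans (add_le_add le_rfl he)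
  calc ‖G x a - G' x a‖ * ‖G x a‖ + ‖G' x a‖ * ‖G x a - G' x a‖
      ≤ e * ‖G x a‖ + (‖G x a‖ + e) * e := by gcongr
    _ = _ := by ring

/-- the coefficient -/
lemma lvc_coef (h : LvH ν H R s2 lam z g ζ φ χ B b2 μ Gd p0 Kc) {V : X → ℝ}
    (hV : V ∈ Box X R) (b : X) :
    ‖(-((lam * V b : ℝ) : ℂ) + (lam ^ 2 * (V b ^ 2 - s2) : ℝ) * g)‖ ≤ 2 * R ^ 2 * lam := by
  have hR : 1 ≤ R := h.law.R_ge
  have hl := h.lam0
  have hVb := hV b
  have h1 : |V b| ≤ R := abs_le.2 ⟨hVb.1, hVb.2⟩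
  have h2 : V b ^ 2 ≤ R ^ 2 := by
    rw [← sq_abs]
    exact pow_le_pow_left₀ (abs_nonneg _) h1 2
  have h3 := s2_le h.law
  have h4 := h.law.s2_pos
  have h5 : |V b ^ 2 - s2| ≤ R ^ 2 := by
    rw [abs_le]
    constructor
    · have := sq_nonneg (V b)
      linarith
    · linarith
  have hR2 : R ≤ R ^ 2 := by nlinarith
  refine (norm_add_le _ _).trans ?_
  rw [norm_neg, norm_mul, Complex.norm_real, Complex.norm_real, Real.norm_eq_abs,
    Real.norm_eq_abs, abs_mul, abs_mul, abs_of_pos hl, abs_of_pos (pow_pos hl 2)]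
  have h6 : lam * |V b| ≤ lam * R ^ 2 := mul_le_mul_of_nonneg_left (h1.trans hR2) hl.le
  have h7 : lam ^ 2 * |V b ^ 2 - s2| * ‖g‖ ≤ lam * R ^ 2 := by
    calc lam ^ 2 * |V b ^ 2 - s2| * ‖g‖ = (lam * |V b ^ 2 - s2|) * (lam * ‖g‖) := by ring
      _ ≤ (lam * R ^ 2) * 1 := by
          have := h.hg
          gcongr
      _ = lam * R ^ 2 := mul_one _
  linarith

/-- the local bound -/
def lvcS (R lam : ℝ) (g : ℂ) (b2 Gd : ℝ) (G : Matrix X X ℂ) (x a b : X) : ℝ :=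
  8 * R ^ 3 * kap lam g b2 Gd * (‖G a b‖ * ‖G x a‖ ^ 2) +
    (32 * R ^ 3 * lam ^ 2 * (‖G a b‖ ^ 2 * ‖G x a‖ * ‖G x b‖) +
    64 * R ^ 4 * lam ^ 3 * (‖G a b‖ ^ 3 * ‖G x b‖ ^ 2))

lemma lvc_part1 (h : LvH ν H R s2 lam z g ζ φ χ B b2 μ Gd p0 Kc) {u : X → ℂ}
    (hu : ∀ x, ‖u x‖ = 1) (x a b : X) {V : X → ℝ} (hV : V ∈ Box X R) :
    ‖kx ν s2 H lam z g b V * Gv H lam z V b a * lvcP u H lam z x a V‖ ≤
      χ V * (8 * R ^ 3 * kap lam g b2 Gd * (‖Gv H lam z V a b‖ * ‖Gv H lam z V x a‖ ^ 2)) +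
        (1 - χ V) * (32 * R ^ 3 * Kc ^ 5) := by
  have hR : 1 ≤ R := h.law.R_ge
  have hK := h.k1
  obtain ⟨c0, c1⟩ := h.c1 V
  rw [norm_mul, norm_mul, lvcP_norm hu, Gv_symm h.hH h.hz.ne' V b a]
  refine lvc_mix c0 c1 ?_ fun hχ => ?_
  · have h1 := kx_crude (g := g) h.law h.hH h.hz h.lam0 h.lam1 hV b
    have h2 : (1 + ‖g‖) * (1 + 1 / z.im) ≤ (2 * Kc) * (2 * Kc) := by
      have h3 := h.kg
      have h4 := h.kz
      have h5 : 0 ≤ 1 / z.im := by have := h.hz; positivity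
      have h6 : 1 + ‖g‖ ≤ 2 * Kc := by linarith
      have h7 : 1 + 1 / z.im ≤ 2 * Kc := by linarith
      exact mul_le_mul h6 h7 (by linarith) (by linarith)
    have h3 : ‖kx ν s2 H lam z g b V‖ ≤ 32 * R ^ 3 * Kc ^ 2 := by
      refine h1.trans ?_
      calc 8 * R ^ 3 * ((1 + ‖g‖) * (1 + 1 / z.im)) ≤ 8 * R ^ 3 * ((2 * Kc) * (2 * Kc)) := by
            gcongr
        _ = _ := by ring
    have h4 := lvc_norm h V a b
    have h5 := lvc_norm h V x a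
    calc ‖kx ν s2 H lam z g b V‖ * ‖Gv H lam z V a b‖ * ‖Gv H lam z V x a‖ ^ 2
        ≤ (32 * R ^ 3 * Kc ^ 2) * Kc * Kc ^ 2 := by gcongr
      _ = _ := by ring
  · have hreg := h.reg V hV hχ
    have h1 := kx_le (g := g) h.law h.hH h.hz h.lam0 hV h.hb2 (by have := h.sm; linarith) b
      (hreg.dg b) (hreg.gd b)
    have h2 : ‖kx ν s2 H lam z g b V‖ ≤ 8 * R ^ 3 * kap lam g b2 Gd := h1
    calc ‖kx ν s2 H lam z g b V‖ * ‖Gv H lam z V a b‖ * ‖Gv H lam z V x a‖ ^ 2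
        ≤ (8 * R ^ 3 * kap lam g b2 Gd) * ‖Gv H lam z V a b‖ * ‖Gv H lam z V x a‖ ^ 2 := by
          gcongr
      _ = _ := by ring

lemma lvc_part2 (h : LvH ν H R s2 lam z g ζ φ χ B b2 μ Gd p0 Kc) {u : X → ℂ}
    (hu : ∀ x, ‖u x‖ = 1) (x a b : X) {V : X → ℝ} (hV : V ∈ Box X R) {t : ℝ}
    (ht : t ∈ Set.Icc (-R) R) :
    ‖(-((lam * V b : ℝ) : ℂ) + (lam ^ 2 * (V b ^ 2 - s2) : ℝ) * g) *
      Gv H lam z (Function.update V b t) b a *
        (lvcP u H lam z x a V - lvcP u H lam z x a (Function.update V b t))‖ ≤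
      χ V * (32 * R ^ 3 * lam ^ 2 * (‖Gv H lam z V a b‖ ^ 2 * ‖Gv H lam z V x a‖ *
        ‖Gv H lam z V x b‖) +
        64 * R ^ 4 * lam ^ 3 * (‖Gv H lam z V a b‖ ^ 3 * ‖Gv H lam z V x b‖ ^ 2)) +
        (1 - χ V) * (4 * R ^ 3 * Kc ^ 5) := by
  have hR : 1 ≤ R := h.law.R_ge
  have hR0 : 0 ≤ R := by linarith
  have hK := h.k1
  have hl := h.lam0
  obtain ⟨c0, c1⟩ := h.c1 V
  have hcoef := lvc_coef h hV b
  rw [norm_mul, norm_mul, Gv_symm h.hH h.hz.ne' (Function.update V b t) b a]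
  refine lvc_mix c0 c1 ?_ fun hχ => ?_
  · have h4 := lvc_norm h (Function.update V b t) a b
    have h5 := lvc_norm h V x a
    have h6 := lvc_norm h (Function.update V b t) x a
    have h7 : ‖lvcP u H lam z x a V - lvcP u H lam z x a (Function.update V b t)‖ ≤
        2 * Kc ^ 2 := by
      refine (norm_sub_le _ _).trans ?_
      rw [lvcP_norm hu, lvcP_norm hu]
      calc _ ≤ Kc ^ 2 + Kc ^ 2 := by gcongr
        _ = _ := by ring
    have h8 : 2 * R ^ 2 * lam ≤ 2 * R ^ 2 := by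
      have := h.lam1
      nlinarith [sq_nonneg R]
    calc _ ≤ (2 * R ^ 2) * Kc * (2 * Kc ^ 2) := by
          have := hcoef.trans h8
          gcongr
      _ = 4 * (R ^ 2 * Kc ^ 3) := by ring
      _ ≤ 4 * (R ^ 3 * Kc ^ 5) := by
          have e1 : R ^ 2 ≤ R ^ 3 := pow_le_pow_right₀ hR (by norm_num)
          have e2 : Kc ^ 3 ≤ Kc ^ 5 := pow_le_pow_right₀ hK (by norm_num)
          have : (0 : ℝ) ≤ Kc ^ 3 := by positivity
          gcongr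
      _ = _ := by ring
  · have hreg := h.reg V hV hχ
    have hs : 2 * R * lam * ‖Gv H lam z V b b‖ ≤ 1 / 2 := by
      have h1 := hreg.gd b
      have h2 := h.sm
      have h3 : 2 * R * lam * ‖Gv H lam z V b b‖ ≤ 2 * R * lam * Gd := by gcongr
      linarith
    have h4 := one_le h.hH h.hz.ne' hR0 hl.le hV ht hs a
    have h5 := one_sub_le h.hH h.hz.ne' hR0 hl.le hV ht hs x a
    have h6 := lvcP_sub hu x a V (Function.update V b t) h5
    have hee : ee R lam (Gv H lam z V) x a b = 4 * R * lam * (‖Gv H lam z V x b‖ *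
        ‖Gv H lam z V a b‖) := by
      rw [ee, Gv_symm h.hH h.hz.ne' V b a]
      ring
    rw [hee] at h6
    set q := ‖Gv H lam z V a b‖
    set s := ‖Gv H lam z V x b‖
    set r := ‖Gv H lam z V x a‖
    have q0 : 0 ≤ q := norm_nonneg _
    have s0 : 0 ≤ s := norm_nonneg _
    have r0 : 0 ≤ r := norm_nonneg _
    calc _ ≤ (2 * R ^ 2 * lam) * (2 * q) * (4 * R * lam * (s * q) *
          (2 * r + 4 * R * lam * (s * q))) := by gcongr
      _ = _ := by ring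

lemma lvc_term (h : LvH ν H R s2 lam z g ζ φ χ B b2 μ Gd p0 Kc) {u : X → ℂ}
    (hu : ∀ x, ‖u x‖ = 1) (x a b : X) :
    ‖Ex ν (fun V : X → ℝ => tw u (Gv H lam z V) x a *
          starRingEnd ℂ (Gv H lam z V x a) *
          starRingEnd ℂ ((-((lam * V b : ℝ) : ℂ) - (lam ^ 2 * s2 : ℝ) * g) * Gv H lam z V a b))‖ ≤
      Ex ν (fun V : X → ℝ => χ V * lvcS R lam g b2 Gd (Gv H lam z V) x a b +
        (1 - χ V) * (36 * R ^ 3 * Kc ^ 5)) := by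
  have hz := h.hz.ne'
  have hΦ := lvcP_cont (lam := lam) h.hH hz u x a
  have h1 : (fun V : X → ℝ => tw u (Gv H lam z V) x a * starRingEnd ℂ (Gv H lam z V x a) *
      starRingEnd ℂ ((-((lam * V b : ℝ) : ℂ) - (lam ^ 2 * s2 : ℝ) * g) * Gv H lam z V a b)) =
      fun V => starRingEnd ℂ ((-((lam * V b : ℝ) : ℂ) - (lam ^ 2 * s2 : ℝ) * g) *
        Gv H lam z V b a * lvcP u H lam z x a V) := by
    funext V
    rw [map_mul (starRingEnd ℂ) _ (lvcP u H lam z x a V), lvcP, Complex.conj_conj,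
      Gv_symm h.hH hz V b a]
    ring
  have h2 : Ex ν (fun V : X → ℝ => starRingEnd ℂ ((-((lam * V b : ℝ) : ℂ) -
      (lam ^ 2 * s2 : ℝ) * g) * Gv H lam z V b a * lvcP u H lam z x a V)) =
      starRingEnd ℂ (Ex ν (fun V : X → ℝ => (-((lam * V b : ℝ) : ℂ) -
      (lam ^ 2 * s2 : ℝ) * g) * Gv H lam z V b a * lvcP u H lam z x a V)) := integral_conj
  rw [h1, h2, RCLike.norm_conj, one_site h.law h.hH hz hΦ b a]
  refine (norm_add_le _ _).trans ?_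
  have cG : ∀ x y, Continuous fun V : X → ℝ => Gv H lam z V x y :=
    fun x y => continuous_Gv_xy h.hH lam hz x y
  have cχ := h.c0
  have cn : ∀ x y, Continuous fun V : X → ℝ => ‖Gv H lam z V x y‖ := fun x y => (cG x y).norm
  have p1 : ‖Ex ν (fun V : X → ℝ => kx ν s2 H lam z g b V * Gv H lam z V b a *
      lvcP u H lam z x a V)‖ ≤ Ex ν (fun V : X → ℝ => χ V * (8 * R ^ 3 * kap lam g b2 Gd *
        (‖Gv H lam z V a b‖ * ‖Gv H lam z V x a‖ ^ 2)) + (1 - χ V) * (32 * R ^ 3 * Kc ^ 5)) := by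
    refine norm_Ex_le h.law (((continuous_kx h.law h.hH hz b).mul (cG b a)).mul hΦ) ?_
      fun V hV => lvc_part1 h hu x a b hV
    have := cn a b
    have := cn x a
    fun_prop
  have p2 : ‖Ex ν (fun V : X → ℝ => ∫ t, (-((lam * V b : ℝ) : ℂ) +
      (lam ^ 2 * (V b ^ 2 - s2) : ℝ) * g) * Gv H lam z (Function.update V b t) b a *
        (lvcP u H lam z x a V - lvcP u H lam z x a (Function.update V b t)) ∂ν)‖ ≤
      Ex ν (fun V : X → ℝ => χ V * (32 * R ^ 3 * lam ^ 2 * (‖Gv H lam z V a b‖ ^ 2 *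
        ‖Gv H lam z V x a‖ * ‖Gv H lam z V x b‖) +
        64 * R ^ 4 * lam ^ 3 * (‖Gv H lam z V a b‖ ^ 3 * ‖Gv H lam z V x b‖ ^ 2)) +
        (1 - χ V) * (4 * R ^ 3 * Kc ^ 5)) := by
    refine norm_Ex2_le h.law ?_ ?_ fun V hV t ht => lvc_part2 h hu x a b hV ht
    · have k1 := continuous_upd (cG b a) b
      have k2 := continuous_upd hΦ b
      have k3 : Continuous fun p : (X → ℝ) × ℝ => lvcP u H lam z x a p.1 :=
        hΦ.comp continuous_fst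
      have k4 : Continuous fun p : (X → ℝ) × ℝ =>
          (-((lam * p.1 b : ℝ) : ℂ) + (lam ^ 2 * (p.1 b ^ 2 - s2) : ℝ) * g) := by fun_prop
      exact (k4.mul k1).mul (k3.sub k2)
    · have := cn a b
      have := cn x a
      have := cn x b
      fun_prop
  refine (add_le_add p1 p2).trans (le_of_eq ?_)
  rw [← tw2_add]
  · congr 1
    funext V
    rw [lvcS]
    ring
  · refine int_cont h.law ?_
    have := cn a b
    have := cn x a
    fun_prop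
  · refine int_cont h.law ?_
    have := cn a b
    have := cn x a
    have := cn x b
    fun_prop

lemma lvc_kap (h : LvH ν H R s2 lam z g ζ φ χ B b2 μ Gd p0 Kc) : 0 ≤ kap lam g b2 Gd := by
  have h1 := h.lam0
  have h2 := h.hb2
  have h3 := h.hGd
  unfold kap
  positivity

lemma lvc_point (h : LvH ν H R s2 lam z g ζ φ χ B b2 μ Gd p0 Kc)
    (hB4 : lam * B ^ (1 / 4 : ℝ) ≤ 1) (m : Matrix X X ℂ) {m2 : ℝ} (hm2 : 0 ≤ m2)
    (hrow : ∀ a, ∑ b, (‖m a b‖ / φ a b) ^ 2 ≤ m2 ^ 2) (hcol : ∀ b, ∑ a, ‖m a b‖ ^ 2 ≤ m2 ^ 2)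
    (x : X) {V : X → ℝ} (hreg : Reg H lam z g φ B b2 μ Gd V) :
    ∑ a, ∑ b, ‖m a b‖ * lvcS R lam g b2 Gd (Gv H lam z V) x a b ≤
      m2 * (Gd / z.im) * (8 * R ^ 3 * (kap lam g b2 Gd * μ ^ (1 / 2 : ℝ)) +
        96 * R ^ 4 * (lam ^ 2 * B ^ (1 / 2 : ℝ))) := by
  have hR : 1 ≤ R := h.law.R_ge
  have hl := h.lam0
  have hz := h.hz
  have hB0 : 0 ≤ B := by have := h.hB; linarith
  have hkap := lvc_kap h
  set G := Gv H lam z V with hG
  have hsymm : ∀ a b, G a b = G b a := fun a b => Gv_symm h.hH hz.ne' V a b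
  have hGd := h.hGd
  have hW0 : 0 ≤ Gd / z.im := by positivity
  have hW : ∑ a, ‖G x a‖ ^ 2 ≤ Gd / z.im := by
    have h1 := ward h.hH (fun x => lam * V x) hz x
    have h2 : ∑ a, ‖G x a‖ ^ 2 = (G x x).im / z.im := h1
    rw [h2]
    refine div_le_div_of_nonneg_right ?_ hz.le
    exact (le_abs_self _).trans ((Complex.abs_im_le_norm _).trans (hreg.gd x))
  have hsq1 : Real.sqrt (m2 ^ 2) = m2 := Real.sqrt_sq hm2
  have hrow' : ∀ a, ∑ b, ‖m a b‖ ^ 2 ≤ m2 ^ 2 := by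
    intro a
    refine le_trans (Finset.sum_le_sum fun b _ => ?_) (hrow a)
    exact pow_le_pow_left₀ (norm_nonneg _) (le_div_self (norm_nonneg _) (h.w.pos a b) (h.w.le a b)) 2
  have hMa : ∀ a, ∑ b, ‖m a b‖ * ‖G a b‖ ≤ m2 * μ ^ (1 / 2 : ℝ) := by
    intro a
    have e1 : ∀ b, ‖m a b‖ * ‖G a b‖ = (‖m a b‖ / φ a b) * (φ a b * ‖G a b‖) := by
      intro b
      have := (h.w.pos a b).ne'
      field_simp
    rw [Finset.sum_congr rfl fun b _ => e1 b]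
    refine (Real.sum_mul_le_sqrt_mul_sqrt _ _ _).trans ?_
    refine mul_le_mul ?_ ?_ (Real.sqrt_nonneg _) hm2
    · rw [← hsq1]
      exact Real.sqrt_le_sqrt (hrow a)
    · rw [← Real.sqrt_eq_rpow]
      refine Real.sqrt_le_sqrt (le_trans (Finset.sum_le_sum fun b _ => ?_) (hreg.ms a a))
      have h1 := h.w.pos a b
      have h2 := h.w.le a b
      rw [mul_pow]
      have h3 : φ a b ^ 2 ≤ φ a b := by nlinarith
      exact mul_le_mul_of_nonneg_right h3 (by positivity)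
  have hMb : ∀ a, ∑ b, ‖m a b‖ * ‖G a b‖ ^ 2 ≤ m2 * B ^ (1 / 2 : ℝ) := by
    intro a
    refine (Real.sum_mul_le_sqrt_mul_sqrt _ _ _).trans ?_
    refine mul_le_mul ?_ ?_ (Real.sqrt_nonneg _) hm2
    · rw [← hsq1]
      exact Real.sqrt_le_sqrt (hrow' a)
    · rw [← Real.sqrt_eq_rpow]
      refine Real.sqrt_le_sqrt (le_trans (le_of_eq ?_) (hreg.g4 a))
      rw [G4]
      exact Finset.sum_congr rfl fun b _ => by rw [← pow_mul]
  have hMc : ∀ b, ∑ a, ‖m a b‖ * ‖G a b‖ ^ 2 ≤ m2 * B ^ (1 / 2 : ℝ) := by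
    intro b
    refine (Real.sum_mul_le_sqrt_mul_sqrt _ _ _).trans ?_
    refine mul_le_mul ?_ ?_ (Real.sqrt_nonneg _) hm2
    · rw [← hsq1]
      exact Real.sqrt_le_sqrt (hcol b)
    · rw [← Real.sqrt_eq_rpow]
      refine Real.sqrt_le_sqrt (le_trans (le_of_eq ?_) (hreg.g4 b))
      rw [G4]
      exact Finset.sum_congr rfl fun a _ => by rw [← pow_mul, hsymm a b]
  have h4 : ∀ a b, lam * ‖G a b‖ ≤ 1 := by
    intro a b
    have h1 : ‖G a b‖ ^ 4 ≤ B := le_trans (Finset.single_le_sum (f := fun y => ‖G a y‖ ^ 4)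
      (fun _ _ => by positivity) (Finset.mem_univ b)) (hreg.g4 a)
    have h2 : ‖G a b‖ = (‖G a b‖ ^ 4) ^ (1 / 4 : ℝ) := by
      rw [← Real.rpow_natCast, ← Real.rpow_mul (norm_nonneg _)]
      norm_num
    have h3 : ‖G a b‖ ≤ B ^ (1 / 4 : ℝ) := by
      rw [h2]
      exact Real.rpow_le_rpow (by positivity) h1 (by norm_num)
    exact (mul_le_mul_of_nonneg_left h3 hl.le).trans hB4
  have hpt : ∀ a b, ‖m a b‖ * lvcS R lam g b2 Gd G x a b ≤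
      8 * R ^ 3 * kap lam g b2 Gd * ((‖m a b‖ * ‖G a b‖) * ‖G x a‖ ^ 2) +
      16 * R ^ 3 * lam ^ 2 * ((‖m a b‖ * ‖G a b‖ ^ 2) * ‖G x a‖ ^ 2) +
      (16 * R ^ 3 + 64 * R ^ 4) * lam ^ 2 * ((‖m a b‖ * ‖G a b‖ ^ 2) * ‖G x b‖ ^ 2) := by
    intro a b
    have h5 := h4 a b
    set mm := ‖m a b‖
    set q := ‖G a b‖
    set r := ‖G x a‖
    set s := ‖G x b‖
    have m0 : 0 ≤ mm := norm_nonneg _
    have q0 : 0 ≤ q := norm_nonneg _
    have e1 : 32 * R ^ 3 * lam ^ 2 * (q ^ 2 * r * s) ≤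
        16 * R ^ 3 * lam ^ 2 * (q ^ 2 * r ^ 2) + 16 * R ^ 3 * lam ^ 2 * (q ^ 2 * s ^ 2) := by
      have h6 : 0 ≤ 16 * R ^ 3 * lam ^ 2 * q ^ 2 * (r - s) ^ 2 := by positivity
      nlinarith [h6]
    have e2 : 64 * R ^ 4 * lam ^ 3 * (q ^ 3 * s ^ 2) ≤ 64 * R ^ 4 * lam ^ 2 * (q ^ 2 * s ^ 2) := by
      calc 64 * R ^ 4 * lam ^ 3 * (q ^ 3 * s ^ 2) =
            64 * R ^ 4 * lam ^ 2 * (q ^ 2 * s ^ 2) * (lam * q) := by ring
        _ ≤ 64 * R ^ 4 * lam ^ 2 * (q ^ 2 * s ^ 2) * 1 :=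
            mul_le_mul_of_nonneg_left h5 (by positivity)
        _ = _ := mul_one _
    calc mm * lvcS R lam g b2 Gd G x a b = mm * (8 * R ^ 3 * kap lam g b2 Gd * (q * r ^ 2) +
          (32 * R ^ 3 * lam ^ 2 * (q ^ 2 * r * s) + 64 * R ^ 4 * lam ^ 3 * (q ^ 3 * s ^ 2))) := rfl
      _ ≤ mm * (8 * R ^ 3 * kap lam g b2 Gd * (q * r ^ 2) +
          ((16 * R ^ 3 * lam ^ 2 * (q ^ 2 * r ^ 2) + 16 * R ^ 3 * lam ^ 2 * (q ^ 2 * s ^ 2)) +
            64 * R ^ 4 * lam ^ 2 * (q ^ 2 * s ^ 2))) := by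
          gcongr
      _ = _ := by ring
  have s1 : ∑ a, ∑ b, (‖m a b‖ * ‖G a b‖) * ‖G x a‖ ^ 2 ≤
      (m2 * μ ^ (1 / 2 : ℝ)) * (Gd / z.im) :=
    lvc_sum (fun a => by positivity) hMa (by have := h.hμ; positivity) hW
  have s2' : ∑ a, ∑ b, (‖m a b‖ * ‖G a b‖ ^ 2) * ‖G x a‖ ^ 2 ≤
      (m2 * B ^ (1 / 2 : ℝ)) * (Gd / z.im) :=
    lvc_sum (fun a => by positivity) hMb (by positivity) hW
  have s3 : ∑ a, ∑ b, (‖m a b‖ * ‖G a b‖ ^ 2) * ‖G x b‖ ^ 2 ≤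
      (m2 * B ^ (1 / 2 : ℝ)) * (Gd / z.im) := by
    rw [Finset.sum_comm]
    exact lvc_sum (f := fun b a => ‖m a b‖ * ‖G a b‖ ^ 2) (g := fun b => ‖G x b‖ ^ 2)
      (fun a => by positivity) hMc (by positivity) hW
  calc ∑ a, ∑ b, ‖m a b‖ * lvcS R lam g b2 Gd G x a b
      ≤ ∑ a, ∑ b, (8 * R ^ 3 * kap lam g b2 Gd * ((‖m a b‖ * ‖G a b‖) * ‖G x a‖ ^ 2) +
      16 * R ^ 3 * lam ^ 2 * ((‖m a b‖ * ‖G a b‖ ^ 2) * ‖G x a‖ ^ 2) +
      (16 * R ^ 3 + 64 * R ^ 4) * lam ^ 2 * ((‖m a b‖ * ‖G a b‖ ^ 2) * ‖G x b‖ ^ 2)) :=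
        Finset.sum_le_sum fun a _ => Finset.sum_le_sum fun b _ => hpt a b
    _ = 8 * R ^ 3 * kap lam g b2 Gd * (∑ a, ∑ b, (‖m a b‖ * ‖G a b‖) * ‖G x a‖ ^ 2) +
      16 * R ^ 3 * lam ^ 2 * (∑ a, ∑ b, (‖m a b‖ * ‖G a b‖ ^ 2) * ‖G x a‖ ^ 2) +
      (16 * R ^ 3 + 64 * R ^ 4) * lam ^ 2 *
        (∑ a, ∑ b, (‖m a b‖ * ‖G a b‖ ^ 2) * ‖G x b‖ ^ 2) := by
        simp only [Finset.sum_add_distrib, ← Finset.mul_sum]
    _ ≤ 8 * R ^ 3 * kap lam g b2 Gd * ((m2 * μ ^ (1 / 2 : ℝ)) * (Gd / z.im)) +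
      16 * R ^ 3 * lam ^ 2 * ((m2 * B ^ (1 / 2 : ℝ)) * (Gd / z.im)) +
      (16 * R ^ 3 + 64 * R ^ 4) * lam ^ 2 * ((m2 * B ^ (1 / 2 : ℝ)) * (Gd / z.im)) := by
        have e1 : 0 ≤ 8 * R ^ 3 * kap lam g b2 Gd := by positivity
        have e2 : 0 ≤ 16 * R ^ 3 * lam ^ 2 := by positivity
        have e3 : 0 ≤ (16 * R ^ 3 + 64 * R ^ 4) * lam ^ 2 := by positivity
        exact add_le_add (add_le_add (mul_le_mul_of_nonneg_left s1 e1)
          (mul_le_mul_of_nonneg_left s2' e2)) (mul_le_mul_of_nonneg_left s3 e3)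
    _ = m2 * (Gd / z.im) * (8 * R ^ 3 * (kap lam g b2 Gd * μ ^ (1 / 2 : ℝ)) +
        (32 * R ^ 3 + 64 * R ^ 4) * (lam ^ 2 * B ^ (1 / 2 : ℝ))) := by ring
    _ ≤ _ := by
        have e1 : R ^ 3 ≤ R ^ 4 := pow_le_pow_right₀ hR (by norm_num)
        have e2 : 0 ≤ lam ^ 2 * B ^ (1 / 2 : ℝ) := by positivity
        have e3 : (32 * R ^ 3 + 64 * R ^ 4) * (lam ^ 2 * B ^ (1 / 2 : ℝ)) ≤
            96 * R ^ 4 * (lam ^ 2 * B ^ (1 / 2 : ℝ)) :=
          mul_le_mul_of_nonneg_right (by linarith) e2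
        exact mul_le_mul_of_nonneg_left (by linarith) (by positivity)

end

theorem lvc (R : ℝ) (hR : 1 ≤ R) : ∃ C : ℝ, 0 < C ∧
    ∀ (X : Type) [Fintype X] [DecidableEq X] (ν : Measure ℝ) (H : Matrix X X ℂ) (s2 lam : ℝ)
      (z g ζ : ℂ) (φ : X → X → ℝ) (χ : (X → ℝ) → ℝ) (B b2 μ Gd p0 Kc : ℝ),
      LvH ν H R s2 lam z g ζ φ χ B b2 μ Gd p0 Kc → lam * B ^ (1 / 4 : ℝ) ≤ 1 →
      ∀ (u : X → ℂ), (∀ x, ‖u x‖ = 1) → ∀ (m : Matrix X X ℂ) (m2 : ℝ), 0 ≤ m2 →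
      (∀ a b, ‖m a b‖ ≤ Kc) → (∀ a, ∑ b, (‖m a b‖ / φ a b) ^ 2 ≤ m2 ^ 2) →
      (∀ b, ∑ a, ‖m a b‖ ^ 2 ≤ m2 ^ 2) → ∀ x : X,
      ‖∑ a, ∑ b, m a b * Ex ν (fun V : X → ℝ => tw u (Gv H lam z V) x a *
          starRingEnd ℂ (Gv H lam z V x a) *
          starRingEnd ℂ ((-((lam * V b : ℝ) : ℂ) - (lam ^ 2 * s2 : ℝ) * g) * Gv H lam z V a b))‖ ≤
      C * (m2 * (Gd / z.im) * (kap lam g b2 Gd * μ ^ (1 / 2 : ℝ) + lam ^ 2 * B ^ (1 / 2 : ℝ)) +
        Kc ^ 12 * p0) := by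
  refine ⟨200 * R ^ 4, by positivity, ?_⟩
  intro X _ _ ν H s2 lam z g ζ φ χ B b2 μ Gd p0 Kc h hB4 u hu m m2 hm2 hmK hrow hcol x
  have hK := h.k1
  have hl := h.lam0
  have hz := h.hz
  have hB0 : 0 ≤ B := by have := h.hB; linarith
  have hμ := h.hμ
  have hGd := h.hGd
  have hkap := lvc_kap h
  have hp0 : 0 ≤ p0 := (Ex_box_nonneg h.law fun V _ => by
    have := (h.c1 V).2
    linarith).trans h.p
  have cχ := h.c0
  set A : ℝ := m2 * (Gd / z.im) * (8 * R ^ 3 * (kap lam g b2 Gd * μ ^ (1 / 2 : ℝ)) +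
        96 * R ^ 4 * (lam ^ 2 * B ^ (1 / 2 : ℝ))) with hA
  have hA0 : 0 ≤ A := by rw [hA]; positivity
  set D : ℝ := 36 * R ^ 3 * Kc ^ 5 with hD
  have hD0 : 0 ≤ D := by rw [hD]; positivity
  have cS : ∀ a b, Continuous fun V : X → ℝ => lvcS R lam g b2 Gd (Gv H lam z V) x a b := by
    intro a b
    have h1 := (continuous_Gv_xy h.hH lam hz.ne' a b).norm
    have h2 := (continuous_Gv_xy h.hH lam hz.ne' x a).norm
    have h3 := (continuous_Gv_xy h.hH lam hz.ne' x b).norm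
    unfold lvcS
    fun_prop
  have cT : ∀ a b, Continuous fun V : X → ℝ => ‖m a b‖ * (χ V *
      lvcS R lam g b2 Gd (Gv H lam z V) x a b + (1 - χ V) * D) := by
    intro a b
    have := cS a b
    fun_prop
  have hsum : ∑ a, ∑ b, ‖m a b‖ * Ex ν (fun V : X → ℝ => χ V *
      lvcS R lam g b2 Gd (Gv H lam z V) x a b + (1 - χ V) * D) =
      Ex ν (fun V : X → ℝ => ∑ a, ∑ b, ‖m a b‖ * (χ V *
        lvcS R lam g b2 Gd (Gv H lam z V) x a b + (1 - χ V) * D)) := by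
    have e1 : Ex ν (fun V : X → ℝ => ∑ a, ∑ b, ‖m a b‖ * (χ V *
        lvcS R lam g b2 Gd (Gv H lam z V) x a b + (1 - χ V) * D)) =
        ∑ a, Ex ν (fun V : X → ℝ => ∑ b, ‖m a b‖ * (χ V *
        lvcS R lam g b2 Gd (Gv H lam z V) x a b + (1 - χ V) * D)) :=
      integral_finsetSum _ fun a _ => int_cont h.law (continuous_finsetSum _ fun b _ => cT a b)
    rw [e1]
    refine Finset.sum_congr rfl fun a _ => ?_
    have e2 : Ex ν (fun V : X → ℝ => ∑ b, ‖m a b‖ * (χ V *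
        lvcS R lam g b2 Gd (Gv H lam z V) x a b + (1 - χ V) * D)) =
        ∑ b, Ex ν (fun V : X → ℝ => ‖m a b‖ * (χ V *
        lvcS R lam g b2 Gd (Gv H lam z V) x a b + (1 - χ V) * D)) :=
      integral_finsetSum _ fun b _ => int_cont h.law (cT a b)
    rw [e2]
    exact Finset.sum_congr rfl fun b _ => (tw2_rmul _ _).symm
  have hms : ∑ a, ∑ b, ‖m a b‖ ≤ Kc ^ 3 := by
    have hX := h.kX
    calc ∑ a, ∑ b, ‖m a b‖ ≤ ∑ a : X, ∑ b : X, Kc :=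
          Finset.sum_le_sum fun a _ => Finset.sum_le_sum fun b _ => hmK a b
      _ = (Fintype.card X : ℝ) * ((Fintype.card X : ℝ) * Kc) := by
          simp only [Finset.sum_const, Finset.card_univ, nsmul_eq_mul]
      _ ≤ Kc * (Kc * Kc) := by gcongr
      _ = Kc ^ 3 := by ring
  have hbox : Ex ν (fun V : X → ℝ => ∑ a, ∑ b, ‖m a b‖ * (χ V *
        lvcS R lam g b2 Gd (Gv H lam z V) x a b + (1 - χ V) * D)) ≤
      Ex ν (fun V : X → ℝ => A + (D * Kc ^ 3) * (1 - χ V)) := by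
    refine Ex_box_mono h.law (continuous_finsetSum _ fun a _ => continuous_finsetSum _
      fun b _ => cT a b) (by fun_prop) fun V hV => ?_
    obtain ⟨c0, c1⟩ := h.c1 V
    have e1 : ∑ a, ∑ b, ‖m a b‖ * (χ V *
        lvcS R lam g b2 Gd (Gv H lam z V) x a b + (1 - χ V) * D) =
        χ V * (∑ a, ∑ b, ‖m a b‖ * lvcS R lam g b2 Gd (Gv H lam z V) x a b) +
          ((1 - χ V) * D) * ∑ a, ∑ b, ‖m a b‖ := by
      rw [Finset.mul_sum, Finset.mul_sum, ← Finset.sum_add_distrib]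
      refine Finset.sum_congr rfl fun a _ => ?_
      rw [Finset.mul_sum, Finset.mul_sum, ← Finset.sum_add_distrib]
      exact Finset.sum_congr rfl fun b _ => by ring
    rw [e1]
    have e2 : χ V * (∑ a, ∑ b, ‖m a b‖ * lvcS R lam g b2 Gd (Gv H lam z V) x a b) ≤ A := by
      rcases eq_or_ne (χ V) 0 with hχ | hχ
      · rw [hχ, zero_mul]
        exact hA0
      · have e3 := lvc_point h hB4 m hm2 hrow hcol x (h.reg V hV hχ)
        calc _ ≤ χ V * A := mul_le_mul_of_nonneg_left e3 c0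
          _ ≤ 1 * A := mul_le_mul_of_nonneg_right c1 hA0
          _ = A := one_mul _
    have e4 : ((1 - χ V) * D) * ∑ a, ∑ b, ‖m a b‖ ≤ ((1 - χ V) * D) * Kc ^ 3 :=
      mul_le_mul_of_nonneg_left hms (mul_nonneg (by linarith) hD0)
    linarith
  have hfin : Ex ν (fun V : X → ℝ => A + (D * Kc ^ 3) * (1 - χ V)) ≤ A + (D * Kc ^ 3) * p0 := by
    rw [tw2_add (int_cont h.law continuous_const) (int_cont h.law (by fun_prop)),
      Ex_one h.law, tw2_rmul]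
    have := h.p
    have h0 : 0 ≤ D * Kc ^ 3 := by positivity
    exact add_le_add le_rfl (mul_le_mul_of_nonneg_left h.p h0)
  calc _ ≤ ∑ a, ‖∑ b, m a b * Ex ν (fun V : X → ℝ => tw u (Gv H lam z V) x a *
          starRingEnd ℂ (Gv H lam z V x a) *
          starRingEnd ℂ ((-((lam * V b : ℝ) : ℂ) - (lam ^ 2 * s2 : ℝ) * g) *
            Gv H lam z V a b))‖ := norm_sum_le _ _
    _ ≤ ∑ a, ∑ b, ‖m a b‖ * Ex ν (fun V : X → ℝ => χ V *
      lvcS R lam g b2 Gd (Gv H lam z V) x a b + (1 - χ V) * D) := by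
        refine Finset.sum_le_sum fun a _ => (norm_sum_le _ _).trans
          (Finset.sum_le_sum fun b _ => ?_)
        rw [norm_mul]
        exact mul_le_mul_of_nonneg_left (lvc_term h hu x a b) (norm_nonneg _)
    _ ≤ A + (D * Kc ^ 3) * p0 := by
        rw [hsum]
        exact hbox.trans hfin
    _ ≤ _ := by
        rw [hA, hD]
        have hR0 : 0 ≤ R := by linarith
        have e1 : R ^ 3 ≤ R ^ 4 := pow_le_pow_right₀ hR (by norm_num)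
        have e2 : Kc ^ 8 ≤ Kc ^ 12 := pow_le_pow_right₀ hK (by norm_num)
        have e3 : 36 * R ^ 3 * Kc ^ 5 * Kc ^ 3 * p0 ≤ 200 * R ^ 4 * (Kc ^ 12 * p0) := by
          calc 36 * R ^ 3 * Kc ^ 5 * Kc ^ 3 * p0 = 36 * R ^ 3 * (Kc ^ 8 * p0) := by ring
            _ ≤ 200 * R ^ 4 * (Kc ^ 12 * p0) := by
                have : 36 * R ^ 3 ≤ 200 * R ^ 4 := by
                  have : 0 ≤ R ^ 4 := by positivity
                  linarith
                gcongr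
        have k1 : 0 ≤ kap lam g b2 Gd * μ ^ (1 / 2 : ℝ) := by positivity
        have k2 : 0 ≤ lam ^ 2 * B ^ (1 / 2 : ℝ) := by positivity
        have k3 : 0 ≤ R ^ 4 := by positivity
        have e4 : 8 * R ^ 3 * (kap lam g b2 Gd * μ ^ (1 / 2 : ℝ)) +
            96 * R ^ 4 * (lam ^ 2 * B ^ (1 / 2 : ℝ)) ≤
            200 * R ^ 4 * (kap lam g b2 Gd * μ ^ (1 / 2 : ℝ) + lam ^ 2 * B ^ (1 / 2 : ℝ)) := by
          have e5 : 8 * R ^ 3 * (kap lam g b2 Gd * μ ^ (1 / 2 : ℝ)) ≤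
              200 * R ^ 4 * (kap lam g b2 Gd * μ ^ (1 / 2 : ℝ)) :=
            mul_le_mul_of_nonneg_right (by linarith) k1
          have e6 : 96 * R ^ 4 * (lam ^ 2 * B ^ (1 / 2 : ℝ)) ≤
              200 * R ^ 4 * (lam ^ 2 * B ^ (1 / 2 : ℝ)) :=
            mul_le_mul_of_nonneg_right (by linarith) k2
          linarith
        have e7 := mul_le_mul_of_nonneg_left e4 (show 0 ≤ m2 * (Gd / z.im) by positivity)
        calc _ ≤ m2 * (Gd / z.im) * (200 * R ^ 4 * (kap lam g b2 Gd * μ ^ (1 / 2 : ℝ) +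
              lam ^ 2 * B ^ (1 / 2 : ℝ))) + 200 * R ^ 4 * (Kc ^ 12 * p0) := add_le_add e7 e3
          _ = _ := by ring

end Pool.Agent.BK3
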