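import Pool.Agent.BK3.OneS
import Pool.Agent.BK.Tw2

/-! BK3: data of the expectation-level estimates. -/

open MeasureTheory Finset Matrix Pool.Agent.BK

noncomputable section

namespace Pool.Agent.BK3

/-- The size `κ = lam² b2 + lam³ Gd (Gd + |g|)` of the error factor `kx`. -/
def kap (lam : ℝ) (g : ℂ) (b2 Gd : ℝ) : ℝ := lam ^ 2 * b2 + lam ^ 3 * Gd * (Gd + ‖g‖)

/-- Common data: `M = (H - ζ)⁻¹`, a cutoff `χ` with region data on its support, `E(1 - χ) ≤ p0`, and a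
crude constant `Kc`. -/
structure LvH {X : Type} [Fintype X] [DecidableEq X] (ν : Measure ℝ) (H : Matrix X X ℂ)
    (R s2 lam : ℝ) (z g ζ : ℂ) (φ : X → X → ℝ) (χ : (X → ℝ) → ℝ) (B b2 μ Gd p0 Kc : ℝ) : Prop where
  law : BLaw ν R s2
  hH : RS H
  lam0 : 0 < lam
  lam1 : lam ≤ 1
  hz : 0 < z.im
  hζ : ζ = z + (lam ^ 2 * s2 : ℝ) * g
  hζ0 : 0 < ζ.im
  hg : lam * ‖g‖ ≤ 1
  w : Wgt φ
  hB : 1 ≤ B
  hb2 : 0 ≤ b2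
  hμ : 0 ≤ μ
  hGd : 0 ≤ Gd
  sm : 4 * R * lam * Gd ≤ 1
  c0 : Continuous χ
  c1 : ∀ V, 0 ≤ χ V ∧ χ V ≤ 1
  reg : ∀ V ∈ Box X R, χ V ≠ 0 → Reg H lam z g φ B b2 μ Gd V
  p : Ex ν (fun V => 1 - χ V) ≤ p0
  k1 : 1 ≤ Kc
  kX : (Fintype.card X : ℝ) ≤ Kc
  kz : 1 / z.im ≤ Kc
  kg : ‖g‖ ≤ Kc

/-- `r_ab = (N Gᴴ)_ab`. -/
def rr {X : Type} [Fintype X] [DecidableEq X] (H : Matrix X X ℂ) (lam : ℝ) (z : ℂ)
    (N : Matrix X X ℂ) (V : X → ℝ) : Matrix X X ℂ := N * (Gv H lam z V)ᴴ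

end Pool.Agent.BK3
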