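import Pool.Agent.BK3.RegW
import Pool.Agent.BK3.LvB
import Pool.Agent.BK3.Sm

/-! BK3 module LvI: the data `LvH` on the torus, weak form, with `Gd = 4 lam^(-y)`, `p0 = lam^D0`,
`Kc = lam^(-(43 d + 1))`. Everything is read off: `zfacts` (law, `ζ`, `lam |g| ≤ 1`, `|g| ≤ 3 lam^(-y)`), `regw`,
`one_sub_chi`, `continuous_chi`, `chi_mem`, `wgt_ph2`, `RS_H0`; `card (Tor d n) = (2n+1)^d ≤ lam^(-43 d)`,
`1/η ≤ lam^(-A) ≤ lam^(-3)`; `4 R lam · 4 lam^(-y) ≤ 1` because `y < 1` (from `room` and `A2`).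
`y_lt`: `y0 + 50 e ≤ 1/2`, used often (`room`, `A2`). -/

open MeasureTheory Finset Matrix Pool.Agent.BK

noncomputable section

namespace Pool.Agent.BK3

variable {ν : Measure ℝ} {R s2 : ℝ}

lemma y_lt (c : Cx) (hc : c.Ok) : c.y0 + 50 * c.e ≤ 1 / 2 := by
  have h1 := hc.room
  have h2 := hc.A2
  linarith

lemma card_tor_le {c : Cx} {lam0 : ℝ} {π : Par} (hπ : π ∈ c.PT lam0) :
    (Fintype.card (Tor c.d π.n) : ℝ) ≤ π.lam ^ (-(43 * (c.d : ℝ))) := by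
  obtain ⟨h0, -, -, h3, -⟩ := hπ
  have h4 : (Fintype.card (Tor c.d π.n) : ℝ) = (2 * (π.n : ℝ) + 1) ^ c.d := by
    have : Fintype.card (Tor c.d π.n) = (2 * π.n + 1) ^ c.d := by
      rw [Fintype.card_fun, ZMod.card, Fintype.card_fin]
    rw [this]
    push_cast
    ring
  rw [h4]
  calc (2 * (π.n : ℝ) + 1) ^ c.d ≤ (π.lam ^ (-(43 : ℝ))) ^ c.d :=
        pow_le_pow_left₀ (by positivity) h3 _
    _ = π.lam ^ (-(43 * (c.d : ℝ))) := by
        rw [rp_pow h0]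
        congr 1
        ring

lemma inv_eta_le {c : Cx} (hc : c.Ok) {lam0 : ℝ} (h1 : lam0 ≤ 1) {π : Par} (hπ : π ∈ c.PT lam0) :
    0 < π.eta ∧ 1 / π.eta ≤ π.lam ^ (-c.A) ∧ π.lam ^ (-c.A) ≤ π.lam ^ (-(3 : ℝ)) := by
  obtain ⟨h0, h2, -, -, -, -, h3, -⟩ := hπ
  have h4 : 0 < π.lam ^ c.A := rp_pos h0 _
  refine ⟨lt_of_lt_of_le h4 h3, ?_, ?_⟩
  · rw [Real.rpow_neg h0.le, ← one_div]
    exact one_div_le_one_div_of_le h4 h3
  · refine rp_anti h0 (h2.trans h1) ?_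
    have := hc.A3
    linarith

theorem lvi (hν : BLaw ν R s2) (c : Cx) (hc : c.Ok) (ℓ : ℕ) :
    ∃ lam1 : ℝ, 0 < lam1 ∧ lam1 ≤ 1 ∧ ∀ π ∈ c.S ν lam1,
      LvH ν (H0 c.d π.n) R s2 π.lam π.z (gb ν c.d π) (zt ν s2 c.d π) (ph2 (c.rw π.lam))
        (c.chi ν ℓ π) (c.B π.lam) (c.bb π.lam) (c.mu π.lam) (4 * π.lam ^ (-c.y)) (π.lam ^ c.D0)
        (π.lam ^ (-(43 * (c.d : ℝ) + 1))) := by
  have hy := y_lt c hc
  have he := hc.e0
  have hy0 := hc.y0
  have hyy : c.y = c.y0 + c.e := rfl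
  obtain ⟨la, ha0, ha1, ha⟩ := zfacts hν c hc
  obtain ⟨lb, hb0, hb1, hb⟩ := regw hν c hc ℓ
  obtain ⟨lc, hc0, hc1, hcc⟩ := sm_one (16 * R) (show 0 < 1 - c.y by linarith)
  refine ⟨min la (min lb lc), lt_min ha0 (lt_min hb0 hc0), (min_le_left _ _).trans ha1, ?_⟩
  intro π hπ
  have hπa : π ∈ c.S ν la := c.S_mono ν (min_le_left _ _) hπ
  have hπb : π ∈ c.S ν lb := c.S_mono ν ((min_le_right _ _).trans (min_le_left _ _)) hπ
  have hπc : π ∈ c.S ν lc := c.S_mono ν ((min_le_right _ _).trans (min_le_right _ _)) hπ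
  have Z := ha π hπa
  have l0 := Z.l0
  have l1 := Z.l1
  have hd3 : (3 : ℝ) ≤ c.d := by exact_mod_cast hc.d3
  obtain ⟨e0, e1, e2⟩ := inv_eta_le hc ha1 hπa.1
  have hB : 1 ≤ c.B π.lam := by
    unfold Cx.B
    have : π.lam ^ (0 : ℝ) ≤ π.lam ^ (-(4 * c.y) - c.t) := by
      refine rp_anti l0 l1 ?_
      have : c.t = c.e / 1000 := rfl
      linarith
    rwa [Real.rpow_zero] at this
  have hlg : ‖gb ν c.d π‖ ≤ π.lam ^ (-(1 : ℝ)) := by
    rw [Real.rpow_neg l0.le, Real.rpow_one, ← one_div, le_div_iff₀ l0, mul_comm]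
    exact Z.lg
  exact
    { law := hν
      hH := RS_H0 c.d π.n
      lam0 := l0
      lam1 := l1
      hz := e0
      hζ := rfl
      hζ0 := lt_of_lt_of_le e0 Z.im_eta
      hg := Z.lg
      w := wgt_ph2 (rp_pos l0 _)
      hB := hB
      hb2 := (rp_pos l0 _).le
      hμ := (rp_pos l0 _).le
      hGd := by
        have := rp_pos l0 (-c.y)
        positivity
      sm := by
        have h1 := hcc π.lam l0 hπc.1.2.1
        have h2 : π.lam ^ (1 - c.y) = π.lam * π.lam ^ (-c.y) := by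
          rw [sub_eq_add_neg, Real.rpow_add l0, Real.rpow_one]
        rw [h2] at h1
        calc 4 * R * π.lam * (4 * π.lam ^ (-c.y)) = 16 * R * (π.lam * π.lam ^ (-c.y)) := by ring
          _ ≤ 1 := h1
      c0 := continuous_chi c ν ℓ π e0
      c1 := chi_mem c ν ℓ π
      reg := fun V _ hV => hb π hπb V hV
      p := one_sub_chi hν c ℓ hπa
      k1 := by
        have : π.lam ^ (0 : ℝ) ≤ π.lam ^ (-(43 * (c.d : ℝ) + 1)) :=
          rp_anti l0 l1 (by linarith)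
        rwa [Real.rpow_zero] at this
      kX := (card_tor_le hπa.1).trans (rp_anti l0 l1 (by linarith))
      kz := e1.trans (e2.trans (rp_anti l0 l1 (by linarith)))
      kg := hlg.trans (rp_anti l0 l1 (by linarith)) }

end Pool.Agent.BK3
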