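import Pool.Agent.BK3.LvA
import Pool.Agent.BK3.LvB
import Pool.Agent.BK3.LvC

/-! BK3 module Lvl: the transport equation at the level of expectations (abstract form).
`J = E (twG (twH - H) Gᴴ)_xx`, `ρ = E (twG Gᴴ)_xx`, `N = twM (twH - H)`, `m = N Mᴴ`, `m_aa = ν0`.
`tw2_expand` (BK/Tw2, general): `J = E r_xx + ∑_a E[K_a twG_xa r_ax]`, `r = N Gᴴ`.
(i) `r_ab - m_ab = ∑_c m_ac conj(K_c) conj(G_bc)` (`Gr_expand'` conjugated), so `|E r_xx - ν0| ≤ C m2 (..)` by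
`lvb` with `c_b = conj(m_xb)`;
(ii) `lva` for each `a`, summed: `∑_a |G_xa||r_ax| ≤ bN Gd/η` (Cauchy-Schwarz, `ward`, `hbN` for the column
`r_{·x} = N conj(G_x·)`), `|r_aa| ≤ n2 μ^(1/2)`, `∑ |G_xa|² ≤ Gd/η`; there are `card X ≤ Kc` sites;
(iii) `lam² s2 ∑_a E[P_a r_aa] = lam² s2 ν0 ρ + lam² s2 ∑_a E[P_a (r_aa - m_aa)]` and `lvc`.
`s2 ≤ R²` (`s2_le`). -/

open MeasureTheory Finset Matrix Pool.Agent.BK

noncomputable section

namespace Pool.Agent.BK3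

section Aux

variable {X : Type} [Fintype X] [DecidableEq X]

/-- `r - m = m K̄ Gᴴ`. -/
lemma lvl_exp {H : Matrix X X ℂ} (hH : RS H) {lam s2 : ℝ} {z g ζ : ℂ} (hz : z.im ≠ 0)
    (hζ0 : ζ.im ≠ 0) (hζ : ζ = z + (lam ^ 2 * s2 : ℝ) * g) (N : Matrix X X ℂ) (V : X → ℝ)
    (a b : X) :
    rr H lam z N V a b - (N * (Gr H 0 ζ)ᴴ) a b = ∑ c, (N * (Gr H 0 ζ)ᴴ) a c *
      starRingEnd ℂ ((-((lam * V c : ℝ) : ℂ) - (lam ^ 2 * s2 : ℝ) * g) *
        Gv H lam z V b c) := by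
  have h1 : Gv H lam z V - Gr H 0 ζ = Gv H lam z V *
      Matrix.diagonal (fun x => z - ζ - ((lam * V x : ℝ) : ℂ)) * Gr H 0 ζ :=
    Gr_expand' hH (fun x => lam * V x) hz hζ0
  have h2 : (Gv H lam z V)ᴴ - (Gr H 0 ζ)ᴴ = (Gr H 0 ζ)ᴴ *
      ((Matrix.diagonal (fun x => z - ζ - ((lam * V x : ℝ) : ℂ)))ᴴ * (Gv H lam z V)ᴴ) := by
    rw [← Matrix.conjTranspose_mul, ← Matrix.conjTranspose_mul, ← Matrix.conjTranspose_sub, h1]
  have h3 : rr H lam z N V - N * (Gr H 0 ζ)ᴴ = (N * (Gr H 0 ζ)ᴴ) *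
      ((Matrix.diagonal (fun x => z - ζ - ((lam * V x : ℝ) : ℂ)))ᴴ * (Gv H lam z V)ᴴ) := by
    unfold rr
    rw [← Matrix.mul_sub, h2, Matrix.mul_assoc]
  have h4 := congrFun (congrFun h3 a) b
  rw [Matrix.sub_apply] at h4
  rw [h4, Matrix.mul_apply]
  refine Finset.sum_congr rfl fun c _ => ?_
  congr 1
  rw [Matrix.diagonal_conjTranspose, Matrix.diagonal_mul, Matrix.conjTranspose_apply, map_mul]
  have h5 : z - ζ - ((lam * V c : ℝ) : ℂ) = -((lam * V c : ℝ) : ℂ) - (lam ^ 2 * s2 : ℝ) * g := by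
    rw [hζ]
    ring
  show star (z - ζ - ((lam * V c : ℝ) : ℂ)) * star (Gv H lam z V b c) = _
  rw [h5]
  rfl

omit [DecidableEq X] in
/-- Cauchy-Schwarz with weights. -/
lemma lvl_cs {N G : X → ℂ} {φ : X → ℝ} {n2 μ : ℝ} (hφ : ∀ b, 0 < φ b) (hφ1 : ∀ b, φ b ≤ 1)
    (hn : 0 ≤ n2) (hμ : 0 ≤ μ) (h1 : ∑ b, (‖N b‖ / φ b) ^ 2 ≤ n2 ^ 2)
    (h2 : ∑ b, φ b * ‖G b‖ ^ 2 ≤ μ) : ∑ b, ‖N b‖ * ‖G b‖ ≤ n2 * μ ^ (1 / 2 : ℝ) := by
  have h3 : ∑ b, (φ b * ‖G b‖) ^ 2 ≤ μ := by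
    refine le_trans (Finset.sum_le_sum fun b _ => ?_) h2
    have := hφ b
    have := hφ1 b
    have h4 : (φ b * ‖G b‖) ^ 2 = φ b * (φ b * ‖G b‖ ^ 2) := by ring
    rw [h4]
    have h5 : 0 ≤ φ b * ‖G b‖ ^ 2 := by positivity
    nlinarith
  have h4 : ∑ b, ‖N b‖ * ‖G b‖ = ∑ b, (‖N b‖ / φ b) * (φ b * ‖G b‖) := by
    refine Finset.sum_congr rfl fun b _ => ?_
    have := (hφ b).ne'
    field_simp
  have h5 : (∑ b, (‖N b‖ / φ b) * (φ b * ‖G b‖)) ^ 2 ≤ (n2 * μ ^ (1 / 2 : ℝ)) ^ 2 := by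
    refine (Finset.sum_mul_sq_le_sq_mul_sq _ _ _).trans ?_
    have h6 : (μ ^ (1 / 2 : ℝ)) ^ 2 = μ := by
      rw [← Real.rpow_natCast, ← Real.rpow_mul hμ]
      norm_num
    rw [mul_pow, h6]
    have h7 : 0 ≤ ∑ b, (φ b * ‖G b‖) ^ 2 := Finset.sum_nonneg fun b _ => sq_nonneg _
    exact mul_le_mul h1 h3 h7 (sq_nonneg _)
  rw [h4]
  have h8 : 0 ≤ n2 * μ ^ (1 / 2 : ℝ) := mul_nonneg hn (Real.rpow_nonneg hμ _)
  exact abs_le_of_sq_le_sq' h5 h8 |>.2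

/-- `|r_aa| ≤ n2 μ^(1/2)` on the region. -/
lemma lvl_raa {H : Matrix X X ℂ} {lam : ℝ} {z g : ℂ} {φ : X → X → ℝ} {B b2 μ Gd n2 : ℝ}
    {V : X → ℝ} (hw : Wgt φ) (hr : Reg H lam z g φ B b2 μ Gd V) (hn : 0 ≤ n2) (hμ : 0 ≤ μ)
    (N : Matrix X X ℂ) (a : X) (hN : ∑ b, (‖N a b‖ / φ a b) ^ 2 ≤ n2 ^ 2) :
    ‖rr H lam z N V a a‖ ≤ n2 * μ ^ (1 / 2 : ℝ) := by
  refine le_trans ?_ (lvl_cs (N := fun b => N a b) (G := fun b => Gv H lam z V a b)
    (φ := fun b => φ a b) (fun b => hw.pos a b) (fun b => hw.le a b) hn hμ hN (hr.ms a a))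
  unfold rr
  rw [Matrix.mul_apply]
  refine (norm_sum_le _ _).trans (le_of_eq ?_)
  refine Finset.sum_congr rfl fun b _ => ?_
  rw [Matrix.conjTranspose_apply, norm_mul, norm_star]

/-- `∑ |G_xa|² ≤ Gd/η` on the region. -/
lemma lvl_ward {H : Matrix X X ℂ} (hH : RS H) {lam : ℝ} {z g : ℂ} (hz : 0 < z.im)
    {φ : X → X → ℝ} {B b2 μ Gd : ℝ} {V : X → ℝ} (hr : Reg H lam z g φ B b2 μ Gd V) (x : X) :
    ∑ y, ‖Gv H lam z V x y‖ ^ 2 ≤ Gd / z.im := by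
  have h1 : ∑ y, ‖Gv H lam z V x y‖ ^ 2 = (Gv H lam z V x x).im / z.im :=
    ward hH (fun x => lam * V x) hz x
  rw [h1]
  apply div_le_div_of_nonneg_right _ hz.le
  exact (Complex.im_le_norm _).trans (hr.gd x)

/-- `∑ |G_xa||r_ax| ≤ bN Gd/η` on the region. -/
lemma lvl_sum {H : Matrix X X ℂ} (hH : RS H) {lam : ℝ} {z g : ℂ} (hz : 0 < z.im)
    {φ : X → X → ℝ} {B b2 μ Gd bN : ℝ} {V : X → ℝ} (hr : Reg H lam z g φ B b2 μ Gd V)
    (hbN0 : 0 ≤ bN) (N : Matrix X X ℂ)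
    (hbN : ∀ c : X → ℂ, nsq (N *ᵥ c) ≤ bN ^ 2 * nsq c) (x : X) :
    ∑ a, ‖Gv H lam z V x a‖ * ‖rr H lam z N V a x‖ ≤ bN * (Gd / z.im) := by
  have h1 := lvl_ward hH hz hr x
  have h2 : ∑ a, ‖rr H lam z N V a x‖ ^ 2 ≤ bN ^ 2 * ∑ y, ‖Gv H lam z V x y‖ ^ 2 := by
    have h3 := hbN (fun b => starRingEnd ℂ (Gv H lam z V x b))
    have h4 : nsq (fun b => starRingEnd ℂ (Gv H lam z V x b)) = ∑ y, ‖Gv H lam z V x y‖ ^ 2 := by
      unfold nsq
      refine Finset.sum_congr rfl fun b _ => ?_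
      rw [RCLike.norm_conj]
    rw [h4] at h3
    exact h3
  have h5 : (∑ a, ‖Gv H lam z V x a‖ * ‖rr H lam z N V a x‖) ^ 2 ≤
      (bN * ∑ y, ‖Gv H lam z V x y‖ ^ 2) ^ 2 := by
    refine (Finset.sum_mul_sq_le_sq_mul_sq _ _ _).trans ?_
    have h6 : 0 ≤ ∑ y, ‖Gv H lam z V x y‖ ^ 2 := by positivity
    calc (∑ y, ‖Gv H lam z V x y‖ ^ 2) * ∑ a, ‖rr H lam z N V a x‖ ^ 2
        ≤ (∑ y, ‖Gv H lam z V x y‖ ^ 2) * (bN ^ 2 * ∑ y, ‖Gv H lam z V x y‖ ^ 2) := by gcongr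
      _ = _ := by ring
  have h6 : 0 ≤ ∑ y, ‖Gv H lam z V x y‖ ^ 2 := by positivity
  have h7 := abs_le_of_sq_le_sq' h5 (mul_nonneg hbN0 h6) |>.2
  exact h7.trans (mul_le_mul_of_nonneg_left h1 hbN0)

end Aux

theorem lvl (R : ℝ) (hR : 1 ≤ R) : ∃ C : ℝ, 0 < C ∧
    ∀ (X : Type) [Fintype X] [DecidableEq X] (ν : Measure ℝ) (H : Matrix X X ℂ) (s2 lam : ℝ)
      (z g ζ : ℂ) (φ : X → X → ℝ) (χ : (X → ℝ) → ℝ) (B b2 μ Gd p0 Kc : ℝ),
      LvH ν H R s2 lam z g ζ φ χ B b2 μ Gd p0 Kc → lam * B ^ (1 / 4 : ℝ) ≤ 1 →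
      ∀ (u : X → ℂ), (∀ x, ‖u x‖ = 1) → ∀ (N m : Matrix X X ℂ) (ν0 : ℂ) (bN n2 m2 : ℝ),
      N = tw u (Gr H 0 ζ) * (tw u H - H) → m = N * (Gr H 0 ζ)ᴴ → (∀ a, m a a = ν0) →
      0 ≤ bN → 0 ≤ n2 → 0 ≤ m2 → m2 ≤ Kc →
      (∀ c : X → ℂ, nsq (N *ᵥ c) ≤ bN ^ 2 * nsq c) → (∀ a b, ‖N a b‖ ≤ Kc) →
      (∀ a b, ‖m a b‖ ≤ Kc) → (∀ a, ∑ b, (‖N a b‖ / φ a b) ^ 2 ≤ n2 ^ 2) →
      (∀ a, ∑ b, (‖m a b‖ / φ a b) ^ 2 ≤ m2 ^ 2) → (∀ b, ∑ a, ‖m a b‖ ^ 2 ≤ m2 ^ 2) → ∀ x : X,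
      ‖Ex ν (fun V : X → ℝ => (tw u (Gv H lam z V) * (tw u H - H) * (Gv H lam z V)ᴴ) x x) - ν0 -
        (lam ^ 2 * s2 : ℝ) * ν0 * Ex ν (fun V : X → ℝ =>
          (tw u (Gv H lam z V) * (Gv H lam z V)ᴴ) x x)‖ ≤
      C * (m2 * kap lam g b2 Gd * μ ^ (1 / 2 : ℝ) * (1 + lam ^ 2 * (Gd / z.im)) +
        kap lam g b2 Gd * bN * (Gd / z.im) +
        lam ^ 3 * (Gd + ‖g‖) * n2 * μ ^ (1 / 2 : ℝ) * (Gd / z.im) +
        lam ^ 4 * m2 * B ^ (1 / 2 : ℝ) * (Gd / z.im)) + C * Kc ^ 12 * p0 := by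
  obtain ⟨Ca, hCa, ha⟩ := lva R hR
  obtain ⟨Cb, hCb, hb⟩ := lvb R hR
  obtain ⟨Cc, hCc, hc⟩ := lvc R hR
  refine ⟨Ca + Cb + R ^ 2 * Cc, by positivity, ?_⟩
  intro X _ _ ν H s2 lam z g ζ φ χ B b2 μ Gd p0 Kc h hB4 u hu N m ν0 bN n2 m2 hN hm hν0 hbN0
    hn20 hm20 hm2K hbN hNK hmK hNn hmn hmc x
  have hz := h.hz
  have hH := h.hH
  have hz' : z.im ≠ 0 := hz.ne'
  have hζ' : ζ.im ≠ 0 := h.hζ0.ne'
  have hlam := h.lam0
  have hν := h.law
  have hs20 : 0 ≤ s2 := hν.s2_pos.le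
  have hs2R : s2 ≤ R ^ 2 := s2_le hν
  -- continuity
  have cG : Continuous fun V : X → ℝ => Gv H lam z V := continuous_Gv hH lam hz'
  have cGe : ∀ a b, Continuous fun V : X → ℝ => Gv H lam z V a b :=
    fun a b => continuous_Gv_xy hH lam hz' a b
  have cr : ∀ a b, Continuous fun V : X → ℝ => rr H lam z N V a b := fun a b =>
    (continuous_const.matrix_mul cG.matrix_conjTranspose).matrix_elem a b
  have cK : ∀ a, Continuous fun V : X → ℝ =>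
      (-((lam * V a : ℝ) : ℂ) - (lam ^ 2 * s2 : ℝ) * g) := fun a => by fun_prop
  have ctw : ∀ a, Continuous fun V : X → ℝ => tw u (Gv H lam z V) x a := fun a => by
    have := cGe x a
    simp only [tw1_apply]
    fun_prop
  have ic : ∀ {Q : (X → ℝ) → ℂ}, Continuous Q →
      Integrable Q (Measure.pi fun _ : X => ν) := fun hQ => int_cont hν hQ
  have ir : ∀ {Q : (X → ℝ) → ℝ}, Continuous Q →
      Integrable Q (Measure.pi fun _ : X => ν) := fun hQ => int_cont hν hQ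
  have hp0 : 0 ≤ p0 := (Ex_box_nonneg hν (F := fun V : X → ℝ => 1 - χ V)
    fun V _ => by linarith [(h.c1 V).2]).trans h.p
  have hK0 : 0 ≤ Kc := by linarith [h.k1]
  have hkap : 0 ≤ kap lam g b2 Gd := by
    have := h.hb2
    have := h.hGd
    unfold kap
    positivity
  -- the expansion
  have hrm : ∀ (V : X → ℝ) (a b : X), rr H lam z N V a b - m a b = ∑ c, m a c *
      starRingEnd ℂ ((-((lam * V c : ℝ) : ℂ) - (lam ^ 2 * s2 : ℝ) * g) *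
        Gv H lam z V b c) := by
    intro V a b
    rw [hm]
    exact lvl_exp hH hz' hζ' h.hζ N V a b
  have hJ : Ex ν (fun V : X → ℝ => (tw u (Gv H lam z V) * (tw u H - H) *
      (Gv H lam z V)ᴴ) x x) = Ex ν (fun V : X → ℝ => rr H lam z N V x x) +
      ∑ a, Ex ν (fun V : X → ℝ => (-((lam * V a : ℝ) : ℂ) - (lam ^ 2 * s2 : ℝ) * g) *
        (tw u (Gv H lam z V) x a * rr H lam z N V a x)) := by
    have e1 : (fun V : X → ℝ => (tw u (Gv H lam z V) * (tw u H - H) *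
        (Gv H lam z V)ᴴ) x x) = fun V : X → ℝ => rr H lam z N V x x +
        ∑ a, (-((lam * V a : ℝ) : ℂ) - (lam ^ 2 * s2 : ℝ) * g) *
          (tw u (Gv H lam z V) x a * rr H lam z N V a x) := by
      funext V
      have h1 := tw2_expand (ζ := ζ) hH (fun x => lam * V x) hz' hζ' hu (tw u H - H) x
      rw [← hN] at h1
      refine h1.trans ?_
      congr 1
      refine Finset.sum_congr rfl fun a _ => ?_
      have h2 : z - ζ - (((fun x => lam * V x) a : ℝ) : ℂ) =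
          -((lam * V a : ℝ) : ℂ) - (lam ^ 2 * s2 : ℝ) * g := by
        rw [h.hζ]
        ring
      rw [h2]
      rfl
    have e2 : Ex ν (fun V : X → ℝ => ∑ a, (-((lam * V a : ℝ) : ℂ) -
        (lam ^ 2 * s2 : ℝ) * g) * (tw u (Gv H lam z V) x a * rr H lam z N V a x)) =
        ∑ a, Ex ν (fun V : X → ℝ => (-((lam * V a : ℝ) : ℂ) - (lam ^ 2 * s2 : ℝ) * g) *
          (tw u (Gv H lam z V) x a * rr H lam z N V a x)) :=
      integral_finsetSum _ fun a _ => ic ((cK a).mul ((ctw a).mul (cr a x)))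
    rw [e1, ← e2]
    exact tw2_add (ic (cr x x)) (ic (continuous_finsetSum _ fun a _ =>
      (cK a).mul ((ctw a).mul (cr a x))))
  -- part (i)
  have h1 : Ex ν (fun V : X → ℝ => rr H lam z N V x x) - ν0 =
      starRingEnd ℂ (∑ b, starRingEnd ℂ (m x b) * Ex ν (fun V : X → ℝ =>
        (-((lam * V b : ℝ) : ℂ) - (lam ^ 2 * s2 : ℝ) * g) * Gv H lam z V b x)) := by
    have e1 : Ex ν (fun V : X → ℝ => rr H lam z N V x x) - ν0 =
        Ex ν (fun V : X → ℝ => rr H lam z N V x x - m x x) := by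
      rw [tw2_sub (ic (cr x x)) (ic continuous_const), hν0 x]
      congr 1
      have := hν.prob
      unfold Ex
      simp
    have e2 : (fun V : X → ℝ => rr H lam z N V x x - m x x) = fun V : X → ℝ =>
        ∑ b, m x b * starRingEnd ℂ ((-((lam * V b : ℝ) : ℂ) - (lam ^ 2 * s2 : ℝ) * g) *
          Gv H lam z V b x) := by
      funext V
      rw [hrm V x x]
      refine Finset.sum_congr rfl fun b _ => ?_
      rw [Gv_symm hH hz' V x b]
    have e3 : Ex ν (fun V : X → ℝ => ∑ b, m x b * starRingEnd ℂ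
        ((-((lam * V b : ℝ) : ℂ) - (lam ^ 2 * s2 : ℝ) * g) * Gv H lam z V b x)) =
        ∑ b, Ex ν (fun V : X → ℝ => m x b * starRingEnd ℂ
        ((-((lam * V b : ℝ) : ℂ) - (lam ^ 2 * s2 : ℝ) * g) * Gv H lam z V b x)) :=
      integral_finsetSum _ fun b _ => ic (continuous_const.mul
        (Complex.continuous_conj.comp ((cK b).mul (cGe b x))))
    rw [e1, e2, e3, map_sum]
    refine Finset.sum_congr rfl fun b _ => ?_
    rw [tw2_cmul, map_mul, Complex.conj_conj]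
    congr 1
    exact integral_conj
  have b1 : ‖Ex ν (fun V : X → ℝ => rr H lam z N V x x) - ν0‖ ≤
      Cb * m2 * (kap lam g b2 Gd * μ ^ (1 / 2 : ℝ) + Kc ^ 4 * p0) := by
    rw [h1, RCLike.norm_conj]
    refine hb X ν H s2 lam z g ζ φ χ B b2 μ Gd p0 Kc h x (fun b => starRingEnd ℂ (m x b)) m2
      hm20 ?_
    simp only [RCLike.norm_conj]
    exact hmn x
  -- part (ii)
  have b2' : ‖∑ a, (Ex ν (fun V : X → ℝ => (-((lam * V a : ℝ) : ℂ) - (lam ^ 2 * s2 : ℝ) * g) *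
        (tw u (Gv H lam z V) x a * rr H lam z N V a x)) -
        (lam ^ 2 * s2 : ℝ) * Ex ν (fun V : X → ℝ => tw u (Gv H lam z V) x a *
          starRingEnd ℂ (Gv H lam z V x a) * rr H lam z N V a a))‖ ≤
      Ca * (kap lam g b2 Gd * (bN * (Gd / z.im)) +
        lam ^ 3 * (Gd + ‖g‖) * (n2 * μ ^ (1 / 2 : ℝ) * (Gd / z.im))) + Ca * Kc ^ 8 * p0 := by
    refine (norm_sum_le _ _).trans ?_
    have e1 : ∀ a ∈ (Finset.univ : Finset X), ‖Ex ν (fun V : X → ℝ =>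
        (-((lam * V a : ℝ) : ℂ) - (lam ^ 2 * s2 : ℝ) * g) *
        (tw u (Gv H lam z V) x a * rr H lam z N V a x)) -
        (lam ^ 2 * s2 : ℝ) * Ex ν (fun V : X → ℝ => tw u (Gv H lam z V) x a *
          starRingEnd ℂ (Gv H lam z V x a) * rr H lam z N V a a)‖ ≤
        Ca * Ex ν (fun V : X → ℝ => χ V * (kap lam g b2 Gd * (‖Gv H lam z V x a‖ *
          ‖rr H lam z N V a x‖) + lam ^ 3 * (Gd + ‖g‖) * (‖Gv H lam z V x a‖ ^ 2 *
          ‖rr H lam z N V a a‖))) + Ca * Kc ^ 7 * p0 := fun a _ =>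
      ha X ν H s2 lam z g ζ φ χ B b2 μ Gd p0 Kc h u hu N hNK x a
    refine (Finset.sum_le_sum e1).trans ?_
    rw [Finset.sum_add_distrib, ← Finset.mul_sum, Finset.sum_const, nsmul_eq_mul]
    have cQ : ∀ a, Continuous fun V : X → ℝ => χ V * (kap lam g b2 Gd * (‖Gv H lam z V x a‖ *
          ‖rr H lam z N V a x‖) + lam ^ 3 * (Gd + ‖g‖) * (‖Gv H lam z V x a‖ ^ 2 *
          ‖rr H lam z N V a a‖)) := by
      intro a
      have c0 := h.c0
      have c1 := (cGe x a).norm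
      have c2 := (cr a x).norm
      have c3 := (cr a a).norm
      exact c0.mul ((continuous_const.mul (c1.mul c2)).add
        (continuous_const.mul ((c1.pow 2).mul c3)))
    have e2 : ∑ a, Ex ν (fun V : X → ℝ => χ V * (kap lam g b2 Gd * (‖Gv H lam z V x a‖ *
          ‖rr H lam z N V a x‖) + lam ^ 3 * (Gd + ‖g‖) * (‖Gv H lam z V x a‖ ^ 2 *
          ‖rr H lam z N V a a‖))) ≤ kap lam g b2 Gd * (bN * (Gd / z.im)) +
        lam ^ 3 * (Gd + ‖g‖) * (n2 * μ ^ (1 / 2 : ℝ) * (Gd / z.im)) := by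
      have e3 : Ex ν (fun V : X → ℝ => ∑ a, χ V * (kap lam g b2 Gd * (‖Gv H lam z V x a‖ *
          ‖rr H lam z N V a x‖) + lam ^ 3 * (Gd + ‖g‖) * (‖Gv H lam z V x a‖ ^ 2 *
          ‖rr H lam z N V a a‖))) = ∑ a, Ex ν (fun V : X → ℝ => χ V * (kap lam g b2 Gd *
          (‖Gv H lam z V x a‖ * ‖rr H lam z N V a x‖) + lam ^ 3 * (Gd + ‖g‖) *
          (‖Gv H lam z V x a‖ ^ 2 * ‖rr H lam z N V a a‖))) :=
        integral_finsetSum _ fun a _ => ir (cQ a)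
      rw [← e3]
      have hGd := h.hGd
      have hμ := h.hμ
      have hT : 0 ≤ kap lam g b2 Gd * (bN * (Gd / z.im)) +
          lam ^ 3 * (Gd + ‖g‖) * (n2 * μ ^ (1 / 2 : ℝ) * (Gd / z.im)) := by positivity
      refine (Ex_box_mono hν (continuous_finsetSum _ fun a _ => cQ a) continuous_const
        fun V hV => ?_).trans (Ex_one hν _).le
      have hχ := h.c1 V
      by_cases hχ0 : χ V = 0
      · refine le_trans (le_of_eq ?_) hT
        refine Finset.sum_eq_zero fun a _ => ?_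
        rw [hχ0, zero_mul]
      · have hr := h.reg V hV hχ0
        rw [← Finset.mul_sum, Finset.sum_add_distrib, ← Finset.mul_sum, ← Finset.mul_sum]
        have f1 := lvl_sum hH hz hr hbN0 N hbN x
        have f2 : ∑ a, ‖Gv H lam z V x a‖ ^ 2 * ‖rr H lam z N V a a‖ ≤
            n2 * μ ^ (1 / 2 : ℝ) * (Gd / z.im) := by
          have f3 : ∀ a ∈ (Finset.univ : Finset X), ‖Gv H lam z V x a‖ ^ 2 *
              ‖rr H lam z N V a a‖ ≤ ‖Gv H lam z V x a‖ ^ 2 * (n2 * μ ^ (1 / 2 : ℝ)) :=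
            fun a _ => mul_le_mul_of_nonneg_left
              (lvl_raa h.w hr hn20 hμ N a (hNn a)) (by positivity)
          refine (Finset.sum_le_sum f3).trans ?_
          rw [← Finset.sum_mul, mul_comm]
          exact mul_le_mul_of_nonneg_left (lvl_ward hH hz hr x) (by positivity)
        have f4 : kap lam g b2 Gd * ∑ a, ‖Gv H lam z V x a‖ * ‖rr H lam z N V a x‖ +
            lam ^ 3 * (Gd + ‖g‖) * ∑ a, ‖Gv H lam z V x a‖ ^ 2 * ‖rr H lam z N V a a‖ ≤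
            kap lam g b2 Gd * (bN * (Gd / z.im)) +
              lam ^ 3 * (Gd + ‖g‖) * (n2 * μ ^ (1 / 2 : ℝ) * (Gd / z.im)) := by
          apply add_le_add
          · exact mul_le_mul_of_nonneg_left f1 hkap
          · exact mul_le_mul_of_nonneg_left f2 (by positivity)
        calc χ V * _ ≤ χ V * (kap lam g b2 Gd * (bN * (Gd / z.im)) +
              lam ^ 3 * (Gd + ‖g‖) * (n2 * μ ^ (1 / 2 : ℝ) * (Gd / z.im))) :=
              mul_le_mul_of_nonneg_left f4 hχ.1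
          _ ≤ 1 * (kap lam g b2 Gd * (bN * (Gd / z.im)) +
              lam ^ 3 * (Gd + ‖g‖) * (n2 * μ ^ (1 / 2 : ℝ) * (Gd / z.im))) :=
              mul_le_mul_of_nonneg_right hχ.2 hT
          _ = _ := one_mul _
    have e4 : ((Finset.univ : Finset X).card : ℝ) * (Ca * Kc ^ 7 * p0) ≤ Ca * Kc ^ 8 * p0 := by
      have f1 : ((Finset.univ : Finset X).card : ℝ) ≤ Kc := h.kX
      have f2 : 0 ≤ Ca * Kc ^ 7 * p0 := by positivity
      calc ((Finset.univ : Finset X).card : ℝ) * (Ca * Kc ^ 7 * p0)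
          ≤ Kc * (Ca * Kc ^ 7 * p0) := mul_le_mul_of_nonneg_right f1 f2
        _ = Ca * Kc ^ 8 * p0 := by ring
    exact add_le_add (mul_le_mul_of_nonneg_left e2 hCa.le) e4
  -- part (iii)
  have h3 : ∑ a, Ex ν (fun V : X → ℝ => tw u (Gv H lam z V) x a *
          starRingEnd ℂ (Gv H lam z V x a) * rr H lam z N V a a) -
        ν0 * Ex ν (fun V : X → ℝ => (tw u (Gv H lam z V) * (Gv H lam z V)ᴴ) x x) =
      ∑ a, ∑ b, m a b * Ex ν (fun V : X → ℝ => tw u (Gv H lam z V) x a *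
          starRingEnd ℂ (Gv H lam z V x a) *
          starRingEnd ℂ ((-((lam * V b : ℝ) : ℂ) - (lam ^ 2 * s2 : ℝ) * g) *
            Gv H lam z V a b)) := by
    have cP : ∀ a, Continuous fun V : X → ℝ => tw u (Gv H lam z V) x a *
          starRingEnd ℂ (Gv H lam z V x a) := fun a =>
      (ctw a).mul (Complex.continuous_conj.comp (cGe x a))
    have e1 : Ex ν (fun V : X → ℝ => (tw u (Gv H lam z V) * (Gv H lam z V)ᴴ) x x) =
        ∑ a, Ex ν (fun V : X → ℝ => tw u (Gv H lam z V) x a *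
          starRingEnd ℂ (Gv H lam z V x a)) := by
      have f1 : (fun V : X → ℝ => (tw u (Gv H lam z V) * (Gv H lam z V)ᴴ) x x) =
          fun V : X → ℝ => ∑ a, tw u (Gv H lam z V) x a *
            starRingEnd ℂ (Gv H lam z V x a) := by
        funext V
        rw [Matrix.mul_apply]
        rfl
      rw [f1]
      exact integral_finsetSum _ fun a _ => ic (cP a)
    rw [e1, Finset.mul_sum, ← Finset.sum_sub_distrib]
    refine Finset.sum_congr rfl fun a _ => ?_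
    have e0 := tw2_sub (ν := ν) (F := fun V : X → ℝ => tw u (Gv H lam z V) x a *
          starRingEnd ℂ (Gv H lam z V x a) * rr H lam z N V a a)
      (G := fun V : X → ℝ => ν0 * (tw u (Gv H lam z V) x a * starRingEnd ℂ (Gv H lam z V x a)))
      (ic ((cP a).mul (cr a a))) (ic (continuous_const.mul (cP a)))
    rw [← tw2_cmul, ← e0]
    have e2 : (fun V : X → ℝ => tw u (Gv H lam z V) x a *
          starRingEnd ℂ (Gv H lam z V x a) * rr H lam z N V a a -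
          ν0 * (tw u (Gv H lam z V) x a * starRingEnd ℂ (Gv H lam z V x a))) =
        fun V : X → ℝ => ∑ b, m a b * (tw u (Gv H lam z V) x a *
          starRingEnd ℂ (Gv H lam z V x a) *
          starRingEnd ℂ ((-((lam * V b : ℝ) : ℂ) - (lam ^ 2 * s2 : ℝ) * g) *
            Gv H lam z V a b)) := by
      funext V
      have f1 := hrm V a a
      rw [hν0 a] at f1
      have f2 : tw u (Gv H lam z V) x a *
          starRingEnd ℂ (Gv H lam z V x a) * rr H lam z N V a a -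
          ν0 * (tw u (Gv H lam z V) x a * starRingEnd ℂ (Gv H lam z V x a)) =
          tw u (Gv H lam z V) x a * starRingEnd ℂ (Gv H lam z V x a) *
            (rr H lam z N V a a - ν0) := by ring
      rw [f2, f1, Finset.mul_sum]
      refine Finset.sum_congr rfl fun b _ => ?_
      ring
    rw [e2]
    have e3 : Ex ν (fun V : X → ℝ => ∑ b, m a b * (tw u (Gv H lam z V) x a *
          starRingEnd ℂ (Gv H lam z V x a) *
          starRingEnd ℂ ((-((lam * V b : ℝ) : ℂ) - (lam ^ 2 * s2 : ℝ) * g) *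
            Gv H lam z V a b))) = ∑ b, Ex ν (fun V : X → ℝ => m a b *
          (tw u (Gv H lam z V) x a * starRingEnd ℂ (Gv H lam z V x a) *
          starRingEnd ℂ ((-((lam * V b : ℝ) : ℂ) - (lam ^ 2 * s2 : ℝ) * g) *
            Gv H lam z V a b))) :=
      integral_finsetSum _ fun b _ => ic (continuous_const.mul ((cP a).mul
        (Complex.continuous_conj.comp ((cK b).mul (cGe a b)))))
    rw [e3]
    refine Finset.sum_congr rfl fun b _ => ?_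
    rw [tw2_cmul]
  have b3 : ‖(lam ^ 2 * s2 : ℝ) * (∑ a, Ex ν (fun V : X → ℝ => tw u (Gv H lam z V) x a *
          starRingEnd ℂ (Gv H lam z V x a) * rr H lam z N V a a) -
        ν0 * Ex ν (fun V : X → ℝ => (tw u (Gv H lam z V) * (Gv H lam z V)ᴴ) x x))‖ ≤
      lam ^ 2 * R ^ 2 * (Cc * (m2 * (Gd / z.im) * (kap lam g b2 Gd * μ ^ (1 / 2 : ℝ) +
        lam ^ 2 * B ^ (1 / 2 : ℝ)) + Kc ^ 12 * p0)) := by
    rw [norm_mul, h3]
    have e1 := hc X ν H s2 lam z g ζ φ χ B b2 μ Gd p0 Kc h hB4 u hu m m2 hm20 hmK hmn hmc x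
    have e2 : ‖((lam ^ 2 * s2 : ℝ) : ℂ)‖ ≤ lam ^ 2 * R ^ 2 := by
      rw [Complex.norm_real, Real.norm_eq_abs, abs_of_nonneg (by positivity)]
      exact mul_le_mul_of_nonneg_left hs2R (by positivity)
    exact mul_le_mul e2 e1 (norm_nonneg _) (by positivity)
  -- the sum
  have hsplit : Ex ν (fun V : X → ℝ => (tw u (Gv H lam z V) * (tw u H - H) *
        (Gv H lam z V)ᴴ) x x) - ν0 -
        (lam ^ 2 * s2 : ℝ) * ν0 * Ex ν (fun V : X → ℝ =>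
          (tw u (Gv H lam z V) * (Gv H lam z V)ᴴ) x x) =
      (Ex ν (fun V : X → ℝ => rr H lam z N V x x) - ν0) +
      (∑ a, (Ex ν (fun V : X → ℝ => (-((lam * V a : ℝ) : ℂ) - (lam ^ 2 * s2 : ℝ) * g) *
        (tw u (Gv H lam z V) x a * rr H lam z N V a x)) -
        (lam ^ 2 * s2 : ℝ) * Ex ν (fun V : X → ℝ => tw u (Gv H lam z V) x a *
          starRingEnd ℂ (Gv H lam z V x a) * rr H lam z N V a a))) +
      (lam ^ 2 * s2 : ℝ) * (∑ a, Ex ν (fun V : X → ℝ => tw u (Gv H lam z V) x a *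
          starRingEnd ℂ (Gv H lam z V x a) * rr H lam z N V a a) -
        ν0 * Ex ν (fun V : X → ℝ => (tw u (Gv H lam z V) * (Gv H lam z V)ᴴ) x x)) := by
    rw [hJ, Finset.sum_sub_distrib, ← Finset.mul_sum]
    ring
  rw [hsplit]
  refine (norm_add_le _ _).trans ((add_le_add ((norm_add_le _ _).trans
    (add_le_add b1 b2')) b3).trans ?_)
  have hGd := h.hGd
  have hμ := h.hμ
  have hB0 : 0 ≤ B := by linarith [h.hB]
  have hlam1 := h.lam1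
  have hk1 := h.k1
  have hR0 : 0 ≤ R := by linarith
  set k := kap lam g b2 Gd with hk
  set sμ := μ ^ (1 / 2 : ℝ) with hsμ
  set sB := B ^ (1 / 2 : ℝ) with hsB
  set D := Gd / z.im with hD
  have hsμ0 : 0 ≤ sμ := Real.rpow_nonneg hμ _
  have hsB0 : 0 ≤ sB := Real.rpow_nonneg hB0 _
  have hD0 : 0 ≤ D := div_nonneg hGd hz.le
  have hl2 : lam ^ 2 ≤ 1 := pow_le_one₀ hlam.le hlam1
  have hG3 : 0 ≤ lam ^ 3 * (Gd + ‖g‖) := by positivity
  -- compare term by term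
  have t1 : Cb * m2 * (k * sμ) ≤ (Ca + Cb + R ^ 2 * Cc) * (m2 * k * sμ) -
      R ^ 2 * Cc * (m2 * k * sμ) := by
    have : 0 ≤ Ca * (m2 * k * sμ) := by positivity
    nlinarith
  have t4 : Cb * m2 * (Kc ^ 4 * p0) ≤ Cb * (Kc ^ 12 * p0) := by
    have e1 : m2 * Kc ^ 4 ≤ Kc ^ 12 := by
      calc m2 * Kc ^ 4 ≤ Kc * Kc ^ 4 := mul_le_mul_of_nonneg_right hm2K (by positivity)
        _ = Kc ^ 5 := by ring
        _ ≤ Kc ^ 12 := pow_le_pow_right₀ hk1 (by norm_num)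
    calc Cb * m2 * (Kc ^ 4 * p0) = Cb * ((m2 * Kc ^ 4) * p0) := by ring
      _ ≤ Cb * (Kc ^ 12 * p0) := by
          apply mul_le_mul_of_nonneg_left _ hCb.le
          exact mul_le_mul_of_nonneg_right e1 hp0
  have t5 : Ca * Kc ^ 8 * p0 ≤ Ca * (Kc ^ 12 * p0) := by
    have e1 : Kc ^ 8 ≤ Kc ^ 12 := pow_le_pow_right₀ hk1 (by norm_num)
    calc Ca * Kc ^ 8 * p0 = Ca * (Kc ^ 8 * p0) := by ring
      _ ≤ Ca * (Kc ^ 12 * p0) := by
          apply mul_le_mul_of_nonneg_left _ hCa.le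
          exact mul_le_mul_of_nonneg_right e1 hp0
  have t6 : lam ^ 2 * R ^ 2 * (Cc * (Kc ^ 12 * p0)) ≤ R ^ 2 * Cc * (Kc ^ 12 * p0) := by
    have e1 : 0 ≤ R ^ 2 * Cc * (Kc ^ 12 * p0) := by positivity
    calc lam ^ 2 * R ^ 2 * (Cc * (Kc ^ 12 * p0)) = lam ^ 2 * (R ^ 2 * Cc * (Kc ^ 12 * p0)) := by
          ring
      _ ≤ 1 * (R ^ 2 * Cc * (Kc ^ 12 * p0)) := mul_le_mul_of_nonneg_right hl2 e1
      _ = _ := one_mul _
  have p1 : 0 ≤ m2 * k * sμ := by positivity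
  have p2 : 0 ≤ m2 * k * sμ * (lam ^ 2 * D) := by positivity
  have p3 : 0 ≤ k * bN * D := by positivity
  have p4 : 0 ≤ lam ^ 3 * (Gd + ‖g‖) * n2 * sμ * D := by positivity
  have p5 : 0 ≤ lam ^ 4 * m2 * sB * D := by positivity
  have q1 : 0 ≤ Ca * (m2 * k * sμ) := by positivity
  have q2 : 0 ≤ (Ca + Cb) * (m2 * k * sμ * (lam ^ 2 * D)) := by positivity
  have q3 : 0 ≤ (Cb + R ^ 2 * Cc) * (k * bN * D) := by positivity
  have q4 : 0 ≤ (Cb + R ^ 2 * Cc) * (lam ^ 3 * (Gd + ‖g‖) * n2 * sμ * D) := by positivity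
  have q5 : 0 ≤ (Ca + Cb) * (lam ^ 4 * m2 * sB * D) := by positivity
  have q6 : 0 ≤ R ^ 2 * Cc * (m2 * k * sμ) := by positivity
  nlinarith [t4, t5, t6, q1, q2, q3, q4, q5, q6]

end Pool.Agent.BK3
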