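import Pool.Agent.BK3.Defs

/-! BK3 module One: changing the potential at one site (rank-one formulas).
`G = Gv H lam z V`, `G^t = Gv H lam z (update V u t)`. From
`(H + lam V^t - z) - (H + lam V - z) = lam (t - V_u) E_uu` (resolvent identity):
`G - G^t = lam (t - V_u) G E_uu G^t = lam (t - V_u) G^t E_uu G`, i.e. `one_id`, `one_id'`.
Hence `G_xu = G^t_xu (1 + lam (t - V_u) G_uu)`, so `|G^t_xu| ≤ 2 |G_xu|` if `2 R lam |G_uu| ≤ 1/2`
(here `|t - V_u| ≤ 2R`), and `|G_xy - G^t_xy| = |lam (t - V_u)| |G^t_xu| |G_uy| ≤ 4 R lam |G_xu| |G_uy|`.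
Also continuity of `(V, t) ↦ G^t` (`Function.update` is continuous and `continuous_Gr`). -/

open MeasureTheory Finset Matrix Pool.Agent.BK

noncomputable section

namespace Pool.Agent.BK3

variable {X : Type} [Fintype X] [DecidableEq X] {H : Matrix X X ℂ} {R lam : ℝ} {z : ℂ}

lemma continuous_Gv (hH : RS H) (lam : ℝ) (hz : z.im ≠ 0) :
    Continuous fun V : X → ℝ => Gv H lam z V := continuous_Gr hH lam hz

lemma continuous_Gv_xy (hH : RS H) (lam : ℝ) (hz : z.im ≠ 0) (x y : X) :
    Continuous fun V : X → ℝ => Gv H lam z V x y := (continuous_Gv hH lam hz).matrix_elem x y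

omit [Fintype X] in
/-- Joint continuity of a function of the changed potential. -/
lemma continuous_upd {E : Type} [TopologicalSpace E] {f : (X → ℝ) → E} (hf : Continuous f) (u : X) :
    Continuous fun p : (X → ℝ) × ℝ => f (Function.update p.1 u p.2) :=
  hf.comp (continuous_fst.update u continuous_snd)

lemma Gv_symm (hH : RS H) (hz : z.im ≠ 0) (V : X → ℝ) (x y : X) :
    Gv H lam z V x y = Gv H lam z V y x := Gr_symm hH _ hz x y

lemma one_id' (hH : RS H) (hz : z.im ≠ 0) (V : X → ℝ) (u : X) (t : ℝ) (x y : X) :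
    Gv H lam z V x y - Gv H lam z (Function.update V u t) x y =
      ((lam * (t - V u) : ℝ) : ℂ) * Gv H lam z (Function.update V u t) x u * Gv H lam z V u y := by
  set V' : X → ℝ := Function.update V u t with hV'
  set A : Matrix X X ℂ :=
    H + Matrix.diagonal (fun x => ((lam * V x : ℝ) : ℂ)) - z • (1 : Matrix X X ℂ) with hA
  set A' : Matrix X X ℂ :=
    H + Matrix.diagonal (fun x => ((lam * V' x : ℝ) : ℂ)) - z • (1 : Matrix X X ℂ) with hA'
  have h1 : A * Gv H lam z V = 1 := mul_Gr hH _ hz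
  have h2 : Gv H lam z V' * A' = 1 := Gr_mul hH _ hz
  set G := Gv H lam z V with hG
  set G' := Gv H lam z V' with hG'
  have h3 : G - G' = G' * (A' - A) * G := by
    have e1 : G' * (A' - A) * G = (G' * A') * G - G' * (A * G) := by
      rw [mul_sub, sub_mul, mul_assoc G' A G]
    rw [e1, h1, h2, one_mul, mul_one]
  have h4 : A' - A = Matrix.diagonal (fun w => if w = u then (lam : ℂ) * ((t - V u : ℝ) : ℂ) else 0) := by
    rw [hA, hA']
    ext i j
    simp only [Matrix.sub_apply, Matrix.add_apply, Matrix.diagonal_apply]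
    by_cases hij : i = j
    · subst hij
      by_cases hiu : i = u
      · subst hiu
        simp only [hV', Function.update_self, if_true]
        push_cast
        ring
      · simp only [hV', Function.update_of_ne hiu, if_true, if_neg hiu]
        ring
    · simp only [if_neg hij]
      ring
  have h5 : (G - G') x y = (G' * (A' - A) * G) x y := by rw [h3]
  have h6 : (G' * (A' - A) * G) x y = G' x u * ((lam : ℂ) * ((t - V u : ℝ) : ℂ)) * G u y := by
    rw [h4, Matrix.mul_apply]
    rw [Finset.sum_eq_single u]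
    · rw [Matrix.mul_diagonal, if_pos rfl]
    · intro w _ hw
      rw [Matrix.mul_diagonal, if_neg hw, mul_zero, zero_mul]
    · intro h
      exact absurd (Finset.mem_univ u) h
  rw [Matrix.sub_apply] at h5
  rw [h5, h6]
  push_cast
  ring

lemma one_id (hH : RS H) (hz : z.im ≠ 0) (V : X → ℝ) (u : X) (t : ℝ) (x y : X) :
    Gv H lam z V x y - Gv H lam z (Function.update V u t) x y =
      ((lam * (t - V u) : ℝ) : ℂ) * Gv H lam z V x u * Gv H lam z (Function.update V u t) u y := by
  have h := one_id' (lam := lam) hH hz (Function.update V u t) u (V u) x y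
  rw [Function.update_idem, Function.update_eq_self, Function.update_self] at h
  have h2 : ((lam * (V u - t) : ℝ) : ℂ) = -((lam * (t - V u) : ℝ) : ℂ) := by
    push_cast
    ring
  rw [h2] at h
  linear_combination -h

omit [Fintype X] [DecidableEq X] in
lemma one_dist (hlam : 0 ≤ lam) {V : X → ℝ} (hV : V ∈ Box X R) {u : X} {t : ℝ}
    (ht : t ∈ Set.Icc (-R) R) : ‖((lam * (t - V u) : ℝ) : ℂ)‖ ≤ 2 * R * lam := by
  have h1 := hV u
  rw [Set.mem_Icc] at ht h1
  rw [Complex.norm_real, Real.norm_eq_abs, abs_mul, abs_of_nonneg hlam]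
  have h2 : |t - V u| ≤ 2 * R := by
    rw [abs_le]
    constructor <;> linarith
  nlinarith

lemma one_le (hH : RS H) (hz : z.im ≠ 0) (hR : 0 ≤ R) (hlam : 0 ≤ lam) {V : X → ℝ}
    (hV : V ∈ Box X R) {u : X} {t : ℝ} (ht : t ∈ Set.Icc (-R) R)
    (hs : 2 * R * lam * ‖Gv H lam z V u u‖ ≤ 1 / 2) (x : X) :
    ‖Gv H lam z (Function.update V u t) x u‖ ≤ 2 * ‖Gv H lam z V x u‖ := by
  have h1 := one_id' (lam := lam) hH hz V u t x u
  have h2 : Gv H lam z (Function.update V u t) x u = Gv H lam z V x u -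
      ((lam * (t - V u) : ℝ) : ℂ) * Gv H lam z (Function.update V u t) x u * Gv H lam z V u u := by
    rw [← h1]
    ring
  have h3 : ‖((lam * (t - V u) : ℝ) : ℂ) * Gv H lam z (Function.update V u t) x u *
      Gv H lam z V u u‖ ≤ 1 / 2 * ‖Gv H lam z (Function.update V u t) x u‖ := by
    rw [norm_mul, norm_mul]
    have h4 := one_dist (u := u) hlam hV ht
    have h5 := norm_nonneg (Gv H lam z (Function.update V u t) x u)
    have h6 := norm_nonneg (Gv H lam z V u u)
    calc ‖((lam * (t - V u) : ℝ) : ℂ)‖ * ‖Gv H lam z (Function.update V u t) x u‖ *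
          ‖Gv H lam z V u u‖ ≤ (2 * R * lam) * ‖Gv H lam z (Function.update V u t) x u‖ *
          ‖Gv H lam z V u u‖ := by gcongr
      _ = (2 * R * lam * ‖Gv H lam z V u u‖) * ‖Gv H lam z (Function.update V u t) x u‖ := by ring
      _ ≤ 1 / 2 * ‖Gv H lam z (Function.update V u t) x u‖ := by gcongr
  have h4 : ‖Gv H lam z (Function.update V u t) x u‖ ≤ ‖Gv H lam z V x u‖ +
      1 / 2 * ‖Gv H lam z (Function.update V u t) x u‖ := by
    conv_lhs => rw [h2]
    exact (norm_sub_le _ _).trans (by linarith)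
  linarith

lemma one_sub_le (hH : RS H) (hz : z.im ≠ 0) (hR : 0 ≤ R) (hlam : 0 ≤ lam) {V : X → ℝ}
    (hV : V ∈ Box X R) {u : X} {t : ℝ} (ht : t ∈ Set.Icc (-R) R)
    (hs : 2 * R * lam * ‖Gv H lam z V u u‖ ≤ 1 / 2) (x y : X) :
    ‖Gv H lam z V x y - Gv H lam z (Function.update V u t) x y‖ ≤ ee R lam (Gv H lam z V) x y u := by
  rw [one_id' hH hz, norm_mul, norm_mul]
  have h1 := one_dist (u := u) hlam hV ht
  have h2 := one_le hH hz hR hlam hV ht hs x
  unfold ee
  calc ‖((lam * (t - V u) : ℝ) : ℂ)‖ * ‖Gv H lam z (Function.update V u t) x u‖ *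
        ‖Gv H lam z V u y‖ ≤ (2 * R * lam) * (2 * ‖Gv H lam z V x u‖) * ‖Gv H lam z V u y‖ := by gcongr
    _ = _ := by ring

/-- Change of `NG^H` at the diagonal: `r_aa - r^t_aa = lam (t - V_a) conj(G^t_aa) r_aa`, where
`r = N G^H`, and the change of `(N G^H)_au` for a general site (`r_au - r^t_au =
lam (t - V_b) r_ab conj(G^t_ub)`). -/
lemma one_r (hH : RS H) (hz : z.im ≠ 0) (N : Matrix X X ℂ) (V : X → ℝ) (b : X) (t : ℝ) (a x : X) :
    (N * (Gv H lam z V)ᴴ) a x - (N * (Gv H lam z (Function.update V b t))ᴴ) a x =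
      ((lam * (t - V b) : ℝ) : ℂ) * (N * (Gv H lam z V)ᴴ) a b *
        starRingEnd ℂ (Gv H lam z (Function.update V b t) x b) := by
  simp only [Matrix.mul_apply, Matrix.conjTranspose_apply]
  rw [← Finset.sum_sub_distrib, mul_sum, sum_mul]
  refine sum_congr rfl (fun c _ => ?_)
  rw [← mul_sub, ← star_sub, one_id' hH hz V b t x c, star_mul', star_mul']
  simp only [RCLike.star_def, Complex.conj_ofReal]
  ring

lemma one_r' (hH : RS H) (hz : z.im ≠ 0) (N : Matrix X X ℂ) (V : X → ℝ) (b : X) (t : ℝ) (a x : X) :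
    (N * (Gv H lam z V)ᴴ) a x - (N * (Gv H lam z (Function.update V b t))ᴴ) a x =
      ((lam * (t - V b) : ℝ) : ℂ) * (N * (Gv H lam z (Function.update V b t))ᴴ) a b *
        starRingEnd ℂ (Gv H lam z V x b) := by
  simp only [Matrix.mul_apply, Matrix.conjTranspose_apply]
  rw [← Finset.sum_sub_distrib, mul_sum, sum_mul]
  refine sum_congr rfl (fun c _ => ?_)
  rw [← mul_sub, ← star_sub, one_id hH hz V b t x c, star_mul', star_mul']
  simp only [RCLike.star_def, Complex.conj_ofReal]
  ring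

end Pool.Agent.BK3
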