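import Pool.Agent.BK3.Exch
import Pool.Agent.BK3.One

/-! BK3 module OneS: the one-site identity. With `K_x = -lam V_x - lam² s2 g`, `Δ = V_x - t`,
`G^t = G(V^{x→t})` and any continuous `Φ`:
`E[K_x G_xw Φ] = E[kx_x G_xw Φ] + E ∫ (-lam V_x + lam² g (V_x² - s2)) G^t_xw (Φ - Φ^t) dν(t)`.
Proof. `exch1` for `h = G_xw Φ`: `-lam E V_x h = -lam E ∫ V_x (h - h^t)`, and
`h - h^t = (G_xw - G^t_xw) Φ + G^t_xw (Φ - Φ^t)`, `G_xw - G^t_xw = -lam Δ G^t_xx G_xw` (`one_id'`). So
`-lam E V_x h = lam² E ∫ V_x Δ G^t_xx h - lam E ∫ V_x G^t_xw (Φ - Φ^t)`. Write `G^t_xx = (G^t_xx - g) + g`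
and `∫ V_x Δ dν(t) = V_x²` (`ν` centred); together with `-lam² s2 g E h` this leaves
`lam² g E (V_x² - s2) h = lam² g E ∫ (V_x² - s2) (h - h^t)` (`exch2`), and again
`h - h^t = -lam Δ G^t_xx h + G^t_xw (Φ - Φ^t)`.
(The identity was checked numerically.) `kx_le`: `|kx_x| ≤ 8 R³ (lam² b2 + lam³ Gd (Gd + |g|))` if
`|G_xx - g| ≤ b2`, `|G_xx| ≤ Gd`, `2 R lam Gd ≤ 1/2` (`|G^t_xx - g| ≤ b2 + 4 R lam Gd²`,
`|G^t_xx| ≤ 2 Gd`, `|V_x| ≤ R`, `|Δ| ≤ 2R`, `|V_x² - s2| ≤ R²`). `kx_crude`: in general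
`|kx_x| ≤ 8 R³ (1 + |g|) (1 + 1/η)` (`lam ≤ 1`, `|G^t_xx| ≤ 1/η`). -/

open MeasureTheory Finset Matrix Pool.Agent.BK

noncomputable section

namespace Pool.Agent.BK3

variable {X : Type} [Fintype X] [DecidableEq X] {ν : Measure ℝ} {R s2 lam : ℝ}
  {H : Matrix X X ℂ} {z g : ℂ}

/-- The integrand of `kx`. -/
def ones_k (s2 : ℝ) (H : Matrix X X ℂ) (lam : ℝ) (z g : ℂ) (x : X) (V : X → ℝ) (t : ℝ) : ℂ :=
  (((lam ^ 2 * V x * (V x - t) : ℝ) : ℂ) * (Gv H lam z (Function.update V x t) x x - g)) -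
    ((lam ^ 3 * (V x ^ 2 - s2) * (V x - t) : ℝ) : ℂ) * g * Gv H lam z (Function.update V x t) x x

lemma ones_Gt (hH : RS H) (lam : ℝ) (hz : z.im ≠ 0) (x u w : X) :
    Continuous fun p : (X → ℝ) × ℝ => Gv H lam z (Function.update p.1 x p.2) u w :=
  continuous_upd (continuous_Gv_xy hH lam hz u w) x

lemma ones_kcont (hH : RS H) (lam s2 : ℝ) (g : ℂ) (hz : z.im ≠ 0) (x : X) :
    Continuous fun p : (X → ℝ) × ℝ => ones_k s2 H lam z g x p.1 p.2 := by
  have h1 := ones_Gt (z := z) hH lam hz x x x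
  have h2 : Continuous fun p : (X → ℝ) × ℝ => p.1 x := (continuous_apply x).comp continuous_fst
  have h3 : Continuous fun p : (X → ℝ) × ℝ => p.2 := continuous_snd
  unfold ones_k
  refine Continuous.sub ?_ ?_
  · exact (Complex.continuous_ofReal.comp ((continuous_const.mul h2).mul (h2.sub h3))).mul
      (h1.sub continuous_const)
  · exact ((Complex.continuous_ofReal.comp
      ((continuous_const.mul ((h2.pow 2).sub continuous_const)).mul (h2.sub h3))).mul
      continuous_const).mul h1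

lemma continuous_kx (hν : BLaw ν R s2) (hH : RS H) (hz : z.im ≠ 0) (x : X) :
    Continuous fun V : X → ℝ => kx ν s2 H lam z g x V :=
  cont_int hν (ones_kcont hH lam s2 g hz x)

lemma ones_lin3 {α : Type} [MeasurableSpace α] {μ : Measure α} {a b c : α → ℂ}
    (ha : Integrable a μ) (hb : Integrable b μ) (hc : Integrable c μ) (x y w : ℂ) :
    ∫ t, (x * a t + y * b t - w * c t) ∂μ =
      x * (∫ t, a t ∂μ) + y * (∫ t, b t ∂μ) - w * (∫ t, c t ∂μ) := by
  have h1 : ∫ t, (x * a t + y * b t - w * c t) ∂μ =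
      ∫ t, (x * a t + y * b t) ∂μ - ∫ t, w * c t ∂μ :=
    integral_sub ((ha.const_mul x).add (hb.const_mul y)) (hc.const_mul w)
  have h2 : ∫ t, (x * a t + y * b t) ∂μ = ∫ t, x * a t ∂μ + ∫ t, y * b t ∂μ :=
    integral_add (ha.const_mul x) (hb.const_mul y)
  rw [h1, h2, integral_const_mul, integral_const_mul, integral_const_mul]

omit [Fintype X] [DecidableEq X] in
/-- Restriction of a jointly continuous function to a line. -/
lemma ones_line {E : Type} [TopologicalSpace E] {F : (X → ℝ) → ℝ → E}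
    (hF : Continuous fun p : (X → ℝ) × ℝ => F p.1 p.2) (V : X → ℝ) : Continuous (F V) :=
  hF.comp (continuous_const.prodMk continuous_id)

/-- The pointwise identity. -/
lemma ones_pt (hν : BLaw ν R s2) (hH : RS H) (hz : z.im ≠ 0) {Φ : (X → ℝ) → ℂ}
    (hΦ : Continuous Φ) (x w : X) (V : X → ℝ) :
    kx ν s2 H lam z g x V * Gv H lam z V x w * Φ V +
      ∫ t, (-((lam * V x : ℝ) : ℂ) + (lam ^ 2 * (V x ^ 2 - s2) : ℝ) * g) *
      Gv H lam z (Function.update V x t) x w * (Φ V - Φ (Function.update V x t)) ∂ν =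
    -(lam : ℂ) * (∫ t, (V x : ℂ) * (Gv H lam z V x w * Φ V -
        Gv H lam z (Function.update V x t) x w * Φ (Function.update V x t)) ∂ν) +
      (lam : ℂ) ^ 2 * g * (∫ t, ((V x ^ 2 - s2 : ℝ) : ℂ) * (Gv H lam z V x w * Φ V -
        Gv H lam z (Function.update V x t) x w * Φ (Function.update V x t)) ∂ν) -
      (lam : ℂ) ^ 2 * g * ((V x : ℂ) ^ 2 * (Gv H lam z V x w * Φ V)) := by
  have := hν.prob
  have hG := ones_line (F := fun V t => Gv H lam z (Function.update V x t) x w)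
    (ones_Gt (z := z) hH lam hz x x w) V
  have hGx := ones_line (F := fun V t => Gv H lam z (Function.update V x t) x x)
    (ones_Gt (z := z) hH lam hz x x x) V
  have hP := ones_line (F := fun V t => Φ (Function.update V x t)) (continuous_upd hΦ x) V
  have hk := ones_line (F := fun V t => ones_k s2 H lam z g x V t) (ones_kcont hH lam s2 g hz x) V
  set h : ℂ := Gv H lam z V x w * Φ V with hh
  set a : ℝ → ℂ := fun t => (V x : ℂ) * (h -
        Gv H lam z (Function.update V x t) x w * Φ (Function.update V x t)) with ha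
  set b : ℝ → ℂ := fun t => ((V x ^ 2 - s2 : ℝ) : ℂ) * (h -
        Gv H lam z (Function.update V x t) x w * Φ (Function.update V x t)) with hb
  set q : ℝ → ℂ := fun t => (-((lam * V x : ℝ) : ℂ) + (lam ^ 2 * (V x ^ 2 - s2) : ℝ) * g) *
      Gv H lam z (Function.update V x t) x w * (Φ V - Φ (Function.update V x t)) with hq
  have hac : Continuous a := continuous_const.mul (continuous_const.sub (hG.mul hP))
  have hbc : Continuous b := continuous_const.mul (continuous_const.sub (hG.mul hP))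
  have hqc : Continuous q := (continuous_const.mul hG).mul (continuous_const.sub hP)
  have hc : Continuous fun t : ℝ => ((V x * (V x - t) : ℝ) : ℂ) :=
    Complex.continuous_ofReal.comp (continuous_const.mul (continuous_const.sub continuous_id))
  have e1 : ∫ t, ((V x * (V x - t) : ℝ) : ℂ) ∂ν = (V x : ℂ) ^ 2 := by
    rw [integral_complex_ofReal, integral_const_mul]
    have e0 : ∫ t, (V x - t) ∂ν = V x := by
      have e00 : ∫ t, (V x - t) ∂ν = ∫ _t, V x ∂ν - ∫ t, t ∂ν :=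
        integral_sub (integrable_const _) (int_line hν continuous_id)
      rw [e00, hν.mean, integral_const]
      simp
    rw [e0]
    push_cast
    ring
  have e2 : kx ν s2 H lam z g x V * Gv H lam z V x w * Φ V + ∫ t, q t ∂ν =
      ∫ t, (ones_k s2 H lam z g x V t * h + q t) ∂ν := by
    rw [integral_add ((int_line hν hk).mul_const _) (int_line hν hqc), integral_mul_const]
    congr 1
    rw [mul_assoc]
    rfl
  have e3 : -(lam : ℂ) * (∫ t, a t ∂ν) + (lam : ℂ) ^ 2 * g * (∫ t, b t ∂ν) -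
      (lam : ℂ) ^ 2 * g * ((V x : ℂ) ^ 2 * h) =
      ∫ t, (-(lam : ℂ) * a t + (lam : ℂ) ^ 2 * g * b t -
        (lam : ℂ) ^ 2 * g * (((V x * (V x - t) : ℝ) : ℂ) * h)) ∂ν := by
    rw [ones_lin3 (int_line hν hac) (int_line hν hbc) ((int_line hν hc).mul_const h),
      integral_mul_const, e1]
  rw [e2, e3]
  refine integral_congr_ae (Filter.Eventually.of_forall (fun t => ?_))
  have e4 := one_id' (lam := lam) hH hz V x t x w
  simp only [ha, hb, hq, ones_k, hh]
  have e5 : Gv H lam z V x w = Gv H lam z (Function.update V x t) x w +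
      ((lam * (t - V x) : ℝ) : ℂ) * Gv H lam z (Function.update V x t) x x * Gv H lam z V x w := by
    rw [← e4]
    ring
  set G := Gv H lam z V x w with hGd
  set Gt := Gv H lam z (Function.update V x t) x w with hGt
  set Gx := Gv H lam z (Function.update V x t) x x with hGxx
  have e6 : Gt = G - ((lam * (t - V x) : ℝ) : ℂ) * Gx * G := by linear_combination -e5
  rw [e6]
  push_cast
  ring

theorem one_site (hν : BLaw ν R s2) (hH : RS H) (hz : z.im ≠ 0) {Φ : (X → ℝ) → ℂ}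
    (hΦ : Continuous Φ) (x w : X) :
    Ex ν (fun V : X → ℝ => (-((lam * V x : ℝ) : ℂ) - (lam ^ 2 * s2 : ℝ) * g) *
      Gv H lam z V x w * Φ V) =
    Ex ν (fun V : X → ℝ => kx ν s2 H lam z g x V * Gv H lam z V x w * Φ V) +
    Ex ν (fun V : X → ℝ => ∫ t, (-((lam * V x : ℝ) : ℂ) + (lam ^ 2 * (V x ^ 2 - s2) : ℝ) * g) *
      Gv H lam z (Function.update V x t) x w * (Φ V - Φ (Function.update V x t)) ∂ν) := by
  have hG := continuous_Gv_xy (z := z) hH lam hz x w
  have hGt := ones_Gt (z := z) hH lam hz x x w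
  have hPt := continuous_upd hΦ x
  have hVx : Continuous fun V : X → ℝ => (V x : ℂ) := Complex.continuous_ofReal.comp (continuous_apply x)
  have hVx2 : Continuous fun V : X → ℝ => ((V x ^ 2 - s2 : ℝ) : ℂ) :=
    Complex.continuous_ofReal.comp (((continuous_apply x).pow 2).sub continuous_const)
  set f : (X → ℝ) → ℂ := fun V => Gv H lam z V x w * Φ V with hf
  have hfc : Continuous f := hG.mul hΦ
  have hft : Continuous fun p : (X → ℝ) × ℝ => f (Function.update p.1 x p.2) := continuous_upd hfc x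
  have hA : Continuous fun V : X → ℝ => ∫ t, (V x : ℂ) * (f V - f (Function.update V x t)) ∂ν := by
    refine cont_int hν ?_
    exact (hVx.comp continuous_fst).mul ((hfc.comp continuous_fst).sub hft)
  have hB : Continuous fun V : X → ℝ =>
      ∫ t, ((V x ^ 2 - s2 : ℝ) : ℂ) * (f V - f (Function.update V x t)) ∂ν := by
    refine cont_int hν ?_
    exact (hVx2.comp continuous_fst).mul ((hfc.comp continuous_fst).sub hft)
  have hkc : Continuous fun V : X → ℝ => kx ν s2 H lam z g x V * Gv H lam z V x w * Φ V :=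
    ((continuous_kx hν hH hz x).mul hG).mul hΦ
  have hqc : Continuous fun V : X → ℝ =>
      ∫ t, (-((lam * V x : ℝ) : ℂ) + (lam ^ 2 * (V x ^ 2 - s2) : ℝ) * g) *
      Gv H lam z (Function.update V x t) x w * (Φ V - Φ (Function.update V x t)) ∂ν := by
    refine cont_int hν ?_
    have h1 : Continuous fun p : (X → ℝ) × ℝ => p.1 x := (continuous_apply x).comp continuous_fst
    refine Continuous.mul (Continuous.mul ?_ hGt) ((hΦ.comp continuous_fst).sub hPt)
    exact ((Complex.continuous_ofReal.comp (continuous_const.mul h1)).neg).add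
      ((Complex.continuous_ofReal.comp (continuous_const.mul ((h1.pow 2).sub continuous_const))).mul
        continuous_const)
  have e1 := exch1 hν hfc x
  have e2 := exch2 hν hfc x
  have e3 : Ex ν (fun V : X → ℝ => kx ν s2 H lam z g x V * Gv H lam z V x w * Φ V) +
    Ex ν (fun V : X → ℝ => ∫ t, (-((lam * V x : ℝ) : ℂ) + (lam ^ 2 * (V x ^ 2 - s2) : ℝ) * g) *
      Gv H lam z (Function.update V x t) x w * (Φ V - Φ (Function.update V x t)) ∂ν) =
      Ex ν (fun V : X → ℝ => -(lam : ℂ) * (∫ t, (V x : ℂ) * (f V - f (Function.update V x t)) ∂ν) +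
      (lam : ℂ) ^ 2 * g * (∫ t, ((V x ^ 2 - s2 : ℝ) : ℂ) * (f V - f (Function.update V x t)) ∂ν) -
      (lam : ℂ) ^ 2 * g * ((V x : ℂ) ^ 2 * f V)) := by
    unfold Ex
    rw [← integral_add (int_cont hν hkc) (int_cont hν hqc)]
    exact integral_congr_ae (Filter.Eventually.of_forall (fun V => ones_pt hν hH hz hΦ x w V))
  rw [e3]
  have hC : Continuous fun V : X → ℝ => (V x : ℂ) ^ 2 * f V := (hVx.pow 2).mul hfc
  have e4 : Ex ν (fun V : X → ℝ => -(lam : ℂ) * (∫ t, (V x : ℂ) * (f V - f (Function.update V x t)) ∂ν) +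
      (lam : ℂ) ^ 2 * g * (∫ t, ((V x ^ 2 - s2 : ℝ) : ℂ) * (f V - f (Function.update V x t)) ∂ν) -
      (lam : ℂ) ^ 2 * g * ((V x : ℂ) ^ 2 * f V)) =
      -(lam : ℂ) * Ex ν (fun V => ∫ t, (V x : ℂ) * (f V - f (Function.update V x t)) ∂ν) +
      (lam : ℂ) ^ 2 * g *
        Ex ν (fun V => ∫ t, ((V x ^ 2 - s2 : ℝ) : ℂ) * (f V - f (Function.update V x t)) ∂ν) -
      (lam : ℂ) ^ 2 * g * Ex ν (fun V : X → ℝ => (V x : ℂ) ^ 2 * f V) := by
    exact ones_lin3 (int_cont hν hA) (int_cont hν hB) (int_cont hν hC) _ _ _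
  have e5 : Ex ν (fun V : X → ℝ => (-((lam * V x : ℝ) : ℂ) - (lam ^ 2 * s2 : ℝ) * g) *
      Gv H lam z V x w * Φ V) =
      -(lam : ℂ) * Ex ν (fun V : X → ℝ => (V x : ℂ) * f V) +
      (lam : ℂ) ^ 2 * g * Ex ν (fun V : X → ℝ => ((V x ^ 2 - s2 : ℝ) : ℂ) * f V) -
      (lam : ℂ) ^ 2 * g * Ex ν (fun V : X → ℝ => (V x : ℂ) ^ 2 * f V) := by
    have h1 : Continuous fun V : X → ℝ => (V x : ℂ) * f V := hVx.mul hfc
    have h2 : Continuous fun V : X → ℝ => ((V x ^ 2 - s2 : ℝ) : ℂ) * f V := hVx2.mul hfc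
    unfold Ex
    rw [← ones_lin3 (int_cont hν h1) (int_cont hν h2) (int_cont hν hC)]
    refine integral_congr_ae (Filter.Eventually.of_forall (fun V => ?_))
    simp only [hf]
    push_cast
    ring
  rw [e4, e5, e1, e2]

lemma kx_le (hν : BLaw ν R s2) (hH : RS H) (hz : 0 < z.im) (hlam : 0 < lam) {V : X → ℝ}
    (hV : V ∈ Box X R) {b2 Gd : ℝ} (hb : 0 ≤ b2) (hGd : 2 * R * lam * Gd ≤ 1 / 2) (x : X)
    (h1 : ‖Gv H lam z V x x - g‖ ≤ b2) (h2 : ‖Gv H lam z V x x‖ ≤ Gd) :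
    ‖kx ν s2 H lam z g x V‖ ≤ 8 * R ^ 3 * (lam ^ 2 * b2 + lam ^ 3 * Gd * (Gd + ‖g‖)) := by
  have := hν.prob
  have hR := hν.R_ge
  have hs2 := s2_le hν
  have hs0 := hν.s2_pos
  have hGd0 : 0 ≤ Gd := (norm_nonneg _).trans h2
  have hs : 2 * R * lam * ‖Gv H lam z V x x‖ ≤ 1 / 2 := le_trans (by gcongr) hGd
  have key : ∀ᵐ t ∂ν, ‖ones_k s2 H lam z g x V t‖ ≤
      8 * R ^ 3 * (lam ^ 2 * b2 + lam ^ 3 * Gd * (Gd + ‖g‖)) := by
    filter_upwards [line_ae hν] with t ht
    have h3 := one_le hH hz.ne' (by linarith) hlam.le hV ht hs x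
    have h4 := one_sub_le hH hz.ne' (by linarith) hlam.le hV ht hs x x
    have hVx := hV x
    rw [Set.mem_Icc] at hVx ht
    have h5 : ‖Gv H lam z (Function.update V x t) x x - g‖ ≤ b2 + 4 * R * lam * Gd ^ 2 := by
      have e1 : Gv H lam z (Function.update V x t) x x - g = (Gv H lam z V x x - g) -
          (Gv H lam z V x x - Gv H lam z (Function.update V x t) x x) := by ring
      rw [e1]
      refine (norm_sub_le _ _).trans (add_le_add h1 (h4.trans ?_))
      unfold ee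
      calc 4 * R * lam * ‖Gv H lam z V x x‖ * ‖Gv H lam z V x x‖ ≤ 4 * R * lam * Gd * Gd := by gcongr
        _ = _ := by ring
    have h6 : ‖Gv H lam z (Function.update V x t) x x‖ ≤ 2 * Gd := h3.trans (by linarith)
    have h7 : |V x| ≤ R := abs_le.2 hVx
    have h8 : |V x - t| ≤ 2 * R := by
      rw [abs_le]
      constructor <;> linarith
    have h9 : |V x ^ 2 - s2| ≤ R ^ 2 := by
      have : V x ^ 2 ≤ R ^ 2 := sq_le_sq' hVx.1 hVx.2
      rw [abs_le]
      constructor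
      · nlinarith [sq_nonneg (V x)]
      · linarith
    unfold ones_k
    refine (norm_sub_le _ _).trans ?_
    rw [norm_mul, norm_mul, norm_mul, Complex.norm_real, Complex.norm_real, Real.norm_eq_abs,
      Real.norm_eq_abs, abs_mul, abs_mul, abs_mul, abs_mul, abs_of_nonneg (by positivity : 0 ≤ lam ^ 2),
      abs_of_nonneg (by positivity : 0 ≤ lam ^ 3)]
    have hR0 : 0 ≤ R := by linarith
    calc lam ^ 2 * |V x| * |V x - t| * ‖Gv H lam z (Function.update V x t) x x - g‖ +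
          lam ^ 3 * |V x ^ 2 - s2| * |V x - t| * ‖g‖ * ‖Gv H lam z (Function.update V x t) x x‖
        ≤ lam ^ 2 * R * (2 * R) * (b2 + 4 * R * lam * Gd ^ 2) +
          lam ^ 3 * R ^ 2 * (2 * R) * ‖g‖ * (2 * Gd) := by gcongr
      _ = 2 * R ^ 2 * (lam ^ 2 * b2) + 8 * R ^ 3 * (lam ^ 3 * Gd ^ 2) + 4 * R ^ 3 * (lam ^ 3 * Gd * ‖g‖) := by
          ring
      _ ≤ 8 * R ^ 3 * (lam ^ 2 * b2) + 8 * R ^ 3 * (lam ^ 3 * Gd ^ 2) +
          8 * R ^ 3 * (lam ^ 3 * Gd * ‖g‖) := by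
          have e2 : R ^ 2 ≤ R ^ 3 := pow_le_pow_right₀ hR (by norm_num)
          have e3 : 2 * R ^ 2 ≤ 8 * R ^ 3 := by nlinarith [pow_nonneg hR0 3]
          have e4 : 4 * R ^ 3 ≤ 8 * R ^ 3 := by nlinarith [pow_nonneg hR0 3]
          have e5 : 0 ≤ lam ^ 2 * b2 := by positivity
          have e6 : 0 ≤ lam ^ 3 * Gd * ‖g‖ := by positivity
          have := mul_le_mul_of_nonneg_right e3 e5
          have := mul_le_mul_of_nonneg_right e4 e6
          linarith
      _ = _ := by ring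
  have h3 := norm_integral_le_of_norm_le_const key
  rw [probReal_univ, mul_one] at h3
  exact h3

lemma kx_crude (hν : BLaw ν R s2) (hH : RS H) (hz : 0 < z.im) (hlam : 0 < lam) (hl1 : lam ≤ 1)
    {V : X → ℝ} (hV : V ∈ Box X R) (x : X) :
    ‖kx ν s2 H lam z g x V‖ ≤ 8 * R ^ 3 * ((1 + ‖g‖) * (1 + 1 / z.im)) := by
  have := hν.prob
  have hR := hν.R_ge
  have hs2 := s2_le hν
  have hs0 := hν.s2_pos
  have key : ∀ᵐ t ∂ν, ‖ones_k s2 H lam z g x V t‖ ≤ 8 * R ^ 3 * ((1 + ‖g‖) * (1 + 1 / z.im)) := by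
    filter_upwards [line_ae hν] with t ht
    have hVx := hV x
    rw [Set.mem_Icc] at hVx ht
    have h6 : ‖Gv H lam z (Function.update V x t) x x‖ ≤ 1 / z.im := norm_Gr_le hH _ hz x x
    have h5 : ‖Gv H lam z (Function.update V x t) x x - g‖ ≤ 1 / z.im + ‖g‖ :=
      (norm_sub_le _ _).trans (add_le_add h6 le_rfl)
    have h7 : |V x| ≤ R := abs_le.2 hVx
    have h8 : |V x - t| ≤ 2 * R := by
      rw [abs_le]
      constructor <;> linarith
    have h9 : |V x ^ 2 - s2| ≤ R ^ 2 := by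
      have : V x ^ 2 ≤ R ^ 2 := sq_le_sq' hVx.1 hVx.2
      rw [abs_le]
      constructor
      · nlinarith [sq_nonneg (V x)]
      · linarith
    unfold ones_k
    refine (norm_sub_le _ _).trans ?_
    rw [norm_mul, norm_mul, norm_mul, Complex.norm_real, Complex.norm_real, Real.norm_eq_abs,
      Real.norm_eq_abs, abs_mul, abs_mul, abs_mul, abs_mul, abs_of_nonneg (by positivity : 0 ≤ lam ^ 2),
      abs_of_nonneg (by positivity : 0 ≤ lam ^ 3)]
    have hR0 : 0 ≤ R := by linarith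
    have hη : 0 < 1 / z.im := by positivity
    calc lam ^ 2 * |V x| * |V x - t| * ‖Gv H lam z (Function.update V x t) x x - g‖ +
          lam ^ 3 * |V x ^ 2 - s2| * |V x - t| * ‖g‖ * ‖Gv H lam z (Function.update V x t) x x‖
        ≤ 1 ^ 2 * R * (2 * R) * (1 / z.im + ‖g‖) +
          1 ^ 3 * R ^ 2 * (2 * R) * ‖g‖ * (1 / z.im) := by gcongr
      _ = 2 * R ^ 2 * (1 / z.im + ‖g‖) + 2 * R ^ 3 * (‖g‖ * (1 / z.im)) := by ring
      _ ≤ 8 * R ^ 3 * (1 / z.im + ‖g‖) + 8 * R ^ 3 * (‖g‖ * (1 / z.im)) + 8 * R ^ 3 := by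
          have e2 : R ^ 2 ≤ R ^ 3 := pow_le_pow_right₀ hR (by norm_num)
          have e0 : 0 ≤ R ^ 3 := by positivity
          have e3 : 2 * R ^ 2 ≤ 8 * R ^ 3 := by nlinarith
          have e4 : 2 * R ^ 3 ≤ 8 * R ^ 3 := by nlinarith
          have e5 : 0 ≤ 1 / z.im + ‖g‖ := by positivity
          have e6 : 0 ≤ ‖g‖ * (1 / z.im) := by positivity
          have := mul_le_mul_of_nonneg_right e3 e5
          have := mul_le_mul_of_nonneg_right e4 e6
          linarith
      _ = _ := by ring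
  have h3 := norm_integral_le_of_norm_le_const key
  rw [probReal_univ, mul_one] at h3
  exact h3

end Pool.Agent.BK3
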