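import Pool.Agent.BK3.StW
import Pool.Agent.BK3.FamQ
import Pool.Agent.BK3.DFr

/-! BK3 module StDg: the global gradient norm `Dg = (∑_u c.D_u²)^(1/2)` is at the level `lam^(e/2)`. On the support
of `chi`, with `mink` (`ρ = 1`) for the three families and `dfr1, dfr2, dfr3`, `famq`:
family 1: `≤ p 2^p (∑_w T1_w^(p-1) + card · lam^(e(p-1)/2)) lam^(-1)`;
family 2: `≤ lam^(-e/100) lam^(e-t)`; family 3: `≤ lam^(-e/100) lam^(49e)`.
The sum `∑_w T1_w^(p-1)`, `T1 = G4/b4`, is at the level `lam^2` by `domF_sumpow` (`k = p-1`, `K = 43 d`, `a = e/5`,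
`b = 2`: `(p-1) e/5 ≥ 1999 d ≥ 43 d + 2`), from `stT1`. So `Dg ≤ K (lam^(-1) ∑ T1^(p-1) + lam^(e/2))` on the
support: `domF_mono` with `Q = lam^(-1) ∑ T1^(p-1)` (`domF_scale`, `domF_weaken`). -/

open MeasureTheory Finset Matrix Pool.Agent.BK

noncomputable section

namespace Pool.Agent.BK3

variable {ν : Measure ℝ} {R s2 : ℝ}

private lemma stdg_card {c : Cx} {lam0 : ℝ} {π : Par} (hπ : π ∈ c.S ν lam0) :
    (Fintype.card (Tor c.d π.n) : ℝ) ≤ π.lam ^ (-(43 * (c.d : ℝ))) := by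
  have h0 : 0 < π.lam := hπ.1.1
  have h1 : 2 * (π.n : ℝ) + 1 ≤ π.lam ^ (-(43 : ℝ)) := hπ.1.2.2.2.1
  have h2 : (Fintype.card (Tor c.d π.n) : ℝ) = (2 * (π.n : ℝ) + 1) ^ c.d := by
    rw [Fintype.card_fun, ZMod.card, Fintype.card_fin]
    push_cast
    rfl
  rw [h2]
  calc (2 * (π.n : ℝ) + 1) ^ c.d ≤ (π.lam ^ (-(43 : ℝ))) ^ c.d :=
        pow_le_pow_left₀ (by positivity) h1 _
    _ = π.lam ^ (-(43 * (c.d : ℝ))) := by
      rw [rp_pow h0]
      congr 1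
      ring

private lemma stdg_ee {X : Type} [Fintype X] [DecidableEq X] {R lam : ℝ} (hR : 0 ≤ R)
    (hl : 0 ≤ lam) (A : Matrix X X ℂ) (w y u : X) : 0 ≤ ee R lam A w y u := by
  unfold ee
  positivity

private lemma stdg_lm {X : Type} [Fintype X] [DecidableEq X] {φ : X → X → ℝ}
    (hφ : ∀ x y, 0 ≤ φ x y) (A : Matrix X X ℂ) (w y : X) : 0 ≤ lm φ A w y :=
  Finset.sum_nonneg fun x _ => mul_nonneg (hφ y x) (sq_nonneg _)

private lemma stdg_G4 {X : Type} [Fintype X] [DecidableEq X] (A : Matrix X X ℂ) (w : X) :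
    0 ≤ G4 A w := Finset.sum_nonneg fun y _ => by positivity

private lemma stdg_D1 {X : Type} [Fintype X] [DecidableEq X] {R lam b4 : ℝ} (hR : 0 ≤ R)
    (hl : 0 ≤ lam) (hb : 0 < b4) (A : Matrix X X ℂ) (w u : X) : 0 ≤ D1 R lam b4 A w u := by
  unfold D1
  refine div_nonneg (Finset.sum_nonneg fun y _ => ?_) hb.le
  have := stdg_ee hR hl A w y u
  positivity

private lemma stdg_D2 {X : Type} [Fintype X] [DecidableEq X] {R lam b2 : ℝ} (hR : 0 ≤ R)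
    (hl : 0 ≤ lam) (hb : 0 < b2) (A : Matrix X X ℂ) (x u : X) : 0 ≤ D2 R lam b2 A x u :=
  div_nonneg (stdg_ee hR hl A x x u) hb.le

private lemma stdg_D3 {X : Type} [Fintype X] [DecidableEq X] {R lam b3 : ℝ} (hR : 0 ≤ R)
    (hl : 0 ≤ lam) (hb : 0 < b3) {φ : X → X → ℝ} (hφ : ∀ x y, 0 ≤ φ x y) (A : Matrix X X ℂ)
    (w y u : X) : 0 ≤ D3 φ R lam b3 A w y u := by
  unfold D3
  have := stdg_lm hφ A u y
  positivity

private lemma stdg_sqrt {X : Type} [Fintype X] {S1 S2 S3 : X → ℝ} {A1 A2 A3 : ℝ}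
    (h1 : 0 ≤ A1) (h2 : 0 ≤ A2) (h3 : 0 ≤ A3) (g1 : ∑ u, S1 u ^ 2 ≤ A1 ^ 2)
    (g2 : ∑ u, S2 u ^ 2 ≤ A2 ^ 2) (g3 : ∑ u, S3 u ^ 2 ≤ A3 ^ 2) :
    √(∑ u, (S1 u + S2 u + S3 u) ^ 2) ≤ 2 * (A1 + A2 + A3) := by
  rw [Real.sqrt_le_left (by positivity)]
  have h4 : ∑ u, (S1 u + S2 u + S3 u) ^ 2 ≤
      3 * (∑ u, S1 u ^ 2) + 3 * (∑ u, S2 u ^ 2) + 3 * (∑ u, S3 u ^ 2) := by
    rw [Finset.mul_sum, Finset.mul_sum, Finset.mul_sum, ← Finset.sum_add_distrib,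
      ← Finset.sum_add_distrib]
    refine Finset.sum_le_sum fun u _ => ?_
    nlinarith [sq_nonneg (S1 u - S2 u), sq_nonneg (S1 u - S3 u), sq_nonneg (S2 u - S3 u)]
  nlinarith [mul_nonneg h1 h2, mul_nonneg h1 h3, mul_nonneg h2 h3]

private lemma stdg_e (c : Cx) (hc : c.Ok) : c.e ≤ 1 / 100 := by
  have := hc.room
  have := hc.A2
  have := hc.y0
  linarith

theorem stDg (hν : BLaw ν R s2) (c : Cx) (hc : c.Ok) :
    DomF c ν (fun _ => Unit) (fun π _ V => √(∑ u, c.D ν R π u V ^ 2)) (c.e / 2) := by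
  have he := hc.e0
  have he1 := stdg_e c hc
  have hd : (3 : ℝ) ≤ c.d := by exact_mod_cast hc.d3
  have hpp := hc.pp
  have hp0 : (0 : ℝ) < c.p := by
    by_contra h
    have h1 : (c.p : ℝ) = 0 := le_antisymm (not_lt.1 h) (Nat.cast_nonneg _)
    rw [h1, mul_zero] at hpp
    linarith
  have hp1 : 1 ≤ c.p := by
    have : 0 < c.p := by exact_mod_cast hp0
    omega
  have hpc : ((c.p - 1 : ℕ) : ℝ) = (c.p : ℝ) - 1 := by rw [Nat.cast_sub hp1, Nat.cast_one]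
  -- the sum of the powers
  have hT1 := stT1 hν c hc
  have hcont : ∀ π : Par, 0 < π.eta → ∀ w : Tor c.d π.n,
      Continuous fun V : Tor c.d π.n → ℝ => G4 (GG c.d π.n π.lam π.z V) w / c.b4 π.lam := by
    intro π hη w
    unfold G4
    refine (continuous_finsetSum _ fun y _ => ?_).div_const _
    exact (((continuous_Gr (RS_H0 c.d π.n) π.lam (z := π.z) hη.ne').matrix_elem w y).norm).pow 4
  have hsum := domF_sumpow hν hc (b := 2) (K := 43 * c.d) hcont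
    ⟨1, one_pos, fun π hπ => stdg_card hπ⟩ hT1 (c.p - 1) (by rw [hpc]; nlinarith)
  have hsc := domF_scale hc (b := -1) 1 (fun π => π.lam ^ (-1 : ℝ)) ⟨1, one_pos, fun π hπ => by
      rw [abs_of_nonneg (rp_pos hπ.1.1 _).le, one_mul]⟩ hsum
  have hQ := domF_weaken hc (b := c.e / 2) (by linarith) hsc
  refine domF_mono hν hc (2 * (c.p * 2 ^ c.p + 2)) (fun _ _ => ()) ?_ hQ ?_
  · intro π hη _
    exact continuous_const.mul (continuous_finsetSum _ fun w _ => ((hcont π hη w).abs.pow _))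
  · intro ℓ
    obtain ⟨l1, hl1, hl11, hd1⟩ := dfr1 hν c hc ℓ
    obtain ⟨l2, hl2, hl21, hd2⟩ := dfr2 hν c hc ℓ
    obtain ⟨l3, hl3, hl31, hd3⟩ := dfr3 hν c hc ℓ
    obtain ⟨l4, hl4, hl41, hfam⟩ := famn hc.d3 he he1 hpp (3 * 2 ^ ℓ)
      (by have : (1 : ℝ) ≤ 2 ^ ℓ := one_le_pow₀ (by norm_num)
          linarith)
    refine ⟨min (min l1 l2) (min l3 l4), by positivity, fun π hπ _ V _ hV => ?_⟩
    have hπ1 : π ∈ c.S ν l1 := c.S_mono ν ((min_le_left _ _).trans (min_le_left _ _)) hπ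
    have hπ2 : π ∈ c.S ν l2 := c.S_mono ν ((min_le_left _ _).trans (min_le_right _ _)) hπ
    have hπ3 : π ∈ c.S ν l3 := c.S_mono ν ((min_le_right _ _).trans (min_le_left _ _)) hπ
    have hπ4 : π ∈ c.S ν l4 := c.S_mono ν ((min_le_right _ _).trans (min_le_right _ _)) hπ
    obtain ⟨h0, h1, hη⟩ := ok_pos hc hl41 hπ4
    have hR0 : 0 ≤ R := zero_le_one.trans hν.R_ge
    have hb4 : 0 < c.b4 π.lam := rp_pos h0 _
    have hb2 : 0 < c.b2 π.lam := rp_pos h0 _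
    have hb3 : 0 < c.b3 π.lam := rp_pos h0 _
    have hφ : ∀ x y : Tor c.d π.n, 0 ≤ ph2 (c.rw π.lam) x y := fun x y => (Real.exp_pos _).le
    obtain ⟨d11, -, d13⟩ := hd1 π hπ1 V hV
    obtain ⟨d21, d22⟩ := hd2 π hπ2 V hV
    obtain ⟨d31, d32⟩ := hd3 π hπ3 V hV
    set A := GG c.d π.n π.lam π.z V with hA
    set φ := ph2 (d := c.d) (n := π.n) (c.rw π.lam) with hφdef
    have hcard := stdg_card hπ4
    have hcard0 : (0 : ℝ) ≤ Fintype.card (Tor c.d π.n) := Nat.cast_nonneg _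
    -- the three sums of F
    have hF := (chi_ne c ν ℓ π V).1 hV
    have hFe : c.F ν π V = ∑ w, (G4 A w / c.b4 π.lam) ^ c.p +
      ∑ x, (‖A x x - gb ν c.d π‖ / c.b2 π.lam) ^ c.p +
      ∑ w, ∑ y, (lm φ A w y / c.b3 π.lam) ^ c.p := rfl
    have t1 : ∀ w, 0 ≤ G4 A w / c.b4 π.lam := fun w => div_nonneg (stdg_G4 A w) hb4.le
    have t2 : ∀ x, 0 ≤ ‖A x x - gb ν c.d π‖ / c.b2 π.lam := fun x =>
      div_nonneg (norm_nonneg _) hb2.le
    have t3 : ∀ w y, 0 ≤ lm φ A w y / c.b3 π.lam := fun w y =>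
      div_nonneg (stdg_lm hφ A w y) hb3.le
    have s1 : 0 ≤ ∑ w, (G4 A w / c.b4 π.lam) ^ c.p :=
      Finset.sum_nonneg fun w _ => pow_nonneg (t1 w) _
    have s2' : 0 ≤ ∑ x, (‖A x x - gb ν c.d π‖ / c.b2 π.lam) ^ c.p :=
      Finset.sum_nonneg fun x _ => pow_nonneg (t2 x) _
    have s3 : 0 ≤ ∑ w, ∑ y, (lm φ A w y / c.b3 π.lam) ^ c.p :=
      Finset.sum_nonneg fun w _ => Finset.sum_nonneg fun y _ => pow_nonneg (t3 w y) _
    -- family 1
    have f1 := mink hp1 (fun w => G4 A w / c.b4 π.lam) t1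
      (fun w u => D1 R π.lam (c.b4 π.lam) A w u)
      (fun w u => stdg_D1 hR0 h0.le hb4 A w u) (fun _ => 1) (fun _ => zero_le_one)
      (rp_pos h0 (c.e / 2)).le (rp_pos h0 (-1)).le d11
      (by intro w; simp only [one_mul]; exact d13 w)
    simp only [one_mul] at f1
    -- family 2
    have f2 := (hfam π.lam h0 hπ4.1.2.1 (Tor c.d π.n) (Tor c.d π.n)
      (hcard.trans (rp_anti h0 h1 (by nlinarith)))
      (fun x => ‖A x x - gb ν c.d π‖ / c.b2 π.lam) t2 (by rw [hFe] at hF; linarith)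
      (fun x u => D2 R π.lam (c.b2 π.lam) A x u)
      (fun x u => stdg_D2 hR0 h0.le hb2 A x u) d21).2 (fun _ => 1) (π.lam ^ (c.e - c.t))
      (fun _ => zero_le_one) (rp_pos h0 _).le (by intro x; simp only [one_mul]; exact d22 x)
    simp only [one_mul] at f2
    -- family 3
    have f3 := (hfam π.lam h0 hπ4.1.2.1 (Tor c.d π.n) (Tor c.d π.n × Tor c.d π.n)
      (by
        rw [Fintype.card_prod, Nat.cast_mul]
        calc (Fintype.card (Tor c.d π.n) : ℝ) * Fintype.card (Tor c.d π.n)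
            ≤ π.lam ^ (-(43 * (c.d : ℝ))) * π.lam ^ (-(43 * (c.d : ℝ))) :=
              mul_le_mul hcard hcard hcard0 (rp_pos h0 _).le
          _ = π.lam ^ (-(86 * (c.d : ℝ))) := by
            rw [← Real.rpow_add h0]
            congr 1
            ring)
      (fun i => lm φ A i.1 i.2 / c.b3 π.lam) (fun i => t3 i.1 i.2)
      (by
        rw [Fintype.sum_prod_type]
        rw [hFe] at hF
        linarith)
      (fun i u => D3 φ R π.lam (c.b3 π.lam) A i.1 i.2 u)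
      (fun i u => stdg_D3 hR0 h0.le hb3 hφ A i.1 i.2 u) (fun i u => d31 i.1 i.2 u)).2
      (fun _ => 1) (π.lam ^ (49 * c.e)) (fun _ => zero_le_one) (rp_pos h0 _).le
      (by intro i; simp only [one_mul]; exact d32 i.1 i.2)
    simp only [one_mul] at f3
    have hDe : ∀ u, c.D ν R π u V =
        ∑ w, c.p * (G4 A w / c.b4 π.lam + D1 R π.lam (c.b4 π.lam) A w u) ^ (c.p - 1) *
          D1 R π.lam (c.b4 π.lam) A w u +
        ∑ x, c.p * (‖A x x - gb ν c.d π‖ / c.b2 π.lam + D2 R π.lam (c.b2 π.lam) A x u) ^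
          (c.p - 1) * D2 R π.lam (c.b2 π.lam) A x u +
        ∑ i : Tor c.d π.n × Tor c.d π.n, c.p * (lm φ A i.1 i.2 / c.b3 π.lam +
          D3 φ R π.lam (c.b3 π.lam) A i.1 i.2 u) ^ (c.p - 1) *
            D3 φ R π.lam (c.b3 π.lam) A i.1 i.2 u := by
      intro u
      rw [Fintype.sum_prod_type]
      rfl
    have hTs : ∑ w, |G4 A w / c.b4 π.lam| ^ (c.p - 1) =
        ∑ w, (G4 A w / c.b4 π.lam) ^ (c.p - 1) :=
      Finset.sum_congr rfl fun w _ => by rw [abs_of_nonneg (t1 w)]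
    have hT0 : 0 ≤ ∑ w, (G4 A w / c.b4 π.lam) ^ (c.p - 1) :=
      Finset.sum_nonneg fun w _ => pow_nonneg (t1 w) _
    have hl1' : 0 < π.lam ^ (-1 : ℝ) := rp_pos h0 _
    have hsq := stdg_sqrt (by positivity) (mul_nonneg (rp_pos h0 _).le (rp_pos h0 _).le)
      (mul_nonneg (rp_pos h0 _).le (rp_pos h0 _).le) f1 f2 f3
    rw [abs_of_nonneg (Real.sqrt_nonneg _), hTs, abs_of_nonneg (mul_nonneg hl1'.le hT0)]
    simp_rw [hDe]
    refine hsq.trans ?_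
    have e2 : π.lam ^ (-(c.e / 100)) * π.lam ^ (c.e - c.t) ≤ π.lam ^ (c.e / 2) := by
      rw [← Real.rpow_add h0]
      refine rp_anti h0 h1 ?_
      unfold Cx.t
      linarith
    have e3 : π.lam ^ (-(c.e / 100)) * π.lam ^ (49 * c.e) ≤ π.lam ^ (c.e / 2) := by
      rw [← Real.rpow_add h0]
      refine rp_anti h0 h1 ?_
      linarith
    have e1 : (Fintype.card (Tor c.d π.n) : ℝ) * (π.lam ^ (c.e / 2)) ^ (c.p - 1) *
        π.lam ^ (-1 : ℝ) ≤ π.lam ^ (c.e / 2) := by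
      calc (Fintype.card (Tor c.d π.n) : ℝ) * (π.lam ^ (c.e / 2)) ^ (c.p - 1) *
            π.lam ^ (-1 : ℝ)
          ≤ π.lam ^ (-(43 * (c.d : ℝ))) * (π.lam ^ (c.e / 2)) ^ (c.p - 1) *
            π.lam ^ (-1 : ℝ) := by
            have := rp_pos h0 (c.e / 2)
            gcongr
        _ ≤ π.lam ^ (c.e / 2) := by
          rw [rp_pow h0, ← Real.rpow_add h0, ← Real.rpow_add h0, hpc]
          refine rp_anti h0 h1 ?_
          nlinarith
    have hp2 : (0 : ℝ) ≤ c.p * 2 ^ c.p := by positivity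
    have e1' := mul_le_mul_of_nonneg_left e1 hp2
    have hl2' : 0 < π.lam ^ (c.e / 2) := rp_pos h0 _
    nlinarith [mul_nonneg hl1'.le hT0]

end Pool.Agent.BK3
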