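import Pool.Agent.BK3.StES
import Pool.Agent.BK3.StDg

/-! BK3 module OrC: masses of arbitrary sets are concentrated. `h(O) = ∑_{y ∈ O} |G_0y|²`. `or_chg`: change at one
site (as `fd3`): with `B_u = ∑_{y ∈ O} G_uy conj(G_0y)`, `G^t_0y = G_0y - c G_uy`, `c = lam (t - V_u) G^t_0u`
(`one_id'`), `|c| ≤ 4 R lam |G_0u|` (`one_le`): `|h - h^t| ≤ 8 R lam |G_0u||B_u| + 16 R² lam² |G_0u|² ∑_{y∈O}|G_uy|²`.
`or_sq`: with region data (`G4 ≤ B`, `|G_xx| ≤ Gd`): `|B_u| ≤ Gd/η` (Cauchy-Schwarz, `ward`), `∑_u |B_u|² ≤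
(1/η)² ∑_{y∈O} |G_0y|² ≤ (1/η)² Gd/η` (`B = G` applied to the vector `1_O conj(G_0·)`, `nsq_Gr_mulVec`), so
`∑_u |G_0u|²|B_u|² ≤ B^(1/2) (∑|B_u|⁴)^(1/2) ≤ B^(1/2) (Gd/η)^(3/2)/η`, and the second part `≤ lam⁴ B (Gd/η)²`:
`∑ δ² ≤ C (lam² B^(1/2) (Gd/η)^(3/2)/η + lam⁴ B (Gd/η)²)`.
`orC`: `ESH` with `h(O) - E h(O)`, `a = 1 - y - 5A/4 - 4t` (`η ≥ lam^A`), `stES`, `stDg`; crude `2 lam^(-6)`; mean as in
`St3`. -/

open MeasureTheory Finset Matrix Pool.Agent.BK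

noncomputable section

namespace Pool.Agent.BK3

/-- `∑_{y ∈ O} |A_0y|²`. -/
def msO {X : Type} [Fintype X] (A : Matrix X X ℂ) (o : X) (O : Finset X) : ℝ :=
  ∑ y ∈ O, ‖A o y‖ ^ 2

/-- Bound of its change. -/
def dO {X : Type} [Fintype X] (R lam : ℝ) (A : Matrix X X ℂ) (o : X) (O : Finset X) (u : X) : ℝ :=
  8 * R * lam * ‖A o u‖ * ‖∑ y ∈ O, A u y * starRingEnd ℂ (A o y)‖ +
    16 * R ^ 2 * lam ^ 2 * ‖A o u‖ ^ 2 * msO A u O

theorem or_chg {X : Type} [Fintype X] [DecidableEq X] {H : Matrix X X ℂ} {R lam : ℝ} {z : ℂ}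
    (hH : RS H) (hz : z.im ≠ 0) (hR : 0 ≤ R) (hlam : 0 ≤ lam) {V : X → ℝ}
    (hV : V ∈ Box X R) {u : X} {t : ℝ} (ht : t ∈ Set.Icc (-R) R)
    (hs : 2 * R * lam * ‖Gv H lam z V u u‖ ≤ 1 / 2) (o : X) (O : Finset X) :
    |msO (Gv H lam z V) o O - msO (Gv H lam z (Function.update V u t)) o O| ≤
      dO R lam (Gv H lam z V) o O u := by
  unfold dO
  set A := Gv H lam z V with hA
  set A' := Gv H lam z (Function.update V u t) with hA'
  set c : ℂ := ((lam * (t - V u) : ℝ) : ℂ) * A' o u with hc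
  have hid : ∀ x, A' o x = A o x - c * A u x := by
    intro x
    have h1 := one_id' (lam := lam) hH hz V u t o x
    rw [← hA, ← hA'] at h1
    rw [hc, ← h1]
    ring
  have hcn : ‖c‖ ≤ 4 * R * lam * ‖A o u‖ := by
    rw [hc, norm_mul, Complex.norm_real, Real.norm_eq_abs, abs_mul, abs_of_nonneg hlam]
    have h1 : |t - V u| ≤ 2 * R := by
      have h2 := hV u
      rw [abs_le]
      constructor
      · linarith [ht.1, h2.2]
      · linarith [ht.2, h2.1]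
    have h2 := one_le hH hz hR hlam hV ht hs o
    calc lam * |t - V u| * ‖A' o u‖ ≤ lam * (2 * R) * (2 * ‖A o u‖) := by gcongr
      _ = 4 * R * lam * ‖A o u‖ := by ring
  have hdiff : msO A o O - msO A' o O =
      2 * (c * ∑ y ∈ O, A u y * starRingEnd ℂ (A o y)).re - ‖c‖ ^ 2 * msO A u O := by
    unfold msO
    rw [Finset.mul_sum, Finset.mul_sum, Complex.re_sum, Finset.mul_sum, ← Finset.sum_sub_distrib,
      ← Finset.sum_sub_distrib]
    refine Finset.sum_congr rfl fun x _ => ?_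
    rw [hid x]
    have h1 : ‖A o x - c * A u x‖ ^ 2 =
        ‖A o x‖ ^ 2 - 2 * (c * (A u x * starRingEnd ℂ (A o x))).re + ‖c‖ ^ 2 * ‖A u x‖ ^ 2 := by
      rw [← Complex.normSq_eq_norm_sq, ← Complex.normSq_eq_norm_sq, ← Complex.normSq_eq_norm_sq,
        ← Complex.normSq_eq_norm_sq]
      simp only [Complex.normSq_apply, Complex.sub_re, Complex.sub_im, Complex.mul_re,
        Complex.mul_im, Complex.conj_re, Complex.conj_im]
      ring
    rw [h1]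
    ring
  rw [hdiff]
  have hlm : 0 ≤ msO A u O := Finset.sum_nonneg fun x _ => by positivity
  have h1 : |2 * (c * ∑ y ∈ O, A u y * starRingEnd ℂ (A o y)).re| ≤
      2 * (‖c‖ * ‖∑ y ∈ O, A u y * starRingEnd ℂ (A o y)‖) := by
    rw [abs_mul, abs_two, ← norm_mul]
    exact mul_le_mul_of_nonneg_left (Complex.abs_re_le_norm _) zero_le_two
  have h2 : |‖c‖ ^ 2 * msO A u O| = ‖c‖ ^ 2 * msO A u O := abs_of_nonneg (by positivity)
  calc |2 * (c * ∑ y ∈ O, A u y * starRingEnd ℂ (A o y)).re - ‖c‖ ^ 2 * msO A u O|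
      ≤ |2 * (c * ∑ y ∈ O, A u y * starRingEnd ℂ (A o y)).re| + |‖c‖ ^ 2 * msO A u O| :=
        abs_sub _ _
    _ ≤ 2 * (‖c‖ * ‖∑ y ∈ O, A u y * starRingEnd ℂ (A o y)‖) + ‖c‖ ^ 2 * msO A u O := by
        rw [h2]; gcongr
    _ ≤ 2 * ((4 * R * lam * ‖A o u‖) * ‖∑ y ∈ O, A u y * starRingEnd ℂ (A o y)‖) +
        (4 * R * lam * ‖A o u‖) ^ 2 * msO A u O := by gcongr
    _ = _ := by ring

private lemma orc_ms_le {X : Type} [Fintype X] (A : Matrix X X ℂ) (x : X) (O : Finset X) :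
    msO A x O ≤ ∑ y, ‖A x y‖ ^ 2 :=
  Finset.sum_le_sum_of_subset_of_nonneg (Finset.subset_univ O) fun _ _ _ => by positivity

private lemma orc_ms0 {X : Type} [Fintype X] (A : Matrix X X ℂ) (x : X) (O : Finset X) :
    0 ≤ msO A x O := Finset.sum_nonneg fun _ _ => by positivity

theorem or_sq {X : Type} [Fintype X] [DecidableEq X] {H : Matrix X X ℂ} {R lam : ℝ} {z : ℂ}
    (hH : RS H) (hz : 0 < z.im) (hR : 0 ≤ R) (hlam : 0 ≤ lam) (V : X → ℝ) {B Gd : ℝ} (hB : 0 ≤ B)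
    (hGd : 0 ≤ Gd) (h4 : ∀ x, G4 (Gv H lam z V) x ≤ B) (hd : ∀ x, ‖Gv H lam z V x x‖ ≤ Gd)
    (o : X) (O : Finset X) :
    ∑ u, dO R lam (Gv H lam z V) o O u ^ 2 ≤
      128 * R ^ 2 * lam ^ 2 * (B ^ (1 / 2 : ℝ) * ((Gd / z.im) ^ (3 / 2 : ℝ) / z.im)) +
      512 * R ^ 4 * lam ^ 4 * (B * (Gd / z.im) ^ 2) := by
  set A := Gv H lam z V with hA
  set q := Gd / z.im with hq
  have hq0 : 0 ≤ q := div_nonneg hGd hz.le
  set Bu : X → ℂ := fun u => ∑ y ∈ O, A u y * starRingEnd ℂ (A o y) with hBu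
  have hw : ∀ x, ∑ y, ‖A x y‖ ^ 2 ≤ q := by
    intro x
    have h1 : ∑ y, ‖A x y‖ ^ 2 = (A x x).im / z.im := ward hH _ hz x
    rw [h1, hq]
    gcongr
    exact ((le_abs_self _).trans (Complex.abs_im_le_norm _)).trans (hd x)
  have hms : ∀ x, msO A x O ≤ q := fun x => (orc_ms_le A x O).trans (hw x)
  have hms0 : ∀ x, 0 ≤ msO A x O := fun x => orc_ms0 A x O
  have hB1 : ∀ u, ‖Bu u‖ ^ 2 ≤ q ^ 2 := by
    intro u
    have h1 : ‖Bu u‖ ≤ ∑ y ∈ O, ‖A u y‖ * ‖A o y‖ := by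
      refine (norm_sum_le _ _).trans (le_of_eq (Finset.sum_congr rfl fun y _ => ?_))
      rw [norm_mul, RCLike.norm_conj]
    calc ‖Bu u‖ ^ 2 ≤ (∑ y ∈ O, ‖A u y‖ * ‖A o y‖) ^ 2 := by gcongr
      _ ≤ (∑ y ∈ O, ‖A u y‖ ^ 2) * ∑ y ∈ O, ‖A o y‖ ^ 2 :=
          Finset.sum_mul_sq_le_sq_mul_sq _ _ _
      _ ≤ q * q := mul_le_mul (hms u) (hms o) (hms0 o) hq0
      _ = q ^ 2 := by ring
  have hB2 : ∑ u, ‖Bu u‖ ^ 2 ≤ (1 / z.im) ^ 2 * q := by
    have h1 := nsq_Gr_mulVec hH (fun x => lam * V x) hz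
      (fun y => if y ∈ O then starRingEnd ℂ (A o y) else 0)
    have h2 : nsq (Gr H (fun x => lam * V x) z *ᵥ
        fun y => if y ∈ O then starRingEnd ℂ (A o y) else 0) = ∑ u, ‖Bu u‖ ^ 2 := by
      unfold nsq
      refine Finset.sum_congr rfl fun u _ => ?_
      congr 2
      simp only [Matrix.mulVec, dotProduct, mul_ite, mul_zero]
      rw [← Finset.sum_filter, Finset.filter_mem_eq_inter, Finset.univ_inter]
      rfl
    have h3 : nsq (fun y => if y ∈ O then starRingEnd ℂ (A o y) else 0) = msO A o O := by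
      unfold nsq msO
      have h4 : ∀ y, ‖(if y ∈ O then starRingEnd ℂ (A o y) else 0)‖ ^ 2 =
          if y ∈ O then ‖A o y‖ ^ 2 else 0 := by
        intro y
        split_ifs
        · rw [RCLike.norm_conj]
        · simp
      rw [Finset.sum_congr rfl fun y _ => h4 y, ← Finset.sum_filter,
        Finset.filter_mem_eq_inter, Finset.univ_inter]
    rw [h2, h3] at h1
    exact h1.trans (mul_le_mul_of_nonneg_left (hms o) (by positivity))
  have hB4 : ∑ u, (‖Bu u‖ ^ 2) ^ 2 ≤ q ^ 3 / z.im ^ 2 := by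
    calc ∑ u, (‖Bu u‖ ^ 2) ^ 2 ≤ ∑ u, q ^ 2 * ‖Bu u‖ ^ 2 := by
          refine Finset.sum_le_sum fun u _ => ?_
          rw [sq (‖Bu u‖ ^ 2)]
          exact mul_le_mul_of_nonneg_right (hB1 u) (by positivity)
      _ = q ^ 2 * ∑ u, ‖Bu u‖ ^ 2 := by rw [Finset.mul_sum]
      _ ≤ q ^ 2 * ((1 / z.im) ^ 2 * q) := by gcongr
      _ = q ^ 3 / z.im ^ 2 := by ring
  have hG4 : ∑ u, (‖A o u‖ ^ 2) ^ 2 ≤ B := by
    have h1 := h4 o
    unfold G4 at h1
    refine le_trans (le_of_eq (Finset.sum_congr rfl fun u _ => ?_)) h1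
    ring
  have hfirst : ∑ u, ‖A o u‖ ^ 2 * ‖Bu u‖ ^ 2 ≤
      B ^ (1 / 2 : ℝ) * (q ^ (3 / 2 : ℝ) / z.im) := by
    apply le_of_sq_le_sq _ (by positivity)
    calc (∑ u, ‖A o u‖ ^ 2 * ‖Bu u‖ ^ 2) ^ 2
        ≤ (∑ u, (‖A o u‖ ^ 2) ^ 2) * ∑ u, (‖Bu u‖ ^ 2) ^ 2 :=
          Finset.sum_mul_sq_le_sq_mul_sq _ _ _
      _ ≤ B * (q ^ 3 / z.im ^ 2) := by
          apply mul_le_mul hG4 hB4 (by positivity) hB
      _ = (B ^ (1 / 2 : ℝ) * (q ^ (3 / 2 : ℝ) / z.im)) ^ 2 := by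
          have r1 : (B ^ (1 / 2 : ℝ)) ^ 2 = B := by
            rw [← Real.rpow_natCast, ← Real.rpow_mul hB]
            norm_num
          have r2 : (q ^ (3 / 2 : ℝ)) ^ 2 = q ^ 3 := by
            rw [← Real.rpow_natCast, ← Real.rpow_mul hq0, ← Real.rpow_natCast q 3]
            congr 1
            norm_num
          rw [mul_pow, div_pow (q ^ (3 / 2 : ℝ)), r1, r2]
  have hsecond : ∑ u, (‖A o u‖ ^ 2 * msO A u O) ^ 2 ≤ B * q ^ 2 := by
    calc ∑ u, (‖A o u‖ ^ 2 * msO A u O) ^ 2 ≤ ∑ u, (‖A o u‖ ^ 2) ^ 2 * q ^ 2 := by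
          refine Finset.sum_le_sum fun u _ => ?_
          rw [mul_pow]
          exact mul_le_mul_of_nonneg_left (pow_le_pow_left₀ (hms0 u) (hms u) 2) (by positivity)
      _ = (∑ u, (‖A o u‖ ^ 2) ^ 2) * q ^ 2 := by rw [Finset.sum_mul]
      _ ≤ B * q ^ 2 := by gcongr
  have hterm : ∀ u, dO R lam A o O u ^ 2 ≤ 128 * R ^ 2 * lam ^ 2 * (‖A o u‖ ^ 2 * ‖Bu u‖ ^ 2) +
      512 * R ^ 4 * lam ^ 4 * (‖A o u‖ ^ 2 * msO A u O) ^ 2 := by
    intro u
    have h1 : dO R lam A o O u = 8 * R * lam * ‖A o u‖ * ‖Bu u‖ +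
        16 * R ^ 2 * lam ^ 2 * ‖A o u‖ ^ 2 * msO A u O := rfl
    rw [h1]
    have h2 := sq_nonneg (8 * R * lam * ‖A o u‖ * ‖Bu u‖ -
        16 * R ^ 2 * lam ^ 2 * ‖A o u‖ ^ 2 * msO A u O)
    nlinarith [h2]
  calc ∑ u, dO R lam A o O u ^ 2 ≤ ∑ u, (128 * R ^ 2 * lam ^ 2 * (‖A o u‖ ^ 2 * ‖Bu u‖ ^ 2) +
      512 * R ^ 4 * lam ^ 4 * (‖A o u‖ ^ 2 * msO A u O) ^ 2) :=
        Finset.sum_le_sum fun u _ => hterm u
    _ = 128 * R ^ 2 * lam ^ 2 * (∑ u, ‖A o u‖ ^ 2 * ‖Bu u‖ ^ 2) +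
      512 * R ^ 4 * lam ^ 4 * ∑ u, (‖A o u‖ ^ 2 * msO A u O) ^ 2 := by
        rw [Finset.sum_add_distrib, Finset.mul_sum, Finset.mul_sum]
    _ ≤ _ := by gcongr

variable {ν : Measure ℝ} {R s2 : ℝ}

private lemma orc_y (c : Cx) (hc : c.Ok) : c.y < 1 / 2 := by
  have h1 := hc.room
  have h2 := hc.A2
  have h3 := hc.e0
  unfold Cx.y
  linarith

private lemma orc_t (c : Cx) (hc : c.Ok) : 0 < c.t := by
  have h3 := hc.e0
  unfold Cx.t
  positivity

private lemma orc_cont_ms {d n : ℕ} (lam : ℝ) {z : ℂ} (hz : z.im ≠ 0) (o : Tor d n)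
    (O : Finset (Tor d n)) : Continuous fun V : Tor d n → ℝ => msO (GG d n lam z V) o O := by
  unfold msO
  refine continuous_finsetSum _ fun y _ => ?_
  exact ((continuous_Gv_xy (RS_H0 d n) lam hz o y).norm).pow 2

private lemma orc_cont_dO {d n : ℕ} (R lam : ℝ) {z : ℂ} (hz : z.im ≠ 0) (o : Tor d n)
    (O : Finset (Tor d n)) (u : Tor d n) :
    Continuous fun V : Tor d n → ℝ => dO R lam (GG d n lam z V) o O u := by
  have h1 : ∀ x y, Continuous fun V : Tor d n → ℝ => GG d n lam z V x y := fun x y =>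
    continuous_Gv_xy (RS_H0 d n) lam hz x y
  have h2 := orc_cont_ms lam hz u O
  unfold dO
  refine Continuous.add ?_ ?_
  · refine Continuous.mul (continuous_const.mul (h1 o u).norm) (Continuous.norm ?_)
    exact continuous_finsetSum _ fun y _ => (h1 u y).mul (Complex.continuous_conj.comp (h1 o y))
  · exact (continuous_const.mul ((h1 o u).norm.pow 2)).mul h2

private lemma orc_ms_bd {d n : ℕ} (lam : ℝ) {z : ℂ} (hz : 0 < z.im) (V : Tor d n → ℝ)
    (o : Tor d n) (O : Finset (Tor d n)) : msO (GG d n lam z V) o O ≤ (1 / z.im) ^ 2 := by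
  refine (orc_ms_le _ _ _).trans ?_
  have h1 : ∑ y, ‖GG d n lam z V o y‖ ^ 2 = (GG d n lam z V o o).im / z.im :=
    ward (RS_H0 d n) _ hz o
  rw [h1]
  have h2 : (GG d n lam z V o o).im ≤ 1 / z.im :=
    ((le_abs_self _).trans (Complex.abs_im_le_norm _)).trans (norm_Gr_le (RS_H0 d n) _ hz o o)
  calc (GG d n lam z V o o).im / z.im ≤ (1 / z.im) / z.im := by gcongr
    _ = (1 / z.im) ^ 2 := by ring

private lemma orc_eta {c : Cx} {lam1 : ℝ} {π : Par} (hπ : π ∈ c.S ν lam1) :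
    1 / π.eta ≤ π.lam ^ (-c.A) := by
  have h0 : 0 < π.lam := hπ.1.1
  have h1 : π.lam ^ c.A ≤ π.eta := hπ.1.2.2.2.2.2.2.1
  rw [Real.rpow_neg h0.le, one_div]
  exact inv_anti₀ (rp_pos h0 _) h1

private lemma orc_mean (hν : BLaw ν R s2) {X : Type} [Fintype X] [DecidableEq X]
    {χ f : (X → ℝ) → ℝ} (hχ : Continuous χ) (hf : Continuous f) {b D : ℝ}
    (hb : 0 ≤ b) (hχ1 : ∀ V, χ V ≤ 1) (h1 : ∀ V, |f V - Ex ν f| ≤ b)
    (h2 : Ex ν (fun V => 1 - χ V) ≤ D) :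
    ‖Ex ν (fun V => (χ V : ℂ) * ((f V - Ex ν f : ℝ) : ℂ))‖ ≤ b * D := by
  have hp := hν.prob
  set m := Ex ν f with hm
  have e0 : Ex ν (fun V => ((f V - m : ℝ) : ℂ)) = 0 := by
    have h3 : Ex ν (fun V => ((f V - m : ℝ) : ℂ)) = ((Ex ν (fun V => f V - m) : ℝ) : ℂ) := by
      unfold Ex
      exact integral_ofReal
    rw [h3]
    have h4 : Ex ν (fun V => f V - m) = 0 := by
      unfold Ex
      rw [integral_sub (int_cont hν hf) (integrable_const _)]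
      have h5 := Ex_one (X := X) hν m
      unfold Ex at h5 hm
      rw [h5, ← hm, sub_self]
    rw [h4, Complex.ofReal_zero]
  have e1 : Ex ν (fun V => (χ V : ℂ) * ((f V - m : ℝ) : ℂ)) =
      -Ex ν (fun V => (((1 - χ V) * (f V - m) : ℝ) : ℂ)) := by
    have h3 : Ex ν (fun V => (χ V : ℂ) * ((f V - m : ℝ) : ℂ)) =
        Ex ν (fun V => ((f V - m : ℝ) : ℂ)) -
          Ex ν (fun V => (((1 - χ V) * (f V - m) : ℝ) : ℂ)) := by
      unfold Ex
      rw [← integral_sub]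
      · refine integral_congr_ae (Filter.Eventually.of_forall fun V => ?_)
        simp only
        push_cast
        ring
      · exact int_cont hν (Complex.continuous_ofReal.comp (hf.sub continuous_const))
      · exact int_cont hν (Complex.continuous_ofReal.comp
          ((continuous_const.sub hχ).mul (hf.sub continuous_const)))
    rw [h3, e0, zero_sub]
  rw [e1, norm_neg]
  have h6 := norm_Ex_le (R := R) hν
    (F := fun V => (((1 - χ V) * (f V - m) : ℝ) : ℂ)) (G := fun V => (1 - χ V) * b)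
    (Complex.continuous_ofReal.comp ((continuous_const.sub hχ).mul (hf.sub continuous_const)))
    ((continuous_const.sub hχ).mul continuous_const) (fun V _ => by
      rw [Complex.norm_real, Real.norm_eq_abs, abs_mul, abs_of_nonneg (sub_nonneg.2 (hχ1 V))]
      exact mul_le_mul_of_nonneg_left (h1 V) (sub_nonneg.2 (hχ1 V)))
  refine h6.trans ?_
  have h7 : Ex ν (fun V => (1 - χ V) * b) = Ex ν (fun V => 1 - χ V) * b := by
    unfold Ex
    exact integral_mul_const _ _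
  rw [h7, mul_comm]
  exact mul_le_mul_of_nonneg_left h2 hb

private lemma orc_p1 {l : ℝ} (hl : 0 < l) (y t A : ℝ) :
    l ^ 2 * ((l ^ (-(4 * y) - t)) ^ (1 / 2 : ℝ) * ((l ^ (-(3 * t) - A)) ^ (3 / 2 : ℝ) * l ^ (-A))) =
      l ^ (2 - 2 * y - 5 * t - 5 / 2 * A) := by
  rw [← Real.rpow_natCast, ← Real.rpow_mul hl.le, ← Real.rpow_mul hl.le, ← Real.rpow_add hl,
    ← Real.rpow_add hl, ← Real.rpow_add hl]
  congr 1
  push_cast
  ring

private lemma orc_p2 {l : ℝ} (hl : 0 < l) (y t A : ℝ) :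
    l ^ 4 * (l ^ (-(4 * y) - t) * (l ^ (-(3 * t) - A)) ^ 2) =
      l ^ (4 - 4 * y - 7 * t - 2 * A) := by
  rw [← Real.rpow_natCast l 4, ← Real.rpow_natCast _ 2, ← Real.rpow_mul hl.le, ← Real.rpow_add hl,
    ← Real.rpow_add hl]
  congr 1
  push_cast
  ring

theorem orC (hν : BLaw ν R s2) (c : Cx) (hc : c.Ok) :
    DomF c ν (fun π => Finset (Tor c.d π.n))
      (fun π O V => |msO (GG c.d π.n π.lam π.z V) 0 O -
        Ex ν (fun V : Tor c.d π.n → ℝ => msO (GG c.d π.n π.lam π.z V) 0 O)|)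
      (1 - c.y - 5 / 4 * c.A - 4 * c.t) := by
  have ht := orc_t c hc
  have hy := orc_y c hc
  have hR1 := hν.R_ge
  have hR0 : 0 ≤ R := by linarith
  have hA2 := hc.A2
  have hA3 := hc.A3
  have hy0 : 0 < c.y := by
    have h1 := hc.y0
    have h2 := hc.e0
    unfold Cx.y
    linarith
  have ht1 : c.t < 1 / 1000 := by
    have h1 := hc.room
    have h2 := hc.y0
    have h3 := hc.e0
    unfold Cx.t
    linarith
  set f : (π : Par) → Finset (Tor c.d π.n) → (Tor c.d π.n → ℝ) → ℝ :=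
    fun π O V => msO (GG c.d π.n π.lam π.z V) 0 O with hf
  have hcf : ∀ π : Par, 0 < π.eta → ∀ O, Continuous (f π O) := fun π hη O =>
    orc_cont_ms π.lam (z := π.z) hη.ne' 0 O
  have hf0 : ∀ (π : Par) O V, 0 ≤ f π O V := fun π O V => orc_ms0 _ _ _
  have hf1 : ∀ π : Par, 0 < π.eta → ∀ O V, f π O V ≤ (1 / π.eta) ^ 2 := fun π hη O V =>
    orc_ms_bd π.lam (z := π.z) hη V 0 O
  have hE0 : ∀ (π : Par) O, 0 ≤ Ex ν (f π O) := fun π O =>
    Ex_box_nonneg hν fun V _ => hf0 π O V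
  have hE1 : ∀ π : Par, 0 < π.eta → ∀ O, Ex ν (f π O) ≤ (1 / π.eta) ^ 2 := by
    intro π hη O
    have h1 := Ex_box_mono hν (hcf π hη O) (G := fun _ => (1 / π.eta) ^ 2) continuous_const
      (fun V _ => hf1 π hη O V)
    rwa [Ex_one hν] at h1
  have hdev : ∀ π : Par, 0 < π.eta → ∀ O V, |f π O V - Ex ν (f π O)| ≤ (1 / π.eta) ^ 2 := by
    intro π hη O V
    have h1 := hf0 π O V
    have h2 := hf1 π hη O V
    have h3 := hE0 π O
    have h4 := hE1 π hη O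
    rw [abs_le]
    constructor <;> linarith
  have hESH : ESH c ν R (fun π => Finset (Tor c.d π.n))
      (fun π O V => ((f π O V - Ex ν (f π O) : ℝ) : ℂ))
      (fun π O u V => dO R π.lam (GG c.d π.n π.lam π.z V) 0 O u)
      (1 - c.y - 5 / 4 * c.A - 4 * c.t) (2 * c.A) := by
    refine ⟨?_, ?_, ?_, ?_, ?_, ?_, ?_⟩
    · intro π hη O
      exact Complex.continuous_ofReal.comp ((hcf π hη O).sub continuous_const)
    · intro π hη O u
      exact orc_cont_dO R π.lam (z := π.z) hη.ne' 0 O u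
    · intro π hlam O u V
      have h1 := orc_ms0 (GG c.d π.n π.lam π.z V) u O
      unfold dO
      positivity
    · refine ⟨1, one_pos, fun π hπ O V _ => ?_⟩
      obtain ⟨h0, h1, hη⟩ := ok_pos hc le_rfl hπ
      rw [Complex.norm_real, Real.norm_eq_abs]
      refine (hdev π hη O V).trans ?_
      have h2 := orc_eta hπ
      calc (1 / π.eta) ^ 2 ≤ (π.lam ^ (-c.A)) ^ 2 := by gcongr
        _ = π.lam ^ (-(2 * c.A)) := by
          rw [rp_pow h0]
          congr 1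
          push_cast
          ring
    · intro ℓ
      obtain ⟨l1, hl0, hl1, hreg⟩ := regc hν c hc ℓ
      obtain ⟨l2, hl20, hl21, h2⟩ := sm_one (4 * R) (a := 1 - 3 * c.t) (by linarith)
      refine ⟨min l1 l2, lt_min hl0 hl20, fun π hπ O V hV hχ u t htt => ?_⟩
      obtain ⟨h0, h1, hη⟩ := ok_pos hc ((min_le_left l1 l2).trans hl1) hπ
      have hr := hreg π (c.S_mono ν (min_le_left _ _) hπ) V hχ
      have hs : 2 * R * π.lam * ‖Gv (H0 c.d π.n) π.lam π.z V u u‖ ≤ 1 / 2 := by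
        have h3 := hr.gd u
        unfold Cx.Gd at h3
        have h4 := h2 π.lam h0 (hπ.1.2.1.trans (min_le_right _ _))
        have h5 : π.lam * π.lam ^ (-(3 * c.t)) = π.lam ^ (1 - 3 * c.t) := by
          conv_lhs => rw [← Real.rpow_one π.lam]
          rw [Real.rpow_one π.lam, ← Real.rpow_one_add' h0.le (by linarith)]
          congr 1
        calc 2 * R * π.lam * ‖Gv (H0 c.d π.n) π.lam π.z V u u‖
            ≤ 2 * R * π.lam * π.lam ^ (-(3 * c.t)) := by gcongr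
          _ = 1 / 2 * (4 * R * π.lam ^ (1 - 3 * c.t)) := by rw [← h5]; ring
          _ ≤ 1 / 2 * 1 := by gcongr
          _ = 1 / 2 := by ring
      have h6 := or_chg (RS_H0 c.d π.n) (z := π.z) hη.ne' hR0 h0.le hV htt hs 0 O
      rw [← Complex.ofReal_sub, Complex.norm_real, Real.norm_eq_abs]
      have h7 : f π O V - Ex ν (f π O) - (f π O (Function.update V u t) - Ex ν (f π O)) =
          f π O V - f π O (Function.update V u t) := by ring
      rw [h7]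
      exact h6
    · intro ℓ
      obtain ⟨l1, hl0, hl1, hreg⟩ := regc hν c hc ℓ
      obtain ⟨l2, hl20, hl21, h2⟩ := sm_le (256 * R ^ 2)
        (a := 2 * (1 - c.y - 5 / 4 * c.A - 4 * c.t)) (b := 2 - 2 * c.y - 5 * c.t - 5 / 2 * c.A)
        (by linarith)
      obtain ⟨l3, hl30, hl31, h3⟩ := sm_le (1024 * R ^ 4)
        (a := 2 * (1 - c.y - 5 / 4 * c.A - 4 * c.t)) (b := 4 - 4 * c.y - 7 * c.t - 2 * c.A)
        (by linarith)
      refine ⟨min l1 (min l2 l3), lt_min hl0 (lt_min hl20 hl30), fun π hπ O V hV hχ => ?_⟩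
      obtain ⟨h0, h1, hη⟩ := ok_pos hc ((min_le_left _ _).trans hl1) hπ
      have hr := hreg π (c.S_mono ν (min_le_left _ _) hπ) V hχ
      have hle : π.lam ≤ min l1 (min l2 l3) := hπ.1.2.1
      have h4 := h2 π.lam h0 (hle.trans ((min_le_right _ _).trans (min_le_left _ _)))
      have h5 := h3 π.lam h0 (hle.trans ((min_le_right _ _).trans (min_le_right _ _)))
      have hB0 : 0 ≤ c.B π.lam := (rp_pos h0 _).le
      have hG0 : 0 ≤ c.Gd π.lam := (rp_pos h0 _).le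
      have h6 := or_sq (RS_H0 c.d π.n) (z := π.z) hη hR0 h0.le V hB0 hG0 hr.g4 hr.gd 0 O
      have hzi : π.z.im = π.eta := rfl
      rw [hzi] at h6
      have he := orc_eta hπ
      have hq : c.Gd π.lam / π.eta ≤ π.lam ^ (-(3 * c.t) - c.A) := by
        have h7 : π.lam ^ (-(3 * c.t) - c.A) = π.lam ^ (-(3 * c.t)) * π.lam ^ (-c.A) := by
          rw [← Real.rpow_add h0]
          congr 1
        rw [h7, div_eq_mul_one_div]
        unfold Cx.Gd
        gcongr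
      have hq0 : 0 ≤ c.Gd π.lam / π.eta := div_nonneg hG0 hη.le
      have h8 : (c.Gd π.lam / π.eta) ^ (3 / 2 : ℝ) / π.eta ≤
          (π.lam ^ (-(3 * c.t) - c.A)) ^ (3 / 2 : ℝ) * π.lam ^ (-c.A) := by
        rw [div_eq_mul_one_div]
        gcongr
      have h9 : 128 * R ^ 2 * π.lam ^ 2 * (c.B π.lam ^ (1 / 2 : ℝ) *
          ((c.Gd π.lam / π.eta) ^ (3 / 2 : ℝ) / π.eta)) ≤
          1 / 2 * π.lam ^ (2 * (1 - c.y - 5 / 4 * c.A - 4 * c.t)) := by
        calc 128 * R ^ 2 * π.lam ^ 2 * (c.B π.lam ^ (1 / 2 : ℝ) *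
            ((c.Gd π.lam / π.eta) ^ (3 / 2 : ℝ) / π.eta))
            ≤ 128 * R ^ 2 * π.lam ^ 2 * (c.B π.lam ^ (1 / 2 : ℝ) *
              ((π.lam ^ (-(3 * c.t) - c.A)) ^ (3 / 2 : ℝ) * π.lam ^ (-c.A))) := by gcongr
          _ = 1 / 2 * (256 * R ^ 2 * π.lam ^ (2 - 2 * c.y - 5 * c.t - 5 / 2 * c.A)) := by
              rw [← orc_p1 h0]
              unfold Cx.B
              ring
          _ ≤ 1 / 2 * π.lam ^ (2 * (1 - c.y - 5 / 4 * c.A - 4 * c.t)) := by gcongr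
      have h10 : 512 * R ^ 4 * π.lam ^ 4 * (c.B π.lam * (c.Gd π.lam / π.eta) ^ 2) ≤
          1 / 2 * π.lam ^ (2 * (1 - c.y - 5 / 4 * c.A - 4 * c.t)) := by
        calc 512 * R ^ 4 * π.lam ^ 4 * (c.B π.lam * (c.Gd π.lam / π.eta) ^ 2)
            ≤ 512 * R ^ 4 * π.lam ^ 4 * (c.B π.lam * (π.lam ^ (-(3 * c.t) - c.A)) ^ 2) := by
              gcongr
          _ = 1 / 2 * (1024 * R ^ 4 * π.lam ^ (4 - 4 * c.y - 7 * c.t - 2 * c.A)) := by
              rw [← orc_p2 h0]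
              unfold Cx.B
              ring
          _ ≤ 1 / 2 * π.lam ^ (2 * (1 - c.y - 5 / 4 * c.A - 4 * c.t)) := by gcongr
      have h11 : (π.lam ^ (1 - c.y - 5 / 4 * c.A - 4 * c.t)) ^ 2 =
          π.lam ^ (2 * (1 - c.y - 5 / 4 * c.A - 4 * c.t)) := by
        rw [rp_pow h0]
        norm_num
      rw [h11]
      refine h6.trans ?_
      linarith
    · intro ℓ
      refine ⟨1, one_pos, fun π hπ O => ?_⟩
      obtain ⟨h0, h1, hη⟩ := ok_pos hc le_rfl hπ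
      have he := orc_eta hπ
      have h2 := orc_mean hν (continuous_chi c ν ℓ π hη) (hcf π hη O)
        (b := (1 / π.eta) ^ 2) (D := π.lam ^ c.D0) (by positivity)
        (fun V => (chi_mem c ν ℓ π V).2) (hdev π hη O) (one_sub_chi hν c ℓ hπ)
      refine h2.trans ?_
      have hD := hc.D00
      have hd3 : (3 : ℝ) ≤ (c.d : ℝ) := by exact_mod_cast hc.d3
      calc (1 / π.eta) ^ 2 * π.lam ^ c.D0 ≤ (π.lam ^ (-c.A)) ^ 2 * π.lam ^ c.D0 := by gcongr
        _ = π.lam ^ (c.D0 - 2 * c.A) := by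
            rw [rp_pow h0, ← Real.rpow_add h0]
            congr 1
            push_cast
            ring
        _ ≤ π.lam ^ (1 - c.y - 5 / 4 * c.A - 4 * c.t) := by
            apply rp_anti h0 h1
            linarith
  have h := stES hν hc hESH (stDg hν c hc)
  intro p ℓ ε hε
  obtain ⟨C, lam0, hC, hl, h'⟩ := h p ℓ ε hε
  refine ⟨C, lam0, hC, hl, fun π hπ O => ?_⟩
  have h1 := h' π hπ O
  simp only [Complex.norm_real, Real.norm_eq_abs] at h1
  exact h1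

end Pool.Agent.BK3
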