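import Pool.Agent.BK3.Exch
import Pool.Agent.BK.Orth

/-! BK3 module OrM: the lower bound of the expected orthant masses, for a `BLaw`. These are `Ex_msT_ge`
(`BK/OrthA.lean`) and `orth_mean` (`BK/Orth.lean`) with `BLaw` instead of `NiceLaw`: the old proofs use the law only
through integrability of continuous functions and monotonicity of `Ex` (here `int_cont`, `Ex_box_mono`) and the
probability measure. `orthA_Ex`, `orthA_cover`, `orthA_le`, `orthA_cont`, `orth_cos` can be used as they are. -/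

open MeasureTheory Finset Matrix Pool.Agent.BK

noncomputable section

namespace Pool.Agent.BK3

private lemma orm_mono {ν : Measure ℝ} {R s2 : ℝ} (hν : BLaw ν R s2) {X : Type} [Fintype X]
    [DecidableEq X] {F G : (X → ℝ) → ℝ} (hF : Continuous F) (hG : Continuous G)
    (h : ∀ V, F V ≤ G V) : Ex ν F ≤ Ex ν G :=
  Ex_box_mono hν hF hG fun V _ => h V

private lemma orm_msT_ge {ν : Measure ℝ} {R s2 : ℝ} (hν : BLaw ν R s2)
    {d : ℕ} (π : Par) (hη : 0 < π.eta) (σ : Fin d → ℤˣ) (j : Fin d) (s : ℕ) :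
    (2 ^ d : ℝ)⁻¹ * Ex ν (fun V : Tor d π.n → ℝ =>
      ∑ y ∈ Finset.univ.filter (fun y : Tor d π.n => (s : ℤ) ≤ |(y j).valMinAbs|),
        ‖GG d π.n π.lam π.z V 0 y‖ ^ 2) ≤ Ex ν (msT π σ j s) := by
  classical
  have := hν.prob
  have hc : ∀ σ : Fin d → ℤˣ, Continuous (msT π σ j s) := fun σ =>
    continuous_finsetSum _ fun y _ => orthA_cont π hη y
  have h1 : Ex ν (fun V : Tor d π.n → ℝ =>
      ∑ y ∈ Finset.univ.filter (fun y : Tor d π.n => (s : ℤ) ≤ |(y j).valMinAbs|),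
        ‖GG d π.n π.lam π.z V 0 y‖ ^ 2) ≤ Ex ν (fun V => ∑ σ : Fin d → ℤˣ, msT π σ j s V) :=
    orm_mono hν (continuous_finsetSum _ fun y _ => orthA_cont π hη y)
      (continuous_finsetSum _ fun σ _ => hc σ) (orthA_le π j s)
  have h2 : Ex ν (fun V => ∑ σ : Fin d → ℤˣ, msT π σ j s V) = 2 ^ d * Ex ν (msT π σ j s) := by
    unfold Ex
    rw [integral_finset_sum _ fun σ _ => int_cont hν (hc σ)]
    have h3 : ∀ σ' : Fin d → ℤˣ, ∫ V, msT π σ' j s V ∂(Measure.pi fun _ : Tor d π.n => ν) =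
        ∫ V, msT π σ j s V ∂(Measure.pi fun _ : Tor d π.n => ν) := fun σ' => orthA_Ex π σ' σ j s
    rw [Finset.sum_congr rfl fun σ' _ => h3 σ', Finset.sum_const, nsmul_eq_mul]
    congr 1
    rw [Finset.card_univ, Fintype.card_fun, Fintype.card_units_int, Fintype.card_fin]
    push_cast
    ring
  rw [h2] at h1
  have h3 : (0 : ℝ) < 2 ^ d := by positivity
  rw [inv_mul_le_iff₀ h3]
  exact h1

theorem orth_meanX {ν : Measure ℝ} {R s2 : ℝ} (hν : BLaw ν R s2)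
    {d : ℕ} {A δ1 : ℝ} (π : Par) (hη : 0 < π.eta) (hk : 0 < kk A δ1 π) (hs : 1 ≤ sk A δ1 π)
    (σ : Fin d → ℤˣ) (j : Fin d)
    (hcur : 19 / 20 * ((gb ν d π).im / π.eta) ≤ Ex ν (fun V : Tor d π.n → ℝ =>
        ∑ y, ‖GG d π.n π.lam π.z V 0 y‖ ^ 2 *
          (1 - Real.cos (kk A δ1 π * ((y j).valMinAbs : ℝ))))) :
    (2 ^ d : ℝ)⁻¹ * (3 / 10 * ((gb ν d π).im / π.eta)) ≤ Ex ν (msT π σ j (sk A δ1 π)) := by
  classical
  have hz : 0 < π.z.im := hη
  have hcy : ∀ y : Tor d π.n, Continuous fun V : Tor d π.n → ℝ =>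
      ‖GG d π.n π.lam π.z V 0 y‖ ^ 2 := fun y => orthA_cont π hη y
  have hE1 : Ex ν (fun V : Tor d π.n → ℝ => ∑ y, ‖GG d π.n π.lam π.z V 0 y‖ ^ 2) =
      (gb ν d π).im / π.eta := by
    have h1 : (fun V : Tor d π.n → ℝ => ∑ y, ‖GG d π.n π.lam π.z V 0 y‖ ^ 2) =
        fun V : Tor d π.n → ℝ => π.eta⁻¹ * (GG d π.n π.lam π.z V 0 0).im := by
      funext V
      have h2 : ∑ y, ‖GG d π.n π.lam π.z V 0 y‖ ^ 2 =
          (GG d π.n π.lam π.z V 0 0).im / π.z.im :=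
        ward (RS_H0 d π.n) (fun x => π.lam * V x) hz 0
      rw [h2, div_eq_inv_mul]
      rfl
    rw [h1]
    have i3 : Integrable (fun V : Tor d π.n → ℝ => GG d π.n π.lam π.z V 0 0)
        (Measure.pi fun _ : Tor d π.n => ν) :=
      int_cont hν ((cur3_continuous_GG d π.n π.lam hz.ne').matrix_elem 0 0)
    rw [dom1_Ex_mul, div_eq_inv_mul]
    congr 1
    exact integral_im i3
  have hE2 : Ex ν (fun V : Tor d π.n → ℝ =>
        ∑ y, ‖GG d π.n π.lam π.z V 0 y‖ ^ 2 *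
          (1 - Real.cos (kk A δ1 π * ((y j).valMinAbs : ℝ)))) ≤
      Ex ν (fun V : Tor d π.n → ℝ => 1 / 2 * ∑ y, ‖GG d π.n π.lam π.z V 0 y‖ ^ 2 +
        3 / 2 * ∑ y ∈ Finset.univ.filter
          (fun y : Tor d π.n => (sk A δ1 π : ℤ) ≤ |(y j).valMinAbs|),
          ‖GG d π.n π.lam π.z V 0 y‖ ^ 2) := by
    refine orm_mono hν (continuous_finsetSum _ fun y _ => (hcy y).mul continuous_const)
      ((continuous_const.mul (continuous_finsetSum _ fun y _ => hcy y)).add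
        (continuous_const.mul (continuous_finsetSum _ fun y _ => hcy y))) fun V => ?_
    rw [Finset.sum_filter, Finset.mul_sum, Finset.mul_sum, ← Finset.sum_add_distrib]
    refine Finset.sum_le_sum fun y _ => ?_
    have h0 : 0 ≤ ‖GG d π.n π.lam π.z V 0 y‖ ^ 2 := by positivity
    split_ifs with hy
    · have h1 := Real.neg_one_le_cos (kk A δ1 π * ((y j).valMinAbs : ℝ))
      nlinarith
    · have h1 := orth_cos hk j y hy
      nlinarith
  have hE3 : Ex ν (fun V : Tor d π.n → ℝ => 1 / 2 * ∑ y, ‖GG d π.n π.lam π.z V 0 y‖ ^ 2 +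
        3 / 2 * ∑ y ∈ Finset.univ.filter
          (fun y : Tor d π.n => (sk A δ1 π : ℤ) ≤ |(y j).valMinAbs|),
          ‖GG d π.n π.lam π.z V 0 y‖ ^ 2) =
      1 / 2 * Ex ν (fun V : Tor d π.n → ℝ => ∑ y, ‖GG d π.n π.lam π.z V 0 y‖ ^ 2) +
      3 / 2 * Ex ν (fun V : Tor d π.n → ℝ => ∑ y ∈ Finset.univ.filter
          (fun y : Tor d π.n => (sk A δ1 π : ℤ) ≤ |(y j).valMinAbs|),
          ‖GG d π.n π.lam π.z V 0 y‖ ^ 2) := by
    have h1 : Ex ν (fun V : Tor d π.n → ℝ => 1 / 2 * ∑ y, ‖GG d π.n π.lam π.z V 0 y‖ ^ 2 +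
        3 / 2 * ∑ y ∈ Finset.univ.filter
          (fun y : Tor d π.n => (sk A δ1 π : ℤ) ≤ |(y j).valMinAbs|),
          ‖GG d π.n π.lam π.z V 0 y‖ ^ 2) =
        Ex ν (fun V : Tor d π.n → ℝ => 1 / 2 * ∑ y, ‖GG d π.n π.lam π.z V 0 y‖ ^ 2) +
        Ex ν (fun V : Tor d π.n → ℝ => 3 / 2 * ∑ y ∈ Finset.univ.filter
          (fun y : Tor d π.n => (sk A δ1 π : ℤ) ≤ |(y j).valMinAbs|),
          ‖GG d π.n π.lam π.z V 0 y‖ ^ 2) :=
      integral_add
        (int_cont hν (continuous_const.mul (continuous_finsetSum _ fun y _ => hcy y)))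
        (int_cont hν (continuous_const.mul (continuous_finsetSum _ fun y _ => hcy y)))
    exact h1.trans (congrArg₂ (· + ·) (dom1_Ex_mul _ _) (dom1_Ex_mul _ _))
  have h4 := hcur.trans (hE2.trans_eq hE3)
  rw [hE1] at h4
  refine le_trans ?_ (orm_msT_ge hν π hη σ j (sk A δ1 π))
  have h2d : (0 : ℝ) < (2 ^ d : ℝ)⁻¹ := by positivity
  refine mul_le_mul_of_nonneg_left ?_ h2d.le
  linarith

end Pool.Agent.BK3
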