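import Pool.Agent.BK3.OrM
import Pool.Agent.BK3.OrC
import Pool.Agent.BK3.CurX
import Pool.Agent.BK3.Grid

/-! BK3 module OrX: with high probability every orthant mass beyond the scale `sk` is at least a constant times
`lam^(-A)`; input of the pointwise bound. `cst = 3κ/(80·2^d)`. For given `m0` apply everything to the context
`c' = {c with D0 := max c.D0 (m0 + 1)}` (again `Ok`; `F`, `PT` do not depend on `D0`). `grid`: `π ∈ c'.S`. `curX`,
`kk_boundsX`, `orth_meanX`, `Im g ≥ κ/2` (`meang`), `η ≤ 2 lam^A`: `E msT ≥ 2^(-d) (3/10)(κ/2)/(2 lam^A) = 2 cst lam^(-A)`.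
If `msT < cst lam^(-A)` then `|msT - E msT| ≥ cst lam^(-A) ≥ lam^b` with `b = -A + 10e`..., and
`b < a = 1 - y - 5A/4 - 4t` because `1 - A/4 - y ≥ 49e` (`room`, `A2`). `P(msT < cst lam^(-A)) ≤ P(F > 2) +
P(F ≤ 2, |msT - E msT| ≥ lam^b) ≤ lam^(m0+1) + lam^(m0+1)` (`domF_prob1`, `orC`; `msT = msO (GG ..) 0 (orthT σ j s)`
by definition). -/

open MeasureTheory Finset Matrix Pool.Agent.BK

noncomputable section

namespace Pool.Agent.BK3

variable {ν : Measure ℝ} {R s2 : ℝ}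

theorem orX (hν : BLaw ν R s2) (c : Cx) (hc : c.Ok) {δ1 : ℝ} (h0 : 0 < δ1)
    (h1 : 2 + 2 * δ1 < c.A) (he : c.e ≤ δ1) (m0 : ℝ) :
    ∃ lam1 : ℝ, 0 < lam1 ∧ lam1 ≤ 1 ∧ ∀ π ∈ c.PT lam1, π.eta ≤ 2 * π.lam ^ c.A →
      ∀ (σ : Fin c.d → ℤˣ) (j : Fin c.d), ((Measure.pi fun _ : Tor c.d π.n => ν)
        {V | msT π σ j (sk c.A δ1 π) V < 3 * c.κ / (80 * 2 ^ c.d) * π.lam ^ (-c.A)}).toReal ≤
          π.lam ^ m0 := by
  classical
  have := hν.prob
  obtain ⟨d, p, lo, hi, lo', hi', κ, A, θ, y0, e, D0⟩ := c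
  let c' : Cx := ⟨d, p, lo, hi, lo', hi', κ, A, θ, y0, e, max D0 (m0 + 1)⟩
  have hc' : c'.Ok :=
    { d3 := hc.d3, e0 := hc.e0, A2 := hc.A2, A3 := hc.A3, y0 := hc.y0, th := hc.th, th' := hc.th',
      gain := hc.gain, room := hc.room, pp := hc.pp, D00 := hc.D00.trans (le_max_left _ _),
      wlo := hc.wlo, whi := hc.whi, free := hc.free }
  have he0 : 0 < e := hc.e0
  have hA2 : 2 ≤ A := hc.A2
  have hκ : 0 < κ := hc.free.kap
  have hroom : 100 * e ≤ 3 - A - 2 * y0 := hc.room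
  have hb : -A + e < 1 - c'.y - 5 / 4 * c'.A - 4 * c'.t := by
    change -A + e < 1 - (y0 + e) - 5 / 4 * A - 4 * (e / 1000)
    linarith
  obtain ⟨l1, l1p, l1', hgrid⟩ := grid hν c' hc'
  obtain ⟨l2, l2p, l2', hmean⟩ := meang hν c' hc'
  obtain ⟨l3, l3p, l3', hcur⟩ := curX hν c' hc' h0 h1 he
  obtain ⟨l4, l4p, l4', hkk⟩ := kk_boundsX c' hc' h0 h1
  obtain ⟨l5, l5p, l5', hprob⟩ := domF_prob1 (ν := ν) (c := c')
    (ι := fun π => Finset (Tor c'.d π.n)) hν hc' hb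
    (fun π hη O => ((continuous_finsetSum O fun y _ => orthA_cont π hη y).sub
      continuous_const).abs) (orC hν c' hc') (m0 + 1)
  set cst : ℝ := 3 * κ / (80 * 2 ^ d) with hcst
  have hcstp : 0 < cst := by positivity
  -- a threshold for `lam ^ e ≤ cst`
  have hlim : ∃ l6 : ℝ, 0 < l6 ∧ l6 ≤ 1 / 2 ∧ ∀ lam : ℝ, 0 < lam → lam ≤ l6 → lam ^ e ≤ cst := by
    refine ⟨min (1 / 2) (cst ^ (1 / e)), lt_min (by norm_num) (Real.rpow_pos_of_pos hcstp _),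
      min_le_left _ _, fun lam hl hl' => ?_⟩
    have h2 : lam ≤ cst ^ (1 / e) := hl'.trans (min_le_right _ _)
    calc lam ^ e ≤ (cst ^ (1 / e)) ^ e := Real.rpow_le_rpow hl.le h2 he0.le
      _ = cst := by
        rw [← Real.rpow_mul hcstp.le, one_div, inv_mul_cancel₀ he0.ne', Real.rpow_one]
  obtain ⟨l6, l6p, l6', hl6⟩ := hlim
  refine ⟨min l1 (min l2 (min l3 (min l4 (min l5 l6)))),
    lt_min l1p (lt_min l2p (lt_min l3p (lt_min l4p (lt_min l5p l6p)))),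
    (min_le_left _ _).trans l1', fun π hπ hη σ j => ?_⟩
  obtain ⟨q0, q1, q2⟩ := hπ
  have r1 : π.lam ≤ l1 := q1.trans (min_le_left _ _)
  have q1a := q1.trans (min_le_right _ _)
  have r2 : π.lam ≤ l2 := q1a.trans (min_le_left _ _)
  have q1b := q1a.trans (min_le_right _ _)
  have r3 : π.lam ≤ l3 := q1b.trans (min_le_left _ _)
  have q1c := q1b.trans (min_le_right _ _)
  have r4 : π.lam ≤ l4 := q1c.trans (min_le_left _ _)
  have q1d := q1c.trans (min_le_right _ _)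
  have r5 : π.lam ≤ l5 := q1d.trans (min_le_left _ _)
  have r6 : π.lam ≤ l6 := q1d.trans (min_le_right _ _)
  have hS1 : π ∈ c'.S ν l1 := hgrid π ⟨q0, r1, q2⟩
  have hS : ∀ l, π.lam ≤ l → π ∈ c'.S ν l := fun l hl => ⟨⟨q0, hl, q2⟩, hS1.2⟩
  have hη0 : 0 < π.eta := lt_of_lt_of_le (Real.rpow_pos_of_pos q0 _) q2.2.2.2.2.1
  have hg : κ / 2 ≤ (gb ν d π).im := (hmean π (hS l2 r2)).2.1
  obtain ⟨k1, k2, k3⟩ := hkk π ⟨q0, r4, q2⟩
  have hkpos : 0 < kk A δ1 π := lt_of_lt_of_le (Real.rpow_pos_of_pos q0 _) k1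
  have hE := orth_meanX hν π hη0 hkpos k3 σ j (hcur π (hS l3 r3) hη j)
  have hlA : 0 < π.lam ^ A := Real.rpow_pos_of_pos q0 _
  have hE2 : 2 * cst * π.lam ^ (-A) ≤ Ex ν (msT π σ j (sk A δ1 π)) := by
    refine le_trans ?_ hE
    have h2 : (κ / 2) / (2 * π.lam ^ A) ≤ (gb ν d π).im / π.eta :=
      div_le_div₀ (le_trans (by positivity) hg) hg hη0 hη
    have h3 : 2 * cst * π.lam ^ (-A) = (2 ^ d : ℝ)⁻¹ * (3 / 10 * ((κ / 2) / (2 * π.lam ^ A))) := by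
      rw [Real.rpow_neg q0.le, hcst]
      field_simp
      ring
    rw [h3]
    gcongr
  have hbig : π.lam ^ (-A + e) ≤ cst * π.lam ^ (-A) := by
    rw [Real.rpow_add q0, mul_comm]
    exact mul_le_mul_of_nonneg_right (hl6 π.lam q0 r6) (Real.rpow_pos_of_pos q0 _).le
  have hsub : {V : Tor d π.n → ℝ | msT π σ j (sk A δ1 π) V < cst * π.lam ^ (-A)} ⊆
      {V | 2 < c'.F ν π V} ∪ {V | c'.F ν π V ≤ 2 ∧ π.lam ^ (-A + e) ≤
        |(|msO (GG d π.n π.lam π.z V) 0 (orthT σ j (sk A δ1 π)) -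
          Ex ν (fun V : Tor d π.n → ℝ => msO (GG d π.n π.lam π.z V) 0
            (orthT σ j (sk A δ1 π)))|)|} := by
    intro V hV
    rw [Set.mem_union, Set.mem_ofPred_eq, Set.mem_ofPred_eq]
    by_cases hF : 2 < c'.F ν π V
    · exact Or.inl hF
    · refine Or.inr ⟨not_lt.1 hF, ?_⟩
      rw [abs_abs]
      have hV' : msO (GG d π.n π.lam π.z V) 0 (orthT σ j (sk A δ1 π)) < cst * π.lam ^ (-A) := hV
      have hE3 : 2 * cst * π.lam ^ (-A) ≤ Ex ν (fun V : Tor d π.n → ℝ =>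
          msO (GG d π.n π.lam π.z V) 0 (orthT σ j (sk A δ1 π))) := hE2
      rw [abs_sub_comm]
      refine le_trans ?_ (le_abs_self _)
      linarith
  have hm := measure_mono (μ := Measure.pi fun _ : Tor d π.n => ν) hsub
  have hu := measure_union_le (μ := Measure.pi fun _ : Tor d π.n => ν)
    {V | 2 < c'.F ν π V} {V | c'.F ν π V ≤ 2 ∧ π.lam ^ (-A + e) ≤
        |(|msO (GG d π.n π.lam π.z V) 0 (orthT σ j (sk A δ1 π)) -
          Ex ν (fun V : Tor d π.n → ℝ => msO (GG d π.n π.lam π.z V) 0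
            (orthT σ j (sk A δ1 π)))|)|}
  have ht := ENNReal.toReal_mono (ENNReal.add_ne_top.2 ⟨measure_ne_top _ _, measure_ne_top _ _⟩)
    (hm.trans hu)
  rw [ENNReal.toReal_add (measure_ne_top _ _) (measure_ne_top _ _)] at ht
  have hp1 : ((Measure.pi fun _ : Tor d π.n => ν) {V | 2 < c'.F ν π V}).toReal ≤
      π.lam ^ (m0 + 1) :=
    hS1.2.1.trans (Real.rpow_le_rpow_of_exponent_ge q0 (r1.trans l1') (le_max_right _ _))
  have hp2 := hprob π (hS l5 r5) (orthT σ j (sk A δ1 π))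
  refine ht.trans ((add_le_add hp1 hp2).trans ?_)
  rw [Real.rpow_add q0, Real.rpow_one]
  have hp3 : 0 < π.lam ^ m0 := Real.rpow_pos_of_pos q0 _
  have hp4 : π.lam ≤ 1 / 2 := r6.trans l6'
  nlinarith

end Pool.Agent.BK3
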