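import Pool.Agent.BK3.MeanG
import Pool.Agent.BK3.S1Defs

/-! BK3 module RegC: the final region data, the data of the core inequality and of the
expectation-level estimates on the torus.
`regc`: on the support of `chi`, `|G_xx| ≤ |g| + bb ≤ lam^(-2t) + lam^(1-2y-e-t) ≤ lam^(-3t)` (`meang`, `regw`).
`lvc_inst`: as `lvi`, with `Gd = lam^(-3t)`. `s1_inst`: `S1D` with everything from `Cx.Z` and `meang`
(`g`-bound `lam |g| ≤ 1`; `q = 1/(1/2-θ)`; `m4`: `lam^(-t) ≤ B`; `md`: `lam^(-t) ≤ Gd`;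
`sm`: `4 R lam^(1-3t) ≤ 1`; `hω`: `256 R⁴ lam⁴ B² = 256 R⁴ lam^(4-8y-2t) ≤ lam^(-4y+e/4)` as `y < 1/2`). -/

open MeasureTheory Finset Matrix Pool.Agent.BK

noncomputable section

namespace Pool.Agent.BK3

variable {ν : Measure ℝ} {R s2 : ℝ}

/-- The bound `4 R lam lam^(-3t) ≤ 1`. -/
lemma regc_sm (c : Cx) (hc : c.Ok) (R : ℝ) :
    ∃ lam1 : ℝ, 0 < lam1 ∧ lam1 ≤ 1 ∧ ∀ l : ℝ, 0 < l → l ≤ lam1 → 4 * R * l * c.Gd l ≤ 1 := by
  have he : 0 < c.e := hc.e0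
  have htd : c.t = c.e / 1000 := rfl
  have hyl := y_lt c hc
  have hy0 := hc.y0
  obtain ⟨l1, a1, b1, h1⟩ := sm_one (4 * R) (show (0 : ℝ) < 1 - 3 * c.t by rw [htd]; linarith)
  refine ⟨l1, a1, b1, fun l h0 hl => ?_⟩
  have := h1 l h0 hl
  have e1 : l * c.Gd l = l ^ (1 - 3 * c.t) := by
    unfold Cx.Gd
    nth_rewrite 1 [← Real.rpow_one l]
    rw [← Real.rpow_add h0]; congr 1
  rw [mul_assoc, e1]
  exact this

theorem regc (hν : BLaw ν R s2) (c : Cx) (hc : c.Ok) (ℓ : ℕ) :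
    ∃ lam1 : ℝ, 0 < lam1 ∧ lam1 ≤ 1 ∧ ∀ π ∈ c.S ν lam1, ∀ V : Tor c.d π.n → ℝ, c.chi ν ℓ π V ≠ 0 →
      Reg (H0 c.d π.n) π.lam π.z (gb ν c.d π) (ph2 (c.rw π.lam)) (c.B π.lam) (c.bb π.lam)
        (c.mu π.lam) (c.Gd π.lam) V := by
  have he : 0 < c.e := hc.e0
  have htd : c.t = c.e / 1000 := rfl
  have hyd : c.y = c.y0 + c.e := rfl
  have hyl := y_lt c hc
  have hy0 := hc.y0
  obtain ⟨l1, a1, b1, h1⟩ := regw hν c hc ℓ
  obtain ⟨l2, a2, b2, h2⟩ := meang hν c hc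
  obtain ⟨l3, a3, b3, h3⟩ := sm_le 2 (show -(3 * c.t) < -(2 * c.t) by rw [htd]; linarith)
  refine ⟨min l1 (min l2 l3), by positivity, (min_le_left _ _).trans b1, fun π hπ V hV => ?_⟩
  have hm : π.lam ≤ min l1 (min l2 l3) := hπ.1.2.1
  have hπ1 : π ∈ c.S ν l1 := c.S_mono ν (min_le_left _ _) hπ
  have hπ2 : π ∈ c.S ν l2 := c.S_mono ν ((min_le_right _ _).trans (min_le_left _ _)) hπ
  have m3 : π.lam ≤ l3 := hm.trans ((min_le_right _ _).trans (min_le_right _ _))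
  have L0 : 0 < π.lam := hπ.1.1
  have L1 : π.lam ≤ 1 := hm.trans ((min_le_left _ _).trans b1)
  have W := h1 π hπ1 V hV
  have M := h2 π hπ2
  refine ⟨W.g4, W.dg, fun x => ?_, W.ms⟩
  have r1 : ‖Gv (H0 c.d π.n) π.lam π.z V x x‖ ≤
      ‖Gv (H0 c.d π.n) π.lam π.z V x x - gb ν c.d π‖ + ‖gb ν c.d π‖ := by
    have := norm_add_le (Gv (H0 c.d π.n) π.lam π.z V x x - gb ν c.d π) (gb ν c.d π)
    rwa [sub_add_cancel] at this
  have r2 := W.dg x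
  have r3 := M.2.2
  have r4 : c.bb π.lam ≤ π.lam ^ (-(2 * c.t)) := by
    unfold Cx.bb
    apply rp_anti L0 L1
    rw [htd]; linarith
  have r5 := h3 _ L0 m3
  unfold Cx.Gd
  linarith

theorem lvc_inst (hν : BLaw ν R s2) (c : Cx) (hc : c.Ok) (ℓ : ℕ) :
    ∃ lam1 : ℝ, 0 < lam1 ∧ lam1 ≤ 1 ∧ ∀ π ∈ c.S ν lam1,
      LvH ν (H0 c.d π.n) R s2 π.lam π.z (gb ν c.d π) (zt ν s2 c.d π) (ph2 (c.rw π.lam))
        (c.chi ν ℓ π) (c.B π.lam) (c.bb π.lam) (c.mu π.lam) (c.Gd π.lam) (π.lam ^ c.D0)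
        (π.lam ^ (-(43 * (c.d : ℝ) + 1))) := by
  obtain ⟨l1, a1, b1, h1⟩ := lvi hν c hc ℓ
  obtain ⟨l2, a2, b2, h2⟩ := regc hν c hc ℓ
  obtain ⟨l3, a3, b3, h3⟩ := regc_sm c hc R
  refine ⟨min l1 (min l2 l3), by positivity, (min_le_left _ _).trans b1, fun π hπ => ?_⟩
  have hm : π.lam ≤ min l1 (min l2 l3) := hπ.1.2.1
  have hπ1 : π ∈ c.S ν l1 := c.S_mono ν (min_le_left _ _) hπ
  have hπ2 : π ∈ c.S ν l2 := c.S_mono ν ((min_le_right _ _).trans (min_le_left _ _)) hπ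
  have m3 : π.lam ≤ l3 := hm.trans ((min_le_right _ _).trans (min_le_right _ _))
  have L0 : 0 < π.lam := hπ.1.1
  have W := h1 π hπ1
  exact { W with
    hGd := (rp_pos L0 _).le
    sm := h3 _ L0 m3
    reg := fun V _ hV => h2 π hπ2 V hV }

theorem s1_inst (hν : BLaw ν R s2) (c : Cx) (hc : c.Ok) :
    ∃ lam1 : ℝ, 0 < lam1 ∧ lam1 ≤ 1 ∧ ∀ π ∈ c.S ν lam1,
      S1D (H0 c.d π.n) R s2 π.lam π.z (gb ν c.d π) (zt ν s2 c.d π) (ph2 (c.rw π.lam)) c.q c.θ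
        (π.lam ^ (-c.t)) (π.lam ^ (-1 - c.t)) (c.B π.lam) (c.bb π.lam) (c.mu π.lam) (c.Gd π.lam)
        (c.dl π.lam) (c.om π.lam) := by
  have he : 0 < c.e := hc.e0
  have htd : c.t = c.e / 1000 := rfl
  have hyd : c.y = c.y0 + c.e := rfl
  have hyl := y_lt c hc
  have hy0 := hc.y0
  have hth := hc.th
  have hth' := hc.th'
  obtain ⟨l1, a1, b1, h1⟩ := lvc_inst hν c hc 0
  obtain ⟨l2, a2, b2, h2⟩ := zfacts hν c hc
  obtain ⟨l3, a3, b3, h3⟩ := sm_le (256 * R ^ 4)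
    (show -(4 * c.y) + c.e / 4 < 4 - 8 * c.y - 2 * c.t by rw [htd]; linarith)
  refine ⟨min l1 (min l2 l3), by positivity, (min_le_left _ _).trans b1, fun π hπ => ?_⟩
  have hm : π.lam ≤ min l1 (min l2 l3) := hπ.1.2.1
  have hπ1 : π ∈ c.S ν l1 := c.S_mono ν (min_le_left _ _) hπ
  have hπ2 : π ∈ c.S ν l2 := c.S_mono ν ((min_le_right _ _).trans (min_le_left _ _)) hπ
  have m3 : π.lam ≤ l3 := hm.trans ((min_le_right _ _).trans (min_le_right _ _))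
  have L0 : 0 < π.lam := hπ.1.1
  have L1 : π.lam ≤ 1 := hm.trans ((min_le_left _ _).trans b1)
  have W := h1 π hπ1
  have Z := h2 π hπ2
  have hq : c.q = 1 / (1 / 2 - c.θ) := rfl
  have hq0 : (0 : ℝ) < 1 / 2 - c.θ := by linarith
  refine
    { hH := W.hH
      hR := hν.R_ge
      hs := hν.s2_pos
      lam0 := L0
      lam1 := L1
      hz := W.hz
      hζ := W.hζ
      hζ0 := W.hζ0
      hζz := Z.im_eta
      hg := W.hg
      w := W.w
      th := by linarith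
      th' := hth'
      q0 := by rw [hq]; positivity
      qth := by rw [hq, one_div_one_div]
      m0 := (rp_pos L0 _).le
      m20 := (rp_pos L0 _).le
      hB := W.hB
      hb2 := W.hb2
      hμ := W.hμ
      hGd := W.hGd
      hDl := (rp_pos L0 _).le
      sm := W.sm
      hω0 := rp_pos L0 _
      hω := ?_
      mq := Z.mq
      m2w := Z.m2
      m4 := fun y => (Z.m4 y).trans ?_
      md := fun x => (Z.md x).trans ?_ }
  · have := h3 _ L0 m3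
    have e1 : π.lam ^ 4 * c.B π.lam ^ 2 = π.lam ^ (4 - 8 * c.y - 2 * c.t) := by
      unfold Cx.B
      rw [rp_pow L0, ← Real.rpow_natCast π.lam 4, ← Real.rpow_add L0]
      congr 1; push_cast; ring
    rw [mul_assoc, e1]
    exact this
  · unfold Cx.B
    apply rp_anti L0 L1
    linarith
  · unfold Cx.Gd
    apply rp_anti L0 L1
    rw [htd]; linarith

end Pool.Agent.BK3
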