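import Pool.Agent.BK3.ZF
import Pool.Agent.BK3.Sm

/-! BK3 module RegW: region data on the supports of the cutoffs, weak form (`|G_xx| ≤ 4 lam^(-y)`).
`chi ℓ π V ≠ 0` means `F(V) < 3·2^ℓ`, so each `T_i^p < 3·2^ℓ` and `T_i ≤ K = 3·2^ℓ` (`p ≥ 1`, `K ≥ 1`):
`G4 ≤ K b4 ≤ B`, `|G_xx - g| ≤ K b2 ≤ bb`, `lm ≤ K b3 ≤ mu` for small `lam`
(the factor `lam^(-t)` beats `K`), `|G_xx| ≤ |g| + K b2 ≤ 4 lam^(-y)`.
`chi_facts`: elementary properties of `thc` and `chi`: `0 ≤ chi ≤ 1`, `chi = 1` if `F ≤ 2·2^ℓ`, `chi ≠ 0` iff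
`F < 3·2^ℓ`, `chi ℓ ≤ chi (ℓ+1)²`, `1 - chi ℓ ≤ 1_{F > 2}`, continuity of `F` and of `chi`. -/

open MeasureTheory Finset Matrix Pool.Agent.BK

noncomputable section

namespace Pool.Agent.BK3

variable {ν : Measure ℝ} {R s2 : ℝ}

lemma thc_lip (s t : ℝ) : |thc s - thc t| ≤ |s - t| := by
  unfold thc
  have h1 := abs_max_sub_max_le_max 0 (min 1 (3 - s)) 0 (min 1 (3 - t))
  have h2 := abs_min_sub_min_le_max 1 (3 - s) 1 (3 - t)
  have h3 : (3 - s) - (3 - t) = -(s - t) := by ring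
  rw [h3, abs_neg] at h2
  rw [sub_self, abs_zero] at h1 h2
  exact h1.trans (max_le (abs_nonneg _) (h2.trans (max_le (abs_nonneg _) le_rfl)))

private lemma regw_thc_mem (s : ℝ) : 0 ≤ thc s ∧ thc s ≤ 1 :=
  ⟨le_max_left _ _, max_le zero_le_one (min_le_left _ _)⟩

private lemma regw_thc_one {s : ℝ} (h : s ≤ 2) : thc s = 1 := by
  unfold thc
  rw [min_eq_left (by linarith), max_eq_right zero_le_one]

private lemma regw_thc_ne (s : ℝ) : thc s ≠ 0 ↔ s < 3 := by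
  unfold thc
  constructor
  · intro h
    by_contra h1
    apply h
    have h2 : min 1 (3 - s) ≤ 0 := (min_le_right _ _).trans (by linarith)
    exact max_eq_left h2
  · intro h h1
    have h2 : 0 < min 1 (3 - s) := lt_min one_pos (by linarith)
    have h3 := le_max_right 0 (min 1 (3 - s))
    rw [h1] at h3
    linarith

lemma chi_mem (c : Cx) (ν : Measure ℝ) (ℓ : ℕ) (π : Par) (V : Tor c.d π.n → ℝ) :
    0 ≤ c.chi ν ℓ π V ∧ c.chi ν ℓ π V ≤ 1 := regw_thc_mem _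

lemma chi_one (c : Cx) (ν : Measure ℝ) (ℓ : ℕ) (π : Par) (V : Tor c.d π.n → ℝ)
    (h : c.F ν π V ≤ 2 * 2 ^ ℓ) : c.chi ν ℓ π V = 1 :=
  regw_thc_one ((div_le_iff₀ (by positivity)).2 h)

lemma chi_ne (c : Cx) (ν : Measure ℝ) (ℓ : ℕ) (π : Par) (V : Tor c.d π.n → ℝ) :
    c.chi ν ℓ π V ≠ 0 ↔ c.F ν π V < 3 * 2 ^ ℓ := by
  rw [← div_lt_iff₀ (by positivity : (0 : ℝ) < 2 ^ ℓ)]
  exact regw_thc_ne _

lemma chi_le_sq (c : Cx) (ν : Measure ℝ) (ℓ : ℕ) (π : Par) (V : Tor c.d π.n → ℝ) :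
    c.chi ν ℓ π V ≤ c.chi ν (ℓ + 1) π V ^ 2 := by
  by_cases h : c.chi ν ℓ π V = 0
  · rw [h]
    positivity
  · have h1 := (chi_ne c ν ℓ π V).1 h
    have h2 : c.chi ν (ℓ + 1) π V = 1 := by
      apply chi_one
      have h3 : (0 : ℝ) < 2 ^ ℓ := by positivity
      rw [pow_succ]
      linarith
    rw [h2, one_pow]
    exact (chi_mem c ν ℓ π V).2

private lemma regw_cont {X Y : Type} [Fintype X] [TopologicalSpace Y] {A : Y → Matrix X X ℂ}
    (hA : ∀ x y, Continuous fun V => A V x y) (φ : X → X → ℝ) (b4 b2 b3 : ℝ) (g : ℂ) (p : ℕ) :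
    Continuous fun V => FFg φ b4 b2 b3 g p (A V) := by
  unfold FFg G4 lm
  refine (Continuous.add (Continuous.add ?_ ?_) ?_)
  · exact continuous_finsetSum _ fun w _ => ((continuous_finsetSum _ fun y _ =>
      ((hA w y).norm.pow 4)).div_const _).pow p
  · exact continuous_finsetSum _ fun x _ => (((hA x x).sub continuous_const).norm.div_const _).pow p
  · exact continuous_finsetSum _ fun w _ => continuous_finsetSum _ fun y _ =>
      ((continuous_finsetSum _ fun x _ => continuous_const.mul ((hA w x).norm.pow 2)).div_const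
        _).pow p

lemma continuous_F (c : Cx) (ν : Measure ℝ) (π : Par) (h : 0 < π.eta) :
    Continuous (c.F ν π) := by
  have hz : π.z.im ≠ 0 := h.ne'
  have hG := continuous_Gr (X := Tor c.d π.n) (RS_H0 c.d π.n) π.lam hz
  exact regw_cont (A := fun V => GG c.d π.n π.lam π.z V) (fun x y => hG.matrix_elem x y) _ _ _ _ _ _

private lemma regw_thc_cont : Continuous thc := by
  unfold thc
  exact continuous_const.max (continuous_const.min (continuous_const.sub continuous_id))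

lemma continuous_chi (c : Cx) (ν : Measure ℝ) (ℓ : ℕ) (π : Par) (h : 0 < π.eta) :
    Continuous (c.chi ν ℓ π) :=
  regw_thc_cont.comp ((continuous_F c ν π h).div_const _)

private lemma regw_G4 {X : Type} [Fintype X] (A : Matrix X X ℂ) (w : X) : 0 ≤ G4 A w :=
  Finset.sum_nonneg fun _ _ => by positivity

private lemma regw_lm {d n : ℕ} (r : ℝ) (A : Matrix (Tor d n) (Tor d n) ℂ) (w y : Tor d n) :
    0 ≤ lm (ph2 r) A w y :=
  Finset.sum_nonneg fun x _ => mul_nonneg (Real.exp_pos _).le (by positivity)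

private lemma regw_b4 (c : Cx) {lam : ℝ} (h : 0 < lam) : 0 < c.b4 lam := Real.rpow_pos_of_pos h _

private lemma regw_b2 (c : Cx) {lam : ℝ} (h : 0 < lam) : 0 < c.b2 lam := Real.rpow_pos_of_pos h _

private lemma regw_b3 (c : Cx) {lam : ℝ} (h : 0 < lam) : 0 < c.b3 lam := Real.rpow_pos_of_pos h _

lemma F_nonneg (c : Cx) (ν : Measure ℝ) (π : Par) (h : 0 < π.lam) (V : Tor c.d π.n → ℝ) :
    0 ≤ c.F ν π V := by
  unfold Cx.F FFg
  have h4 := regw_b4 c h
  have h2 := regw_b2 c h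
  have h3 := regw_b3 c h
  refine add_nonneg (add_nonneg ?_ ?_) ?_
  · exact Finset.sum_nonneg fun w _ => pow_nonneg (div_nonneg (regw_G4 _ _) h4.le) _
  · exact Finset.sum_nonneg fun w _ => pow_nonneg (div_nonneg (norm_nonneg _) h2.le) _
  · exact Finset.sum_nonneg fun w _ => Finset.sum_nonneg fun y _ =>
      pow_nonneg (div_nonneg (regw_lm _ _ _ _) h3.le) _

/-- The complement of the cutoff has small probability. -/
lemma one_sub_chi (hν : BLaw ν R s2) (c : Cx) {lam1 : ℝ} (ℓ : ℕ) {π : Par} (hπ : π ∈ c.S ν lam1) :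
    Ex ν (fun V => 1 - c.chi ν ℓ π V) ≤ π.lam ^ c.D0 := by
  have hlam : 0 < π.lam := hπ.1.1
  have heta : 0 < π.eta := lt_of_lt_of_le (Real.rpow_pos_of_pos hlam _) hπ.1.2.2.2.2.2.2.1
  have hp := hν.prob
  have hF := continuous_F c ν π heta
  have hmeas : MeasurableSet {V : Tor c.d π.n → ℝ | 2 < c.F ν π V} :=
    measurableSet_lt measurable_const hF.measurable
  have h1 : Ex ν (fun V => 1 - c.chi ν ℓ π V) ≤
      ∫ V, ({V : Tor c.d π.n → ℝ | 2 < c.F ν π V}.indicator (fun _ => (1 : ℝ))) V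
        ∂(Measure.pi fun _ : Tor c.d π.n => ν) := by
    refine integral_mono (int_cont hν (continuous_const.sub (continuous_chi c ν ℓ π heta)))
      ((integrable_const (1 : ℝ)).indicator hmeas) fun V => ?_
    by_cases h : 2 < c.F ν π V
    · rw [Set.indicator_of_mem (show V ∈ {V : Tor c.d π.n → ℝ | 2 < c.F ν π V} from h)]
      have := (chi_mem c ν ℓ π V).1
      change 1 - c.chi ν ℓ π V ≤ 1
      linarith
    · rw [Set.indicator_of_notMem (show V ∉ {V : Tor c.d π.n → ℝ | 2 < c.F ν π V} from h)]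
      have h2 : c.chi ν ℓ π V = 1 := by
        apply chi_one
        have h3 : (1 : ℝ) ≤ 2 ^ ℓ := one_le_pow₀ (by norm_num)
        linarith [not_lt.1 h]
      change 1 - c.chi ν ℓ π V ≤ 0
      rw [h2, sub_self]
  refine h1.trans ?_
  rw [integral_indicator_const _ hmeas, smul_eq_mul, mul_one]
  exact hπ.2.1

private lemma regw_pow_le {K T : ℝ} {p : ℕ} (hp : p ≠ 0) (hK : 1 ≤ K) (h : T ^ p ≤ K) :
    T ≤ K := by
  by_contra hcon
  have h1 : K < T := not_le.1 hcon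
  have h2 : T ≤ T ^ p := le_self_pow₀ (hK.trans h1.le) hp
  linarith

theorem regw (hν : BLaw ν R s2) (c : Cx) (hc : c.Ok) (ℓ : ℕ) :
    ∃ lam1 : ℝ, 0 < lam1 ∧ lam1 ≤ 1 ∧ ∀ π ∈ c.S ν lam1, ∀ V : Tor c.d π.n → ℝ, c.chi ν ℓ π V ≠ 0 →
      Reg (H0 c.d π.n) π.lam π.z (gb ν c.d π) (ph2 (c.rw π.lam)) (c.B π.lam) (c.bb π.lam)
        (c.mu π.lam) (4 * π.lam ^ (-c.y)) V := by
  have he := hc.e0
  have ht : 0 < c.t := by unfold Cx.t; positivity
  obtain ⟨l1, h10, h11, h1⟩ := zfacts hν c hc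
  obtain ⟨l2, h20, h21, h2⟩ := sm_neg (3 * 2 ^ ℓ) ht
  refine ⟨min l1 l2, lt_min h10 h20, (min_le_left _ _).trans h11, fun π hπ V hV => ?_⟩
  have hZ := h1 π (c.S_mono ν (min_le_left _ _) hπ)
  have hlam : 0 < π.lam := hπ.1.1
  have hlam1 : π.lam ≤ 1 := hZ.l1
  have hK := h2 π.lam hlam (hπ.1.2.1.trans (min_le_right _ _))
  have hp : c.p ≠ 0 := by
    intro h
    have h3 := hc.pp
    rw [h, Nat.cast_zero, mul_zero] at h3
    have h4 : (3 : ℝ) ≤ c.d := by exact_mod_cast hc.d3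
    linarith
  set K : ℝ := 3 * 2 ^ ℓ with hKdef
  have hK1 : 1 ≤ K := by
    have h3 : (1 : ℝ) ≤ 2 ^ ℓ := one_le_pow₀ (by norm_num)
    linarith
  have hF : c.F ν π V < K := (chi_ne c ν ℓ π V).1 hV
  have b4 := regw_b4 c hlam
  have b2 := regw_b2 c hlam
  have b3 := regw_b3 c hlam
  unfold Cx.F FFg at hF
  set A := GG c.d π.n π.lam π.z V with hA
  have s1 : ∀ w, 0 ≤ (G4 A w / c.b4 π.lam) ^ c.p := fun w =>
    pow_nonneg (div_nonneg (regw_G4 _ _) b4.le) _
  have s2' : ∀ x, 0 ≤ (‖A x x - gb ν c.d π‖ / c.b2 π.lam) ^ c.p := fun x =>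
    pow_nonneg (div_nonneg (norm_nonneg _) b2.le) _
  have s3 : ∀ w y, 0 ≤ (lm (ph2 (c.rw π.lam)) A w y / c.b3 π.lam) ^ c.p := fun w y =>
    pow_nonneg (div_nonneg (regw_lm _ _ _ _) b3.le) _
  have S1 := Finset.sum_nonneg (s := Finset.univ) fun w _ => s1 w
  have S2 := Finset.sum_nonneg (s := Finset.univ) fun w _ => s2' w
  have S3 := Finset.sum_nonneg (s := Finset.univ) fun w _ =>
    Finset.sum_nonneg (s := Finset.univ) fun y _ => s3 w y
  have g4 : ∀ w, G4 A w ≤ K * c.b4 π.lam := by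
    intro w
    rw [← div_le_iff₀ b4]
    refine regw_pow_le hp hK1 ?_
    have := Finset.single_le_sum (f := fun w => (G4 A w / c.b4 π.lam) ^ c.p) (fun w _ => s1 w)
      (Finset.mem_univ w)
    linarith
  have dg : ∀ x, ‖A x x - gb ν c.d π‖ ≤ K * c.b2 π.lam := by
    intro x
    rw [← div_le_iff₀ b2]
    refine regw_pow_le hp hK1 ?_
    have := Finset.single_le_sum (f := fun x => (‖A x x - gb ν c.d π‖ / c.b2 π.lam) ^ c.p)
      (fun x _ => s2' x) (Finset.mem_univ x)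
    linarith
  have ms : ∀ w y, lm (ph2 (c.rw π.lam)) A w y ≤ K * c.b3 π.lam := by
    intro w y
    rw [← div_le_iff₀ b3]
    refine regw_pow_le hp hK1 ?_
    have h5 := Finset.single_le_sum
      (f := fun y => (lm (ph2 (c.rw π.lam)) A w y / c.b3 π.lam) ^ c.p)
      (fun y _ => s3 w y) (Finset.mem_univ y)
    have h6 := Finset.single_le_sum
      (f := fun w => ∑ y, (lm (ph2 (c.rw π.lam)) A w y / c.b3 π.lam) ^ c.p)
      (fun w _ => Finset.sum_nonneg fun y _ => s3 w y) (Finset.mem_univ w)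
    have h5' : (lm (ph2 (c.rw π.lam)) A w y / c.b3 π.lam) ^ c.p ≤
      ∑ y, (lm (ph2 (c.rw π.lam)) A w y / c.b3 π.lam) ^ c.p := h5
    have h6' : ∑ y, (lm (ph2 (c.rw π.lam)) A w y / c.b3 π.lam) ^ c.p ≤
      ∑ w, ∑ y, (lm (ph2 (c.rw π.lam)) A w y / c.b3 π.lam) ^ c.p := h6
    linarith
  have e4 : K * c.b4 π.lam ≤ c.B π.lam := by
    have : c.B π.lam = π.lam ^ (-c.t) * c.b4 π.lam := by
      unfold Cx.B Cx.b4
      rw [← Real.rpow_add hlam]
      congr 1
      ring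
    rw [this]
    exact mul_le_mul_of_nonneg_right hK b4.le
  have e2 : K * c.b2 π.lam ≤ c.bb π.lam := by
    have : c.bb π.lam = π.lam ^ (-c.t) * c.b2 π.lam := by
      unfold Cx.bb Cx.b2
      rw [← Real.rpow_add hlam]
      congr 1
      ring
    rw [this]
    exact mul_le_mul_of_nonneg_right hK b2.le
  have e3 : K * c.b3 π.lam ≤ c.mu π.lam := by
    have : c.mu π.lam = π.lam ^ (-c.t) * c.b3 π.lam := by
      unfold Cx.mu Cx.b3
      rw [← Real.rpow_add hlam]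
      congr 1
      ring
    rw [this]
    exact mul_le_mul_of_nonneg_right hK b3.le
  have e5 : c.bb π.lam ≤ π.lam ^ (-c.y) := by
    unfold Cx.bb
    refine rp_anti hlam hlam1 ?_
    have h7 := hc.room
    have h8 := hc.A2
    have h9 : c.t = c.e / 1000 := rfl
    have h10' : c.y = c.y0 + c.e := rfl
    rw [h9, h10']
    linarith
  refine ⟨fun x => (g4 x).trans e4, fun x => (dg x).trans e2, fun x => ?_,
    fun w y => (ms w y).trans e3⟩
  have h12 : ‖A x x‖ ≤ ‖A x x - gb ν c.d π‖ + ‖gb ν c.d π‖ := by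
    have := norm_add_le (A x x - gb ν c.d π) (gb ν c.d π)
    rwa [sub_add_cancel] at this
  have h13 := hZ.g_le
  have h14 : ‖A x x‖ ≤ 4 * π.lam ^ (-c.y) := by linarith [(dg x).trans (e2.trans e5)]
  exact h14

end Pool.Agent.BK3
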