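import Pool.Agent.BK3.S1Defs

/-! BK3 module S1p: the pointwise sum over the sites `x` (changed) and `y`. With `k = |M|`,
`a_x = |G_xw|`, `s_y = |Z_y|`, `D_x ≥ 0` with `∑_x φ_yx D_x² ≤ Dl²`, and the bound `wd3` of the change of
`P_y`:
`∑_{x,y} |M_yx| a_x ( D_x W^P s_y³ + [bound of wd3] ) ≤ C Ga1 (W+ω)^(P+1) / lam`.
Put `S = 16 B`: `∑ a⁴ = G4_w ≤ B`, `∑ s⁴ = W ≤ 8 (G4 + ∑ |M|⁴) ≤ 16 B`; `τ = 4 Gd/η`:
`∑ s² ≤ 2 (∑|G|² + ∑|M|²) ≤ 4 Gd/η` (`ward` for `G` and for `M`, `Im ζ ≥ Im z`);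
`∑_x φ_yx a_x² ≤ μ` (`lm`, symmetry of `G`). Then
A3: `W^P ∑ |M| a_x s³ D_x ≤ W^P m (μτ)^θ Dl S^(1/2-θ) W^(1/2) ≤ C m (μ Gd/η)^θ Dl B^(1/2-θ) ω^(-1/2) (W+ω)^(P+1)`
(`ph_c`);
A1: `lam B^(1/4) (W+ω)^(P-1/4) ∑ |M| a² s³ ≤ lam B^(1/4) (W+ω)^(P-1/4) m μ^(1/2) (μτ)^θ S^(1/2-θ) W^(1/2)` (`ph_b`);
A2: `lam (W+ω)^P ∑ |M| |G_yx| a² (s² + ε²)`: the first part by `ph_a` with `g = |G|`; the second:
`ε² ≤ 16 R² lam² |G_yx|² a_x²` and `|G_yx|² ≤ B^(1/2)`, `∑_x a_x⁴ ∑_y |M_yx||G_yx| ≤ B m2 μ^(1/2)`.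
All constants may be absorbed in `C`, which depends only on `R` and `P`. -/

open MeasureTheory Finset Matrix Pool.Agent.BK

noncomputable section

namespace Pool.Agent.BK3

/-- constants -/
lemma s1p_four {a θ : ℝ} (ha : 0 ≤ a) (h1 : θ ≤ 1) : (4 * a) ^ θ ≤ 4 * a ^ θ := by
  rw [Real.mul_rpow (by norm_num) ha]
  refine mul_le_mul_of_nonneg_right ?_ (Real.rpow_nonneg ha _)
  calc (4 : ℝ) ^ θ ≤ 4 ^ (1 : ℝ) := Real.rpow_le_rpow_of_exponent_le (by norm_num) h1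
    _ = 4 := Real.rpow_one _

lemma s1p_sixteen {a θ : ℝ} (ha : 0 ≤ a) (h1 : θ ≤ 1) : (16 * a) ^ θ ≤ 16 * a ^ θ := by
  rw [Real.mul_rpow (by norm_num) ha]
  refine mul_le_mul_of_nonneg_right ?_ (Real.rpow_nonneg ha _)
  calc (16 : ℝ) ^ θ ≤ 16 ^ (1 : ℝ) := Real.rpow_le_rpow_of_exponent_le (by norm_num) h1
    _ = 16 := Real.rpow_one _

lemma s1p_pow (P : ℕ) {W ω : ℝ} (hω : 0 < ω) (hW : 0 ≤ W) {β : ℝ} (hβ : β ≤ 0) :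
    (W + ω) ^ ((P : ℝ) + 1 + β) ≤ ω ^ β * (W + ω) ^ (P + 1) := by
  have h0 : 0 < W + ω := by linarith
  rw [Real.rpow_add h0, mul_comm]
  have e1 : (W + ω) ^ ((P : ℝ) + 1) = (W + ω) ^ (P + 1) := by
    rw [← Real.rpow_natCast]
    push_cast
    rfl
  rw [e1]
  refine mul_le_mul_of_nonneg_right ?_ (by positivity)
  exact Real.rpow_le_rpow_of_nonpos hω (by linarith) hβ

lemma s1p_w3 (P : ℕ) {W ω : ℝ} (hω : 0 < ω) (hW : 0 ≤ W) :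
    W ^ P * W ^ (1 / 2 : ℝ) ≤ ω ^ (-(1 / 2) : ℝ) * (W + ω) ^ (P + 1) := by
  have h0 : 0 < W + ω := by linarith
  refine le_trans ?_ (s1p_pow P hω hW (β := -(1 / 2)) (by norm_num))
  have e1 : (W + ω) ^ ((P : ℝ) + 1 + -(1 / 2)) = (W + ω) ^ P * (W + ω) ^ (1 / 2 : ℝ) := by
    rw [← Real.rpow_natCast (W + ω) P, ← Real.rpow_add h0]
    congr 1
    ring
  rw [e1]
  refine mul_le_mul (pow_le_pow_left₀ hW (by linarith) _)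
    (Real.rpow_le_rpow hW (by linarith) (by norm_num)) (Real.rpow_nonneg hW _) (by positivity)

lemma s1p_w1 (P : ℕ) {W ω : ℝ} (hω : 0 < ω) (hW : 0 ≤ W) :
    (W + ω) ^ ((P : ℝ) - 1 / 4) * W ^ (1 / 2 : ℝ) ≤ ω ^ (-(3 / 4) : ℝ) * (W + ω) ^ (P + 1) := by
  have h0 : 0 < W + ω := by linarith
  refine le_trans ?_ (s1p_pow P hω hW (β := -(3 / 4)) (by norm_num))
  have e1 : (W + ω) ^ ((P : ℝ) + 1 + -(3 / 4)) =
      (W + ω) ^ ((P : ℝ) - 1 / 4) * (W + ω) ^ (1 / 2 : ℝ) := by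
    rw [← Real.rpow_add h0]
    congr 1
    ring
  rw [e1]
  exact mul_le_mul_of_nonneg_left (Real.rpow_le_rpow hW (by linarith) (by norm_num))
    (Real.rpow_nonneg h0.le _)

lemma s1p_w2 (P : ℕ) {W ω : ℝ} (hω : 0 < ω) (hW : 0 ≤ W) :
    (W + ω) ^ P ≤ (W + ω) ^ (P + 1) / ω := by
  have h0 : 0 < W + ω := by linarith
  rw [le_div_iff₀ hω, pow_succ]
  exact mul_le_mul_of_nonneg_left (by linarith) (by positivity)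

/-- the real variable part -/
lemma s1p_core {X : Type} [Fintype X] {R : ℝ} (P : ℕ) {q θ m m2 B μ Gη Dl ω lam : ℝ}
    {φ k g : X → X → ℝ} {a s D : X → ℝ}
    (h : PHyp q θ m μ (4 * Gη) (16 * B) φ k a s) (hG : 0 ≤ Gη) (hB : 1 ≤ B) (hω : 0 < ω)
    (hlam : 0 < lam) (hm2 : 0 ≤ m2) (hD : ∀ x, 0 ≤ D x) (hDl0 : 0 ≤ Dl)
    (hDl : ∀ y, ∑ x, φ y x * D x ^ 2 ≤ Dl ^ 2) (hg : ∀ x y, 0 ≤ g x y)
    (hg1 : ∀ y, ∑ x, φ y x * g y x ^ 2 ≤ μ) (hg2 : ∀ x, ∑ y, φ y x * g y x ^ 2 ≤ μ)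
    (hgB : ∀ y x, g y x ^ 2 ≤ B ^ (1 / 2 : ℝ)) (hkg : ∀ x, ∑ y, k y x * g y x ≤ m2 * μ ^ (1 / 2 : ℝ))
    (haB : ∑ x, a x ^ 4 ≤ B) :
    lam * ∑ x, ∑ y, k y x * a x * (D x * (∑ u, s u ^ 4) ^ P * s y ^ 3 +
        (lam * a x * B ^ (1 / 4 : ℝ) * ((∑ u, s u ^ 4) + ω) ^ ((P : ℝ) - 1 / 4) * s y ^ 3 +
        ((∑ u, s u ^ 4) + ω) ^ P * (lam * g y x * a x) *
          (s y ^ 2 + (4 * R * lam * g y x * a x) ^ 2))) ≤
      (64 + 16 * R ^ 2) * (lam ^ 2 * m * μ ^ (1 / 2 : ℝ) * (μ * Gη) ^ θ *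
          (B ^ (3 / 4 - θ) * ω ^ (-(3 / 4) : ℝ) + B ^ (1 - θ) / ω) +
        lam * m * (μ * Gη) ^ θ * Dl * B ^ (1 / 2 - θ) * ω ^ (-(1 / 2) : ℝ) +
        lam ^ 4 * B ^ (3 / 2 : ℝ) * m2 * μ ^ (1 / 2 : ℝ) / ω) *
        ((∑ u, s u ^ 4) + ω) ^ (P + 1) := by
  obtain ⟨W, hW⟩ : ∃ W : ℝ, W = ∑ u, s u ^ 4 := ⟨_, rfl⟩
  have hW0 : 0 ≤ W := by
    rw [hW]
    exact sum_nonneg fun u _ => by positivity
  have hb := ph_b h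
  have hc := ph_c h hD hDl0 hDl
  have ha := ph_a h hg hg1 hg2
  rw [← hW] at hb hc ⊢
  have h0 : 0 < W + ω := by linarith
  obtain ⟨S3, hS3⟩ : ∃ S3 : ℝ, S3 = ∑ y, ∑ x, k y x * a x * s y ^ 3 * D x := ⟨_, rfl⟩
  obtain ⟨S1, hS1⟩ : ∃ S1 : ℝ, S1 = ∑ y, ∑ x, k y x * a x ^ 2 * s y ^ 3 := ⟨_, rfl⟩
  obtain ⟨S2, hS2⟩ : ∃ S2 : ℝ, S2 = ∑ y, ∑ x, k y x * g y x * a x ^ 2 * s y ^ 2 := ⟨_, rfl⟩
  obtain ⟨S4, hS4⟩ : ∃ S4 : ℝ, S4 = ∑ y, ∑ x, k y x * g y x * g y x ^ 2 * a x ^ 4 := ⟨_, rfl⟩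
  rw [← hS3] at hc
  rw [← hS1] at hb
  rw [← hS2] at ha
  have hsplit : ∑ x, ∑ y, k y x * a x * (D x * W ^ P * s y ^ 3 +
        (lam * a x * B ^ (1 / 4 : ℝ) * (W + ω) ^ ((P : ℝ) - 1 / 4) * s y ^ 3 +
        (W + ω) ^ P * (lam * g y x * a x) *
          (s y ^ 2 + (4 * R * lam * g y x * a x) ^ 2))) =
      W ^ P * S3 + lam * B ^ (1 / 4 : ℝ) * (W + ω) ^ ((P : ℝ) - 1 / 4) * S1 +
        lam * (W + ω) ^ P * S2 + 16 * R ^ 2 * lam ^ 3 * (W + ω) ^ P * S4 := by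
    rw [sum_comm, hS3, hS1, hS2, hS4]
    simp only [mul_sum, ← sum_add_distrib]
    refine sum_congr rfl fun y _ => sum_congr rfl fun x _ => ?_
    ring
  rw [hsplit]
  -- the last sum
  have hB0 : 0 ≤ B := by linarith
  have hμ := h.mu0
  have hm := h.m0
  have hd : S4 ≤ B ^ (3 / 2 : ℝ) * m2 * μ ^ (1 / 2 : ℝ) := by
    rw [hS4, sum_comm]
    have e1 : ∀ x, ∑ y, k y x * g y x * g y x ^ 2 * a x ^ 4 ≤
        a x ^ 4 * (B ^ (1 / 2 : ℝ) * (m2 * μ ^ (1 / 2 : ℝ))) := by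
      intro x
      have e2 : ∑ y, k y x * g y x * g y x ^ 2 * a x ^ 4 ≤
          ∑ y, a x ^ 4 * (B ^ (1 / 2 : ℝ) * (k y x * g y x)) := by
        refine sum_le_sum fun y _ => ?_
        have e3 : k y x * g y x * g y x ^ 2 ≤ k y x * g y x * B ^ (1 / 2 : ℝ) :=
          mul_le_mul_of_nonneg_left (hgB y x) (mul_nonneg (h.k0 y x) (hg y x))
        calc k y x * g y x * g y x ^ 2 * a x ^ 4
            ≤ k y x * g y x * B ^ (1 / 2 : ℝ) * a x ^ 4 :=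
              mul_le_mul_of_nonneg_right e3 (by positivity)
          _ = a x ^ 4 * (B ^ (1 / 2 : ℝ) * (k y x * g y x)) := by ring
      refine e2.trans ?_
      rw [← mul_sum, ← mul_sum]
      refine mul_le_mul_of_nonneg_left ?_ (by positivity)
      exact mul_le_mul_of_nonneg_left (hkg x) (Real.rpow_nonneg hB0 _)
    refine (sum_le_sum fun x _ => e1 x).trans ?_
    rw [← sum_mul]
    have e4 : B * B ^ (1 / 2 : ℝ) = B ^ (3 / 2 : ℝ) := by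
      have : B * B ^ (1 / 2 : ℝ) = B ^ (1 : ℝ) * B ^ (1 / 2 : ℝ) := by rw [Real.rpow_one]
      rw [this, ← Real.rpow_add (by linarith)]
      norm_num
    have e5 : 0 ≤ B ^ (1 / 2 : ℝ) * (m2 * μ ^ (1 / 2 : ℝ)) :=
      mul_nonneg (Real.rpow_nonneg hB0 _) (mul_nonneg hm2 (Real.rpow_nonneg hμ _))
    calc (∑ x, a x ^ 4) * (B ^ (1 / 2 : ℝ) * (m2 * μ ^ (1 / 2 : ℝ)))
        ≤ B * (B ^ (1 / 2 : ℝ) * (m2 * μ ^ (1 / 2 : ℝ))) := mul_le_mul_of_nonneg_right haB e5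
      _ = (B * B ^ (1 / 2 : ℝ)) * m2 * μ ^ (1 / 2 : ℝ) := by ring
      _ = B ^ (3 / 2 : ℝ) * m2 * μ ^ (1 / 2 : ℝ) := by rw [e4]
  -- constants
  obtain ⟨E0, hE0⟩ : ∃ E0 : ℝ, E0 = (μ * Gη) ^ θ := ⟨_, rfl⟩
  have hE00 : 0 ≤ E0 := by
    rw [hE0]
    exact Real.rpow_nonneg (mul_nonneg hμ hG) _
  have hth2 := h.th2
  have hth := h.th
  have c1 : (μ * (4 * Gη)) ^ θ ≤ 4 * E0 := by
    have : μ * (4 * Gη) = 4 * (μ * Gη) := by ring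
    rw [this, hE0]
    exact s1p_four (mul_nonneg hμ hG) (by linarith)
  have c1' : 0 ≤ (μ * (4 * Gη)) ^ θ := Real.rpow_nonneg (mul_nonneg hμ (by linarith)) _
  have c2 : (16 * B) ^ (1 / 2 - θ) ≤ 16 * B ^ (1 / 2 - θ) := s1p_sixteen hB0 (by linarith)
  have c3 : (16 * B) ^ (1 - θ) ≤ 16 * B ^ (1 - θ) := s1p_sixteen hB0 (by linarith)
  have c2' : 0 ≤ (16 * B) ^ (1 / 2 - θ) := Real.rpow_nonneg (by linarith) _
  have c3' : 0 ≤ (16 * B) ^ (1 - θ) := Real.rpow_nonneg (by linarith) _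
  have hμh : 0 ≤ μ ^ (1 / 2 : ℝ) := Real.rpow_nonneg hμ _
  have hWh : 0 ≤ W ^ (1 / 2 : ℝ) := Real.rpow_nonneg hW0 _
  have c12 : (μ * (4 * Gη)) ^ θ * (16 * B) ^ (1 / 2 - θ) ≤ 64 * (E0 * B ^ (1 / 2 - θ)) := by
    calc (μ * (4 * Gη)) ^ θ * (16 * B) ^ (1 / 2 - θ) ≤ (4 * E0) * (16 * B ^ (1 / 2 - θ)) :=
          mul_le_mul c1 c2 c2' (by linarith)
      _ = 64 * (E0 * B ^ (1 / 2 - θ)) := by ring
  have c13 : (μ * (4 * Gη)) ^ θ * (16 * B) ^ (1 - θ) ≤ 64 * (E0 * B ^ (1 - θ)) := by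
    calc (μ * (4 * Gη)) ^ θ * (16 * B) ^ (1 - θ) ≤ (4 * E0) * (16 * B ^ (1 - θ)) :=
          mul_le_mul c1 c3 c3' (by linarith)
      _ = 64 * (E0 * B ^ (1 - θ)) := by ring
  have hWp : 0 ≤ (W + ω) ^ (P + 1) := by positivity
  -- third term
  have t3 : lam * (W ^ P * S3) ≤ 64 * (lam * m * E0 * Dl * B ^ (1 / 2 - θ) *
      ω ^ (-(1 / 2) : ℝ)) * (W + ω) ^ (P + 1) := by
    have e1 : W ^ P * S3 ≤ W ^ P * (m * (μ * (4 * Gη)) ^ θ * Dl * (16 * B) ^ (1 / 2 - θ) *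
        W ^ (1 / 2 : ℝ)) := mul_le_mul_of_nonneg_left hc (by positivity)
    have e2 : W ^ P * (m * (μ * (4 * Gη)) ^ θ * Dl * (16 * B) ^ (1 / 2 - θ) *
        W ^ (1 / 2 : ℝ)) = (m * Dl) * ((μ * (4 * Gη)) ^ θ * (16 * B) ^ (1 / 2 - θ)) *
        (W ^ P * W ^ (1 / 2 : ℝ)) := by ring
    have e3 : (m * Dl) * ((μ * (4 * Gη)) ^ θ * (16 * B) ^ (1 / 2 - θ)) *
        (W ^ P * W ^ (1 / 2 : ℝ)) ≤ (m * Dl) * (64 * (E0 * B ^ (1 / 2 - θ))) *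
        (ω ^ (-(1 / 2) : ℝ) * (W + ω) ^ (P + 1)) := by
      refine mul_le_mul (mul_le_mul_of_nonneg_left c12 (mul_nonneg hm hDl0))
        (s1p_w3 P hω hW0) (mul_nonneg (by positivity) hWh) ?_
      exact mul_nonneg (mul_nonneg hm hDl0) (mul_nonneg (by norm_num)
        (mul_nonneg hE00 (Real.rpow_nonneg hB0 _)))
    calc lam * (W ^ P * S3) ≤ lam * ((m * Dl) * (64 * (E0 * B ^ (1 / 2 - θ))) *
        (ω ^ (-(1 / 2) : ℝ) * (W + ω) ^ (P + 1))) :=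
          mul_le_mul_of_nonneg_left (e1.trans (e2.le.trans e3)) hlam.le
      _ = _ := by ring
  -- first term
  have hBq : B ^ (1 / 4 : ℝ) * B ^ (1 / 2 - θ) = B ^ (3 / 4 - θ) := by
    rw [← Real.rpow_add (by linarith)]
    congr 1
    ring
  have t1 : lam * (lam * B ^ (1 / 4 : ℝ) * (W + ω) ^ ((P : ℝ) - 1 / 4) * S1) ≤
      64 * (lam ^ 2 * m * μ ^ (1 / 2 : ℝ) * E0 * (B ^ (3 / 4 - θ) * ω ^ (-(3 / 4) : ℝ))) *
        (W + ω) ^ (P + 1) := by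
    have e0 : 0 ≤ lam * (lam * B ^ (1 / 4 : ℝ) * (W + ω) ^ ((P : ℝ) - 1 / 4)) := by
      have := Real.rpow_nonneg hB0 (1 / 4)
      have := Real.rpow_nonneg h0.le ((P : ℝ) - 1 / 4)
      positivity
    have e1 : lam * (lam * B ^ (1 / 4 : ℝ) * (W + ω) ^ ((P : ℝ) - 1 / 4) * S1) ≤
        lam * (lam * B ^ (1 / 4 : ℝ) * (W + ω) ^ ((P : ℝ) - 1 / 4)) *
        (m * μ ^ (1 / 2 : ℝ) * (μ * (4 * Gη)) ^ θ * (16 * B) ^ (1 / 2 - θ) *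
          W ^ (1 / 2 : ℝ)) := by
      rw [← mul_assoc]
      exact mul_le_mul_of_nonneg_left hb e0
    have e2 : lam * (lam * B ^ (1 / 4 : ℝ) * (W + ω) ^ ((P : ℝ) - 1 / 4)) *
        (m * μ ^ (1 / 2 : ℝ) * (μ * (4 * Gη)) ^ θ * (16 * B) ^ (1 / 2 - θ) *
          W ^ (1 / 2 : ℝ)) = (lam ^ 2 * m * μ ^ (1 / 2 : ℝ) * B ^ (1 / 4 : ℝ)) *
        ((μ * (4 * Gη)) ^ θ * (16 * B) ^ (1 / 2 - θ)) *
        ((W + ω) ^ ((P : ℝ) - 1 / 4) * W ^ (1 / 2 : ℝ)) := by ring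
    have e30 : 0 ≤ lam ^ 2 * m * μ ^ (1 / 2 : ℝ) * B ^ (1 / 4 : ℝ) := by
      have := Real.rpow_nonneg hB0 (1 / 4)
      positivity
    have e3 : (lam ^ 2 * m * μ ^ (1 / 2 : ℝ) * B ^ (1 / 4 : ℝ)) *
        ((μ * (4 * Gη)) ^ θ * (16 * B) ^ (1 / 2 - θ)) *
        ((W + ω) ^ ((P : ℝ) - 1 / 4) * W ^ (1 / 2 : ℝ)) ≤
        (lam ^ 2 * m * μ ^ (1 / 2 : ℝ) * B ^ (1 / 4 : ℝ)) * (64 * (E0 * B ^ (1 / 2 - θ))) *
        (ω ^ (-(3 / 4) : ℝ) * (W + ω) ^ (P + 1)) := by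
      refine mul_le_mul (mul_le_mul_of_nonneg_left c12 e30) (s1p_w1 P hω hW0)
        (mul_nonneg (Real.rpow_nonneg h0.le _) hWh) ?_
      exact mul_nonneg e30 (mul_nonneg (by norm_num)
        (mul_nonneg hE00 (Real.rpow_nonneg hB0 _)))
    refine e1.trans (e2.le.trans (e3.trans (le_of_eq ?_)))
    rw [← hBq]
    ring
  -- second term
  have t2 : lam * (lam * (W + ω) ^ P * S2) ≤
      64 * (lam ^ 2 * m * μ ^ (1 / 2 : ℝ) * E0 * (B ^ (1 - θ) / ω)) * (W + ω) ^ (P + 1) := by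
    have e1 : lam * (lam * (W + ω) ^ P * S2) ≤ lam * (lam * (W + ω) ^ P) *
        (m * μ ^ (1 / 2 : ℝ) * (μ * (4 * Gη)) ^ θ * (16 * B) ^ (1 - θ)) := by
      rw [← mul_assoc]
      exact mul_le_mul_of_nonneg_left ha (by positivity)
    have e2 : lam * (lam * (W + ω) ^ P) *
        (m * μ ^ (1 / 2 : ℝ) * (μ * (4 * Gη)) ^ θ * (16 * B) ^ (1 - θ)) =
        (lam ^ 2 * m * μ ^ (1 / 2 : ℝ)) * ((μ * (4 * Gη)) ^ θ * (16 * B) ^ (1 - θ)) *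
        (W + ω) ^ P := by ring
    have e30 : 0 ≤ lam ^ 2 * m * μ ^ (1 / 2 : ℝ) := by positivity
    have e3 : (lam ^ 2 * m * μ ^ (1 / 2 : ℝ)) * ((μ * (4 * Gη)) ^ θ * (16 * B) ^ (1 - θ)) *
        (W + ω) ^ P ≤ (lam ^ 2 * m * μ ^ (1 / 2 : ℝ)) * (64 * (E0 * B ^ (1 - θ))) *
        ((W + ω) ^ (P + 1) / ω) := by
      refine mul_le_mul (mul_le_mul_of_nonneg_left c13 e30) (s1p_w2 P hω hW0)
        (by positivity) ?_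
      exact mul_nonneg e30 (mul_nonneg (by norm_num)
        (mul_nonneg hE00 (Real.rpow_nonneg hB0 _)))
    refine e1.trans (e2.le.trans (e3.trans (le_of_eq ?_)))
    ring
  -- fourth term
  have t4 : lam * (16 * R ^ 2 * lam ^ 3 * (W + ω) ^ P * S4) ≤
      16 * R ^ 2 * (lam ^ 4 * B ^ (3 / 2 : ℝ) * m2 * μ ^ (1 / 2 : ℝ) / ω) *
        (W + ω) ^ (P + 1) := by
    have e1 : lam * (16 * R ^ 2 * lam ^ 3 * (W + ω) ^ P * S4) ≤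
        lam * (16 * R ^ 2 * lam ^ 3 * (W + ω) ^ P) *
          (B ^ (3 / 2 : ℝ) * m2 * μ ^ (1 / 2 : ℝ)) := by
      rw [← mul_assoc]
      exact mul_le_mul_of_nonneg_left hd (by positivity)
    have e2 : lam * (16 * R ^ 2 * lam ^ 3 * (W + ω) ^ P) *
          (B ^ (3 / 2 : ℝ) * m2 * μ ^ (1 / 2 : ℝ)) =
        (16 * R ^ 2 * lam ^ 4 * (B ^ (3 / 2 : ℝ) * m2 * μ ^ (1 / 2 : ℝ))) * (W + ω) ^ P := by
      ring
    have e30 : 0 ≤ 16 * R ^ 2 * lam ^ 4 * (B ^ (3 / 2 : ℝ) * m2 * μ ^ (1 / 2 : ℝ)) := by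
      have := Real.rpow_nonneg hB0 (3 / 2)
      positivity
    refine e1.trans (e2.le.trans ((mul_le_mul_of_nonneg_left (s1p_w2 P hω hW0) e30).trans
      (le_of_eq ?_)))
    ring
  -- total
  rw [← hE0]
  obtain ⟨A1, hA1⟩ : ∃ A1 : ℝ, A1 = lam ^ 2 * m * μ ^ (1 / 2 : ℝ) * E0 *
      (B ^ (3 / 4 - θ) * ω ^ (-(3 / 4) : ℝ)) := ⟨_, rfl⟩
  obtain ⟨A2, hA2⟩ : ∃ A2 : ℝ, A2 = lam ^ 2 * m * μ ^ (1 / 2 : ℝ) * E0 *
      (B ^ (1 - θ) / ω) := ⟨_, rfl⟩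
  obtain ⟨A3, hA3⟩ : ∃ A3 : ℝ, A3 = lam * m * E0 * Dl * B ^ (1 / 2 - θ) *
      ω ^ (-(1 / 2) : ℝ) := ⟨_, rfl⟩
  obtain ⟨A4, hA4⟩ : ∃ A4 : ℝ, A4 = lam ^ 4 * B ^ (3 / 2 : ℝ) * m2 * μ ^ (1 / 2 : ℝ) / ω :=
    ⟨_, rfl⟩
  rw [← hA1] at t1
  rw [← hA2] at t2
  rw [← hA3] at t3
  rw [← hA4] at t4
  have p1 : 0 ≤ A1 := by
    rw [hA1]
    have := Real.rpow_nonneg hB0 (3 / 4 - θ)
    have := Real.rpow_nonneg hω.le (-(3 / 4))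
    positivity
  have p2 : 0 ≤ A2 := by
    rw [hA2]
    have := Real.rpow_nonneg hB0 (1 - θ)
    positivity
  have p3 : 0 ≤ A3 := by
    rw [hA3]
    have := Real.rpow_nonneg hB0 (1 / 2 - θ)
    have := Real.rpow_nonneg hω.le (-(1 / 2))
    positivity
  have p4 : 0 ≤ A4 := by
    rw [hA4]
    have := Real.rpow_nonneg hB0 (3 / 2)
    positivity
  have e1 : lam ^ 2 * m * μ ^ (1 / 2 : ℝ) * E0 *
      (B ^ (3 / 4 - θ) * ω ^ (-(3 / 4) : ℝ) + B ^ (1 - θ) / ω) = A1 + A2 := by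
    rw [hA1, hA2]
    ring
  rw [e1, ← hA3, ← hA4]
  have hR2 : 0 ≤ 16 * R ^ 2 := by positivity
  obtain ⟨U, hU⟩ : ∃ U : ℝ, U = (W + ω) ^ (P + 1) := ⟨_, rfl⟩
  rw [← hU] at t1 t2 t3 t4 hWp ⊢
  have f1 : 0 ≤ 16 * R ^ 2 * (A1 + A2 + A3) * U := by positivity
  have f2 : 0 ≤ A4 * U := by positivity
  have f3 : lam * (W ^ P * S3 + lam * B ^ (1 / 4 : ℝ) * (W + ω) ^ ((P : ℝ) - 1 / 4) * S1 +
        lam * (W + ω) ^ P * S2 + 16 * R ^ 2 * lam ^ 3 * (W + ω) ^ P * S4) =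
      lam * (W ^ P * S3) + lam * (lam * B ^ (1 / 4 : ℝ) * (W + ω) ^ ((P : ℝ) - 1 / 4) * S1) +
        lam * (lam * (W + ω) ^ P * S2) + lam * (16 * R ^ 2 * lam ^ 3 * (W + ω) ^ P * S4) := by
    ring
  rw [f3]
  have f4 : (64 + 16 * R ^ 2) * (A1 + A2 + A3 + A4) * U = 64 * A1 * U + 64 * A2 * U +
      64 * A3 * U + 16 * R ^ 2 * A4 * U + 64 * (A4 * U) + 16 * R ^ 2 * (A1 + A2 + A3) * U := by
    ring
  rw [f4]
  linarith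

theorem s1p (R : ℝ) (hR : 1 ≤ R) (P : ℕ) : ∃ C : ℝ, 0 < C ∧
    ∀ (X : Type) [Fintype X] [DecidableEq X] (H : Matrix X X ℂ) (s2 lam : ℝ) (z g ζ : ℂ)
      (φ : X → X → ℝ) (q θ m m2 B b2 μ Gd Dl ω : ℝ),
      S1D H R s2 lam z g ζ φ q θ m m2 B b2 μ Gd Dl ω → ∀ V ∈ Box X R,
      Reg H lam z g φ B b2 μ Gd V → ∀ (w : X) (D : X → ℝ), (∀ x, 0 ≤ D x) →
      (∀ y, ∑ x, φ y x * D x ^ 2 ≤ Dl ^ 2) →
      lam * ∑ x, ∑ y, ‖Gr H 0 ζ y x‖ * ‖Gv H lam z V x w‖ *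
        (D x * Wv H (Gr H 0 ζ) lam z w V ^ P * ‖Zv H (Gr H 0 ζ) lam z w V y‖ ^ 3 +
        (lam * ‖Gv H lam z V x w‖ * B ^ (1 / 4 : ℝ) *
          (Wv H (Gr H 0 ζ) lam z w V + ω) ^ ((P : ℝ) - 1 / 4) *
            ‖Zv H (Gr H 0 ζ) lam z w V y‖ ^ 3 +
        (Wv H (Gr H 0 ζ) lam z w V + ω) ^ P * (lam * ‖Gv H lam z V y x‖ * ‖Gv H lam z V x w‖) *
          (‖Zv H (Gr H 0 ζ) lam z w V y‖ ^ 2 +
            (4 * R * lam * ‖Gv H lam z V y x‖ * ‖Gv H lam z V x w‖) ^ 2))) ≤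
      C * Ga1 z lam θ m m2 B μ Gd Dl ω * (Wv H (Gr H 0 ζ) lam z w V + ω) ^ (P + 1) := by
  refine ⟨64 + 16 * R ^ 2, by positivity, ?_⟩
  intro X _ _ H s2 lam z g ζ φ q θ m m2 B b2 μ Gd Dl ω h V hV hr w D hD hDl
  have hGs : ∀ x y, Gv H lam z V x y = Gv H lam z V y x := fun x y =>
    Gr_symm h.hH _ h.hz.ne' x y
  have hMs : ∀ x y, Gr H 0 ζ x y = Gr H 0 ζ y x := fun x y => Gr_symm h.hH _ h.hζ0.ne' x y
  have hB0 : 0 ≤ B := by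
    have := h.hB
    linarith
  have hφ0 : ∀ x y, 0 < φ x y := h.w.pos
  -- bounds of the entries
  have hs : ∀ y, ‖Zv H (Gr H 0 ζ) lam z w V y‖ ≤ ‖Gv H lam z V y w‖ + ‖Gr H 0 ζ y w‖ := by
    intro y
    have e1 : Zv H (Gr H 0 ζ) lam z w V y = Gv H lam z V y w - Gr H 0 ζ y w := rfl
    rw [e1]
    exact norm_sub_le _ _
  have hG2 : ∑ y, ‖Gv H lam z V y w‖ ^ 2 ≤ Gd / z.im := by
    have e1 : ∑ y, ‖Gv H lam z V y w‖ ^ 2 = ∑ y, ‖Gv H lam z V w y‖ ^ 2 :=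
      sum_congr rfl fun y _ => by rw [hGs y w]
    rw [e1]
    have e2 : ∑ y, ‖Gv H lam z V w y‖ ^ 2 = (Gv H lam z V w w).im / z.im :=
      ward h.hH _ h.hz w
    rw [e2]
    refine div_le_div_of_nonneg_right ?_ h.hz.le
    exact ((le_abs_self _).trans (Complex.abs_im_le_norm _)).trans (hr.gd w)
  have hM2 : ∑ y, ‖Gr H 0 ζ y w‖ ^ 2 ≤ Gd / z.im := by
    have e1 : ∑ y, ‖Gr H 0 ζ y w‖ ^ 2 = ∑ y, ‖Gr H 0 ζ w y‖ ^ 2 :=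
      sum_congr rfl fun y _ => by rw [hMs y w]
    rw [e1, ward h.hH _ h.hζ0 w]
    have e2 : (Gr H 0 ζ w w).im ≤ Gd :=
      ((le_abs_self _).trans (Complex.abs_im_le_norm _)).trans (h.md w)
    calc (Gr H 0 ζ w w).im / ζ.im ≤ Gd / ζ.im := div_le_div_of_nonneg_right e2 h.hζ0.le
      _ ≤ Gd / z.im := div_le_div_of_nonneg_left h.hGd h.hz h.hζz
  have hG4 : ∑ y, ‖Gv H lam z V y w‖ ^ 4 ≤ B := by
    have e1 : ∑ y, ‖Gv H lam z V y w‖ ^ 4 = ∑ y, ‖Gv H lam z V w y‖ ^ 4 :=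
      sum_congr rfl fun y _ => by rw [hGs y w]
    rw [e1]
    exact hr.g4 w
  have hM4 : ∑ y, ‖Gr H 0 ζ y w‖ ^ 4 ≤ B := by
    have e1 : ∑ y, ‖Gr H 0 ζ y w‖ ^ 4 = ∑ y, ‖Gr H 0 ζ w y‖ ^ 4 :=
      sum_congr rfl fun y _ => by rw [hMs y w]
    rw [e1]
    exact h.m4 w
  have hs2 : ∑ y, ‖Zv H (Gr H 0 ζ) lam z w V y‖ ^ 2 ≤ 4 * (Gd / z.im) := by
    have e1 : ∀ y, ‖Zv H (Gr H 0 ζ) lam z w V y‖ ^ 2 ≤
        2 * ‖Gv H lam z V y w‖ ^ 2 + 2 * ‖Gr H 0 ζ y w‖ ^ 2 := by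
      intro y
      have e2 := pow_le_pow_left₀ (norm_nonneg _) (hs y) 2
      have e3 := sq_nonneg (‖Gv H lam z V y w‖ - ‖Gr H 0 ζ y w‖)
      nlinarith
    refine (sum_le_sum fun y _ => e1 y).trans ?_
    rw [sum_add_distrib, ← mul_sum, ← mul_sum]
    linarith
  have hs4 : ∑ y, ‖Zv H (Gr H 0 ζ) lam z w V y‖ ^ 4 ≤ 16 * B := by
    have e1 : ∀ y, ‖Zv H (Gr H 0 ζ) lam z w V y‖ ^ 4 ≤
        8 * ‖Gv H lam z V y w‖ ^ 4 + 8 * ‖Gr H 0 ζ y w‖ ^ 4 := by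
      intro y
      have e2 := pow_le_pow_left₀ (norm_nonneg _) (hs y) 4
      obtain ⟨u, hu⟩ : ∃ u : ℝ, u = ‖Gv H lam z V y w‖ := ⟨_, rfl⟩
      obtain ⟨v, hv⟩ : ∃ v : ℝ, v = ‖Gr H 0 ζ y w‖ := ⟨_, rfl⟩
      rw [← hu, ← hv] at e2 ⊢
      have e3 : (u + v) ^ 2 ≤ 2 * (u ^ 2 + v ^ 2) := by nlinarith [sq_nonneg (u - v)]
      have e4 : (u + v) ^ 4 ≤ (2 * (u ^ 2 + v ^ 2)) ^ 2 := by
        have := pow_le_pow_left₀ (sq_nonneg (u + v)) e3 2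
        calc (u + v) ^ 4 = ((u + v) ^ 2) ^ 2 := by ring
          _ ≤ _ := this
      nlinarith [sq_nonneg (u ^ 2 - v ^ 2)]
    refine (sum_le_sum fun y _ => e1 y).trans ?_
    rw [sum_add_distrib, ← mul_sum, ← mul_sum]
    linarith
  have hph : PHyp q θ m μ (4 * (Gd / z.im)) (16 * B) φ (fun y x => ‖Gr H 0 ζ y x‖)
      (fun x => ‖Gv H lam z V x w‖) (fun y => ‖Zv H (Gr H 0 ζ) lam z w V y‖) := by
    refine ⟨h.th, by linarith [h.th'], h.q0, h.qth, h.m0, h.hμ,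
      mul_nonneg (by norm_num) (div_nonneg h.hGd h.hz.le), by linarith,
      fun x y => ⟨h.w.pos x y, h.w.le x y⟩, fun _ _ => norm_nonneg _, h.mq, ?_,
      fun _ => norm_nonneg _, fun _ => norm_nonneg _, ?_, hs2, by linarith, hs4⟩
    · intro x
      refine le_trans (le_of_eq ?_) (h.mq x)
      exact sum_congr rfl fun y _ => by rw [hMs y x, h.w.symm y x]
    · intro y
      refine le_trans (le_of_eq ?_) (hr.ms w y)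
      unfold lm
      exact sum_congr rfl fun x _ => by rw [hGs x w]
  have hgB : ∀ y x, ‖Gv H lam z V y x‖ ^ 2 ≤ B ^ (1 / 2 : ℝ) := by
    intro y x
    have e1 : ‖Gv H lam z V y x‖ ^ 4 ≤ B := by
      refine le_trans ?_ (hr.g4 y)
      unfold G4
      exact single_le_sum (f := fun u => ‖Gv H lam z V y u‖ ^ 4)
        (fun u _ => by positivity) (mem_univ x)
    have e2 : ‖Gv H lam z V y x‖ ^ 2 = (‖Gv H lam z V y x‖ ^ 4) ^ (1 / 2 : ℝ) := by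
      have : ‖Gv H lam z V y x‖ ^ 4 = (‖Gv H lam z V y x‖ ^ 2) ^ 2 := by ring
      rw [this, ← Real.sqrt_eq_rpow, Real.sqrt_sq (by positivity)]
    rw [e2]
    exact Real.rpow_le_rpow (by positivity) e1 (by norm_num)
  have hkg : ∀ x, ∑ y, ‖Gr H 0 ζ y x‖ * ‖Gv H lam z V y x‖ ≤ m2 * μ ^ (1 / 2 : ℝ) := by
    intro x
    have e1 : ∑ y, (‖Gr H 0 ζ y x‖ / φ x y) * (φ x y * ‖Gv H lam z V y x‖) =
        ∑ y, ‖Gr H 0 ζ y x‖ * ‖Gv H lam z V y x‖ := by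
      refine sum_congr rfl fun y _ => ?_
      have := (hφ0 x y).ne'
      field_simp
    rw [← e1]
    refine (Real.sum_mul_le_sqrt_mul_sqrt _ _ _).trans ?_
    have e2 : ∑ y, (‖Gr H 0 ζ y x‖ / φ x y) ^ 2 ≤ m2 ^ 2 := by
      refine le_trans (le_of_eq ?_) (h.m2w x)
      exact sum_congr rfl fun y _ => by rw [hMs y x]
    have e3 : ∑ y, (φ x y * ‖Gv H lam z V y x‖) ^ 2 ≤ μ := by
      refine le_trans (sum_le_sum fun y _ => ?_) (hr.ms x x)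
      rw [hGs y x, mul_pow]
      refine mul_le_mul_of_nonneg_right ?_ (by positivity)
      have := h.w.le x y
      have := hφ0 x y
      nlinarith
    refine mul_le_mul ?_ ?_ (Real.sqrt_nonneg _) h.m20
    · exact (Real.sqrt_le_sqrt e2).trans (le_of_eq (Real.sqrt_sq h.m20))
    · rw [← Real.sqrt_eq_rpow]
      exact Real.sqrt_le_sqrt e3
  have hfin := s1p_core (R := R) P (m2 := m2) (Dl := Dl) (ω := ω) (lam := lam)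
    (g := fun y x => ‖Gv H lam z V y x‖) (D := D) hph (div_nonneg h.hGd h.hz.le) h.hB h.hω0
    h.lam0 h.m20 hD h.hDl hDl (fun _ _ => norm_nonneg _) (fun y => hr.ms y y) (fun x => by
      refine le_trans (le_of_eq ?_) (hr.ms x x)
      unfold lm
      exact sum_congr rfl fun y _ => by rw [hGs y x, h.w.symm y x]) hgB hkg hG4
  exact hfin

end Pool.Agent.BK3
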