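import Pool.Agent.BK3.S1c
import Pool.Agent.BK3.S1p

/-! BK3 module S1: the core inequality. For a pair of cutoffs `χ, χ'` with region data on
`{χ' ≠ 0}` and `∑_x φ_yx Dχ_x² ≤ Dl²` there,
`E[χ W^(P+1)] ≤ C (Ga0 + Ga1) E[χ' (W+ω)^(P+1)]`, `C = C(R, P)`.
Proof. `W^(P+1) = ∑_y P_y Z_y`, `Z_y = ∑_x M_yx K_x G_xw` (`Gr_expand`: `z - ζ - lam V_x =
-lam V_x - lam² s2 g`), so `E[χ W^(P+1)] = ∑_x E[K_x G_xw Φ_x]`, `Φ_x = ∑_y M_yx χ P_y`. `one_site` gives
`∑_x E[kx_x G_xw Φ_x] = E[χ ∑_y P_y ∑_x M_yx kx_x G_xw]`, bounded by `s1c` (`χ ≤ χ'`: `CutP.n1` with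
`t = V_x`), plus `∑_x E ∫ (-lam V_x + lam² g (V_x²-s2)) G^t_xw (Φ_x - Φ^t_x) dν(t)`. Here
`|−lam V_x + ..| ≤ 2 R² lam` and, if `χ'(V) ≠ 0`, `|G^t_xw| ≤ 2|G_xw|` (`one_le`),
`|χ P_y - χ^t P^t_y| ≤ |χ - χ^t| |P_y| + χ^t |P_y - P^t_y| ≤ χ' (Dχ_x W^P |Z_y|³ + |P_y - P^t_y|)`, then
`wd3` and `s1p`; if `χ'(V) = 0` the difference is zero (`CutP.n1`). Use `norm_Ex2_le`. -/

open MeasureTheory Finset Matrix Pool.Agent.BK

noncomputable section

namespace Pool.Agent.BK3

section S1aux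

variable {X : Type} [Fintype X] [DecidableEq X] {H : Matrix X X ℂ} {lam : ℝ} {z ζ g : ℂ}

lemma s1_cZ (hH : RS H) (hz : z.im ≠ 0) (M : Matrix X X ℂ) (w y : X) :
    Continuous fun V : X → ℝ => Zv H M lam z w V y := by
  have e : (fun V : X → ℝ => Zv H M lam z w V y) = fun V => Gv H lam z V y w - M y w := rfl
  rw [e]
  exact (continuous_Gv_xy hH lam hz y w).sub continuous_const

lemma s1_cW (hH : RS H) (hz : z.im ≠ 0) (M : Matrix X X ℂ) (w : X) :
    Continuous fun V : X → ℝ => Wv H M lam z w V := by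
  unfold Wv
  exact continuous_finsetSum _ fun y _ => (s1_cZ hH hz M w y).norm.pow 4

lemma s1_cP (hH : RS H) (hz : z.im ≠ 0) (M : Matrix X X ℂ) (w y : X) (P : ℕ) :
    Continuous fun V : X → ℝ => Pz H M lam z w P V y := by
  unfold Pz
  have h1 := s1_cZ (lam := lam) hH hz M w y
  exact ((Complex.continuous_ofReal.comp (s1_cW hH hz M w)).pow P).mul
    (h1.mul ((Complex.continuous_conj.comp h1).pow 2))

lemma s1_W0 (M : Matrix X X ℂ) (w : X) (V : X → ℝ) : 0 ≤ Wv H M lam z w V := by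
  unfold Wv
  exact sum_nonneg fun y _ => by positivity

lemma s1_normP (M : Matrix X X ℂ) (w y : X) (P : ℕ) (V : X → ℝ) :
    ‖Pz H M lam z w P V y‖ = Wv H M lam z w V ^ P * ‖Zv H M lam z w V y‖ ^ 3 := by
  unfold Pz
  rw [norm_mul, norm_pow, norm_mul, norm_pow, RCLike.norm_conj, Complex.norm_real,
    Real.norm_eq_abs, abs_of_nonneg (s1_W0 M w V)]
  ring

lemma s1_sumP (M : Matrix X X ℂ) (w : X) (P : ℕ) (V : X → ℝ) :
    ∑ y, Pz H M lam z w P V y * Zv H M lam z w V y = ((Wv H M lam z w V ^ (P + 1) : ℝ) : ℂ) := by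
  unfold Pz
  have h1 : ∀ y, (Wv H M lam z w V : ℂ) ^ P * (Zv H M lam z w V y *
      starRingEnd ℂ (Zv H M lam z w V y) ^ 2) * Zv H M lam z w V y =
      (Wv H M lam z w V : ℂ) ^ P * ((‖Zv H M lam z w V y‖ ^ 4 : ℝ) : ℂ) := by
    intro y
    have h2 : Zv H M lam z w V y * starRingEnd ℂ (Zv H M lam z w V y) =
        ((‖Zv H M lam z w V y‖ ^ 2 : ℝ) : ℂ) := by
      rw [Complex.mul_conj, Complex.normSq_eq_norm_sq]
    have h3 : (Zv H M lam z w V y * starRingEnd ℂ (Zv H M lam z w V y) ^ 2) *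
        Zv H M lam z w V y = (Zv H M lam z w V y *
        starRingEnd ℂ (Zv H M lam z w V y)) ^ 2 := by ring
    rw [mul_assoc, h3, h2]
    push_cast
    ring
  rw [sum_congr rfl fun y _ => h1 y, ← mul_sum]
  have h4 : ∑ y, ((‖Zv H M lam z w V y‖ ^ 4 : ℝ) : ℂ) = (Wv H M lam z w V : ℂ) := by
    unfold Wv
    push_cast
    rfl
  rw [h4]
  push_cast
  ring

lemma s1_Z (hH : RS H) (hz : z.im ≠ 0) (hζ : ζ.im ≠ 0) {s2 : ℝ}
    (h : ζ = z + (lam ^ 2 * s2 : ℝ) * g) (w y : X) (V : X → ℝ) :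
    Zv H (Gr H 0 ζ) lam z w V y = ∑ x, Gr H 0 ζ y x *
      ((-((lam * V x : ℝ) : ℂ) - (lam ^ 2 * s2 : ℝ) * g) * Gv H lam z V x w) := by
  have h1 := Gr_expand (ζ := ζ) hH (fun x => lam * V x) hz hζ
  unfold Zv
  rw [h1, Matrix.mul_apply]
  refine sum_congr rfl fun x _ => ?_
  rw [Matrix.mul_diagonal, mul_assoc]
  congr 2
  rw [h]
  ring

end S1aux

lemma s1_Ga0 {z ζ g : ℂ} {lam m2 b2 μ Gd ω : ℝ} (hlam : 0 < lam) (hz : 0 < z.im)
    (hζ : 0 < ζ.im) (hm2 : 0 ≤ m2) (hb2 : 0 ≤ b2) (hμ : 0 ≤ μ) (hGd : 0 ≤ Gd) (hω : 0 < ω) :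
    0 ≤ Ga0 z ζ g lam m2 b2 μ Gd ω := by
  unfold Ga0
  have h1 := Real.rpow_nonneg hω.le (-(1 / 4) : ℝ)
  have h2 := Real.rpow_nonneg (div_nonneg (mul_nonneg (mul_nonneg hm2
    (Real.rpow_nonneg hμ (1 / 2 : ℝ))) (Real.rpow_nonneg (div_nonneg hGd hz.le) (1 / 2 : ℝ)))
    hζ.le) (1 / 2 : ℝ)
  have h3 : 0 ≤ lam ^ 2 * b2 + lam ^ 3 * Gd * (Gd + ‖g‖) := by positivity
  exact mul_nonneg (mul_nonneg h1 h3) h2

lemma s1_Ga1 {z : ℂ} {lam θ m m2 B μ Gd Dl ω : ℝ} (hlam : 0 < lam) (hz : 0 < z.im)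
    (hm : 0 ≤ m) (hm2 : 0 ≤ m2) (hB : 0 ≤ B) (hμ : 0 ≤ μ) (hGd : 0 ≤ Gd) (hDl : 0 ≤ Dl)
    (hω : 0 < ω) : 0 ≤ Ga1 z lam θ m m2 B μ Gd Dl ω := by
  unfold Ga1
  have h1 := Real.rpow_nonneg hω.le (-(3 / 4) : ℝ)
  have h2 := Real.rpow_nonneg hω.le (-(1 / 2) : ℝ)
  have h3 := Real.rpow_nonneg hμ (1 / 2 : ℝ)
  have h4 := Real.rpow_nonneg (mul_nonneg hμ (div_nonneg hGd hz.le)) θ
  have h5 := Real.rpow_nonneg hB (3 / 4 - θ)
  have h6 := Real.rpow_nonneg hB (1 - θ)
  have h7 := Real.rpow_nonneg hB (1 / 2 - θ)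
  have h8 := Real.rpow_nonneg hB (3 / 2 : ℝ)
  positivity

theorem s1_core (R : ℝ) (hR : 1 ≤ R) (P : ℕ) : ∃ C : ℝ, 0 < C ∧
    ∀ (X : Type) [Fintype X] [DecidableEq X] (ν : Measure ℝ) (H : Matrix X X ℂ) (s2 lam : ℝ)
      (z g ζ : ℂ) (φ : X → X → ℝ) (q θ m m2 B b2 μ Gd Dl ω : ℝ) (χ χ' : (X → ℝ) → ℝ)
      (Dχ : X → (X → ℝ) → ℝ) (w : X), BLaw ν R s2 →
      S1D H R s2 lam z g ζ φ q θ m m2 B b2 μ Gd Dl ω → CutP R χ χ' Dχ →
      (∀ V ∈ Box X R, χ' V ≠ 0 → Reg H lam z g φ B b2 μ Gd V ∧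
        ∀ y, ∑ x, φ y x * Dχ x V ^ 2 ≤ Dl ^ 2) →
      Ex ν (fun V : X → ℝ => χ V * Wv H (Gr H 0 ζ) lam z w V ^ (P + 1)) ≤
        C * (Ga0 z ζ g lam m2 b2 μ Gd ω + Ga1 z lam θ m m2 B μ Gd Dl ω) *
          Ex ν (fun V : X → ℝ => χ' V * (Wv H (Gr H 0 ζ) lam z w V + ω) ^ (P + 1)) := by
  obtain ⟨C2, hC20, hC2⟩ := s1p R hR P
  obtain ⟨C1, hC1⟩ : ∃ C1 : ℝ, C1 = 100 * (P + 1) * 8 ^ P * R := ⟨_, rfl⟩
  have hC11 : 1 ≤ C1 := by
    rw [hC1]
    have a1 : (1 : ℝ) ≤ 100 * ((P : ℝ) + 1) := by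
      have : (0 : ℝ) ≤ P := Nat.cast_nonneg _
      linarith
    have a2 : (1 : ℝ) ≤ 8 ^ P := one_le_pow₀ (by norm_num)
    exact one_le_mul_of_one_le_of_one_le (one_le_mul_of_one_le_of_one_le a1 a2) hR
  refine ⟨8 * R ^ 3 + 4 * R ^ 2 * C1 * C2, by positivity, ?_⟩
  intro X _ _ ν H s2 lam z g ζ φ q θ m m2 B b2 μ Gd Dl ω χ χ' Dχ w hν h hχ hreg
  have hprob := hν.prob
  have hH := h.hH
  have hz := h.hz
  have hz' : z.im ≠ 0 := hz.ne'
  have hζ' : ζ.im ≠ 0 := h.hζ0.ne'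
  have hlam := h.lam0
  have hω := h.hω0
  have hR0 : 0 ≤ R := by linarith
  obtain ⟨M, hM⟩ : ∃ M : Matrix X X ℂ, M = Gr H 0 ζ := ⟨_, rfl⟩
  -- the functions
  obtain ⟨Φ, hΦ⟩ : ∃ Φ : X → (X → ℝ) → ℂ, ∀ x V, Φ x V = ∑ y, M y x *
      ((χ V : ℂ) * Pz H M lam z w P V y) := ⟨_, fun _ _ => rfl⟩
  have hχc : Continuous fun V : X → ℝ => (χ V : ℂ) := Complex.continuous_ofReal.comp hχ.c1
  have hΦc : ∀ x, Continuous (Φ x) := by
    intro x
    have e : Φ x = fun V => ∑ y, M y x * ((χ V : ℂ) * Pz H M lam z w P V y) :=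
      funext fun V => hΦ x V
    rw [e]
    exact continuous_finsetSum _ fun y _ =>
      continuous_const.mul (hχc.mul (s1_cP hH hz' M w y P))
  -- χ ≤ χ'
  have hle : ∀ V ∈ Box X R, χ V ≤ χ' V := by
    intro V hV
    have := hχ.n1 V hV w (V w) (hV w)
    rwa [Function.update_eq_self] at this
  -- the identity
  have hid : ∀ V, ((χ V * Wv H M lam z w V ^ (P + 1) : ℝ) : ℂ) =
      ∑ x, (-((lam * V x : ℝ) : ℂ) - (lam ^ 2 * s2 : ℝ) * g) * Gv H lam z V x w * Φ x V := by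
    intro V
    have e1 : ((χ V * Wv H M lam z w V ^ (P + 1) : ℝ) : ℂ) =
        (χ V : ℂ) * ∑ y, Pz H M lam z w P V y * Zv H M lam z w V y := by
      rw [s1_sumP]
      push_cast
      ring
    have e2 : ∀ y, Zv H M lam z w V y = ∑ x, M y x *
        ((-((lam * V x : ℝ) : ℂ) - (lam ^ 2 * s2 : ℝ) * g) * Gv H lam z V x w) := by
      intro y
      rw [hM]
      exact s1_Z hH hz' hζ' h.hζ w y V
    rw [e1]
    simp only [hΦ]
    simp only [mul_sum]
    rw [sum_comm' (s := univ) (t := fun _ => univ) (t' := univ) (s' := fun _ => univ)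
      (by simp)]
    refine sum_congr rfl fun y _ => ?_
    rw [e2 y]
    simp only [mul_sum]
    refine sum_congr rfl fun x _ => ?_
    ring
  have hKc : ∀ x, Continuous fun V : X → ℝ => (-((lam * V x : ℝ) : ℂ) -
      (lam ^ 2 * s2 : ℝ) * g) * Gv H lam z V x w * Φ x V := by
    intro x
    have h1 : Continuous fun V : X → ℝ => ((lam * V x : ℝ) : ℂ) :=
      Complex.continuous_ofReal.comp (continuous_const.mul (continuous_apply x))
    exact ((h1.neg.sub continuous_const).mul (continuous_Gv_xy hH lam hz' x w)).mul (hΦc x)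
  have hE1 : ((Ex ν (fun V : X → ℝ => χ V * Wv H M lam z w V ^ (P + 1)) : ℝ) : ℂ) =
      ∑ x, Ex ν (fun V : X → ℝ => (-((lam * V x : ℝ) : ℂ) - (lam ^ 2 * s2 : ℝ) * g) *
        Gv H lam z V x w * Φ x V) := by
    unfold Ex
    rw [← integral_complex_ofReal, ← integral_finsetSum _ fun x _ => int_cont hν (hKc x)]
    exact integral_congr_ae (Filter.Eventually.of_forall fun V => hid V)
  have hE2 : ((Ex ν (fun V : X → ℝ => χ V * Wv H M lam z w V ^ (P + 1)) : ℝ) : ℂ) =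
      ∑ x, Ex ν (fun V : X → ℝ => kx ν s2 H lam z g x V * Gv H lam z V x w * Φ x V) +
      ∑ x, Ex ν (fun V : X → ℝ => ∫ t, (-((lam * V x : ℝ) : ℂ) +
        (lam ^ 2 * (V x ^ 2 - s2) : ℝ) * g) *
        Gv H lam z (Function.update V x t) x w *
          (Φ x V - Φ x (Function.update V x t)) ∂ν) := by
    rw [hE1, ← sum_add_distrib]
    exact sum_congr rfl fun x _ => one_site hν hH hz' (hΦc x) x w
  -- the right hand side
  obtain ⟨U, hU⟩ : ∃ U : (X → ℝ) → ℝ, ∀ V, U V = χ' V * (Wv H M lam z w V + ω) ^ (P + 1) :=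
    ⟨_, fun _ => rfl⟩
  have hUc : Continuous U := by
    have e : U = fun V => χ' V * (Wv H M lam z w V + ω) ^ (P + 1) := funext hU
    rw [e]
    exact hχ.c2.mul (((s1_cW hH hz' M w).add continuous_const).pow _)
  have hWω : ∀ V, 0 < Wv H M lam z w V + ω := by
    intro V
    have := s1_W0 (H := H) (lam := lam) (z := z) M w V
    linarith
  have hU0 : ∀ V, 0 ≤ U V := by
    intro V
    rw [hU]
    have := (hχ.n0' V).1
    have := hWω V
    positivity
  -- first part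
  have hA : ‖∑ x, Ex ν (fun V : X → ℝ => kx ν s2 H lam z g x V * Gv H lam z V x w * Φ x V)‖ ≤
      8 * R ^ 3 * Ga0 z ζ g lam m2 b2 μ Gd ω * Ex ν U := by
    have hc : ∀ x, Continuous fun V : X → ℝ =>
        kx ν s2 H lam z g x V * Gv H lam z V x w * Φ x V := fun x =>
      ((continuous_kx hν hH hz' x).mul (continuous_Gv_xy hH lam hz' x w)).mul (hΦc x)
    have e1 : ∑ x, Ex ν (fun V : X → ℝ => kx ν s2 H lam z g x V * Gv H lam z V x w * Φ x V) =
        Ex ν (fun V : X → ℝ => ∑ x, kx ν s2 H lam z g x V * Gv H lam z V x w * Φ x V) := by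
      unfold Ex
      rw [← integral_finsetSum _ fun x _ => int_cont hν (hc x)]
    have e2 : 8 * R ^ 3 * Ga0 z ζ g lam m2 b2 μ Gd ω * Ex ν U =
        Ex ν (fun V => 8 * R ^ 3 * Ga0 z ζ g lam m2 b2 μ Gd ω * U V) := by
      unfold Ex
      rw [integral_const_mul]
    rw [e1, e2]
    refine norm_Ex_le hν (continuous_finsetSum _ fun x _ => hc x)
      (continuous_const.mul hUc) fun V hV => ?_
    have e3 : ∑ x, kx ν s2 H lam z g x V * Gv H lam z V x w * Φ x V =
        (χ V : ℂ) * ∑ y, Pz H M lam z w P V y *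
          ∑ x, M y x * (kx ν s2 H lam z g x V * Gv H lam z V x w) := by
      simp only [hΦ]
      simp only [mul_sum]
      rw [sum_comm]
      refine sum_congr rfl fun y _ => sum_congr rfl fun x _ => ?_
      ring
    rw [e3, norm_mul, Complex.norm_real, Real.norm_eq_abs, abs_of_nonneg (hχ.n0 V).1, hU]
    by_cases h0 : χ' V = 0
    · have h1 : χ V = 0 := le_antisymm (h0 ▸ hle V hV) (hχ.n0 V).1
      rw [h1, h0]
      simp
    · have h1 := s1c hν h hV (hreg V hV h0).1 w P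
      rw [← hM] at h1
      have h2 := (norm_nonneg _).trans h1
      calc χ V * ‖∑ y, Pz H M lam z w P V y *
            ∑ x, M y x * (kx ν s2 H lam z g x V * Gv H lam z V x w)‖
          ≤ χ' V * (8 * R ^ 3 * Ga0 z ζ g lam m2 b2 μ Gd ω *
            (Wv H M lam z w V + ω) ^ (P + 1)) :=
            mul_le_mul (hle V hV) h1 (norm_nonneg _) (hχ.n0' V).1
        _ = _ := by ring
  -- second part
  obtain ⟨T, hT⟩ : ∃ T : X → X → (X → ℝ) → ℝ, ∀ x y V, T x y V =
      ‖M y x‖ * ‖Gv H lam z V x w‖ *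
        (Dχ x V * Wv H M lam z w V ^ P * ‖Zv H M lam z w V y‖ ^ 3 +
        (lam * ‖Gv H lam z V x w‖ * B ^ (1 / 4 : ℝ) *
          (Wv H M lam z w V + ω) ^ ((P : ℝ) - 1 / 4) *
            ‖Zv H M lam z w V y‖ ^ 3 +
        (Wv H M lam z w V + ω) ^ P * (lam * ‖Gv H lam z V y x‖ * ‖Gv H lam z V x w‖) *
          (‖Zv H M lam z w V y‖ ^ 2 +
            (4 * R * lam * ‖Gv H lam z V y x‖ * ‖Gv H lam z V x w‖) ^ 2))) :=
    ⟨_, fun _ _ _ => rfl⟩
  have hTc : ∀ x y, Continuous (T x y) := by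
    intro x y
    have e : T x y = fun V => ‖M y x‖ * ‖Gv H lam z V x w‖ *
        (Dχ x V * Wv H M lam z w V ^ P * ‖Zv H M lam z w V y‖ ^ 3 +
        (lam * ‖Gv H lam z V x w‖ * B ^ (1 / 4 : ℝ) *
          (Wv H M lam z w V + ω) ^ ((P : ℝ) - 1 / 4) *
            ‖Zv H M lam z w V y‖ ^ 3 +
        (Wv H M lam z w V + ω) ^ P * (lam * ‖Gv H lam z V y x‖ * ‖Gv H lam z V x w‖) *
          (‖Zv H M lam z w V y‖ ^ 2 +
            (4 * R * lam * ‖Gv H lam z V y x‖ * ‖Gv H lam z V x w‖) ^ 2))) :=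
      funext fun V => hT x y V
    rw [e]
    have c1 := (continuous_Gv_xy (z := z) hH lam hz' x w).norm
    have c2 := (continuous_Gv_xy (z := z) hH lam hz' y x).norm
    have c3 := (s1_cZ (lam := lam) hH hz' M w y).norm
    have c4 := s1_cW (lam := lam) hH hz' M w
    have c5 := c4.add (continuous_const (y := ω))
    have c6 : Continuous fun V : X → ℝ => (Wv H M lam z w V + ω) ^ ((P : ℝ) - 1 / 4) :=
      c5.rpow_const fun V => Or.inl (hWω V).ne'
    exact (continuous_const.mul c1).mul ((((hχ.c3 x).mul (c4.pow P)).mul (c3.pow 3)).add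
      (((((continuous_const.mul c1).mul continuous_const).mul c6).mul (c3.pow 3)).add
      (((c5.pow P).mul ((continuous_const.mul c2).mul c1)).mul ((c3.pow 2).add
        (((continuous_const.mul c2).mul c1).pow 2)))))
  have hT0 : ∀ x y V, 0 ≤ T x y V := by
    intro x y V
    rw [hT]
    have a1 := hχ.d0 x V
    have a2 := s1_W0 (H := H) (lam := lam) (z := z) M w V
    have a3 := hWω V
    have a4 := Real.rpow_nonneg a3.le ((P : ℝ) - 1 / 4)
    have hB0 : 0 ≤ B := by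
      have := h.hB
      linarith
    have a5 := Real.rpow_nonneg hB0 (1 / 4 : ℝ)
    positivity
  have hB' : ∀ x, ‖Ex ν (fun V : X → ℝ => ∫ t, (-((lam * V x : ℝ) : ℂ) +
        (lam ^ 2 * (V x ^ 2 - s2) : ℝ) * g) *
        Gv H lam z (Function.update V x t) x w *
          (Φ x V - Φ x (Function.update V x t)) ∂ν)‖ ≤
      Ex ν (fun V => 4 * R ^ 2 * C1 * (χ' V * (lam * ∑ y, T x y V))) := by
    intro x
    refine norm_Ex2_le hν ?_ ?_ ?_
    · have h1 : Continuous fun p : (X → ℝ) × ℝ => p.1 x := (continuous_apply x).comp continuous_fst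
      have h2 := continuous_upd (continuous_Gv_xy (z := z) hH lam hz' x w) x
      have h3 := continuous_upd (hΦc x) x
      refine Continuous.mul (Continuous.mul ?_ h2) (((hΦc x).comp continuous_fst).sub h3)
      exact ((Complex.continuous_ofReal.comp (continuous_const.mul h1)).neg).add
        ((Complex.continuous_ofReal.comp (continuous_const.mul ((h1.pow 2).sub
          continuous_const))).mul continuous_const)
    · exact continuous_const.mul (hχ.c2.mul (continuous_const.mul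
        (continuous_finsetSum _ fun y _ => hTc x y)))
    · intro V hV t ht
      have hsum0 : 0 ≤ lam * ∑ y, T x y V :=
        mul_nonneg hlam.le (sum_nonneg fun y _ => hT0 x y V)
      by_cases h0 : χ' V = 0
      · have h1 : χ V = 0 := le_antisymm (h0 ▸ hle V hV) (hχ.n0 V).1
        have h2 : χ (Function.update V x t) = 0 :=
          le_antisymm (h0 ▸ hχ.n1 V hV x t ht) (hχ.n0 _).1
        have h3 : Φ x V = 0 := by
          rw [hΦ]
          exact sum_eq_zero fun y _ => by rw [h1]; simp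
        have h4 : Φ x (Function.update V x t) = 0 := by
          rw [hΦ]
          exact sum_eq_zero fun y _ => by rw [h2]; simp
        rw [h3, h4, h0]
        simp
      · obtain ⟨hr, -⟩ := hreg V hV h0
        have hsm : 2 * R * lam * ‖Gv H lam z V x x‖ ≤ 1 / 2 := by
          have h1 := hr.gd x
          have h2 := h.sm
          have h3 : 2 * R * lam * ‖Gv H lam z V x x‖ ≤ 2 * R * lam * Gd :=
            mul_le_mul_of_nonneg_left h1 (by positivity)
          linarith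
        have b1 : ‖-((lam * V x : ℝ) : ℂ) + (lam ^ 2 * (V x ^ 2 - s2) : ℝ) * g‖ ≤
            2 * R ^ 2 * lam := by
          have hVx := hV x
          rw [Set.mem_Icc] at hVx
          have h7 : |V x| ≤ R := abs_le.2 hVx
          have hs2 := s2_le hν
          have hs0 := hν.s2_pos
          have h9 : |V x ^ 2 - s2| ≤ R ^ 2 := by
            have : V x ^ 2 ≤ R ^ 2 := sq_le_sq' hVx.1 hVx.2
            rw [abs_le]
            constructor
            · nlinarith [sq_nonneg (V x)]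
            · linarith
          refine (norm_add_le _ _).trans ?_
          rw [norm_neg, norm_mul, Complex.norm_real, Complex.norm_real, Real.norm_eq_abs,
            Real.norm_eq_abs, abs_mul, abs_mul, abs_of_nonneg hlam.le,
            abs_of_nonneg (by positivity : 0 ≤ lam ^ 2)]
          have c1 : lam * |V x| ≤ lam * R := mul_le_mul_of_nonneg_left h7 hlam.le
          have c2 : lam ^ 2 * |V x ^ 2 - s2| * ‖g‖ ≤ lam * R ^ 2 := by
            calc lam ^ 2 * |V x ^ 2 - s2| * ‖g‖ = (lam * ‖g‖) * (lam * |V x ^ 2 - s2|) := by ring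
              _ ≤ 1 * (lam * R ^ 2) := mul_le_mul h.hg
                  (mul_le_mul_of_nonneg_left h9 hlam.le) (by positivity) (by norm_num)
              _ = _ := one_mul _
          have c3 : R ≤ R ^ 2 := by nlinarith
          nlinarith
        have b2' : ‖Gv H lam z (Function.update V x t) x w‖ ≤ 2 * ‖Gv H lam z V x w‖ := by
          rw [Gv_symm hH hz' (Function.update V x t) x w, Gv_symm hH hz' V x w]
          exact one_le hH hz' hR0 hlam.le hV ht hsm w
        have b3 : ‖Φ x V - Φ x (Function.update V x t)‖ ≤ ∑ y, ‖M y x‖ * (χ' V * (C1 *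
            (Dχ x V * Wv H M lam z w V ^ P * ‖Zv H M lam z w V y‖ ^ 3 +
            (lam * ‖Gv H lam z V x w‖ * B ^ (1 / 4 : ℝ) *
              (Wv H M lam z w V + ω) ^ ((P : ℝ) - 1 / 4) *
                ‖Zv H M lam z w V y‖ ^ 3 +
            (Wv H M lam z w V + ω) ^ P * (lam * ‖Gv H lam z V y x‖ * ‖Gv H lam z V x w‖) *
              (‖Zv H M lam z w V y‖ ^ 2 +
                (4 * R * lam * ‖Gv H lam z V y x‖ * ‖Gv H lam z V x w‖) ^ 2))))) := by
          rw [hΦ, hΦ, ← sum_sub_distrib]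
          refine (norm_sum_le _ _).trans (sum_le_sum fun y _ => ?_)
          rw [← mul_sub, norm_mul]
          refine mul_le_mul_of_nonneg_left ?_ (norm_nonneg _)
          have e1 : (χ V : ℂ) * Pz H M lam z w P V y - (χ (Function.update V x t) : ℂ) *
              Pz H M lam z w P (Function.update V x t) y =
              ((χ V - χ (Function.update V x t) : ℝ) : ℂ) * Pz H M lam z w P V y +
              (χ (Function.update V x t) : ℂ) * (Pz H M lam z w P V y -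
                Pz H M lam z w P (Function.update V x t) y) := by
            push_cast
            ring
          rw [e1]
          refine (norm_add_le _ _).trans ?_
          rw [norm_mul, norm_mul, Complex.norm_real, Complex.norm_real, Real.norm_eq_abs,
            Real.norm_eq_abs, abs_of_nonneg (hχ.n0 (Function.update V x t)).1, s1_normP]
          have e2 := hχ.n2 V hV x t ht
          have e3 := hχ.n1 V hV x t ht
          have e4 := wd3 (M := M) hH hz' hR hlam.le hV ht hsm h.hB (fun u => hr.g4 u) h.hω w y P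
          rw [← hC1] at e4
          have hχ0 := (hχ.n0' V).1
          have hW0 := s1_W0 (H := H) (lam := lam) (z := z) M w V
          have hD0 := hχ.d0 x V
          have e5 : |χ V - χ (Function.update V x t)| * (Wv H M lam z w V ^ P *
              ‖Zv H M lam z w V y‖ ^ 3) ≤ χ' V * (C1 * (Dχ x V * Wv H M lam z w V ^ P *
              ‖Zv H M lam z w V y‖ ^ 3)) := by
            calc |χ V - χ (Function.update V x t)| * (Wv H M lam z w V ^ P *
                ‖Zv H M lam z w V y‖ ^ 3) ≤ (χ' V * Dχ x V) * (Wv H M lam z w V ^ P *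
                ‖Zv H M lam z w V y‖ ^ 3) := mul_le_mul_of_nonneg_right e2 (by positivity)
              _ = χ' V * (1 * (Dχ x V * Wv H M lam z w V ^ P *
                ‖Zv H M lam z w V y‖ ^ 3)) := by ring
              _ ≤ χ' V * (C1 * (Dχ x V * Wv H M lam z w V ^ P *
                ‖Zv H M lam z w V y‖ ^ 3)) :=
                mul_le_mul_of_nonneg_left (mul_le_mul_of_nonneg_right hC11 (by positivity)) hχ0
          have e6 := mul_le_mul e3 e4 (norm_nonneg _) hχ0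
          refine (add_le_add e5 e6).trans (le_of_eq ?_)
          ring
        have hχ0 := (hχ.n0' V).1
        rw [norm_mul, norm_mul]
        calc ‖-((lam * V x : ℝ) : ℂ) + (lam ^ 2 * (V x ^ 2 - s2) : ℝ) * g‖ *
              ‖Gv H lam z (Function.update V x t) x w‖ *
              ‖Φ x V - Φ x (Function.update V x t)‖
            ≤ (2 * R ^ 2 * lam) * (2 * ‖Gv H lam z V x w‖) *
              (∑ y, ‖M y x‖ * (χ' V * (C1 *
            (Dχ x V * Wv H M lam z w V ^ P * ‖Zv H M lam z w V y‖ ^ 3 +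
            (lam * ‖Gv H lam z V x w‖ * B ^ (1 / 4 : ℝ) *
              (Wv H M lam z w V + ω) ^ ((P : ℝ) - 1 / 4) *
                ‖Zv H M lam z w V y‖ ^ 3 +
            (Wv H M lam z w V + ω) ^ P * (lam * ‖Gv H lam z V y x‖ * ‖Gv H lam z V x w‖) *
              (‖Zv H M lam z w V y‖ ^ 2 +
                (4 * R * lam * ‖Gv H lam z V y x‖ * ‖Gv H lam z V x w‖) ^ 2)))))) :=
              mul_le_mul (mul_le_mul b1 b2' (norm_nonneg _) (by positivity)) b3
                (norm_nonneg _) (by positivity)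
          _ = 4 * R ^ 2 * C1 * (χ' V * (lam * ∑ y, T x y V)) := by
              simp only [hT, mul_sum]
              refine sum_congr rfl fun y _ => ?_
              ring
  have hBt : ‖∑ x, Ex ν (fun V : X → ℝ => ∫ t, (-((lam * V x : ℝ) : ℂ) +
        (lam ^ 2 * (V x ^ 2 - s2) : ℝ) * g) *
        Gv H lam z (Function.update V x t) x w *
          (Φ x V - Φ x (Function.update V x t)) ∂ν)‖ ≤
      4 * R ^ 2 * C1 * C2 * Ga1 z lam θ m m2 B μ Gd Dl ω * Ex ν U := by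
    refine (norm_sum_le _ _).trans ((sum_le_sum fun x _ => hB' x).trans ?_)
    have hc : ∀ x, Continuous fun V : X → ℝ => 4 * R ^ 2 * C1 * (χ' V *
        (lam * ∑ y, T x y V)) := fun x =>
      continuous_const.mul (hχ.c2.mul (continuous_const.mul
        (continuous_finsetSum _ fun y _ => hTc x y)))
    have e1 : ∑ x, Ex ν (fun V : X → ℝ => 4 * R ^ 2 * C1 * (χ' V * (lam * ∑ y, T x y V))) =
        Ex ν (fun V : X → ℝ => ∑ x, 4 * R ^ 2 * C1 * (χ' V * (lam * ∑ y, T x y V))) := by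
      unfold Ex
      rw [← integral_finsetSum _ fun x _ => int_cont hν (hc x)]
    have e2 : 4 * R ^ 2 * C1 * C2 * Ga1 z lam θ m m2 B μ Gd Dl ω * Ex ν U =
        Ex ν (fun V => 4 * R ^ 2 * C1 * C2 * Ga1 z lam θ m m2 B μ Gd Dl ω * U V) := by
      unfold Ex
      rw [integral_const_mul]
    rw [e1, e2]
    refine Ex_box_mono hν (continuous_finsetSum _ fun x _ => hc x)
      (continuous_const.mul hUc) fun V hV => ?_
    have e3 : ∑ x, 4 * R ^ 2 * C1 * (χ' V * (lam * ∑ y, T x y V)) =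
        4 * R ^ 2 * C1 * (χ' V * (lam * ∑ x, ∑ y, T x y V)) := by
      simp only [mul_sum]
    rw [e3, hU]
    by_cases h0 : χ' V = 0
    · rw [h0]
      simp
    · obtain ⟨hr, hDl⟩ := hreg V hV h0
      have h1 := hC2 X H s2 lam z g ζ φ q θ m m2 B b2 μ Gd Dl ω h V hV hr w (fun x => Dχ x V)
        (fun x => hχ.d0 x V) hDl
      rw [← hM] at h1
      have h2 : lam * ∑ x, ∑ y, T x y V ≤ C2 * Ga1 z lam θ m m2 B μ Gd Dl ω *
          (Wv H M lam z w V + ω) ^ (P + 1) := by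
        simp only [hT]
        exact h1
      have hχ0 := (hχ.n0' V).1
      calc 4 * R ^ 2 * C1 * (χ' V * (lam * ∑ x, ∑ y, T x y V))
          ≤ 4 * R ^ 2 * C1 * (χ' V * (C2 * Ga1 z lam θ m m2 B μ Gd Dl ω *
          (Wv H M lam z w V + ω) ^ (P + 1))) :=
            mul_le_mul_of_nonneg_left (mul_le_mul_of_nonneg_left h2 hχ0) (by positivity)
        _ = _ := by ring
  -- total
  have hEU : 0 ≤ Ex ν U := Ex_box_nonneg hν fun V _ => hU0 V
  have hfin : Ex ν (fun V : X → ℝ => χ V * Wv H M lam z w V ^ (P + 1)) ≤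
      8 * R ^ 3 * Ga0 z ζ g lam m2 b2 μ Gd ω * Ex ν U +
      4 * R ^ 2 * C1 * C2 * Ga1 z lam θ m m2 B μ Gd Dl ω * Ex ν U := by
    refine (le_abs_self _).trans ?_
    rw [← Real.norm_eq_abs, ← Complex.norm_real, hE2]
    exact (norm_add_le _ _).trans (add_le_add hA hBt)
  have hB0 : 0 ≤ B := by
    have := h.hB
    linarith
  have g0 := s1_Ga0 (g := g) hlam hz h.hζ0 h.m20 h.hb2 h.hμ h.hGd hω
  have g1 := s1_Ga1 (θ := θ) hlam hz h.m0 h.m20 hB0 h.hμ h.hGd h.hDl hω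
  rw [← hM]
  have hUE : Ex ν (fun V : X → ℝ => χ' V * (Wv H M lam z w V + ω) ^ (P + 1)) = Ex ν U := by
    congr 1
    funext V
    exact (hU V).symm
  rw [hUE]
  refine hfin.trans ?_
  have f1 : 0 ≤ 8 * R ^ 3 * Ga1 z lam θ m m2 B μ Gd Dl ω * Ex ν U := by positivity
  have f2 : 0 ≤ 4 * R ^ 2 * C1 * C2 * Ga0 z ζ g lam m2 b2 μ Gd ω * Ex ν U := by positivity
  have f3 : (8 * R ^ 3 + 4 * R ^ 2 * C1 * C2) * (Ga0 z ζ g lam m2 b2 μ Gd ω +
      Ga1 z lam θ m m2 B μ Gd Dl ω) * Ex ν U =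
      8 * R ^ 3 * Ga0 z ζ g lam m2 b2 μ Gd ω * Ex ν U +
      4 * R ^ 2 * C1 * C2 * Ga1 z lam θ m m2 B μ Gd Dl ω * Ex ν U +
      8 * R ^ 3 * Ga1 z lam θ m m2 B μ Gd Dl ω * Ex ν U +
      4 * R ^ 2 * C1 * C2 * Ga0 z ζ g lam m2 b2 μ Gd ω * Ex ν U := by ring
  rw [f3]
  linarith

end Pool.Agent.BK3
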