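import Pool.Agent.BK3.S1Defs

/-! BK3 module S1c: the `c`-term. At a potential with region data,
`|∑_y P_y (M c)_y| ≤ W^P (∑ |Z|⁴)^(3/4) ‖M c‖_4`, `c_x = kx_x G_xw`, `|kx| ≤ 8 R³ κ`,
`κ = lam² b2 + lam³ Gd (Gd + |g|)` (`kx_le`), `‖M c‖_4⁴ ≤ ‖M c‖_∞² ‖M c‖_2²`,
`|(M c)_y| ≤ (∑ (|M_yx|/φ_yx)²)^(1/2) (∑ φ_yx² |c_x|²)^(1/2) ≤ m2 8R³ κ μ^(1/2)` (`φ² ≤ φ`, `lm`, symmetry of
`G`), `‖M c‖_2 ≤ ‖c‖_2/Im ζ ≤ 8R³ κ (Gd/η)^(1/2)/Im ζ` (`nsq_Gr_mulVec`, `ward`).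
Finally `W^(P+3/4) ≤ (W+ω)^(P+1) ω^(-1/4)`. -/

open MeasureTheory Finset Matrix Pool.Agent.BK

noncomputable section

namespace Pool.Agent.BK3

variable {X : Type} [Fintype X] [DecidableEq X] {ν : Measure ℝ} {H : Matrix X X ℂ}
  {R s2 lam : ℝ} {z g ζ : ℂ} {φ : X → X → ℝ} {q θ m m2 B b2 μ Gd Dl ω : ℝ}

omit [DecidableEq X] in
private lemma s1c_hold (a b : X → ℝ) (ha : ∀ y, 0 ≤ a y) (hb : ∀ y, 0 ≤ b y) :
    ∑ y, a y ^ 3 * b y ≤ (∑ y, a y ^ 4) ^ (3 / 4 : ℝ) * (∑ y, b y ^ 4) ^ (1 / 4 : ℝ) := by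
  have hpq : (4 / 3 : ℝ).HolderConjugate 4 := by
    rw [Real.holderConjugate_iff]
    norm_num
  have h := Real.inner_le_Lp_mul_Lq_of_nonneg (Finset.univ : Finset X) (f := fun y => a y ^ 3)
    (g := b) hpq (fun y _ => pow_nonneg (ha y) 3) (fun y _ => hb y)
  refine h.trans (le_of_eq ?_)
  have h1 : ∀ y, (a y ^ 3) ^ (4 / 3 : ℝ) = a y ^ 4 := by
    intro y
    rw [← Real.rpow_natCast, ← Real.rpow_natCast, ← Real.rpow_mul (ha y)]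
    norm_num
  have h2 : ∀ y, b y ^ (4 : ℝ) = b y ^ 4 := by
    intro y
    rw [← Real.rpow_natCast]
    norm_num
  simp only [h1, h2]
  norm_num

/-- The `ℓ⁴` norm of `M c`. -/
private lemma s1c_four (h : S1D H R s2 lam z g ζ φ q θ m m2 B b2 μ Gd Dl ω) {V : X → ℝ}
    (hr : Reg H lam z g φ B b2 μ Gd V) (w : X) {K : ℝ} (hK : 0 ≤ K) (c : X → ℂ)
    (hc : ∀ x, ‖c x‖ ≤ K * ‖Gv H lam z V x w‖) :
    ∑ y, ‖(Gr H 0 ζ *ᵥ c) y‖ ^ 4 ≤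
      K ^ 4 * (m2 * μ ^ (1 / 2 : ℝ) * (Gd / z.im) ^ (1 / 2 : ℝ) / ζ.im) ^ 2 := by
  have hsym : ∀ x, ‖Gv H lam z V x w‖ = ‖Gv H lam z V w x‖ := fun x => by
    rw [Gv, Gr_symm h.hH _ h.hz.ne']
  -- the square of the entries
  have h1 : ∀ y, ‖(Gr H 0 ζ *ᵥ c) y‖ ^ 2 ≤ m2 ^ 2 * (K ^ 2 * μ) := by
    intro y
    have e1 : ‖(Gr H 0 ζ *ᵥ c) y‖ ≤ ∑ x, (‖Gr H 0 ζ y x‖ / φ y x) * (φ y x * ‖c x‖) := by
      refine (norm_sum_le _ _).trans (le_of_eq ?_)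
      refine Finset.sum_congr rfl fun x _ => ?_
      have := (h.w.pos y x).ne'
      rw [norm_mul]
      field_simp
    have e2 := Finset.sum_mul_sq_le_sq_mul_sq (Finset.univ : Finset X)
      (fun x => ‖Gr H 0 ζ y x‖ / φ y x) (fun x => φ y x * ‖c x‖)
    have e3 : ∑ x, (φ y x * ‖c x‖) ^ 2 ≤ K ^ 2 * μ := by
      calc ∑ x, (φ y x * ‖c x‖) ^ 2
          ≤ ∑ x, K ^ 2 * (φ y x * ‖Gv H lam z V w x‖ ^ 2) := by
            refine Finset.sum_le_sum fun x _ => ?_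
            have p0 := (h.w.pos y x).le
            have p1 := h.w.le y x
            have hcx := hc x
            rw [hsym x] at hcx
            have a1 : ‖c x‖ ^ 2 ≤ (K * ‖Gv H lam z V w x‖) ^ 2 :=
              pow_le_pow_left₀ (norm_nonneg _) hcx 2
            have a2 : φ y x ^ 2 ≤ φ y x := by nlinarith
            calc (φ y x * ‖c x‖) ^ 2 = φ y x ^ 2 * ‖c x‖ ^ 2 := by ring
              _ ≤ φ y x * (K * ‖Gv H lam z V w x‖) ^ 2 :=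
                mul_le_mul a2 a1 (by positivity) p0
              _ = _ := by ring
        _ = K ^ 2 * lm φ (Gv H lam z V) w y := by rw [← Finset.mul_sum]; rfl
        _ ≤ K ^ 2 * μ := mul_le_mul_of_nonneg_left (hr.ms w y) (by positivity)
    calc ‖(Gr H 0 ζ *ᵥ c) y‖ ^ 2
        ≤ (∑ x, (‖Gr H 0 ζ y x‖ / φ y x) * (φ y x * ‖c x‖)) ^ 2 :=
          pow_le_pow_left₀ (norm_nonneg _) e1 2
      _ ≤ _ := e2
      _ ≤ m2 ^ 2 * (K ^ 2 * μ) := mul_le_mul (h.m2w y) e3 (by positivity) (by positivity)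
  -- the square norm
  have h2 : nsq (Gr H 0 ζ *ᵥ c) ≤ (1 / ζ.im) ^ 2 * (K ^ 2 * (Gd / z.im)) := by
    refine (nsq_Gr_mulVec h.hH 0 h.hζ0 c).trans (mul_le_mul_of_nonneg_left ?_ (by positivity))
    calc nsq c ≤ ∑ x, K ^ 2 * ‖Gv H lam z V w x‖ ^ 2 := by
          refine Finset.sum_le_sum fun x _ => ?_
          have hcx := hc x
          rw [hsym x] at hcx
          calc ‖c x‖ ^ 2 ≤ (K * ‖Gv H lam z V w x‖) ^ 2 :=
                pow_le_pow_left₀ (norm_nonneg _) hcx 2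
            _ = _ := by ring
      _ = K ^ 2 * ((Gv H lam z V w w).im / z.im) := by
          rw [← Finset.mul_sum]
          congr 1
          exact ward h.hH _ h.hz w
      _ ≤ K ^ 2 * (Gd / z.im) := by
          refine mul_le_mul_of_nonneg_left ?_ (by positivity)
          refine div_le_div_of_nonneg_right ?_ h.hz.le
          exact (le_abs_self _).trans ((Complex.abs_im_le_norm _).trans (hr.gd w))
  have hGz : 0 ≤ Gd / z.im := div_nonneg h.hGd h.hz.le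
  calc ∑ y, ‖(Gr H 0 ζ *ᵥ c) y‖ ^ 4
      ≤ ∑ y, m2 ^ 2 * (K ^ 2 * μ) * ‖(Gr H 0 ζ *ᵥ c) y‖ ^ 2 := by
        refine Finset.sum_le_sum fun y _ => ?_
        calc ‖(Gr H 0 ζ *ᵥ c) y‖ ^ 4 = ‖(Gr H 0 ζ *ᵥ c) y‖ ^ 2 * ‖(Gr H 0 ζ *ᵥ c) y‖ ^ 2 := by ring
          _ ≤ _ := mul_le_mul_of_nonneg_right (h1 y) (by positivity)
    _ = m2 ^ 2 * (K ^ 2 * μ) * nsq (Gr H 0 ζ *ᵥ c) := by rw [← Finset.mul_sum]; rfl
    _ ≤ m2 ^ 2 * (K ^ 2 * μ) * ((1 / ζ.im) ^ 2 * (K ^ 2 * (Gd / z.im))) :=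
        mul_le_mul_of_nonneg_left h2 (by have := h.hμ; positivity)
    _ = _ := by
        have s1 : (μ ^ (1 / 2 : ℝ)) ^ 2 = μ := by
          rw [← Real.rpow_natCast, ← Real.rpow_mul h.hμ]; norm_num
        have s2 : ((Gd / z.im) ^ (1 / 2 : ℝ)) ^ 2 = Gd / z.im := by
          rw [← Real.rpow_natCast, ← Real.rpow_mul hGz]; norm_num
        have s3 : (m2 * μ ^ (1 / 2 : ℝ) * (Gd / z.im) ^ (1 / 2 : ℝ) / ζ.im) ^ 2 =
            m2 ^ 2 * (μ ^ (1 / 2 : ℝ)) ^ 2 * ((Gd / z.im) ^ (1 / 2 : ℝ)) ^ 2 / ζ.im ^ 2 := by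
          rw [div_pow, mul_pow, mul_pow]
        rw [s3, s1, s2]
        ring

theorem s1c (hν : BLaw ν R s2) (h : S1D H R s2 lam z g ζ φ q θ m m2 B b2 μ Gd Dl ω) {V : X → ℝ}
    (hV : V ∈ Box X R) (hr : Reg H lam z g φ B b2 μ Gd V) (w : X) (P : ℕ) :
    ‖∑ y, Pz H (Gr H 0 ζ) lam z w P V y *
        ∑ x, Gr H 0 ζ y x * (kx ν s2 H lam z g x V * Gv H lam z V x w)‖ ≤
      8 * R ^ 3 * Ga0 z ζ g lam m2 b2 μ Gd ω * (Wv H (Gr H 0 ζ) lam z w V + ω) ^ (P + 1) := by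
  have hR := h.hR
  have hμ := h.hμ
  have hGd := h.hGd
  have hb2 := h.hb2
  have hm2 := h.m20
  have hlam := h.lam0
  have hω0 := h.hω0
  have hGz : 0 ≤ Gd / z.im := div_nonneg h.hGd h.hz.le
  have hζ0 := h.hζ0
  obtain ⟨κ, hκ⟩ : ∃ κ, κ = lam ^ 2 * b2 + lam ^ 3 * Gd * (Gd + ‖g‖) := ⟨_, rfl⟩
  have hκ0 : 0 ≤ κ := by rw [hκ]; positivity
  obtain ⟨K, hK⟩ : ∃ K, K = 8 * R ^ 3 * κ := ⟨_, rfl⟩
  have hK0 : 0 ≤ K := by rw [hK]; positivity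
  obtain ⟨A, hA⟩ : ∃ A, A = m2 * μ ^ (1 / 2 : ℝ) * (Gd / z.im) ^ (1 / 2 : ℝ) / ζ.im := ⟨_, rfl⟩
  have hA0 : 0 ≤ A := by rw [hA]; positivity
  set W := Wv H (Gr H 0 ζ) lam z w V with hW
  have hW0 : 0 ≤ W := Finset.sum_nonneg fun y _ => by positivity
  set c : X → ℂ := fun x => kx ν s2 H lam z g x V * Gv H lam z V x w with hc
  have hck : ∀ x, ‖c x‖ ≤ K * ‖Gv H lam z V x w‖ := by
    intro x
    rw [hc]
    simp only [norm_mul]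
    refine mul_le_mul_of_nonneg_right ?_ (norm_nonneg _)
    rw [hK, hκ]
    refine kx_le hν h.hH h.hz hlam hV hb2 ?_ x (hr.dg x) (hr.gd x)
    have := h.sm
    linarith
  have h4 := s1c_four h hr w hK0 c hck
  rw [← hA] at h4
  have hPz : ∀ y, ‖Pz H (Gr H 0 ζ) lam z w P V y‖ = W ^ P * ‖Zv H (Gr H 0 ζ) lam z w V y‖ ^ 3 := by
    intro y
    unfold Pz
    rw [norm_mul, norm_pow, norm_mul, norm_pow, RCLike.norm_conj, Complex.norm_real,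
      Real.norm_eq_abs, abs_of_nonneg hW0]
    ring
  have hstep : ‖∑ y, Pz H (Gr H 0 ζ) lam z w P V y * ∑ x, Gr H 0 ζ y x * c x‖ ≤
      W ^ P * (W ^ (3 / 4 : ℝ) * (∑ y, ‖(Gr H 0 ζ *ᵥ c) y‖ ^ 4) ^ (1 / 4 : ℝ)) := by
    calc ‖∑ y, Pz H (Gr H 0 ζ) lam z w P V y * ∑ x, Gr H 0 ζ y x * c x‖
        ≤ ∑ y, ‖Pz H (Gr H 0 ζ) lam z w P V y * ∑ x, Gr H 0 ζ y x * c x‖ := norm_sum_le _ _
      _ = W ^ P * ∑ y, ‖Zv H (Gr H 0 ζ) lam z w V y‖ ^ 3 * ‖(Gr H 0 ζ *ᵥ c) y‖ := by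
          rw [Finset.mul_sum]
          refine Finset.sum_congr rfl fun y _ => ?_
          rw [norm_mul, hPz, mul_assoc]
          rfl
      _ ≤ _ := mul_le_mul_of_nonneg_left (s1c_hold _ _ (fun y => norm_nonneg _)
          (fun y => norm_nonneg _)) (by positivity)
  have hfour : (∑ y, ‖(Gr H 0 ζ *ᵥ c) y‖ ^ 4) ^ (1 / 4 : ℝ) ≤ K * A ^ (1 / 2 : ℝ) := by
    refine (Real.rpow_le_rpow (by positivity) h4 (by norm_num)).trans (le_of_eq ?_)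
    rw [Real.mul_rpow (by positivity) (by positivity), ← Real.rpow_natCast K 4,
      ← Real.rpow_natCast A 2, ← Real.rpow_mul hK0, ← Real.rpow_mul hA0]
    norm_num
  have hWW : W ^ P * W ^ (3 / 4 : ℝ) ≤ (W + ω) ^ (P + 1) * ω ^ (-(1 / 4) : ℝ) := by
    have hWω : 0 < W + ω := by linarith
    have a1 : W ^ P ≤ (W + ω) ^ P := pow_le_pow_left₀ hW0 (by linarith) P
    have a2 : W ^ (3 / 4 : ℝ) ≤ (W + ω) ^ (3 / 4 : ℝ) :=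
      Real.rpow_le_rpow hW0 (by linarith) (by norm_num)
    have a3 : (W + ω) ^ (3 / 4 : ℝ) = (W + ω) * (W + ω) ^ (-(1 / 4) : ℝ) := by
      have := Real.rpow_add hWω 1 (-(1 / 4))
      rw [Real.rpow_one] at this
      rw [← this]
      norm_num
    have a4 : (W + ω) ^ (-(1 / 4) : ℝ) ≤ ω ^ (-(1 / 4) : ℝ) :=
      Real.rpow_le_rpow_of_nonpos hω0 (by linarith) (by norm_num)
    calc W ^ P * W ^ (3 / 4 : ℝ) ≤ (W + ω) ^ P * (W + ω) ^ (3 / 4 : ℝ) :=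
          mul_le_mul a1 a2 (by positivity) (by positivity)
      _ = (W + ω) ^ (P + 1) * (W + ω) ^ (-(1 / 4) : ℝ) := by rw [a3, pow_succ]; ring
      _ ≤ _ := mul_le_mul_of_nonneg_left a4 (by positivity)
  calc ‖∑ y, Pz H (Gr H 0 ζ) lam z w P V y *
        ∑ x, Gr H 0 ζ y x * (kx ν s2 H lam z g x V * Gv H lam z V x w)‖
      ≤ W ^ P * (W ^ (3 / 4 : ℝ) * (∑ y, ‖(Gr H 0 ζ *ᵥ c) y‖ ^ 4) ^ (1 / 4 : ℝ)) := hstep
    _ ≤ W ^ P * (W ^ (3 / 4 : ℝ) * (K * A ^ (1 / 2 : ℝ))) := by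
        gcongr
    _ = (W ^ P * W ^ (3 / 4 : ℝ)) * (K * A ^ (1 / 2 : ℝ)) := by ring
    _ ≤ ((W + ω) ^ (P + 1) * ω ^ (-(1 / 4) : ℝ)) * (K * A ^ (1 / 2 : ℝ)) :=
        mul_le_mul_of_nonneg_right hWW (by positivity)
    _ = _ := by
        unfold Ga0
        rw [← hκ, ← hA, hK]
        ring

end Pool.Agent.BK3
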