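import Pool.Agent.BK3.CDefs3
import Pool.Agent.BK.TorCT

/-! BK3 module Wt: the weights `phi r x = exp(-|x|₁/r)`, `|x|₁ = ∑ |valMinAbs x_l|`, on the torus.
`|valMinAbs (a + b)| ≤ |valMinAbs a| + |valMinAbs b|` (minimality of `valMinAbs`), `valMinAbs (-a) = -valMinAbs a`
(odd modulus, see `orthA_neg`). `∑_x phi r x = (∑_{|m| ≤ n} exp(-|m|/r))^d ≤ (4 r)^d` for `r ≥ 1`:
`∑_{m ∈ ℤ} exp(-|m|/r) ≤ 1 + 2/(exp(1/r) - 1) ≤ 1 + 2 r`. -/

open MeasureTheory Finset Matrix Pool.Agent.BK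

noncomputable section

namespace Pool.Agent.BK3

variable {d n : ℕ}

/-- The norm `|x|₁`. -/
def wtN (x : Tor d n) : ℝ := ∑ l, |((x l).valMinAbs : ℝ)|

lemma wt_phi (r : ℝ) (x : Tor d n) : phi r x = Real.exp (-(wtN x) / r) := rfl

lemma wt_abs {m : ℕ} (a : ZMod m) : |(a.valMinAbs : ℝ)| = (a.valMinAbs.natAbs : ℝ) := by
  rw [Nat.cast_natAbs, Int.cast_abs]

lemma wt_nn (x : Tor d n) : 0 ≤ wtN x := Finset.sum_nonneg fun _ _ => abs_nonneg _

lemma wt_neg (x : Tor d n) : wtN (-x) = wtN x := by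
  unfold wtN
  refine Finset.sum_congr rfl fun l _ => ?_
  rw [wt_abs, wt_abs, Pi.neg_apply, ZMod.natAbs_valMinAbs_neg]

lemma wt_add (x y : Tor d n) : wtN (x + y) ≤ wtN x + wtN y := by
  unfold wtN
  rw [← Finset.sum_add_distrib]
  refine Finset.sum_le_sum fun l _ => ?_
  rw [wt_abs, wt_abs, wt_abs, Pi.add_apply]
  have h1 := (ZMod.natAbs_valMinAbs_add_le (x l) (y l)).trans
    (Int.natAbs_add_le (x l).valMinAbs (y l).valMinAbs)
  exact_mod_cast h1

lemma wt_single (j : Fin d) : wtN (Pi.single j 1 : Tor d n) ≤ 1 := by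
  unfold wtN
  rw [Finset.sum_eq_single j]
  · rw [Pi.single_eq_same, wt_abs]
    have h1 : ((1 : ZMod (2 * n + 1)).valMinAbs).natAbs ≤ 1 := by
      have := ZMod.natAbs_min_of_le_div_two (2 * n + 1) (1 : ZMod (2 * n + 1)).valMinAbs 1 (by simp)
        (ZMod.natAbs_valMinAbs_le _)
      simpa using this
    exact_mod_cast h1
  · intro l _ hl
    rw [Pi.single_eq_of_ne hl]
    simp
  · intro h
    exact absurd (Finset.mem_univ j) h

lemma wt_move {r : ℝ} (hr : 0 < r) (x t : Tor d n) :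
    phi r x ≤ Real.exp (wtN t / r) * phi r (x + t) := by
  rw [wt_phi, wt_phi, ← Real.exp_add]
  apply Real.exp_le_exp.2
  rw [← add_div]
  apply div_le_div_of_nonneg_right _ hr.le
  have := wt_add x t
  linarith

lemma wgt_ph2 {r : ℝ} (hr : 0 < r) : Wgt (ph2 (d := d) (n := n) r) where
  pos _ _ := Real.exp_pos _
  le x y := by
    unfold ph2
    rw [wt_phi]
    apply Real.exp_le_one_iff.2
    have := wt_nn (y - x)
    rw [neg_div]
    have h2 : 0 ≤ wtN (y - x) / r := div_nonneg this hr.le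
    linarith
  symm x y := by
    unfold ph2
    rw [wt_phi, wt_phi, ← wt_neg (y - x), neg_sub]

lemma phi_mul_le {r : ℝ} (hr : 0 < r) (x y : Tor d n) : phi r x * phi r y ≤ phi r (x + y) := by
  rw [wt_phi, wt_phi, wt_phi, ← Real.exp_add]
  apply Real.exp_le_exp.2
  rw [← add_div]
  apply div_le_div_of_nonneg_right _ hr.le
  have := wt_add x y
  linarith

lemma ph2_add {r : ℝ} (y x t : Tor d n) : ph2 r (y + t) (x + t) = ph2 r y x := by
  unfold ph2
  rw [add_sub_add_right_eq_sub]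

/-- Neighbours: the weight changes by at most the factor `e`. -/
lemma ph2_nbr {r : ℝ} (hr : 1 ≤ r) (y x : Tor d n) (j : Fin d) :
    ph2 r y x ≤ Real.exp 1 * ph2 r y (x + Pi.single j 1) ∧
      ph2 r y x ≤ Real.exp 1 * ph2 r y (x - Pi.single j 1) := by
  have hr0 : 0 < r := by linarith
  have key : ∀ t : Tor d n, wtN t ≤ 1 → Real.exp (wtN t / r) ≤ Real.exp 1 := by
    intro t ht
    apply Real.exp_le_exp.2
    rw [div_le_one hr0]
    linarith
  constructor
  · unfold ph2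
    refine (wt_move hr0 (x - y) (Pi.single j 1)).trans ?_
    rw [show x + Pi.single j 1 - y = x - y + Pi.single j 1 by abel]
    exact mul_le_mul_of_nonneg_right (key _ (wt_single j)) (Real.exp_pos _).le
  · unfold ph2
    refine (wt_move hr0 (x - y) (-Pi.single j 1)).trans ?_
    rw [show x - Pi.single j 1 - y = x - y + -Pi.single j 1 by abel]
    exact mul_le_mul_of_nonneg_right (key _ (by rw [wt_neg]; exact wt_single j))
      (Real.exp_pos _).le

lemma wt_geom {q : ℝ} (h0 : 0 ≤ q) (h1 : q < 1) (m : ℕ) :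
    ∑ k ∈ Finset.range m, q ^ k ≤ 1 / (1 - q) := by
  have h2 := geom_sum_mul q m
  rw [le_div_iff₀ (by linarith)]
  have h3 : 0 ≤ q ^ m := pow_nonneg h0 m
  linarith

lemma wt_sum1 {r : ℝ} (hr : 1 ≤ r) :
    ∑ m : ZMod (2 * n + 1), Real.exp (-|(m.valMinAbs : ℝ)| / r) ≤ 4 * r := by
  have hr0 : 0 < r := by linarith
  set q : ℝ := Real.exp (-(1 / r)) with hq
  have hq0 : 0 ≤ q := (Real.exp_pos _).le
  have hu : 0 < 1 / r := by positivity
  have hq2 : q ≤ 1 / (1 + 1 / r) := by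
    rw [hq, Real.exp_neg, ← one_div]
    apply one_div_le_one_div_of_le (by positivity)
    have := Real.add_one_le_exp (1 / r)
    linarith
  have hq1 : q < 1 := by
    refine lt_of_le_of_lt hq2 ?_
    rw [div_lt_one (by positivity)]
    linarith
  have hpow : ∀ m : ZMod (2 * n + 1), Real.exp (-|(m.valMinAbs : ℝ)| / r) =
      q ^ m.valMinAbs.natAbs := by
    intro m
    rw [hq, ← Real.exp_nat_mul, wt_abs]
    congr 1
    ring
  simp_rw [hpow]
  have hbd : ∀ m : ZMod (2 * n + 1), m.valMinAbs.natAbs ∈ Finset.range (n + 1) := by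
    intro m
    have := ZMod.natAbs_valMinAbs_le m
    rw [Finset.mem_range]
    omega
  have hinj : Function.Injective (fun m : ZMod (2 * n + 1) => m.valMinAbs) :=
    ZMod.injective_valMinAbs
  have hone : ∀ s : Finset (ZMod (2 * n + 1)),
      Set.InjOn (fun m : ZMod (2 * n + 1) => m.valMinAbs.natAbs) s →
      ∑ m ∈ s, q ^ m.valMinAbs.natAbs ≤ 1 / (1 - q) := by
    intro s hs
    refine le_trans ?_ (wt_geom hq0 hq1 (n + 1))
    rw [← Finset.sum_image (f := fun k => q ^ k) hs]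
    apply Finset.sum_le_sum_of_subset_of_nonneg
    · intro k hk
      obtain ⟨m, _, rfl⟩ := Finset.mem_image.1 hk
      exact hbd m
    · intro k _ _
      exact pow_nonneg hq0 k
  have h1 := hone (Finset.univ.filter fun m => 0 ≤ m.valMinAbs) (by
    intro a ha b hb hab
    simp only [coe_filter, mem_univ, true_and, Set.mem_ofPred_eq] at ha hb
    apply hinj
    simp only at hab ⊢
    omega)
  have h2 := hone (Finset.univ.filter fun m => ¬ 0 ≤ m.valMinAbs) (by
    intro a ha b hb hab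
    simp only [coe_filter, mem_univ, true_and, Set.mem_ofPred_eq] at ha hb
    apply hinj
    simp only at hab ⊢
    omega)
  rw [← Finset.sum_filter_add_sum_filter_not Finset.univ
    (fun m : ZMod (2 * n + 1) => 0 ≤ m.valMinAbs)]
  have h3 : 1 / (1 - q) ≤ 2 * r := by
    rw [div_le_iff₀ (by linarith)]
    have h4 : 1 - q ≥ 1 - 1 / (1 + 1 / r) := by linarith
    have h5 : 1 - 1 / (1 + 1 / r) = 1 / (r + 1) := by
      field_simp
      ring
    rw [h5] at h4
    have h6 : 1 ≤ 2 * r * (1 / (r + 1)) := by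
      rw [mul_one_div, le_div_iff₀ (by linarith)]
      linarith
    nlinarith
  linarith

lemma sum_phi_le {r : ℝ} (hr : 1 ≤ r) : ∑ x : Tor d n, phi r x ≤ (4 * r) ^ d := by
  have h1 : ∀ x : Tor d n, phi r x = ∏ l, Real.exp (-|((x l).valMinAbs : ℝ)| / r) := by
    intro x
    rw [wt_phi, ← Real.exp_sum]
    congr 1
    unfold wtN
    rw [← Finset.sum_div, Finset.sum_neg_distrib]
  simp_rw [h1]
  have h2 : ∑ x : Tor d n, ∏ l, Real.exp (-|((x l).valMinAbs : ℝ)| / r) =
      ∏ _l : Fin d, ∑ m : ZMod (2 * n + 1), Real.exp (-|(m.valMinAbs : ℝ)| / r) := by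
    rw [Finset.prod_univ_sum]
    simp
  rw [h2, Finset.prod_const, Finset.card_univ, Fintype.card_fin]
  exact pow_le_pow_left₀ (Finset.sum_nonneg fun _ _ => (Real.exp_pos _).le) (wt_sum1 hr) d

/-- Far weights: `φ_yx⁻¹ ≤ exp(d |x-y|_∞ / r)`. -/
lemma inv_ph2_le {r : ℝ} (hr : 0 < r) (y x : Tor d n) {a : ℝ}
    (h : ∀ l, |(((x - y) l).valMinAbs : ℝ)| ≤ a) : (ph2 r y x)⁻¹ ≤ Real.exp (d * a / r) := by
  unfold ph2
  rw [wt_phi, ← Real.exp_neg]
  apply Real.exp_le_exp.2
  rw [neg_div, neg_neg]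
  apply div_le_div_of_nonneg_right _ hr.le
  unfold wtN
  calc ∑ l, |(((x - y) l).valMinAbs : ℝ)| ≤ ∑ _l : Fin d, a := Finset.sum_le_sum fun l _ => h l
    _ = d * a := by rw [Finset.sum_const, Finset.card_univ, Fintype.card_fin, nsmul_eq_mul]

end Pool.Agent.BK3
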