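import Pool.Agent.BK3.StES
import Pool.Agent.BK3.StDg
import Pool.Agent.BK3.FD
import Pool.Agent.BK3.Wt
import Pool.Agent.BK.TorB

/-! BK3 module St3: the diagonal and the local masses are concentrated.
`st3`: `h = G_xx - g`, `a = 1 - 2y - 2t`, `δ_u = ee R lam G x x u = 4 R lam |G_xu|²` (`one_sub_le`), `∑ δ² ≤
16 R² lam² B = 16 R² lam^(2-4y-t) ≤ lam^(2a)`; `E[chi h] = -E[(1-chi) h]` because `E h = 0` (`Ex_diag`), bounded by
`(2/η) lam^D0` (`|G| ≤ 1/η`, `|g| ≤ 1/η`, `one_sub_chi`); crude: `2/η ≤ lam^(-4)`.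
`st4`: `h = lm_{w,y} - E lm_{w,y}`, `a = -2 + 48e`, `δ_u = b3 D3` (`fd3`, multiplied by `b3`), `∑ δ² ≤
b3² lam^(98e) ≤ lam^(2a)` (`dfr3`: `b3 = lam^(-2-e/4)`); crude: `lm ≤ ∑_x |G_wx|² ≤ 1/η² ≤ lam^(-6)` (`ward`),
so `|h| ≤ 2 lam^(-6)`; mean as before. -/

open MeasureTheory Finset Matrix Pool.Agent.BK

noncomputable section

namespace Pool.Agent.BK3

variable {ν : Measure ℝ} {R s2 : ℝ}

private lemma st3_mean (hν : BLaw ν R s2) (c : Cx) (hc : c.Ok) {lam1 : ℝ} (h1 : lam1 ≤ 1) (ℓ : ℕ)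
    {π : Par} (hπ : π ∈ c.S ν lam1) {f : (Tor c.d π.n → ℝ) → ℂ} (hf : Continuous f)
    (h0 : Ex ν f = 0) {M : ℝ} (hM : 0 ≤ M) (hK : ∀ V ∈ Box (Tor c.d π.n) R, ‖f V‖ ≤ M) :
    ‖Ex ν (fun V => (c.chi ν ℓ π V : ℂ) * f V)‖ ≤ M * π.lam ^ c.D0 := by
  obtain ⟨g0, g1, hη⟩ := ok_pos hc h1 hπ
  have cchi := continuous_chi c ν ℓ π hη
  have c1 : Continuous fun V => ((1 - c.chi ν ℓ π V : ℝ) : ℂ) * f V :=
    (Complex.continuous_ofReal.comp (continuous_const.sub cchi)).mul hf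
  have c2 : Continuous fun V => (1 - c.chi ν ℓ π V) := continuous_const.sub cchi
  have h2 : Ex ν (fun V => (c.chi ν ℓ π V : ℂ) * f V) =
      Ex ν f - Ex ν (fun V => ((1 - c.chi ν ℓ π V : ℝ) : ℂ) * f V) := by
    unfold Ex
    rw [← integral_sub (int_cont hν hf) (int_cont hν c1)]
    congr 1
    funext V
    push_cast
    ring
  rw [h2, h0, zero_sub, norm_neg]
  have h3 : ‖Ex ν (fun V => ((1 - c.chi ν ℓ π V : ℝ) : ℂ) * f V)‖ ≤
      Ex ν (fun V => M * (1 - c.chi ν ℓ π V)) := by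
    refine norm_Ex_le hν c1 (continuous_const.mul c2) fun V hV => ?_
    rw [norm_mul, Complex.norm_real, Real.norm_eq_abs,
      abs_of_nonneg (sub_nonneg.2 (chi_mem c ν ℓ π V).2), mul_comm]
    exact mul_le_mul_of_nonneg_right (hK V hV) (sub_nonneg.2 (chi_mem c ν ℓ π V).2)
  refine h3.trans ?_
  have h4 : Ex ν (fun V => M * (1 - c.chi ν ℓ π V)) = M * Ex ν (fun V => 1 - c.chi ν ℓ π V) := by
    unfold Ex
    rw [integral_const_mul]
  rw [h4]
  exact mul_le_mul_of_nonneg_left (one_sub_chi hν c ℓ hπ) hM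

private lemma st3_eta (c : Cx) (hc : c.Ok) {lam1 : ℝ} (h1 : lam1 ≤ 1) {π : Par}
    (hπ : π ∈ c.S ν lam1) : 1 / π.z.im ≤ π.lam ^ (-(3 : ℝ)) := by
  obtain ⟨g0, g1, hη⟩ := ok_pos hc h1 hπ
  have h2 : π.lam ^ c.A ≤ π.eta := hπ.1.2.2.2.2.2.2.1
  have h3 : π.lam ^ (3 : ℝ) ≤ π.lam ^ c.A := rp_anti g0 g1 hc.A3
  have h4 : 0 < π.lam ^ (3 : ℝ) := rp_pos g0 _
  rw [Real.rpow_neg g0.le, ← one_div]
  exact one_div_le_one_div_of_le h4 (h3.trans h2)

private lemma st3_e (c : Cx) (hc : c.Ok) : c.e ≤ 1 / 100 := by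
  have := hc.room
  have := hc.A2
  have := hc.y0
  linarith

private lemma st3_G (c : Cx) (hc : c.Ok) {lam1 : ℝ} (h1 : lam1 ≤ 1) {π : Par}
    (hπ : π ∈ c.S ν lam1) (V : Tor c.d π.n → ℝ) (x y : Tor c.d π.n) :
    ‖GG c.d π.n π.lam π.z V x y‖ ≤ π.lam ^ (-(3 : ℝ)) :=
  (norm_Gr_le (RS_H0 c.d π.n) _ (ok_pos hc h1 hπ).2.2 x y).trans (st3_eta c hc h1 hπ)

private lemma st3_g (hν : BLaw ν R s2) (c : Cx) (hc : c.Ok) {lam1 : ℝ} (h1 : lam1 ≤ 1) {π : Par}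
    (hπ : π ∈ c.S ν lam1) : ‖gb ν c.d π‖ ≤ π.lam ^ (-(3 : ℝ)) := by
  obtain ⟨g0, g1, hη⟩ := ok_pos hc h1 hπ
  have h2 := norm_Ex_le (X := Tor c.d π.n) hν
    (F := fun V => GG c.d π.n π.lam π.z V 0 0) (G := fun _ => π.lam ^ (-(3 : ℝ)))
    ((continuous_Gr (RS_H0 c.d π.n) π.lam (z := π.z) hη.ne').matrix_elem 0 0)
    continuous_const (fun V _ => st3_G c hc h1 hπ V 0 0)
  rw [Ex_one hν] at h2
  exact h2

private lemma st3_cG (c : Cx) {π : Par} (hη : 0 < π.eta) (x y : Tor c.d π.n) :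
    Continuous fun V : Tor c.d π.n → ℝ => GG c.d π.n π.lam π.z V x y :=
  (continuous_Gr (RS_H0 c.d π.n) π.lam (z := π.z) hη.ne').matrix_elem x y

private lemma st3_half (hν : BLaw ν R s2) (c : Cx) (hc : c.Ok) (ℓ : ℕ) :
    ∃ lam1 : ℝ, 0 < lam1 ∧ lam1 ≤ 1 ∧ ∀ π ∈ c.S ν lam1, ∀ V : Tor c.d π.n → ℝ,
      c.chi ν ℓ π V ≠ 0 → ∀ u,
        2 * R * π.lam * ‖Gv (H0 c.d π.n) π.lam π.z V u u‖ ≤ 1 / 2 := by
  have he := hc.e0
  have he1 := st3_e c hc
  obtain ⟨l1, hl1, hl11, hreg⟩ := regc hν c hc ℓ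
  obtain ⟨l2, hl2, hl21, hsm⟩ := sm_one (4 * R) (a := 1 - 3 * c.t) (by unfold Cx.t; linarith)
  refine ⟨min l1 l2, by positivity, (min_le_left _ _).trans hl11, fun π hπ V hV u => ?_⟩
  have hπ1 := c.S_mono ν (min_le_left _ _) hπ
  obtain ⟨g0, g1, hη⟩ := ok_pos hc hl11 hπ1
  have h1 := (hreg π hπ1 V hV).gd u
  have h2 := hsm π.lam g0 (hπ.1.2.1.trans (min_le_right _ _))
  have h3 : π.lam * c.Gd π.lam = π.lam ^ (1 - 3 * c.t) := by
    rw [Cx.Gd]
    conv_lhs => rw [← Real.rpow_one π.lam]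
    rw [Real.rpow_one, ← Real.rpow_one_add' g0.le]
    · congr 1
    · unfold Cx.t
      linarith
  have hR := hν.R_ge
  have h4 : 2 * R * π.lam * ‖Gv (H0 c.d π.n) π.lam π.z V u u‖ ≤
      2 * R * π.lam * c.Gd π.lam := mul_le_mul_of_nonneg_left h1 (by positivity)
  calc _ ≤ _ := h4
    _ = 4 * R * (π.lam * c.Gd π.lam) / 2 := by ring
    _ ≤ 1 / 2 := by rw [h3]; linarith

theorem st3 (hν : BLaw ν R s2) (c : Cx) (hc : c.Ok) :
    DomF c ν (fun π => Tor c.d π.n) (fun π x V => ‖GG c.d π.n π.lam π.z V x x - gb ν c.d π‖)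
      (1 - 2 * c.y - 2 * c.t) := by
  have hprob := hν.prob
  have he := hc.e0
  have he1 := st3_e c hc
  have hR := hν.R_ge
  have hR0 : 0 ≤ R := by linarith
  have hy : 0 ≤ c.y := by
    unfold Cx.y
    linarith [hc.y0]
  have ht : 0 < c.t := by unfold Cx.t; positivity
  have hdd : (3 : ℝ) ≤ c.d := by exact_mod_cast hc.d3
  obtain ⟨l0, hl0, hl01, hsm0⟩ := sm_neg 2 (a := 1) one_pos
  have hcr : ∀ π ∈ c.S ν l0, ∀ x : Tor c.d π.n, ∀ V : Tor c.d π.n → ℝ,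
      ‖GG c.d π.n π.lam π.z V x x - gb ν c.d π‖ ≤ π.lam ^ (-(4 : ℝ)) := by
    intro π hπ x V
    obtain ⟨g0, g1, hη⟩ := ok_pos hc hl01 hπ
    have h2 := hsm0 π.lam g0 hπ.1.2.1
    calc _ ≤ ‖GG c.d π.n π.lam π.z V x x‖ + ‖gb ν c.d π‖ := norm_sub_le _ _
      _ ≤ π.lam ^ (-(3 : ℝ)) + π.lam ^ (-(3 : ℝ)) :=
        add_le_add (st3_G c hc hl01 hπ V x x) (st3_g hν c hc hl01 hπ)
      _ = 2 * π.lam ^ (-(3 : ℝ)) := by ring
      _ ≤ π.lam ^ (-(1 : ℝ)) * π.lam ^ (-(3 : ℝ)) :=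
        mul_le_mul_of_nonneg_right h2 (rp_pos g0 _).le
      _ = π.lam ^ (-(4 : ℝ)) := by
        rw [← Real.rpow_add g0]
        norm_num
  refine stES hν hc (h := fun π x V => GG c.d π.n π.lam π.z V x x - gb ν c.d π)
    (δ := fun π x u V => ee R π.lam (GG c.d π.n π.lam π.z V) x x u)
    (a := 1 - 2 * c.y - 2 * c.t) (K := 4) ?_ (stDg hν c hc)
  refine ⟨?_, ?_, ?_, ?_, ?_, ?_, ?_⟩
  · intro π hη x
    exact (st3_cG c hη x x).sub continuous_const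
  · intro π hη x u
    unfold ee
    exact (continuous_const.mul (st3_cG c hη x u).norm).mul (st3_cG c hη u x).norm
  · intro π hl x u V
    unfold ee
    positivity
  · exact ⟨l0, hl0, fun π hπ x V _ => hcr π hπ x V⟩
  · intro ℓ
    obtain ⟨l1, hl1, hl11, hhalf⟩ := st3_half hν c hc ℓ
    refine ⟨l1, hl1, fun π hπ x V hV hchi u t ht' => ?_⟩
    obtain ⟨g0, g1, hη⟩ := ok_pos hc hl11 hπ
    have h2 := one_sub_le (lam := π.lam) (z := π.z) (RS_H0 c.d π.n) hη.ne' hR0 g0.le hV ht'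
      (hhalf π hπ V hchi u) x x
    have h3 : (GG c.d π.n π.lam π.z V x x - gb ν c.d π) -
        (GG c.d π.n π.lam π.z (Function.update V u t) x x - gb ν c.d π) =
        Gv (H0 c.d π.n) π.lam π.z V x x -
          Gv (H0 c.d π.n) π.lam π.z (Function.update V u t) x x := by
      rw [sub_sub_sub_cancel_right]
      rfl
    rw [h3]
    exact h2
  · intro ℓ
    obtain ⟨l1, hl1, hl11, hreg⟩ := regc hν c hc ℓ
    obtain ⟨l2, hl2, hl21, hsm⟩ := sm_le (16 * R ^ 2) (a := 2 * (1 - 2 * c.y - 2 * c.t))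
      (b := 2 - 4 * c.y - c.t) (by linarith)
    refine ⟨min l1 l2, by positivity, fun π hπ x V _ hchi => ?_⟩
    have hπ1 := c.S_mono ν (min_le_left _ _) hπ
    obtain ⟨g0, g1, hη⟩ := ok_pos hc hl11 hπ1
    have h1 := (hreg π hπ1 V hchi).g4 x
    have h2 := hsm π.lam g0 (hπ.1.2.1.trans (min_le_right _ _))
    have h3 : ∑ u, ee R π.lam (GG c.d π.n π.lam π.z V) x x u ^ 2 =
        16 * R ^ 2 * π.lam ^ 2 * G4 (Gv (H0 c.d π.n) π.lam π.z V) x := by
      unfold G4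
      rw [Finset.mul_sum]
      refine Finset.sum_congr rfl fun u _ => ?_
      have h4 : GG c.d π.n π.lam π.z V u x = Gv (H0 c.d π.n) π.lam π.z V x u :=
        Gr_symm (RS_H0 c.d π.n) _ hη.ne' u x
      have h5 : GG c.d π.n π.lam π.z V x u = Gv (H0 c.d π.n) π.lam π.z V x u := rfl
      unfold ee
      rw [h4, h5]
      ring
    rw [h3]
    calc _ ≤ 16 * R ^ 2 * π.lam ^ 2 * c.B π.lam := mul_le_mul_of_nonneg_left h1 (by positivity)
      _ = 16 * R ^ 2 * π.lam ^ (2 - 4 * c.y - c.t) := by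
        rw [Cx.B, mul_assoc, ← Real.rpow_natCast π.lam 2, ← Real.rpow_add g0]
        congr 2
        push_cast
        ring
      _ ≤ _ := h2
      _ = _ := by
        rw [rp_pow g0]
        norm_num
  · intro ℓ
    refine ⟨l0, hl0, fun π hπ (x : Tor c.d π.n) => ?_⟩
    obtain ⟨g0, g1, hη⟩ := ok_pos hc hl01 hπ
    have h2 := st3_mean hν c hc hl01 ℓ hπ
      (f := fun V => GG c.d π.n π.lam π.z V x x - gb ν c.d π)
      ((st3_cG c hη x x).sub continuous_const) ?_ (rp_pos g0 (-(4 : ℝ))).le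
      (fun V _ => hcr π hπ x V)
    · refine h2.trans ?_
      rw [← Real.rpow_add g0]
      refine rp_anti g0 g1 ?_
      have := hc.D00
      nlinarith
    · have h3 := Ex_diag ν π.lam π.z x
      have h4 : Integrable (fun _ : Tor c.d π.n → ℝ => gb ν c.d π)
          (Measure.pi fun _ : Tor c.d π.n => ν) := integrable_const _
      unfold Ex at h3 ⊢
      rw [integral_sub (int_cont hν (st3_cG c hη x x)) h4, h3]
      simp only [integral_const, probReal_univ, one_smul]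
      exact sub_self _

private lemma st3_lm0 (c : Cx) {π : Par} (A : Matrix (Tor c.d π.n) (Tor c.d π.n) ℂ)
    (w y : Tor c.d π.n) : 0 ≤ lm (ph2 (c.rw π.lam)) A w y :=
  Finset.sum_nonneg fun x _ => mul_nonneg (Real.exp_pos _).le (sq_nonneg _)

private def st4h (c : Cx) (ν : Measure ℝ) (π : Par) (i : Tor c.d π.n × Tor c.d π.n)
    (V : Tor c.d π.n → ℝ) : ℂ :=
  ((lm (ph2 (c.rw π.lam)) (GG c.d π.n π.lam π.z V) i.1 i.2 -
    Ex ν (fun V : Tor c.d π.n → ℝ =>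
      lm (ph2 (c.rw π.lam)) (GG c.d π.n π.lam π.z V) i.1 i.2) : ℝ) : ℂ)

private def st4δ (c : Cx) (R : ℝ) (π : Par) (i : Tor c.d π.n × Tor c.d π.n)
    (u : Tor c.d π.n) (V : Tor c.d π.n → ℝ) : ℝ :=
  c.b3 π.lam * D3 (ph2 (c.rw π.lam)) R π.lam (c.b3 π.lam)
    (GG c.d π.n π.lam π.z V) i.1 i.2 u

theorem st4 (hν : BLaw ν R s2) (c : Cx) (hc : c.Ok) :
    DomF c ν (fun π => Tor c.d π.n × Tor c.d π.n)
      (fun π i V => |lm (ph2 (c.rw π.lam)) (GG c.d π.n π.lam π.z V) i.1 i.2 -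
        Ex ν (fun V : Tor c.d π.n → ℝ =>
          lm (ph2 (c.rw π.lam)) (GG c.d π.n π.lam π.z V) i.1 i.2)|) (-2 + 48 * c.e) := by
  have hprob := hν.prob
  have he := hc.e0
  have he1 := st3_e c hc
  have hR := hν.R_ge
  have hR0 : 0 ≤ R := by linarith
  have hdd : (3 : ℝ) ≤ c.d := by exact_mod_cast hc.d3
  obtain ⟨l0, hl0, hl01, hsm0⟩ := sm_neg 2 (a := 1) one_pos
  have clm : ∀ π : Par, 0 < π.eta → ∀ w y : Tor c.d π.n, Continuous fun V : Tor c.d π.n → ℝ =>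
      lm (ph2 (c.rw π.lam)) (GG c.d π.n π.lam π.z V) w y := by
    intro π hη w y
    unfold lm
    exact continuous_finsetSum _ fun x _ => continuous_const.mul ((st3_cG c hη w x).norm.pow 2)
  have hlm : ∀ π ∈ c.S ν l0, ∀ w y : Tor c.d π.n, ∀ V : Tor c.d π.n → ℝ,
      lm (ph2 (c.rw π.lam)) (GG c.d π.n π.lam π.z V) w y ≤ π.lam ^ (-(6 : ℝ)) := by
    intro π hπ w y V
    obtain ⟨g0, g1, hη⟩ := ok_pos hc hl01 hπ
    have hφ := wgt_ph2 (d := c.d) (n := π.n) (r := c.rw π.lam) (rp_pos g0 _)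
    have h1 : lm (ph2 (c.rw π.lam)) (GG c.d π.n π.lam π.z V) w y ≤
        ∑ x, ‖GG c.d π.n π.lam π.z V w x‖ ^ 2 := by
      unfold lm
      refine Finset.sum_le_sum fun x _ => ?_
      have := mul_le_mul_of_nonneg_right (hφ.le y x)
        (sq_nonneg ‖GG c.d π.n π.lam π.z V w x‖)
      rwa [one_mul] at this
    have h2 : ∑ x, ‖GG c.d π.n π.lam π.z V w x‖ ^ 2 =
        (GG c.d π.n π.lam π.z V w w).im / π.z.im :=
      ward (RS_H0 c.d π.n) _ hη w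
    have hη' : 0 < π.z.im := hη
    have h3 : (GG c.d π.n π.lam π.z V w w).im / π.z.im ≤
        π.lam ^ (-(3 : ℝ)) * π.lam ^ (-(3 : ℝ)) := by
      rw [div_eq_mul_one_div]
      refine mul_le_mul ?_ (st3_eta c hc hl01 hπ) (by positivity) (rp_pos g0 _).le
      exact (le_abs_self _).trans ((Complex.abs_im_le_norm _).trans (st3_G c hc hl01 hπ V w w))
    calc _ ≤ _ := h1
      _ = _ := h2
      _ ≤ _ := h3
      _ = _ := by
        rw [← Real.rpow_add g0]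
        norm_num
  have hEl : ∀ π ∈ c.S ν l0, ∀ w y : Tor c.d π.n,
      0 ≤ Ex ν (fun V : Tor c.d π.n → ℝ =>
        lm (ph2 (c.rw π.lam)) (GG c.d π.n π.lam π.z V) w y) ∧
      Ex ν (fun V : Tor c.d π.n → ℝ =>
        lm (ph2 (c.rw π.lam)) (GG c.d π.n π.lam π.z V) w y) ≤ π.lam ^ (-(6 : ℝ)) := by
    intro π hπ w y
    obtain ⟨g0, g1, hη⟩ := ok_pos hc hl01 hπ
    refine ⟨Ex_box_nonneg hν fun V _ => st3_lm0 c _ _ _, ?_⟩
    have h2 := Ex_box_mono (X := Tor c.d π.n) hν (clm π hη w y)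
      (G := fun _ => π.lam ^ (-(6 : ℝ))) continuous_const (fun V _ => hlm π hπ w y V)
    rwa [Ex_one hν] at h2
  have hcr : ∀ π ∈ c.S ν l0, ∀ i : Tor c.d π.n × Tor c.d π.n, ∀ V : Tor c.d π.n → ℝ,
      ‖st4h c ν π i V‖ ≤ π.lam ^ (-(7 : ℝ)) := by
    intro π hπ i V
    obtain ⟨g0, g1, hη⟩ := ok_pos hc hl01 hπ
    have h2 := hsm0 π.lam g0 hπ.1.2.1
    obtain ⟨h3, h4⟩ := hEl π hπ i.1 i.2
    have h5 := hlm π hπ i.1 i.2 V
    have h6 := st3_lm0 c (π := π) (GG c.d π.n π.lam π.z V) i.1 i.2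
    rw [st4h, Complex.norm_real, Real.norm_eq_abs]
    have h7 : 0 < π.lam ^ (-(6 : ℝ)) := rp_pos g0 _
    have h8 : 2 * π.lam ^ (-(6 : ℝ)) ≤ π.lam ^ (-(7 : ℝ)) := by
      calc _ ≤ π.lam ^ (-(1 : ℝ)) * π.lam ^ (-(6 : ℝ)) :=
            mul_le_mul_of_nonneg_right h2 h7.le
        _ = _ := by
          rw [← Real.rpow_add g0]
          norm_num
    rw [abs_le]
    constructor <;> linarith
  have hES : ESH c ν R (fun π => Tor c.d π.n × Tor c.d π.n) (st4h c ν) (st4δ c R)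
      (-2 + 48 * c.e) 7 := by
    refine ⟨?_, ?_, ?_, ?_, ?_, ?_, ?_⟩
    · intro π hη i
      exact Complex.continuous_ofReal.comp ((clm π hη i.1 i.2).sub continuous_const)
    · intro π hη i u
      unfold st4δ D3 Bm
      refine continuous_const.mul (Continuous.div_const ?_ _)
      refine Continuous.add ?_ ?_
      · refine (continuous_const.mul (st3_cG c hη i.1 u).norm).mul (Continuous.norm ?_)
        exact continuous_finsetSum _ fun x _ => ((st3_cG c hη u x).mul continuous_const).mul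
          (Complex.continuous_conj.comp (st3_cG c hη i.1 x))
      · exact (continuous_const.mul ((st3_cG c hη i.1 u).norm.pow 2)).mul (clm π hη u i.2)
    · intro π hl i u V
      have hb3 : 0 < c.b3 π.lam := rp_pos hl _
      have := st3_lm0 c (π := π) (GG c.d π.n π.lam π.z V) u i.2
      unfold st4δ D3
      positivity
    · exact ⟨l0, hl0, fun π hπ i V _ => hcr π hπ i V⟩
    · intro ℓ
      obtain ⟨l1, hl1, hl11, hhalf⟩ := st3_half hν c hc ℓ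
      refine ⟨l1, hl1, fun π hπ i V hV hchi u t ht' => ?_⟩
      obtain ⟨g0, g1, hη⟩ := ok_pos hc hl11 hπ
      have hb3 : 0 < c.b3 π.lam := rp_pos g0 _
      have h2 := fd3 (lam := π.lam) (z := π.z) (RS_H0 c.d π.n) hη.ne' hR0 g0.le hV ht'
        (hhalf π hπ V hchi u) hb3 (wgt_ph2 (r := c.rw π.lam) (rp_pos g0 _)) i.1 i.2
      rw [st4h, st4h, ← Complex.ofReal_sub, Complex.norm_real, Real.norm_eq_abs,
        sub_sub_sub_cancel_right]
      rw [← sub_div, abs_div, abs_of_pos hb3, div_le_iff₀ hb3] at h2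
      refine LE.le.trans h2 (le_of_eq ?_)
      unfold st4δ
      exact mul_comm _ _
    · intro ℓ
      obtain ⟨l1, hl1, hl11, hd3⟩ := dfr3 hν c hc ℓ
      refine ⟨l1, hl1, fun π hπ i V _ hchi => ?_⟩
      obtain ⟨g0, g1, hη⟩ := ok_pos hc hl11 hπ
      have h2 := (hd3 π hπ V hchi).2 i.1 i.2
      simp_rw [st4δ, mul_pow]
      rw [← Finset.mul_sum]
      calc _ ≤ c.b3 π.lam ^ 2 * (π.lam ^ (49 * c.e)) ^ 2 :=
            mul_le_mul_of_nonneg_left h2 (sq_nonneg _)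
        _ = (π.lam ^ (-2 - c.e / 4 + 49 * c.e)) ^ 2 := by
          rw [← mul_pow, Cx.b3, ← Real.rpow_add g0]
        _ ≤ _ := pow_le_pow_left₀ (rp_pos g0 _).le (rp_anti g0 g1 (by linarith)) 2
    · intro ℓ
      refine ⟨l0, hl0, fun π hπ i => ?_⟩
      obtain ⟨g0, g1, hη⟩ := ok_pos hc hl01 hπ
      have h2 := st3_mean hν c hc hl01 ℓ hπ
        (f := st4h c ν π i)
        (Complex.continuous_ofReal.comp ((clm π hη i.1 i.2).sub continuous_const)) ?_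
        (rp_pos g0 (-(7 : ℝ))).le (fun V _ => hcr π hπ i V)
      · refine h2.trans ?_
        rw [← Real.rpow_add g0]
        refine rp_anti g0 g1 ?_
        have := hc.D00
        nlinarith
      · unfold st4h Ex
        rw [integral_complex_ofReal, integral_sub (int_cont hν (clm π hη i.1 i.2)) (integrable_const _)]
        simp only [integral_const, probReal_univ, one_smul]
        rw [sub_self, Complex.ofReal_zero]
  have key := stES hν hc hES (stDg hν c hc)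
  intro p ℓ ε hε
  obtain ⟨C, l, hC, hl, G⟩ := key p ℓ ε hε
  refine ⟨C, l, hC, hl, fun π hπ i => ?_⟩
  have h1 := G π hπ i
  simp only [st4h, Complex.norm_real, Real.norm_eq_abs] at h1
  exact h1

end Pool.Agent.BK3
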