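import Pool.Agent.BK3.Wt
import Pool.Agent.BK3.Exch
import Pool.Agent.BK3.Sm

/-! BK3 module ZF: for good parameters and small `lam` all facts `Cx.Z`.
(1) `P(F > 2) ≤ lam^D0 < 1` and the box has full measure, so there is `V` in the box with `F(V) ≤ 2`; each
term of `F` is at most `2` (`p ≥ 1`), so `|G_xx - g| ≤ 2 b2`, `|G_xx| ≤ G4^(1/4) ≤ (2 b4)^(1/4) ≤ 2 lam^(-y)`,
and `|g| ≤ 2 lam^(-y) + 2 b2 ≤ 3 lam^(-y)`.
(2) `ζ = z + lam² s2 g`: `Im ζ = η + lam² s2 Im g ≥ (κ/4) s2 lam²`, `Im ζ ≤ κ/2 + 3 s2 lam^(2-y) ≤ κ`,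
`|Re ζ - E| ≤ 3 s2 lam^(2-y)`; `(Im ζ)^(-10) ≤ (κ s2/4)^(-10) lam^(-20) ≤ lam^(-40)`.
(3) the radius: `rw = lam^(-2 - e/(40d)) ≥ (Im ζ)^(-(1+ς))` with `ς = e/(200 d)` and `16 d ≤ rw Im ζ`;
then the fields `wq, w2, l4` of `FreeC` with `ε = t/4` (`Im ζ ≥ c lam²`), and `|M_xx| ≤ (∑|M|⁴)^(1/4)`. -/

open MeasureTheory Finset Matrix Pool.Agent.BK

noncomputable section

namespace Pool.Agent.BK3

/-- Some potential in the box has `F ≤ 2`. -/
lemma zf_exists {ν : Measure ℝ} {R s2 : ℝ} (hν : BLaw ν R s2) (c : Cx) (hc : c.Ok) {lam1 : ℝ}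
    {π : Par} (hπ : π ∈ c.S ν lam1) (h1 : π.lam < 1) :
    ∃ V ∈ Box (Tor c.d π.n) R, c.F ν π V ≤ 2 := by
  by_contra hcon
  push Not at hcon
  have := hν.prob
  have h2 : ∀ᵐ V ∂(Measure.pi fun _ : Tor c.d π.n => ν), V ∈ {V | 2 < c.F ν π V} := by
    filter_upwards [box_ae (X := Tor c.d π.n) hν] with V hV
    exact hcon V hV
  have h3 : (Measure.pi fun _ : Tor c.d π.n => ν) {V | 2 < c.F ν π V} = 1 := by
    refine le_antisymm prob_le_one ?_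
    rw [← measure_univ (μ := Measure.pi fun _ : Tor c.d π.n => ν)]
    refine measure_mono_ae ?_
    filter_upwards [h2] with V hV _
    exact hV
  have h4 := hπ.2.1
  rw [h3, ENNReal.toReal_one] at h4
  have h0 : 0 < π.lam := hπ.1.1
  have h5 : π.lam ^ c.D0 < 1 := by
    apply Real.rpow_lt_one h0.le h1
    have := hc.D00
    have h6 : (3 : ℝ) ≤ c.d := by exact_mod_cast hc.d3
    linarith
  linarith

lemma zf_le_two {x F : ℝ} {p : ℕ} (hp : 1 ≤ p) (h : x ^ p ≤ F) (hF : F ≤ 2) : x ≤ 2 := by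
  by_contra hx
  push Not at hx
  have h1 : x ≤ x ^ p := le_self_pow₀ (by linarith) (by omega)
  linarith

/-- The bound of `g`. -/
lemma zf_g {ν : Measure ℝ} {R s2 : ℝ} (hν : BLaw ν R s2) (c : Cx) (hc : c.Ok) :
    ∃ lam1 : ℝ, 0 < lam1 ∧ lam1 ≤ 1 ∧ ∀ π ∈ c.S ν lam1, ‖gb ν c.d π‖ ≤ 3 * π.lam ^ (-c.y) := by
  have he := hc.e0
  have hy0 := hc.y0
  have hylt : c.y0 + 50 * c.e ≤ 1 / 2 := by linarith [hc.room, hc.A2]
  have hd3 : (3 : ℝ) ≤ c.d := by exact_mod_cast hc.d3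
  have hp : 1 ≤ c.p := by
    rcases Nat.eq_zero_or_pos c.p with h | h
    · exfalso
      have := hc.pp
      rw [h] at this
      simp at this
      linarith
    · exact h
  obtain ⟨l1, hl10, hl11, hl1⟩ := sm_le 2 (show -c.y < 1 - 2 * c.y - c.e by unfold Cx.y; linarith)
  refine ⟨min (1 / 2) l1, by positivity, (min_le_left _ _).trans (by norm_num), ?_⟩
  intro π hπ
  have h0 : 0 < π.lam := hπ.1.1
  have hq : π.lam ≤ 1 / 2 := hπ.1.2.1.trans (min_le_left _ _)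
  have hq1 : π.lam ≤ l1 := hπ.1.2.1.trans (min_le_right _ _)
  obtain ⟨V, -, hV⟩ := zf_exists hν c hc hπ (by linarith)
  have h4 : 0 < c.b4 π.lam := rp_pos h0 _
  have h2 : 0 < c.b2 π.lam := rp_pos h0 _
  have h3 : 0 < c.b3 π.lam := rp_pos h0 _
  set A := GG c.d π.n π.lam π.z V with hA
  have n4 : ∀ w, 0 ≤ (G4 A w / c.b4 π.lam) ^ c.p := fun w =>
    pow_nonneg (div_nonneg (Finset.sum_nonneg fun _ _ => by positivity) h4.le) _
  have n2 : ∀ x, 0 ≤ (‖A x x - gb ν c.d π‖ / c.b2 π.lam) ^ c.p := fun x => by positivity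
  have n3 : ∀ w y, 0 ≤ (lm (ph2 (c.rw π.lam)) A w y / c.b3 π.lam) ^ c.p := fun w y =>
    pow_nonneg (div_nonneg (Finset.sum_nonneg fun x _ =>
      mul_nonneg (Real.exp_pos _).le (by positivity)) h3.le) _
  have s4 := Finset.single_le_sum (f := fun w => (G4 A w / c.b4 π.lam) ^ c.p)
    (fun w _ => n4 w) (Finset.mem_univ 0)
  have s2' := Finset.single_le_sum (f := fun x => (‖A x x - gb ν c.d π‖ / c.b2 π.lam) ^ c.p)
    (fun w _ => n2 w) (Finset.mem_univ 0)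
  have s3 : 0 ≤ ∑ w, ∑ y, (lm (ph2 (c.rw π.lam)) A w y / c.b3 π.lam) ^ c.p :=
    Finset.sum_nonneg fun w _ => Finset.sum_nonneg fun y _ => n3 w y
  have s4' : 0 ≤ ∑ w, (G4 A w / c.b4 π.lam) ^ c.p := Finset.sum_nonneg fun w _ => n4 w
  have s2'' : 0 ≤ ∑ x, (‖A x x - gb ν c.d π‖ / c.b2 π.lam) ^ c.p :=
    Finset.sum_nonneg fun w _ => n2 w
  have hF : c.F ν π V = ∑ w, (G4 A w / c.b4 π.lam) ^ c.p +
    ∑ x, (‖A x x - gb ν c.d π‖ / c.b2 π.lam) ^ c.p +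
    ∑ w, ∑ y, (lm (ph2 (c.rw π.lam)) A w y / c.b3 π.lam) ^ c.p := rfl
  have e4 : G4 A 0 / c.b4 π.lam ≤ 2 := zf_le_two hp (F := c.F ν π V) (by linarith) hV
  have e2 : ‖A 0 0 - gb ν c.d π‖ / c.b2 π.lam ≤ 2 :=
    zf_le_two hp (F := c.F ν π V) (by linarith) hV
  rw [div_le_iff₀ h4] at e4
  rw [div_le_iff₀ h2] at e2
  have hL := rp_pos h0 (-c.y)
  have hA0 : ‖A 0 0‖ ≤ 2 * π.lam ^ (-c.y) := by
    have h5 : ‖A 0 0‖ ^ 4 ≤ G4 A 0 := by
      unfold G4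
      exact Finset.single_le_sum (f := fun y => ‖A 0 y‖ ^ 4) (fun _ _ => by positivity)
        (Finset.mem_univ 0)
    have h6 : c.b4 π.lam = (π.lam ^ (-c.y)) ^ 4 := by
      unfold Cx.b4
      rw [rp_pow h0]
      congr 1
      push_cast
      ring
    have h7 : ‖A 0 0‖ ^ 4 ≤ (2 * π.lam ^ (-c.y)) ^ 4 := by
      rw [mul_pow, ← h6]
      linarith
    exact le_of_pow_le_pow_left₀ (by norm_num) (by positivity) h7
  have h8 : 2 * c.b2 π.lam ≤ π.lam ^ (-c.y) := hl1 π.lam h0 hq1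
  have h9 : ‖gb ν c.d π‖ ≤ ‖A 0 0‖ + ‖A 0 0 - gb ν c.d π‖ := by
    have : gb ν c.d π = A 0 0 - (A 0 0 - gb ν c.d π) := by ring
    calc ‖gb ν c.d π‖ = ‖A 0 0 - (A 0 0 - gb ν c.d π)‖ := by rw [← this]
      _ ≤ _ := norm_sub_le _ _
  linarith

/-- Powers of `Im ζ`. -/
lemma zf_pow {a l x s : ℝ} (ha : 0 < a) (hl : 0 < l) (hx : a * l ^ 2 ≤ x) (hs : 0 ≤ s) :
    x ^ (-s) ≤ a ^ (-s) * l ^ (-(2 * s)) := by
  have h1 : 0 < a * l ^ 2 := by positivity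
  calc x ^ (-s) ≤ (a * l ^ 2) ^ (-s) :=
        Real.rpow_le_rpow_of_nonpos h1 hx (by linarith)
    _ = a ^ (-s) * l ^ (-(2 * s)) := by
        rw [Real.mul_rpow ha.le (by positivity)]
        congr 1
        rw [← Real.rpow_natCast, ← Real.rpow_mul hl.le]
        congr 1
        push_cast
        ring

theorem zfacts {ν : Measure ℝ} {R s2 : ℝ} (hν : BLaw ν R s2) (c : Cx) (hc : c.Ok) :
    ∃ lam1 : ℝ, 0 < lam1 ∧ lam1 ≤ 1 ∧ ∀ π ∈ c.S ν lam1, c.Z ν s2 π := by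
  have he := hc.e0
  have hy0 := hc.y0
  have hylt : c.y0 + 50 * c.e ≤ 1 / 2 := by linarith [hc.room, hc.A2]
  have hd3 : (3 : ℝ) ≤ c.d := by exact_mod_cast hc.d3
  have hd0 : (0 : ℝ) < c.d := by linarith
  have hκ := hc.free.kap
  have hκ1 := hc.free.kap1
  have hs2 := hν.s2_pos
  have ht : 0 < c.t := by unfold Cx.t; positivity
  set a : ℝ := c.κ * s2 / 4 with ha
  have ha0 : 0 < a := by positivity
  set ς : ℝ := c.e / (200 * c.d) with hς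
  have hς0 : 0 < ς := by positivity
  have hq3 : 3 ≤ c.q := by
    unfold Cx.q
    have h1 := hc.th
    have h2 := hc.th'
    rw [le_div_iff₀ (by linarith)]
    linarith
  obtain ⟨C1, hC1, hw1⟩ := hc.free.wq (c.t / 4) ς (by positivity) hς0
  obtain ⟨C2, hC2, hw2⟩ := hc.free.w2 (c.t / 4) ς (by positivity) hς0
  obtain ⟨C3, hC3, hw3⟩ := hc.free.l4 (c.t / 4) (by positivity)
  obtain ⟨lg, hlg0, hlg1, hlg⟩ := zf_g hν c hc
  -- thresholds
  set w : ℝ := min (min (c.lo - c.lo') (c.hi' - c.hi)) (c.κ / 2) with hw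
  have hw0 : 0 < w := lt_min (lt_min (sub_pos.2 hc.wlo) (sub_pos.2 hc.whi)) (by positivity)
  obtain ⟨k1, hk10, hk11, hk1⟩ := sm_one (3 * s2 / w) (show 0 < 2 - c.y by unfold Cx.y; linarith)
  obtain ⟨k2, hk20, hk21, hk2⟩ := sm_one 3 (show 0 < 1 - c.y by unfold Cx.y; linarith)
  obtain ⟨k3, hk30, hk31, hk3⟩ := sm_le (a ^ (-(10 : ℝ))) (show -(40 : ℝ) < -(2 * 10) by norm_num)
  obtain ⟨k4, hk40, hk41, hk4⟩ := sm_le (a ^ (-(1 + ς)))
    (show -2 - c.e / (40 * c.d) < -(2 * (1 + ς)) by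
      rw [hς]
      have : c.e / (200 * c.d) * 2 < c.e / (40 * c.d) := by
        rw [div_mul_eq_mul_div, div_lt_div_iff₀ (by positivity) (by positivity)]
        nlinarith [mul_pos he hd0]
      linarith)
  obtain ⟨k5, hk50, hk51, hk5⟩ := sm_neg (16 * c.d / a)
    (show 0 < c.e / (40 * c.d) by positivity)
  obtain ⟨k6, hk60, hk61, hk6⟩ := sm_le (C1 * a ^ (-(c.t / 4)))
    (show -(c.q * c.t) < -(2 * (c.t / 4)) by nlinarith)
  obtain ⟨k7, hk70, hk71, hk7⟩ := sm_le (C2 * a ^ (-(1 + c.t / 4)))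
    (show -(2 * (1 + c.t)) < -(2 * (1 + c.t / 4)) by linarith)
  obtain ⟨k8, hk80, hk81, hk8⟩ := sm_le (C3 * a ^ (-(c.t / 4)))
    (show -c.t < -(2 * (c.t / 4)) by linarith)
  refine ⟨min lg (min k1 (min k2 (min k3 (min k4 (min k5 (min k6 (min k7 k8))))))),
    by positivity, (min_le_left _ _).trans hlg1, ?_⟩
  intro π hπ
  have h0 : 0 < π.lam := hπ.1.1
  have hm := hπ.1.2.1
  simp only [le_min_iff] at hm
  obtain ⟨m0, m1, m2, m3, m4, m5, m6, m7, m8⟩ := hm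
  have hle : π.lam ≤ 1 := m0.trans hlg1
  have hg := hlg π (c.S_mono ν (min_le_left _ _) hπ)
  have hη0 : 0 < π.eta := (rp_pos h0 c.A).trans_le hπ.1.2.2.2.2.2.2.1
  have hgim := hπ.2.2
  have hsg : π.lam ^ 2 * s2 * ‖gb ν c.d π‖ ≤ w := by
    have h1 := hk1 π.lam h0 m1
    have h2 : π.lam ^ 2 * π.lam ^ (-c.y) = π.lam ^ (2 - c.y) := by
      rw [← Real.rpow_natCast, ← Real.rpow_add h0]
      congr 1
    calc π.lam ^ 2 * s2 * ‖gb ν c.d π‖ ≤ π.lam ^ 2 * s2 * (3 * π.lam ^ (-c.y)) := by gcongr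
      _ = 3 * s2 * (π.lam ^ 2 * π.lam ^ (-c.y)) := by ring
      _ = w * (3 * s2 / w * π.lam ^ (2 - c.y)) := by rw [h2]; field_simp
      _ ≤ w * 1 := by gcongr
      _ = w := mul_one _
  have hzr : (zt ν s2 c.d π).re = π.E + π.lam ^ 2 * s2 * (gb ν c.d π).re := by
    unfold zt zeta
    rw [Complex.add_re, Complex.re_ofReal_mul]
    rfl
  have hzi : (zt ν s2 c.d π).im = π.eta + π.lam ^ 2 * s2 * (gb ν c.d π).im := by
    unfold zt zeta
    rw [Complex.add_im, Complex.im_ofReal_mul]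
    rfl
  have hls : 0 < π.lam ^ 2 * s2 := by positivity
  have hre : |π.lam ^ 2 * s2 * (gb ν c.d π).re| ≤ w := by
    rw [abs_mul, abs_of_pos hls]
    exact (mul_le_mul_of_nonneg_left (Complex.abs_re_le_norm _) hls.le).trans hsg
  have him : π.lam ^ 2 * s2 * (gb ν c.d π).im ≤ w :=
    (mul_le_mul_of_nonneg_left ((le_abs_self _).trans (Complex.abs_im_le_norm _)) hls.le).trans hsg
  have hw1' : w ≤ c.lo - c.lo' := (min_le_left _ _).trans (min_le_left _ _)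
  have hw2' : w ≤ c.hi' - c.hi := (min_le_left _ _).trans (min_le_right _ _)
  have hw3' : w ≤ c.κ / 2 := min_le_right _ _
  have hElo := hπ.1.2.2.2.2.1
  have hEhi := hπ.1.2.2.2.2.2.1
  have hetah := hπ.1.2.2.2.2.2.2.2
  have relo : c.lo' ≤ (zt ν s2 c.d π).re := by
    rw [hzr]; linarith [(abs_le.1 hre).1]
  have rehi : (zt ν s2 c.d π).re ≤ c.hi' := by
    rw [hzr]; linarith [(abs_le.1 hre).2]
  have imgp : 0 ≤ π.lam ^ 2 * s2 * (gb ν c.d π).im := by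
    have : 0 ≤ (gb ν c.d π).im := by linarith
    positivity
  have imlo : a * π.lam ^ 2 ≤ (zt ν s2 c.d π).im := by
    rw [hzi, ha]
    have h1 : π.lam ^ 2 * s2 * (c.κ / 4) ≤ π.lam ^ 2 * s2 * (gb ν c.d π).im := by gcongr
    linarith
  have imeta : π.eta ≤ (zt ν s2 c.d π).im := by rw [hzi]; linarith
  have imhi : (zt ν s2 c.d π).im ≤ c.κ := by rw [hzi]; linarith
  have impos : 0 < (zt ν s2 c.d π).im := hη0.trans_le imeta
  have hbig : (zt ν s2 c.d π).im ^ (-(10 : ℝ)) ≤ 2 * π.n + 1 := by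
    refine (zf_pow ha0 h0 imlo (by norm_num)).trans ?_
    exact (hk3 π.lam h0 m3).trans hπ.1.2.2.1
  have hrw1 : (zt ν s2 c.d π).im ^ (-(1 + ς)) ≤ c.rw π.lam := by
    refine (zf_pow ha0 h0 imlo (by positivity)).trans ?_
    exact hk4 π.lam h0 m4
  have hrw2 : 16 * c.d ≤ c.rw π.lam * (zt ν s2 c.d π).im := by
    have h1 := hk5 π.lam h0 m5
    have h2 : c.rw π.lam * π.lam ^ 2 = π.lam ^ (-(c.e / (40 * c.d))) := by
      unfold Cx.rw
      rw [← Real.rpow_natCast, ← Real.rpow_add h0]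
      congr 1
      push_cast
      ring
    have h3 : 0 < c.rw π.lam := rp_pos h0 _
    calc 16 * (c.d : ℝ) = a * (16 * c.d / a) := by field_simp
      _ ≤ a * π.lam ^ (-(c.e / (40 * c.d))) := by gcongr
      _ = c.rw π.lam * (a * π.lam ^ 2) := by rw [← h2]; ring
      _ ≤ c.rw π.lam * (zt ν s2 c.d π).im := by gcongr
  have hm4 : ∀ y, ∑ x, ‖MM ν s2 c.d π.n π.lam π.z y x‖ ^ 4 ≤ π.lam ^ (-c.t) := by
    intro y
    refine (hw3 (zt ν s2 c.d π) π.n relo rehi impos imhi hbig y).trans ?_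
    have h1 := zf_pow ha0 h0 imlo (show 0 ≤ c.t / 4 by positivity)
    calc C3 * (zt ν s2 c.d π).im ^ (-(c.t / 4))
        ≤ C3 * (a ^ (-(c.t / 4)) * π.lam ^ (-(2 * (c.t / 4)))) := by gcongr
      _ = C3 * a ^ (-(c.t / 4)) * π.lam ^ (-(2 * (c.t / 4))) := by ring
      _ ≤ _ := hk8 π.lam h0 m8
  refine ⟨h0, hle, hη0, hπ.1.2.2.2.2.2.2.1, relo, rehi, imlo, imeta, imhi, hbig, hg, ?_, ?_, ?_,
    hm4, ?_, ?_⟩
  · -- lg
    have h1 := hk2 π.lam h0 m2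
    have h2 : π.lam * π.lam ^ (-c.y) = π.lam ^ (1 - c.y) := by
      nth_rw 1 [← Real.rpow_one π.lam]
      rw [← Real.rpow_add h0]
      congr 1
    calc π.lam * ‖gb ν c.d π‖ ≤ π.lam * (3 * π.lam ^ (-c.y)) := by gcongr
      _ = 3 * (π.lam * π.lam ^ (-c.y)) := by ring
      _ ≤ 1 := by rw [h2]; exact h1
  · -- mq
    intro y
    refine (hw1 (zt ν s2 c.d π) π.n (c.rw π.lam) relo rehi impos imhi hbig hrw1 hrw2 y).trans ?_
    have h1 := zf_pow ha0 h0 imlo (show 0 ≤ c.t / 4 by positivity)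
    have h2 : (π.lam ^ (-c.t)) ^ c.q = π.lam ^ (-(c.q * c.t)) := by
      rw [← Real.rpow_mul h0.le]
      congr 1
      ring
    rw [h2]
    calc C1 * (zt ν s2 c.d π).im ^ (-(c.t / 4))
        ≤ C1 * (a ^ (-(c.t / 4)) * π.lam ^ (-(2 * (c.t / 4)))) := by gcongr
      _ = C1 * a ^ (-(c.t / 4)) * π.lam ^ (-(2 * (c.t / 4))) := by ring
      _ ≤ _ := hk6 π.lam h0 m6
  · -- m2
    intro y
    refine (hw2 (zt ν s2 c.d π) π.n (c.rw π.lam) relo rehi impos imhi hbig hrw1 hrw2 y).trans ?_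
    have h1 := zf_pow ha0 h0 imlo (show 0 ≤ 1 + c.t / 4 by positivity)
    have h2 : (π.lam ^ (-1 - c.t)) ^ 2 = π.lam ^ (-(2 * (1 + c.t))) := by
      rw [rp_pow h0]
      congr 1
      push_cast
      ring
    rw [h2]
    calc C2 * (zt ν s2 c.d π).im ^ (-1 - c.t / 4)
        = C2 * (zt ν s2 c.d π).im ^ (-(1 + c.t / 4)) := by congr 2; ring
      _ ≤ C2 * (a ^ (-(1 + c.t / 4)) * π.lam ^ (-(2 * (1 + c.t / 4)))) := by gcongr
      _ = C2 * a ^ (-(1 + c.t / 4)) * π.lam ^ (-(2 * (1 + c.t / 4))) := by ring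
      _ ≤ _ := hk7 π.lam h0 m7
  · -- md
    intro x
    have h1 : ‖MM ν s2 c.d π.n π.lam π.z x x‖ ^ 4 ≤ π.lam ^ (-c.t) := by
      refine le_trans ?_ (hm4 x)
      exact Finset.single_le_sum (f := fun y => ‖MM ν s2 c.d π.n π.lam π.z x y‖ ^ 4)
        (fun _ _ => by positivity) (Finset.mem_univ x)
    rcases le_total ‖MM ν s2 c.d π.n π.lam π.z x x‖ 1 with h2 | h2
    · refine h2.trans ?_
      exact Real.one_le_rpow_of_pos_of_le_one_of_nonpos h0 hle (by linarith)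
    · exact (le_self_pow₀ h2 (by norm_num)).trans h1
  · -- mi
    intro x
    exact hc.free.im (zt ν s2 c.d π) π.n relo rehi impos imhi hbig x

end Pool.Agent.BK3
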