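import Pool.Agent.BK3.S1
import Pool.Agent.BK3.GaB
import Pool.Agent.BK3.RegC
import Pool.Agent.BK3.Nest
import Pool.Agent.BK3.DomA
import Pool.Agent.BK3.ZF

/-! BK3 module StW: the moments of `W_w = ∑_y |G_yw - M_yw|⁴` are at the level `ω = lam^(-4y+e/4)`, and then those of
`G4_w/b4` at the level `lam^(e/5)`.
`iter_le`: real recursion. `stW`: fix `P` and `ℓ`, put `a_j = E[chi (ℓ+j) W^(P+1)]`; `s1_core` with
`χ = chi (ℓ+j)`, `χ' = chi (ℓ+j+1)` (`nest`, `nest_loc`, `regc`, `s1_inst`), `gab0`, `gab1`: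
`a_j ≤ C lam^(e/6) 2^(P+1) (a_(j+1) + ω^(P+1))`, and `a_k ≤ (16 B)^(P+1)` (`W ≤ 8 (G4_w + ∑|M|⁴) ≤ 16 B` on the
support). With `k = 2(P+1)`: `a_0 ≤ C' lam^((P+1) e/3) B^(P+1) + ω^(P+1) ≤ C'' ω^(P+1)` because `B = lam^(-4y-t)`.
(`p = 0` in `DomF` is trivial.) `stT1`: `G4_w ≤ 8 (W_w + ∑ |M_yw|⁴) ≤ 8 (W_w + lam^(-t))` (symmetry of `G`,
`Cx.Z.m4`), divided by `b4 = lam^(-4y)`; `4y ≥ 4e`. -/

open MeasureTheory Finset Matrix Pool.Agent.BK

noncomputable section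

namespace Pool.Agent.BK3

variable {ν : Measure ℝ} {R s2 : ℝ}

lemma iter_le (a : ℕ → ℝ) {G w : ℝ} (hG : 0 ≤ G) (hG1 : G ≤ 1 / 2) (hw : 0 ≤ w) (k : ℕ)
    (h : ∀ j < k, a j ≤ G * (a (j + 1) + w)) : a 0 ≤ G ^ k * a k + w := by
  induction k generalizing a with
  | zero => rw [pow_zero, one_mul]; linarith
  | succ k ih =>
    have h1 := ih (fun j => a (j + 1)) fun j hj => h (j + 1) (by omega)
    simp only [zero_add] at h1
    have h2 := h 0 (by omega)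
    rw [zero_add] at h2
    have h3 : G * (a 1 + w) ≤ G * (G ^ k * a (k + 1) + w + w) :=
      mul_le_mul_of_nonneg_left (by linarith) hG
    rw [pow_succ]
    nlinarith

private lemma stw_fin {S : ℝ → Set Par} (hS : ∀ l1 l2, l1 ≤ l2 → S l1 ⊆ S l2)
    {P : ℕ → Par → Prop}
    (h : ∀ j : ℕ, ∃ l : ℝ, 0 < l ∧ l ≤ 1 ∧ ∀ π ∈ S l, P j π) (k : ℕ) :
    ∃ l : ℝ, 0 < l ∧ l ≤ 1 ∧ ∀ π ∈ S l, ∀ j < k, P j π := by
  induction k with
  | zero => exact ⟨1, one_pos, le_rfl, fun π _ j hj => absurd hj (by omega)⟩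
  | succ k ih =>
    obtain ⟨l1, h1, h2, h3⟩ := ih
    obtain ⟨l2, h4, h5, h6⟩ := h k
    refine ⟨min l1 l2, lt_min h1 h4, (min_le_left _ _).trans h2, fun π hπ j hj => ?_⟩
    rcases Nat.lt_succ_iff_lt_or_eq.1 hj with h7 | h7
    · exact h3 π (hS _ _ (min_le_left _ _) hπ) j h7
    · rw [h7]
      exact h6 π (hS _ _ (min_le_right _ _) hπ)

private lemma stw_W_nonneg {X : Type} [Fintype X] [DecidableEq X] (H M : Matrix X X ℂ) (lam : ℝ)
    (z : ℂ) (w : X) (V : X → ℝ) : 0 ≤ Wv H M lam z w V :=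
  Finset.sum_nonneg fun _ _ => by positivity

private lemma stw_W_cont (c : Cx) {π : Par} (hz : 0 < π.eta) (M : Matrix (Tor c.d π.n) (Tor c.d π.n) ℂ)
    (w : Tor c.d π.n) : Continuous (Wv (H0 c.d π.n) M π.lam π.z w) := by
  unfold Wv Zv
  refine continuous_finsetSum _ (fun y _ => ?_)
  exact ((((continuous_Gr (RS_H0 c.d π.n) π.lam (z := π.z) hz.ne').sub
    continuous_const).matrix_elem y w).norm).pow 4

private lemma stw_pow4 (x y : ℝ) (hx : 0 ≤ x) (hy : 0 ≤ y) :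
    (x + y) ^ 4 ≤ 8 * (x ^ 4 + y ^ 4) := by
  have := add_pow_le hx hy 4
  norm_num at this
  linarith

/-- `W ≤ 8 (G4 + ∑ |M|⁴)` (columns of `G - M`, rows of `G` and `M`). -/
private lemma stw_W_le (ν : Measure ℝ) (s2 : ℝ) (c : Cx) {π : Par} (hz : 0 < π.eta)
    (hζ : 0 < (zt ν s2 c.d π).im) (w : Tor c.d π.n) (V : Tor c.d π.n → ℝ) :
    Wv (H0 c.d π.n) (MM ν s2 c.d π.n π.lam π.z) π.lam π.z w V ≤
      8 * (G4 (GG c.d π.n π.lam π.z V) w + ∑ y, ‖MM ν s2 c.d π.n π.lam π.z w y‖ ^ 4) := by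
  unfold Wv G4
  rw [← Finset.sum_add_distrib, Finset.mul_sum]
  refine Finset.sum_le_sum fun y _ => ?_
  have h1 := Gr_symm (RS_H0 c.d π.n) (fun x => π.lam * V x) (z := π.z) hz.ne' w y
  have h2 := Gr_symm (RS_H0 c.d π.n) 0 (z := zt ν s2 c.d π) hζ.ne' w y
  have h3 : GG c.d π.n π.lam π.z V w y = Gr (H0 c.d π.n) (fun x => π.lam * V x) π.z y w := h1
  have h4 : MM ν s2 c.d π.n π.lam π.z w y = MM ν s2 c.d π.n π.lam π.z y w := h2
  rw [h3, h4]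
  refine le_trans ?_ (stw_pow4 _ _ (norm_nonneg _) (norm_nonneg _))
  refine pow_le_pow_left₀ (norm_nonneg _) ?_ 4
  exact norm_sub_le _ _

/-- The other direction. -/
private lemma stw_G_le (ν : Measure ℝ) (s2 : ℝ) (c : Cx) {π : Par} (hz : 0 < π.eta)
    (hζ : 0 < (zt ν s2 c.d π).im) (w : Tor c.d π.n) (V : Tor c.d π.n → ℝ) :
    G4 (GG c.d π.n π.lam π.z V) w ≤
      8 * (Wv (H0 c.d π.n) (MM ν s2 c.d π.n π.lam π.z) π.lam π.z w V +
        ∑ y, ‖MM ν s2 c.d π.n π.lam π.z w y‖ ^ 4) := by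
  unfold Wv G4
  rw [← Finset.sum_add_distrib, Finset.mul_sum]
  refine Finset.sum_le_sum fun y _ => ?_
  have h1 := Gr_symm (RS_H0 c.d π.n) (fun x => π.lam * V x) (z := π.z) hz.ne' w y
  have h2 := Gr_symm (RS_H0 c.d π.n) 0 (z := zt ν s2 c.d π) hζ.ne' w y
  have h3 : GG c.d π.n π.lam π.z V w y = Gr (H0 c.d π.n) (fun x => π.lam * V x) π.z y w := h1
  have h4 : MM ν s2 c.d π.n π.lam π.z w y = MM ν s2 c.d π.n π.lam π.z y w := h2
  rw [h3, h4]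
  refine le_trans ?_ (stw_pow4 _ _ (norm_nonneg _) (norm_nonneg _))
  refine pow_le_pow_left₀ (norm_nonneg _) ?_ 4
  have h5 : Gr (H0 c.d π.n) (fun x => π.lam * V x) π.z y w =
      Zv (H0 c.d π.n) (MM ν s2 c.d π.n π.lam π.z) π.lam π.z w V y +
        MM ν s2 c.d π.n π.lam π.z y w := by
    unfold Zv
    rw [Matrix.sub_apply, sub_add_cancel]
  rw [h5]
  exact norm_add_le _ _

private lemma stw_lin {X : Type} [Fintype X] [DecidableEq X] (hν : BLaw ν R s2)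
    {F : (X → ℝ) → ℝ} (hF : Continuous F) (s t : ℝ) :
    Ex ν (fun V => s * F V + t) = s * Ex ν F + t := by
  have hi := Ex_one (X := X) hν t
  unfold Ex at hi ⊢
  rw [integral_add ((int_cont hν hF).const_mul s) (int_cont hν continuous_const),
    integral_const_mul, hi]

/-- One step of the iteration. -/
private lemma stw_step (hν : BLaw ν R s2) (c : Cx) (hc : c.Ok) (P : ℕ) : ∃ C : ℝ, 0 < C ∧
    ∀ m : ℕ, ∃ lam1 : ℝ, 0 < lam1 ∧ lam1 ≤ 1 ∧ ∀ π ∈ c.S ν lam1, ∀ w : Tor c.d π.n,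
      Ex ν (fun V => c.chi ν m π V *
        Wv (H0 c.d π.n) (MM ν s2 c.d π.n π.lam π.z) π.lam π.z w V ^ (P + 1)) ≤
        C * π.lam ^ (c.e / 6) * (Ex ν (fun V => c.chi ν (m + 1) π V *
          Wv (H0 c.d π.n) (MM ν s2 c.d π.n π.lam π.z) π.lam π.z w V ^ (P + 1)) +
            c.om π.lam ^ (P + 1)) := by
  obtain ⟨C, hC, hcore⟩ := s1_core R hν.R_ge P
  refine ⟨C * 2 ^ P, by positivity, fun m => ?_⟩
  obtain ⟨l1, hl1, hl11, hnest⟩ := nest hν c hc m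
  obtain ⟨l2, hl2, hl21, hloc⟩ := nest_loc hν c hc (m + 1)
  obtain ⟨l3, hl3, hl31, hreg⟩ := regc hν c hc (m + 1)
  obtain ⟨l4, hl4, hl41, hs1⟩ := s1_inst hν c hc
  obtain ⟨l5, hl5, hl51, hg0⟩ := gab0 hν c hc
  obtain ⟨l6, hl6, hl61, hg1⟩ := gab1 hν c hc
  refine ⟨min (min (min l1 l2) (min l3 l4)) (min l5 l6), by positivity,
    (min_le_right _ _).trans ((min_le_left _ _).trans hl51), fun π hπ w => ?_⟩
  have hπ' := c.S_mono ν (min_le_left _ _) hπ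
  have hπ'' := c.S_mono ν (min_le_right _ _) hπ
  have hπ1 : π ∈ c.S ν l1 := c.S_mono ν ((min_le_left _ _).trans (min_le_left _ _)) hπ'
  have hπ2 : π ∈ c.S ν l2 := c.S_mono ν ((min_le_left _ _).trans (min_le_right _ _)) hπ'
  have hπ3 : π ∈ c.S ν l3 := c.S_mono ν ((min_le_right _ _).trans (min_le_left _ _)) hπ'
  have hπ4 : π ∈ c.S ν l4 := c.S_mono ν ((min_le_right _ _).trans (min_le_right _ _)) hπ'
  have hπ5 : π ∈ c.S ν l5 := c.S_mono ν (min_le_left _ _) hπ''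
  have hπ6 : π ∈ c.S ν l6 := c.S_mono ν (min_le_right _ _) hπ''
  obtain ⟨h0, h1, hη⟩ := ok_pos hc hl41 hπ4
  have hD := hs1 π hπ4
  have h2 := hcore (Tor c.d π.n) ν (H0 c.d π.n) s2 π.lam π.z (gb ν c.d π) (zt ν s2 c.d π)
    (ph2 (c.rw π.lam)) c.q c.θ (π.lam ^ (-c.t)) (π.lam ^ (-1 - c.t)) (c.B π.lam) (c.bb π.lam)
    (c.mu π.lam) (c.Gd π.lam) (c.dl π.lam) (c.om π.lam) (c.chi ν m π) (c.chi ν (m + 1) π)
    (c.D ν R π) w hν hD (hnest π hπ1)
    (fun V _ hV => ⟨hreg π hπ3 V hV, hloc π hπ2 V hV⟩)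
  have h3 := hg0 π hπ5
  have h4 := hg1 π hπ6
  set W : (Tor c.d π.n → ℝ) → ℝ :=
    Wv (H0 c.d π.n) (MM ν s2 c.d π.n π.lam π.z) π.lam π.z w with hW
  have hWeq : Wv (H0 c.d π.n) (Gr (H0 c.d π.n) 0 (zt ν s2 c.d π)) π.lam π.z w = W := rfl
  rw [hWeq] at h2
  have hW0 : ∀ V, 0 ≤ W V := fun V => stw_W_nonneg _ _ _ _ _ _
  have hWc : Continuous W := stw_W_cont c hη _ w
  have hom : 0 < c.om π.lam := rp_pos h0 _
  have cchi := fun ℓ => continuous_chi c ν ℓ π hη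
  have h5 : Ex ν (fun V => c.chi ν (m + 1) π V * (W V + c.om π.lam) ^ (P + 1)) ≤
      Ex ν (fun V => 2 ^ P * (c.chi ν (m + 1) π V * W V ^ (P + 1)) +
        2 ^ P * c.om π.lam ^ (P + 1)) := by
    refine Ex_box_mono hν ?_ ?_ ?_
    · exact (cchi _).mul ((hWc.add continuous_const).pow _)
    · exact (continuous_const.mul ((cchi _).mul (hWc.pow _))).add continuous_const
    · intro V _
      obtain ⟨g1, g2⟩ := chi_mem c ν (m + 1) π V
      have g3 := add_pow_le (hW0 V) hom.le (P + 1)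
      rw [Nat.add_sub_cancel] at g3
      have g4 := mul_le_mul_of_nonneg_left g3 g1
      have g5 : c.chi ν (m + 1) π V * (2 ^ P * c.om π.lam ^ (P + 1)) ≤
          1 * (2 ^ P * c.om π.lam ^ (P + 1)) :=
        mul_le_mul_of_nonneg_right g2 (by positivity)
      nlinarith
  have h6 : Ex ν (fun V => 2 ^ P * (c.chi ν (m + 1) π V * W V ^ (P + 1)) +
        2 ^ P * c.om π.lam ^ (P + 1)) =
      2 ^ P * (Ex ν (fun V => c.chi ν (m + 1) π V * W V ^ (P + 1)) + c.om π.lam ^ (P + 1)) := by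
    have k1 : Continuous fun V => c.chi ν (m + 1) π V * W V ^ (P + 1) :=
      (cchi _).mul (hWc.pow _)
    rw [stw_lin hν k1]
    ring
  rw [h6] at h5
  have hE0 : 0 ≤ Ex ν (fun V => c.chi ν (m + 1) π V * (W V + c.om π.lam) ^ (P + 1)) :=
    Ex_box_nonneg hν fun V _ => mul_nonneg (chi_mem c ν _ π V).1
      (pow_nonneg (add_nonneg (hW0 V) hom.le) _)
  have h7 : Ga0 π.z (zt ν s2 c.d π) (gb ν c.d π) π.lam (π.lam ^ (-1 - c.t)) (c.bb π.lam)
      (c.mu π.lam) (c.Gd π.lam) (c.om π.lam) +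
      Ga1 π.z π.lam c.θ (π.lam ^ (-c.t)) (π.lam ^ (-1 - c.t)) (c.B π.lam) (c.mu π.lam)
        (c.Gd π.lam) (c.dl π.lam) (c.om π.lam) ≤ π.lam ^ (c.e / 6) := by linarith
  have hL : 0 < π.lam ^ (c.e / 6) := rp_pos h0 _
  calc _ ≤ _ := h2
    _ ≤ C * π.lam ^ (c.e / 6) *
        Ex ν (fun V => c.chi ν (m + 1) π V * (W V + c.om π.lam) ^ (P + 1)) :=
      mul_le_mul_of_nonneg_right (mul_le_mul_of_nonneg_left h7 hC.le) hE0
    _ ≤ C * π.lam ^ (c.e / 6) * (2 ^ P *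
        (Ex ν (fun V => c.chi ν (m + 1) π V * W V ^ (P + 1)) + c.om π.lam ^ (P + 1))) :=
      mul_le_mul_of_nonneg_left h5 (by positivity)
    _ = _ := by ring

theorem stW (hν : BLaw ν R s2) (c : Cx) (hc : c.Ok) :
    DomF c ν (fun π => Tor c.d π.n)
      (fun π w V => Wv (H0 c.d π.n) (MM ν s2 c.d π.n π.lam π.z) π.lam π.z w V)
      (-(4 * c.y) + c.e / 4) := by
  intro p ℓ ε hε
  have he := hc.e0
  rcases Nat.eq_zero_or_pos p with rfl | hp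
  · refine ⟨1, 1, one_pos, one_pos, fun π hπ w => ?_⟩
    obtain ⟨h0, h1, hη⟩ := ok_pos hc le_rfl hπ
    have h2 : Ex ν (fun V : Tor c.d π.n → ℝ => c.chi ν ℓ π V * |Wv (H0 c.d π.n)
        (MM ν s2 c.d π.n π.lam π.z) π.lam π.z w V| ^ 0) ≤
        Ex ν (fun _ : Tor c.d π.n → ℝ => (1 : ℝ)) := by
      refine Ex_box_mono hν ?_ continuous_const ?_
      · exact (continuous_chi c ν ℓ π hη).mul ((stw_W_cont c hη _ w).abs.pow _)
      · intro V _
        rw [pow_zero, mul_one]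
        exact (chi_mem c ν ℓ π V).2
    rw [Ex_one hν] at h2
    refine h2.trans ?_
    rw [one_mul]
    refine Real.one_le_rpow_of_pos_of_le_one_of_nonpos h0 h1 ?_
    push_cast
    linarith
  obtain ⟨P, rfl⟩ : ∃ P, p = P + 1 := ⟨p - 1, by omega⟩
  obtain ⟨C, hC, hstep⟩ := stw_step hν c hc P
  set k : ℕ := 2 * (P + 1) with hk
  obtain ⟨l1, hl1, hl11, hit⟩ := stw_fin (S := c.S ν) (fun _ _ h => c.S_mono ν h)
    (P := fun j π => ∀ w : Tor c.d π.n,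
      Ex ν (fun V => c.chi ν (ℓ + j) π V *
        Wv (H0 c.d π.n) (MM ν s2 c.d π.n π.lam π.z) π.lam π.z w V ^ (P + 1)) ≤
        C * π.lam ^ (c.e / 6) * (Ex ν (fun V => c.chi ν (ℓ + j + 1) π V *
          Wv (H0 c.d π.n) (MM ν s2 c.d π.n π.lam π.z) π.lam π.z w V ^ (P + 1)) +
            c.om π.lam ^ (P + 1))) (fun j => hstep (ℓ + j)) k
  obtain ⟨l2, hl2, hl21, hreg⟩ := regc hν c hc (ℓ + k)
  obtain ⟨l3, hl3, hl31, hs1⟩ := s1_inst hν c hc
  obtain ⟨l4, hl4, hl41, hsm⟩ := sm_one (2 * C) (a := c.e / 6) (by positivity)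
  obtain ⟨l5, hl5, hl51, hZ⟩ := zfacts hν c hc
  refine ⟨C ^ k * 16 ^ (P + 1) + 1, min (min l1 l2) (min (min l3 l4) l5), by positivity,
    by positivity, fun π hπ w => ?_⟩
  have hπ1 : π ∈ c.S ν l1 := c.S_mono ν ((min_le_left _ _).trans (min_le_left _ _)) hπ
  have hπ2 : π ∈ c.S ν l2 := c.S_mono ν ((min_le_left _ _).trans (min_le_right _ _)) hπ
  have hπ34 : π ∈ c.S ν (min l3 l4) := c.S_mono ν ((min_le_right _ _).trans (min_le_left _ _)) hπ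
  have hπ3 : π ∈ c.S ν l3 := c.S_mono ν (min_le_left _ _) hπ34
  have hπ4 : π ∈ c.S ν l4 := c.S_mono ν (min_le_right _ _) hπ34
  have hπ5 : π ∈ c.S ν l5 := c.S_mono ν ((min_le_right _ _).trans (min_le_right _ _)) hπ
  obtain ⟨h0, h1, hη⟩ := ok_pos hc hl31 hπ3
  have hD := hs1 π hπ3
  have hZ' := hZ π hπ5
  have hζ : 0 < (zt ν s2 c.d π).im := hD.hζ0
  set W : (Tor c.d π.n → ℝ) → ℝ :=
    Wv (H0 c.d π.n) (MM ν s2 c.d π.n π.lam π.z) π.lam π.z w with hW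
  have hW0 : ∀ V, 0 ≤ W V := fun V => stw_W_nonneg _ _ _ _ _ _
  have hWc : Continuous W := stw_W_cont c hη _ w
  have hom : 0 < c.om π.lam := rp_pos h0 _
  have hB : 0 < c.B π.lam := rp_pos h0 _
  have cchi := fun ℓ => continuous_chi c ν ℓ π hη
  set aa : ℕ → ℝ := fun j => Ex ν (fun V => c.chi ν (ℓ + j) π V * W V ^ (P + 1)) with haa
  have hG0 : 0 ≤ C * π.lam ^ (c.e / 6) := by
    have := rp_pos h0 (c.e / 6)
    positivity
  have hG1 : C * π.lam ^ (c.e / 6) ≤ 1 / 2 := by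
    have := hsm π.lam h0 hπ4.1.2.1
    linarith
  have hiter := iter_le aa hG0 hG1 (w := c.om π.lam ^ (P + 1)) (by positivity) k
    (fun j hj => hit π hπ1 j hj w)
  have hak : aa k ≤ (16 * c.B π.lam) ^ (P + 1) := by
    have h2 : aa k ≤ Ex ν (fun _ : Tor c.d π.n → ℝ => (16 * c.B π.lam) ^ (P + 1)) := by
      refine Ex_box_mono hν ((cchi _).mul (hWc.pow _)) continuous_const ?_
      intro V _
      obtain ⟨g1, g2⟩ := chi_mem c ν (ℓ + k) π V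
      by_cases hz : c.chi ν (ℓ + k) π V = 0
      · rw [hz, zero_mul]
        positivity
      · have g3 := (hreg π hπ2 V hz).g4 w
        have g4 := hD.m4 w
        have g5 := stw_W_le ν s2 c hη hζ w V
        have g6 : W V ≤ 16 * c.B π.lam := by
          have g7 : G4 (GG c.d π.n π.lam π.z V) w ≤ c.B π.lam := g3
          have g8 : ∑ y, ‖MM ν s2 c.d π.n π.lam π.z w y‖ ^ 4 ≤ c.B π.lam := g4
          calc W V ≤ _ := g5
            _ ≤ 8 * (c.B π.lam + c.B π.lam) := by linarith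
            _ = _ := by ring
        have g9 : W V ^ (P + 1) ≤ (16 * c.B π.lam) ^ (P + 1) :=
          pow_le_pow_left₀ (hW0 V) g6 _
        calc c.chi ν (ℓ + k) π V * W V ^ (P + 1) ≤ 1 * W V ^ (P + 1) :=
              mul_le_mul_of_nonneg_right g2 (pow_nonneg (hW0 V) _)
          _ ≤ _ := by rw [one_mul]; exact g9
    rwa [Ex_one hν] at h2
  have hGk : (C * π.lam ^ (c.e / 6)) ^ k * (16 * c.B π.lam) ^ (P + 1) ≤
      C ^ k * 16 ^ (P + 1) * c.om π.lam ^ (P + 1) := by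
    have h2 : (π.lam ^ (c.e / 6)) ^ k * c.B π.lam ^ (P + 1) ≤ c.om π.lam ^ (P + 1) := by
      rw [hk, pow_mul, ← mul_pow, rp_pow h0, Cx.B, ← Real.rpow_add h0, Cx.om]
      refine pow_le_pow_left₀ (rp_pos h0 _).le ?_ _
      refine rp_anti h0 h1 ?_
      unfold Cx.t
      push_cast
      linarith
    calc _ = C ^ k * 16 ^ (P + 1) * ((π.lam ^ (c.e / 6)) ^ k * c.B π.lam ^ (P + 1)) := by
          rw [mul_pow, mul_pow]; ring
      _ ≤ _ := mul_le_mul_of_nonneg_left h2 (by positivity)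
  have hfin : aa 0 ≤ (C ^ k * 16 ^ (P + 1) + 1) * c.om π.lam ^ (P + 1) := by
    have h2 : (C * π.lam ^ (c.e / 6)) ^ k * aa k ≤
        (C * π.lam ^ (c.e / 6)) ^ k * (16 * c.B π.lam) ^ (P + 1) :=
      mul_le_mul_of_nonneg_left hak (by positivity)
    linarith
  have haa0 : Ex ν (fun V : Tor c.d π.n → ℝ => c.chi ν ℓ π V * |W V| ^ (P + 1)) = aa 0 := by
    rw [haa]
    simp only [add_zero]
    congr 1
    funext V
    rw [abs_of_nonneg (hW0 V)]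
  change Ex ν (fun V : Tor c.d π.n → ℝ => c.chi ν ℓ π V * |W V| ^ (P + 1)) ≤ _
  rw [haa0]
  refine hfin.trans ?_
  refine mul_le_mul_of_nonneg_left ?_ (by positivity)
  rw [Cx.om, rp_pow h0]
  exact rp_anti h0 h1 (by linarith)

theorem stT1 (hν : BLaw ν R s2) (c : Cx) (hc : c.Ok) :
    DomF c ν (fun π => Tor c.d π.n) (fun π w V => G4 (GG c.d π.n π.lam π.z V) w / c.b4 π.lam)
      (c.e / 5) := by
  have he := hc.e0
  have hy : c.e ≤ c.y := by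
    unfold Cx.y
    linarith [hc.y0]
  have hQ1 := domF_scale hc (a := -(4 * c.y) + c.e / 4) (b := 4 * c.y) 1
    (fun π => π.lam ^ (4 * c.y)) ⟨1, one_pos, fun π hπ => by
      obtain ⟨h0, h1, hη⟩ := ok_pos hc le_rfl hπ
      rw [abs_of_nonneg (rp_pos h0 _).le, one_mul]⟩ (stW hν c hc)
  have hQ := domF_weaken hc (b := c.e / 5) (by linarith) hQ1
  obtain ⟨l5, hl5, hl51, hZ⟩ := zfacts hν c hc
  refine domF_mono hν hc 8 (fun π w => w) ?_ hQ ?_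
  · intro π hη w
    exact continuous_const.mul (stw_W_cont c hη _ w)
  · intro ℓ
    refine ⟨l5, hl5, fun π hπ w V _ _ => ?_⟩
    obtain ⟨h0, h1, hη⟩ := ok_pos hc hl51 hπ
    have hZ' := hZ π hπ
    have hζ : 0 < (zt ν s2 c.d π).im := hη.trans_le hZ'.im_eta
    have h2 := stw_G_le ν s2 c hη hζ w V
    have h3 := hZ'.m4 w
    have hW0 : 0 ≤ Wv (H0 c.d π.n) (MM ν s2 c.d π.n π.lam π.z) π.lam π.z w V :=
      stw_W_nonneg _ _ _ _ _ _
    have hG0 : 0 ≤ G4 (GG c.d π.n π.lam π.z V) w :=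
      Finset.sum_nonneg fun _ _ => by positivity
    have h4 : 0 < π.lam ^ (4 * c.y) := rp_pos h0 _
    have h5 : G4 (GG c.d π.n π.lam π.z V) w / c.b4 π.lam =
        π.lam ^ (4 * c.y) * G4 (GG c.d π.n π.lam π.z V) w := by
      rw [Cx.b4, Real.rpow_neg h0.le, div_inv_eq_mul, mul_comm]
    rw [abs_of_nonneg (mul_nonneg h4.le hW0), h5, abs_of_nonneg (mul_nonneg h4.le hG0)]
    have h6 : π.lam ^ (4 * c.y) * π.lam ^ (-c.t) ≤ π.lam ^ (c.e / 5) := by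
      rw [← Real.rpow_add h0]
      refine rp_anti h0 h1 ?_
      unfold Cx.t
      linarith
    calc π.lam ^ (4 * c.y) * G4 (GG c.d π.n π.lam π.z V) w
        ≤ π.lam ^ (4 * c.y) * (8 * (Wv (H0 c.d π.n) (MM ν s2 c.d π.n π.lam π.z) π.lam π.z w V +
          ∑ y, ‖MM ν s2 c.d π.n π.lam π.z w y‖ ^ 4)) := mul_le_mul_of_nonneg_left h2 h4.le
      _ ≤ π.lam ^ (4 * c.y) * (8 * (Wv (H0 c.d π.n) (MM ν s2 c.d π.n π.lam π.z) π.lam π.z w V +
          π.lam ^ (-c.t))) := by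
        refine mul_le_mul_of_nonneg_left ?_ h4.le
        linarith
      _ = 8 * (π.lam ^ (4 * c.y) * Wv (H0 c.d π.n) (MM ν s2 c.d π.n π.lam π.z) π.lam π.z w V +
          π.lam ^ (4 * c.y) * π.lam ^ (-c.t)) := by ring
      _ ≤ _ := by linarith

end Pool.Agent.BK3
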