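import Pool.Agent.BK3.ESa
import Pool.Agent.BK3.StW

/-! BK3 module StES: the moment method. Under `ESH` the variables `|h|` are at the level `lam^a`.
Claim `P(k)`: for all `ℓ`, `ε > 0` there are `C`, `lam0` with `E[chi ℓ |h|^k] ≤ C lam^(ka - ε)`.
`P(0)`: `chi ≤ 1`. `P(2)`: `esa_base`, iterated in `ℓ` (`iter_le` with steps of `2`; the crude bound `|h| ≤ lam^(-K)`
finishes when `k e/2 ≥ 2K + 2a`; `lam^(e/2) C ≤ 1/2`). `P(k)` from `P(k+1)`: `x^k ≤ y^k + x^(k+1)/y` with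
`y = lam^a`. `P(2r)` from `P(r)` and `P(2r-2)` (`r ≥ 2`): `esa_step`, `E[..]² ≤ C² lam^(2(ra - ε/4))`, and iteration
in `ℓ` as before. Induction: all `P(2r)`, then the odd ones. -/

open MeasureTheory Finset Matrix Pool.Agent.BK

noncomputable section

namespace Pool.Agent.BK3

variable {ν : Measure ℝ} {R s2 : ℝ} {c : Cx} {ι : Par → Type}
  {h : (π : Par) → ι π → (Tor c.d π.n → ℝ) → ℂ}
  {δ : (π : Par) → ι π → Tor c.d π.n → (Tor c.d π.n → ℝ) → ℝ} {a K : ℝ}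

/-- The claim `P(k)`. -/
def SES (c : Cx) (ν : Measure ℝ) {ι : Par → Type} (h : (π : Par) → ι π → (Tor c.d π.n → ℝ) → ℂ)
    (a : ℝ) (k : ℕ) : Prop :=
  ∀ (ℓ : ℕ) (ε : ℝ), 0 < ε → ∃ C lam0 : ℝ, 0 < C ∧ 0 < lam0 ∧ ∀ π ∈ c.S ν lam0, ∀ i : ι π,
    Ex ν (fun V => c.chi ν ℓ π V * ‖h π i V‖ ^ k) ≤ C * π.lam ^ ((k : ℝ) * a - ε)

lemma stes_all {P : ℕ → Par → Prop} (hP : ∀ j, ∃ l : ℝ, 0 < l ∧ ∀ π ∈ c.S ν l, P j π) (N : ℕ) :
    ∃ l : ℝ, 0 < l ∧ ∀ π ∈ c.S ν l, ∀ j < N, P j π := by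
  induction N with
  | zero => exact ⟨1, one_pos, fun π _ j hj => absurd hj (Nat.not_lt_zero j)⟩
  | succ N ih =>
    obtain ⟨l1, h1, H1⟩ := ih
    obtain ⟨l2, h2, H2⟩ := hP N
    refine ⟨min l1 l2, lt_min h1 h2, fun π hπ j hj => ?_⟩
    rcases Nat.lt_succ_iff_lt_or_eq.1 hj with hj | rfl
    · exact H1 π (c.S_mono ν (min_le_left _ _) hπ) j hj
    · exact H2 π (c.S_mono ν (min_le_right _ _) hπ)

lemma stes_rec (a : ℕ → ℝ) {G w : ℝ} (hG : 0 ≤ G) (hG1 : G ≤ 1 / 2) (hw : 0 ≤ w) (k : ℕ)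
    (h : ∀ j < k, a j ≤ G * a (j + 1) + w) : a 0 ≤ G ^ k * a k + 2 * w := by
  have key : ∀ m, m ≤ k → a 0 ≤ G ^ m * a m + 2 * w * (1 - (1 / 2) ^ m) := by
    intro m
    induction m with
    | zero => intro _; simp
    | succ m ih =>
      intro hm
      have h1 := ih (by omega)
      have h2 := h m (by omega)
      have h3 : G ^ m * a m ≤ G ^ m * (G * a (m + 1) + w) :=
        mul_le_mul_of_nonneg_left h2 (pow_nonneg hG m)
      have h4 : G ^ m ≤ (1 / 2) ^ m := pow_le_pow_left₀ hG hG1 m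
      have h5 : G ^ m * w ≤ (1 / 2) ^ m * w := mul_le_mul_of_nonneg_right h4 hw
      have h6 : G ^ (m + 1) * a (m + 1) = G ^ m * (G * a (m + 1)) := by rw [pow_succ]; ring
      have h7 : ((1 : ℝ) / 2) ^ (m + 1) = (1 / 2) ^ m / 2 := by rw [pow_succ]; ring
      rw [h6, h7]
      nlinarith
  have h1 := key k le_rfl
  have h2 : 0 ≤ 2 * w * ((1 : ℝ) / 2) ^ k := by positivity
  linarith

/-- The iteration in `ℓ`. -/
lemma stes_iter (hν : BLaw ν R s2) (hc : c.Ok) (hh : ESH c ν R ι h δ a K) (k : ℕ)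
    (H : ∀ (ℓ : ℕ) (ε : ℝ), 0 < ε → ∃ C l : ℝ, 0 < l ∧ ∀ π ∈ c.S ν l, ∀ i : ι π,
      Ex ν (fun V => c.chi ν ℓ π V * ‖h π i V‖ ^ k) ≤
        C * (π.lam ^ (c.e / 2) * Ex ν (fun V => c.chi ν (ℓ + 2) π V * ‖h π i V‖ ^ k) +
          π.lam ^ ((k : ℝ) * a - ε))) : SES c ν h a k := by
  intro ℓ ε hε
  have he := hc.e0
  -- the number of steps
  obtain ⟨N, hN⟩ := exists_nat_ge (((k : ℝ) * a - ε + k * K) / (c.e / 4))
  have hN' : (k : ℝ) * a - ε + k * K ≤ N * (c.e / 4) := by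
    rw [div_le_iff₀ (by positivity)] at hN; exact hN
  have step : ∀ j : ℕ, ∃ l : ℝ, 0 < l ∧ ∀ π ∈ c.S ν l, ∀ i : ι π,
      Ex ν (fun V => c.chi ν (ℓ + 2 * j) π V * ‖h π i V‖ ^ k) ≤
        π.lam ^ (c.e / 4) * Ex ν (fun V => c.chi ν (ℓ + 2 * (j + 1)) π V * ‖h π i V‖ ^ k) +
          π.lam ^ ((k : ℝ) * a - ε) := by
    intro j
    obtain ⟨C, l1, hl1, H1⟩ := H (ℓ + 2 * j) (ε / 2) (by positivity)
    obtain ⟨l2, hl2, hl2', H2⟩ := sm_le C (show c.e / 4 < c.e / 2 by linarith)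
    obtain ⟨l3, hl3, hl3', H3⟩ := sm_le C (show (k : ℝ) * a - ε < (k : ℝ) * a - ε / 2 by linarith)
    refine ⟨min l1 (min l2 l3), by positivity, fun π hπ i => ?_⟩
    have hπ1 := c.S_mono ν (min_le_left _ _) hπ
    have hπ2 := c.S_mono ν ((min_le_right l1 _).trans (min_le_left l2 l3)) hπ
    have hπ3 := c.S_mono ν ((min_le_right l1 _).trans (min_le_right l2 l3)) hπ
    have hlam := hπ1.1.1
    have h1 := H1 π hπ1 i
    have h2 := H2 π.lam hlam hπ2.1.2.1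
    have h3 := H3 π.lam hlam hπ3.1.2.1
    have h4 : 0 ≤ Ex ν (fun V => c.chi ν (ℓ + 2 * j + 2) π V * ‖h π i V‖ ^ k) :=
      Ex_box_nonneg hν (fun V _ => mul_nonneg (chi_mem c ν _ π V).1 (by positivity))
    have h5 : ℓ + 2 * (j + 1) = ℓ + 2 * j + 2 := by ring
    rw [h5]
    calc _ ≤ _ := h1
      _ = (C * π.lam ^ (c.e / 2)) * Ex ν (fun V => c.chi ν (ℓ + 2 * j + 2) π V * ‖h π i V‖ ^ k) +
          C * π.lam ^ ((k : ℝ) * a - ε / 2) := by ring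
      _ ≤ _ := add_le_add (mul_le_mul_of_nonneg_right h2 h4) h3
  obtain ⟨l1, hl1, H1⟩ := stes_all step N
  obtain ⟨l2, hl2, H2⟩ := hh.crude
  obtain ⟨l3, hl3, hl3', H3⟩ := sm_one 2 (show 0 < c.e / 4 by positivity)
  refine ⟨3, min l1 (min l2 l3), by norm_num, by positivity, fun π hπ i => ?_⟩
  have hπ1 := c.S_mono ν (min_le_left _ _) hπ
  have hπ2 := c.S_mono ν ((min_le_right l1 _).trans (min_le_left l2 l3)) hπ
  have hπ3 := c.S_mono ν ((min_le_right l1 _).trans (min_le_right l2 l3)) hπ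
  obtain ⟨hlam, hlam1, hη⟩ := ok_pos hc hl3' hπ3
  have h3 := H3 π.lam hlam hπ3.1.2.1
  have hw : 0 ≤ π.lam ^ ((k : ℝ) * a - ε) := (rp_pos hlam _).le
  have h4 := stes_rec (fun j => Ex ν (fun V => c.chi ν (ℓ + 2 * j) π V * ‖h π i V‖ ^ k))
    (G := π.lam ^ (c.e / 4)) (w := π.lam ^ ((k : ℝ) * a - ε)) (rp_pos hlam _).le (by linarith) hw N
    (fun j hj => H1 π hπ1 j hj i)
  have h5 : Ex ν (fun V => c.chi ν (ℓ + 2 * N) π V * ‖h π i V‖ ^ k) ≤ (π.lam ^ (-K)) ^ k := by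
    refine (Ex_box_mono hν (((continuous_chi c ν _ π hη)).mul ((hh.ch π hη i).norm.pow k))
      (continuous_const (y := (π.lam ^ (-K)) ^ k)) (fun V hV => ?_)).trans (Ex_one hν _).le
    have h6 := chi_mem c ν (ℓ + 2 * N) π V
    have h7 : ‖h π i V‖ ^ k ≤ (π.lam ^ (-K)) ^ k :=
      pow_le_pow_left₀ (norm_nonneg _) (H2 π hπ2 i V hV) k
    calc c.chi ν (ℓ + 2 * N) π V * ‖h π i V‖ ^ k ≤ 1 * ‖h π i V‖ ^ k :=
          mul_le_mul_of_nonneg_right h6.2 (by positivity)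
      _ ≤ _ := by rw [one_mul]; exact h7
  have h8 : (π.lam ^ (c.e / 4)) ^ N * (π.lam ^ (-K)) ^ k ≤ π.lam ^ ((k : ℝ) * a - ε) := by
    rw [rp_pow hlam, rp_pow hlam, ← Real.rpow_add hlam]
    exact rp_anti hlam hlam1 (by linarith)
  have h9 : (π.lam ^ (c.e / 4)) ^ N *
      Ex ν (fun V => c.chi ν (ℓ + 2 * N) π V * ‖h π i V‖ ^ k) ≤ π.lam ^ ((k : ℝ) * a - ε) :=
    (mul_le_mul_of_nonneg_left h5 (pow_nonneg (rp_pos hlam _).le N)).trans h8
  simp only [Nat.mul_zero, Nat.add_zero] at h4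
  linarith

lemma stes_zero (hν : BLaw ν R s2) (hc : c.Ok) : SES c ν h a 0 := by
  intro ℓ ε hε
  refine ⟨1, 1, one_pos, one_pos, fun π hπ i => ?_⟩
  obtain ⟨hlam, hlam1, hη⟩ := ok_pos hc le_rfl hπ
  have h1 : Ex ν (fun V => c.chi ν ℓ π V * ‖h π i V‖ ^ 0) ≤ 1 := by
    simp only [pow_zero, mul_one]
    exact (Ex_box_mono hν (continuous_chi c ν ℓ π hη) (continuous_const (y := (1 : ℝ)))
      (fun V _ => (chi_mem c ν ℓ π V).2)).trans (Ex_one hν _).le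
  refine h1.trans ?_
  rw [one_mul]
  exact Real.one_le_rpow_of_pos_of_le_one_of_nonpos hlam hlam1 (by push_cast; linarith)

lemma stes_two (hν : BLaw ν R s2) (hc : c.Ok) (hh : ESH c ν R ι h δ a K)
    (hDg : DomF c ν (fun _ => Unit) (fun π _ V => √(∑ u, c.D ν R π u V ^ 2)) (c.e / 2)) :
    SES c ν h a 2 := by
  apply stes_iter hν hc hh
  intro ℓ ε hε
  obtain ⟨C, l, hC, hl, hl', H⟩ := esa_base hν hc hh hDg ℓ
  refine ⟨C, l, hl, fun π hπ i => (H π hπ i).trans ?_⟩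
  obtain ⟨hlam, hlam1, hη⟩ := ok_pos hc hl' hπ
  have h1 : (π.lam ^ a) ^ 2 ≤ π.lam ^ (((2 : ℕ) : ℝ) * a - ε) := by
    rw [rp_pow hlam]
    exact rp_anti hlam hlam1 (by linarith)
  exact mul_le_mul_of_nonneg_left (add_le_add le_rfl h1) hC.le

lemma stes_step (hν : BLaw ν R s2) (hc : c.Ok) (hh : ESH c ν R ι h δ a K)
    (hDg : DomF c ν (fun _ => Unit) (fun π _ V => √(∑ u, c.D ν R π u V ^ 2)) (c.e / 2))
    {r : ℕ} (hr : 1 ≤ r) (H1 : SES c ν h a r) (H2 : SES c ν h a (2 * r - 2)) :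
    SES c ν h a (2 * r) := by
  apply stes_iter hν hc hh
  intro ℓ ε hε
  obtain ⟨C1, l1, hC1, hl1, hl1', G1⟩ := esa_step hν hc hh hDg hr ℓ
  obtain ⟨C2, l2, hC2, hl2, G2⟩ := H1 (ℓ + 1) (ε / 2) (by positivity)
  obtain ⟨C3, l3, hC3, hl3, G3⟩ := H2 (ℓ + 2) ε hε
  refine ⟨C2 ^ 2 + C1 * (1 + C3 + 1), min l1 (min l2 l3), by positivity, fun π hπ i => ?_⟩
  have hπ1 := c.S_mono ν (min_le_left _ _) hπ
  have hπ2 := c.S_mono ν ((min_le_right l1 _).trans (min_le_left l2 l3)) hπ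
  have hπ3 := c.S_mono ν ((min_le_right l1 _).trans (min_le_right l2 l3)) hπ
  obtain ⟨hlam, hlam1, hη⟩ := ok_pos hc hl1' hπ1
  have e1 := G1 π hπ1 i
  have e2 := G2 π hπ2 i
  have e3 := G3 π hπ3 i
  set T := Ex ν (fun V => c.chi ν (ℓ + 2) π V * ‖h π i V‖ ^ (2 * r)) with hT
  set U := Ex ν (fun V => c.chi ν (ℓ + 2) π V * ‖h π i V‖ ^ (2 * r - 2)) with hU
  set W := Ex ν (fun V => c.chi ν (ℓ + 1) π V * ‖h π i V‖ ^ r) with hW
  have hT0 : 0 ≤ T := Ex_box_nonneg hν (fun V _ => mul_nonneg (chi_mem c ν _ π V).1 (by positivity))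
  have hW0 : 0 ≤ W := Ex_box_nonneg hν (fun V _ => mul_nonneg (chi_mem c ν _ π V).1 (by positivity))
  set w := π.lam ^ (((2 * r : ℕ) : ℝ) * a - ε) with hw
  have hw0 : 0 ≤ w := (rp_pos hlam _).le
  have f1 : W ^ 2 ≤ C2 ^ 2 * w := by
    have g1 : W ^ 2 ≤ (C2 * π.lam ^ ((r : ℝ) * a - ε / 2)) ^ 2 := pow_le_pow_left₀ hW0 e2 2
    have g2 : (π.lam ^ ((r : ℝ) * a - ε / 2)) ^ 2 = w := by
      rw [rp_pow hlam, hw]; congr 1; push_cast; ring
    rw [mul_pow, g2] at g1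
    exact g1
  have f2 : (π.lam ^ a) ^ 2 * U ≤ C3 * w := by
    have g1 : (π.lam ^ a) ^ 2 * U ≤ (π.lam ^ a) ^ 2 * (C3 * π.lam ^ (((2 * r - 2 : ℕ) : ℝ) * a - ε)) :=
      mul_le_mul_of_nonneg_left e3 (by positivity)
    have g2 : (π.lam ^ a) ^ 2 * π.lam ^ (((2 * r - 2 : ℕ) : ℝ) * a - ε) = w := by
      rw [rp_pow hlam, ← Real.rpow_add hlam, hw]
      congr 1
      rw [Nat.cast_sub (by omega)]
      push_cast; ring
    calc _ ≤ _ := g1
      _ = C3 * ((π.lam ^ a) ^ 2 * π.lam ^ (((2 * r - 2 : ℕ) : ℝ) * a - ε)) := by ring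
      _ = _ := by rw [g2]
  have f3 : (π.lam ^ a) ^ (2 * r) ≤ w := by
    rw [rp_pow hlam]
    exact rp_anti hlam hlam1 (by linarith)
  have hg0 : 0 ≤ π.lam ^ (c.e / 2) * T := mul_nonneg (rp_pos hlam _).le hT0
  calc _ ≤ _ := e1
    _ ≤ C2 ^ 2 * w + C1 * (π.lam ^ (c.e / 2) * T + C3 * w + w) :=
        add_le_add f1 (mul_le_mul_of_nonneg_left (by linarith) hC1.le)
    _ ≤ (C2 ^ 2 + C1 * (1 + C3 + 1)) * (π.lam ^ (c.e / 2) * T + w) := by
        have k1 : 0 ≤ C2 ^ 2 * (π.lam ^ (c.e / 2) * T) := by positivity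
        have k2 : 0 ≤ C1 * C3 * (π.lam ^ (c.e / 2) * T) := by positivity
        have k3 : 0 ≤ C1 * (π.lam ^ (c.e / 2) * T) := by positivity
        have k4 : 0 ≤ C1 * w := by positivity
        nlinarith

lemma stes_down (hν : BLaw ν R s2) (hc : c.Ok) (hh : ESH c ν R ι h δ a K) {k : ℕ}
    (H : SES c ν h a (k + 1)) : SES c ν h a k := by
  intro ℓ ε hε
  obtain ⟨C, l, hC, hl, G⟩ := H ℓ ε hε
  refine ⟨1 + C, min l 1, by positivity, by positivity, fun π hπ i => ?_⟩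
  obtain ⟨hlam, hlam1, hη⟩ := ok_pos hc (min_le_right _ _) hπ
  have g := G π (c.S_mono ν (min_le_left _ _) hπ) i
  have hy := rp_pos hlam a
  have ycont : Continuous (fun V : Tor c.d π.n → ℝ => (π.lam ^ a) ^ k +
      (π.lam ^ a)⁻¹ * (c.chi ν ℓ π V * ‖h π i V‖ ^ (k + 1))) :=
    continuous_const.add (continuous_const.mul
      ((continuous_chi c ν ℓ π hη).mul ((hh.ch π hη i).norm.pow (k + 1))))
  have h1 : Ex ν (fun V => c.chi ν ℓ π V * ‖h π i V‖ ^ k) ≤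
      Ex ν (fun V : Tor c.d π.n → ℝ => (π.lam ^ a) ^ k +
        (π.lam ^ a)⁻¹ * (c.chi ν ℓ π V * ‖h π i V‖ ^ (k + 1))) := by
    refine Ex_box_mono hν ((continuous_chi c ν ℓ π hη).mul ((hh.ch π hη i).norm.pow k)) ycont
      (fun V _ => ?_)
    obtain ⟨c0, c1⟩ := chi_mem c ν ℓ π V
    set x := ‖h π i V‖ with hx
    have hx0 : 0 ≤ x := norm_nonneg _
    have key : x ^ k ≤ (π.lam ^ a) ^ k + (π.lam ^ a)⁻¹ * x ^ (k + 1) := by
      rcases le_total x (π.lam ^ a) with hle | hle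
      · have := pow_le_pow_left₀ hx0 hle k
        have h2 : 0 ≤ (π.lam ^ a)⁻¹ * x ^ (k + 1) := by positivity
        linarith
      · have h2 : x ^ k ≤ (π.lam ^ a)⁻¹ * x ^ (k + 1) := by
          rw [pow_succ, ← mul_assoc, mul_comm ((π.lam ^ a)⁻¹) (x ^ k), mul_assoc]
          refine le_mul_of_one_le_right (by positivity) ?_
          rw [inv_mul_eq_div, one_le_div hy]
          exact hle
        have h3 : 0 ≤ (π.lam ^ a) ^ k := by positivity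
        linarith
    have k1 : c.chi ν ℓ π V * x ^ k ≤ c.chi ν ℓ π V * ((π.lam ^ a) ^ k + (π.lam ^ a)⁻¹ * x ^ (k + 1)) :=
      mul_le_mul_of_nonneg_left key c0
    have k2 : c.chi ν ℓ π V * (π.lam ^ a) ^ k ≤ 1 * (π.lam ^ a) ^ k :=
      mul_le_mul_of_nonneg_right c1 (by positivity)
    nlinarith
  have h2 : Ex ν (fun V : Tor c.d π.n → ℝ => (π.lam ^ a) ^ k +
      (π.lam ^ a)⁻¹ * (c.chi ν ℓ π V * ‖h π i V‖ ^ (k + 1))) =
      (π.lam ^ a) ^ k + (π.lam ^ a)⁻¹ * Ex ν (fun V => c.chi ν ℓ π V * ‖h π i V‖ ^ (k + 1)) := by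
    have i1 : Integrable (fun _ : Tor c.d π.n → ℝ => (π.lam ^ a) ^ k)
        (Measure.pi fun _ : Tor c.d π.n => ν) := int_cont hν continuous_const
    have i2 : Integrable (fun V : Tor c.d π.n → ℝ => (π.lam ^ a)⁻¹ *
        (c.chi ν ℓ π V * ‖h π i V‖ ^ (k + 1))) (Measure.pi fun _ : Tor c.d π.n => ν) :=
      int_cont hν (continuous_const.mul
        ((continuous_chi c ν ℓ π hη).mul ((hh.ch π hη i).norm.pow (k + 1))))
    have e1 := Ex_one (X := Tor c.d π.n) hν ((π.lam ^ a) ^ k)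
    unfold Ex at e1 ⊢
    rw [integral_add i1 i2, e1, integral_const_mul]
  have h3 : (π.lam ^ a) ^ k ≤ π.lam ^ ((k : ℝ) * a - ε) := by
    rw [rp_pow hlam]
    exact rp_anti hlam hlam1 (by linarith)
  have h4 : (π.lam ^ a)⁻¹ * Ex ν (fun V => c.chi ν ℓ π V * ‖h π i V‖ ^ (k + 1)) ≤
      C * π.lam ^ ((k : ℝ) * a - ε) := by
    have g1 : (π.lam ^ a)⁻¹ * Ex ν (fun V => c.chi ν ℓ π V * ‖h π i V‖ ^ (k + 1)) ≤
        (π.lam ^ a)⁻¹ * (C * π.lam ^ (((k + 1 : ℕ) : ℝ) * a - ε)) :=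
      mul_le_mul_of_nonneg_left g (by positivity)
    have g2 : (π.lam ^ a)⁻¹ * π.lam ^ (((k + 1 : ℕ) : ℝ) * a - ε) = π.lam ^ ((k : ℝ) * a - ε) := by
      rw [← Real.rpow_neg hlam.le, ← Real.rpow_add hlam]
      congr 1
      push_cast; ring
    calc _ ≤ _ := g1
      _ = C * ((π.lam ^ a)⁻¹ * π.lam ^ (((k + 1 : ℕ) : ℝ) * a - ε)) := by ring
      _ = _ := by rw [g2]
  rw [add_mul, one_mul]
  linarith

theorem stES {ν : Measure ℝ} {R s2 : ℝ} (hν : BLaw ν R s2) {c : Cx} (hc : c.Ok) {ι : Par → Type}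
    {h : (π : Par) → ι π → (Tor c.d π.n → ℝ) → ℂ}
    {δ : (π : Par) → ι π → Tor c.d π.n → (Tor c.d π.n → ℝ) → ℝ} {a K : ℝ}
    (hh : ESH c ν R ι h δ a K)
    (hDg : DomF c ν (fun _ => Unit) (fun π _ V => √(∑ u, c.D ν R π u V ^ 2)) (c.e / 2)) :
    DomF c ν ι (fun π i V => ‖h π i V‖) a := by
  have key : ∀ r : ℕ, ∀ k, k ≤ 2 * r → SES c ν h a k := by
    intro r
    induction r with
    | zero =>
      intro k hk
      have : k = 0 := by omega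
      subst this
      exact stes_zero hν hc
    | succ r ih =>
      have top : SES c ν h a (2 * (r + 1)) := by
        rcases Nat.eq_zero_or_pos r with rfl | hr
        · exact stes_two hν hc hh hDg
        · exact stes_step hν hc hh hDg (by omega) (ih (r + 1) (by omega))
            (ih (2 * (r + 1) - 2) (by omega))
      intro k hk
      rcases Nat.lt_or_ge k (2 * r + 1) with h1 | h1
      · exact ih k (by omega)
      · rcases Nat.lt_or_ge k (2 * r + 2) with h2 | h2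
        · have : k = 2 * r + 1 := by omega
          subst this
          exact stes_down hν hc hh top
        · have : k = 2 * (r + 1) := by omega
          subst this
          exact top
  intro p ℓ ε hε
  obtain ⟨C, l, hC, hl, G⟩ := key p p (by omega) ℓ ε hε
  refine ⟨C, l, hC, hl, fun π hπ i => ?_⟩
  simpa only [abs_norm] using G π hπ i

end Pool.Agent.BK3
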