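import Pool.Agent.BK3.RegC
import Pool.Agent.BK3.Lvl

/-! BK3: definitions for the transport equation on the torus. -/

open MeasureTheory Finset Matrix Pool.Agent.BK

noncomputable section

namespace Pool.Agent.BK3

/-- `N_k = tw u M (tw u H0 - H0)`, `u = ch k`, `M = (H0 - ζ)⁻¹`. -/
def Nk (ν : Measure ℝ) (s2 : ℝ) (d : ℕ) (π : Par) (k : Tor d π.n) :
    Matrix (Tor d π.n) (Tor d π.n) ℂ :=
  tw (ch k) (MM ν s2 d π.n π.lam π.z) * (tw (ch k) (H0 d π.n) - H0 d π.n)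

/-- `m_k = N_k Mᴴ`. -/
def mk' (ν : Measure ℝ) (s2 : ℝ) (d : ℕ) (π : Par) (k : Tor d π.n) :
    Matrix (Tor d π.n) (Tor d π.n) ℂ :=
  Nk ν s2 d π k * (MM ν s2 d π.n π.lam π.z)ᴴ

/-- `Q(k) = ∑_y |M_0y|² (1 - Re ch k y)`. -/
def Qk (ν : Measure ℝ) (s2 : ℝ) (d : ℕ) (π : Par) (k : Tor d π.n) : ℝ :=
  ∑ y, ‖MM ν s2 d π.n π.lam π.z 0 y‖ ^ 2 * (1 - (ch k y).re)

/-- `ρ(k) = E ∑_y ch k y |G_0y|²`. -/
def rhok (ν : Measure ℝ) (d : ℕ) (π : Par) (k : Tor d π.n) : ℂ :=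
  Ex ν fun V : Tor d π.n → ℝ =>
    (tw (ch k) (GG d π.n π.lam π.z V) * (GG d π.n π.lam π.z V)ᴴ) 0 0

/-- Small momenta. -/
def Sml (c : Cx) (s2 : ℝ) (π : Par) (k : Tor c.d π.n) : Prop :=
  ∀ l, |ang π.n (k l)| ≤ c.κ ^ 2 * s2 / 8 * π.lam ^ 2

end Pool.Agent.BK3
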