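import Pool.Agent.BK3.TorN

/-! BK3 module TorM: weighted rows of `m_k = N_k Mᴴ`.
`m` is translation invariant, so `a = 0` (and the columns are the rows). Near part, `|b_l| ≤ rw` for all `l`
(`valMinAbs`): `1/φ_0b ≤ e^d` (`inv_ph2_le`) and `∑_b |m_0b|² ≤ (1/γ)² ∑_b |N_0b|² ≤ (lam^(1-2t)/γ)²`, `γ ≥ (κ s2/4) lam²`
(the row of `N Mᴴ` is `conj M` applied to the row of `N`: `nsq_Gr_mulVec`, `M` symmetric): `≤ C lam^(-1-2t)`.
Far part: let `l` be a coordinate with `|b_l|` maximal, `|b_l| > rw`. `|m_0b| ≤ ∑_c |N_0c| |M_bc|`; by `torus_ct`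
(`v = 0`, translation) `|M_xy| ≤ (2/γ) exp(-(γ/8)|(x-y)_l|)`, so `|N_0c| ≤ card · 8d (2/γ) e^{γ/8} exp(-(γ/8)|c_l|)`
and, since `|c_l| + |(b-c)_l| ≥ |b_l|`, `|m_0b| ≤ card² · C γ^(-2) exp(-(γ/8)|b_l|)`, while
`1/φ_0b ≤ exp(d |b_l|/rw) ≤ exp(γ|b_l|/16)` (`16 d ≤ rw γ`). So the far part is
`≤ card⁵ C γ^(-4) exp(-(γ/8) rw)`, and `γ rw ≥ c lam^(-e/(40d))`: `sm_exp`. -/

open MeasureTheory Finset Matrix Pool.Agent.BK

noncomputable section

namespace Pool.Agent.BK3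

/-- Translation invariant matrices. -/
def TormInv {d n : ℕ} (A : Matrix (Tor d n) (Tor d n) ℂ) : Prop :=
  ∀ t x y, A (x + t) (y + t) = A x y

section det

variable {d n : ℕ}

lemma TormInv.mul {A B : Matrix (Tor d n) (Tor d n) ℂ} (hA : TormInv A) (hB : TormInv B) :
    TormInv (A * B) := by
  intro t x y
  rw [Matrix.mul_apply, Matrix.mul_apply, ← Equiv.sum_comp (Equiv.addRight t)]
  refine Finset.sum_congr rfl fun c _ => ?_
  rw [Equiv.coe_addRight, hA, hB]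

lemma TormInv.sub {A B : Matrix (Tor d n) (Tor d n) ℂ} (hA : TormInv A) (hB : TormInv B) :
    TormInv (A - B) := by
  intro t x y
  rw [Matrix.sub_apply, Matrix.sub_apply, hA, hB]

lemma TormInv.conj {A : Matrix (Tor d n) (Tor d n) ℂ} (hA : TormInv A) : TormInv Aᴴ := by
  intro t x y
  rw [Matrix.conjTranspose_apply, Matrix.conjTranspose_apply, hA]

lemma TormInv.tw {A : Matrix (Tor d n) (Tor d n) ℂ} (hA : TormInv A) (k : Tor d n) :
    TormInv (tw (ch k) A) := by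
  intro t x y
  rw [tw1_apply, tw1_apply, hA, ch_add, ch_add, map_mul]
  have h := tw1_conj (u := ch k) (norm_ch k) t
  linear_combination (starRingEnd ℂ (ch k x) * A x y * ch k y) * h

/-- The matrix `N` for a general `ζ`. -/
def tormN (ζ : ℂ) (k : Tor d n) : Matrix (Tor d n) (Tor d n) ℂ :=
  tw (ch k) (Gr (H0 d n) 0 ζ) * (tw (ch k) (H0 d n) - H0 d n)

/-- The matrix `m` for a general `ζ`. -/
def tormM (ζ : ℂ) (k : Tor d n) : Matrix (Tor d n) (Tor d n) ℂ :=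
  tormN ζ k * (Gr (H0 d n) 0 ζ)ᴴ

lemma tormInv_Gr (ζ : ℂ) : TormInv (Gr (H0 d n) 0 ζ) := fun t x y => Gr0_add ζ t x y

lemma tormInv_H0 : TormInv (H0 d n) := fun t x y => H0_add t x y

lemma tormInv_M (ζ : ℂ) (k : Tor d n) : TormInv (tormM ζ k) :=
  (((tormInv_Gr ζ).tw k).mul ((tormInv_H0.tw k).sub tormInv_H0)).mul (tormInv_Gr ζ).conj

lemma torm_sub (a b : ZMod (2 * n + 1)) :
    |((a.valMinAbs : ℤ) : ℝ)| ≤ |((b.valMinAbs : ℤ) : ℝ)| + |(((a - b).valMinAbs : ℤ) : ℝ)| := by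
  have h := ZMod.natAbs_valMinAbs_add_le b (a - b)
  rw [add_sub_cancel] at h
  have h2 := h.trans (Int.natAbs_add_le _ _)
  have h3 : ((a.valMinAbs.natAbs : ℕ) : ℝ) ≤ (b.valMinAbs.natAbs : ℕ) +
      ((a - b).valMinAbs.natAbs : ℕ) := by exact_mod_cast h2
  simpa only [Nat.cast_natAbs, Int.cast_abs] using h3

lemma torm_step (y : Tor d n) (j l : Fin d) :
    |((((y + Pi.single j 1 : Tor d n) l).valMinAbs : ℤ) : ℝ)| ≤
      |(((y l).valMinAbs : ℤ) : ℝ)| + 1 := by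
  by_cases h : l = j
  · subst h
    have h1 := torCT_vma (m := 2 * n + 1) (y l)
    rw [Pi.add_apply, Pi.single_eq_same]
    have := (abs_le.1 h1).2
    linarith
  · rw [Pi.add_apply, Pi.single_eq_of_ne h, add_zero]
    linarith

lemma torm_step' (y : Tor d n) (j l : Fin d) :
    |((((y - Pi.single j 1 : Tor d n) l).valMinAbs : ℤ) : ℝ)| ≤
      |(((y l).valMinAbs : ℤ) : ℝ)| + 1 := by
  by_cases h : l = j
  · subst h
    have h1 := torCT_vma (m := 2 * n + 1) ((y - Pi.single l 1 : Tor d n) l)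
    have h2 : (y - Pi.single l 1 : Tor d n) l + 1 = y l := by
      rw [Pi.sub_apply, Pi.single_eq_same]; ring
    rw [h2] at h1
    have := (abs_le.1 h1).1
    linarith
  · rw [Pi.sub_apply, Pi.single_eq_of_ne h, sub_zero]
    linarith

lemma torm_H0_norm (x y : Tor d n) : ‖H0 d n x y‖ ≤ 4 * d := by
  unfold H0
  have h1 : ‖(if x = y then 2 * (d : ℂ) else 0)‖ ≤ 2 * d := by
    split_ifs
    · rw [norm_mul]; simp
    · simp
  have h2 : ‖∑ j : Fin d, ((if y = x + Pi.single j 1 then (1 : ℂ) else 0) +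
      (if y = x - Pi.single j 1 then (1 : ℂ) else 0))‖ ≤ 2 * d := by
    calc _ ≤ ∑ j : Fin d, ‖((if y = x + Pi.single j 1 then (1 : ℂ) else 0) +
      (if y = x - Pi.single j 1 then (1 : ℂ) else 0))‖ := norm_sum_le _ _
      _ ≤ ∑ _j : Fin d, (2 : ℝ) := by
        refine Finset.sum_le_sum fun j _ => (norm_add_le _ _).trans ?_
        have e1 : ‖(if y = x + Pi.single j 1 then (1 : ℂ) else 0)‖ ≤ 1 := by split_ifs <;> simp
        have e2 : ‖(if y = x - Pi.single j 1 then (1 : ℂ) else 0)‖ ≤ 1 := by split_ifs <;> simp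
        linarith
      _ = 2 * d := by
        rw [Finset.sum_const, Finset.card_univ, Fintype.card_fin, nsmul_eq_mul]; ring
  exact (norm_sub_le _ _).trans (by linarith)

lemma torm_H0_ne {x y : Tor d n} (h : H0 d n x y ≠ 0) (l : Fin d) :
    |(((y l).valMinAbs : ℤ) : ℝ)| ≤ |(((x l).valMinAbs : ℤ) : ℝ)| + 1 := by
  by_cases h0 : x = y
  · subst h0; linarith
  · by_cases h1 : ∃ j : Fin d, y = x + Pi.single j 1 ∨ y = x - Pi.single j 1
    · obtain ⟨j, rfl | rfl⟩ := h1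
      · exact torm_step x j l
      · exact torm_step' x j l
    · exfalso
      push Not at h1
      apply h
      unfold H0
      rw [if_neg h0, zero_sub, neg_eq_zero]
      refine Finset.sum_eq_zero fun j _ => ?_
      rw [if_neg (h1 j).1, if_neg (h1 j).2, add_zero]

lemma torm_Gr {ζ : ℂ} (h0 : 0 < ζ.im) (h1 : ζ.im ≤ 1) (l : Fin d) (x y : Tor d n) :
    ‖Gr (H0 d n) 0 ζ x y‖ ≤
      2 / ζ.im * Real.exp (-(ζ.im / 8 * |((((x - y) l).valMinAbs : ℤ) : ℝ)|)) := by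
  have h := Gr0_add ζ y (x - y) 0
  rw [sub_add_cancel, zero_add] at h
  rw [h]
  exact torus_ct 0 h0 h1 l (x - y)

lemma torm_N {ζ : ℂ} (h0 : 0 < ζ.im) (h1 : ζ.im ≤ 1) (k : Tor d n) (l : Fin d) (c : Tor d n) :
    ‖tormN ζ k 0 c‖ ≤ 32 * d * Fintype.card (Tor d n) / ζ.im *
      Real.exp (-(ζ.im / 8 * |(((c l).valMinAbs : ℤ) : ℝ)|)) := by
  have hterm : ∀ b : Tor d n, ‖tw (ch k) (Gr (H0 d n) 0 ζ) 0 b *
      (tw (ch k) (H0 d n) - H0 d n) b c‖ ≤
        32 * d / ζ.im * Real.exp (-(ζ.im / 8 * |(((c l).valMinAbs : ℤ) : ℝ)|)) := by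
    intro b
    have hW : ‖(tw (ch k) (H0 d n) - H0 d n) b c‖ ≤ 2 * ‖H0 d n b c‖ := by
      rw [Matrix.sub_apply]
      refine (norm_sub_le _ _).trans ?_
      rw [norm_tw (norm_ch k)]
      linarith
    by_cases hb : H0 d n b c = 0
    · rw [hb, norm_zero, mul_zero] at hW
      have : (tw (ch k) (H0 d n) - H0 d n) b c = 0 := norm_le_zero_iff.1 hW
      rw [this, mul_zero, norm_zero]
      positivity
    · have h2 := torm_H0_ne hb l
      have h3 := torm_H0_norm b c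
      have h4 : ‖Gr (H0 d n) 0 ζ 0 b‖ ≤
          2 / ζ.im * Real.exp (-(ζ.im / 8 * |(((b l).valMinAbs : ℤ) : ℝ)|)) := by
        rw [Gr_symm (RS_H0 d n) 0 h0.ne' 0 b]
        exact torus_ct 0 h0 h1 l b
      have h5 : Real.exp (-(ζ.im / 8 * |(((b l).valMinAbs : ℤ) : ℝ)|)) ≤
          2 * Real.exp (-(ζ.im / 8 * |(((c l).valMinAbs : ℤ) : ℝ)|)) := by
        have h6 : -(ζ.im / 8 * |(((b l).valMinAbs : ℤ) : ℝ)|) ≤
            1 / 8 + -(ζ.im / 8 * |(((c l).valMinAbs : ℤ) : ℝ)|) := by nlinarith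
        refine (Real.exp_le_exp.2 h6).trans ?_
        rw [Real.exp_add]
        refine mul_le_mul_of_nonneg_right ?_ (Real.exp_pos _).le
        have h7 : Real.exp (1 / 8) ≤ Real.exp (Real.log 2) := by
          apply Real.exp_le_exp.2
          have := Real.log_two_gt_d9
          linarith
        rwa [Real.exp_log (by norm_num)] at h7
      rw [norm_mul, norm_tw (norm_ch k)]
      calc ‖Gr (H0 d n) 0 ζ 0 b‖ * ‖(tw (ch k) (H0 d n) - H0 d n) b c‖
          ≤ (2 / ζ.im * (2 * Real.exp (-(ζ.im / 8 * |(((c l).valMinAbs : ℤ) : ℝ)|)))) *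
            (2 * (4 * d)) := by
            refine mul_le_mul (h4.trans ?_) (hW.trans ?_) (norm_nonneg _) (by positivity)
            · exact mul_le_mul_of_nonneg_left h5 (by positivity)
            · linarith
        _ = 32 * d / ζ.im * Real.exp (-(ζ.im / 8 * |(((c l).valMinAbs : ℤ) : ℝ)|)) := by ring
  unfold tormN
  rw [Matrix.mul_apply]
  refine (norm_sum_le _ _).trans ((Finset.sum_le_sum fun b _ => hterm b).trans ?_)
  rw [Finset.sum_const, Finset.card_univ, nsmul_eq_mul]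
  apply le_of_eq
  ring

lemma torm_far {ζ : ℂ} (h0 : 0 < ζ.im) (h1 : ζ.im ≤ 1) (k : Tor d n) (l : Fin d) (b : Tor d n) :
    ‖tormM ζ k 0 b‖ ≤ 64 * d * (Fintype.card (Tor d n) : ℝ) ^ 2 / ζ.im ^ 2 *
      Real.exp (-(ζ.im / 8 * |(((b l).valMinAbs : ℤ) : ℝ)|)) := by
  unfold tormM
  rw [Matrix.mul_apply]
  have hterm : ∀ c : Tor d n, ‖tormN ζ k 0 c * (Gr (H0 d n) 0 ζ)ᴴ c b‖ ≤
      64 * d * (Fintype.card (Tor d n) : ℝ) / ζ.im ^ 2 *
        Real.exp (-(ζ.im / 8 * |(((b l).valMinAbs : ℤ) : ℝ)|)) := by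
    intro c
    have h2 := torm_N h0 h1 k l c
    have h3 := torm_Gr h0 h1 l b c
    have h4 : Real.exp (-(ζ.im / 8 * |(((c l).valMinAbs : ℤ) : ℝ)|)) *
        Real.exp (-(ζ.im / 8 * |((((b - c) l).valMinAbs : ℤ) : ℝ)|)) ≤
        Real.exp (-(ζ.im / 8 * |(((b l).valMinAbs : ℤ) : ℝ)|)) := by
      rw [← Real.exp_add]
      apply Real.exp_le_exp.2
      have h5 := torm_sub (b l) (c l)
      rw [Pi.sub_apply]
      nlinarith
    rw [norm_mul, Matrix.conjTranspose_apply, norm_star]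
    calc ‖tormN ζ k 0 c‖ * ‖Gr (H0 d n) 0 ζ b c‖
        ≤ (32 * d * Fintype.card (Tor d n) / ζ.im *
            Real.exp (-(ζ.im / 8 * |(((c l).valMinAbs : ℤ) : ℝ)|))) *
          (2 / ζ.im * Real.exp (-(ζ.im / 8 * |((((b - c) l).valMinAbs : ℤ) : ℝ)|))) :=
          mul_le_mul h2 h3 (norm_nonneg _) (by positivity)
      _ = 64 * d * (Fintype.card (Tor d n) : ℝ) / ζ.im ^ 2 *
          (Real.exp (-(ζ.im / 8 * |(((c l).valMinAbs : ℤ) : ℝ)|)) *
          Real.exp (-(ζ.im / 8 * |((((b - c) l).valMinAbs : ℤ) : ℝ)|))) := by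
          field_simp; ring
      _ ≤ _ := mul_le_mul_of_nonneg_left h4 (by positivity)
  refine (norm_sum_le _ _).trans ((Finset.sum_le_sum fun b _ => hterm b).trans ?_)
  rw [Finset.sum_const, Finset.card_univ, nsmul_eq_mul]
  apply le_of_eq
  ring

/-- The row of `m` in terms of the row of `N`. -/
lemma torm_near {ζ : ℂ} (h0 : 0 < ζ.im) (k : Tor d n) :
    ∑ b, ‖tormM ζ k 0 b‖ ^ 2 ≤ (1 / ζ.im) ^ 2 * ∑ b, ‖tormN ζ k 0 b‖ ^ 2 := by
  have h := nsq_Gr_mulVec (RS_H0 d n) 0 h0 (fun c => star (tormN ζ k 0 c))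
  unfold nsq at h
  simp only [norm_star] at h
  refine le_trans (le_of_eq ?_) h
  refine Finset.sum_congr rfl fun b _ => ?_
  have h1 : tormM ζ k 0 b = star ((Gr (H0 d n) 0 ζ *ᵥ fun c => star (tormN ζ k 0 c)) b) := by
    unfold tormM
    rw [Matrix.mul_apply, Matrix.mulVec, dotProduct, star_sum]
    refine Finset.sum_congr rfl fun c _ => ?_
    rw [Matrix.conjTranspose_apply, star_mul', star_star, mul_comm]
  rw [h1, norm_star]

lemma torm_split {ζ : ℂ} (h0 : 0 < ζ.im) (h1 : ζ.im ≤ 1) {r : ℝ} (hr : 0 < r)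
    (h16 : 16 * d ≤ r * ζ.im) (k : Tor d n) :
    ∑ b, (‖tormM ζ k 0 b‖ / ph2 r 0 b) ^ 2 ≤
      Real.exp d ^ 2 * ((1 / ζ.im) ^ 2 * ∑ b, ‖tormN ζ k 0 b‖ ^ 2) +
      Fintype.card (Tor d n) * ((64 * d * (Fintype.card (Tor d n) : ℝ) ^ 2 / ζ.im ^ 2) ^ 2 *
        Real.exp (-(ζ.im / 8 * r))) := by
  set K := 64 * d * (Fintype.card (Tor d n) : ℝ) ^ 2 / ζ.im ^ 2 with hK
  have hK0 : 0 ≤ K := by positivity
  have hphi : ∀ b : Tor d n, 0 < ph2 r 0 b := fun b => Real.exp_pos _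
  have key : ∀ b : Tor d n, (‖tormM ζ k 0 b‖ / ph2 r 0 b) ^ 2 ≤
      Real.exp d ^ 2 * ‖tormM ζ k 0 b‖ ^ 2 + K ^ 2 * Real.exp (-(ζ.im / 8 * r)) := by
    intro b
    by_cases hb : ∀ l, |((((b - 0) l).valMinAbs : ℤ) : ℝ)| ≤ r
    · have h2 := inv_ph2_le hr 0 b hb
      rw [mul_div_assoc, div_self hr.ne', mul_one] at h2
      have h3 : ‖tormM ζ k 0 b‖ / ph2 r 0 b ≤ Real.exp d * ‖tormM ζ k 0 b‖ := by
        rw [div_eq_mul_inv, mul_comm]
        exact mul_le_mul_of_nonneg_right h2 (norm_nonneg _)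
      have h4 := pow_le_pow_left₀ (div_nonneg (norm_nonneg _) (hphi b).le) h3 2
      rw [mul_pow] at h4
      have h5 : 0 ≤ K ^ 2 * Real.exp (-(ζ.im / 8 * r)) := by positivity
      linarith
    · push Not at hb
      obtain ⟨l1, hl1⟩ := hb
      have : Nonempty (Fin d) := ⟨l1⟩
      obtain ⟨l, hl⟩ := Finite.exists_max (fun l : Fin d => |((((b - 0) l).valMinAbs : ℤ) : ℝ)|)
      set L := |((((b - 0) l).valMinAbs : ℤ) : ℝ)| with hL
      have hLr : r < L := lt_of_lt_of_le hl1 (hl l1)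
      have h2 := inv_ph2_le hr 0 b hl
      have h3 := torm_far h0 h1 k l b
      rw [← hK] at h3
      have hL' : |(((b l).valMinAbs : ℤ) : ℝ)| = L := by rw [hL, sub_zero]
      rw [hL'] at h3
      have h4 : ‖tormM ζ k 0 b‖ / ph2 r 0 b ≤ K * Real.exp (-(ζ.im / 16 * r)) := by
        rw [div_eq_mul_inv]
        calc ‖tormM ζ k 0 b‖ * (ph2 r 0 b)⁻¹ ≤
            (K * Real.exp (-(ζ.im / 8 * L))) * Real.exp (d * L / r) :=
              mul_le_mul h3 h2 (inv_nonneg.2 (hphi b).le) (by positivity)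
          _ = K * Real.exp (-(ζ.im / 8 * L) + d * L / r) := by rw [Real.exp_add]; ring
          _ ≤ _ := by
              refine mul_le_mul_of_nonneg_left (Real.exp_le_exp.2 ?_) hK0
              have h5 : d * L / r ≤ ζ.im / 16 * L := by
                rw [div_le_iff₀ hr]
                have : 0 ≤ L := abs_nonneg _
                nlinarith
              nlinarith
      have h5 := pow_le_pow_left₀ (div_nonneg (norm_nonneg _) (hphi b).le) h4 2
      have h6 : (K * Real.exp (-(ζ.im / 16 * r))) ^ 2 = K ^ 2 * Real.exp (-(ζ.im / 8 * r)) := by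
        rw [mul_pow, ← Real.exp_nat_mul]
        congr 2
        push_cast
        ring
      rw [h6] at h5
      have h7 : 0 ≤ Real.exp d ^ 2 * ‖tormM ζ k 0 b‖ ^ 2 := by positivity
      linarith
  refine (Finset.sum_le_sum fun b _ => key b).trans ?_
  rw [Finset.sum_add_distrib, ← Finset.mul_sum, Finset.sum_const, Finset.card_univ, nsmul_eq_mul]
  have := mul_le_mul_of_nonneg_left (torm_near h0 k) (sq_nonneg (Real.exp d))
  linarith

end det

variable {ν : Measure ℝ} {R s2 : ℝ}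

lemma torm_eq (ν : Measure ℝ) (s2 : ℝ) (d : ℕ) (π : Par) (k : Tor d π.n) :
    mk' ν s2 d π k = tormM (zt ν s2 d π) k := rfl

lemma torm_eqN (ν : Measure ℝ) (s2 : ℝ) (d : ℕ) (π : Par) (k : Tor d π.n) :
    Nk ν s2 d π k = tormN (zt ν s2 d π) k := rfl

lemma torm_add (ν : Measure ℝ) (s2 : ℝ) (d : ℕ) (π : Par) (k t x y : Tor d π.n) :
    mk' ν s2 d π k (x + t) (y + t) = mk' ν s2 d π k x y := by
  rw [torm_eq]
  exact tormInv_M _ k t x y

theorem torm_row (hν : BLaw ν R s2) (c : Cx) (hc : c.Ok) :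
    ∃ lam1 : ℝ, 0 < lam1 ∧ lam1 ≤ 1 ∧ ∀ π ∈ c.S ν lam1, ∀ k : Tor c.d π.n, Sml c s2 π k →
      (∀ a, ∑ b, (‖mk' ν s2 c.d π k a b‖ / ph2 (c.rw π.lam) a b) ^ 2 ≤
        (π.lam ^ (-1 - 3 * c.t)) ^ 2) ∧
      (∀ b, ∑ a, ‖mk' ν s2 c.d π k a b‖ ^ 2 ≤ (π.lam ^ (-1 - 3 * c.t)) ^ 2) := by
  have he := hc.e0
  have hd3 := hc.d3
  have hdpos : (0 : ℝ) < c.d := by
    have : 0 < c.d := by omega
    exact_mod_cast this
  have hs2 := hν.s2_pos
  have hκ := hc.free.kap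
  have hκ1 := hc.free.kap1
  have ht : 0 < c.t := by unfold Cx.t; positivity
  set c0 := c.κ * s2 / 4 with hc0
  have hc0' : 0 < c0 := by positivity
  set α := c.e / (40 * c.d) with hα
  have hα0 : 0 < α := by positivity
  obtain ⟨l1, hl1, hl1', H1⟩ := torn_row hν c hc
  obtain ⟨l2, hl2, hl2', H2⟩ := zfacts hν c hc
  obtain ⟨l3, hl3, hl3', H3⟩ := sm_neg (16 * c.d / c0) hα0
  obtain ⟨l4, hl4, hl4', H4⟩ := sm_le (2 * (Real.exp c.d ^ 2 * (1 / c0) ^ 2))
    (show -2 - 6 * c.t < -2 - 4 * c.t by linarith)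
  obtain ⟨l5, hl5, hl5', H5⟩ := sm_exp (2 * (64 * c.d / c0 ^ 2) ^ 2) (215 * c.d + 8)
    (show 0 < c0 / 8 by positivity) hα0
  refine ⟨min l1 (min l2 (min l3 (min l4 l5))), by positivity, (min_le_left _ _).trans hl1',
    fun π hπ k hk => ?_⟩
  have g1 := c.S_mono ν (min_le_left _ _) hπ
  have g2 := c.S_mono ν ((min_le_right l1 _).trans (min_le_left l2 _)) hπ
  have g3 := c.S_mono ν ((min_le_right l1 _).trans ((min_le_right l2 _).trans
    (min_le_left l3 _))) hπ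
  have g4 := c.S_mono ν ((min_le_right l1 _).trans ((min_le_right l2 _).trans
    ((min_le_right l3 _).trans (min_le_left l4 _)))) hπ
  have g5 := c.S_mono ν ((min_le_right l1 _).trans ((min_le_right l2 _).trans
    ((min_le_right l3 _).trans (min_le_right l4 _)))) hπ
  have Z := H2 π g2
  have hlam := Z.l0
  have hlam1 := Z.l1
  set γ := (zt ν s2 c.d π).im with hγ
  have hγ0 : 0 < γ := lt_of_lt_of_le Z.e0 Z.im_eta
  have hγ1 : γ ≤ 1 := Z.im_hi.trans hκ1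
  have hγlo : c0 * π.lam ^ 2 ≤ γ := Z.im_lo
  set r := c.rw π.lam with hr
  have hr0 : 0 < r := rp_pos hlam _
  have hrγ : c0 * π.lam ^ (-α) ≤ r * γ := by
    have h1 : r * (c0 * π.lam ^ 2) ≤ r * γ := mul_le_mul_of_nonneg_left hγlo hr0.le
    refine le_trans (le_of_eq ?_) h1
    have h2 : r * π.lam ^ 2 = π.lam ^ (-α) := by
      rw [hr, Cx.rw, ← Real.rpow_natCast, ← Real.rpow_add hlam]
      congr 1
      push_cast
      rw [hα]
      ring
    rw [← h2]; ring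
  have h16 : 16 * (c.d : ℝ) ≤ r * γ := by
    refine le_trans ?_ hrγ
    have := H3 π.lam hlam g3.1.2.1
    rw [div_le_iff₀ hc0'] at this
    linarith
  have hrow0 : ∑ b, (‖mk' ν s2 c.d π k 0 b‖ / ph2 r 0 b) ^ 2 ≤ (π.lam ^ (-1 - 3 * c.t)) ^ 2 := by
    rw [torm_eq]
    refine (torm_split hγ0 hγ1 hr0 h16 k).trans ?_
    have hN : ∑ b, ‖tormN (zt ν s2 c.d π) k 0 b‖ ^ 2 ≤ (π.lam ^ (1 - 2 * c.t)) ^ 2 := by
      refine le_trans (Finset.sum_le_sum fun b _ => ?_) (H1 π g1 k hk 0)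
      rw [torm_eqN]
      refine pow_le_pow_left₀ (norm_nonneg _) ?_ 2
      have w := wgt_ph2 (d := c.d) (n := π.n) hr0
      rw [le_div_iff₀ (w.pos 0 b)]
      exact mul_le_of_le_one_right (norm_nonneg _) (w.le 0 b)
    have hinv : (1 / γ) ^ 2 ≤ (1 / c0) ^ 2 * π.lam ^ (-(4 : ℝ)) := by
      have h1 : 1 / γ ≤ 1 / (c0 * π.lam ^ 2) := one_div_le_one_div_of_le (by positivity) hγlo
      have h2 := pow_le_pow_left₀ (by positivity) h1 2
      refine h2.trans (le_of_eq ?_)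
      rw [Real.rpow_neg hlam.le, show π.lam ^ (4 : ℝ) = π.lam ^ 4 from by
        exact_mod_cast Real.rpow_natCast π.lam 4]
      field_simp
    have hA : Real.exp c.d ^ 2 * ((1 / γ) ^ 2 * ∑ b, ‖tormN (zt ν s2 c.d π) k 0 b‖ ^ 2) ≤
        1 / 2 * (π.lam ^ (-1 - 3 * c.t)) ^ 2 := by
      have h1 : (1 / γ) ^ 2 * ∑ b, ‖tormN (zt ν s2 c.d π) k 0 b‖ ^ 2 ≤
          ((1 / c0) ^ 2 * π.lam ^ (-(4 : ℝ))) * (π.lam ^ (1 - 2 * c.t)) ^ 2 :=
        mul_le_mul hinv hN (Finset.sum_nonneg fun _ _ => by positivity)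
          (mul_nonneg (by positivity) (rp_pos hlam _).le)
      have h2 : ((1 / c0) ^ 2 * π.lam ^ (-(4 : ℝ))) * (π.lam ^ (1 - 2 * c.t)) ^ 2 =
          (1 / c0) ^ 2 * π.lam ^ (-2 - 4 * c.t) := by
        rw [rp_pow hlam, mul_assoc, ← Real.rpow_add hlam]
        congr 2
        push_cast; ring
      have h3 := H4 π.lam hlam g4.1.2.1
      have h4 : (π.lam ^ (-1 - 3 * c.t)) ^ 2 = π.lam ^ (-2 - 6 * c.t) := by
        rw [rp_pow hlam]
        congr 1
        push_cast; ring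
      rw [h2] at h1
      rw [h4]
      have h5 := mul_le_mul_of_nonneg_left h1 (sq_nonneg (Real.exp (c.d : ℝ)))
      calc _ ≤ _ := h5
        _ = 1 / 2 * (2 * (Real.exp c.d ^ 2 * (1 / c0) ^ 2) * π.lam ^ (-2 - 4 * c.t)) := by ring
        _ ≤ _ := mul_le_mul_of_nonneg_left h3 (by norm_num)
    have hB : (Fintype.card (Tor c.d π.n) : ℝ) *
        ((64 * c.d * (Fintype.card (Tor c.d π.n) : ℝ) ^ 2 / γ ^ 2) ^ 2 *
          Real.exp (-(γ / 8 * r))) ≤ 1 / 2 := by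
      set N := (Fintype.card (Tor c.d π.n) : ℝ) with hNdef
      have hN0 : 0 ≤ N := Nat.cast_nonneg _
      have hNle : N ≤ π.lam ^ (-(43 * (c.d : ℝ))) := card_tor_le g2.1
      have h1 : N * ((64 * c.d * N ^ 2 / γ ^ 2) ^ 2 * Real.exp (-(γ / 8 * r))) =
          (64 * c.d) ^ 2 * (N ^ 5 * ((1 / γ) ^ 2) ^ 2) * Real.exp (-(γ / 8 * r)) := by
        field_simp
      have h2 : N ^ 5 ≤ π.lam ^ (-(215 * (c.d : ℝ))) := by
        have := pow_le_pow_left₀ hN0 hNle 5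
        rw [rp_pow hlam] at this
        refine this.trans (le_of_eq ?_)
        congr 1
        push_cast; ring
      have h3 : ((1 / γ) ^ 2) ^ 2 ≤ (1 / c0) ^ 4 * π.lam ^ (-(8 : ℝ)) := by
        have := pow_le_pow_left₀ (by positivity) hinv 2
        refine this.trans (le_of_eq ?_)
        rw [mul_pow, rp_pow hlam, ← pow_mul]
        congr 2
        push_cast; norm_num
      have h4 : Real.exp (-(γ / 8 * r)) ≤ Real.exp (-(c0 / 8 * π.lam ^ (-α))) := by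
        apply Real.exp_le_exp.2
        nlinarith [hrγ]
      have h5 : N ^ 5 * ((1 / γ) ^ 2) ^ 2 ≤
          π.lam ^ (-(215 * (c.d : ℝ))) * ((1 / c0) ^ 4 * π.lam ^ (-(8 : ℝ))) :=
        mul_le_mul h2 h3 (by positivity) (rp_pos hlam _).le
      have h6 := H5 π.lam hlam g5.1.2.1
      have h7 : (64 * (c.d : ℝ)) ^ 2 * (π.lam ^ (-(215 * (c.d : ℝ))) *
          ((1 / c0) ^ 4 * π.lam ^ (-(8 : ℝ)))) =
          (64 * c.d / c0 ^ 2) ^ 2 * π.lam ^ (-(215 * c.d + 8 : ℝ)) := by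
        have h8 : π.lam ^ (-(215 * (c.d : ℝ) + 8)) =
            π.lam ^ (-(215 * (c.d : ℝ))) * π.lam ^ (-(8 : ℝ)) := by
          rw [← Real.rpow_add hlam]
          congr 1; ring
        rw [h8]
        field_simp
      rw [h1]
      calc (64 * (c.d : ℝ)) ^ 2 * (N ^ 5 * ((1 / γ) ^ 2) ^ 2) * Real.exp (-(γ / 8 * r))
          ≤ (64 * (c.d : ℝ)) ^ 2 * (π.lam ^ (-(215 * (c.d : ℝ))) *
            ((1 / c0) ^ 4 * π.lam ^ (-(8 : ℝ)))) * Real.exp (-(c0 / 8 * π.lam ^ (-α))) :=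
            mul_le_mul (mul_le_mul_of_nonneg_left h5 (by positivity)) h4 (Real.exp_pos _).le
              (mul_nonneg (by positivity) (mul_nonneg (rp_pos hlam _).le
                (mul_nonneg (by positivity) (rp_pos hlam _).le)))
        _ = 1 / 2 * (2 * (64 * c.d / c0 ^ 2) ^ 2 * π.lam ^ (-(215 * c.d + 8 : ℝ)) *
            Real.exp (-(c0 / 8 * π.lam ^ (-α)))) := by rw [h7]; ring
        _ ≤ 1 / 2 := by linarith
    have hone : 1 ≤ (π.lam ^ (-1 - 3 * c.t)) ^ 2 := by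
      have : 1 ≤ π.lam ^ (-1 - 3 * c.t) :=
        Real.one_le_rpow_of_pos_of_le_one_of_nonpos hlam hlam1 (by linarith)
      nlinarith
    linarith
  have hinv : ∀ a b : Tor c.d π.n, mk' ν s2 c.d π k a b = mk' ν s2 c.d π k 0 (b - a) := by
    intro a b
    have := torm_add ν s2 c.d π k a 0 (b - a)
    rw [zero_add, sub_add_cancel] at this
    exact this
  constructor
  · intro a
    refine le_trans (le_of_eq ?_) hrow0
    refine Fintype.sum_equiv (Equiv.subRight a) _ _ fun b => ?_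
    rw [Equiv.subRight_apply, hinv a b]
    unfold ph2
    rw [sub_zero]
  · intro b
    refine le_trans ?_ hrow0
    have e1 : ∑ a, ‖mk' ν s2 c.d π k a b‖ ^ 2 = ∑ a, ‖mk' ν s2 c.d π k 0 a‖ ^ 2 := by
      refine Fintype.sum_equiv (Equiv.subLeft b) _ _ fun a => ?_
      rw [Equiv.subLeft_apply, hinv a b]
    rw [e1]
    refine Finset.sum_le_sum fun a _ => pow_le_pow_left₀ (norm_nonneg _) ?_ 2
    have w := wgt_ph2 (d := c.d) (n := π.n) hr0
    rw [le_div_iff₀ (w.pos 0 a)]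
    exact mul_le_of_le_one_right (norm_nonneg _) (w.le 0 a)

end Pool.Agent.BK3
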