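import Pool.Agent.BK3.TorQ
import Pool.Agent.BK3.TorM

/-! BK3 module TEq: the transport equation on the torus, with error `lam^(50e)`. `lvl` with the data
`lvc_inst` (`ℓ = 0`), `u = ch k`, `x = 0`, `ν0 = -2iγQ` (`torq_diag`), `bN = d`, `n2 = lam^(1-2t)`,
`m2 = lam^(-1-3t)` (entries of `N`, `m` are at most `n2`, `m2` because `φ ≤ 1`), and `cur_id` under `E`:
`2iηρ - J = 2i Im g`. So the left side is `≤` the error of `lvl`. Exponents (`kap ≤ C lam^(3-2y-e-7t)`,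
`μ^(1/2) = lam^(-1-e/8-t/2)`, `Gd/η ≤ lam^(-A-3t)`, `room`: `3 - A - 2y0 ≥ 100e`):
(1) `-1 + 3 - 2y - e - 1 - e/8 + min(0, 2-A) ≥ 3 - A - 2y0 - 3.2e`; (2) `3 - 2y - e - A ≥ 97e - ..`;
(3) `3 + 1 - 1 - e/8 - A ≥ 100e - e/8 - ..`; (4) `4 - 1 - 2y - A ≥ 98e - ..`; all up to `20t`, so `≥ 90e`.
`p0`-part: `Kc^12 lam^D0 ≤ lam^(D0 - 516 d - 12)`.
`rho_le`: `(η + lam² s2 γ Q) |ρ| ≤ |Im g - γQ| + lam^(50e) ≤ lam^(-3t)` (`meang`, `torq`) and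
`lam² s2 γ Q ≥ lam² s2 κ ang²/γ²`. -/

open MeasureTheory Finset Matrix Pool.Agent.BK

noncomputable section

namespace Pool.Agent.BK3

variable {ν : Measure ℝ} {R s2 : ℝ}

/-- Two facts for small `lam`. -/
lemma teq_and {c : Cx} {ν : Measure ℝ} {P Q : Par → Prop}
    (h1 : ∃ l : ℝ, 0 < l ∧ l ≤ 1 ∧ ∀ π ∈ c.S ν l, P π)
    (h2 : ∃ l : ℝ, 0 < l ∧ l ≤ 1 ∧ ∀ π ∈ c.S ν l, Q π) :
    ∃ l : ℝ, 0 < l ∧ l ≤ 1 ∧ ∀ π ∈ c.S ν l, P π ∧ Q π := by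
  obtain ⟨a, a0, a1, ha⟩ := h1
  obtain ⟨b, b0, b1, hb⟩ := h2
  exact ⟨min a b, lt_min a0 b0, (min_le_left _ _).trans a1, fun π hπ =>
    ⟨ha π (c.S_mono ν (min_le_left _ _) hπ), hb π (c.S_mono ν (min_le_right _ _) hπ)⟩⟩

lemma teq_sm {c : Cx} {ν : Measure ℝ} {P : ℝ → Prop}
    (h : ∃ l : ℝ, 0 < l ∧ l ≤ 1 ∧ ∀ lam : ℝ, 0 < lam → lam ≤ l → P lam) :
    ∃ l : ℝ, 0 < l ∧ l ≤ 1 ∧ ∀ π ∈ c.S ν l, P π.lam := by
  obtain ⟨a, a0, a1, ha⟩ := h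
  exact ⟨a, a0, a1, fun π hπ => ha π.lam hπ.1.1 hπ.1.2.1⟩

lemma teq_mul {L a b A B x y : ℝ} (hL : 0 < L) (ha0 : 0 ≤ a) (hb0 : 0 ≤ b) (ha : a ≤ A * L ^ x)
    (hb : b ≤ B * L ^ y) : a * b ≤ (A * B) * L ^ (x + y) := by
  refine (mul_le_mul ha hb hb0 (ha0.trans ha)).trans (le_of_eq ?_)
  rw [Real.rpow_add hL]
  ring

lemma teq_up {L a A x y : ℝ} (hL : 0 < L) (hL1 : L ≤ 1) (hA : 0 ≤ A) (ha : a ≤ A * L ^ x)
    (h : y ≤ x) : a ≤ A * L ^ y :=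
  ha.trans (mul_le_mul_of_nonneg_left (rp_anti hL hL1 h) hA)

/-- The size of the error of `lvl`. -/
lemma teq_num (c : Cx) (hc : c.Ok) {C : ℝ} (hC : 0 < C) {L : ℝ} (hL : 0 < L) (hL1 : L ≤ 1)
    {g : ℂ} (hg : ‖g‖ ≤ L ^ (-(2 * c.t))) {η : ℝ} (hη : 0 < η) (hη2 : L ^ c.A ≤ η) :
    C * (L ^ (-1 - 3 * c.t) * kap L g (c.bb L) (c.Gd L) * (c.mu L) ^ (1 / 2 : ℝ) *
        (1 + L ^ 2 * (c.Gd L / η)) +
      kap L g (c.bb L) (c.Gd L) * c.d * (c.Gd L / η) +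
      L ^ 3 * (c.Gd L + ‖g‖) * L ^ (1 - 2 * c.t) * (c.mu L) ^ (1 / 2 : ℝ) * (c.Gd L / η) +
      L ^ 4 * L ^ (-1 - 3 * c.t) * (c.B L) ^ (1 / 2 : ℝ) * (c.Gd L / η)) +
      C * (L ^ (-(43 * (c.d : ℝ) + 1))) ^ 12 * L ^ c.D0 ≤
    (C * (10 + 3 * c.d)) * L ^ (60 * c.e) := by
  have hd3 : (3 : ℝ) ≤ c.d := by exact_mod_cast hc.d3
  have he := hc.e0
  have ht : c.t = c.e / 1000 := rfl
  have hy : c.y = c.y0 + c.e := rfl
  have hy0 := hc.y0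
  have hroom := hc.room
  have hA2 := hc.A2
  have hA3 := hc.A3
  have hD0 := hc.D00
  have hylt := y_lt c hc
  have p0 : ∀ a : ℝ, 0 < L ^ a := fun a => rp_pos hL a
  have hGd : c.Gd L = L ^ (-(3 * c.t)) := rfl
  have hbb : c.bb L = L ^ (1 - 2 * c.y - c.e - c.t) := rfl
  have l2 : L ^ 2 = L ^ (2 : ℝ) := by rw [← Real.rpow_natCast]; norm_num
  have l3 : L ^ 3 = L ^ (3 : ℝ) := by rw [← Real.rpow_natCast]; norm_num
  have l4 : L ^ 4 = L ^ (4 : ℝ) := by rw [← Real.rpow_natCast]; norm_num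
  have hGd0 : 0 < c.Gd L := p0 _
  have hgG : ‖g‖ ≤ c.Gd L := hg.trans (rp_anti hL hL1 (by rw [ht]; linarith))
  -- the factors
  have fg : c.Gd L + ‖g‖ ≤ 2 * L ^ (-(3 * c.t)) := by
    rw [← hGd]; linarith
  have fk0 : 0 ≤ kap L g (c.bb L) (c.Gd L) := by
    have : 0 < c.bb L := p0 _
    unfold kap
    positivity
  have fk : kap L g (c.bb L) (c.Gd L) ≤ 3 * L ^ (3 - 2 * c.y - c.e - 6 * c.t) := by
    unfold kap
    have e1 : L ^ 2 * c.bb L ≤ 1 * L ^ (3 - 2 * c.y - c.e - 6 * c.t) := by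
      rw [l2, hbb, ← Real.rpow_add hL, one_mul]
      apply rp_anti hL hL1
      rw [ht]; linarith
    have e2 : L ^ 3 * c.Gd L * (c.Gd L + ‖g‖) ≤ 2 * L ^ (3 - 2 * c.y - c.e - 6 * c.t) := by
      have f1 : L ^ 3 * c.Gd L ≤ 1 * L ^ (3 - 3 * c.t) := by
        rw [l3, hGd, ← Real.rpow_add hL, one_mul]
        apply le_of_eq; congr 1
      have f2 := teq_mul hL (by positivity) (by positivity) f1 fg
      rw [one_mul] at f2
      refine teq_up hL hL1 (by norm_num) f2 ?_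
      rw [ht, hy]; linarith
    linarith
  have fmu0 : 0 ≤ (c.mu L) ^ (1 / 2 : ℝ) := Real.rpow_nonneg (p0 _).le _
  have fmu : (c.mu L) ^ (1 / 2 : ℝ) ≤ 1 * L ^ (-1 - c.e / 8 - c.t / 2) := by
    unfold Cx.mu
    rw [← Real.rpow_mul hL.le, one_mul]
    apply le_of_eq; congr 1; ring
  have fB0 : 0 ≤ (c.B L) ^ (1 / 2 : ℝ) := Real.rpow_nonneg (p0 _).le _
  have fB : (c.B L) ^ (1 / 2 : ℝ) ≤ 1 * L ^ (-(2 * c.y) - c.t / 2) := by
    unfold Cx.B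
    rw [← Real.rpow_mul hL.le, one_mul]
    apply le_of_eq; congr 1; ring
  have fD0 : 0 ≤ c.Gd L / η := by positivity
  have fD : c.Gd L / η ≤ 1 * L ^ (-c.A - 3 * c.t) := by
    rw [div_le_iff₀ hη, hGd, one_mul]
    have e1 : L ^ (-(3 * c.t)) = L ^ (-c.A - 3 * c.t) * L ^ c.A := by
      rw [← Real.rpow_add hL]; congr 1; ring
    rw [e1]
    exact mul_le_mul_of_nonneg_left hη2 (p0 _).le
  have f1D : 1 + L ^ 2 * (c.Gd L / η) ≤ 2 * L ^ (2 - c.A - 3 * c.t) := by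
    have e1 : L ^ 2 * (c.Gd L / η) ≤ 1 * L ^ (2 - c.A - 3 * c.t) := by
      have f1 : L ^ 2 ≤ 1 * L ^ (2 : ℝ) := by rw [l2, one_mul]
      have f2 := teq_mul hL (by positivity) fD0 f1 fD
      rw [one_mul] at f2
      refine f2.trans (le_of_eq ?_)
      congr 2; ring
    have e2 : 1 ≤ L ^ (2 - c.A - 3 * c.t) :=
      Real.one_le_rpow_of_pos_of_le_one_of_nonpos hL hL1 (by rw [ht]; linarith)
    linarith
  have fm2 : L ^ (-1 - 3 * c.t) ≤ 1 * L ^ (-1 - 3 * c.t) := by rw [one_mul]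
  have fn2 : L ^ (1 - 2 * c.t) ≤ 1 * L ^ (1 - 2 * c.t) := by rw [one_mul]
  have fl3 : L ^ 3 ≤ 1 * L ^ (3 : ℝ) := by rw [l3, one_mul]
  have fl4 : L ^ 4 ≤ 1 * L ^ (4 : ℝ) := by rw [l4, one_mul]
  -- the terms
  have t1 : L ^ (-1 - 3 * c.t) * kap L g (c.bb L) (c.Gd L) * (c.mu L) ^ (1 / 2 : ℝ) *
        (1 + L ^ 2 * (c.Gd L / η)) ≤ 6 * L ^ (60 * c.e) := by
    have e1 := teq_mul hL (by positivity) fk0 fm2 fk
    have e2 := teq_mul hL (by positivity) fmu0 e1 fmu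
    have e3 := teq_mul hL (by positivity) (by positivity) e2 f1D
    have e5 := teq_up hL hL1 (by norm_num) e3 (y := 60 * c.e) (by rw [ht, hy]; linarith)
    exact e5.trans (le_of_eq (by ring))
  have t2 : kap L g (c.bb L) (c.Gd L) * c.d * (c.Gd L / η) ≤ (3 * c.d) * L ^ (60 * c.e) := by
    have e1 := teq_mul hL fk0 fD0 fk fD
    have e2 := teq_up hL hL1 (by norm_num) e1 (y := 60 * c.e) (by rw [ht, hy]; linarith)
    calc kap L g (c.bb L) (c.Gd L) * c.d * (c.Gd L / η)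
        = c.d * (kap L g (c.bb L) (c.Gd L) * (c.Gd L / η)) := by ring
      _ ≤ c.d * (3 * 1 * L ^ (60 * c.e)) := mul_le_mul_of_nonneg_left e2 (by positivity)
      _ = _ := by ring
  have t3 : L ^ 3 * (c.Gd L + ‖g‖) * L ^ (1 - 2 * c.t) * (c.mu L) ^ (1 / 2 : ℝ) *
      (c.Gd L / η) ≤ 2 * L ^ (60 * c.e) := by
    have e1 := teq_mul hL (by positivity) (by positivity) fl3 fg
    have e2 := teq_mul hL (by positivity) (p0 _).le e1 fn2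
    have e3 := teq_mul hL (by positivity) fmu0 e2 fmu
    have e4 := teq_mul hL (by positivity) fD0 e3 fD
    have e5 := teq_up hL hL1 (by norm_num) e4 (y := 60 * c.e) (by rw [ht]; linarith)
    exact e5.trans (le_of_eq (by ring))
  have t4 : L ^ 4 * L ^ (-1 - 3 * c.t) * (c.B L) ^ (1 / 2 : ℝ) * (c.Gd L / η) ≤
      1 * L ^ (60 * c.e) := by
    have e1 := teq_mul hL (by positivity) (p0 _).le fl4 fm2
    have e2 := teq_mul hL (by positivity) fB0 e1 fB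
    have e3 := teq_mul hL (by positivity) fD0 e2 fD
    have e5 := teq_up hL hL1 (by norm_num) e3 (y := 60 * c.e) (by rw [ht, hy]; linarith)
    exact e5.trans (le_of_eq (by ring))
  have t5 : (L ^ (-(43 * (c.d : ℝ) + 1))) ^ 12 * L ^ c.D0 ≤ 1 * L ^ (60 * c.e) := by
    rw [rp_pow hL, ← Real.rpow_add hL, one_mul]
    apply rp_anti hL hL1
    push_cast
    have h1 : (10000 : ℝ) * c.d ≤ c.D0 := hD0
    linarith
  have p60 := p0 (60 * c.e)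
  calc C * (L ^ (-1 - 3 * c.t) * kap L g (c.bb L) (c.Gd L) * (c.mu L) ^ (1 / 2 : ℝ) *
        (1 + L ^ 2 * (c.Gd L / η)) +
      kap L g (c.bb L) (c.Gd L) * c.d * (c.Gd L / η) +
      L ^ 3 * (c.Gd L + ‖g‖) * L ^ (1 - 2 * c.t) * (c.mu L) ^ (1 / 2 : ℝ) * (c.Gd L / η) +
      L ^ 4 * L ^ (-1 - 3 * c.t) * (c.B L) ^ (1 / 2 : ℝ) * (c.Gd L / η)) +
      C * (L ^ (-(43 * (c.d : ℝ) + 1))) ^ 12 * L ^ c.D0
      ≤ C * (6 * L ^ (60 * c.e) + (3 * c.d) * L ^ (60 * c.e) + 2 * L ^ (60 * c.e) +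
        1 * L ^ (60 * c.e)) + C * (1 * L ^ (60 * c.e)) := by
        apply add_le_add
        · exact mul_le_mul_of_nonneg_left (by linarith) hC.le
        · rw [mul_assoc]
          exact mul_le_mul_of_nonneg_left t5 hC.le
    _ = (C * (10 + 3 * c.d)) * L ^ (60 * c.e) := by ring

/-- Entries from weighted rows. -/
lemma teq_entry {X : Type} [Fintype X] {A : X → ℂ} {φ : X → ℝ} {s : ℝ} (h0 : ∀ b, 0 < φ b)
    (h1 : ∀ b, φ b ≤ 1) (hs : 0 ≤ s) (h : ∑ b, (‖A b‖ / φ b) ^ 2 ≤ s ^ 2) (b : X) :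
    ‖A b‖ ≤ s := by
  have h2 : (‖A b‖ / φ b) ^ 2 ≤ s ^ 2 :=
    (Finset.single_le_sum (f := fun b => (‖A b‖ / φ b) ^ 2) (fun _ _ => sq_nonneg _)
      (Finset.mem_univ b)).trans h
  have h3 : ‖A b‖ / φ b ≤ s := abs_le_of_sq_le_sq' h2 hs |>.2
  rw [div_le_iff₀ (h0 b)] at h3
  have := h0 b
  have := h1 b
  nlinarith

theorem teq (hν : BLaw ν R s2) (c : Cx) (hc : c.Ok) :
    ∃ lam1 : ℝ, 0 < lam1 ∧ lam1 ≤ 1 ∧ ∀ π ∈ c.S ν lam1, ∀ k : Tor c.d π.n, Sml c s2 π k →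
      ‖2 * Complex.I * ((π.eta + π.lam ^ 2 * s2 * ((zt ν s2 c.d π).im * Qk ν s2 c.d π k) : ℝ) : ℂ) *
          rhok ν c.d π k -
        2 * Complex.I * (((gb ν c.d π).im - (zt ν s2 c.d π).im * Qk ν s2 c.d π k : ℝ) : ℂ)‖ ≤
      π.lam ^ (50 * c.e) := by
  obtain ⟨C, hC, hlvl⟩ := lvl R hν.R_ge
  have he := hc.e0
  obtain ⟨l, l0, l1, hl⟩ := teq_and (teq_and (teq_and (lvc_inst hν c hc 0) (meang hν c hc))
    (teq_and (torq_diag hν c hc) (torn_op hν c hc))) (teq_and (teq_and (torn_row hν c hc)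
    (torm_row hν c hc)) (teq_sm (c := c) (ν := ν) (sm_le (C * (10 + 3 * c.d))
      (show 50 * c.e < 60 * c.e by linarith))))
  refine ⟨l, l0, l1, fun π hπ k hk => ?_⟩
  obtain ⟨⟨⟨hI, hM⟩, hQd, hop⟩, ⟨hNr, hmr⟩, hsm⟩ := hl π hπ
  have hL := hπ.1.1
  have hL1 : π.lam ≤ 1 := hπ.1.2.1.trans l1
  have hη := (inv_eta_le hc l1 hπ.1).1
  have hηA : π.lam ^ c.A ≤ π.eta := hπ.1.2.2.2.2.2.2.1
  have ht : c.t = c.e / 1000 := rfl
  have hy : c.y = c.y0 + c.e := rfl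
  have hylt := y_lt c hc
  have hy0 := hc.y0
  have hd3 : (3 : ℝ) ≤ c.d := by exact_mod_cast hc.d3
  have p0 : ∀ a : ℝ, 0 < π.lam ^ a := fun a => rp_pos hL a
  obtain ⟨hg1, hg2, hg3⟩ := hM
  have hw := hI.w
  -- hypotheses of lvl
  have hB4 : π.lam * (c.B π.lam) ^ (1 / 4 : ℝ) ≤ 1 := by
    unfold Cx.B
    rw [← Real.rpow_mul hL.le]
    have e1 : π.lam * π.lam ^ ((-(4 * c.y) - c.t) * (1 / 4)) =
        π.lam ^ (1 + (-(4 * c.y) - c.t) * (1 / 4)) := by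
      rw [Real.rpow_add hL, Real.rpow_one]
    rw [e1]
    apply Real.rpow_le_one hL.le hL1
    rw [ht, hy]
    linarith
  have hm2K : π.lam ^ (-1 - 3 * c.t) ≤ π.lam ^ (-(43 * (c.d : ℝ) + 1)) :=
    rp_anti hL hL1 (by rw [ht]; linarith)
  have hn2K : π.lam ^ (1 - 2 * c.t) ≤ π.lam ^ (-(43 * (c.d : ℝ) + 1)) :=
    rp_anti hL hL1 (by rw [ht]; linarith)
  have hNK : ∀ a b, ‖Nk ν s2 c.d π k a b‖ ≤ π.lam ^ (-(43 * (c.d : ℝ) + 1)) := fun a b =>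
    (teq_entry (fun b => hw.pos a b) (fun b => hw.le a b) (p0 _).le (hNr k hk a) b).trans hn2K
  have hmK : ∀ a b, ‖mk' ν s2 c.d π k a b‖ ≤ π.lam ^ (-(43 * (c.d : ℝ) + 1)) := fun a b =>
    (teq_entry (fun b => hw.pos a b) (fun b => hw.le a b) (p0 _).le ((hmr k hk).1 a) b).trans hm2K
  have key := hlvl (Tor c.d π.n) ν (H0 c.d π.n) s2 π.lam π.z (gb ν c.d π) (zt ν s2 c.d π)
    (ph2 (c.rw π.lam)) (c.chi ν 0 π) (c.B π.lam) (c.bb π.lam) (c.mu π.lam) (c.Gd π.lam)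
    (π.lam ^ c.D0) (π.lam ^ (-(43 * (c.d : ℝ) + 1))) hI hB4 (ch k) (fun x => norm_ch k x)
    (Nk ν s2 c.d π k) (mk' ν s2 c.d π k)
    (-2 * Complex.I * ((zt ν s2 c.d π).im : ℂ) * ((Qk ν s2 c.d π k : ℝ) : ℂ)) c.d
    (π.lam ^ (1 - 2 * c.t)) (π.lam ^ (-1 - 3 * c.t)) rfl rfl (fun a => hQd k a)
    (by positivity) (p0 _).le (p0 _).le hm2K (hop k hk) hNK hmK (hNr k hk) (hmr k hk).1
    (hmr k hk).2 0
  -- the current identity
  have hcur : Ex ν (fun V : Tor c.d π.n → ℝ => (tw (ch k) (Gv (H0 c.d π.n) π.lam π.z V) *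
      (tw (ch k) (H0 c.d π.n) - H0 c.d π.n) * (Gv (H0 c.d π.n) π.lam π.z V)ᴴ) 0 0) =
      2 * Complex.I * π.eta * rhok ν c.d π k - 2 * Complex.I * ((gb ν c.d π).im : ℂ) := by
    have hH := hI.hH
    have hz' : π.z.im ≠ 0 := hη.ne'
    have cG : Continuous fun V : Tor c.d π.n → ℝ => Gv (H0 c.d π.n) π.lam π.z V :=
      continuous_Gv hH π.lam hz'
    have cGe : ∀ a b, Continuous fun V : Tor c.d π.n → ℝ => Gv (H0 c.d π.n) π.lam π.z V a b :=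
      fun a b => continuous_Gv_xy hH π.lam hz' a b
    have ctw : Continuous fun V : Tor c.d π.n → ℝ => tw (ch k) (Gv (H0 c.d π.n) π.lam π.z V) := by
      refine continuous_matrix fun a b => ?_
      have := cGe a b
      simp only [tw1_apply]
      fun_prop
    have cρ : Continuous fun V : Tor c.d π.n → ℝ =>
        (tw (ch k) (Gv (H0 c.d π.n) π.lam π.z V) * (Gv (H0 c.d π.n) π.lam π.z V)ᴴ) 0 0 :=
      (ctw.matrix_mul cG.matrix_conjTranspose).matrix_elem 0 0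
    have cim : Continuous fun V : Tor c.d π.n → ℝ =>
        (((Gv (H0 c.d π.n) π.lam π.z V 0 0).im : ℝ) : ℂ) :=
      Complex.continuous_ofReal.comp (Complex.continuous_im.comp (cGe 0 0))
    have e1 : (fun V : Tor c.d π.n → ℝ => (tw (ch k) (Gv (H0 c.d π.n) π.lam π.z V) *
      (tw (ch k) (H0 c.d π.n) - H0 c.d π.n) * (Gv (H0 c.d π.n) π.lam π.z V)ᴴ) 0 0) =
      fun V => 2 * Complex.I * π.eta * (tw (ch k) (Gv (H0 c.d π.n) π.lam π.z V) *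
        (Gv (H0 c.d π.n) π.lam π.z V)ᴴ) 0 0 - 2 * Complex.I *
          (((Gv (H0 c.d π.n) π.lam π.z V 0 0).im : ℝ) : ℂ) := by
      funext V
      have h1 := cur_id hH (fun x => π.lam * V x) (z := π.z) hη (fun x => norm_ch k x) 0
      have h2 : (π.z.im : ℂ) = (π.eta : ℂ) := rfl
      rw [h2] at h1
      unfold Gv
      linear_combination -h1
    have e0 := tw2_sub (ν := ν) (F := fun V : Tor c.d π.n → ℝ => 2 * Complex.I * π.eta *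
        (tw (ch k) (Gv (H0 c.d π.n) π.lam π.z V) * (Gv (H0 c.d π.n) π.lam π.z V)ᴴ) 0 0)
      (G := fun V : Tor c.d π.n → ℝ => 2 * Complex.I *
          (((Gv (H0 c.d π.n) π.lam π.z V 0 0).im : ℝ) : ℂ))
      (int_cont hν (continuous_const.mul cρ)) (int_cont hν (continuous_const.mul cim))
    rw [e1]
    refine e0.trans ?_
    rw [tw2_cmul, tw2_cmul]
    have e2 : Ex ν (fun V : Tor c.d π.n → ℝ =>
        (((Gv (H0 c.d π.n) π.lam π.z V 0 0).im : ℝ) : ℂ)) = ((gb ν c.d π).im : ℂ) := by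
      have f1 : Ex ν (fun V : Tor c.d π.n → ℝ =>
          (((Gv (H0 c.d π.n) π.lam π.z V 0 0).im : ℝ) : ℂ)) =
          ((∫ V, (Gv (H0 c.d π.n) π.lam π.z V 0 0).im ∂(Measure.pi fun _ : Tor c.d π.n => ν) :
            ℝ) : ℂ) := integral_ofReal
      rw [f1]
      congr 1
      have f2 : Integrable (fun V : Tor c.d π.n → ℝ => Gv (H0 c.d π.n) π.lam π.z V 0 0)
        (Measure.pi fun _ : Tor c.d π.n => ν) := int_cont hν (cGe 0 0)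
      exact integral_im f2
    rw [e2]
    rfl
  have hρ : Ex ν (fun V : Tor c.d π.n → ℝ =>
      (tw (ch k) (Gv (H0 c.d π.n) π.lam π.z V) * (Gv (H0 c.d π.n) π.lam π.z V)ᴴ) 0 0) =
      rhok ν c.d π k := rfl
  rw [hcur, hρ] at key
  have e3 : 2 * Complex.I * π.eta * rhok ν c.d π k - 2 * Complex.I * ((gb ν c.d π).im : ℂ) -
        -2 * Complex.I * ((zt ν s2 c.d π).im : ℂ) * ((Qk ν s2 c.d π k : ℝ) : ℂ) -
        (π.lam ^ 2 * s2 : ℝ) * (-2 * Complex.I * ((zt ν s2 c.d π).im : ℂ) *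
          ((Qk ν s2 c.d π k : ℝ) : ℂ)) * rhok ν c.d π k =
      2 * Complex.I * ((π.eta + π.lam ^ 2 * s2 * ((zt ν s2 c.d π).im * Qk ν s2 c.d π k) : ℝ) : ℂ) *
          rhok ν c.d π k -
        2 * Complex.I * (((gb ν c.d π).im - (zt ν s2 c.d π).im * Qk ν s2 c.d π k : ℝ) : ℂ) := by
    push_cast
    ring
  rw [e3] at key
  refine key.trans ?_
  have hnum := teq_num c hc hC hL hL1 hg3 hη hηA
  exact hnum.trans hsm

theorem rho_le (hν : BLaw ν R s2) (c : Cx) (hc : c.Ok) :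
    ∃ lam1 : ℝ, 0 < lam1 ∧ lam1 ≤ 1 ∧ ∀ π ∈ c.S ν lam1, ∀ k : Tor c.d π.n, Sml c s2 π k →
      ‖rhok ν c.d π k‖ * π.eta ≤ π.lam ^ (-(3 * c.t)) ∧
      ∀ j, ‖rhok ν c.d π k‖ * (π.lam ^ 2 * s2 * c.κ * ang π.n (k j) ^ 2) ≤
        π.lam ^ (-(3 * c.t)) * (zt ν s2 c.d π).im ^ 2 := by
  have he := hc.e0
  have ht : c.t = c.e / 1000 := rfl
  obtain ⟨l, l0, l1, hl⟩ := teq_and (teq_and (teq_and (teq hν c hc) (meang hν c hc))
    (teq_and (torq hν c hc) (zfacts hν c hc))) (teq_sm (c := c) (ν := ν) (sm_le 3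
      (show -(3 * c.t) < -(2 * c.t) by rw [ht]; linarith)))
  refine ⟨l, l0, l1, fun π hπ k hk => ?_⟩
  obtain ⟨⟨⟨hT, hM⟩, hQ, hZ⟩, hsm⟩ := hl π hπ
  have hL := hZ.l0
  have hL1 := hZ.l1
  have hη := hZ.e0
  obtain ⟨hg1, hg2, hg3⟩ := hM
  obtain ⟨hQ0, hQ1, hQ2⟩ := hQ k
  have hT' := hT k hk
  have hs2 := hν.s2_pos
  have hγ : 0 < (zt ν s2 c.d π).im := hη.trans_le hZ.im_eta
  set γ := (zt ν s2 c.d π).im with hγdef
  set Q := Qk ν s2 c.d π k with hQdef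
  set ρ := rhok ν c.d π k with hρdef
  have hγQ : 0 ≤ γ * Q := mul_nonneg hγ.le hQ0
  set a : ℝ := π.eta + π.lam ^ 2 * s2 * (γ * Q) with ha
  have ha0 : 0 < a := by positivity
  set b : ℝ := (gb ν c.d π).im - γ * Q with hb
  have hb1 : |b| ≤ 2 * π.lam ^ (-(2 * c.t)) := by
    have e1 : |(gb ν c.d π).im| ≤ π.lam ^ (-(2 * c.t)) := (Complex.abs_im_le_norm _).trans hg3
    rw [abs_le] at e1 ⊢
    constructor <;> linarith
  have h50 : π.lam ^ (50 * c.e) ≤ 1 := Real.rpow_le_one hL.le hL1 (by positivity)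
  have h1t : 1 ≤ π.lam ^ (-(2 * c.t)) :=
    Real.one_le_rpow_of_pos_of_le_one_of_nonpos hL hL1 (by rw [ht]; linarith)
  have hmain : a * ‖ρ‖ ≤ π.lam ^ (-(3 * c.t)) := by
    have e1 : ‖2 * Complex.I * (a : ℂ) * ρ‖ = 2 * (a * ‖ρ‖) := by
      rw [norm_mul, norm_mul, norm_mul, Complex.norm_I, Complex.norm_real, Real.norm_eq_abs,
        abs_of_pos ha0]
      norm_num
      ring
    have e2 : ‖2 * Complex.I * (b : ℂ)‖ = 2 * |b| := by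
      rw [norm_mul, norm_mul, Complex.norm_I, Complex.norm_real, Real.norm_eq_abs]
      norm_num
    have e3 : ‖2 * Complex.I * (a : ℂ) * ρ‖ ≤ ‖2 * Complex.I * (a : ℂ) * ρ -
        2 * Complex.I * (b : ℂ)‖ + ‖2 * Complex.I * (b : ℂ)‖ := by
      have := norm_add_le (2 * Complex.I * (a : ℂ) * ρ - 2 * Complex.I * (b : ℂ))
        (2 * Complex.I * (b : ℂ))
      rwa [sub_add_cancel] at this
    rw [e1, e2] at e3
    linarith
  constructor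
  · refine le_trans ?_ hmain
    rw [mul_comm]
    apply mul_le_mul_of_nonneg_right _ (norm_nonneg _)
    have : 0 ≤ π.lam ^ 2 * s2 * (γ * Q) := by positivity
    linarith
  · intro j
    have e1 := hQ2 hk j
    have e2 : π.lam ^ 2 * s2 * c.κ * ang π.n (k j) ^ 2 ≤ a * γ ^ 2 := by
      rw [div_le_iff₀ (by positivity)] at e1
      have f1 : π.lam ^ 2 * s2 * (c.κ * ang π.n (k j) ^ 2) ≤ π.lam ^ 2 * s2 * (Q * γ ^ 3) :=
        mul_le_mul_of_nonneg_left e1 (by positivity)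
      have f2 : a * γ ^ 2 = π.eta * γ ^ 2 + π.lam ^ 2 * s2 * (Q * γ ^ 3) := by
        rw [ha]; ring
      have f3 : 0 ≤ π.eta * γ ^ 2 := by positivity
      rw [f2]
      linarith
    calc ‖ρ‖ * (π.lam ^ 2 * s2 * c.κ * ang π.n (k j) ^ 2) ≤ ‖ρ‖ * (a * γ ^ 2) :=
          mul_le_mul_of_nonneg_left e2 (norm_nonneg _)
      _ = (a * ‖ρ‖) * γ ^ 2 := by ring
      _ ≤ π.lam ^ (-(3 * c.t)) * γ ^ 2 := mul_le_mul_of_nonneg_right hmain (by positivity)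

end Pool.Agent.BK3
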