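import Pool.Agent.BK3.TDefs
import Pool.Agent.BK3.ZF
import Pool.Agent.BK3.Wt
import Pool.Agent.BK3.Sm
import Pool.Agent.BK.Cur1a

/-! BK3 module TorN: bounds of `N_k = tw u M W`, `W = tw u H0 - H0`, `u = ch k`, for small `k`.
`W_cb = -∑_j [ (u(e_j) - 1) 1_{b = c + e_j} + (conj u(e_j) - 1) 1_{b = c - e_j} ]` (up to the order of the two
terms; `conj(u_c) u_(c±e_j) = u(±e_j)`), `|u(e_j) - 1| ≤ |ang k_j|` (`stdAddChar_eq`, `|valMinAbs 1| ≤ 1`,
`|e^{iθ} - 1| ≤ |θ|`; see `cur1a_W`, `nsq_W` in `BK/Cur1a` for the same computation along one axis).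
`torn_op`: `‖W c‖ ≤ 2 ∑_j |ang k_j| ‖c‖ ≤ 2 d (κ² s2/8) lam² ‖c‖`, `‖tw u M c‖ ≤ ‖c‖/γ` (`nsq_Gr_mulVec`,
`nsq_tw_mulVec`), `γ ≥ κ s2 lam²/4`: product `≤ d κ ≤ d`.
`torn_row`: `|N_ab| ≤ ∑_j |ang k_j| (|M_{a,b-e_j}| + |M_{a,b+e_j}|)`, `1/φ_ab ≤ e/φ_{a,b±e_j}` (`ph2_nbr`), so the
weighted row norm is `≤ 2 e d (κ² s2/8) lam² · lam^(-1-t) ≤ lam^(1-2t)` (`Cx.Z.m2`). -/

open MeasureTheory Finset Matrix Pool.Agent.BK

noncomputable section

namespace Pool.Agent.BK3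

variable {ν : Measure ℝ} {R s2 : ℝ}

private lemma torn_conj {d n : ℕ} (k x : Tor d n) : starRingEnd ℂ (ch k x) * ch k x = 1 := by
  rw [mul_comm, Complex.mul_conj, Complex.normSq_eq_norm_sq, norm_ch]
  simp

lemma torn_W {d n : ℕ} (k : Tor d n) (f : Tor d n → ℂ) (x : Tor d n) :
    ((tw (ch k) (H0 d n) - H0 d n) *ᵥ f) x =
      -∑ j : Fin d, ((ch k (Pi.single j 1) - 1) * f (x + Pi.single j 1) +
        (starRingEnd ℂ (ch k (Pi.single j 1)) - 1) * f (x - Pi.single j 1)) := by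
  have h1 : ((tw (ch k) (H0 d n) - H0 d n) *ᵥ f) x =
      ∑ t, H0 d n x t * ((starRingEnd ℂ (ch k x) * ch k t - 1) * f t) := by
    rw [Matrix.mulVec, dotProduct]
    apply Finset.sum_congr rfl
    intro t _
    rw [Matrix.sub_apply, tw]
    ring
  have h2 : ∀ l : Fin d, starRingEnd ℂ (ch k x) * ch k (x + Pi.single l 1) =
      ch k (Pi.single l 1 : Tor d n) := fun l => by
    rw [ch_add, ← mul_assoc, torn_conj, one_mul]
  have h3 : ∀ l : Fin d, starRingEnd ℂ (ch k x) * ch k (x - Pi.single l 1) =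
      starRingEnd ℂ (ch k (Pi.single l 1 : Tor d n)) := fun l => by
    rw [sub_eq_add_neg, ch_add, ch_neg, ← mul_assoc, torn_conj, one_mul]
  rw [h1, cur1a_H0]
  simp only [h2, h3]
  rw [torn_conj, sub_self, zero_mul, mul_zero, zero_sub]

lemma torn_ang {d n : ℕ} (k : Tor d n) (j : Fin d) :
    ‖ch k (Pi.single j 1) - 1‖ ≤ |ang n (k j)| := by
  have h0 : ch k (Pi.single j 1) = (ZMod.stdAddChar (k j) : ℂ) := by
    rw [ch, Finset.prod_eq_single j]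
    · rw [Pi.single_eq_same, mul_one]
    · intro l _ hl
      rw [Pi.single_eq_of_ne hl, mul_zero, AddChar.map_zero_eq_one]
    · intro h; exact absurd (Finset.mem_univ j) h
  have h1 : (ZMod.stdAddChar (k j) : ℂ) = Complex.exp (Complex.I * (ang n (k j) : ℝ)) := by
    have h : k j = (((k j).valMinAbs : ℤ) : ZMod (2 * n + 1)) := (ZMod.coe_valMinAbs _).symm
    conv_lhs => rw [h]
    rw [ZMod.stdAddChar_coe]
    congr 1
    rw [ang]
    push_cast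
    ring
  rw [h0, h1]
  have h2 := Real.norm_exp_I_mul_ofReal_sub_one_le (x := ang n (k j))
  rwa [Real.norm_eq_abs] at h2

private lemma torn_l2 {d n : ℕ} (a : Fin d → ℝ) (ha : ∀ j, 0 ≤ a j) (g : Tor d n → ℝ) :
    ∑ x : Tor d n, (∑ j : Fin d, a j * (g (x + Pi.single j 1) + g (x - Pi.single j 1))) ^ 2 ≤
      (2 * ∑ j, a j) ^ 2 * ∑ x : Tor d n, g x ^ 2 := by
  have h1 : ∀ x : Tor d n,
      (∑ j : Fin d, a j * (g (x + Pi.single j 1) + g (x - Pi.single j 1))) ^ 2 ≤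
      (∑ j, a j) * ∑ j : Fin d,
        a j * (2 * (g (x + Pi.single j 1) ^ 2 + g (x - Pi.single j 1) ^ 2)) := by
    intro x
    refine (Finset.sum_sq_le_sum_mul_sum_of_sq_le_mul Finset.univ (fun j _ => ha j)
      (g := fun j => a j * (g (x + Pi.single j 1) + g (x - Pi.single j 1)) ^ 2)
      (fun j _ => mul_nonneg (ha j) (sq_nonneg _)) (fun j _ => le_of_eq (by ring))).trans ?_
    refine mul_le_mul_of_nonneg_left (Finset.sum_le_sum fun j _ =>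
      mul_le_mul_of_nonneg_left ?_ (ha j)) (Finset.sum_nonneg fun j _ => ha j)
    nlinarith [sq_nonneg (g (x + Pi.single j 1) - g (x - Pi.single j 1))]
  have h2 : ∀ y : Tor d n, ∑ x : Tor d n, g (x + y) ^ 2 = ∑ x : Tor d n, g x ^ 2 := fun y =>
    Equiv.sum_comp (Equiv.addRight y) fun x => g x ^ 2
  have h3 : ∀ y : Tor d n, ∑ x : Tor d n, g (x - y) ^ 2 = ∑ x : Tor d n, g x ^ 2 := fun y =>
    Equiv.sum_comp (Equiv.subRight y) fun x => g x ^ 2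
  refine (Finset.sum_le_sum fun x _ => h1 x).trans (le_of_eq ?_)
  rw [← Finset.mul_sum, Finset.sum_comm]
  have h4 : ∀ j : Fin d, ∑ x : Tor d n,
      a j * (2 * (g (x + Pi.single j 1) ^ 2 + g (x - Pi.single j 1) ^ 2)) =
      a j * (4 * ∑ x : Tor d n, g x ^ 2) := by
    intro j
    rw [← Finset.mul_sum, ← Finset.mul_sum, Finset.sum_add_distrib, h2, h3]
    ring
  rw [Finset.sum_congr rfl fun j _ => h4 j, ← Finset.sum_mul]
  ring

private lemma torn_Wn {d n : ℕ} (k : Tor d n) (f : Tor d n → ℂ) (x : Tor d n) :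
    ‖((tw (ch k) (H0 d n) - H0 d n) *ᵥ f) x‖ ≤
      ∑ j, |ang n (k j)| * (‖f (x + Pi.single j 1)‖ + ‖f (x - Pi.single j 1)‖) := by
  rw [torn_W, norm_neg]
  refine (norm_sum_le _ _).trans (Finset.sum_le_sum fun j _ => ?_)
  refine (norm_add_le _ _).trans ?_
  rw [norm_mul, norm_mul, mul_add]
  have h2 : ‖starRingEnd ℂ (ch k (Pi.single j 1 : Tor d n)) - 1‖ ≤ |ang n (k j)| := by
    have : starRingEnd ℂ (ch k (Pi.single j 1 : Tor d n)) - 1 =
        starRingEnd ℂ (ch k (Pi.single j 1 : Tor d n) - 1) := by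
      rw [map_sub, map_one]
    rw [this, Complex.norm_conj]
    exact torn_ang k j
  exact add_le_add (mul_le_mul_of_nonneg_right (torn_ang k j) (norm_nonneg _))
    (mul_le_mul_of_nonneg_right h2 (norm_nonneg _))

private lemma torn_nsq {d n : ℕ} (k : Tor d n) (f : Tor d n → ℂ) :
    nsq ((tw (ch k) (H0 d n) - H0 d n) *ᵥ f) ≤ (2 * ∑ j, |ang n (k j)|) ^ 2 * nsq f := by
  refine le_trans ?_ (torn_l2 (fun j => |ang n (k j)|) (fun j => abs_nonneg _) fun x => ‖f x‖)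
  exact Finset.sum_le_sum fun x _ => pow_le_pow_left₀ (norm_nonneg _) (torn_Wn k f x) 2

private lemma torn_sum {c : Cx} {π : Par} {k : Tor c.d π.n} (h : Sml c s2 π k) :
    ∑ j, |ang π.n (k j)| ≤ c.d * (c.κ ^ 2 * s2 / 8 * π.lam ^ 2) := by
  refine (Finset.sum_le_card_nsmul _ _ _ fun j _ => h j).trans ?_
  rw [Finset.card_univ, Fintype.card_fin, nsmul_eq_mul]

theorem torn_op (hν : BLaw ν R s2) (c : Cx) (hc : c.Ok) :
    ∃ lam1 : ℝ, 0 < lam1 ∧ lam1 ≤ 1 ∧ ∀ π ∈ c.S ν lam1, ∀ k : Tor c.d π.n, Sml c s2 π k →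
      ∀ f : Tor c.d π.n → ℂ, nsq (Nk ν s2 c.d π k *ᵥ f) ≤ (c.d : ℝ) ^ 2 * nsq f := by
  obtain ⟨l1, hl0, hl1, hz⟩ := zfacts hν c hc
  refine ⟨l1, hl0, hl1, fun π hπ k hk f => ?_⟩
  have Z := hz π hπ
  have hs := hν.s2_pos
  have hκ := hc.free.kap
  have hκ1 := hc.free.kap1
  have hl := Z.l0
  set γ := (zt ν s2 c.d π).im with hγ
  have hγ0 : 0 < γ := lt_of_lt_of_le (by positivity) Z.im_lo
  have h1 := nsq_tw_mulVec (norm_ch k) (A := MM ν s2 c.d π.n π.lam π.z) (B := 1 / γ)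
    (fun f => nsq_Gr_mulVec (RS_H0 c.d π.n) 0 (z := zt ν s2 c.d π) hγ0 f)
    ((tw (ch k) (H0 c.d π.n) - H0 c.d π.n) *ᵥ f)
  rw [Nk, ← Matrix.mulVec_mulVec]
  refine h1.trans ?_
  have h2 := torn_nsq k f
  have h3 := torn_sum hk
  have h0 : 0 ≤ ∑ j, |ang π.n (k j)| := Finset.sum_nonneg fun j _ => abs_nonneg _
  have hn : 0 ≤ nsq f := Finset.sum_nonneg fun x _ => sq_nonneg _
  have h4 : (1 / γ) * (2 * ∑ j, |ang π.n (k j)|) ≤ c.d := by
    rw [one_div, inv_mul_le_iff₀ hγ0]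
    have h5 : γ * c.d ≥ c.κ * s2 / 4 * π.lam ^ 2 * c.d :=
      mul_le_mul_of_nonneg_right Z.im_lo (Nat.cast_nonneg _)
    have h6 : c.κ ^ 2 ≤ c.κ := by nlinarith
    have h7 : (c.d : ℝ) * (c.κ ^ 2 * s2 / 8 * π.lam ^ 2) ≤ c.d * (c.κ * s2 / 8 * π.lam ^ 2) := by
      refine mul_le_mul_of_nonneg_left ?_ (Nat.cast_nonneg _)
      have : 0 ≤ s2 / 8 * π.lam ^ 2 := by positivity
      nlinarith
    nlinarith
  calc (1 / γ) ^ 2 * nsq ((tw (ch k) (H0 c.d π.n) - H0 c.d π.n) *ᵥ f)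
      ≤ (1 / γ) ^ 2 * ((2 * ∑ j, |ang π.n (k j)|) ^ 2 * nsq f) :=
        mul_le_mul_of_nonneg_left h2 (by positivity)
    _ = ((1 / γ) * (2 * ∑ j, |ang π.n (k j)|)) ^ 2 * nsq f := by ring
    _ ≤ (c.d : ℝ) ^ 2 * nsq f :=
        mul_le_mul_of_nonneg_right (pow_le_pow_left₀ (by positivity) h4 2) hn

private lemma torn_entry {d n : ℕ} (k : Tor d n) (M : Matrix (Tor d n) (Tor d n) ℂ)
    (a b : Tor d n) : ‖(tw (ch k) M * (tw (ch k) (H0 d n) - H0 d n)) a b‖ ≤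
      ∑ j, |ang n (k j)| * (‖M a (b + Pi.single j 1)‖ + ‖M a (b - Pi.single j 1)‖) := by
  set c : Tor d n → ℂ := fun t => starRingEnd ℂ (tw (ch k) M a t) with hc
  have h1 : ‖(tw (ch k) M * (tw (ch k) (H0 d n) - H0 d n)) a b‖ =
      ‖((tw (ch k) (H0 d n) - H0 d n) *ᵥ c) b‖ := by
    rw [Matrix.mul_apply, ← Complex.norm_conj, map_sum, Matrix.mulVec, dotProduct]
    congr 1
    apply Finset.sum_congr rfl
    intro t _
    have h2 : starRingEnd ℂ (H0 d n t b) = H0 d n b t := by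
      have := congrFun (congrFun (RS_H0 d n).herm b) t
      rw [Matrix.conjTranspose_apply] at this
      exact this
    rw [map_mul, mul_comm, hc]
    congr 1
    rw [Matrix.sub_apply, Matrix.sub_apply, map_sub, tw, tw, map_mul, map_mul, Complex.conj_conj,
      h2]
    ring
  rw [h1]
  refine (torn_Wn k c b).trans (le_of_eq ?_)
  refine Finset.sum_congr rfl fun j _ => ?_
  rw [hc]
  simp only [Complex.norm_conj]
  rw [norm_tw (norm_ch k), norm_tw (norm_ch k)]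

theorem torn_row (hν : BLaw ν R s2) (c : Cx) (hc : c.Ok) :
    ∃ lam1 : ℝ, 0 < lam1 ∧ lam1 ≤ 1 ∧ ∀ π ∈ c.S ν lam1, ∀ k : Tor c.d π.n, Sml c s2 π k →
      ∀ a, ∑ b, (‖Nk ν s2 c.d π k a b‖ / ph2 (c.rw π.lam) a b) ^ 2 ≤
        (π.lam ^ (1 - 2 * c.t)) ^ 2 := by
  have ht : 0 < c.t := by
    rw [Cx.t]
    have := hc.e0
    positivity
  obtain ⟨l1, hl0, hl1, hz⟩ := zfacts hν c hc
  obtain ⟨l2, hl0', hl1', hs⟩ := sm_le (Real.exp 1 * (2 * (c.d * (c.κ ^ 2 * s2 / 8))))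
    (show 1 - 2 * c.t < 1 - c.t by linarith)
  refine ⟨min l1 l2, lt_min hl0 hl0', (min_le_left _ _).trans hl1, fun π hπ k hk a => ?_⟩
  have Z := hz π (c.S_mono ν (min_le_left _ _) hπ)
  have hs2 := hν.s2_pos
  have hκ := hc.free.kap
  have hl := Z.l0
  have hle : π.lam ≤ l2 := hπ.1.2.1.trans (min_le_right _ _)
  have hrw : 1 ≤ c.rw π.lam := by
    rw [Cx.rw]
    apply Real.one_le_rpow_of_pos_of_le_one_of_nonpos hl Z.l1
    have h1 := hc.e0
    have h2 : 0 ≤ c.e / (40 * c.d) := by positivity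
    linarith
  have hW := wgt_ph2 (d := c.d) (n := π.n) (lt_of_lt_of_le one_pos hrw)
  set g : Tor c.d π.n → ℝ := fun b => ‖MM ν s2 c.d π.n π.lam π.z a b‖ / ph2 (c.rw π.lam) a b with hg
  have h1 : ∀ b, ‖Nk ν s2 c.d π k a b‖ / ph2 (c.rw π.lam) a b ≤
      ∑ j, (Real.exp 1 * |ang π.n (k j)|) * (g (b + Pi.single j 1) + g (b - Pi.single j 1)) := by
    intro b
    rw [div_le_iff₀ (hW.pos a b), Finset.sum_mul]
    refine (torn_entry k (MM ν s2 c.d π.n π.lam π.z) a b).trans (Finset.sum_le_sum fun j _ => ?_)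
    have e1 := (ph2_nbr hrw a (b + Pi.single j 1) j).2
    rw [add_sub_cancel_right] at e1
    have e2 := (ph2_nbr hrw a (b - Pi.single j 1) j).1
    rw [sub_add_cancel] at e2
    have e3 : ∀ x : Tor c.d π.n, ph2 (c.rw π.lam) a x ≤ Real.exp 1 * ph2 (c.rw π.lam) a b →
        ‖MM ν s2 c.d π.n π.lam π.z a x‖ ≤ Real.exp 1 * (g x * ph2 (c.rw π.lam) a b) := by
      intro x hx
      have e4 : ‖MM ν s2 c.d π.n π.lam π.z a x‖ = g x * ph2 (c.rw π.lam) a x := by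
        rw [hg]
        exact (div_mul_cancel₀ _ (hW.pos a x).ne').symm
      have e5 : 0 ≤ g x := div_nonneg (norm_nonneg _) (hW.pos a x).le
      rw [e4]
      nlinarith [mul_le_mul_of_nonneg_left hx e5]
    have e6 := add_le_add (e3 _ e1) (e3 _ e2)
    have e7 := mul_le_mul_of_nonneg_left e6 (abs_nonneg (ang π.n (k j)))
    refine e7.trans (le_of_eq ?_)
    ring
  have h2 := torn_l2 (fun j => Real.exp 1 * |ang π.n (k j)|) (fun j => by positivity) g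
  have h3 : ∑ x, g x ^ 2 ≤ (π.lam ^ (-1 - c.t)) ^ 2 := Z.m2 a
  have h4 : ∑ j, Real.exp 1 * |ang π.n (k j)| ≤
      Real.exp 1 * (c.d * (c.κ ^ 2 * s2 / 8 * π.lam ^ 2)) := by
    rw [← Finset.mul_sum]
    exact mul_le_mul_of_nonneg_left (torn_sum hk) (Real.exp_pos 1).le
  have h5 : (2 * ∑ j, Real.exp 1 * |ang π.n (k j)|) * π.lam ^ (-1 - c.t) ≤
      π.lam ^ (1 - 2 * c.t) := by
    refine le_trans ?_ (hs π.lam hl hle)
    have h6 : π.lam ^ (1 - c.t) = π.lam ^ 2 * π.lam ^ (-1 - c.t) := by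
      rw [← Real.rpow_natCast, ← Real.rpow_add hl]
      congr 1
      push_cast
      ring
    rw [h6]
    have h7 := rp_pos hl (-1 - c.t)
    have h8 := mul_le_mul_of_nonneg_right h4 h7.le
    nlinarith
  have h0 : 0 ≤ ∑ j, Real.exp 1 * |ang π.n (k j)| :=
    Finset.sum_nonneg fun j _ => by positivity
  calc ∑ b, (‖Nk ν s2 c.d π k a b‖ / ph2 (c.rw π.lam) a b) ^ 2
      ≤ ∑ b, (∑ j, (Real.exp 1 * |ang π.n (k j)|) *
          (g (b + Pi.single j 1) + g (b - Pi.single j 1))) ^ 2 :=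
        Finset.sum_le_sum fun b _ => pow_le_pow_left₀
          (div_nonneg (norm_nonneg _) (hW.pos a b).le) (h1 b) 2
    _ ≤ (2 * ∑ j, Real.exp 1 * |ang π.n (k j)|) ^ 2 * ∑ x, g x ^ 2 := h2
    _ ≤ (2 * ∑ j, Real.exp 1 * |ang π.n (k j)|) ^ 2 * (π.lam ^ (-1 - c.t)) ^ 2 :=
        mul_le_mul_of_nonneg_left h3 (sq_nonneg _)
    _ = ((2 * ∑ j, Real.exp 1 * |ang π.n (k j)|) * π.lam ^ (-1 - c.t)) ^ 2 := by ring
    _ ≤ (π.lam ^ (1 - 2 * c.t)) ^ 2 := by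
        refine pow_le_pow_left₀ ?_ h5 2
        have := rp_pos hl (-1 - c.t)
        positivity

end Pool.Agent.BK3
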