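import Pool.Agent.BK3.TDefs
import Pool.Agent.BK3.ZF
import Pool.Agent.BK3.Sm
import Pool.Agent.BK.Cur1b

/-! BK3 module TorQ: the function `Q(k)` and the diagonal of `m_k`.
`m_aa = -2 i γ Q(k)`, `γ = Im ζ`: `cur_id` with `v = 0`, `z = ζ` (note `Gr H0 0 ζ = MM`): `m_aa = 2iγ (tw M Mᴴ)_aa -
2i Im M_aa`, `(tw M Mᴴ)_aa = ∑_y conj(u_a) u_y |M_ay|²` (`tw_diag_sum`), `Im M_aa = γ ∑_y |M_ay|²` (`ward`),
`conj(u_a) u_y = ch k (y-a)` (`ch_add`, `ch_neg`), translation (`Gr0_add`) reduces to `a = 0`; the imaginary parts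
cancel because `M_{0,-y} = M_0y` (`Gr0_neg`) and `ch k (-y) = conj (ch k y)`.
`0 ≤ Q`, `γ Q ≤ 2 Im M_00 ≤ 2 lam^(-t) ≤ lam^(-2t)` (`Re ch ≥ -1`), and `FreeC.low` with `|ang| ≤ κ² s2 lam²/8 ≤ κγ/2`
(`Cx.Z.im_lo`). -/

open MeasureTheory Finset Matrix Pool.Agent.BK

noncomputable section

namespace Pool.Agent.BK3

variable {ν : Measure ℝ} {R s2 : ℝ}

private lemma torq_sum {d n : ℕ} {ζ : ℂ} (hζ : 0 < ζ.im) (k a : Tor d n) :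
    ∑ y, starRingEnd ℂ (ch k a) * ch k y * (‖Gr (H0 d n) 0 ζ a y‖ ^ 2 : ℝ) =
      ((∑ y, ‖Gr (H0 d n) 0 ζ 0 y‖ ^ 2 * (ch k y).re : ℝ) : ℂ) := by
  have h1 : ∑ y, starRingEnd ℂ (ch k a) * ch k y * (‖Gr (H0 d n) 0 ζ a y‖ ^ 2 : ℝ) =
      ∑ y, ch k y * ((‖Gr (H0 d n) 0 ζ 0 y‖ ^ 2 : ℝ) : ℂ) := by
    rw [← Equiv.sum_comp (Equiv.addRight a)]
    refine Finset.sum_congr rfl fun y _ => ?_
    have h2 := Gr0_add ζ a 0 y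
    rw [zero_add] at h2
    rw [Equiv.coe_addRight, h2, ch_add]
    have h3 : starRingEnd ℂ (ch k a) * ch k a = 1 := by
      rw [mul_comm, Complex.mul_conj, Complex.normSq_eq_norm_sq, norm_ch]
      simp
    calc starRingEnd ℂ (ch k a) * (ch k y * ch k a) * ((‖Gr (H0 d n) 0 ζ 0 y‖ ^ 2 : ℝ) : ℂ)
        = (starRingEnd ℂ (ch k a) * ch k a) * (ch k y * ((‖Gr (H0 d n) 0 ζ 0 y‖ ^ 2 : ℝ) : ℂ)) := by
          ring
      _ = _ := by rw [h3, one_mul]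
  have h4 : ∑ y, ch k y * ((‖Gr (H0 d n) 0 ζ 0 y‖ ^ 2 : ℝ) : ℂ) =
      ∑ y, starRingEnd ℂ (ch k y) * ((‖Gr (H0 d n) 0 ζ 0 y‖ ^ 2 : ℝ) : ℂ) := by
    rw [← Equiv.sum_comp (Equiv.neg (Tor d n))]
    refine Finset.sum_congr rfl fun y _ => ?_
    rw [Equiv.neg_apply, Gr0_neg hζ, ch_neg]
  have h5 : ∑ y, ch k y * ((‖Gr (H0 d n) 0 ζ 0 y‖ ^ 2 : ℝ) : ℂ) =
      (1 / 2) * ∑ y, (ch k y + starRingEnd ℂ (ch k y)) *
        ((‖Gr (H0 d n) 0 ζ 0 y‖ ^ 2 : ℝ) : ℂ) := by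
    simp only [add_mul]
    rw [Finset.sum_add_distrib, ← h4]
    ring
  rw [h1, h5, Finset.mul_sum]
  push_cast
  refine Finset.sum_congr rfl fun y _ => ?_
  rw [Complex.add_conj]
  push_cast
  ring

theorem torq_diag (hν : BLaw ν R s2) (c : Cx) (hc : c.Ok) :
    ∃ lam1 : ℝ, 0 < lam1 ∧ lam1 ≤ 1 ∧ ∀ π ∈ c.S ν lam1, ∀ k a : Tor c.d π.n,
      mk' ν s2 c.d π k a a =
        -2 * Complex.I * ((zt ν s2 c.d π).im : ℂ) * ((Qk ν s2 c.d π k : ℝ) : ℂ) := by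
  obtain ⟨l1, hl0, hl1, hz⟩ := zfacts hν c hc
  refine ⟨l1, hl0, hl1, fun π hπ k a => ?_⟩
  have Z := hz π hπ
  have hs := hν.s2_pos
  have hκ := hc.free.kap
  have hl := Z.l0
  have hγ0 : 0 < (zt ν s2 c.d π).im := lt_of_lt_of_le (by positivity) Z.im_lo
  have hM : MM ν s2 c.d π.n π.lam π.z = Gr (H0 c.d π.n) 0 (zt ν s2 c.d π) := rfl
  have h1 := cur_id (RS_H0 c.d π.n) 0 hγ0 (norm_ch k) a
  rw [tw_diag_sum, torq_sum hγ0] at h1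
  have h2 : mk' ν s2 c.d π k a a = (tw (ch k) (Gr (H0 c.d π.n) 0 (zt ν s2 c.d π)) *
      (tw (ch k) (H0 c.d π.n) - H0 c.d π.n) * (Gr (H0 c.d π.n) 0 (zt ν s2 c.d π))ᴴ) a a := rfl
  have h3 := ward (RS_H0 c.d π.n) 0 hγ0 a
  have h4 : ∑ y, ‖Gr (H0 c.d π.n) 0 (zt ν s2 c.d π) a y‖ ^ 2 =
      ∑ y, ‖Gr (H0 c.d π.n) 0 (zt ν s2 c.d π) 0 y‖ ^ 2 := by
    rw [← Equiv.sum_comp (Equiv.addRight a)]
    refine Finset.sum_congr rfl fun y _ => ?_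
    have h2 := Gr0_add (zt ν s2 c.d π) a 0 y
    rw [zero_add] at h2
    rw [Equiv.coe_addRight, h2]
  have h5 : (Gr (H0 c.d π.n) 0 (zt ν s2 c.d π) a a).im =
      (zt ν s2 c.d π).im * ∑ y, ‖Gr (H0 c.d π.n) 0 (zt ν s2 c.d π) 0 y‖ ^ 2 := by
    rw [← h4, h3, mul_div_cancel₀ _ hγ0.ne']
  have h6 : Qk ν s2 c.d π k = ∑ y, ‖Gr (H0 c.d π.n) 0 (zt ν s2 c.d π) 0 y‖ ^ 2 -
      ∑ y, ‖Gr (H0 c.d π.n) 0 (zt ν s2 c.d π) 0 y‖ ^ 2 * (ch k y).re := by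
    rw [Qk, hM, ← Finset.sum_sub_distrib]
    exact Finset.sum_congr rfl fun y _ => by ring
  rw [h2, h6]
  have h7 := h1
  rw [h5] at h7
  push_cast at h7 ⊢
  linear_combination -h7

theorem torq (hν : BLaw ν R s2) (c : Cx) (hc : c.Ok) :
    ∃ lam1 : ℝ, 0 < lam1 ∧ lam1 ≤ 1 ∧ ∀ π ∈ c.S ν lam1, ∀ k : Tor c.d π.n,
      0 ≤ Qk ν s2 c.d π k ∧ (zt ν s2 c.d π).im * Qk ν s2 c.d π k ≤ π.lam ^ (-(2 * c.t)) ∧
      (Sml c s2 π k → ∀ j, c.κ * ang π.n (k j) ^ 2 / (zt ν s2 c.d π).im ^ 3 ≤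
        Qk ν s2 c.d π k) := by
  have ht : 0 < c.t := by
    rw [Cx.t]
    have := hc.e0
    positivity
  obtain ⟨l1, hl0, hl1, hz⟩ := zfacts hν c hc
  obtain ⟨l2, hl0', hl1', hs⟩ := sm_le 2 (show -(2 * c.t) < -c.t by linarith)
  refine ⟨min l1 l2, lt_min hl0 hl0', (min_le_left _ _).trans hl1, fun π hπ k => ?_⟩
  have Z := hz π (c.S_mono ν (min_le_left _ _) hπ)
  have hs2 := hν.s2_pos
  have hκ := hc.free.kap
  have hl := Z.l0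
  have hle : π.lam ≤ l2 := hπ.1.2.1.trans (min_le_right _ _)
  have hγ0 : 0 < (zt ν s2 c.d π).im := lt_of_lt_of_le (by positivity) Z.im_lo
  have hM : MM ν s2 c.d π.n π.lam π.z = Gr (H0 c.d π.n) 0 (zt ν s2 c.d π) := rfl
  have hre : ∀ y, |(ch k y).re| ≤ 1 := fun y => by
    have := Complex.abs_re_le_norm (ch k y)
    rwa [norm_ch] at this
  refine ⟨?_, ?_, ?_⟩
  · rw [Qk]
    refine Finset.sum_nonneg fun y _ => mul_nonneg (sq_nonneg _) ?_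
    linarith [(abs_le.1 (hre y)).2]
  · have h3 := ward (RS_H0 c.d π.n) 0 hγ0 0
    have h4 : Qk ν s2 c.d π k ≤ 2 * ∑ y, ‖Gr (H0 c.d π.n) 0 (zt ν s2 c.d π) 0 y‖ ^ 2 := by
      rw [Qk, hM, Finset.mul_sum]
      refine Finset.sum_le_sum fun y _ => ?_
      have h5 := (abs_le.1 (hre y)).1
      have h6 := sq_nonneg ‖Gr (H0 c.d π.n) 0 (zt ν s2 c.d π) 0 y‖
      nlinarith
    rw [h3] at h4
    have h5 : (zt ν s2 c.d π).im * Qk ν s2 c.d π k ≤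
        2 * (Gr (H0 c.d π.n) 0 (zt ν s2 c.d π) 0 0).im := by
      have h6 := mul_le_mul_of_nonneg_left h4 hγ0.le
      refine h6.trans (le_of_eq ?_)
      field_simp
    have h7 := Z.md 0
    rw [hM] at h7
    have h8 := Complex.im_le_norm (Gr (H0 c.d π.n) 0 (zt ν s2 c.d π) 0 0)
    have h9 := hs π.lam hl hle
    linarith
  · intro hk j
    have hbig := Z.big
    refine hc.free.low (zt ν s2 c.d π) π.n Z.re_lo Z.re_hi hγ0 Z.im_hi hbig k (fun l => ?_) j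
    refine (hk l).trans ?_
    have h1 := mul_le_mul_of_nonneg_left Z.im_lo hκ.le
    nlinarith

end Pool.Agent.BK3
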