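import Pool.Agent.BK3.OneS

/-! BK3 module WD: pointwise bound of the change of `χ P_y`, `P_y = W^P Z_y conj(Z_y)²` (`Pz`), when
`V_x` is replaced by `t`. `W = Wv H M lam z w V = ∑_y |Z_y|⁴`, `s_y = |Z_y|`, `a_x = |G_xw|`,
`ε_y = 4 R lam |G_yx| |G_xw|` (`= ee R lam G y w x`).
`wd1`: `|Z_y - Z^t_y| ≤ ε_y` (`one_sub_le`).
`wd2`: if all `G4 ≤ B` and `256 R⁴ lam⁴ B² ≤ ω` then `∑_y ε_y⁴ ≤ 256 R⁴ lam⁴ a_x⁴ G4_x ≤ ω`, so
`W^t ≤ ∑ (s+ε)⁴ ≤ 8 (W + ω)`, and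
`|W - W^t| ≤ ∑ 4 (s+ε)³ ε ≤ 4 (8(W+ω))^(3/4) (∑ ε⁴)^(1/4) ≤ 80 R lam a_x B^(1/4) (W+ω)^(3/4)`
(Hoelder `4/3, 4`; `4·8^(3/4)·4 ≤ 80`).
`wd3` (the module's result): `|P_y - P^t_y| ≤ |W^P - (W^t)^P| s³ + (W^t)^P |Z conj(Z)² - Z^t conj(Z^t)²|`, with
`|W^P - (W^t)^P| ≤ P (8(W+ω))^(P-1) |W - W^t|` and `|Z conj Z² - ..| ≤ 3 (s+ε)² ε ≤ 6 (s² + ε²) ε`.
With `C = 10 P 8^P · ...` (any explicit constant is fine; I used `100 (P+1) 8^P`). -/

open MeasureTheory Finset Matrix Pool.Agent.BK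

noncomputable section

namespace Pool.Agent.BK3

variable {X : Type} [Fintype X] [DecidableEq X] {R lam : ℝ} {H M : Matrix X X ℂ} {z : ℂ}

lemma wd_pow4 (a b : ℝ) : (a + b) ^ 4 ≤ 8 * (a ^ 4 + b ^ 4) := by
  have h1 : (a + b) ^ 2 ≤ 2 * (a ^ 2 + b ^ 2) := by nlinarith [sq_nonneg (a - b)]
  have h2 : ((a + b) ^ 2) ^ 2 ≤ (2 * (a ^ 2 + b ^ 2)) ^ 2 :=
    pow_le_pow_left₀ (sq_nonneg _) h1 2
  nlinarith [sq_nonneg (a ^ 2 - b ^ 2)]

lemma wd_diff4 {s t e : ℝ} (hs : 0 ≤ s) (ht : 0 ≤ t) (h : |s - t| ≤ e) :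
    |s ^ 4 - t ^ 4| ≤ 4 * (s + e) ^ 3 * e := by
  have he : 0 ≤ e := (abs_nonneg _).trans h
  have ht2 : t ≤ s + e := by
    have := abs_le.1 h
    linarith
  have h1 : s ^ 4 - t ^ 4 = (s - t) * (s ^ 3 + s ^ 2 * t + s * t ^ 2 + t ^ 3) := by ring
  have hs2 : s ≤ s + e := by linarith
  have h2 : s ^ 3 + s ^ 2 * t + s * t ^ 2 + t ^ 3 ≤ 4 * (s + e) ^ 3 := by
    calc s ^ 3 + s ^ 2 * t + s * t ^ 2 + t ^ 3 ≤ (s + e) ^ 3 + (s + e) ^ 2 * (s + e) +
          (s + e) * (s + e) ^ 2 + (s + e) ^ 3 := by gcongr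
      _ = 4 * (s + e) ^ 3 := by ring
  rw [h1, abs_mul, abs_of_nonneg (by positivity : 0 ≤ s ^ 3 + s ^ 2 * t + s * t ^ 2 + t ^ 3)]
  calc |s - t| * (s ^ 3 + s ^ 2 * t + s * t ^ 2 + t ^ 3) ≤ e * (4 * (s + e) ^ 3) := by gcongr
    _ = _ := by ring

lemma wd_cube {Z T : ℂ} {e : ℝ} (h : ‖Z - T‖ ≤ e) :
    ‖Z * starRingEnd ℂ Z ^ 2 - T * starRingEnd ℂ T ^ 2‖ ≤ 3 * (‖Z‖ + e) ^ 2 * e := by
  have he : 0 ≤ e := (norm_nonneg _).trans h
  have hT : ‖T‖ ≤ ‖Z‖ + e := by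
    have h1 : T = Z - (Z - T) := by ring
    calc ‖T‖ = ‖Z - (Z - T)‖ := by rw [← h1]
      _ ≤ ‖Z‖ + ‖Z - T‖ := norm_sub_le _ _
      _ ≤ ‖Z‖ + e := by linarith
  have hc : ‖starRingEnd ℂ Z - starRingEnd ℂ T‖ ≤ e := by
    rw [← map_sub, RCLike.norm_conj]
    exact h
  have h2 : Z * starRingEnd ℂ Z ^ 2 - T * starRingEnd ℂ T ^ 2 =
      (Z - T) * starRingEnd ℂ Z ^ 2 +
        T * ((starRingEnd ℂ Z - starRingEnd ℂ T) * (starRingEnd ℂ Z + starRingEnd ℂ T)) := by ring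
  rw [h2]
  refine (norm_add_le _ _).trans ?_
  rw [norm_mul, norm_mul, norm_mul, norm_pow, RCLike.norm_conj]
  have h3 : ‖starRingEnd ℂ Z + starRingEnd ℂ T‖ ≤ ‖Z‖ + (‖Z‖ + e) := by
    refine (norm_add_le _ _).trans ?_
    rw [RCLike.norm_conj, RCLike.norm_conj]
    linarith
  have hZ := norm_nonneg Z
  calc ‖Z - T‖ * ‖Z‖ ^ 2 + ‖T‖ * (‖starRingEnd ℂ Z - starRingEnd ℂ T‖ *
        ‖starRingEnd ℂ Z + starRingEnd ℂ T‖)
      ≤ e * (‖Z‖ + e) ^ 2 + (‖Z‖ + e) * (e * (‖Z‖ + (‖Z‖ + e))) := by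
        gcongr
        linarith
    _ ≤ e * (‖Z‖ + e) ^ 2 + (‖Z‖ + e) * (e * (2 * (‖Z‖ + e))) := by
        gcongr
        linarith
    _ = 3 * (‖Z‖ + e) ^ 2 * e := by ring

lemma wd_powP {a b c : ℝ} (P : ℕ) (ha : 0 ≤ a) (hb : 0 ≤ b) (hac : a ≤ c) (hbc : b ≤ c) :
    |a ^ P - b ^ P| ≤ |a - b| * P * c ^ (P - 1) := by
  have h1 := abs_pow_sub_pow_le a b P
  refine h1.trans ?_
  have h2 : max |a| |b| ≤ c := by
    rw [abs_of_nonneg ha, abs_of_nonneg hb]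
    exact max_le hac hbc
  have h3 : 0 ≤ max |a| |b| := le_max_of_le_left (abs_nonneg a)
  gcongr

omit [DecidableEq X] in
lemma wd_holder {s e : X → ℝ} (hs : ∀ y, 0 ≤ s y) (he : ∀ y, 0 ≤ e y) :
    ∑ y, s y ^ 3 * e y ≤ (∑ y, s y ^ 4) ^ (3 / 4 : ℝ) * (∑ y, e y ^ 4) ^ (1 / 4 : ℝ) := by
  have hpq : Real.HolderConjugate (4 / 3) 4 := by
    rw [Real.holderConjugate_iff]
    constructor <;> norm_num
  have h := Real.inner_le_Lp_mul_Lq univ (fun y => s y ^ 3) e hpq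
  have e1 : ∀ y, |s y ^ 3| ^ (4 / 3 : ℝ) = s y ^ 4 := by
    intro y
    rw [abs_of_nonneg (pow_nonneg (hs y) 3), ← Real.rpow_natCast (s y) 3, ← Real.rpow_mul (hs y),
      ← Real.rpow_natCast (s y) 4]
    norm_num
  have e2 : ∀ y, |e y| ^ (4 : ℝ) = e y ^ 4 := by
    intro y
    rw [abs_of_nonneg (he y), ← Real.rpow_natCast (e y) 4]
    norm_num
  simp only [e1, e2] at h
  have e3 : (1 / (4 / 3) : ℝ) = 3 / 4 := by norm_num
  rw [e3] at h
  exact h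

lemma wd_W_nonneg (H M : Matrix X X ℂ) (lam : ℝ) (z : ℂ) (w : X) (V : X → ℝ) :
    0 ≤ Wv H M lam z w V := by
  unfold Wv
  positivity

lemma wd1 (hH : RS H) (hz : z.im ≠ 0) (hR : 0 ≤ R) (hlam : 0 ≤ lam) {V : X → ℝ}
    (hV : V ∈ Box X R) {x : X} {t : ℝ} (ht : t ∈ Set.Icc (-R) R)
    (hs : 2 * R * lam * ‖Gv H lam z V x x‖ ≤ 1 / 2) (w y : X) :
    ‖Zv H M lam z w V y - Zv H M lam z w (Function.update V x t) y‖ ≤
      4 * R * lam * ‖Gv H lam z V y x‖ * ‖Gv H lam z V x w‖ := by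
  have h1 : Zv H M lam z w V y - Zv H M lam z w (Function.update V x t) y =
      Gv H lam z V y w - Gv H lam z (Function.update V x t) y w := by
    unfold Zv Gv
    rw [Matrix.sub_apply, Matrix.sub_apply]
    ring
  rw [h1]
  exact one_sub_le hH hz hR hlam hV ht hs y w

lemma wd_sum (hH : RS H) (hz : z.im ≠ 0) (V : X → ℝ) (x w : X) {B : ℝ}
    (hG : ∀ u, G4 (Gv H lam z V) u ≤ B) :
    ∑ y, (4 * R * lam * ‖Gv H lam z V y x‖ * ‖Gv H lam z V x w‖) ^ 4 ≤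
      (4 * R * lam * ‖Gv H lam z V x w‖) ^ 4 * B := by
  have h1 : ∀ y, (4 * R * lam * ‖Gv H lam z V y x‖ * ‖Gv H lam z V x w‖) ^ 4 =
      (4 * R * lam * ‖Gv H lam z V x w‖) ^ 4 * ‖Gv H lam z V x y‖ ^ 4 := by
    intro y
    rw [Gv_symm hH hz V y x]
    ring
  rw [sum_congr rfl (fun y _ => h1 y), ← mul_sum]
  exact mul_le_mul_of_nonneg_left (hG x) (by positivity)

lemma wd_const : (4 : ℝ) * 8 ^ (3 / 4 : ℝ) * 4 ≤ 80 := by
  have h1 : (8 : ℝ) ^ (3 / 4 : ℝ) ≤ 5 := by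
    have h2 : ((8 : ℝ) ^ (3 / 4 : ℝ)) ^ 4 ≤ 5 ^ 4 := by
      rw [← Real.rpow_natCast, ← Real.rpow_mul (by norm_num)]
      norm_num
    exact le_of_pow_le_pow_left₀ (by norm_num) (by norm_num) h2
  linarith

theorem wd3 (hH : RS H) (hz : z.im ≠ 0) (hR : 1 ≤ R) (hlam : 0 ≤ lam) {V : X → ℝ}
    (hV : V ∈ Box X R) {x : X} {t : ℝ} (ht : t ∈ Set.Icc (-R) R)
    (hs : 2 * R * lam * ‖Gv H lam z V x x‖ ≤ 1 / 2) {B ω : ℝ} (hB : 1 ≤ B)
    (hG : ∀ u, G4 (Gv H lam z V) u ≤ B) (hω : 256 * R ^ 4 * lam ^ 4 * B ^ 2 ≤ ω) (w y : X) (P : ℕ) :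
    ‖Pz H M lam z w P V y - Pz H M lam z w P (Function.update V x t) y‖ ≤
      100 * (P + 1) * 8 ^ P * R * (lam * ‖Gv H lam z V x w‖ * B ^ (1 / 4 : ℝ) *
          (Wv H M lam z w V + ω) ^ ((P : ℝ) - 1 / 4) * ‖Zv H M lam z w V y‖ ^ 3 +
        (Wv H M lam z w V + ω) ^ P * (lam * ‖Gv H lam z V y x‖ * ‖Gv H lam z V x w‖) *
          (‖Zv H M lam z w V y‖ ^ 2 + (4 * R * lam * ‖Gv H lam z V y x‖ * ‖Gv H lam z V x w‖) ^ 2)) := by
  have hR0 : 0 ≤ R := by linarith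
  have hB0 : 0 ≤ B := by linarith
  have hW0 := wd_W_nonneg H M lam z w V
  have hω0 : 0 ≤ ω := le_trans (by positivity) hω
  set a : ℝ := ‖Gv H lam z V x w‖ with ha
  set W : ℝ := Wv H M lam z w V with hW
  set W' : ℝ := Wv H M lam z w (Function.update V x t) with hW'
  have hW'0 : 0 ≤ W' := wd_W_nonneg H M lam z w _
  set s : X → ℝ := fun y => ‖Zv H M lam z w V y‖ with hsdef
  set s' : X → ℝ := fun y => ‖Zv H M lam z w (Function.update V x t) y‖ with hs'def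
  set e : X → ℝ := fun y => 4 * R * lam * ‖Gv H lam z V y x‖ * a with hedef
  have ha0 : 0 ≤ a := norm_nonneg _
  have hs0 : ∀ y, 0 ≤ s y := fun y => norm_nonneg _
  have hs'0 : ∀ y, 0 ≤ s' y := fun y => norm_nonneg _
  have he0 : ∀ y, 0 ≤ e y := fun y => by positivity
  have hZ : ∀ y, ‖Zv H M lam z w V y - Zv H M lam z w (Function.update V x t) y‖ ≤ e y :=
    fun y => wd1 hH hz hR0 hlam hV ht hs w y
  have hss : ∀ y, |s y - s' y| ≤ e y := fun y => (abs_norm_sub_norm_le _ _).trans (hZ y)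
  have hs'le : ∀ y, s' y ≤ s y + e y := fun y => by
    have := abs_le.1 (hss y)
    linarith
  have hsum := wd_sum (R := R) (lam := lam) hH hz V x w hG
  have hesum : ∑ y, e y ^ 4 ≤ (4 * R * lam * a) ^ 4 * B := hsum
  have ha4 : a ^ 4 ≤ B := by
    refine le_trans ?_ (hG x)
    unfold G4
    exact single_le_sum (f := fun y => ‖Gv H lam z V x y‖ ^ 4) (fun y _ => by positivity) (mem_univ w)
  have heω : ∑ y, e y ^ 4 ≤ ω := by
    refine hesum.trans (le_trans ?_ hω)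
    calc (4 * R * lam * a) ^ 4 * B = 256 * R ^ 4 * lam ^ 4 * (a ^ 4 * B) := by ring
      _ ≤ 256 * R ^ 4 * lam ^ 4 * (B * B) := by gcongr
      _ = _ := by ring
  have hSE : ∑ y, (s y + e y) ^ 4 ≤ 8 * (W + ω) := by
    calc ∑ y, (s y + e y) ^ 4 ≤ ∑ y, 8 * (s y ^ 4 + e y ^ 4) := sum_le_sum (fun y _ => wd_pow4 _ _)
      _ = 8 * (∑ y, s y ^ 4 + ∑ y, e y ^ 4) := by rw [← mul_sum, sum_add_distrib]
      _ ≤ 8 * (W + ω) := by
          have : ∑ y, s y ^ 4 = W := rfl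
          rw [this]
          linarith
  have hW'le : W' ≤ 8 * (W + ω) := by
    refine le_trans ?_ hSE
    exact sum_le_sum (fun y _ => pow_le_pow_left₀ (hs'0 y) (hs'le y) 4)
  have hWle : W ≤ 8 * (W + ω) := by linarith
  rcases hlam.eq_or_lt with hl | hl
  · -- `lam = 0`
    have he1 : ∀ y, e y = 0 := fun y => by simp only [hedef, ← hl]; ring
    have hZ1 : ∀ y, Zv H M lam z w (Function.update V x t) y = Zv H M lam z w V y := by
      intro y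
      have h1 := hZ y
      rw [he1] at h1
      have h2 := norm_le_zero_iff.1 h1
      exact (sub_eq_zero.1 h2).symm
    have h3 : Pz H M lam z w P (Function.update V x t) y = Pz H M lam z w P V y := by
      unfold Pz Wv
      simp only [hZ1]
    rw [h3, sub_self, norm_zero]
    positivity
  · have hωpos : 0 < ω := lt_of_lt_of_le (by positivity) hω
    have hS : 0 < W + ω := by linarith
    have hdW : |W - W'| ≤ 80 * R * lam * a * B ^ (1 / 4 : ℝ) * (W + ω) ^ (3 / 4 : ℝ) := by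
      have h1 : |W - W'| ≤ ∑ y, 4 * (s y + e y) ^ 3 * e y := by
        have h2 : W - W' = ∑ y, (s y ^ 4 - s' y ^ 4) := by
          rw [sum_sub_distrib]
          rfl
        rw [h2]
        exact (abs_sum_le_sum_abs _ _).trans (sum_le_sum (fun y _ =>
          wd_diff4 (hs0 y) (hs'0 y) (hss y)))
      refine h1.trans ?_
      have h2 : ∑ y, 4 * (s y + e y) ^ 3 * e y = 4 * ∑ y, (s y + e y) ^ 3 * e y := by
        rw [mul_sum]
        exact sum_congr rfl (fun y _ => by ring)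
      rw [h2]
      have h3 := wd_holder (s := fun y => s y + e y) (e := e)
        (fun y => add_nonneg (hs0 y) (he0 y)) he0
      have h4 : (∑ y, (s y + e y) ^ 4) ^ (3 / 4 : ℝ) ≤ 8 ^ (3 / 4 : ℝ) * (W + ω) ^ (3 / 4 : ℝ) := by
        rw [← Real.mul_rpow (by norm_num) hS.le]
        exact Real.rpow_le_rpow (sum_nonneg (fun y _ => by positivity)) hSE (by norm_num)
      have h5 : (∑ y, e y ^ 4) ^ (1 / 4 : ℝ) ≤ 4 * R * lam * a * B ^ (1 / 4 : ℝ) := by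
        calc (∑ y, e y ^ 4) ^ (1 / 4 : ℝ) ≤ ((4 * R * lam * a) ^ 4 * B) ^ (1 / 4 : ℝ) :=
              Real.rpow_le_rpow (sum_nonneg (fun y _ => by positivity)) hesum (by norm_num)
          _ = 4 * R * lam * a * B ^ (1 / 4 : ℝ) := by
              rw [Real.mul_rpow (by positivity) hB0, ← Real.rpow_natCast (4 * R * lam * a) 4,
                ← Real.rpow_mul (by positivity)]
              norm_num
      have h6 := wd_const
      have hBB : 0 ≤ B ^ (1 / 4 : ℝ) := Real.rpow_nonneg hB0 _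
      have hSS : 0 ≤ (W + ω) ^ (3 / 4 : ℝ) := Real.rpow_nonneg hS.le _
      calc 4 * ∑ y, (s y + e y) ^ 3 * e y
          ≤ 4 * ((8 ^ (3 / 4 : ℝ) * (W + ω) ^ (3 / 4 : ℝ)) * (4 * R * lam * a * B ^ (1 / 4 : ℝ))) := by
            refine mul_le_mul_of_nonneg_left (h3.trans ?_) (by norm_num)
            exact mul_le_mul h4 h5 (Real.rpow_nonneg (sum_nonneg (fun y _ => by positivity)) _)
              (by positivity)
        _ = (4 * 8 ^ (3 / 4 : ℝ) * 4) * (R * lam * a * B ^ (1 / 4 : ℝ) * (W + ω) ^ (3 / 4 : ℝ)) := by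
            ring
        _ ≤ 80 * (R * lam * a * B ^ (1 / 4 : ℝ) * (W + ω) ^ (3 / 4 : ℝ)) := by gcongr
        _ = _ := by ring
    have hsplit : Pz H M lam z w P V y - Pz H M lam z w P (Function.update V x t) y =
        ((W ^ P - W' ^ P : ℝ) : ℂ) * (Zv H M lam z w V y * starRingEnd ℂ (Zv H M lam z w V y) ^ 2) +
        ((W' ^ P : ℝ) : ℂ) * (Zv H M lam z w V y * starRingEnd ℂ (Zv H M lam z w V y) ^ 2 -
          Zv H M lam z w (Function.update V x t) y *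
            starRingEnd ℂ (Zv H M lam z w (Function.update V x t) y) ^ 2) := by
      unfold Pz
      push_cast
      ring
    have hcube := wd_cube (hZ y)
    have hn1 : ‖Zv H M lam z w V y * starRingEnd ℂ (Zv H M lam z w V y) ^ 2‖ = s y ^ 3 := by
      rw [norm_mul, norm_pow, RCLike.norm_conj]
      simp only [hsdef]
      ring
    have hP : |W ^ P - W' ^ P| ≤ 10 * P * 8 ^ P * R * (lam * a * B ^ (1 / 4 : ℝ) *
        (W + ω) ^ ((P : ℝ) - 1 / 4)) := by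
      rcases Nat.eq_zero_or_pos P with hP0 | hP0
      · subst hP0
        simp
      · have h1 := wd_powP P hW0 hW'0 hWle hW'le
        have h2 : (W + ω) ^ (3 / 4 : ℝ) * (W + ω) ^ (P - 1) = (W + ω) ^ ((P : ℝ) - 1 / 4) := by
          rw [← Real.rpow_natCast, ← Real.rpow_add hS, Nat.cast_sub hP0]
          congr 1
          push_cast
          ring
        have h3 : (8 : ℝ) ^ P = 8 * 8 ^ (P - 1) := by
          conv_lhs => rw [show P = (P - 1) + 1 by omega]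
          rw [pow_succ]
          ring
        calc |W ^ P - W' ^ P| ≤ |W - W'| * P * (8 * (W + ω)) ^ (P - 1) := h1
          _ ≤ (80 * R * lam * a * B ^ (1 / 4 : ℝ) * (W + ω) ^ (3 / 4 : ℝ)) * P *
              (8 * (W + ω)) ^ (P - 1) := by gcongr
          _ = 10 * P * (8 * 8 ^ (P - 1)) * R * (lam * a * B ^ (1 / 4 : ℝ) *
              ((W + ω) ^ (3 / 4 : ℝ) * (W + ω) ^ (P - 1))) := by
              rw [mul_pow]
              ring
          _ = _ := by rw [h2, h3]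
    rw [hsplit]
    refine (norm_add_le _ _).trans ?_
    rw [norm_mul ((W ^ P - W' ^ P : ℝ) : ℂ), norm_mul ((W' ^ P : ℝ) : ℂ), hn1, Complex.norm_real,
      Complex.norm_real, Real.norm_eq_abs, Real.norm_eq_abs, abs_of_nonneg (pow_nonneg hW'0 P)]
    have h1 : |W ^ P - W' ^ P| * s y ^ 3 ≤ 10 * P * 8 ^ P * R * (lam * a * B ^ (1 / 4 : ℝ) *
        (W + ω) ^ ((P : ℝ) - 1 / 4)) * s y ^ 3 :=
      mul_le_mul_of_nonneg_right hP (pow_nonneg (hs0 y) 3)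
    have h2 : W' ^ P * ‖Zv H M lam z w V y * starRingEnd ℂ (Zv H M lam z w V y) ^ 2 -
          Zv H M lam z w (Function.update V x t) y *
            starRingEnd ℂ (Zv H M lam z w (Function.update V x t) y) ^ 2‖ ≤
        24 * 8 ^ P * R * ((W + ω) ^ P * (lam * ‖Gv H lam z V y x‖ * a) * (s y ^ 2 + e y ^ 2)) := by
      have h3 : (s y + e y) ^ 2 ≤ 2 * (s y ^ 2 + e y ^ 2) := by nlinarith [sq_nonneg (s y - e y)]
      calc W' ^ P * ‖Zv H M lam z w V y * starRingEnd ℂ (Zv H M lam z w V y) ^ 2 -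
          Zv H M lam z w (Function.update V x t) y *
            starRingEnd ℂ (Zv H M lam z w (Function.update V x t) y) ^ 2‖
          ≤ (8 * (W + ω)) ^ P * (3 * (s y + e y) ^ 2 * e y) := by
            refine mul_le_mul ?_ hcube (norm_nonneg _) (by positivity)
            exact pow_le_pow_left₀ hW'0 hW'le P
        _ ≤ (8 * (W + ω)) ^ P * (3 * (2 * (s y ^ 2 + e y ^ 2)) * e y) := by
            have := he0 y
            gcongr
        _ = 24 * 8 ^ P * R * ((W + ω) ^ P * (lam * ‖Gv H lam z V y x‖ * a) * (s y ^ 2 + e y ^ 2)) := by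
            simp only [hedef]
            rw [mul_pow]
            ring
    have hA : 0 ≤ lam * a * B ^ (1 / 4 : ℝ) * (W + ω) ^ ((P : ℝ) - 1 / 4) * s y ^ 3 := by
      have := hs0 y
      positivity
    have hC : 0 ≤ (W + ω) ^ P * (lam * ‖Gv H lam z V y x‖ * a) * (s y ^ 2 + e y ^ 2) := by
      positivity
    have h8 : (0 : ℝ) ≤ 8 ^ P * R := by positivity
    have hPn : (0 : ℝ) ≤ P := Nat.cast_nonneg P
    have h5 : 10 * P * 8 ^ P * R * (lam * a * B ^ (1 / 4 : ℝ) *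
        (W + ω) ^ ((P : ℝ) - 1 / 4)) * s y ^ 3 ≤ 100 * (P + 1) * 8 ^ P * R *
        (lam * a * B ^ (1 / 4 : ℝ) * (W + ω) ^ ((P : ℝ) - 1 / 4) * s y ^ 3) := by
      have h6 : 10 * (P : ℝ) * (8 ^ P * R) ≤ 100 * (P + 1) * (8 ^ P * R) :=
        mul_le_mul_of_nonneg_right (by linarith) h8
      have h7 := mul_le_mul_of_nonneg_right h6 hA
      calc _ = 10 * (P : ℝ) * (8 ^ P * R) * (lam * a * B ^ (1 / 4 : ℝ) *
            (W + ω) ^ ((P : ℝ) - 1 / 4) * s y ^ 3) := by ring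
        _ ≤ _ := h7
        _ = _ := by ring
    have h6 : 24 * 8 ^ P * R * ((W + ω) ^ P * (lam * ‖Gv H lam z V y x‖ * a) * (s y ^ 2 + e y ^ 2)) ≤
        100 * (P + 1) * 8 ^ P * R *
        ((W + ω) ^ P * (lam * ‖Gv H lam z V y x‖ * a) * (s y ^ 2 + e y ^ 2)) := by
      refine mul_le_mul_of_nonneg_right ?_ hC
      have h7 : 24 * (8 ^ P * R) ≤ 100 * ((P : ℝ) + 1) * (8 ^ P * R) :=
        mul_le_mul_of_nonneg_right (by linarith) h8
      calc 24 * 8 ^ P * R = 24 * (8 ^ P * R) := by ring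
        _ ≤ _ := h7
        _ = _ := by ring
    calc _ ≤ _ := add_le_add (h1.trans h5) (h2.trans h6)
      _ = _ := by ring

end Pool.Agent.BK3
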